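import Pool.Agent.Work.MP_4f096c_nt.BoundD

/-!
Upper bound of the linear forms for the family giving `ζ(11), ..., ζ(35)`.
-/

namespace ZG
open ZetaCert

/-- the family -/
def DB35 : Dat := ⟨306, [(69, 0), (55, 61), (59, 41), (67, 51), (61, 33), (57, 71), (71, 5), (65, 17), (63, 11)],
  [73, 75, 77, 79, 81, 83, 85, 87, 88, 89, 91, 93, 95, 97, 99, 101, 103, 105, 107, 109, 111, 113, 115, 117, 119, 121, 123, 128], 55, 73, 448⟩

/-- horizontal part of the contour -/
def hor35 : List (ℕ × ℕ × ℤ × ℤ × List ℤ) :=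
    [(1, 5090, 18913000000, 262000000, [8, 16]),
      (3, 5114, 18478000000, 4000000, [24, 48]),
      (6, 5138, 15918000000, 567000000, [72, 84, 96]),
      (12, 5171, 12851000000, 709000000, [144, 168, 180, 192]),
      (20, 5189, 9496000000, 910000000, [256, 272, 276, 320]),
      (30, 5210, 9169000000, 137000000, [328, 480]),
      (40, 5166, 5787000000, 749000000, [520, 532, 556, 640]),
      (48, 5113, 2995000000, 902000000, [656, 668, 768]),
      (52, 5078, 426000000, 951000000, [800, 816, 824, 832]),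
      (54, 5062, 98000000, 724000000, [840, 864]),
      (55, 5056, 39000000, 191000000, [872, 880])]

/-- vertical part of the contour -/
def ver35 : List (ℕ × ℕ × ℕ × ℤ × ℤ × List ℤ) :=
    [(2, 1, 5056, 133000000, 0, [11, 14, 17, 20, 23, 26, 29, 32]),
      (6, 1, 5056, 155000000, 27000000, [40, 48, 56, 64, 72, 80, 88, 96]),
      (10, 1, 5054, 50000000, 37000000, [104, 112, 120, 128, 136, 144, 152, 160]),
      (14, 1, 5051, -91000000, 42000000, [168, 176, 184, 192, 200, 208, 216, 224]),
      (20, 1, 5042, -354000000, 52000000, [236, 248, 260, 272, 284, 296, 308, 320]),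
      (30, 1, 5013, -916000000, 66000000, [340, 360, 380, 400, 420, 440, 460, 480]),
      (50, 1, 4900, -2322000000, 79000000, [520, 560, 600, 640, 680, 720, 760, 800])]

set_option maxRecDepth 100000 in
theorem chkH35 : chHZ DB35 1 1 2 (12632/5) 16 8 0
    (((5078 : ℕ) : ℚ) / (2 * ((1 : ℕ) : ℚ)) -
      ((1 : ℕ) : ℚ) / ((2 : ℕ) : ℚ) * (((20050000000 : ℤ) : ℚ) / 1000000000)) hor35 = true := by
  decide +kernel

set_option maxRecDepth 100000 in
theorem chkV35 : chVZ DB35 1 55 (12632/5) 16 8
    (((5056 : ℕ) : ℚ) / (2 * ((1 : ℕ) : ℚ)) -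
      ((1 : ℕ) : ℚ) / ((2 : ℕ) : ℚ) * (((39000000 : ℤ) : ℚ) / 1000000000)) ver35 = true := by
  decide +kernel

set_option maxRecDepth 100000 in
theorem chkS35 : chSyZ (atoms DB35) ((55 : ℕ) : ℤ) (-(1000000 : ℤ)) 50 1
    [62, 80, 107, 147, 207, 297, 432, 735, 1756] = true := by
  decide +kernel

set_option maxRecDepth 100000 in
theorem chkQ35 : chQyZ (atoms DB35) 0 16 0 [8] = true := by
  decide +kernel

set_option maxRecDepth 100000 in
theorem chkE35 : evalBZ DB35 0 1 2 1 5078 (20050000000) = true := by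
  decide +kernel

set_option maxRecDepth 100000 in
theorem chkX35 : evalBZ DB35 ((55 : ℕ) : ℤ) 1 2 1 5056 (39000000) = true := by
  decide +kernel

end ZG
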