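import Pool.Agent.Work.MP_4f096c_nt.GBound3
import Pool.Agent.Work.MP_4f096c_nt.ChkB35

/-!
Upper bound of the linear forms for the family giving `ζ(11), ..., ζ(35)`.
-/

namespace ZG
open ZetaCert

set_option maxRecDepth 100000 in
theorem bnd35 (d : ℕ) : ∀ᶠ n : ℕ in Filter.atTop,
    ‖ZG.Lf (DB35.fam.par n) d 0‖ ≤ Real.exp (-((12631/5 : ℚ) : ℝ) * n) := by
  refine bound_dat3 DB35 (X := 55) (P0 := 1) (Q0 := 2) (w := 1)
    (k0 := 5078) (S0 := 20050000000) (kX := 5056) (SX := 39000000) (PL := 50) (QL := 1)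
    (cδ := 1000000) (C := 12632/5) (d := 16) (m0 := 8)
    (ys0 := [8]) (hor := hor35) (ver := ver35)
    (zs := [62, 80, 107, 147, 207, 297, 432, 735, 1756])
    (by decide +kernel) (by norm_num) (by norm_num) (by norm_num) (by norm_num) (by norm_num)
    (by norm_num) (by norm_num) (by norm_num) (by norm_num) (by simp)
    (by decide +kernel) chkQ35 chkE35 (by decide +kernel)
    chkH35 (by decide +kernel) chkX35 (by decide +kernel)
    chkV35 (by decide +kernel) chkS35 (by decide +kernel) d

end ZG
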