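import Mathlib.Data.Nat.Notation
import Mathlib.Data.Int.Notation

/-!
Definitions of the sweep and of the systems of step functions.
-/

section

/-!
Kernel friendly sweep through a Farey sequence: many step functions
`x ↦ const + sum coef * floor (z * x)` are followed at once, packed as the digits of one natural
number. Definitions.
-/

namespace ZetaSweep

/-- a step function: constant `cp - cn`, terms `(multiplier, coefficient)` -/
structure Cand where
  cp : ℕ
  cn : ℕ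
  pos : List (ℕ × ℕ)
  neg : List (ℕ × ℕ)
deriving DecidableEq

noncomputable def band (x y : Bool) : Bool := Bool.rec false y x

/-- weighted sum -/
noncomputable def ws (f : ℕ → ℕ) (l : List (ℕ × ℕ)) : ℕ :=
  @List.rec (ℕ × ℕ) (fun _ => ℕ) 0 (fun e _ ih => Nat.add (Nat.mul e.2 (f e.1)) ih) l

/-- the value at `x = a / b` -/
noncomputable def Cand.val (t : Cand) (a b : ℕ) : ℤ :=
  ((t.cp + ws (fun z => z * a / b) t.pos : ℕ) : ℤ) -
    ((t.cn + ws (fun z => z * a / b) t.neg : ℕ) : ℤ)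

/-- indicator of divisibility -/
noncomputable def dv (b z : ℕ) : ℕ := Bool.rec 0 1 (Nat.beq (Nat.mod z b) 0)

/-- packing with base `B` -/
noncomputable def pk (B : ℕ) (f : Cand → ℕ) (l : List Cand) : ℕ :=
  @List.rec Cand (fun _ => ℕ) 0 (fun t _ ih => Nat.add (f t) (Nat.mul B ih)) l

/-- binary tree of rows -/
inductive BT where
  | lf (p : ℕ)
  | nd (l r : BT)

noncomputable def BT.get (t : BT) : ℕ → ℕ :=
  @BT.rec (fun _ => ℕ → ℕ) (fun p _ => p)
    (fun _ _ il ir b => Bool.rec (il (Nat.div b 2)) (ir (Nat.div b 2)) (Nat.beq (Nat.mod b 2) 1)) t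

noncomputable def tst (ones HM c W t : ℕ) : Bool :=
  Nat.beq (Nat.land (Nat.add W (Nat.mul ones (Nat.sub c t))) HM) HM

noncomputable def bst (ones HM c W j t : ℕ) : ℕ :=
  Bool.rec t (Nat.add t j) (tst ones HM c W (Nat.add t j))

/-- largest `t < 64` passing the test -/
noncomputable def ft (ones HM c W : ℕ) : ℕ :=
  bst ones HM c W 1 (bst ones HM c W 2 (bst ones HM c W 4 (bst ones HM c W 8
    (bst ones HM c W 16 (bst ones HM c W 32 0)))))

/-- the sweep, `fuel` steps, comparing the final state with a target -/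
noncomputable def loop (N q1 M ones HM c c0 : ℕ) (R : ℕ → ℕ) (ta tb ta' tb' tW tacc : ℕ)
    (fuel : ℕ) : ℕ → ℕ → ℕ → ℕ → ℕ → ℕ → Bool :=
  @Nat.rec (fun _ => ℕ → ℕ → ℕ → ℕ → ℕ → ℕ → Bool)
    (fun a b a' b' W acc => band (Nat.beq a ta) (band (Nat.beq b tb) (band (Nat.beq a' ta')
      (band (Nat.beq b' tb') (band (Nat.beq W tW) (Nat.ble acc tacc))))))
    (fun _ ih a b a' b' W acc =>
      band (tst ones HM c W (ft ones HM c W))
        (band (Nat.ble c0 (Nat.add W (R b')))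
          (band (Nat.ble acc tacc)
            (ih a' b' (Nat.sub (Nat.mul (Nat.div (Nat.add N b) b') a') a)
              (Nat.sub (Nat.mul (Nat.div (Nat.add N b) b') b') b)
              (Nat.sub (Nat.add W (R b')) c0)
              (Nat.succ (Nat.add acc (Nat.div (Nat.mul (Nat.sub q1 (ft ones HM c W)) M)
                (Nat.mul a a'))))))))
    fuel

/-- all, kernel friendly -/
noncomputable def allB {α : Type} (f : α → Bool) (l : List α) : Bool :=
  @List.rec α (fun _ => Bool) true (fun e _ ih => band (f e) ih) l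

noncomputable def okB (N off am bm : ℕ) (t : Cand) : Bool :=
  band (allB (fun e => band (Nat.ble 1 e.1) (Nat.ble e.1 N)) t.pos)
    (band (allB (fun e => band (Nat.ble 1 e.1) (Nat.ble e.1 N)) t.neg)
    (band (Nat.ble (Nat.add (Nat.mul (Nat.add t.cn (ws (fun _ => 1) t.pos)) bm)
        (Nat.mul (Nat.sub (ws (fun z => z) t.neg) (ws (fun z => z) t.pos)) am)) (Nat.mul off bm))
      (Nat.ble (Nat.add (Nat.mul (Nat.add t.cp (ws (fun _ => 1) t.neg)) bm)
        (Nat.mul (Nat.sub (ws (fun z => z) t.pos) (ws (fun z => z) t.neg)) am)) (Nat.mul off bm))))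

noncomputable def rowB (B c0 : ℕ) (R : ℕ → ℕ) (cs : List Cand) (N : ℕ) : Bool :=
  @Nat.rec (fun _ => Bool) true (fun k ih => band
    (Nat.beq (Nat.add (R (Nat.succ k)) (pk B (fun t => ws (dv (Nat.succ k)) t.neg) cs))
      (Nat.add (pk B (fun t => ws (dv (Nat.succ k)) t.pos) cs) c0)) ih) N

/-- sum of a table against powers, from `1` to `N` -/
noncomputable def tsum (Y : ℕ) (P : ℕ → ℕ) (N : ℕ) : ℕ :=
  @Nat.rec (fun _ => ℕ) 0 (fun k ih => Nat.add ih (Nat.mul (P (Nat.succ k)) (Nat.pow Y (Nat.succ k)))) N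

/-- the entries of a table are below `Y` -/
noncomputable def tlt (Y : ℕ) (P : ℕ → ℕ) (N : ℕ) : Bool :=
  @Nat.rec (fun _ => Bool) (Nat.beq (P 0) 0)
    (fun k ih => band (Nat.blt (P (Nat.succ k)) Y) ih) N

/-- check that a table lists the coefficients -/
noncomputable def tabB (B Y N : ℕ) (P : ℕ → ℕ) (sel : Cand → List (ℕ × ℕ)) (cs : List Cand) : Bool :=
  band (tlt Y P N) (band (Nat.blt (pk B (fun t => ws (fun _ => 1) (sel t)) cs) Y)
    (Nat.beq (pk B (fun t => ws (fun z => Nat.pow Y z) (sel t)) cs) (tsum Y P N)))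

/-- sum over the multiples -/
noncomputable def msum (P : ℕ → ℕ) (b n : ℕ) : ℕ :=
  @Nat.rec (fun _ => ℕ) 0 (fun k ih => Nat.add ih (P (Nat.mul b (Nat.succ k)))) n

/-- check of the rows against the tables -/
noncomputable def rowC (c0 : ℕ) (R P Q : ℕ → ℕ) (N : ℕ) (m : ℕ) : Bool :=
  @Nat.rec (fun _ => Bool) true (fun k ih => band
    (Nat.beq (Nat.add (R (Nat.succ k)) (msum Q (Nat.succ k) (Nat.div N (Nat.succ k))))
      (Nat.add (msum P (Nat.succ k) (Nat.div N (Nat.succ k))) c0)) ih) m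

/-- test of two words -/
noncomputable def tst2 (ones HM c W V t : ℕ) : Bool :=
  Nat.beq (Nat.land (Nat.lor (Nat.add W (Nat.mul ones (Nat.sub c t)))
    (Nat.add V (Nat.mul ones (Nat.sub c t)))) HM) HM

noncomputable def bst2 (ones HM c W V j t : ℕ) : ℕ :=
  Bool.rec t (Nat.add t j) (tst2 ones HM c W V (Nat.add t j))

/-- largest `t` passing the test, with the given binary steps -/
noncomputable def ft2 (ones HM c W V : ℕ) (js : List ℕ) : ℕ :=
  @List.rec ℕ (fun _ => ℕ) 0 (fun j _ ih => bst2 ones HM c W V j ih) js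

/-- the sweep with two words -/
noncomputable def loop2 (js : List ℕ) (N q1 M ones HM c c0 : ℕ) (R Q : ℕ → ℕ)
    (ta tb ta' tb' tW tV tacc : ℕ) (fuel : ℕ) : ℕ → ℕ → ℕ → ℕ → ℕ → ℕ → ℕ → Bool :=
  @Nat.rec (fun _ => ℕ → ℕ → ℕ → ℕ → ℕ → ℕ → ℕ → Bool)
    (fun a b a' b' W V acc => band (Nat.beq a ta) (band (Nat.beq b tb) (band (Nat.beq a' ta')
      (band (Nat.beq b' tb') (band (Nat.beq W tW) (band (Nat.beq V tV) (Nat.ble acc tacc)))))))
    (fun _ ih a b a' b' W V acc =>
      band (tst2 ones HM c W V (ft2 ones HM c W V js))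
        (band (Nat.ble c0 (Nat.add W (R b')))
          (band (Nat.ble c0 (Nat.add V (Q b')))
            (band (Nat.ble acc tacc)
              (ih a' b' (Nat.sub (Nat.mul (Nat.div (Nat.add N b) b') a') a)
                (Nat.sub (Nat.mul (Nat.div (Nat.add N b) b') b') b)
                (Nat.sub (Nat.add W (R b')) c0)
                (Nat.sub (Nat.add V (Q b')) c0)
                (Nat.succ (Nat.add acc (Nat.div (Nat.mul (Nat.sub q1 (ft2 ones HM c W V js)) M)
                  (Nat.mul a a')))))))))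
    fuel

end ZetaSweep

namespace ZetaCert

open ZetaSweep

/-- packing of `k + sum coef * floor` values -/
noncomputable def initB (B off : ℕ) (cs : List Cand) (a b W : ℕ) : Bool :=
  Nat.beq (Nat.add W (pk B (fun t => Nat.add t.cn (ws (fun z => Nat.div (Nat.mul z a) b) t.neg)) cs))
    (pk B (fun t => Nat.add (Nat.add t.cp (ws (fun z => Nat.div (Nat.mul z a) b) t.pos)) off) cs)

end ZetaCert

end

section

/-!
Data of a family and the systems of step functions. Definitions.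
-/

namespace ZetaCert

open ZetaSweep (Cand)

/-- terms at the class of `c n` -/
def tc (η : ℤ) (A : List (ℕ × ℕ)) (B : List ℕ) (c : ℤ) : List (ℤ × ℤ) :=
  (A.flatMap fun e : ℕ × ℕ => [(1, c + e.2), (-1, c - e.1), (1, η - c + e.2), (-1, η - c - e.1),
    (-2, (e.1 : ℤ) + e.2)]) ++
  (B.flatMap fun b : ℕ => [(1, η - 2 * b), (-1, c - b), (-1, η - b - c)])

/-- terms at the class of `(η + h) n + 1` -/
def te (η : ℤ) (A : List (ℕ × ℕ)) (B : List ℕ) (h : ℤ) : List (ℤ × ℤ) :=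
  (A.flatMap fun e : ℕ × ℕ => [(1, η + e.2 + h), (-1, η + h - e.1), (1, (e.2 : ℤ) - h), (1, h + e.1),
    (-2, (e.1 : ℤ) + e.2)]) ++
  (B.flatMap fun b : ℕ => [(1, η - 2 * b), (-1, η + h - b), (1, h + b)])

/-- constant at the class of `(η + h) n + 1` -/
def ke (A : List (ℕ × ℕ)) (B : List ℕ) (h : ℤ) : ℤ :=
  (A.map fun e : ℕ × ℕ => if (e.2 : ℤ) = h then (0 : ℤ) else 1).sum + B.length

/-- data: `A` = numerator parameters `(a_j, g_j)`, `B` = denominator parameters, `N` = bound for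
all multipliers -/
structure Dat where
  η : ℕ
  A : List (ℕ × ℕ)
  B : List ℕ
  a0 : ℕ
  b0 : ℕ
  N : ℕ

/-- step function from a constant and a list of terms `(coefficient, multiplier)` -/
def ofT (k : ℤ) : List (ℤ × ℤ) → Cand
  | [] => ⟨k.toNat, (-k).toNat, [], []⟩
  | e :: l =>
    match e.1, e.2 with
    | Int.ofNat _, Int.ofNat 0 => ofT k l
    | Int.negSucc _, Int.ofNat 0 => ofT k l
    | Int.ofNat c, Int.ofNat (m + 1) =>
      ⟨(ofT k l).cp, (ofT k l).cn, (m + 1, c) :: (ofT k l).pos, (ofT k l).neg⟩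
    | Int.negSucc c, Int.ofNat (m + 1) =>
      ⟨(ofT k l).cp, (ofT k l).cn, (ofT k l).pos, (m + 1, c + 1) :: (ofT k l).neg⟩
    | Int.ofNat c, Int.negSucc m =>
      ⟨(ofT k l).cp, (ofT k l).cn + c, (ofT k l).pos, (m + 1, c) :: (ofT k l).neg⟩
    | Int.negSucc c, Int.negSucc m =>
      ⟨(ofT k l).cp + (c + 1), (ofT k l).cn, (m + 1, c + 1) :: (ofT k l).pos, (ofT k l).neg⟩

/-- system for the region `x ≥ 2 / (η - 2 a0)` -/
def Dat.cF (D : Dat) (C H : List ℕ) : List Cand :=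
  (C.map fun c : ℕ => ofT 0 (tc D.η D.A D.B c)) ++
  (H.map fun h : ℕ => ofT (ke D.A D.B h) (te D.η D.A D.B h))

/-- terms of `-alt` -/
def Dat.altT (D : Dat) : List (ℤ × ℤ) :=
  (D.A.map fun e : ℕ × ℕ => ((-2 : ℤ), (e.1 : ℤ) + e.2)) ++
  (D.B.map fun b : ℕ => ((1 : ℤ), (D.η : ℤ) - 2 * b))

/-- system for small `x`; `q = r + s - 1` -/
def Dat.cA (D : Dat) (C H : List ℕ) (q : ℤ) : List Cand :=
  (C.map fun c : ℕ => ofT q ((-q, (D.η : ℤ) - D.b0 - c) :: tc D.η D.A D.B c)) ++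
  ((H.map fun h : ℕ => ofT (ke D.A D.B h + 2 * q) ((-q, (D.η : ℤ) + h - D.a0) :: (q, (D.b0 : ℤ) + h) ::
    te D.η D.A D.B h)) ++
  [ofT q D.altT])

/-- terms counting the floor data which change along the arc of the class `c n` -/
def nc (η : ℤ) (A : List (ℕ × ℕ)) (B : List ℕ) (c : ℤ) : List (ℤ × ℤ) :=
  (A.flatMap fun e : ℕ × ℕ => [(1, η - c - e.1), (-1, c - e.1), (-1, η - 2 * c), (1, η - c + e.2),
    (-1, c + e.2), (-1, η - 2 * c)]) ++
  (B.flatMap fun b : ℕ => [(1, η - c - b), (-1, c - b), (-1, η - 2 * c)])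

/-- terms counting the floor data which change along the arc of the class `(η + h) n + 1` -/
def nh (η : ℤ) (A : List (ℕ × ℕ)) (B : List ℕ) (h : ℤ) : List (ℤ × ℤ) :=
  (A.flatMap fun e : ℕ × ℕ => [(1, -(h + e.1)), (-1, -(η + 2 * h)), (-1, η + h - e.1),
    (1, (e.2 : ℤ) - h), (-1, -(η + 2 * h)), (-1, η + h + e.2)]) ++
  (B.flatMap fun b : ℕ => [(1, -(h + b)), (-1, -(η + 2 * h)), (-1, η + h - b)])

/-- correction at the class `(η + h) n + 1` -/
def kh (A : List (ℕ × ℕ)) (h : ℤ) : ℤ :=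
  (A.map fun e : ℕ × ℕ => if (e.2 : ℤ) = h then (1 : ℤ) else 0).sum

/-- negated terms -/
def ng (l : List (ℤ × ℤ)) : List (ℤ × ℤ) := l.map fun e => (-e.1, e.2)

/-- second system for the region `x ≥ 2 / (η - 2 a0)` -/
def Dat.cF2 (D : Dat) (C H : List ℕ) : List Cand :=
  (C.map fun c : ℕ => ofT 1 (tc D.η D.A D.B c ++ ng (nc D.η D.A D.B c))) ++
  (H.map fun h : ℕ => ofT (ke D.A D.B h + 1 + kh D.A h)
    (te D.η D.A D.B h ++ ng (nh D.η D.A D.B h)))

/-- second system for small `x`; `q = r + s - 1` -/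
def Dat.cA2 (D : Dat) (C H : List ℕ) (q : ℤ) : List Cand :=
  (C.map fun c : ℕ => ofT (q + 1) ((-q, (D.η : ℤ) - D.b0 - c) ::
    (tc D.η D.A D.B c ++ ng (nc D.η D.A D.B c)))) ++
  ((H.map fun h : ℕ => ofT (ke D.A D.B h + 2 * q + 1 + kh D.A h)
    ((-q, (D.η : ℤ) + h - D.a0) :: (q, (D.b0 : ℤ) + h) ::
    (te D.η D.A D.B h ++ ng (nh D.η D.A D.B h)))) ++
  [ofT q D.altT])

end ZetaCert

end
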