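import Mathlib
import Pool.Agent.Work.MP_4f096c_nt.SweepD

/-!
Soundness of the sweep, static data, states.
-/

section

/-!
Kernel friendly sweep through a Farey sequence: many step functions
`x ↦ const + sum coef * floor (z * x)` are followed at once, packed as the digits of one natural
number.
-/

namespace ZetaSweep

/-! ### Basic facts -/

theorem band_eq (x y : Bool) : band x y = (x && y) := by cases x <;> rfl

theorem dv_eq (b z : ℕ) : dv b z = if b ∣ z then 1 else 0 := by
  unfold dv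
  by_cases h : b ∣ z
  · have h1 : Nat.beq (Nat.mod z b) 0 = true := by
      rw [Nat.beq_eq]; exact Nat.mod_eq_zero_of_dvd h
    rw [h1, if_pos h]
  · have h1 : Nat.beq (Nat.mod z b) 0 = false := by
      rw [Bool.eq_false_iff]
      intro h2
      exact h (Nat.dvd_of_mod_eq_zero (Nat.eq_of_beq_eq_true h2))
    rw [h1, if_neg h]

theorem ws_nil (f : ℕ → ℕ) : ws f [] = 0 := rfl

theorem ws_cons (f : ℕ → ℕ) (e : ℕ × ℕ) (l : List (ℕ × ℕ)) :
    ws f (e :: l) = e.2 * f e.1 + ws f l := rfl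

/-- Farey neighbours -/
structure Nb (N a b a' b' : ℕ) : Prop where
  ha : 0 < a
  hb : 0 < b
  hb' : 0 < b'
  hbN : b ≤ N
  hbN' : b' ≤ N
  hN : N < b + b'
  det : a' * b = a * b' + 1

theorem Nb.ha' {N a b a' b' : ℕ} (h : Nb N a b a' b') : 0 < a' := by
  rcases Nat.eq_zero_or_pos a' with h0 | h0
  · have := h.det
    rw [h0] at this
    omega
  · exact h0

/-- no fraction with denominator at most `N` strictly between neighbours -/
theorem Nb.gap {N a b a' b' : ℕ} (h : Nb N a b a' b') {z m : ℕ} (hz : z ≤ N)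
    (h1 : z * a < m * b) : z * a' ≤ m * b' := by
  by_contra hc
  push Not at hc
  -- z = z (a' b - a b') = b (a' z - m b') + b' (m b - a z) ≥ b + b'
  have h2 : (1 : ℤ) ≤ (z : ℤ) * a' - m * b' := by
    have : (m : ℤ) * b' < z * a' := by exact_mod_cast hc
    linarith
  have h3 : (1 : ℤ) ≤ (m : ℤ) * b - z * a := by
    have : (z : ℤ) * a < m * b := by exact_mod_cast h1
    linarith
  have hdet : (a' : ℤ) * b = a * b' + 1 := by exact_mod_cast h.det
  have h4 : (z : ℤ) = b * ((z : ℤ) * a' - m * b') + b' * ((m : ℤ) * b - z * a) := by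
    linear_combination (-(z : ℤ)) * hdet
  have hb : (0 : ℤ) < b := by exact_mod_cast h.hb
  have hb' : (0 : ℤ) < b' := by exact_mod_cast h.hb'
  have h5 : (b : ℤ) ≤ b * ((z : ℤ) * a' - m * b') := by nlinarith
  have h6 : (b' : ℤ) ≤ b' * ((m : ℤ) * b - z * a) := by nlinarith
  have h7 : (N : ℤ) < b + b' := by exact_mod_cast h.hN
  have h8 : (z : ℤ) ≤ N := by exact_mod_cast hz
  linarith

theorem Nb.lt_step {N a b a' b' : ℕ} (h : Nb N a b a' b') {z : ℕ} (hz : z ≤ N) :
    z * a' ≤ (z * a / b + 1) * b' := by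
  apply h.gap hz
  have := Nat.lt_div_mul_add (a := z * a) (b := b) h.hb
  rw [add_mul, one_mul]
  exact this

theorem Nb.floor_step {N a b a' b' : ℕ} (h : Nb N a b a' b') {z : ℕ} (hz0 : 1 ≤ z)
    (hz : z ≤ N) : z * a' / b' = z * a / b + dv b' z := by
  rw [dv_eq]
  have hcop : Nat.Coprime b' a' := by
    have h1 : Nat.gcd b' a' ∣ 1 := by
      have h2 : Nat.gcd b' a' ∣ a' * b := Dvd.dvd.mul_right (Nat.gcd_dvd_right _ _) _
      have h3 : Nat.gcd b' a' ∣ a * b' := Dvd.dvd.mul_left (Nat.gcd_dvd_left _ _) _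
      rw [h.det] at h2
      exact (Nat.dvd_add_right h3).1 h2
    exact Nat.dvd_one.1 h1
  -- z a / b < z a' / b'
  have hlt : z * a * b' < z * a' * b := by
    have : z * (a' * b) = z * (a * b') + z := by rw [h.det]; ring
    nlinarith
  have hup := h.lt_step hz
  have hfl : z * a / b * b ≤ z * a := Nat.div_mul_le_self _ _
  have hle : z * a / b ≤ z * a' / b' := by
    rw [Nat.le_div_iff_mul_le h.hb']
    have h1 : (z * a / b * b') * b ≤ (z * a') * b := by
      calc (z * a / b * b') * b = (z * a / b * b) * b' := by ring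
        _ ≤ z * a * b' := Nat.mul_le_mul_right _ hfl
        _ ≤ z * a' * b := hlt.le
    exact Nat.le_of_mul_le_mul_right h1 h.hb
  by_cases hd : b' ∣ z
  · rw [if_pos hd]
    obtain ⟨k, rfl⟩ := hd
    have e1 : b' * k * a' / b' = k * a' := by
      rw [mul_assoc, Nat.mul_div_cancel_left _ h.hb']
    rw [e1] at hle ⊢
    have h2 : k * a' ≤ b' * k * a / b + 1 := by
      have h3 : (k * a') * b' ≤ (b' * k * a / b + 1) * b' := by
        calc (k * a') * b' = b' * k * a' := by ring
          _ ≤ _ := hup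
      exact Nat.le_of_mul_le_mul_right h3 h.hb'
    have h4 : b' * k * a / b < k * a' := by
      rw [Nat.div_lt_iff_lt_mul h.hb]
      have h5 : (b' * k * a) * b' < (k * a' * b) * b' := by
        calc (b' * k * a) * b' < b' * k * a' * b := hlt
          _ = (k * a' * b) * b' := by ring
      exact Nat.lt_of_mul_lt_mul_right h5
    omega
  · rw [if_neg hd, add_zero]
    have h2 : z * a' / b' < z * a / b + 1 := by
      rw [Nat.div_lt_iff_lt_mul h.hb']
      rcases hup.lt_or_eq with h3 | h3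
      · exact h3
      · exfalso
        apply hd
        have h4 : b' ∣ z * a' := by rw [h3]; exact Dvd.intro_left _ rfl
        exact hcop.dvd_of_dvd_mul_right h4
    omega

theorem Nb.next {N a b a' b' : ℕ} (h : Nb N a b a' b') :
    Nb N a' b' ((N + b) / b' * a' - a) ((N + b) / b' * b' - b) := by
  have h1 : (N + b) / b' * b' ≤ N + b := Nat.div_mul_le_self _ _
  have h2 : N + b < (N + b) / b' * b' + b' := Nat.lt_div_mul_add h.hb'
  have h3 := h.hN
  have h7 := h.hbN'
  have h4 : b < (N + b) / b' * b' := by omega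
  have h5 : a ≤ (N + b) / b' * a' := by
    -- a < a' b / b'... : a b' < a' b and b < k b'
    have h6 : a * b' ≤ (N + b) / b' * a' * b' := by
      calc a * b' ≤ a' * b := by rw [h.det]; omega
        _ ≤ a' * ((N + b) / b' * b') := Nat.mul_le_mul_left _ h4.le
        _ = (N + b) / b' * a' * b' := by ring
    exact Nat.le_of_mul_le_mul_right h6 h.hb'
  refine ⟨h.ha', h.hb', by omega, h.hbN', by omega, by omega, ?_⟩
  zify [h5, h4.le]
  have hdet : (a' : ℤ) * b = a * b' + 1 := by exact_mod_cast h.det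
  linear_combination hdet

theorem ws_step {N a b a' b' : ℕ} (h : Nb N a b a' b') (l : List (ℕ × ℕ))
    (hl : ∀ e ∈ l, 1 ≤ e.1 ∧ e.1 ≤ N) :
    ws (fun z => z * a' / b') l = ws (fun z => z * a / b) l + ws (dv b') l := by
  induction l with
  | nil => rfl
  | cons e l ih =>
    rw [ws_cons, ws_cons, ws_cons, ih (fun e he => hl e (List.mem_cons_of_mem _ he)),
      h.floor_step (hl e List.mem_cons_self).1 (hl e List.mem_cons_self).2]
    ring

/-- static conditions on a step function, for the region `x ≤ am / bm` -/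
structure Cand.Ok (N off am bm : ℕ) (t : Cand) : Prop where
  pos : ∀ e ∈ t.pos, 1 ≤ e.1 ∧ e.1 ≤ N
  neg : ∀ e ∈ t.neg, 1 ≤ e.1 ∧ e.1 ≤ N
  lo : (t.cn + ws (fun _ => 1) t.pos) * bm + (ws (fun z => z) t.neg - ws (fun z => z) t.pos) * am ≤
    off * bm
  hi : (t.cp + ws (fun _ => 1) t.neg) * bm + (ws (fun z => z) t.pos - ws (fun z => z) t.neg) * am ≤
    off * bm

theorem ws_bound {a b : ℕ} (hb : 0 < b) (l : List (ℕ × ℕ)) :
    ws (fun z => z * a / b) l * b ≤ ws (fun z => z) l * a ∧
      ws (fun z => z) l * a ≤ (ws (fun z => z * a / b) l + ws (fun _ => 1) l) * b := by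
  induction l with
  | nil => simp [ws_nil]
  | cons e l ih =>
    rw [ws_cons, ws_cons, ws_cons]
    have h1 : e.1 * a / b * b ≤ e.1 * a := Nat.div_mul_le_self _ _
    have h2 : e.1 * a ≤ (e.1 * a / b + 1) * b := by
      have := Nat.lt_div_mul_add (a := e.1 * a) (b := b) hb
      rw [add_mul, one_mul]; exact this.le
    have h3 := Nat.mul_le_mul_left e.2 h1
    have h4 := Nat.mul_le_mul_left e.2 h2
    constructor
    · nlinarith [ih.1]
    · nlinarith [ih.2]

theorem Cand.Ok.bound {N off am bm : ℕ} {t : Cand} (h : t.Ok N off am bm) (hbm : 0 < bm)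
    {a b : ℕ} (hb : 0 < b) (hab : a * bm ≤ am * b) :
    0 ≤ t.val a b + off ∧ t.val a b + off ≤ 2 * off := by
  obtain ⟨p1, p2⟩ := ws_bound (a := a) hb t.pos
  obtain ⟨n1, n2⟩ := ws_bound (a := a) hb t.neg
  have h3 := h.lo
  have h4 := h.hi
  set P := ws (fun z => z * a / b) t.pos with hP
  set Q := ws (fun z => z * a / b) t.neg with hQ
  set SP := ws (fun z => z) t.pos
  set SN := ws (fun z => z) t.neg
  set CP := ws (fun _ => 1) t.pos
  set CN := ws (fun _ => 1) t.neg
  have key : ∀ (x y : ℕ), x * a ≤ y * a + (x - y) * a := by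
    intro x y
    rw [← add_mul]
    exact Nat.mul_le_mul_right _ (by omega)
  have key2 : ∀ (x : ℕ), x * a * bm ≤ x * am * b := by
    intro x
    calc x * a * bm = x * (a * bm) := by ring
      _ ≤ x * (am * b) := Nat.mul_le_mul_left _ hab
      _ = x * am * b := by ring
  -- upper: cp + P ≤ off + cn + Q
  have hup : t.cp + P ≤ off + Q := by
    have e1 : P * b ≤ Q * b + CN * b + (SP - SN) * a := by
      have := key SP SN
      have h5 : SN * a ≤ (Q + CN) * b := n2
      rw [add_mul] at h5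
      linarith
    have e2 : (t.cp + P) * b * bm ≤ (off + Q) * b * bm := by
      have e3 := key2 (SP - SN)
      have e4 : (P * b) * bm ≤ (Q * b + CN * b + (SP - SN) * a) * bm := Nat.mul_le_mul_right _ e1
      have e5 : ((t.cp + CN) * bm + (SP - SN) * am) * b ≤ (off * bm) * b :=
        Nat.mul_le_mul_right _ h4
      nlinarith
    rw [mul_assoc, mul_assoc] at e2
    exact Nat.le_of_mul_le_mul_right e2 (Nat.mul_pos hb hbm)
  have hlo : t.cn + Q ≤ off + P := by
    have e1 : Q * b ≤ P * b + CP * b + (SN - SP) * a := by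
      have := key SN SP
      have h5 : SP * a ≤ (P + CP) * b := p2
      rw [add_mul] at h5
      linarith
    have e2 : (t.cn + Q) * b * bm ≤ (off + P) * b * bm := by
      have e3 := key2 (SN - SP)
      have e4 : (Q * b) * bm ≤ (P * b + CP * b + (SN - SP) * a) * bm := Nat.mul_le_mul_right _ e1
      have e5 : ((t.cn + CP) * bm + (SN - SP) * am) * b ≤ (off * bm) * b :=
        Nat.mul_le_mul_right _ h3
      nlinarith
    rw [mul_assoc, mul_assoc] at e2
    exact Nat.le_of_mul_le_mul_right e2 (Nat.mul_pos hb hbm)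
  unfold Cand.val
  constructor <;> omega

theorem val_step {N a b a' b' off am bm : ℕ} (h : Nb N a b a' b') {t : Cand}
    (ht : t.Ok N off am bm) :
    t.val a' b' = t.val a b + (ws (dv b') t.pos : ℤ) - ws (dv b') t.neg := by
  unfold Cand.val
  rw [ws_step h t.pos ht.pos, ws_step h t.neg ht.neg]
  push_cast
  ring

/-! ### Packing -/

/-- integer packing -/
def pkz (B : ℤ) : List ℤ → ℤ
  | [] => 0
  | d :: l => d + B * pkz B l

theorem pk_cons (B : ℕ) (f : Cand → ℕ) (t : Cand) (l : List Cand) :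
    pk B f (t :: l) = f t + B * pk B f l := rfl

theorem pk_cast (B : ℕ) (f : Cand → ℕ) (l : List Cand) :
    ((pk B f l : ℕ) : ℤ) = pkz B (l.map fun t => (f t : ℤ)) := by
  induction l with
  | nil => rfl
  | cons t l ih =>
    rw [pk_cons, List.map_cons]
    unfold pkz
    rw [← ih]; push_cast; rfl

theorem pkz_add (B : ℤ) (f g : Cand → ℤ) (l : List Cand) :
    pkz B (l.map fun t => f t + g t) = pkz B (l.map f) + pkz B (l.map g) := by
  induction l with
  | nil => rfl
  | cons t l ih => simp only [List.map_cons, pkz, ih]; ring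

theorem pkz_sub (B : ℤ) (f g : Cand → ℤ) (l : List Cand) :
    pkz B (l.map fun t => f t - g t) = pkz B (l.map f) - pkz B (l.map g) := by
  induction l with
  | nil => rfl
  | cons t l ih => simp only [List.map_cons, pkz, ih]; ring

theorem pkz_const (B k : ℤ) (l : List Cand) :
    pkz B (l.map fun _ => k) = k * pkz B (l.map fun _ => 1) := by
  induction l with
  | nil => simp [pkz]
  | cons t l ih => simp only [List.map_cons, pkz, ih]; ring

/-- the bit test -/
theorem test_sound (w : ℕ) (l : List Cand) (f : Cand → ℕ) (hf : ∀ t ∈ l, f t < 2 ^ (w + 1))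
    (h : Nat.land (pk (2 ^ (w + 1)) f l) (pk (2 ^ (w + 1)) (fun _ => 2 ^ w) l) =
      pk (2 ^ (w + 1)) (fun _ => 2 ^ w) l) : ∀ t ∈ l, 2 ^ w ≤ f t := by
  change (pk (2 ^ (w + 1)) f l) &&& (pk (2 ^ (w + 1)) (fun _ => 2 ^ w) l) =
      pk (2 ^ (w + 1)) (fun _ => 2 ^ w) l at h
  induction l with
  | nil => simp
  | cons t l ih =>
    rw [pk_cons, pk_cons] at h
    have h2w : 2 ^ w < 2 ^ (w + 1) := Nat.pow_lt_pow_right (by norm_num) (Nat.lt_succ_self w)
    have hft := hf t List.mem_cons_self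
    have tb : ∀ (d W j : ℕ), d < 2 ^ (w + 1) → (d + 2 ^ (w + 1) * W).testBit j =
        if j < w + 1 then d.testBit j else W.testBit (j - (w + 1)) := by
      intro d W j hd
      rw [add_comm, Nat.testBit_two_pow_mul_add W hd]
    have hbit : ∀ j, ((f t + 2 ^ (w + 1) * pk (2 ^ (w + 1)) f l).testBit j &&
        (2 ^ w + 2 ^ (w + 1) * pk (2 ^ (w + 1)) (fun _ => 2 ^ w) l).testBit j) =
        (2 ^ w + 2 ^ (w + 1) * pk (2 ^ (w + 1)) (fun _ => 2 ^ w) l).testBit j := by
      intro j
      rw [← Nat.testBit_and, h]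
    intro u hu
    rcases List.mem_cons.1 hu with rfl | hu
    · have h1 := hbit w
      rw [tb _ _ _ hft, tb _ _ _ h2w, if_pos (Nat.lt_succ_self w), if_pos (Nat.lt_succ_self w),
        Nat.testBit_two_pow_self, Bool.and_true] at h1
      exact Nat.ge_two_pow_of_testBit h1
    · refine ih (fun u hu => hf u (List.mem_cons_of_mem _ hu)) ?_ u hu
      apply Nat.eq_of_testBit_eq
      intro j
      have h1 := hbit (j + (w + 1))
      rw [tb _ _ _ hft, tb _ _ _ h2w, if_neg (by omega), if_neg (by omega),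
        Nat.add_sub_cancel] at h1
      rw [Nat.testBit_and]
      exact h1

/-! ### Soundness of the sweep -/

/-- static data of a sweep -/
structure Static (N w off am bm D0 ones HM c c0 : ℕ) (R : ℕ → ℕ) (cs : List Cand) : Prop where
  ok : ∀ t ∈ cs, t.Ok N off am bm
  hbm : 0 < bm
  hoff : off < 2 ^ w
  hones : ones = pk (2 ^ (w + 1)) (fun _ => 1) cs
  hHM : HM = pk (2 ^ (w + 1)) (fun _ => 2 ^ w) cs
  hc : c + off = 2 ^ w
  hc63 : 63 ≤ c
  hc0 : c0 = pk (2 ^ (w + 1)) (fun _ => D0) cs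
  row : ∀ b, 1 ≤ b → b ≤ N → R b + pk (2 ^ (w + 1)) (fun t => ws (dv b) t.neg) cs =
    pk (2 ^ (w + 1)) (fun t => ws (dv b) t.pos) cs + c0

/-- one good interval -/
def GoodS (N q1 : ℕ) (cs : List Cand) (sa sb a b a' b' E : ℕ) : Prop :=
  Nb N a b a' b' ∧ (∀ t ∈ cs, (q1 : ℤ) - E ≤ t.val a b) ∧ sa * b ≤ a * sb

/-- a chain of intervals from `a / b` to `ta / tb` -/
def Seg (P : ℕ → ℕ → ℕ → ℕ → ℕ → Prop) (ta tb : ℕ) : List (ℕ × ℕ × ℕ) → ℕ → ℕ → Prop
  | [], a, b => a = ta ∧ b = tb
  | e :: L, a, b => P a b e.1 e.2.1 e.2.2 ∧ Seg P ta tb L e.1 e.2.1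

/-- cost of a chain -/
noncomputable def costS : List (ℕ × ℕ × ℕ) → ℕ → ℕ → ℝ
  | [], _, _ => 0
  | e :: L, a, b => e.2.2 * ((b : ℝ) / a - (e.2.1 : ℝ) / e.1) + costS L e.1 e.2.1

theorem bst_le (ones HM c W j t : ℕ) : bst ones HM c W j t ≤ t + j := by
  unfold bst
  cases tst ones HM c W (Nat.add t j)
  · exact Nat.le_add_right _ _
  · exact le_rfl

theorem ft_le (ones HM c W : ℕ) : ft ones HM c W ≤ 63 := by
  unfold ft
  have h1 := bst_le ones HM c W 32 0
  have h2 := bst_le ones HM c W 16 (bst ones HM c W 32 0)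
  have h3 := bst_le ones HM c W 8 (bst ones HM c W 16 (bst ones HM c W 32 0))
  have h4 := bst_le ones HM c W 4 (bst ones HM c W 8 (bst ones HM c W 16 (bst ones HM c W 32 0)))
  have h5 := bst_le ones HM c W 2 (bst ones HM c W 4 (bst ones HM c W 8 (bst ones HM c W 16
    (bst ones HM c W 32 0))))
  have h6 := bst_le ones HM c W 1 (bst ones HM c W 2 (bst ones HM c W 4 (bst ones HM c W 8
    (bst ones HM c W 16 (bst ones HM c W 32 0)))))
  omega

theorem tst_sound {N w off am bm D0 ones HM c c0 : ℕ} {R : ℕ → ℕ} {cs : List Cand}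
    (S : Static N w off am bm D0 ones HM c c0 R cs) {a b W t : ℕ} (hb : 0 < b)
    (hab : a * bm ≤ am * b) (ht : t ≤ 63)
    (hW : (W : ℤ) = pkz (2 ^ (w + 1)) (cs.map fun t => t.val a b + off))
    (h : tst ones HM c W t = true) : ∀ u ∈ cs, (t : ℤ) ≤ u.val a b := by
  have h1 : Nat.land (W + ones * (c - t)) HM = HM := Nat.eq_of_beq_eq_true h
  set f : Cand → ℕ := fun u => (u.val a b + off + (c - t : ℕ)).toNat with hf
  have hfc : ∀ u ∈ cs, ((f u : ℕ) : ℤ) = u.val a b + off + (c - t : ℕ) := by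
    intro u hu
    have := ((S.ok u hu).bound S.hbm hb hab).1
    rw [hf]
    exact Int.toNat_of_nonneg (by positivity)
  have h2 : W + ones * (c - t) = pk (2 ^ (w + 1)) f cs := by
    have h3 : ((W + ones * (c - t) : ℕ) : ℤ) = ((pk (2 ^ (w + 1)) f cs : ℕ) : ℤ) := by
      rw [pk_cast, List.map_congr_left hfc, pkz_add]
      push_cast
      rw [hW, S.hones, pk_cast, pkz_const _ ((c - t : ℕ) : ℤ)]
      push_cast
      ring
    exact_mod_cast h3
  rw [h2, S.hHM] at h1
  have hoff := S.hoff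
  have hc := S.hc
  have hc63 := S.hc63
  have h4 := test_sound w cs f (by
    intro u hu
    have h5 := ((S.ok u hu).bound S.hbm hb hab).2
    have h6 := hfc u hu
    have h7 : 2 ^ (w + 1) = 2 * 2 ^ w := by ring
    have h8 : ((f u : ℕ) : ℤ) < 2 * (2 ^ w : ℕ) := by
      rw [h6]
      have : ((c : ℤ)) + off = (2 ^ w : ℕ) := by exact_mod_cast hc
      have : (off : ℤ) < (2 ^ w : ℕ) := by exact_mod_cast hoff
      omega
    rw [h7]; exact_mod_cast h8) h1
  intro u hu
  have h5 := h4 u hu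
  have h6 := hfc u hu
  have h7 : ((2 ^ w : ℕ) : ℤ) ≤ (f u : ℕ) := by exact_mod_cast h5
  rw [h6] at h7
  have : ((c : ℤ)) + off = (2 ^ w : ℕ) := by exact_mod_cast hc
  omega

theorem Nb.lt {N a b a' b' : ℕ} (h : Nb N a b a' b') : a * b' ≤ a' * b := by
  rw [h.det]; omega

theorem frac_trans {a b a' b' c d : ℕ} (hb' : 0 < b') (h1 : a * b' ≤ a' * b)
    (h2 : a' * d ≤ c * b') : a * d ≤ c * b := by
  have h3 : (a * d) * b' ≤ (c * b) * b' := by
    calc (a * d) * b' = (a * b') * d := by ring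
      _ ≤ (a' * b) * d := Nat.mul_le_mul_right _ h1
      _ = (a' * d) * b := by ring
      _ ≤ (c * b') * b := Nat.mul_le_mul_right _ h2
      _ = (c * b) * b' := by ring
  exact Nat.le_of_mul_le_mul_right h3 hb'

theorem loop_mono {N q1 M ones HM c c0 : ℕ} {R : ℕ → ℕ} {ta tb ta' tb' tW tacc : ℕ} :
    ∀ (fuel a b a' b' W acc : ℕ),
      loop N q1 M ones HM c c0 R ta tb ta' tb' tW tacc fuel a b a' b' W acc = true →
      Nb N a b a' b' → a * tb ≤ ta * b := by
  intro fuel
  induction fuel with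
  | zero =>
    intro a b a' b' W acc h hN
    have h1 : band (Nat.beq a ta) (band (Nat.beq b tb) (band (Nat.beq a' ta')
      (band (Nat.beq b' tb') (band (Nat.beq W tW) (Nat.ble acc tacc))))) = true := h
    simp only [band_eq, Bool.and_eq_true, Nat.beq_eq, Nat.ble_eq] at h1
    obtain ⟨rfl, rfl, rfl, rfl, rfl, h2⟩ := h1
    exact le_rfl
  | succ fuel ih =>
    intro a b a' b' W acc h hN
    set t := ft ones HM c W with ht
    have h1 : band (tst ones HM c W t) (band (Nat.ble c0 (W + R b')) (band (Nat.ble acc tacc)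
      (loop N q1 M ones HM c c0 R ta tb ta' tb' tW tacc fuel a' b' ((N + b) / b' * a' - a)
        ((N + b) / b' * b' - b) (W + R b' - c0) (acc + (q1 - t) * M / (a * a') + 1)))) = true := h
    simp only [band_eq, Bool.and_eq_true, Nat.ble_eq] at h1
    obtain ⟨h2, h3, -, h5⟩ := h1
    exact frac_trans hN.hb' hN.lt (ih _ _ _ _ _ _ h5 hN.next)

theorem loop_sound {N w off am bm D0 ones HM c c0 : ℕ} {R : ℕ → ℕ} {cs : List Cand}
    (S : Static N w off am bm D0 ones HM c c0 R cs) (q1 M : ℕ)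
    {ta tb ta' tb' tW tacc sa sb : ℕ} (htb : 0 < tb) (hend : ta * bm ≤ am * tb) :
    ∀ (fuel a b a' b' W acc : ℕ),
      loop N q1 M ones HM c c0 R ta tb ta' tb' tW tacc fuel a b a' b' W acc = true →
      Nb N a b a' b' → (W : ℤ) = pkz (2 ^ (w + 1)) (cs.map fun t => t.val a b + off) →
      sa * b ≤ a * sb →
      Nb N ta tb ta' tb' ∧ (tW : ℤ) = pkz (2 ^ (w + 1)) (cs.map fun t => t.val ta tb + off) ∧
        sa * tb ≤ ta * sb ∧ ∃ L, Seg (GoodS N q1 cs sa sb) ta tb L a b ∧
          (M : ℝ) * costS L a b + acc ≤ tacc := by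
  intro fuel
  induction fuel with
  | zero =>
    intro a b a' b' W acc h hN hW hs
    have h1 : band (Nat.beq a ta) (band (Nat.beq b tb) (band (Nat.beq a' ta')
      (band (Nat.beq b' tb') (band (Nat.beq W tW) (Nat.ble acc tacc))))) = true := h
    simp only [band_eq, Bool.and_eq_true, Nat.beq_eq, Nat.ble_eq] at h1
    obtain ⟨rfl, rfl, rfl, rfl, rfl, h2⟩ := h1
    refine ⟨hN, hW, hs, [], ⟨rfl, rfl⟩, ?_⟩
    simp only [costS, mul_zero, zero_add]
    exact_mod_cast h2
  | succ fuel ih =>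
    intro a b a' b' W acc h hN hW hs
    set t := ft ones HM c W with ht
    have h1 : band (tst ones HM c W t) (band (Nat.ble c0 (W + R b')) (band (Nat.ble acc tacc)
      (loop N q1 M ones HM c c0 R ta tb ta' tb' tW tacc fuel a' b' ((N + b) / b' * a' - a)
        ((N + b) / b' * b' - b) (W + R b' - c0) (acc + (q1 - t) * M / (a * a') + 1)))) = true := h
    simp only [band_eq, Bool.and_eq_true, Nat.ble_eq] at h1
    obtain ⟨h2, h3, -, h5⟩ := h1
    have hab : a * bm ≤ am * b := frac_trans htb (loop_mono _ _ _ _ _ _ _ h hN) hend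
    have hval := tst_sound S hN.hb hab (ft_le _ _ _ _) hW h2
    have hW' : ((W + R b' - c0 : ℕ) : ℤ) =
        pkz (2 ^ (w + 1)) (cs.map fun t => t.val a' b' + off) := by
      rw [Nat.cast_sub h3]
      have h6 : cs.map (fun t => t.val a' b' + (off : ℤ)) =
          cs.map (fun t => (t.val a b + off) + ((ws (dv b') t.pos : ℤ) - ws (dv b') t.neg)) := by
        apply List.map_congr_left
        intro t ht
        rw [val_step hN (S.ok t ht)]; ring
      rw [h6, pkz_add, ← hW, pkz_sub, show ((2 : ℤ) ^ (w + 1)) = ((2 ^ (w + 1) : ℕ) : ℤ) by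
        push_cast; rfl, ← pk_cast, ← pk_cast]
      have h7 := S.row b' hN.hb' hN.hbN'
      push_cast
      have h8 : (R b' : ℤ) + pk (2 ^ (w + 1)) (fun t => ws (dv b') t.neg) cs =
        pk (2 ^ (w + 1)) (fun t => ws (dv b') t.pos) cs + c0 := by exact_mod_cast h7
      linarith
    have hs' : sa * b' ≤ a' * sb := frac_trans hN.hb hs hN.lt
    obtain ⟨r1, r2, r3, L, r4, r5⟩ := ih _ _ _ _ _ _ h5 hN.next hW' hs'
    refine ⟨r1, r2, r3, (a', b', q1 - t) :: L, ⟨⟨hN, ?_, hs⟩, r4⟩, ?_⟩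
    · intro u hu
      have := hval u hu
      push_cast [Nat.cast_sub]
      omega
    · simp only [costS]
      have ha : (0 : ℝ) < a := by exact_mod_cast hN.ha
      have ha' : (0 : ℝ) < a' := by exact_mod_cast hN.ha'
      have hdet : (a' : ℝ) * b = a * b' + 1 := by exact_mod_cast hN.det
      have e1 : (b : ℝ) / a - (b' : ℝ) / a' = 1 / (a * a') := by
        field_simp
        linarith
      have e2 : (((q1 - t : ℕ) : ℝ) * M) / (a * a') ≤ (((q1 - t) * M / (a * a') + 1 : ℕ) : ℝ) := by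
        rw [div_le_iff₀ (by positivity)]
        have h6 := Nat.lt_div_mul_add (a := (q1 - t) * M) (b := a * a')
          (Nat.mul_pos hN.ha hN.ha')
        have h7 : (q1 - t) * M ≤ ((q1 - t) * M / (a * a') + 1) * (a * a') := by
          rw [add_mul, one_mul]; exact h6.le
        exact_mod_cast h7
      rw [e1]
      push_cast at e2 r5 ⊢
      have e3 : (M : ℝ) * (((q1 - t : ℕ) : ℝ) * (1 / (a * a')) + costS L a' b') =
        (((q1 - t : ℕ) : ℝ) * M) / (a * a') + M * costS L a' b' := by ring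
      rw [e3]
      linarith

theorem Seg.trans {P : ℕ → ℕ → ℕ → ℕ → ℕ → Prop} {ta tb ua ub : ℕ} {L' : List (ℕ × ℕ × ℕ)}
    (h' : Seg P ua ub L' ta tb) : ∀ (L : List (ℕ × ℕ × ℕ)) (a b : ℕ), Seg P ta tb L a b →
      Seg P ua ub (L ++ L') a b ∧ costS (L ++ L') a b = costS L a b + costS L' ta tb := by
  intro L
  induction L with
  | nil =>
    intro a b h
    obtain ⟨rfl, rfl⟩ := h
    exact ⟨h', by simp [costS]⟩
  | cons e L ih =>
    intro a b h
    obtain ⟨h1, h2⟩ := ih _ _ h.2
    refine ⟨⟨h.1, h1⟩, ?_⟩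
    simp only [List.cons_append, costS, h2]
    ring

/-! ### Checking the static data -/

theorem allB_eq {α : Type} (f : α → Bool) (l : List α) : allB f l = true ↔ ∀ e ∈ l, f e = true := by
  induction l with
  | nil => simp [allB]
  | cons e l ih =>
    have : allB f (e :: l) = band (f e) (allB f l) := rfl
    rw [this, band_eq, Bool.and_eq_true, ih]
    simp

theorem okB_sound {N off am bm : ℕ} {t : Cand} (h : okB N off am bm t = true) :
    t.Ok N off am bm := by
  simp only [okB, band_eq, Bool.and_eq_true, allB_eq, Nat.ble_eq] at h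
  exact ⟨h.1, h.2.1, h.2.2.1, h.2.2.2⟩

theorem rowB_sound {B c0 : ℕ} {R : ℕ → ℕ} {cs : List Cand} {N : ℕ}
    (h : rowB B c0 R cs N = true) : ∀ b, 1 ≤ b → b ≤ N → R b + pk B (fun t => ws (dv b) t.neg) cs =
      pk B (fun t => ws (dv b) t.pos) cs + c0 := by
  induction N with
  | zero => intro b h1 h2; omega
  | succ N ih =>
    have h1 : band (Nat.beq (Nat.add (R (N + 1)) (pk B (fun t => ws (dv (N + 1)) t.neg) cs))
      (Nat.add (pk B (fun t => ws (dv (N + 1)) t.pos) cs) c0)) (rowB B c0 R cs N) = true := h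
    rw [band_eq, Bool.and_eq_true] at h1
    intro b hb1 hb2
    rcases Nat.lt_or_ge b (N + 1) with h2 | h2
    · exact ih h1.2 b hb1 (by omega)
    · obtain rfl : b = N + 1 := by omega
      exact Nat.eq_of_beq_eq_true h1.1

/-- the static data from checks -/
theorem Static.mk' {N w off am bm D0 ones HM c c0 : ℕ} {R : ℕ → ℕ} {cs : List Cand}
    (h1 : allB (okB N off am bm) cs = true) (hbm : 0 < bm)
    (h2 : Nat.beq ones (pk (2 ^ (w + 1)) (fun _ => 1) cs) = true)
    (h3 : Nat.beq HM (pk (2 ^ (w + 1)) (fun _ => 2 ^ w) cs) = true)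
    (h4 : c + off = 2 ^ w) (h5 : 63 ≤ c)
    (h6 : Nat.beq c0 (pk (2 ^ (w + 1)) (fun _ => D0) cs) = true)
    (h7 : rowB (2 ^ (w + 1)) c0 R cs N = true) : Static N w off am bm D0 ones HM c c0 R cs where
  ok := fun t ht => okB_sound ((allB_eq _ _).1 h1 t ht)
  hbm := hbm
  hoff := by omega
  hones := Nat.eq_of_beq_eq_true h2
  hHM := Nat.eq_of_beq_eq_true h3
  hc := h4
  hc63 := h5
  hc0 := Nat.eq_of_beq_eq_true h6
  row := rowB_sound h7

end ZetaSweep

end

section

/-!
A faster check of the static data of a sweep: the coefficients of all step functions are packed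
once more, with a large base.
-/

namespace ZetaSweep

open Finset

theorem ws_add (f g : ℕ → ℕ) (l : List (ℕ × ℕ)) : ws (fun z => f z + g z) l = ws f l + ws g l := by
  induction l with
  | nil => rfl
  | cons e l ih => rw [ws_cons, ws_cons, ws_cons, ih]; ring

/-- indicator of a value -/
def ind (x z : ℕ) : ℕ := if z = x then 1 else 0

theorem ws_expand (f : ℕ → ℕ) (N : ℕ) (l : List (ℕ × ℕ)) (hl : ∀ e ∈ l, e.1 ≤ N) :
    ws f l = ∑ x ∈ range (N + 1), ws (ind x) l * f x := by
  induction l with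
  | nil => simp [ws_nil]
  | cons e l ih =>
    rw [ws_cons, ih fun e' he' => hl e' (List.mem_cons_of_mem _ he')]
    have h1 : ∀ x ∈ range (N + 1), ws (ind x) (e :: l) * f x =
        e.2 * (ind x e.1 * f x) + ws (ind x) l * f x := by
      intro x _
      rw [ws_cons]; ring
    rw [Finset.sum_congr rfl h1, Finset.sum_add_distrib, ← Finset.mul_sum]
    congr 2
    have he : e.1 ∈ range (N + 1) := by
      rw [Finset.mem_range]
      have := hl e List.mem_cons_self
      omega
    rw [Finset.sum_eq_single_of_mem e.1 he]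
    · simp [ind]
    · intro b _ hb
      simp [ind, Ne.symm hb]

theorem pk_expand (B : ℕ) (sel : Cand → List (ℕ × ℕ)) (f : ℕ → ℕ) (N : ℕ) (cs : List Cand)
    (hl : ∀ t ∈ cs, ∀ e ∈ sel t, e.1 ≤ N) :
    pk B (fun t => ws f (sel t)) cs =
      ∑ x ∈ range (N + 1), pk B (fun t => ws (ind x) (sel t)) cs * f x := by
  induction cs with
  | nil =>
    have h : ∀ g : Cand → ℕ, pk B g [] = 0 := fun _ => rfl
    simp [h]
  | cons t cs ih =>
    rw [pk_cons, ih fun t' ht' => hl t' (List.mem_cons_of_mem _ ht')]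
    rw [ws_expand f N (sel t) (hl t List.mem_cons_self), Finset.mul_sum,
      ← Finset.sum_add_distrib]
    refine Finset.sum_congr rfl fun x _ => ?_
    rw [pk_cons]; ring

theorem digits_unique (Y : ℕ) : ∀ (M : ℕ) (u v : ℕ → ℕ),
    (∀ x < M, u x < Y) → (∀ x < M, v x < Y) →
    ∑ x ∈ range M, u x * Y ^ x = ∑ x ∈ range M, v x * Y ^ x → ∀ x < M, u x = v x := by
  intro M
  induction M with
  | zero => intro u v _ _ _ x hx; omega
  | succ M ih =>
    intro u v hu hv h x hx
    rw [Finset.sum_range_succ', Finset.sum_range_succ'] at h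
    have e1 : ∀ w : ℕ → ℕ, ∑ x ∈ range M, w (x + 1) * Y ^ (x + 1) + w 0 * Y ^ 0 =
        w 0 + Y * ∑ x ∈ range M, w (x + 1) * Y ^ x := by
      intro w
      rw [Finset.mul_sum, add_comm]
      congr 1
      · simp
      · refine Finset.sum_congr rfl fun x _ => ?_
        rw [pow_succ]; ring
    rw [e1 u, e1 v] at h
    have hu0 := hu 0 (by omega)
    have hv0 := hv 0 (by omega)
    have h0 : u 0 = v 0 := by
      have := congrArg (· % Y) h
      simp only [Nat.add_mul_mod_self_left] at this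
      rwa [Nat.mod_eq_of_lt hu0, Nat.mod_eq_of_lt hv0] at this
    have hY : 0 < Y := by omega
    have h1 : ∑ x ∈ range M, u (x + 1) * Y ^ x = ∑ x ∈ range M, v (x + 1) * Y ^ x := by
      rw [h0] at h
      exact Nat.eq_of_mul_eq_mul_left hY (Nat.add_left_cancel h)
    rcases x with _ | x
    · exact h0
    · exact ih (fun x => u (x + 1)) (fun x => v (x + 1)) (fun x hx => hu _ (by omega))
        (fun x hx => hv _ (by omega)) h1 x (by omega)

theorem tsum_eq (Y : ℕ) (P : ℕ → ℕ) (N : ℕ) (h0 : P 0 = 0) :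
    tsum Y P N = ∑ x ∈ range (N + 1), P x * Y ^ x := by
  induction N with
  | zero => simp [tsum, h0]
  | succ N ih =>
    rw [Finset.sum_range_succ, ← ih]
    rfl

theorem tlt_sound {Y : ℕ} {P : ℕ → ℕ} {N : ℕ} (h : tlt Y P N = true) :
    P 0 = 0 ∧ ∀ x, 1 ≤ x → x ≤ N → P x < Y := by
  induction N with
  | zero => exact ⟨Nat.eq_of_beq_eq_true h, fun x h1 h2 => by omega⟩
  | succ N ih =>
    have h1 : band (Nat.blt (P (N + 1)) Y) (tlt Y P N) = true := h
    rw [band_eq, Bool.and_eq_true] at h1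
    refine ⟨(ih h1.2).1, fun x hx1 hx2 => ?_⟩
    rcases Nat.lt_or_ge x (N + 1) with h2 | h2
    · exact (ih h1.2).2 x hx1 (by omega)
    · obtain rfl : x = N + 1 := by omega
      have := h1.1
      unfold Nat.blt at this
      exact Nat.le_of_ble_eq_true this

theorem ws_le_ws {f g : ℕ → ℕ} (h : ∀ z, f z ≤ g z) (l : List (ℕ × ℕ)) : ws f l ≤ ws g l := by
  induction l with
  | nil => exact le_rfl
  | cons e l ih =>
    rw [ws_cons, ws_cons]
    exact Nat.add_le_add (Nat.mul_le_mul_left _ (h e.1)) ih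

theorem pk_le_pk (B : ℕ) {f g : Cand → ℕ} (l : List Cand) (h : ∀ t, f t ≤ g t) :
    pk B f l ≤ pk B g l := by
  induction l with
  | nil => exact le_rfl
  | cons t l ih =>
    rw [pk_cons, pk_cons]
    exact Nat.add_le_add (h t) (Nat.mul_le_mul_left _ ih)

theorem tabB_sound {B Y N : ℕ} {P : ℕ → ℕ} {sel : Cand → List (ℕ × ℕ)} {cs : List Cand}
    (hl : ∀ t ∈ cs, ∀ e ∈ sel t, 1 ≤ e.1 ∧ e.1 ≤ N) (h : tabB B Y N P sel cs = true) (f : ℕ → ℕ) :
    pk B (fun t => ws f (sel t)) cs = ∑ x ∈ range (N + 1), P x * f x := by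
  unfold tabB at h
  rw [band_eq, band_eq, Bool.and_eq_true, Bool.and_eq_true] at h
  obtain ⟨h1, h2, h3⟩ := h
  obtain ⟨hP0, hP⟩ := tlt_sound h1
  have h2' : pk B (fun t => ws (fun _ => 1) (sel t)) cs < Y := by
    unfold Nat.blt at h2
    exact Nat.le_of_ble_eq_true h2
  have h3' := Nat.eq_of_beq_eq_true h3
  rw [tsum_eq Y P N hP0] at h3'
  have hl' : ∀ t ∈ cs, ∀ e ∈ sel t, e.1 ≤ N := fun t ht e he => (hl t ht e he).2
  rw [pk_expand B sel (fun z => Nat.pow Y z) N cs hl'] at h3'
  have key := digits_unique Y (N + 1) (fun x => pk B (fun t => ws (ind x) (sel t)) cs) P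
    (fun x _ => lt_of_le_of_lt (pk_le_pk B cs fun t => ws_le_ws (fun z => by
      unfold ind; split <;> omega) _) h2')
    (fun x hx => by
      rcases Nat.eq_zero_or_pos x with h0 | h0
      · rw [h0, hP0]
        omega
      · exact hP x h0 (by omega))
    h3'
  rw [pk_expand B sel f N cs hl']
  refine Finset.sum_congr rfl fun x hx => ?_
  rw [Finset.mem_range] at hx
  rw [key x hx]

theorem msum_eq (P : ℕ → ℕ) (b n : ℕ) : msum P b n = ∑ k ∈ range n, P (b * (k + 1)) := by
  induction n with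
  | zero => rfl
  | succ n ih => rw [Finset.sum_range_succ, ← ih]; rfl

theorem msum_dv (P : ℕ → ℕ) {b N : ℕ} (hb : 1 ≤ b) (hP0 : P 0 = 0) :
    msum P b (N / b) = ∑ x ∈ range (N + 1), P x * dv b x := by
  rw [msum_eq]
  have h1 : ∑ x ∈ range (N + 1), P x * dv b x =
      ∑ x ∈ (range (N + 1)).filter (fun x => b ∣ x ∧ 0 < x), P x := by
    rw [Finset.sum_filter]
    refine Finset.sum_congr rfl fun x _ => ?_
    rw [dv_eq]
    rcases Nat.eq_zero_or_pos x with h0 | h0
    · simp [h0, hP0]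
    · by_cases hd : b ∣ x <;> simp [hd, h0]
  rw [h1]
  refine Finset.sum_bij (fun k _ => b * (k + 1)) ?_ ?_ ?_ ?_
  · intro k hk
    rw [Finset.mem_range] at hk
    rw [Finset.mem_filter, Finset.mem_range]
    refine ⟨?_, Dvd.intro _ rfl, by positivity⟩
    have h2 : (k + 1) * b ≤ N := (Nat.le_div_iff_mul_le hb).1 hk
    have h3 : b * (k + 1) = (k + 1) * b := mul_comm _ _
    omega
  · intro k1 _ k2 _ h
    have := Nat.eq_of_mul_eq_mul_left (show 0 < b from hb) h
    omega
  · intro x hx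
    rw [Finset.mem_filter, Finset.mem_range] at hx
    obtain ⟨hx1, ⟨c, rfl⟩, hx3⟩ := hx
    have hc : 0 < c := by
      rcases Nat.eq_zero_or_pos c with h0 | h0
      · rw [h0] at hx3; simp at hx3
      · exact h0
    refine ⟨c - 1, ?_, ?_⟩
    · rw [Finset.mem_range]
      have h2 : c ≤ N / b := by
        rw [Nat.le_div_iff_mul_le hb, mul_comm]
        omega
      omega
    · show b * (c - 1 + 1) = b * c
      rw [Nat.sub_add_cancel hc]
  · intro k _
    rfl

theorem rowC_sound {c0 : ℕ} {R P Q : ℕ → ℕ} {N m : ℕ} (h : rowC c0 R P Q N m = true) :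
    ∀ b, 1 ≤ b → b ≤ m → R b + msum Q b (N / b) = msum P b (N / b) + c0 := by
  induction m with
  | zero => intro b h1 h2; omega
  | succ m ih =>
    have h1 : band (Nat.beq (Nat.add (R (Nat.succ m)) (msum Q (Nat.succ m) (Nat.div N (Nat.succ m))))
      (Nat.add (msum P (Nat.succ m) (Nat.div N (Nat.succ m))) c0)) (rowC c0 R P Q N m) = true := h
    rw [band_eq, Bool.and_eq_true] at h1
    intro b hb1 hb2
    rcases Nat.lt_or_ge b (m + 1) with h2 | h2
    · exact ih h1.2 b hb1 (by omega)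
    · obtain rfl : b = m + 1 := by omega
      exact Nat.eq_of_beq_eq_true h1.1

/-- the static data from the faster checks -/
theorem Static.mk2 {N w off am bm D0 ones HM c c0 : ℕ} {R : ℕ → ℕ} {cs : List Cand}
    (Y : ℕ) (P Q : ℕ → ℕ)
    (h1 : allB (okB N off am bm) cs = true) (hbm : 0 < bm)
    (h2 : Nat.beq ones (pk (2 ^ (w + 1)) (fun _ => 1) cs) = true)
    (h3 : Nat.beq HM (pk (2 ^ (w + 1)) (fun _ => 2 ^ w) cs) = true)
    (h4 : c + off = 2 ^ w) (h5 : 63 ≤ c)
    (h6 : Nat.beq c0 (pk (2 ^ (w + 1)) (fun _ => D0) cs) = true)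
    (h7 : tabB (2 ^ (w + 1)) Y N P Cand.pos cs = true)
    (h8 : tabB (2 ^ (w + 1)) Y N Q Cand.neg cs = true)
    (h9 : rowC c0 R P Q N N = true) : Static N w off am bm D0 ones HM c c0 R cs where
  ok := fun t ht => okB_sound ((allB_eq _ _).1 h1 t ht)
  hbm := hbm
  hoff := by omega
  hones := Nat.eq_of_beq_eq_true h2
  hHM := Nat.eq_of_beq_eq_true h3
  hc := h4
  hc63 := h5
  hc0 := Nat.eq_of_beq_eq_true h6
  row := by
    have hok : ∀ t ∈ cs, t.Ok N off am bm := fun t ht => okB_sound ((allB_eq _ _).1 h1 t ht)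
    have hP0 : P 0 = 0 := by
      have h := h7
      unfold tabB at h
      rw [band_eq, Bool.and_eq_true] at h
      exact (tlt_sound h.1).1
    have hQ0 : Q 0 = 0 := by
      have h := h8
      unfold tabB at h
      rw [band_eq, Bool.and_eq_true] at h
      exact (tlt_sound h.1).1
    intro b hb1 hb2
    have e1 := rowC_sound h9 b hb1 hb2
    have e2 := tabB_sound (fun t ht e he => (hok t ht).pos e he) h7 (dv b)
    have e3 := tabB_sound (fun t ht e he => (hok t ht).neg e he) h8 (dv b)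
    rw [e2, e3, ← msum_dv P hb1 hP0, ← msum_dv Q hb1 hQ0]
    exact e1

end ZetaSweep

end

section

/-!
States reached by the sweep.
-/

namespace ZetaCert

open ZetaSweep

theorem initB_sound {w off : ℕ} {cs : List Cand} {a b W : ℕ}
    (h : initB (2 ^ (w + 1)) off cs a b W = true) :
    (W : ℤ) = pkz (2 ^ (w + 1)) (cs.map fun t => t.val a b + off) := by
  have h1 := Nat.eq_of_beq_eq_true h
  have h2 : ((Nat.add W (pk (2 ^ (w + 1)) (fun t => Nat.add t.cn
      (ws (fun z => Nat.div (Nat.mul z a) b) t.neg)) cs) : ℕ) : ℤ) =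
      (pk (2 ^ (w + 1)) (fun t => Nat.add (Nat.add t.cp
        (ws (fun z => Nat.div (Nat.mul z a) b) t.pos)) off) cs : ℕ) := by rw [h1]
  have h3 : ((Nat.add W (pk (2 ^ (w + 1)) (fun t => Nat.add t.cn
      (ws (fun z => Nat.div (Nat.mul z a) b) t.neg)) cs) : ℕ) : ℤ) =
      (W : ℤ) + (pk (2 ^ (w + 1)) (fun t => Nat.add t.cn
      (ws (fun z => Nat.div (Nat.mul z a) b) t.neg)) cs : ℕ) := by
    show ((W + _ : ℕ) : ℤ) = _
    push_cast; rfl
  rw [h3, pk_cast, pk_cast] at h2
  have h4 : cs.map (fun t => t.val a b + (off : ℤ)) = cs.map (fun t =>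
      ((Nat.add (Nat.add t.cp (ws (fun z => Nat.div (Nat.mul z a) b) t.pos)) off : ℕ) : ℤ) -
        ((Nat.add t.cn (ws (fun z => Nat.div (Nat.mul z a) b) t.neg) : ℕ) : ℤ)) := by
    apply List.map_congr_left
    intro t _
    unfold Cand.val
    show _ = (((t.cp + ws (fun z => z * a / b) t.pos + off : ℕ)) : ℤ) -
      ((t.cn + ws (fun z => z * a / b) t.neg : ℕ) : ℤ)
    push_cast; ring
  rw [h4, pkz_sub]
  push_cast at h2 ⊢
  linarith

/-- a state reached by the sweep which started at `xa / xb` with accumulator `acc0` -/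
def RS (N w off q1 M : ℕ) (cs : List Cand) (sa sb xa xb acc0 a b a' b' W acc : ℕ) : Prop :=
  Nb N a b a' b' ∧ (W : ℤ) = pkz (2 ^ (w + 1)) (cs.map fun t => t.val a b + off) ∧
    sa * b ≤ a * sb ∧ ∃ L, Seg (GoodS N q1 cs sa sb) a b L xa xb ∧
      (M : ℝ) * costS L xa xb + acc0 ≤ acc

theorem RS.start {N w off q1 M : ℕ} {cs : List Cand} {sa sb a b a' b' W acc : ℕ}
    (hN : Nb N a b a' b') (hW : initB (2 ^ (w + 1)) off cs a b W = true) (hs : sa * b ≤ a * sb) :
    RS N w off q1 M cs sa sb a b acc a b a' b' W acc :=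
  ⟨hN, initB_sound hW, hs, [], ⟨rfl, rfl⟩, by simp [costS]⟩

theorem RS.step {N w off am bm D0 ones HM c c0 : ℕ} {R : ℕ → ℕ} {cs : List Cand}
    (S : Static N w off am bm D0 ones HM c c0 R cs) {q1 M : ℕ}
    {sa sb xa xb acc0 a b a' b' W acc ta tb ta' tb' tW tacc fuel : ℕ} (htb : 0 < tb)
    (hend : ta * bm ≤ am * tb)
    (h : loop N q1 M ones HM c c0 R ta tb ta' tb' tW tacc fuel a b a' b' W acc = true)
    (h0 : RS N w off q1 M cs sa sb xa xb acc0 a b a' b' W acc) :
    RS N w off q1 M cs sa sb xa xb acc0 ta tb ta' tb' tW tacc := by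
  obtain ⟨h1, h2, h3, L, h4, h5⟩ := h0
  obtain ⟨r1, r2, r3, L', r4, r5⟩ := loop_sound S q1 M htb hend fuel a b a' b' W acc h h1 h2 h3
  obtain ⟨s1, s2⟩ := Seg.trans r4 L xa xb h4
  refine ⟨r1, r2, r3, L ++ L', s1, ?_⟩
  rw [s2]
  linarith

end ZetaCert

end
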