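import Pool.Agent.Work.MP_4f096c_nt.Cert2
import Pool.Agent.Work.Shared.PNT.Tauber
import Pool.Agent.Work.MP_4f096c_nt.Sweep

/-!
Sums over primes and assembly of a certificate.
-/

section

/-!
The sum of the exponents over the primes (prime number theorem), for the shifted families.
Adapted from Sum.lean.
-/

namespace ZetaCert

open Filter Finset

/-! ### The sum over primes -/

/-- the `theta` version of the cost -/
noncomputable def sumR (q : ℕ) : List (ℕ × ℕ × ℕ) → ℕ → ℕ → ℕ → ℝ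
  | [], a, b, n => q * Chebyshev.theta (n * ((b : ℝ) / a))
  | e :: L, a, b, n => e.2.2 * (Chebyshev.theta (n * ((b : ℝ) / a)) -
      Chebyshev.theta (n * ((e.2.1 : ℝ) / e.1))) + sumR q L e.1 e.2.1 n

theorem Mono.pos {L : List (ℕ × ℕ × ℕ)} {a b : ℕ} (h : Mono L a b) : 1 ≤ a := by
  cases L with
  | nil => exact h
  | cons e L => exact h.1

theorem floor_mul_div (n b a : ℕ) : ⌊(n : ℝ) * ((b : ℝ) / a)⌋₊ = n * b / a := by
  rw [← mul_div_assoc, ← Nat.cast_mul, Nat.floor_div_eq_div]

theorem sum_le_theta (P : Finset ℕ) (hP : ∀ p ∈ P, p.Prime) {n a b : ℕ} (ha : 1 ≤ a) :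
    ∑ p ∈ P.filter (fun p => a * p ≤ n * b), Real.log p ≤ Chebyshev.theta (n * ((b : ℝ) / a)) := by
  unfold Chebyshev.theta
  rw [floor_mul_div]
  apply sum_le_sum_of_subset_of_nonneg
  · intro p hp
    rw [mem_filter] at hp ⊢
    refine ⟨?_, hP p hp.1⟩
    rw [mem_Ioc]
    exact ⟨(hP p hp.1).pos, (Nat.le_div_iff_mul_le ha).2 (by rw [mul_comm]; exact hp.2)⟩
  · intro p _ _
    exact Real.log_natCast_nonneg p

theorem sum_le_theta_sub (P : Finset ℕ) (hP : ∀ p ∈ P, p.Prime) {n a b a' b' : ℕ} (ha : 1 ≤ a)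
    (ha' : 1 ≤ a') (hm : a * b' ≤ b * a') :
    ∑ p ∈ P.filter (fun p => a * p ≤ n * b ∧ n * b' < a' * p), Real.log p ≤
      Chebyshev.theta (n * ((b : ℝ) / a)) - Chebyshev.theta (n * ((b' : ℝ) / a')) := by
  rw [le_sub_iff_add_le]
  unfold Chebyshev.theta
  rw [floor_mul_div, floor_mul_div, ← sum_union]
  · apply sum_le_sum_of_subset_of_nonneg
    · intro p hp
      rw [mem_union, mem_filter, mem_filter, mem_Ioc] at hp
      rw [mem_filter, mem_Ioc]
      rcases hp with hp | hp
      · exact ⟨⟨(hP p hp.1).pos, (Nat.le_div_iff_mul_le ha).2 (by rw [mul_comm]; exact hp.2.1)⟩,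
          hP p hp.1⟩
      · refine ⟨⟨hp.1.1, ?_⟩, hp.2⟩
        have h1 : p * a' ≤ n * b' := (Nat.le_div_iff_mul_le ha').1 hp.1.2
        rw [Nat.le_div_iff_mul_le ha]
        have h2 : (p * a) * a' ≤ (n * b) * a' := by
          calc (p * a) * a' = (p * a') * a := by ring
            _ ≤ (n * b') * a := Nat.mul_le_mul_right _ h1
            _ = n * (a * b') := by ring
            _ ≤ n * (b * a') := Nat.mul_le_mul_left _ hm
            _ = (n * b) * a' := by ring
        exact Nat.le_of_mul_le_mul_right h2 ha'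
    · intro p _ _
      exact Real.log_natCast_nonneg p
  · rw [Finset.disjoint_left]
    intro p hp hp'
    rw [mem_filter] at hp
    rw [mem_filter, mem_Ioc, Nat.le_div_iff_mul_le ha'] at hp'
    have h1 := hp.2.2
    have h2 := hp'.1.2
    rw [mul_comm] at h2
    omega

theorem sum_le_sumR (P : Finset ℕ) (hP : ∀ p ∈ P, p.Prime) (n q : ℕ) :
    ∀ (L : List (ℕ × ℕ × ℕ)) (a b : ℕ), Mono L a b →
      ∑ p ∈ P.filter (fun p => a * p ≤ n * b), (lookq q L n p : ℝ) * Real.log p ≤
        sumR q L a b n := by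
  intro L
  induction L with
  | nil =>
    intro a b h
    simp only [lookq, sumR]
    rw [← mul_sum]
    exact mul_le_mul_of_nonneg_left (sum_le_theta P hP h.pos) (Nat.cast_nonneg _)
  | cons e L ih =>
    intro a b h
    obtain ⟨ha, hm, h⟩ := h
    have he : 1 ≤ e.1 := h.pos
    have h1 := ih _ _ h
    have h2 := sum_le_theta_sub P hP (n := n) ha he hm
    simp only [sumR]
    have h3 := mul_le_mul_of_nonneg_left h2 (Nat.cast_nonneg (α := ℝ) e.2.2)
    refine le_trans (le_of_eq ?_) (add_le_add h3 h1)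
    rw [← sum_filter_add_sum_filter_not _ (fun p => n * e.2.1 < e.1 * p), filter_filter,
      filter_filter, mul_sum]
    congr 1
    · apply sum_congr rfl
      intro p hp
      rw [mem_filter] at hp
      simp only [lookq, if_pos hp.2.2]
    · have hset : P.filter (fun p => a * p ≤ n * b ∧ ¬ n * e.2.1 < e.1 * p) =
          P.filter (fun p => e.1 * p ≤ n * e.2.1) := by
        apply filter_congr
        intro p _
        rw [not_lt]
        constructor
        · exact fun h => h.2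
        · intro h
          refine ⟨?_, h⟩
          have h2 : (a * p) * e.1 ≤ (n * b) * e.1 := by
            calc (a * p) * e.1 = a * (e.1 * p) := by ring
              _ ≤ a * (n * e.2.1) := Nat.mul_le_mul_left _ h
              _ = n * (a * e.2.1) := by ring
              _ ≤ n * (b * e.1) := Nat.mul_le_mul_left _ hm
              _ = (n * b) * e.1 := by ring
          exact Nat.le_of_mul_le_mul_right h2 he
      rw [hset]
      apply sum_congr rfl
      intro p hp
      rw [mem_filter] at hp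
      simp only [lookq, if_neg (not_lt.2 hp.2)]

/-! ### The prime number theorem -/

theorem theta_div_tendsto (c : ℝ) (hc : 0 ≤ c) :
    Tendsto (fun n : ℕ => Chebyshev.theta (n * c) / n) atTop (nhds c) := by
  rcases hc.eq_or_lt with h0 | hc
  · subst h0
    simp [Chebyshev.theta_zero]
  obtain ⟨C, hC, h⟩ := Pool.Agent.Work.Shared.PNT.theta_sub_self_le 1
  have hlim : Tendsto (fun n : ℕ => C * c / Real.log (n * c)) atTop (nhds 0) := by
    apply Tendsto.const_div_atTop
    apply Real.tendsto_log_atTop.comp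
    exact tendsto_natCast_atTop_atTop.atTop_mul_const hc
  rw [tendsto_iff_norm_sub_tendsto_zero]
  refine squeeze_zero' (Eventually.of_forall fun n => norm_nonneg _) ?_ hlim
  have hev : ∀ᶠ n : ℕ in atTop, 2 ≤ (n : ℝ) * c :=
    (tendsto_natCast_atTop_atTop.atTop_mul_const hc).eventually_ge_atTop 2
  filter_upwards [hev, eventually_ge_atTop 1] with n hn hn1
  have hn' : (0 : ℝ) < n := by exact_mod_cast hn1
  have h1 := h (n * c) hn
  rw [Real.rpow_one] at h1
  have e1 : Chebyshev.theta (n * c) / n - c = (Chebyshev.theta (n * c) - n * c) / n := by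
    field_simp
  rw [Real.norm_eq_abs, e1, abs_div, abs_of_pos hn', div_le_iff₀ hn']
  refine h1.trans (le_of_eq ?_)
  ring

theorem sumR_tendsto {q : ℕ} : ∀ (L : List (ℕ × ℕ × ℕ)) (a b : ℕ),
    Tendsto (fun n : ℕ => sumR q L a b n / n) atTop (nhds (costR q L a b)) := by
  intro L
  induction L with
  | nil =>
    intro a b
    simp only [sumR, costR]
    have h := (theta_div_tendsto ((b : ℝ) / a) (by positivity)).const_mul (q : ℝ)
    refine h.congr fun n => ?_
    ring
  | cons e L ih =>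
    intro a b
    simp only [sumR, costR]
    have h1 := theta_div_tendsto ((b : ℝ) / a) (by positivity)
    have h2 := theta_div_tendsto ((e.2.1 : ℝ) / e.1) (by positivity)
    have h := ((h1.sub h2).const_mul (e.2.2 : ℝ)).add (ih e.1 e.2.1)
    refine h.congr fun n => ?_
    ring

/-! ### The exceptional primes -/

/-- product of the integers whose prime divisors are exceptional -/
def Wx (N n : ℕ) : ℕ := n * ∏ z ∈ range (N + 1), (z * n + 1)

theorem Wx_pos (N : ℕ) {n : ℕ} (hn : 0 < n) : 0 < Wx N n := by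
  unfold Wx
  exact Nat.mul_pos hn (Finset.prod_pos fun z _ => Nat.succ_pos _)

theorem dvd_Wx {N n p : ℕ} (h : Exc N n p) : p ∣ Wx N n := by
  unfold Wx
  rcases h with h | ⟨z, hz, h⟩
  · exact Dvd.dvd.mul_right h _
  · apply Dvd.dvd.mul_left
    exact h.trans (Finset.dvd_prod_of_mem (fun z => z * n + 1) (mem_range.2 (by omega)))

theorem log_Wx_le (N : ℕ) {n : ℕ} (hn : 0 < n) :
    Real.log (Wx N n) ≤ (N + 2) * Real.log ((N + 1) * n + 1) := by
  unfold Wx
  have hn' : (n : ℝ) ≠ 0 := by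
    have := hn.ne'
    exact_mod_cast this
  have hp : (((∏ z ∈ range (N + 1), (z * n + 1) : ℕ)) : ℝ) ≠ 0 := by
    have : 0 < ∏ z ∈ range (N + 1), (z * n + 1) := Finset.prod_pos fun z _ => Nat.succ_pos _
    exact_mod_cast this.ne'
  rw [Nat.cast_mul, Real.log_mul hn' hp, Nat.cast_prod, Real.log_prod (fun z _ => by positivity)]
  have h1 : Real.log (n : ℝ) ≤ Real.log ((N + 1) * n + 1) := by
    apply Real.log_le_log (by exact_mod_cast hn)
    have : n ≤ (N + 1) * n + 1 := by
      have := Nat.le_mul_of_pos_left n (show 0 < N + 1 by omega)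
      omega
    exact_mod_cast this
  have h2 : ∑ z ∈ range (N + 1), Real.log (((z * n + 1 : ℕ)) : ℝ) ≤
      ∑ _z ∈ range (N + 1), Real.log ((N + 1) * n + 1) := by
    apply sum_le_sum
    intro z hz
    rw [mem_range] at hz
    apply Real.log_le_log (by positivity)
    have : z * n + 1 ≤ (N + 1) * n + 1 := by
      have := Nat.mul_le_mul_right n (show z ≤ N + 1 by omega)
      omega
    exact_mod_cast this
  rw [sum_const, card_range, nsmul_eq_mul] at h2
  push_cast at h2 ⊢
  linarith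

theorem log_lin_tendsto (a : ℝ) (ha : 0 < a) :
    Tendsto (fun n : ℕ => Real.log (a * n + 1) / n) atTop (nhds 0) := by
  have h1 : Tendsto (fun x : ℝ => Real.log x / x) atTop (nhds 0) :=
    Real.isLittleO_log_id_atTop.tendsto_div_nhds_zero
  have h2 : Tendsto (fun n : ℕ => a * (n : ℝ) + 1) atTop atTop :=
    tendsto_atTop_add_const_right _ _ (tendsto_natCast_atTop_atTop.const_mul_atTop ha)
  have h3 := h1.comp h2
  have h4 : Tendsto (fun n : ℕ => (a * (n : ℝ) + 1) / n) atTop (nhds a) := by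
    have h5 : Tendsto (fun n : ℕ => a + 1 / (n : ℝ)) atTop (nhds (a + 0)) :=
      tendsto_const_nhds.add tendsto_one_div_atTop_nhds_zero_nat
    rw [add_zero] at h5
    refine h5.congr' ?_
    filter_upwards [eventually_ge_atTop 1] with n hn
    have : (n : ℝ) ≠ 0 := by positivity
    field_simp
  have h6 := h3.mul h4
  rw [zero_mul] at h6
  refine h6.congr' ?_
  filter_upwards [eventually_ge_atTop 1] with n hn
  have h7 : (n : ℝ) ≠ 0 := by positivity
  have h8 : a * (n : ℝ) + 1 ≠ 0 := by positivity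
  simp only [Function.comp]
  field_simp

theorem sum_exc_le (N : ℕ) (P : Finset ℕ) (hP : ∀ p ∈ P, p.Prime) {n : ℕ} (hn : 0 < n)
    [DecidablePred fun p => Exc N n p] :
    ∑ p ∈ P.filter (fun p => Exc N n p), Real.log p ≤ Real.log (Wx N n) := by
  have hW := Wx_pos N hn
  have h1 : ∏ p ∈ P.filter (fun p => Exc N n p), p ∣ Wx N n := by
    refine dvd_trans (prod_dvd_prod_of_subset _ (Wx N n).primeFactors _ ?_)
      (Nat.prod_primeFactors_dvd _)
    intro p hp
    rw [mem_filter] at hp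
    rw [Nat.mem_primeFactors]
    exact ⟨hP p hp.1, dvd_Wx hp.2, hW.ne'⟩
  have h2 : ∑ p ∈ P.filter (fun p => Exc N n p), Real.log p =
      Real.log ((∏ p ∈ P.filter (fun p => Exc N n p), p : ℕ) : ℝ) := by
    rw [Nat.cast_prod, Real.log_prod]
    intro p hp
    rw [mem_filter] at hp
    exact_mod_cast (hP p hp.1).ne_zero
  rw [h2]
  apply Real.log_le_log
  · have : 0 < ∏ p ∈ P.filter (fun p => Exc N n p), p := by
      apply Finset.prod_pos
      intro p hp
      rw [mem_filter] at hp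
      exact (hP p hp.1).pos
    exact_mod_cast this
  · exact_mod_cast Nat.le_of_dvd hW h1

/-! ### The main theorem -/

theorem hsum_aux (q N a1 b1 : ℕ) (L : List (ℕ × ℕ × ℕ)) (hM : Mono L a1 b1) {C2 : ℝ}
    (hcost : costR q L a1 b1 < C2) :
    ∀ᶠ n : ℕ in atTop, ∀ P : Finset ℕ, (∀ p ∈ P, p.Prime) →
      ∑ p ∈ P, (expE q N ((a1, b1, 0) :: L) n p : ℝ) * Real.log p ≤ C2 * n := by
  classical
  have hlim1 := sumR_tendsto (q := q) L a1 b1
  have hlim2 : Tendsto (fun n : ℕ => (q : ℝ) * ((N + 2) *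
      (Real.log ((N + 1) * n + 1) / n))) atTop (nhds ((q : ℝ) * ((N + 2) * 0))) :=
    ((log_lin_tendsto ((N : ℝ) + 1) (by positivity)).const_mul _).const_mul _
  have hlim := hlim1.add hlim2
  rw [mul_zero, mul_zero, add_zero] at hlim
  filter_upwards [hlim.eventually_lt_const hcost, eventually_ge_atTop 1] with n hn hn1 P hP
  have hn' : (0 : ℝ) < n := by exact_mod_cast hn1
  have e1 : ∀ p ∈ P, (expE q N ((a1, b1, 0) :: L) n p : ℝ) * Real.log p ≤
      (if a1 * p ≤ n * b1 then (lookq q L n p : ℝ) * Real.log p else 0) +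
        (if Exc N n p then (q : ℝ) * Real.log p else 0) := by
    intro p hp
    have hlog : 0 ≤ Real.log (p : ℝ) := Real.log_natCast_nonneg p
    unfold expE
    by_cases hx : Exc N n p
    · rw [if_pos hx, if_pos hx]
      have : 0 ≤ (if a1 * p ≤ n * b1 then (lookq q L n p : ℝ) * Real.log p else 0) := by
        split_ifs
        · positivity
        · exact le_refl _
      linarith
    · rw [if_neg hx, if_neg hx, add_zero]
      simp only [lookq]
      by_cases hy : n * b1 < a1 * p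
      · rw [if_pos hy, if_neg (not_le.2 hy)]
        simp
      · rw [if_neg hy, if_pos (not_lt.1 hy)]
  have e2 := sum_le_sum e1
  rw [sum_add_distrib, ← sum_filter, ← sum_filter, ← mul_sum] at e2
  have e3 := sum_le_sumR P hP n q L a1 b1 hM
  have e4 := sum_exc_le N P hP (n := n) hn1
  have e5 := log_Wx_le N (n := n) hn1
  have e6 := mul_le_mul_of_nonneg_left (e4.trans e5) (Nat.cast_nonneg (α := ℝ) q)
  have e7 : sumR q L a1 b1 n + (q : ℝ) * ((N + 2) *
      (Real.log ((N + 1) * n + 1))) ≤ C2 * n := by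
    have h := mul_le_mul_of_nonneg_right hn.le hn'.le
    refine le_trans (le_of_eq ?_) h
    field_simp
  linarith

end ZetaCert

end

section

/-!
Assembly of the certificate of a family from chunks of the sweep.
-/

namespace ZetaCert

open ZetaSweep

theorem cert_main {D : Dat} (hD : D.Ok) {C H : List ℕ} (hC : D.Cov C H) {q : ℕ}
    (hq : D.A.length + D.B.length = q + 1)
    (hC2 : ∀ c ∈ C, D.a0 ≤ c ∧ 2 * c + D.b0 ≤ D.η + D.a0)
    {M : ℕ} (hM : 0 < M) {csA csF : List Cand} (hcsA : csA = D.cA C H q)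
    (hcsF : csF = D.cF C H)
    (h0 : ∀ t ∈ csA, (q : ℤ) ≤ t.val 0 1)
    {wA offA wF offF d1 accA ua vb WA ta tb ta' tb' WF accF : ℕ}
    (hd1 : d1 * 2 ≤ D.η - 2 * D.a0)
    (hN0 : 0 < D.N)
    (rA : RS D.N wA offA q M csA 0 1 1 D.N 0 1 d1 ua vb WA accA)
    (rF : RS D.N wF offF q M csF 1 d1 1 d1 accA ta tb ta' tb' WF accF) {C2 : ℝ}
    (hcost : (accF : ℝ) / M + q * ((tb : ℝ) / ta) < C2) :
    ∃ e : ℕ → ℕ → ℕ,
      (∀ᶠ n : ℕ in Filter.atTop, ∀ p : ℕ, p.Prime → 2 * (D.fam.par n).h < p * p →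
        p ≤ (D.fam.par n).h →
        ZG.Expo (D.fam.par n) (D.a0 * n) (D.b0 * n + 1) p (e n p)) ∧
      (∀ᶠ n : ℕ in Filter.atTop, ∑ p ∈ (Finset.range ((D.fam.par n).h + 1)).filter
        (fun p => p.Prime ∧ 2 * (D.fam.par n).h < p * p), (e n p : ℝ) * Real.log p ≤ C2 * n) := by
  have hq' : (D.A.length : ℤ) + D.B.length - 1 = q := by omega
  obtain ⟨a1, a2, a3, LA, a4, a5⟩ := rA
  obtain ⟨f1, f2, f3, LF, f4, f5⟩ := rF
  subst hcsA
  subst hcsF
  -- predicates
  have hgA : ∀ a b a' b' E, GoodS D.N q (D.cA C H q) 0 1 a b a' b' E →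
      D.Iv a b a' b' E ∧ 1 ≤ a ∧ a * b' ≤ b * a' := by
    intro a b a' b' E h
    obtain ⟨h1, h2, h3⟩ := h
    refine ⟨Dat.iv_of_A hC hq' hC2 h1.hb h1.hb' (fun z hz => h1.lt_step hz) h2, h1.ha, ?_⟩
    have := h1.lt
    rw [mul_comm b a']; exact this
  have hgF : ∀ a b a' b' E, GoodS D.N q (D.cF C H) 1 d1 a b a' b' E →
      D.Iv a b a' b' E ∧ 1 ≤ a ∧ a * b' ≤ b * a' := by
    intro a b a' b' E h
    obtain ⟨h1, h2, h3⟩ := h
    refine ⟨Dat.iv_of_F hD hC hq' h1.hb h1.hb' (fun z hz => h1.lt_step hz) ?_ h2, h1.ha, ?_⟩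
    · calc 2 * b = 2 * (1 * b) := by ring
        _ ≤ 2 * (a * d1) := Nat.mul_le_mul_left _ h3
        _ = a * (d1 * 2) := by ring
        _ ≤ a * (D.η - 2 * D.a0) := Nat.mul_le_mul_left _ hd1
    · have := h1.lt
      rw [mul_comm b a']; exact this
  -- the combined chain
  set P : ℕ → ℕ → ℕ → ℕ → ℕ → Prop := fun a b a' b' E =>
    GoodS D.N q (D.cA C H q) 0 1 a b a' b' E ∨ GoodS D.N q (D.cF C H) 1 d1 a b a' b' E with hP
  have segmono : ∀ {P Q : ℕ → ℕ → ℕ → ℕ → ℕ → Prop} (_ : ∀ a b a' b' E, P a b a' b' E → Q a b a' b' E)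
      {ta tb : ℕ} (L : List (ℕ × ℕ × ℕ)) (a b : ℕ), Seg P ta tb L a b → Seg Q ta tb L a b := by
    intro P Q hPQ ta tb L
    induction L with
    | nil => intro a b h; exact h
    | cons e L ih => intro a b h; exact ⟨hPQ _ _ _ _ _ h.1, ih _ _ h.2⟩
  have sA : Seg P 1 d1 LA 1 D.N := segmono (fun a b a' b' E h => Or.inl h) LA 1 D.N a4
  have sF : Seg P ta tb LF 1 d1 := segmono (fun a b a' b' E h => Or.inr h) LF 1 d1 f4
  obtain ⟨s1, s2⟩ := Seg.trans sF LA 1 D.N sA
  have hPI : ∀ a b a' b' E, P a b a' b' E → D.Iv a b a' b' E ∧ 1 ≤ a ∧ a * b' ≤ b * a' := by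
    intro a b a' b' E h
    rcases h with h | h
    · exact hgA _ _ _ _ _ h
    · exact hgF _ _ _ _ _ h
  obtain ⟨g1, g2, g3⟩ := seg_good (D := D) hPI (q := q) f1.ha (LA ++ LF) 1 D.N s1
  have hcost' : costR q (LA ++ LF) 1 D.N < C2 := by
    rw [g3, s2]
    have hM' : (0 : ℝ) < M := by exact_mod_cast hM
    have h1 : (M : ℝ) * (costS LA 1 D.N + costS LF 1 d1) ≤ accF := by
      rw [Nat.cast_zero, add_zero] at a5
      linarith
    have h2 : costS LA 1 D.N + costS LF 1 d1 ≤ accF / M := by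
      rw [le_div_iff₀ hM']; linarith
    linarith
  have hI0 : D.Iv 0 1 1 D.N 0 := by
    refine Dat.iv_of_A hC hq' hC2 Nat.one_pos hN0 ?_ ?_
    · intro z hz
      simp only [mul_zero, Nat.zero_div, zero_add, one_mul, mul_one]
      exact hz
    · intro t ht
      have := h0 t ht
      simpa using this
  refine ⟨expE q D.N ((1, D.N, 0) :: (LA ++ LF)), ?_, ?_⟩
  · exact hE hD hq _ ⟨hI0, g1⟩
  · filter_upwards [hsum_aux q D.N 1 D.N (LA ++ LF) g2 hcost'] with n hn
    apply hn
    intro p hp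
    rw [Finset.mem_filter] at hp
    exact hp.2.1

end ZetaCert

end
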