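import Pool.Agent.Work.MP_4f096c_nt.ChT35A
import Pool.Agent.Work.MP_4f096c_nt.Sweep
import Pool.Agent.Work.MP_4f096c_nt.ChT35F
import Pool.Agent.Work.MP_4f096c_nt.Cert4

section

/-!
Sweep for small `x`.
-/

namespace ZetaCert
open ZetaSweep

theorem stT35A : Static 448 9 207 1 98 256 2980041611601135057144272770987183744337844940074546324057571327843745932249440237926428571625553644267613379690370141907464236314081100801 1525781305139781149257867658745438077100976609318167717917476519855997917311713401818331428672283465865018050401469512656621688992809523610112 305 762890652569890574628933829372719038550488304659083858958738259927998958655856700909165714336141732932509025200734756328310844496404761805056 trT35A.get csT35A :=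
  Static.mk2 (2 ^ 466) tpT35A.get tqT35A.get (by decide +kernel) (by decide) (by decide +kernel) (by decide +kernel) (by norm_num)
    (by norm_num) (by decide +kernel) (by decide +kernel) (by decide +kernel)
    (by decide +kernel)

theorem rsT35A : RS 448 9 207 36 1000000000 csT35A 0 1 1 448 0 1 98 4 391 750894832386383364268890393115467610606130016614552587867466037811584396201077020033989206510746629768503743805835157164823359849762610461934 886333333888 := by
  have h0 : RS 448 9 207 36 1000000000 csT35A 0 1 1 448 0 1 448 1 447 724339274419465312068214435857798837007265716146599071163463000692101297222852786071140268746555728954561819290593530562202124179569210841367 0 :=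
    RS.start (acc := 0) ⟨by norm_num, by norm_num, by norm_num, by norm_num, by norm_num, by norm_num, by norm_num⟩ (by decide +kernel) (by norm_num)
  have h1 := RS.step stT35A (by norm_num) (by norm_num) chT35A_0 h0
  exact h1

end ZetaCert

end

section

/-!
Sweep for the other `x`.
-/

namespace ZetaCert
open ZetaSweep

theorem stT35F : Static 448 8 99 2 1 256 82793702549072231571277064019759973677138746985741679127627246374876654871084004173800605612801914344903791721333649572353 21195187852562491282246928389058553261347519228349869856672575071968423646997505068492955036877290072295370680661414290522368 157 21195187852562491282246928389058553261347519228349869856672575071968423646997505068492955036877290072295370680661414290522368 trT35F.get csT35F :=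
  Static.mk2 (2 ^ 413) tpT35F.get tqT35F.get (by decide +kernel) (by decide) (by decide +kernel) (by decide +kernel) (by norm_num)
    (by norm_num) (by decide +kernel) (by decide +kernel) (by decide +kernel)
    (by decide +kernel)

theorem rsT35F : RS 448 8 99 36 1000000000 csT35F 1 98 1 98 886333333888 2 1 897 448 10514962246633443609613969184595241166198475122544039657942913680427776131962286733548360480848397013973176127145226597108871 2497071095980 := by
  have h0 : RS 448 8 99 36 1000000000 csT35F 1 98 1 98 886333333888 1 98 4 391 9770305308218850482909844311505156371934626514410000405983870182245861768659703180688180080691348905804933883797683512608386 886333333888 :=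
    RS.start (acc := 886333333888) ⟨by norm_num, by norm_num, by norm_num, by norm_num, by norm_num, by norm_num, by norm_num⟩ (by decide +kernel) (by norm_num)
  have h1 := RS.step stT35F (by norm_num) (by norm_num) chT35F_0 h0
  have h2 := RS.step stT35F (by norm_num) (by norm_num) chT35F_1 h1
  have h3 := RS.step stT35F (by norm_num) (by norm_num) chT35F_2 h2
  have h4 := RS.step stT35F (by norm_num) (by norm_num) chT35F_3 h3
  have h5 := RS.step stT35F (by norm_num) (by norm_num) chT35F_4 h4
  have h6 := RS.step stT35F (by norm_num) (by norm_num) chT35F_5 h5
  have h7 := RS.step stT35F (by norm_num) (by norm_num) chT35F_6 h6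
  have h8 := RS.step stT35F (by norm_num) (by norm_num) chT35F_7 h7
  have h9 := RS.step stT35F (by norm_num) (by norm_num) chT35F_8 h8
  have h10 := RS.step stT35F (by norm_num) (by norm_num) chT35F_9 h9
  have h11 := RS.step stT35F (by norm_num) (by norm_num) chT35F_10 h10
  have h12 := RS.step stT35F (by norm_num) (by norm_num) chT35F_11 h11
  have h13 := RS.step stT35F (by norm_num) (by norm_num) chT35F_12 h12
  have h14 := RS.step stT35F (by norm_num) (by norm_num) chT35F_13 h13
  have h15 := RS.step stT35F (by norm_num) (by norm_num) chT35F_14 h14
  have h16 := RS.step stT35F (by norm_num) (by norm_num) chT35F_15 h15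
  have h17 := RS.step stT35F (by norm_num) (by norm_num) chT35F_16 h16
  have h18 := RS.step stT35F (by norm_num) (by norm_num) chT35F_17 h17
  have h19 := RS.step stT35F (by norm_num) (by norm_num) chT35F_18 h18
  have h20 := RS.step stT35F (by norm_num) (by norm_num) chT35F_19 h19
  have h21 := RS.step stT35F (by norm_num) (by norm_num) chT35F_20 h20
  have h22 := RS.step stT35F (by norm_num) (by norm_num) chT35F_21 h21
  have h23 := RS.step stT35F (by norm_num) (by norm_num) chT35F_22 h22
  have h24 := RS.step stT35F (by norm_num) (by norm_num) chT35F_23 h23
  have h25 := RS.step stT35F (by norm_num) (by norm_num) chT35F_24 h24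
  have h26 := RS.step stT35F (by norm_num) (by norm_num) chT35F_25 h25
  have h27 := RS.step stT35F (by norm_num) (by norm_num) chT35F_26 h26
  have h28 := RS.step stT35F (by norm_num) (by norm_num) chT35F_27 h27
  have h29 := RS.step stT35F (by norm_num) (by norm_num) chT35F_28 h28
  have h30 := RS.step stT35F (by norm_num) (by norm_num) chT35F_29 h29
  have h31 := RS.step stT35F (by norm_num) (by norm_num) chT35F_30 h30
  exact h31

end ZetaCert

end

section

/-!
The certificate of the family T35.
-/

namespace ZetaCert
open ZetaSweep

theorem okT35 : DT35.Ok where
  a0mem := by decide +kernel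
  a0le := by decide +kernel
  b0mem := by decide +kernel
  b0le := by decide +kernel
  ab := by decide
  hA := by decide +kernel
  hB := by decide +kernel
  hN := by decide +kernel

theorem covT35 : DT35.Cov CT35 HT35 where
  hA := by decide +kernel
  hB := by decide +kernel
  hH := by decide +kernel

theorem certT35 : ∃ e : ℕ → ℕ → ℕ,
    (∀ᶠ n : ℕ in Filter.atTop, ∀ p : ℕ, p.Prime → 2 * (DT35.fam.par n).h < p * p →
      p ≤ (DT35.fam.par n).h →
      ZG.Expo (DT35.fam.par n) (DT35.a0 * n) (DT35.b0 * n + 1) p (e n p)) ∧
    (∀ᶠ n : ℕ in Filter.atTop, ∑ p ∈ (Finset.range ((DT35.fam.par n).h + 1)).filter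
      (fun p => p.Prime ∧ 2 * (DT35.fam.par n).h < p * p), (e n p : ℝ) * Real.log p ≤
        (251508 / 100 : ℝ) * n) :=
  cert_main okT35 covT35 (q := 36) (by decide) (by decide +kernel) (M := 1000000000) (by norm_num)
    csT35A_eq csT35F_eq (by decide +kernel) (d1 := 98) (by decide) (by decide) rsT35A rsT35F
    (by norm_num)

end ZetaCert

end
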