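import Pool.Agent.Work.MP_4f096c_nt.BoundD

/-!
Upper bound of the linear forms for the family giving `ζ(5), ζ(7), ζ(9)`.
-/

namespace ZG
open ZetaCert

/-- the family -/
def DB9 : Dat := ⟨98, [(21, 19), (23, 13), (25, 8)],
  [27, 28, 29, 31, 33, 35, 37, 39], 21, 27, 136⟩

/-- horizontal part of the contour -/
def hor9 : List (ℕ × ℕ × ℤ × ℤ × List ℤ) :=
    [(1, 3449, 3090000000, 0, [80]),
      (2, 3480, 3088000000, 0, [160]),
      (4, 3515, 3079000000, 0, [320]),
      (5, 3518, 3069000000, 0, [400]),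
      (6, 3509, 3051000000, 0, [480])]

/-- vertical part of the contour -/
def ver9 : List (ℕ × ℕ × ℕ × ℤ × ℤ × List ℤ) :=
    [(1, 1, 3502, 2269000000, 910000000, [17, 26, 35, 44, 53, 62, 71, 80]),
      (2, 1, 3485, 1544000000, 808000000, [90, 100, 110, 120, 130, 140, 150, 160]),
      (3, 1, 3462, 957000000, 648000000, [170, 180, 190, 200, 210, 220, 230, 240]),
      (4, 1, 3434, 458000000, 537000000, [250, 260, 270, 280, 290, 300, 310, 320]),
      (9, 2, 3419, 233000000, 466000000, [325, 330, 335, 340, 345, 350, 355, 360]),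
      (5, 1, 3402, 19000000, 439000000, [365, 370, 375, 380, 385, 390, 395, 400]),
      (11, 2, 3385, -183000000, 416000000, [405, 410, 415, 420, 425, 430, 435, 440]),
      (6, 1, 3368, -377000000, 396000000, [445, 450, 455, 460, 465, 470, 475, 480]),
      (7, 1, 3330, -740000000, 379000000, [490, 500, 510, 520, 530, 540, 550, 560]),
      (8, 1, 3290, -1075000000, 349000000, [570, 580, 590, 600, 610, 620, 630, 640]),
      (10, 1, 3203, -1679000000, 324000000, [660, 680, 700, 720, 740, 760, 780, 800]),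
      (13, 1, 3060, -2456000000, 284000000, [830, 860, 890, 920, 950, 980, 1010, 1040]),
      (17, 1, 2857, -3309000000, 238000000, [1080, 1120, 1160, 1200, 1240, 1280, 1320, 1360])]

set_option maxRecDepth 100000 in
theorem chkH9 : chHZ DB9 8 1 10 (53129/250) 80 8 0
    (((3410 : ℕ) : ℚ) / (2 * ((8 : ℕ) : ℚ)) -
      ((1 : ℕ) : ℚ) / ((10 : ℕ) : ℚ) * (((3092000000 : ℤ) : ℚ) / 1000000000)) hor9 = true := by
  decide +kernel

set_option maxRecDepth 100000 in
theorem chkV9 : chVZ DB9 8 6 (53129/250) 80 8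
    (((3509 : ℕ) : ℚ) / (2 * ((8 : ℕ) : ℚ)) -
      ((1 : ℕ) : ℚ) / ((10 : ℕ) : ℚ) * (((3051000000 : ℤ) : ℚ) / 1000000000)) ver9 = true := by
  decide +kernel

set_option maxRecDepth 100000 in
theorem chkS9 : chSyZ (atoms DB9) ((6 : ℕ) : ℤ) (-(200000 : ℤ)) 17 1
    [35, 95, 1116] = true := by
  decide +kernel

set_option maxRecDepth 100000 in
theorem chkQ9 : chQyZ (atoms DB9) 0 80 0 [20] = true := by
  decide +kernel

set_option maxRecDepth 100000 in
theorem chkE9 : evalBZ DB9 0 1 10 8 3410 (3092000000) = true := by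
  decide +kernel

set_option maxRecDepth 100000 in
theorem chkX9 : evalBZ DB9 ((6 : ℕ) : ℤ) 1 10 8 3509 (3051000000) = true := by
  decide +kernel

end ZG
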