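import Pool.Agent.Work.MP_4f096c_nt.GBound3
import Pool.Agent.Work.MP_4f096c_nt.ChkB9

/-!
Upper bound of the linear forms for the family giving `ζ(5), ζ(7), ζ(9)`.
-/

namespace ZG
open ZetaCert

set_option maxRecDepth 100000 in
theorem bnd9 (d : ℕ) : ∀ᶠ n : ℕ in Filter.atTop,
    ‖ZG.Lf (DB9.fam.par n) d 0‖ ≤ Real.exp (-((21251/100 : ℚ) : ℝ) * n) := by
  refine bound_dat3 DB9 (X := 6) (P0 := 1) (Q0 := 10) (w := 8)
    (k0 := 3410) (S0 := 3092000000) (kX := 3509) (SX := 3051000000) (PL := 17) (QL := 1)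
    (cδ := 200000) (C := 53129/250) (d := 80) (m0 := 8)
    (ys0 := [20]) (hor := hor9) (ver := ver9)
    (zs := [35, 95, 1116])
    (by decide +kernel) (by norm_num) (by norm_num) (by norm_num) (by norm_num) (by norm_num)
    (by norm_num) (by norm_num) (by norm_num) (by norm_num) (by simp)
    (by decide +kernel) chkQ9 chkE9 (by decide +kernel)
    chkH9 (by decide +kernel) chkX9 (by decide +kernel)
    chkV9 (by decide +kernel) chkS9 (by decide +kernel) d

end ZG
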