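import Pool.Agent.Work.MP_4f096c_nt.Sweep

/-!
The sweep with two words.
-/

section

/-!
Sweep with two packed words: at every step function index, one of two values has to be large.
-/

namespace ZetaSweep

/-- one of the two digits is large -/
theorem test_sound2 (w : ℕ) : ∀ (l l' : List Cand) (f g : Cand → ℕ), l.length = l'.length →
    (∀ t ∈ l, f t < 2 ^ (w + 1)) → (∀ t ∈ l', g t < 2 ^ (w + 1)) →
    Nat.land (Nat.lor (pk (2 ^ (w + 1)) f l) (pk (2 ^ (w + 1)) g l'))
      (pk (2 ^ (w + 1)) (fun _ => 2 ^ w) l) = pk (2 ^ (w + 1)) (fun _ => 2 ^ w) l →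
    List.Forall₂ (fun t u => 2 ^ w ≤ f t ∨ 2 ^ w ≤ g u) l l' := by
  intro l
  induction l with
  | nil =>
    intro l' f g hlen _ _ _
    cases l' with
    | nil => exact List.Forall₂.nil
    | cons _ _ => simp at hlen
  | cons t l ih =>
    intro l' f g hlen hf hg h
    cases l' with
    | nil => simp at hlen
    | cons u l' =>
      change (pk (2 ^ (w + 1)) f (t :: l) ||| pk (2 ^ (w + 1)) g (u :: l')) &&&
        (pk (2 ^ (w + 1)) (fun _ => 2 ^ w) (t :: l)) =
          pk (2 ^ (w + 1)) (fun _ => 2 ^ w) (t :: l) at h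
      rw [pk_cons, pk_cons, pk_cons] at h
      have h2w : 2 ^ w < 2 ^ (w + 1) := Nat.pow_lt_pow_right (by norm_num) (Nat.lt_succ_self w)
      have hft := hf t List.mem_cons_self
      have hgu := hg u List.mem_cons_self
      have tb : ∀ (d W j : ℕ), d < 2 ^ (w + 1) → (d + 2 ^ (w + 1) * W).testBit j =
          if j < w + 1 then d.testBit j else W.testBit (j - (w + 1)) := by
        intro d W j hd
        rw [add_comm, Nat.testBit_two_pow_mul_add W hd]
      have hbit : ∀ j, (((f t + 2 ^ (w + 1) * pk (2 ^ (w + 1)) f l).testBit j ||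
          (g u + 2 ^ (w + 1) * pk (2 ^ (w + 1)) g l').testBit j) &&
          (2 ^ w + 2 ^ (w + 1) * pk (2 ^ (w + 1)) (fun _ => 2 ^ w) l).testBit j) =
          (2 ^ w + 2 ^ (w + 1) * pk (2 ^ (w + 1)) (fun _ => 2 ^ w) l).testBit j := by
        intro j
        rw [← Nat.testBit_or, ← Nat.testBit_and, h]
      refine List.Forall₂.cons ?_ ?_
      · have h1 := hbit w
        rw [tb _ _ _ hft, tb _ _ _ hgu, tb _ _ _ h2w, if_pos (Nat.lt_succ_self w),
          if_pos (Nat.lt_succ_self w), if_pos (Nat.lt_succ_self w),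
          Nat.testBit_two_pow_self, Bool.and_true, Bool.or_eq_true] at h1
        rcases h1 with h1 | h1
        · exact Or.inl (Nat.ge_two_pow_of_testBit h1)
        · exact Or.inr (Nat.ge_two_pow_of_testBit h1)
      · refine ih l' f g (by simpa using hlen) (fun u hu => hf u (List.mem_cons_of_mem _ hu))
          (fun u hu => hg u (List.mem_cons_of_mem _ hu)) ?_
        apply Nat.eq_of_testBit_eq
        intro j
        have h1 := hbit (j + (w + 1))
        rw [tb _ _ _ hft, tb _ _ _ hgu, tb _ _ _ h2w, if_neg (by omega), if_neg (by omega),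
          if_neg (by omega), Nat.add_sub_cancel] at h1
        change ((pk (2 ^ (w + 1)) f l ||| pk (2 ^ (w + 1)) g l') &&&
          pk (2 ^ (w + 1)) (fun _ => 2 ^ w) l).testBit j = _
        rw [Nat.testBit_and, Nat.testBit_or]
        exact h1

/-- one good interval, two families of step functions -/
def GoodS2 (N q1 : ℕ) (cs ds : List Cand) (sa sb a b a' b' E : ℕ) : Prop :=
  Nb N a b a' b' ∧ List.Forall₂ (fun t u : Cand => (q1 : ℤ) - E ≤ t.val a b ∨
    (q1 : ℤ) - E ≤ u.val a b) cs ds ∧ sa * b ≤ a * sb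

theorem bst2_le (ones HM c W V j t : ℕ) : bst2 ones HM c W V j t ≤ t + j := by
  unfold bst2
  cases tst2 ones HM c W V (Nat.add t j)
  · exact Nat.le_add_right _ _
  · exact le_rfl

theorem ft2_le (ones HM c W V : ℕ) (js : List ℕ) : ft2 ones HM c W V js ≤ js.sum := by
  induction js with
  | nil => exact le_rfl
  | cons j js ih =>
    have h1 : ft2 ones HM c W V (j :: js) = bst2 ones HM c W V j (ft2 ones HM c W V js) := rfl
    have h2 := bst2_le ones HM c W V j (ft2 ones HM c W V js)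
    rw [h1, List.sum_cons]
    omega

/-- packing of shifted values -/
theorem shift_pack {N w off am bm D0 ones HM c c0 : ℕ} {R : ℕ → ℕ} {cs : List Cand}
    (S : Static N w off am bm D0 ones HM c c0 R cs) {a b W t : ℕ} (hb : 0 < b)
    (hab : a * bm ≤ am * b)
    (hW : (W : ℤ) = pkz (2 ^ (w + 1)) (cs.map fun t => t.val a b + off)) :
    ∃ f : Cand → ℕ, (∀ u ∈ cs, ((f u : ℕ) : ℤ) = u.val a b + off + (c - t : ℕ)) ∧
      W + ones * (c - t) = pk (2 ^ (w + 1)) f cs ∧ ∀ u ∈ cs, f u < 2 ^ (w + 1) := by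
  refine ⟨fun u => (u.val a b + off + (c - t : ℕ)).toNat, ?_, ?_, ?_⟩
  · intro u hu
    have := ((S.ok u hu).bound S.hbm hb hab).1
    exact Int.toNat_of_nonneg (by positivity)
  · have hfc : ∀ u ∈ cs, (((u.val a b + off + (c - t : ℕ)).toNat : ℕ) : ℤ) =
        u.val a b + off + (c - t : ℕ) := by
      intro u hu
      have := ((S.ok u hu).bound S.hbm hb hab).1
      exact Int.toNat_of_nonneg (by positivity)
    have h3 : ((W + ones * (c - t) : ℕ) : ℤ) =
        ((pk (2 ^ (w + 1)) (fun u => (u.val a b + off + (c - t : ℕ)).toNat) cs : ℕ) : ℤ) := by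
      rw [pk_cast, List.map_congr_left hfc, pkz_add]
      push_cast
      rw [hW, S.hones, pk_cast, pkz_const _ ((c - t : ℕ) : ℤ)]
      push_cast
      ring
    exact_mod_cast h3
  · intro u hu
    have h5 := ((S.ok u hu).bound S.hbm hb hab).2
    have h5' := ((S.ok u hu).bound S.hbm hb hab).1
    have h6 : (((u.val a b + off + (c - t : ℕ)).toNat : ℕ) : ℤ) =
        u.val a b + off + (c - t : ℕ) := Int.toNat_of_nonneg (by positivity)
    have h7 : 2 ^ (w + 1) = 2 * 2 ^ w := by ring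
    have h8 : (((u.val a b + off + (c - t : ℕ)).toNat : ℕ) : ℤ) < 2 * (2 ^ w : ℕ) := by
      rw [h6]
      have h9 := S.hc
      have h10 := S.hoff
      have : ((c : ℤ)) + off = (2 ^ w : ℕ) := by exact_mod_cast h9
      have : (off : ℤ) < (2 ^ w : ℕ) := by exact_mod_cast h10
      omega
    rw [h7]; exact_mod_cast h8

theorem pk_len (B k : ℕ) : ∀ (l l' : List Cand), l.length = l'.length →
    pk B (fun _ => k) l = pk B (fun _ => k) l' := by
  intro l
  induction l with
  | nil => intro l' h; cases l' with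
    | nil => rfl
    | cons _ _ => simp at h
  | cons t l ih => intro l' h; cases l' with
    | nil => simp at h
    | cons u l' => rw [pk_cons, pk_cons, ih l' (by simpa using h)]

theorem tst2_sound {N w off am bm D0 ones HM c c0 : ℕ} {R Q : ℕ → ℕ} {cs ds : List Cand}
    (S : Static N w off am bm D0 ones HM c c0 R cs)
    (S' : Static N w off am bm D0 ones HM c c0 Q ds) (hlen : cs.length = ds.length)
    {a b W V t : ℕ} (hb : 0 < b)
    (hab : a * bm ≤ am * b) (ht : t ≤ 63)
    (hW : (W : ℤ) = pkz (2 ^ (w + 1)) (cs.map fun t => t.val a b + off))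
    (hV : (V : ℤ) = pkz (2 ^ (w + 1)) (ds.map fun t => t.val a b + off))
    (h : tst2 ones HM c W V t = true) :
    List.Forall₂ (fun u v : Cand => (t : ℤ) ≤ u.val a b ∨ (t : ℤ) ≤ v.val a b) cs ds := by
  have h1 : Nat.land (Nat.lor (W + ones * (c - t)) (V + ones * (c - t))) HM = HM :=
    Nat.eq_of_beq_eq_true h
  obtain ⟨f, f1, f2, f3⟩ := shift_pack S (t := t) hb hab hW
  obtain ⟨g, g1, g2, g3⟩ := shift_pack S' (t := t) hb hab hV
  rw [f2, g2, S.hHM] at h1
  have h2 := test_sound2 w cs ds f g hlen f3 g3 h1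
  have hc := S.hc
  have hc63 := S.hc63
  have hc' : ((c : ℤ)) + off = (2 ^ w : ℕ) := by exact_mod_cast hc
  have h3 : ∀ u ∈ cs, 2 ^ w ≤ f u → (t : ℤ) ≤ u.val a b := by
    intro u hu h4
    have h5 : ((2 ^ w : ℕ) : ℤ) ≤ (f u : ℕ) := by exact_mod_cast h4
    rw [f1 u hu] at h5
    omega
  have h3' : ∀ u ∈ ds, 2 ^ w ≤ g u → (t : ℤ) ≤ u.val a b := by
    intro u hu h4
    have h5 : ((2 ^ w : ℕ) : ℤ) ≤ (g u : ℕ) := by exact_mod_cast h4
    rw [g1 u hu] at h5
    omega
  clear h1 hW hV f2 g2 f1 g1 f3 g3 hlen S S' h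
  induction h2 with
  | nil => exact List.Forall₂.nil
  | cons h4 _ ih =>
    refine List.Forall₂.cons ?_ (ih (fun u hu => h3 u (List.mem_cons_of_mem _ hu))
      (fun u hu => h3' u (List.mem_cons_of_mem _ hu)))
    rcases h4 with h4 | h4
    · exact Or.inl (h3 _ List.mem_cons_self h4)
    · exact Or.inr (h3' _ List.mem_cons_self h4)

theorem word_step {N w off am bm D0 ones HM c c0 : ℕ} {R : ℕ → ℕ} {cs : List Cand}
    (S : Static N w off am bm D0 ones HM c c0 R cs) {a b a' b' W : ℕ} (hN : Nb N a b a' b')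
    (hW : (W : ℤ) = pkz (2 ^ (w + 1)) (cs.map fun t => t.val a b + off))
    (h3 : c0 ≤ W + R b') :
    ((W + R b' - c0 : ℕ) : ℤ) = pkz (2 ^ (w + 1)) (cs.map fun t => t.val a' b' + off) := by
  rw [Nat.cast_sub h3]
  have h6 : cs.map (fun t => t.val a' b' + (off : ℤ)) =
      cs.map (fun t => (t.val a b + off) + ((ws (dv b') t.pos : ℤ) - ws (dv b') t.neg)) := by
    apply List.map_congr_left
    intro t ht
    rw [val_step hN (S.ok t ht)]; ring
  rw [h6, pkz_add, ← hW, pkz_sub, show ((2 : ℤ) ^ (w + 1)) = ((2 ^ (w + 1) : ℕ) : ℤ) by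
    push_cast; rfl, ← pk_cast, ← pk_cast]
  have h7 := S.row b' hN.hb' hN.hbN'
  push_cast
  have h8 : (R b' : ℤ) + pk (2 ^ (w + 1)) (fun t => ws (dv b') t.neg) cs =
    pk (2 ^ (w + 1)) (fun t => ws (dv b') t.pos) cs + c0 := by exact_mod_cast h7
  linarith

theorem loop2_unfold {js : List ℕ} {N q1 M ones HM c c0 : ℕ} {R Q : ℕ → ℕ}
    {ta tb ta' tb' tW tV tacc : ℕ} {fuel a b a' b' W V acc : ℕ}
    (h : loop2 js N q1 M ones HM c c0 R Q ta tb ta' tb' tW tV tacc (fuel + 1) a b a' b' W V acc =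
      true) :
    tst2 ones HM c W V (ft2 ones HM c W V js) = true ∧ c0 ≤ W + R b' ∧ c0 ≤ V + Q b' ∧
      acc ≤ tacc ∧
      loop2 js N q1 M ones HM c c0 R Q ta tb ta' tb' tW tV tacc fuel a' b'
        ((N + b) / b' * a' - a) ((N + b) / b' * b' - b) (W + R b' - c0) (V + Q b' - c0)
        (acc + (q1 - ft2 ones HM c W V js) * M / (a * a') + 1) = true := by
  have h1 : band (tst2 ones HM c W V (ft2 ones HM c W V js)) (band (Nat.ble c0 (W + R b'))
      (band (Nat.ble c0 (V + Q b')) (band (Nat.ble acc tacc)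
      (loop2 js N q1 M ones HM c c0 R Q ta tb ta' tb' tW tV tacc fuel a' b'
        ((N + b) / b' * a' - a) ((N + b) / b' * b' - b) (W + R b' - c0) (V + Q b' - c0)
        (acc + (q1 - ft2 ones HM c W V js) * M / (a * a') + 1))))) = true := h
  simp only [band_eq, Bool.and_eq_true, Nat.ble_eq] at h1
  exact h1

theorem loop2_zero {js : List ℕ} {N q1 M ones HM c c0 : ℕ} {R Q : ℕ → ℕ}
    {ta tb ta' tb' tW tV tacc : ℕ} {a b a' b' W V acc : ℕ}
    (h : loop2 js N q1 M ones HM c c0 R Q ta tb ta' tb' tW tV tacc 0 a b a' b' W V acc =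
      true) : a = ta ∧ b = tb ∧ a' = ta' ∧ b' = tb' ∧ W = tW ∧ V = tV ∧ acc ≤ tacc := by
  have h1 : band (Nat.beq a ta) (band (Nat.beq b tb) (band (Nat.beq a' ta')
      (band (Nat.beq b' tb') (band (Nat.beq W tW) (band (Nat.beq V tV) (Nat.ble acc tacc)))))) =
      true := h
  simp only [band_eq, Bool.and_eq_true, Nat.beq_eq, Nat.ble_eq] at h1
  exact h1

theorem loop2_mono {js : List ℕ} {N q1 M ones HM c c0 : ℕ} {R Q : ℕ → ℕ}
    {ta tb ta' tb' tW tV tacc : ℕ} :
    ∀ (fuel a b a' b' W V acc : ℕ),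
      loop2 js N q1 M ones HM c c0 R Q ta tb ta' tb' tW tV tacc fuel a b a' b' W V acc = true →
      Nb N a b a' b' → a * tb ≤ ta * b := by
  intro fuel
  induction fuel with
  | zero =>
    intro a b a' b' W V acc h hN
    obtain ⟨rfl, rfl, rfl, rfl, rfl, rfl, h2⟩ := loop2_zero h
    exact le_rfl
  | succ fuel ih =>
    intro a b a' b' W V acc h hN
    obtain ⟨-, -, -, -, h5⟩ := loop2_unfold h
    exact frac_trans hN.hb' hN.lt (ih _ _ _ _ _ _ _ h5 hN.next)

theorem loop2_sound {js : List ℕ} (hjs : js.sum ≤ 63) {N w off am bm D0 ones HM c c0 : ℕ}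
    {R Q : ℕ → ℕ} {cs ds : List Cand}
    (S : Static N w off am bm D0 ones HM c c0 R cs)
    (S' : Static N w off am bm D0 ones HM c c0 Q ds) (hlen : cs.length = ds.length) (q1 M : ℕ)
    {ta tb ta' tb' tW tV tacc sa sb : ℕ} (htb : 0 < tb) (hend : ta * bm ≤ am * tb) :
    ∀ (fuel a b a' b' W V acc : ℕ),
      loop2 js N q1 M ones HM c c0 R Q ta tb ta' tb' tW tV tacc fuel a b a' b' W V acc = true →
      Nb N a b a' b' → (W : ℤ) = pkz (2 ^ (w + 1)) (cs.map fun t => t.val a b + off) →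
      (V : ℤ) = pkz (2 ^ (w + 1)) (ds.map fun t => t.val a b + off) →
      sa * b ≤ a * sb →
      Nb N ta tb ta' tb' ∧ (tW : ℤ) = pkz (2 ^ (w + 1)) (cs.map fun t => t.val ta tb + off) ∧
        (tV : ℤ) = pkz (2 ^ (w + 1)) (ds.map fun t => t.val ta tb + off) ∧
        sa * tb ≤ ta * sb ∧ ∃ L, Seg (GoodS2 N q1 cs ds sa sb) ta tb L a b ∧
          (M : ℝ) * costS L a b + acc ≤ tacc := by
  intro fuel
  induction fuel with
  | zero =>
    intro a b a' b' W V acc h hN hW hV hs
    obtain ⟨rfl, rfl, rfl, rfl, rfl, rfl, h2⟩ := loop2_zero h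
    refine ⟨hN, hW, hV, hs, [], ⟨rfl, rfl⟩, ?_⟩
    simp only [costS, mul_zero, zero_add]
    exact_mod_cast h2
  | succ fuel ih =>
    intro a b a' b' W V acc h hN hW hV hs
    obtain ⟨h2, h3, h3', -, h5⟩ := loop2_unfold h
    set t := ft2 ones HM c W V js with ht
    have ht63 : t ≤ 63 := (ft2_le _ _ _ _ _ _).trans hjs
    have hab : a * bm ≤ am * b := frac_trans htb (loop2_mono _ _ _ _ _ _ _ _ h hN) hend
    have hval := tst2_sound S S' hlen hN.hb hab ht63 hW hV h2
    have hW' := word_step S hN hW h3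
    have hV' := word_step S' hN hV h3'
    have hs' : sa * b' ≤ a' * sb := frac_trans hN.hb hs hN.lt
    obtain ⟨r1, r2, r2', r3, L, r4, r5⟩ := ih _ _ _ _ _ _ _ h5 hN.next hW' hV' hs'
    refine ⟨r1, r2, r2', r3, (a', b', q1 - t) :: L, ⟨⟨hN, ?_, hs⟩, r4⟩, ?_⟩
    · refine hval.imp ?_
      intro u v huv
      rcases huv with h6 | h6
      · left
        push_cast [Nat.cast_sub]
        omega
      · right
        push_cast [Nat.cast_sub]
        omega
    · simp only [costS]
      have ha : (0 : ℝ) < a := by exact_mod_cast hN.ha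
      have ha' : (0 : ℝ) < a' := by exact_mod_cast hN.ha'
      have hdet : (a' : ℝ) * b = a * b' + 1 := by exact_mod_cast hN.det
      have e1 : (b : ℝ) / a - (b' : ℝ) / a' = 1 / (a * a') := by
        field_simp
        linarith
      have e2 : (((q1 - t : ℕ) : ℝ) * M) / (a * a') ≤ (((q1 - t) * M / (a * a') + 1 : ℕ) : ℝ) := by
        rw [div_le_iff₀ (by positivity)]
        have h6 := Nat.lt_div_mul_add (a := (q1 - t) * M) (b := a * a')
          (Nat.mul_pos hN.ha hN.ha')
        have h7 : (q1 - t) * M ≤ ((q1 - t) * M / (a * a') + 1) * (a * a') := by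
          rw [add_mul, one_mul]; exact h6.le
        exact_mod_cast h7
      rw [e1]
      push_cast at e2 r5 ⊢
      have e3 : (M : ℝ) * (((q1 - t : ℕ) : ℝ) * (1 / (a * a')) + costS L a' b') =
        (((q1 - t : ℕ) : ℝ) * M) / (a * a') + M * costS L a' b' := by ring
      rw [e3]
      linarith

end ZetaSweep

end

section

/-!
States reached by the sweep with two words.
-/

namespace ZetaCert

open ZetaSweep (Cand Nb Seg GoodS2 ws pk costS Static loop2 pkz loop2_sound)

/-- a state reached by the sweep with two words which started at `xa / xb` with accumulator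
`acc0` -/
def RS2 (N w off q1 M : ℕ) (cs ds : List Cand) (sa sb xa xb acc0 a b a' b' W V acc : ℕ) : Prop :=
  Nb N a b a' b' ∧ (W : ℤ) = pkz (2 ^ (w + 1)) (cs.map fun t => t.val a b + off) ∧
    (V : ℤ) = pkz (2 ^ (w + 1)) (ds.map fun t => t.val a b + off) ∧
    sa * b ≤ a * sb ∧ ∃ L, Seg (GoodS2 N q1 cs ds sa sb) a b L xa xb ∧
      (M : ℝ) * costS L xa xb + acc0 ≤ acc

theorem RS2.start {N w off q1 M : ℕ} {cs ds : List Cand} {sa sb a b a' b' W V acc : ℕ}
    (hN : Nb N a b a' b') (hW : initB (2 ^ (w + 1)) off cs a b W = true)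
    (hV : initB (2 ^ (w + 1)) off ds a b V = true) (hs : sa * b ≤ a * sb) :
    RS2 N w off q1 M cs ds sa sb a b acc a b a' b' W V acc :=
  ⟨hN, initB_sound hW, initB_sound hV, hs, [], ⟨rfl, rfl⟩, by simp [costS]⟩

theorem RS2.step {N w off am bm D0 ones HM c c0 : ℕ} {R Q : ℕ → ℕ} {cs ds : List Cand}
    (S : Static N w off am bm D0 ones HM c c0 R cs)
    (S' : Static N w off am bm D0 ones HM c c0 Q ds) (hlen : cs.length = ds.length)
    {js : List ℕ} (hjs : js.sum ≤ 63) {q1 M : ℕ}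
    {sa sb xa xb acc0 a b a' b' W V acc ta tb ta' tb' tW tV tacc fuel : ℕ} (htb : 0 < tb)
    (hend : ta * bm ≤ am * tb)
    (h : loop2 js N q1 M ones HM c c0 R Q ta tb ta' tb' tW tV tacc fuel a b a' b' W V acc = true)
    (h0 : RS2 N w off q1 M cs ds sa sb xa xb acc0 a b a' b' W V acc) :
    RS2 N w off q1 M cs ds sa sb xa xb acc0 ta tb ta' tb' tW tV tacc := by
  obtain ⟨h1, h2, h2', h3, L, h4, h5⟩ := h0
  obtain ⟨r1, r2, r2', r3, L', r4, r5⟩ :=
    loop2_sound hjs S S' hlen q1 M htb hend fuel a b a' b' W V acc h h1 h2 h2' h3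
  obtain ⟨s1, s2⟩ := Seg.trans r4 L xa xb h4
  refine ⟨r1, r2, r2', r3, L ++ L', s1, ?_⟩
  rw [s2]
  linarith

end ZetaCert

end
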