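import Pool.Agent.Work.MP_4f096c_nt.Cert6
import Pool.Agent.Work.MP_4f096c_nt.Cert4
import Pool.Agent.Work.MP_4f096c_nt.Sweep2

/-!
The systems of step functions with the central saving, exponents, assembly of certificates.
-/

namespace ZetaCert

open ZetaSweep (Cand Nb Seg GoodS2 ws pk costS Static loop2 pkz loop2_sound)

theorem ev_ng (f : ℤ → ℤ) (l : List (ℤ × ℤ)) : ev f (ng l) = -ev f l := by
  induction l with
  | nil => rfl
  | cons e l ih =>
    have : ng (e :: l) = (-e.1, e.2) :: ng l := rfl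
    rw [this, ev_cons, ev_cons, ih]; ring

theorem forall₂_map_append {α β : Type} {R : β → β → Prop} {f g : α → β} : ∀ (l : List α)
    {l1 l2 : List β}, List.Forall₂ R (l.map f ++ l1) (l.map g ++ l2) →
    (∀ x ∈ l, R (f x) (g x)) ∧ List.Forall₂ R l1 l2 := by
  intro l
  induction l with
  | nil => intro l1 l2 h; exact ⟨fun x hx => by simp at hx, h⟩
  | cons y l ih =>
    intro l1 l2 h
    rw [List.map_cons, List.map_cons, List.cons_append, List.cons_append] at h
    cases h with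
    | cons h1 h2 =>
      obtain ⟨h3, h4⟩ := ih h2
      refine ⟨fun x hx => ?_, h4⟩
      rcases List.mem_cons.1 hx with rfl | hx
      · exact h1
      · exact h3 x hx

theorem forall₂_map {α β : Type} {R : β → β → Prop} {f g : α → β} (l : List α)
    (h : List.Forall₂ R (l.map f) (l.map g)) : ∀ x ∈ l, R (f x) (g x) := by
  have := forall₂_map_append (l1 := []) (l2 := []) l (by simpa using h)
  exact this.1

theorem Dat.iv2_of_F {D : Dat} (hD : D.Ok) {C H : List ℕ} (hC : D.Cov C H) {q : ℕ}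
    (hq : (D.A.length : ℤ) + D.B.length - 1 = q) {a b a' b' E : ℕ} (hb : 0 < b) (hb' : 0 < b')
    (hfl : ∀ z ≤ D.N, z * a' ≤ (z * a / b + 1) * b') (hs : 2 * b ≤ a * (D.η - 2 * D.a0))
    (h : List.Forall₂ (fun t u : Cand => (q : ℤ) - E ≤ t.val a b ∨ (q : ℤ) - E ≤ u.val a b)
      (D.cF C H) (D.cF2 C H)) : D.Iv2 a b a' b' E := by
  obtain ⟨h1, h2⟩ := forall₂_map_append C h
  have h3 := forall₂_map H h2
  exact {
    hb := hb
    hb' := hb'
    fl := hfl
    bigC := fun c hc => by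
      have hcC : c ∈ C := by
        rcases hc with ⟨e, he, rfl⟩ | hc
        · exact hC.hA e he
        · exact hC.hB c hc
      right
      rcases h1 c hcC with h4 | h4
      · left
        rw [val_ofT] at h4
        rw [hq]; linarith
      · right
        rw [val_ofT, ev_append, ev_ng] at h4
        rw [hq]; linarith
    bigE := fun e he => by
      right
      rcases h3 e.2 (hC.hH e he) with h4 | h4
      · left
        rw [val_ofT] at h4
        rw [hq]; linarith
      · right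
        rw [val_ofT, ev_append, ev_ng] at h4
        rw [hq]; linarith
    mid := by
      left
      obtain ⟨e, he, h1⟩ := hD.a0mem
      have h2 := hD.hA e he
      have h3 : ((D.η : ℤ) - 2 * D.a0) = Int.ofNat (D.η - 2 * D.a0) := by
        show _ = ((D.η - 2 * D.a0 : ℕ) : ℤ)
        omega
      rw [h3]
      show (2 : ℤ) ≤ (((D.η - 2 * D.a0) * a / b : ℕ) : ℤ)
      have h4 : 2 ≤ (D.η - 2 * D.a0) * a / b := by
        rw [Nat.le_div_iff_mul_le hb]
        calc 2 * b ≤ a * (D.η - 2 * D.a0) := hs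
          _ = (D.η - 2 * D.a0) * a := by ring
      exact_mod_cast h4 }

theorem Dat.iv2_of_A {D : Dat} {C H : List ℕ} (hC : D.Cov C H) {q : ℕ}
    (hq : (D.A.length : ℤ) + D.B.length - 1 = q)
    (hC2 : ∀ c ∈ C, D.a0 ≤ c ∧ 2 * c + D.b0 ≤ D.η + D.a0) {a b a' b' E : ℕ} (hb : 0 < b)
    (hb' : 0 < b') (hfl : ∀ z ≤ D.N, z * a' ≤ (z * a / b + 1) * b')
    (h : List.Forall₂ (fun t u : Cand => (q : ℤ) - E ≤ t.val a b ∨ (q : ℤ) - E ≤ u.val a b)
      (D.cA C H q) (D.cA2 C H q)) : D.Iv2 a b a' b' E := by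
  obtain ⟨g1, g2⟩ := forall₂_map_append C h
  obtain ⟨g3, g4⟩ := forall₂_map_append H g2
  exact {
    hb := hb
    hb' := hb'
    fl := hfl
    bigC := fun c hc => by
      have hcC : c ∈ C := by
        rcases hc with ⟨e, he, rfl⟩ | hc
        · exact hC.hA e he
        · exact hC.hB c hc
      by_cases h0 : fz a b ((c : ℤ) - D.a0) + fz a b ((D.η : ℤ) - D.b0 - c) < 1
      · exact Or.inl h0
      · right
        have h2 := hC2 _ hcC
        have h3 : 1 ≤ fz a b ((D.η : ℤ) - D.b0 - c) := by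
          have := fz_mono (a := a) (b := b) (y := (c : ℤ) - D.a0) (z := (D.η : ℤ) - D.b0 - c)
            (by omega) (by omega)
          omega
        have h4 : (q : ℤ) * 1 ≤ q * fz a b ((D.η : ℤ) - D.b0 - c) :=
          mul_le_mul_of_nonneg_left h3 (by positivity)
        rw [hq]
        rcases g1 c hcC with h5 | h5
        · left
          rw [val_ofT, ev_cons] at h5
          simp only at h5
          linarith
        · right
          rw [val_ofT, ev_cons, ev_append, ev_ng] at h5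
          simp only at h5
          linarith
    bigE := fun e he => by
      by_cases h0 : fz a b ((D.η : ℤ) + e.2 - D.a0) < fz a b ((D.b0 : ℤ) + e.2) + 2
      · exact Or.inl h0
      · right
        rw [hq]
        have h3 : fz a b ((D.b0 : ℤ) + e.2) + 2 ≤ fz a b ((D.η : ℤ) + e.2 - D.a0) := not_lt.1 h0
        have h4 : (q : ℤ) * (fz a b ((D.b0 : ℤ) + e.2) + 2) ≤ q * fz a b ((D.η : ℤ) + e.2 - D.a0) :=
          mul_le_mul_of_nonneg_left h3 (by positivity)
        rcases g3 e.2 (hC.hH e he) with h5 | h5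
        · left
          rw [val_ofT, ev_cons, ev_cons] at h5
          simp only at h5
          linarith
        · right
          rw [val_ofT, ev_cons, ev_cons, ev_append, ev_ng] at h5
          simp only at h5
          linarith
    mid := by
      right
      cases g4 with
      | cons h5 _ =>
        rw [val_ofT, ev_altT] at h5
        rcases h5 with h5 | h5 <;> linarith }

/-- all intervals of a list are good -/
def Dat.GoodL2 (D : Dat) : List (ℕ × ℕ × ℕ) → ℕ → ℕ → Prop
  | [], _, _ => True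
  | e :: L, a, b => D.Iv2 a b e.1 e.2.1 e.2.2 ∧ D.GoodL2 L e.1 e.2.1

theorem seg_good2 {D : Dat} {P : ℕ → ℕ → ℕ → ℕ → ℕ → Prop}
    (hP : ∀ a b a' b' E, P a b a' b' E → D.Iv2 a b a' b' E ∧ 1 ≤ a ∧ a * b' ≤ b * a')
    {q ta tb : ℕ}
    (hta : 1 ≤ ta) : ∀ (L : List (ℕ × ℕ × ℕ)) (a b : ℕ), Seg P ta tb L a b →
      D.GoodL2 L a b ∧ Mono L a b ∧ costR q L a b = costS L a b + q * ((tb : ℝ) / ta) := by
  intro L
  induction L with
  | nil =>
    intro a b h
    obtain ⟨rfl, rfl⟩ := h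
    refine ⟨trivial, hta, ?_⟩
    simp only [costR, costS, zero_add]
  | cons e L ih =>
    intro a b h
    obtain ⟨h1, h2⟩ := h
    obtain ⟨h3, h4, h5⟩ := hP _ _ _ _ _ h1
    obtain ⟨h6, h7, h8⟩ := ih _ _ h2
    refine ⟨⟨h3, h6⟩, ⟨h4, h5, h7⟩, ?_⟩
    simp only [costR, costS, h8]
    ring

theorem look_sound2 {D : Dat} {n p q : ℕ} {P : ℕ → Prop} (hq : P q)
    (hI : ∀ a b a' b' E, D.Iv2 a b a' b' E → a * p ≤ n * b → n * b' < a' * p → P E) :
    ∀ (L : List (ℕ × ℕ × ℕ)) (a b : ℕ), D.GoodL2 L a b → a * p ≤ n * b →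
      P (lookq q L n p) := by
  intro L
  induction L with
  | nil => intro a b _ _; exact hq
  | cons e L ih =>
    intro a b h h1
    unfold lookq
    split
    · rename_i h3
      exact hI _ _ _ _ _ h.1 h1 h3
    · rename_i h3
      exact ih _ _ h.2 (not_lt.1 h3)

theorem expo_top2 (P : ZG.Par) (a0 b0 : ℕ) {p E : ℕ} (hp : 0 < p) (h1 : P.r + P.s - 1 ≤ E) :
    ZG.Expo2 P a0 b0 p E := by
  constructor
  · intro k _ _
    left
    have := phi_nonneg P hp k
    omega
  · intro k _ _ _ _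
    left
    have := phi_nonneg P hp k
    omega

/-- equal floor data give a central class -/
theorem cen_of_same {D : Dat} {n : ℕ} {p K K' : ℤ} (h1 : p ∣ (D.η : ℤ) * n - K - K')
    (h2 : Same D.A D.B n p K K') : ZG.Cen (D.fam.par n) p (K + 1) (K' + 1) where
  dvd := by
    have hh : (((D.fam.par n).h : ℕ) : ℤ) = D.η * n + 2 := by
      simp [Dat.fam, ZG.Fam.par]
    rw [hh, show (D.η : ℤ) * n + 2 - (K + 1) - (K' + 1) = D.η * n - K - K' by ring]
    exact h1
  hb := fun i => by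
    have h3 := h2.2 (D.B[i.1]) (List.getElem_mem _)
    have h4 : (((D.fam.par n).b i : ℕ) : ℤ) = (D.B[i.1] : ℕ) * n + 1 := by
      simp [Dat.fam, ZG.Fam.par]
    rw [h4, show K + 1 - ((D.B[i.1] : ℕ) * (n : ℤ) + 1) = K - (D.B[i.1] : ℕ) * n by ring,
      show K' + 1 - ((D.B[i.1] : ℕ) * (n : ℤ) + 1) = K' - (D.B[i.1] : ℕ) * n by ring]
    exact h3
  ha := fun j => by
    have h3 := (h2.1 (D.A[j.1]) (List.getElem_mem _)).1
    have h4 : (((D.fam.par n).a j : ℕ) : ℤ) = ((D.A[j.1]).1 : ℕ) * n := by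
      simp [Dat.fam, ZG.Fam.par]
    rw [h4, add_sub_cancel_right, add_sub_cancel_right]
    exact h3
  hg := fun j => by
    have h3 := (h2.1 (D.A[j.1]) (List.getElem_mem _)).2
    have h4 : (((D.fam.par n).g j : ℕ) : ℤ) = ((D.A[j.1]).2 : ℕ) * n := by
      simp [Dat.fam, ZG.Fam.par]
    rw [h4, add_sub_cancel_right, add_sub_cancel_right]
    exact h3

theorem hE2 {D : Dat} (hD : D.Ok) (ha : 0 < D.a0) {q : ℕ} (hq : D.A.length + D.B.length = q + 1)
    (L : List (ℕ × ℕ × ℕ)) (hL : D.GoodL2 L 0 1) :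
    ∀ᶠ n : ℕ in Filter.atTop, ∀ p : ℕ, p.Prime → 2 * (D.fam.par n).h < p * p →
      p ≤ (D.fam.par n).h →
      ZG.Expo2 (D.fam.par n) (D.a0 * n) (D.b0 * n + 1) p (expE q D.N L n p) := by
  filter_upwards [Filter.eventually_ge_atTop (D.N * D.N)] with n hn p hp hpp _
  have hNη : D.η ≤ D.N := by
    obtain ⟨e, he, _⟩ := hD.a0mem
    have := hD.hN e he; omega
  have hη0 : 0 < D.η ∨ D.η = 0 := by omega
  have htop : ZG.Expo2 (D.fam.par n) (D.a0 * n) (D.b0 * n + 1) p q :=
    expo_top2 _ _ _ hp.pos (by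
      show D.A.length + D.B.length - 1 ≤ q
      omega)
  unfold expE
  split
  · exact htop
  · rename_i hex
    unfold Exc at hex
    push Not at hex
    have hb0 : 2 * D.b0 ≤ D.η := hD.hB _ hD.b0mem
    by_cases hηz : D.η = 0
    · exfalso
      have h1 : (D.fam.par n).h = 2 := by
        show D.η * n + 2 = 2
        rw [hηz]; ring
      have h2 : p ≤ 2 := by rw [← h1]; assumption
      have h3 : p * p ≤ 2 * 2 := Nat.mul_le_mul h2 h2
      rw [h1] at hpp
      omega
    have hNp : D.N < p := by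
      by_contra hc
      push Not at hc
      have h1 : (D.fam.par n).h = D.η * n + 2 := rfl
      rw [h1] at hpp
      have h2 : p * p ≤ D.N * D.N := Nat.mul_le_mul hc hc
      have h3 : n ≤ D.η * n := Nat.le_mul_of_pos_left n (by omega)
      omega
    refine look_sound2 (D := D) (P := fun E => ZG.Expo2 (D.fam.par n) (D.a0 * n)
      (D.b0 * n + 1) p E) htop ?_ L 0 1 hL (by omega)
    intro a b a' b' E hI h1 h2
    obtain ⟨s1, s2⟩ := hI.sound hD ha hp h1 h2 hex.1 hNp hex.2
    have hh : (((D.fam.par n).h : ℕ) : ℤ) = D.η * n + 2 := by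
      simp [Dat.fam, ZG.Fam.par]
    constructor
    · intro k hk1 hk2
      have h3 := s1 (k - 1) (by push_cast at hk1; linarith) (by
        rw [hh] at hk2; push_cast at hk2; linarith)
      rw [← phi_eq, sub_add_cancel] at h3
      rcases h3 with h3 | ⟨h3, K', h4, h5⟩
      · exact Or.inl h3
      · right
        refine ⟨?_, K' + 1, ?_⟩
        · have h6 : (((D.fam.par n).r : ℤ)) + (D.fam.par n).s - 2 =
              (D.A.length : ℤ) + D.B.length - 1 - 1 := by
            show (D.A.length : ℤ) + D.B.length - 2 = _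
            ring
          rw [h6]; exact h3
        · have := cen_of_same h4 h5
          rwa [sub_add_cancel] at this
    · intro k hk1 hk2 hk3 hk4
      right
      have h3 := s2 (k - 1) (by push_cast at hk1; linarith) (by
        rw [hh] at hk2; push_cast at hk2; linarith)
      have e1 : (∑ j, (((D.fam.par n).g j : ℤ) + (D.fam.par n).a j) / p) =
          (D.A.map fun e : ℕ × ℕ => ((e.1 : ℤ) + e.2) * n / p).sum := by
        rw [← Fin.sum_univ_fun_getElem D.A (fun e : ℕ × ℕ => ((e.1 : ℤ) + e.2) * n / p)]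
        apply Finset.sum_congr rfl
        intro j _
        simp only [Dat.fam, ZG.Fam.par]
        push_cast
        congr 1; ring
      have e2 : (∑ i, (((D.fam.par n).h : ℤ) - 2 * (D.fam.par n).b i) / p) =
          (D.B.map fun b : ℕ => ((D.η : ℤ) - 2 * b) * n / p).sum := by
        rw [← Fin.sum_univ_fun_getElem D.B (fun b : ℕ => ((D.η : ℤ) - 2 * b) * n / p)]
        apply Finset.sum_congr rfl
        intro i _
        simp only [Dat.fam, ZG.Fam.par]
        push_cast
        congr 1; ring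
      rw [e1, e2]
      exact h3

/-! ### Assembly -/

/-- `Iv` at the left end, from the first system only -/
theorem forall₂_left {R : Cand → Cand → Prop} : ∀ (l l' : List Cand), l.length = l'.length →
    (∀ t ∈ l, ∀ u, R t u) → List.Forall₂ R l l' := by
  intro l
  induction l with
  | nil =>
    intro l' h _
    cases l' with
    | nil => exact List.Forall₂.nil
    | cons _ _ => simp at h
  | cons t l ih =>
    intro l' h h1
    cases l' with
    | nil => simp at h
    | cons u l' =>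
      refine List.Forall₂.cons (h1 t List.mem_cons_self u) (ih l' (by simpa using h) ?_)
      exact fun t ht => h1 t (List.mem_cons_of_mem _ ht)

theorem cert_main2 {D : Dat} (hD : D.Ok) (ha : 0 < D.a0) {C H : List ℕ} (hC : D.Cov C H) {q : ℕ}
    (hq : D.A.length + D.B.length = q + 1)
    (hC2 : ∀ c ∈ C, D.a0 ≤ c ∧ 2 * c + D.b0 ≤ D.η + D.a0)
    {M : ℕ} (hM : 0 < M) {csA csF dsA dsF : List Cand} (hcsA : csA = D.cA C H q)
    (hcsF : csF = D.cF C H) (hdsA : dsA = D.cA2 C H q) (hdsF : dsF = D.cF2 C H)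
    (h0 : ∀ t ∈ csA, (q : ℤ) ≤ t.val 0 1)
    {wA offA wF offF d1 accA ua vb WA VA ta tb ta' tb' WF VF accF : ℕ}
    (hd1 : d1 * 2 ≤ D.η - 2 * D.a0)
    (hN0 : 0 < D.N)
    (rA : RS2 D.N wA offA q M csA dsA 0 1 1 D.N 0 1 d1 ua vb WA VA accA)
    (rF : RS2 D.N wF offF q M csF dsF 1 d1 1 d1 accA ta tb ta' tb' WF VF accF) {C2 : ℝ}
    (hcost : (accF : ℝ) / M + q * ((tb : ℝ) / ta) < C2) :
    ∃ e : ℕ → ℕ → ℕ,
      (∀ᶠ n : ℕ in Filter.atTop, ∀ p : ℕ, p.Prime → 2 * (D.fam.par n).h < p * p →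
        p ≤ (D.fam.par n).h →
        ZG.Expo2 (D.fam.par n) (D.a0 * n) (D.b0 * n + 1) p (e n p)) ∧
      (∀ᶠ n : ℕ in Filter.atTop, ∑ p ∈ (Finset.range ((D.fam.par n).h + 1)).filter
        (fun p => p.Prime ∧ 2 * (D.fam.par n).h < p * p), (e n p : ℝ) * Real.log p ≤ C2 * n) := by
  have hq' : (D.A.length : ℤ) + D.B.length - 1 = q := by omega
  obtain ⟨a1, a2, a2', a3, LA, a4, a5⟩ := rA
  obtain ⟨f1, f2, f2', f3, LF, f4, f5⟩ := rF
  subst hcsA hcsF hdsA hdsF
  -- predicates
  have hgA : ∀ a b a' b' E, GoodS2 D.N q (D.cA C H q) (D.cA2 C H q) 0 1 a b a' b' E →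
      D.Iv2 a b a' b' E ∧ 1 ≤ a ∧ a * b' ≤ b * a' := by
    intro a b a' b' E h
    obtain ⟨h1, h2, h3⟩ := h
    refine ⟨Dat.iv2_of_A hC hq' hC2 h1.hb h1.hb' (fun z hz => h1.lt_step hz) h2, h1.ha, ?_⟩
    have := h1.lt
    rw [mul_comm b a']; exact this
  have hgF : ∀ a b a' b' E, GoodS2 D.N q (D.cF C H) (D.cF2 C H) 1 d1 a b a' b' E →
      D.Iv2 a b a' b' E ∧ 1 ≤ a ∧ a * b' ≤ b * a' := by
    intro a b a' b' E h
    obtain ⟨h1, h2, h3⟩ := h
    refine ⟨Dat.iv2_of_F hD hC hq' h1.hb h1.hb' (fun z hz => h1.lt_step hz) ?_ h2, h1.ha, ?_⟩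
    · calc 2 * b = 2 * (1 * b) := by ring
        _ ≤ 2 * (a * d1) := Nat.mul_le_mul_left _ h3
        _ = a * (d1 * 2) := by ring
        _ ≤ a * (D.η - 2 * D.a0) := Nat.mul_le_mul_left _ hd1
    · have := h1.lt
      rw [mul_comm b a']; exact this
  -- the combined chain
  set P : ℕ → ℕ → ℕ → ℕ → ℕ → Prop := fun a b a' b' E =>
    GoodS2 D.N q (D.cA C H q) (D.cA2 C H q) 0 1 a b a' b' E ∨
    GoodS2 D.N q (D.cF C H) (D.cF2 C H) 1 d1 a b a' b' E with hP
  have segmono : ∀ {P Q : ℕ → ℕ → ℕ → ℕ → ℕ → Prop} (_ : ∀ a b a' b' E, P a b a' b' E → Q a b a' b' E)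
      {ta tb : ℕ} (L : List (ℕ × ℕ × ℕ)) (a b : ℕ), Seg P ta tb L a b → Seg Q ta tb L a b := by
    intro P Q hPQ ta tb L
    induction L with
    | nil => intro a b h; exact h
    | cons e L ih => intro a b h; exact ⟨hPQ _ _ _ _ _ h.1, ih _ _ h.2⟩
  have sA : Seg P 1 d1 LA 1 D.N := segmono (fun a b a' b' E h => Or.inl h) LA 1 D.N a4
  have sF : Seg P ta tb LF 1 d1 := segmono (fun a b a' b' E h => Or.inr h) LF 1 d1 f4
  obtain ⟨s1, s2⟩ := ZetaSweep.Seg.trans sF LA 1 D.N sA
  have hPI : ∀ a b a' b' E, P a b a' b' E → D.Iv2 a b a' b' E ∧ 1 ≤ a ∧ a * b' ≤ b * a' := by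
    intro a b a' b' E h
    rcases h with h | h
    · exact hgA _ _ _ _ _ h
    · exact hgF _ _ _ _ _ h
  obtain ⟨g1, g2, g3⟩ := seg_good2 (D := D) hPI (q := q) f1.ha (LA ++ LF) 1 D.N s1
  have hcost' : costR q (LA ++ LF) 1 D.N < C2 := by
    rw [g3, s2]
    have hM' : (0 : ℝ) < M := by exact_mod_cast hM
    have h1 : (M : ℝ) * (costS LA 1 D.N + costS LF 1 d1) ≤ accF := by
      rw [Nat.cast_zero, add_zero] at a5
      linarith
    have h2 : costS LA 1 D.N + costS LF 1 d1 ≤ accF / M := by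
      rw [le_div_iff₀ hM']; linarith
    linarith
  have hI0 : D.Iv2 0 1 1 D.N 0 := by
    refine Dat.iv2_of_A hC hq' hC2 Nat.one_pos hN0 ?_ ?_
    · intro z hz
      simp only [mul_zero, Nat.zero_div, zero_add, one_mul, mul_one]
      exact hz
    · apply forall₂_left
      · unfold Dat.cA Dat.cA2
        simp
      · intro t ht u
        left
        have := h0 t ht
        simpa using this
  refine ⟨expE q D.N ((1, D.N, 0) :: (LA ++ LF)), ?_, ?_⟩
  · exact hE2 hD ha hq _ ⟨hI0, g1⟩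
  · filter_upwards [hsum_aux q D.N 1 D.N (LA ++ LF) g2 hcost'] with n hn
    apply hn
    intro p hp
    rw [Finset.mem_filter] at hp
    exact hp.2.1

end ZetaCert
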