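import Pool.Agent.Work.MP_4f096c_nt.ChT9A
import Pool.Agent.Work.MP_4f096c_nt.Sweep2
import Pool.Agent.Work.MP_4f096c_nt.ChT9F
import Pool.Agent.Work.MP_4f096c_nt.Cert7

section

/-!
Sweep for small `x`.
-/

namespace ZetaCert
open ZetaSweep

theorem stcT9A : Static 136 8 93 1 28 256 85237070383327051513330625736333328897 21820690018131725187412640188501332197632 163 21820690018131725187412640188501332197632 crT9A.get csT9A :=
  Static.mk2 (2 ^ 131) cpT9A.get cqT9A.get (by decide +kernel) (by decide) (by decide +kernel) (by decide +kernel) (by norm_num)
    (by norm_num) (by decide +kernel) (by decide +kernel) (by decide +kernel)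
    (by decide +kernel)

theorem stdT9A : Static 136 8 93 1 28 256 85237070383327051513330625736333328897 21820690018131725187412640188501332197632 163 21820690018131725187412640188501332197632 drT9A.get dsT9A :=
  Static.mk2 (2 ^ 131) dpT9A.get dqT9A.get (by decide +kernel) (by decide) (by decide +kernel) (by decide +kernel) (by norm_num)
    (by norm_num) (by decide +kernel) (by decide +kernel) (by decide +kernel)
    (by decide +kernel)

theorem rsT9A : RS2 136 8 93 10 1000000000 csT9A dsT9A 0 1 1 136 0 1 28 4 111 8778253876903477327697262440852820905063 8778251598291595723328085420612766447720 79000000167 := by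
  have h0 : RS2 136 8 93 10 1000000000 csT9A dsT9A 0 1 1 136 0 1 136 1 135 8782581344501703420785418432579282722929 8780587501875438682160365990294633631848 0 :=
    RS2.start (acc := 0) ⟨by norm_num, by norm_num, by norm_num, by norm_num, by norm_num, by norm_num, by norm_num⟩ (by decide +kernel) (by decide +kernel) (by norm_num)
  have h1 := RS2.step stcT9A stdT9A (by decide) (by decide) (by norm_num) (by norm_num) chT9A_0 h0
  exact h1

end ZetaCert

end

section

/-!
Sweep for the other `x`.
-/

namespace ZetaCert
open ZetaSweep

theorem stcT9F : Static 136 7 65 4 1 256 20361948464842461288354887565569 2606329403499835044909425608392832 63 5212658806999670089818851216785664 crT9F.get csT9F :=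
  Static.mk2 (2 ^ 111) cpT9F.get cqT9F.get (by decide +kernel) (by decide) (by decide +kernel) (by decide +kernel) (by norm_num)
    (by norm_num) (by decide +kernel) (by decide +kernel) (by decide +kernel)
    (by decide +kernel)

theorem stdT9F : Static 136 7 65 4 1 256 20361948464842461288354887565569 2606329403499835044909425608392832 63 5212658806999670089818851216785664 drT9F.get dsT9F :=
  Static.mk2 (2 ^ 111) dpT9F.get dqT9F.get (by decide +kernel) (by decide) (by decide +kernel) (by decide +kernel) (by norm_num)
    (by norm_num) (by decide +kernel) (by decide +kernel) (by decide +kernel)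
    (by decide +kernel)

theorem rsT9F : RS2 136 7 65 10 1000000000 csT9F dsT9F 1 28 1 28 79000000167 4 1 545 136 1486502075361459416898897376266827 1506784176689008493884298739466818 207783580408 := by
  have h0 : RS2 136 7 65 10 1000000000 csT9F dsT9F 1 28 1 28 79000000167 1 28 4 111 1384852346491880463293428519225931 1384294335300560657886250153295948 79000000167 :=
    RS2.start (acc := 79000000167) ⟨by norm_num, by norm_num, by norm_num, by norm_num, by norm_num, by norm_num, by norm_num⟩ (by decide +kernel) (by decide +kernel) (by norm_num)
  have h1 := RS2.step stcT9F stdT9F (by decide) (by decide) (by norm_num) (by norm_num) chT9F_0 h0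
  have h2 := RS2.step stcT9F stdT9F (by decide) (by decide) (by norm_num) (by norm_num) chT9F_1 h1
  have h3 := RS2.step stcT9F stdT9F (by decide) (by decide) (by norm_num) (by norm_num) chT9F_2 h2
  have h4 := RS2.step stcT9F stdT9F (by decide) (by decide) (by norm_num) (by norm_num) chT9F_3 h3
  have h5 := RS2.step stcT9F stdT9F (by decide) (by decide) (by norm_num) (by norm_num) chT9F_4 h4
  have h6 := RS2.step stcT9F stdT9F (by decide) (by decide) (by norm_num) (by norm_num) chT9F_5 h5
  have h7 := RS2.step stcT9F stdT9F (by decide) (by decide) (by norm_num) (by norm_num) chT9F_6 h6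
  have h8 := RS2.step stcT9F stdT9F (by decide) (by decide) (by norm_num) (by norm_num) chT9F_7 h7
  exact h8

end ZetaCert

end

section

/-!
The certificate of the family T9.
-/

namespace ZetaCert
open ZetaSweep

theorem okT9 : DT9.Ok where
  a0mem := by decide +kernel
  a0le := by decide +kernel
  b0mem := by decide +kernel
  b0le := by decide +kernel
  ab := by decide
  hA := by decide +kernel
  hB := by decide +kernel
  hN := by decide +kernel

theorem covT9 : DT9.Cov CT9 HT9 where
  hA := by decide +kernel
  hB := by decide +kernel
  hH := by decide +kernel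

theorem certT9 : ∃ e : ℕ → ℕ → ℕ,
    (∀ᶠ n : ℕ in Filter.atTop, ∀ p : ℕ, p.Prime → 2 * (DT9.fam.par n).h < p * p →
      p ≤ (DT9.fam.par n).h →
      ZG.Expo2 (DT9.fam.par n) (DT9.a0 * n) (DT9.b0 * n + 1) p (e n p)) ∧
    (∀ᶠ n : ℕ in Filter.atTop, ∑ p ∈ (Finset.range ((DT9.fam.par n).h + 1)).filter
      (fun p => p.Prime ∧ 2 * (DT9.fam.par n).h < p * p), (e n p : ℝ) * Real.log p ≤
        (21029 / 100 : ℝ) * n) :=
  cert_main2 okT9 (by decide) covT9 (q := 10) (by decide) (by decide +kernel) (M := 1000000000) (by norm_num)
    csT9A_eq csT9F_eq dsT9A_eq dsT9F_eq (by decide +kernel) (d1 := 28) (by decide) (by decide) rsT9A rsT9F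
    (by norm_num)

end ZetaCert

end
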