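import Pool.Agent.Work.MP_4f096c_nt.BoundD

/-!
Upper bound of the linear forms for the family giving `ζ(7), ..., ζ(19)`.
-/

namespace ZG
open ZetaCert

/-- the family -/
def DB19 : Dat := ⟨146, [(38, 12), (39, 9), (40, 6), (41, 3), (42, 0)],
  [43, 44, 45, 46, 47, 48, 49, 50, 51, 52, 53, 55, 56, 58, 59, 61], 38, 43, 170⟩

/-- horizontal part of the contour -/
def hor19 : List (ℕ × ℕ × ℤ × ℤ × List ℤ) :=
    [(1, 1267, 6169000000, 63000000, [8, 16]),
      (2, 1259, 5697000000, 0, [32]),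
      (5, 1225, 2715000000, 491000000, [44, 52, 80])]

/-- vertical part of the contour -/
def ver19 : List (ℕ × ℕ × ℕ × ℤ × ℤ × List ℤ) :=
    [(2, 1, 1223, 2008000000, 771000000, [11, 14, 17, 20, 23, 26, 29, 32]),
      (5, 1, 1217, 1106000000, 387000000, [38, 44, 50, 56, 62, 68, 74, 80]),
      (8, 1, 1206, 293000000, 300000000, [86, 92, 98, 104, 110, 116, 122, 128]),
      (11, 1, 1192, -452000000, 266000000, [134, 140, 146, 152, 158, 164, 170, 176]),
      (15, 1, 1169, -1361000000, 243000000, [184, 192, 200, 208, 216, 224, 232, 240]),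
      (25, 1, 1093, -3278000000, 221000000, [260, 280, 300, 320, 340, 360, 380, 400])]

set_option maxRecDepth 100000 in
theorem chkH19 : chHZ DB19 1 1 2 (6003/10) 16 8 0
    (((1276 : ℕ) : ℚ) / (2 * ((1 : ℕ) : ℚ)) -
      ((1 : ℕ) : ℚ) / ((2 : ℕ) : ℚ) * (((7380000000 : ℤ) : ℚ) / 1000000000)) hor19 = true := by
  decide +kernel

set_option maxRecDepth 100000 in
theorem chkV19 : chVZ DB19 1 5 (6003/10) 16 8
    (((1225 : ℕ) : ℚ) / (2 * ((1 : ℕ) : ℚ)) -
      ((1 : ℕ) : ℚ) / ((2 : ℕ) : ℚ) * (((2715000000 : ℤ) : ℚ) / 1000000000)) ver19 = true := by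
  decide +kernel

set_option maxRecDepth 100000 in
theorem chkS19 : chSyZ (atoms DB19) ((5 : ℕ) : ℤ) (-(1000000 : ℤ)) 25 1
    [37, 64, 124, 259, 2555] = true := by
  decide +kernel

set_option maxRecDepth 100000 in
theorem chkQ19 : chQyZ (atoms DB19) 0 16 0 [8] = true := by
  decide +kernel

set_option maxRecDepth 100000 in
theorem chkE19 : evalBZ DB19 0 1 2 1 1276 (7380000000) = true := by
  decide +kernel

set_option maxRecDepth 100000 in
theorem chkX19 : evalBZ DB19 ((5 : ℕ) : ℤ) 1 2 1 1225 (2715000000) = true := by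
  decide +kernel

end ZG
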