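import Pool.Agent.Work.MP_4f096c_nt.GBound3
import Pool.Agent.Work.MP_4f096c_nt.ChkB19

/-!
Upper bound of the linear forms for the family giving `ζ(7), ..., ζ(19)`.
-/

namespace ZG
open ZetaCert

set_option maxRecDepth 100000 in
theorem bnd19 (d : ℕ) : ∀ᶠ n : ℕ in Filter.atTop,
    ‖ZG.Lf (DB19.fam.par n) d 0‖ ≤ Real.exp (-((6001/10 : ℚ) : ℝ) * n) := by
  refine bound_dat3 DB19 (X := 5) (P0 := 1) (Q0 := 2) (w := 1)
    (k0 := 1276) (S0 := 7380000000) (kX := 1225) (SX := 2715000000) (PL := 25) (QL := 1)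
    (cδ := 1000000) (C := 6003/10) (d := 16) (m0 := 8)
    (ys0 := [8]) (hor := hor19) (ver := ver19)
    (zs := [37, 64, 124, 259, 2555])
    (by decide +kernel) (by norm_num) (by norm_num) (by norm_num) (by norm_num) (by norm_num)
    (by norm_num) (by norm_num) (by norm_num) (by norm_num) (by simp)
    (by decide +kernel) chkQ19 chkE19 (by decide +kernel)
    chkH19 (by decide +kernel) chkX19 (by decide +kernel)
    chkV19 (by decide +kernel) chkS19 (by decide +kernel) d

end ZG
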