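import Pool.Agent.Work.MP_4f096c_nt.ChT19A
import Pool.Agent.Work.MP_4f096c_nt.Sweep
import Pool.Agent.Work.MP_4f096c_nt.ChT19F
import Pool.Agent.Work.MP_4f096c_nt.Cert4

section

/-!
Sweep for small `x`.
-/

namespace ZetaCert
open ZetaSweep

theorem stT19A : Static 170 8 115 1 35 256 27661010798878815335942035236679741930762957289637870185856848552526337 7081218764512976726001161020590013934275317066147294767579353229446742272 141 7081218764512976726001161020590013934275317066147294767579353229446742272 trT19A.get csT19A :=
  Static.mk2 (2 ^ 240) tpT19A.get tqT19A.get (by decide +kernel) (by decide) (by decide +kernel) (by decide +kernel) (by norm_num)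
    (by norm_num) (by decide +kernel) (by decide +kernel) (by decide +kernel)
    (by decide +kernel)

theorem rsT19A : RS 170 8 115 20 1000000000 csT19A 0 1 1 170 0 1 35 4 139 3788586233692149117067425589199452306679349620896603195060783286196964999 233000000218 := by
  have h0 : RS 170 8 115 20 1000000000 csT19A 0 1 1 170 0 1 170 1 169 3736235398288646633031823609571404070064744011861783602152147441580061851 0 :=
    RS.start (acc := 0) ⟨by norm_num, by norm_num, by norm_num, by norm_num, by norm_num, by norm_num, by norm_num⟩ (by decide +kernel) (by norm_num)
  have h1 := RS.step stT19A (by norm_num) (by norm_num) chT19A_0 h0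
  exact h1

end ZetaCert

end

section

/-!
Sweep for the other `x`.
-/

namespace ZetaCert
open ZetaSweep

theorem stT19F : Static 170 7 55 2 1 256 1613239762079613766818597237801324024492878299640764571910401 206494689546190562152780446438569475135088422354017865204531328 73 412989379092381124305560892877138950270176844708035730409062656 trT19F.get csT19F :=
  Static.mk2 (2 ^ 207) tpT19F.get tqT19F.get (by decide +kernel) (by decide) (by decide +kernel) (by decide +kernel) (by norm_num)
    (by norm_num) (by decide +kernel) (by decide +kernel) (by decide +kernel)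
    (by decide +kernel)

theorem rsT19F : RS 170 7 55 20 1000000000 csT19F 1 35 1 35 233000000218 2 1 341 170 114546349538061293447902865308009842265911261787380443316308555 560639220528 := by
  have h0 : RS 170 7 55 20 1000000000 csT19F 1 35 1 35 233000000218 1 35 4 139 95193823632706797064220514252796938681778641702695099190365003 233000000218 :=
    RS.start (acc := 233000000218) ⟨by norm_num, by norm_num, by norm_num, by norm_num, by norm_num, by norm_num, by norm_num⟩ (by decide +kernel) (by norm_num)
  have h1 := RS.step stT19F (by norm_num) (by norm_num) chT19F_0 h0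
  have h2 := RS.step stT19F (by norm_num) (by norm_num) chT19F_1 h1
  have h3 := RS.step stT19F (by norm_num) (by norm_num) chT19F_2 h2
  have h4 := RS.step stT19F (by norm_num) (by norm_num) chT19F_3 h3
  have h5 := RS.step stT19F (by norm_num) (by norm_num) chT19F_4 h4
  exact h5

end ZetaCert

end

section

/-!
The certificate of the family T19.
-/

namespace ZetaCert
open ZetaSweep

theorem okT19 : DT19.Ok where
  a0mem := by decide +kernel
  a0le := by decide +kernel
  b0mem := by decide +kernel
  b0le := by decide +kernel
  ab := by decide
  hA := by decide +kernel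
  hB := by decide +kernel
  hN := by decide +kernel

theorem covT19 : DT19.Cov CT19 HT19 where
  hA := by decide +kernel
  hB := by decide +kernel
  hH := by decide +kernel

theorem certT19 : ∃ e : ℕ → ℕ → ℕ,
    (∀ᶠ n : ℕ in Filter.atTop, ∀ p : ℕ, p.Prime → 2 * (DT19.fam.par n).h < p * p →
      p ≤ (DT19.fam.par n).h →
      ZG.Expo (DT19.fam.par n) (DT19.a0 * n) (DT19.b0 * n + 1) p (e n p)) ∧
    (∀ᶠ n : ℕ in Filter.atTop, ∑ p ∈ (Finset.range ((DT19.fam.par n).h + 1)).filter
      (fun p => p.Prime ∧ 2 * (DT19.fam.par n).h < p * p), (e n p : ℝ) * Real.log p ≤
        (57064 / 100 : ℝ) * n) :=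
  cert_main okT19 covT19 (q := 20) (by decide) (by decide +kernel) (M := 1000000000) (by norm_num)
    csT19A_eq csT19F_eq (by decide +kernel) (d1 := 35) (by decide) (by decide) rsT19A rsT19F
    (by norm_num)

end ZetaCert

end
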