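import Pool.Agent.Work.MP_4f096c_nt.BoundD

/-!
Upper bound of the linear forms for the family giving `ζ(9), ..., ζ(27)`.
-/

namespace ZG
open ZetaCert

/-- the family -/
def DB27 : Dat := ⟨220, [(42, 49), (44, 42), (45, 35), (47, 27), (49, 18), (51, 11), (52, 1)],
  [54, 56, 57, 59, 60, 62, 63, 65, 67, 68, 70, 71, 73, 74, 76, 78, 80, 81, 83, 85, 87, 89], 42, 54, 318⟩

/-- horizontal part of the contour -/
def hor27 : List (ℕ × ℕ × ℤ × ℤ × List ℤ) :=
    [(1, 2917, 13995000000, 0, [32]),
      (3, 2939, 12541000000, 1432000000, [48, 96]),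
      (6, 2972, 12445000000, 0, [192]),
      (12, 3003, 9549000000, 1552000000, [288, 336, 344, 352, 368, 384]),
      (18, 3005, 7790000000, 457000000, [392, 480, 576]),
      (25, 2986, 6125000000, 1744000000, [584, 632, 800]),
      (30, 2952, 3139000000, 1790000000, [840, 864, 872, 960]),
      (34, 2925, 2877000000, 0, [1024, 1088]),
      (36, 2903, 202000000, 1876000000, [1120, 1136, 1152])]

/-- vertical part of the contour -/
def ver27 : List (ℕ × ℕ × ℕ × ℤ × ℤ × List ℤ) :=
    [(2, 1, 2904, 771000000, 0, [15, 22, 29, 36, 43, 50, 57, 64]),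
      (5, 1, 2903, 608000000, 96000000, [76, 88, 100, 112, 124, 136, 148, 160]),
      (8, 1, 2899, 336000000, 98000000, [172, 184, 196, 208, 220, 232, 244, 256]),
      (11, 1, 2894, 63000000, 97000000, [268, 280, 292, 304, 316, 328, 340, 352]),
      (15, 1, 2885, -308000000, 98000000, [368, 384, 400, 416, 432, 448, 464, 480]),
      (20, 1, 2868, -790000000, 102000000, [500, 520, 540, 560, 580, 600, 620, 640]),
      (28, 1, 2829, -1599000000, 106000000, [672, 704, 736, 768, 800, 832, 864, 896]),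
      (40, 1, 2745, -2826000000, 108000000, [944, 992, 1040, 1088, 1136, 1184, 1232, 1280])]

set_option maxRecDepth 100000 in
theorem chkH27 : chHZ DB27 1 1 4 (14461/10) 32 8 0
    (((2906 : ℕ) : ℚ) / (2 * ((1 : ℕ) : ℚ)) -
      ((1 : ℕ) : ℚ) / ((4 : ℕ) : ℚ) * (((15323000000 : ℤ) : ℚ) / 1000000000)) hor27 = true := by
  decide +kernel

set_option maxRecDepth 100000 in
theorem chkV27 : chVZ DB27 1 36 (14461/10) 32 8
    (((2903 : ℕ) : ℚ) / (2 * ((1 : ℕ) : ℚ)) -
      ((1 : ℕ) : ℚ) / ((4 : ℕ) : ℚ) * (((202000000 : ℤ) : ℚ) / 1000000000)) ver27 = true := by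
  decide +kernel

set_option maxRecDepth 100000 in
theorem chkS27 : chSyZ (atoms DB27) ((36 : ℕ) : ℤ) (-(1000000 : ℤ)) 40 1
    [52, 70, 110, 170, 260, 462, 1143] = true := by
  decide +kernel

set_option maxRecDepth 100000 in
theorem chkQ27 : chQyZ (atoms DB27) 0 32 0 [8] = true := by
  decide +kernel

set_option maxRecDepth 100000 in
theorem chkE27 : evalBZ DB27 0 1 4 1 2906 (15323000000) = true := by
  decide +kernel

set_option maxRecDepth 100000 in
theorem chkX27 : evalBZ DB27 ((36 : ℕ) : ℤ) 1 4 1 2903 (202000000) = true := by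
  decide +kernel

end ZG
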