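import Pool.Agent.Work.MP_4f096c_nt.GBound3
import Pool.Agent.Work.MP_4f096c_nt.ChkB27

/-!
Upper bound of the linear forms for the family giving `ζ(9), ..., ζ(27)`.
-/

namespace ZG
open ZetaCert

set_option maxRecDepth 100000 in
theorem bnd27 (d : ℕ) : ∀ᶠ n : ℕ in Filter.atTop,
    ‖ZG.Lf (DB27.fam.par n) d 0‖ ≤ Real.exp (-((14459/10 : ℚ) : ℝ) * n) := by
  refine bound_dat3 DB27 (X := 36) (P0 := 1) (Q0 := 4) (w := 1)
    (k0 := 2906) (S0 := 15323000000) (kX := 2903) (SX := 202000000) (PL := 40) (QL := 1)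
    (cδ := 1000000) (C := 14461/10) (d := 32) (m0 := 8)
    (ys0 := [8]) (hor := hor27) (ver := ver27)
    (zs := [52, 70, 110, 170, 260, 462, 1143])
    (by decide +kernel) (by norm_num) (by norm_num) (by norm_num) (by norm_num) (by norm_num)
    (by norm_num) (by norm_num) (by norm_num) (by norm_num) (by simp)
    (by decide +kernel) chkQ27 chkE27 (by decide +kernel)
    chkH27 (by decide +kernel) chkX27 (by decide +kernel)
    chkV27 (by decide +kernel) chkS27 (by decide +kernel) d

end ZG
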