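import Pool.Agent.Work.MP_4f096c_nt.ChT27A
import Pool.Agent.Work.MP_4f096c_nt.Sweep
import Pool.Agent.Work.MP_4f096c_nt.ChT27F
import Pool.Agent.Work.MP_4f096c_nt.Cert4

section

/-!
Sweep for small `x`.
-/

namespace ZetaCert
open ZetaSweep

theorem stT27A : Static 318 8 161 1 68 256 34242672795037368679021561285598768929208131990500390394141222800938598813297470422285920579617281 8766124235529566381829519689113284845877281789568099940900153037040281296204152428105195668382023936 95 8766124235529566381829519689113284845877281789568099940900153037040281296204152428105195668382023936 trT27A.get csT27A :=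
  Static.mk2 (2 ^ 330) tpT27A.get tqT27A.get (by decide +kernel) (by decide) (by decide +kernel) (by decide +kernel) (by norm_num)
    (by norm_num) (by decide +kernel) (by decide +kernel) (by decide +kernel)
    (by decide +kernel)

theorem rsT27A : RS 318 8 161 28 1000000000 csT27A 0 1 1 318 0 1 68 4 271 6710159906725712375409946041900070597385545016771103291954854676960870738143426798468698812940121788 494000000390 := by
  have h0 : RS 318 8 161 28 1000000000 csT27A 0 1 1 318 0 1 318 1 317 6475276049753132920855512968126942392046276666241175843625818994332343006527827406156839447129075929 0 :=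
    RS.start (acc := 0) ⟨by norm_num, by norm_num, by norm_num, by norm_num, by norm_num, by norm_num, by norm_num⟩ (by decide +kernel) (by norm_num)
  have h1 := RS.step stT27A (by norm_num) (by norm_num) chT27A_0 h0
  exact h1

end ZetaCert

end

section

/-!
Sweep for the other `x`.
-/

namespace ZetaCert
open ZetaSweep

theorem stT27F : Static 318 8 77 2 1 256 66880220302807360701213986885935095564859632793946074988557075783083200807221621918527188632065 17121336397518684339510780642799384464604065995250195197070611400469299406648735211142960289808640 179 17121336397518684339510780642799384464604065995250195197070611400469299406648735211142960289808640 trT27F.get csT27F :=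
  Static.mk2 (2 ^ 322) tpT27F.get tqT27F.get (by decide +kernel) (by decide) (by decide +kernel) (by decide +kernel) (by norm_num)
    (by norm_num) (by decide +kernel) (by decide +kernel) (by decide +kernel)
    (by decide +kernel)

theorem rsT27F : RS 318 8 77 28 1000000000 csT27F 1 68 1 68 494000000390 2 1 637 318 6621272691035272754925558782284201673724412815964128288029878508995038523304746017414769253601385 1410106272590 := by
  have h0 : RS 318 8 77 28 1000000000 csT27F 1 68 1 68 494000000390 1 68 4 271 6086623572275341355764836246943745497319896241255741406146670511313163853795072695540551542951528 494000000390 :=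
    RS.start (acc := 494000000390) ⟨by norm_num, by norm_num, by norm_num, by norm_num, by norm_num, by norm_num, by norm_num⟩ (by decide +kernel) (by norm_num)
  have h1 := RS.step stT27F (by norm_num) (by norm_num) chT27F_0 h0
  have h2 := RS.step stT27F (by norm_num) (by norm_num) chT27F_1 h1
  have h3 := RS.step stT27F (by norm_num) (by norm_num) chT27F_2 h2
  have h4 := RS.step stT27F (by norm_num) (by norm_num) chT27F_3 h3
  have h5 := RS.step stT27F (by norm_num) (by norm_num) chT27F_4 h4
  have h6 := RS.step stT27F (by norm_num) (by norm_num) chT27F_5 h5
  have h7 := RS.step stT27F (by norm_num) (by norm_num) chT27F_6 h6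
  have h8 := RS.step stT27F (by norm_num) (by norm_num) chT27F_7 h7
  have h9 := RS.step stT27F (by norm_num) (by norm_num) chT27F_8 h8
  have h10 := RS.step stT27F (by norm_num) (by norm_num) chT27F_9 h9
  have h11 := RS.step stT27F (by norm_num) (by norm_num) chT27F_10 h10
  have h12 := RS.step stT27F (by norm_num) (by norm_num) chT27F_11 h11
  have h13 := RS.step stT27F (by norm_num) (by norm_num) chT27F_12 h12
  have h14 := RS.step stT27F (by norm_num) (by norm_num) chT27F_13 h13
  have h15 := RS.step stT27F (by norm_num) (by norm_num) chT27F_14 h14
  have h16 := RS.step stT27F (by norm_num) (by norm_num) chT27F_15 h15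
  exact h16

end ZetaCert

end

section

/-!
The certificate of the family T27.
-/

namespace ZetaCert
open ZetaSweep

theorem okT27 : DT27.Ok where
  a0mem := by decide +kernel
  a0le := by decide +kernel
  b0mem := by decide +kernel
  b0le := by decide +kernel
  ab := by decide
  hA := by decide +kernel
  hB := by decide +kernel
  hN := by decide +kernel

theorem covT27 : DT27.Cov CT27 HT27 where
  hA := by decide +kernel
  hB := by decide +kernel
  hH := by decide +kernel

theorem certT27 : ∃ e : ℕ → ℕ → ℕ,
    (∀ᶠ n : ℕ in Filter.atTop, ∀ p : ℕ, p.Prime → 2 * (DT27.fam.par n).h < p * p →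
      p ≤ (DT27.fam.par n).h →
      ZG.Expo (DT27.fam.par n) (DT27.a0 * n) (DT27.b0 * n + 1) p (e n p)) ∧
    (∀ᶠ n : ℕ in Filter.atTop, ∑ p ∈ (Finset.range ((DT27.fam.par n).h + 1)).filter
      (fun p => p.Prime ∧ 2 * (DT27.fam.par n).h < p * p), (e n p : ℝ) * Real.log p ≤
        (142411 / 100 : ℝ) * n) :=
  cert_main okT27 covT27 (q := 28) (by decide) (by decide +kernel) (M := 1000000000) (by norm_num)
    csT27A_eq csT27F_eq (by decide +kernel) (d1 := 68) (by decide) (by decide) rsT27A rsT27F
    (by norm_num)

end ZetaCert

end
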