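import Pool.Agent.Work.MP_4f096c_nt.Defs

/-!
The exponential rate function of the linear forms on a vertical line and its tangent bound.
-/

namespace ZetaSets

open Real Finset Set

/-- log of an explicit rational -/
noncomputable def Fam.Lam (F : Fam) (z : ℝ) : ℝ :=
  (∑ j, ((F.α j : ℝ) / 2 * Real.log ((F.α j : ℝ) ^ 2 + z) + (F.η : ℝ) / 2 * Real.log ((F.η : ℝ) ^ 2 + z) - ((F.η : ℝ) - F.α j) / 2 * Real.log (((F.η : ℝ) - F.α j) ^ 2 + z) - 2 * F.α j * Real.log (F.α j)))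
  + ∑ i, ((F.β i : ℝ) / 2 * Real.log ((F.β i : ℝ) ^ 2 + z) - ((F.η : ℝ) - F.β i) / 2 * Real.log (((F.η : ℝ) - F.β i) ^ 2 + z) + ((F.η : ℝ) - 2 * F.β i) * Real.log ((F.η : ℝ) - 2 * F.β i))

noncomputable def Fam.slopeA (F : Fam) (Y : ℝ) : ℝ := ∑ j, (Real.arctan (F.α j / Y) + Real.arctan (F.η / Y) - Real.arctan (((F.η : ℝ) - F.α j) / Y))

noncomputable def Fam.slopeB (F : Fam) (Y : ℝ) : ℝ := ∑ i, (Real.arctan (F.β i / Y) - Real.arctan (((F.η : ℝ) - F.β i) / Y))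

/-- the rate function -/
noncomputable def Fam.FF (F : Fam) (t : ℝ) : ℝ :=
  (∑ j, (gg (F.α j) t + gg F.η t - gg ((F.η : ℝ) - F.α j) t - 2 * F.α j * Real.log (F.α j)))
  + (∑ i, (gg (F.β i) t - gg ((F.η : ℝ) - F.β i) t +
      ((F.η : ℝ) - 2 * F.β i) * Real.log ((F.η : ℝ) - 2 * F.β i))) - 2 * Real.pi * t

theorem FF_eq (F : Fam) (t : ℝ) :
    F.FF t = F.Lam (t ^ 2) + t * (F.slopeA t + F.slopeB t - 2 * Real.pi) := by
  unfold Fam.FF Fam.Lam Fam.slopeA Fam.slopeB gg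
  have h1 : ∀ (j : Fin F.r), ((F.α j : ℝ) / 2 * Real.log ((F.α j : ℝ) ^ 2 + t ^ 2) +
      t * Real.arctan (F.α j / t) + ((F.η : ℝ) / 2 * Real.log ((F.η : ℝ) ^ 2 + t ^ 2) +
      t * Real.arctan (F.η / t)) - (((F.η : ℝ) - F.α j) / 2 *
      Real.log (((F.η : ℝ) - F.α j) ^ 2 + t ^ 2) +
      t * Real.arctan (((F.η : ℝ) - F.α j) / t)) - 2 * F.α j * Real.log (F.α j)) =
      ((F.α j : ℝ) / 2 * Real.log ((F.α j : ℝ) ^ 2 + t ^ 2) + (F.η : ℝ) / 2 *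
        Real.log ((F.η : ℝ) ^ 2 + t ^ 2) - ((F.η : ℝ) - F.α j) / 2 *
        Real.log (((F.η : ℝ) - F.α j) ^ 2 + t ^ 2) - 2 * F.α j * Real.log (F.α j)) +
      t * (Real.arctan (F.α j / t) + Real.arctan (F.η / t) -
        Real.arctan (((F.η : ℝ) - F.α j) / t)) := by
    intro j; ring
  have h2 : ∀ (i : Fin F.s), ((F.β i : ℝ) / 2 * Real.log ((F.β i : ℝ) ^ 2 + t ^ 2) +
      t * Real.arctan (F.β i / t) - (((F.η : ℝ) - F.β i) / 2 *
      Real.log (((F.η : ℝ) - F.β i) ^ 2 + t ^ 2) +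
      t * Real.arctan (((F.η : ℝ) - F.β i) / t)) +
      ((F.η : ℝ) - 2 * F.β i) * Real.log ((F.η : ℝ) - 2 * F.β i)) =
      ((F.β i : ℝ) / 2 * Real.log ((F.β i : ℝ) ^ 2 + t ^ 2) - ((F.η : ℝ) - F.β i) / 2 *
        Real.log (((F.η : ℝ) - F.β i) ^ 2 + t ^ 2) +
        ((F.η : ℝ) - 2 * F.β i) * Real.log ((F.η : ℝ) - 2 * F.β i)) +
      t * (Real.arctan (F.β i / t) - Real.arctan (((F.η : ℝ) - F.β i) / t)) := by
    intro i; ring
  rw [Finset.sum_congr rfl fun j _ => h1 j, Finset.sum_congr rfl fun i _ => h2 i,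
    Finset.sum_add_distrib, Finset.sum_add_distrib, ← Finset.mul_sum, ← Finset.mul_sum]
  ring

theorem hasDerivAt_FF (F : Fam) {t : ℝ} (ht : 0 < t) :
    HasDerivAt F.FF (F.slopeA t + F.slopeB t - 2 * Real.pi) t := by
  unfold Fam.FF Fam.slopeA Fam.slopeB
  refine HasDerivAt.sub (HasDerivAt.add ?_ ?_) ?_
  · refine HasDerivAt.fun_sum fun j _ => ?_
    refine HasDerivAt.sub_const _ ?_
    exact ((hasDerivAt_gg _ ht).add (hasDerivAt_gg _ ht)).sub (hasDerivAt_gg _ ht)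
  · refine HasDerivAt.fun_sum fun i _ => ?_
    refine HasDerivAt.add_const _ ?_
    exact (hasDerivAt_gg _ ht).sub (hasDerivAt_gg _ ht)
  · simpa using (hasDerivAt_id t).const_mul (2 * Real.pi)

theorem key_A {a h u : ℝ} (ha : 0 < a) (hh : 2 * a < h) (hu : 0 < u) :
    -a / (a ^ 2 + u ^ 2) + -h / (h ^ 2 + u ^ 2) - -(h - a) / ((h - a) ^ 2 + u ^ 2) ≤ 0 := by
  obtain ⟨b, rfl⟩ : ∃ b, h = a + b := ⟨h - a, by ring⟩
  have hb : a < b := by linarith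
  have hb0 : 0 < b := by linarith
  rw [show a + b - a = b by ring]
  have h1 : 0 < a ^ 2 + u ^ 2 := by positivity
  have h2 : 0 < (a + b) ^ 2 + u ^ 2 := by positivity
  have h3 : 0 < b ^ 2 + u ^ 2 := by positivity
  rw [show -a / (a ^ 2 + u ^ 2) + -(a + b) / ((a + b) ^ 2 + u ^ 2) - -b / (b ^ 2 + u ^ 2) =
    -(a * ((a + b) ^ 2 + u ^ 2) * (b ^ 2 + u ^ 2) + (a + b) * (a ^ 2 + u ^ 2) * (b ^ 2 + u ^ 2) -
      b * (a ^ 2 + u ^ 2) * ((a + b) ^ 2 + u ^ 2)) /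
      ((a ^ 2 + u ^ 2) * ((a + b) ^ 2 + u ^ 2) * (b ^ 2 + u ^ 2)) by
    field_simp
    ring]
  apply div_nonpos_of_nonpos_of_nonneg _ (by positivity)
  have h4 : a * ((a + b) ^ 2 + u ^ 2) * (b ^ 2 + u ^ 2) +
      (a + b) * (a ^ 2 + u ^ 2) * (b ^ 2 + u ^ 2) -
      b * (a ^ 2 + u ^ 2) * ((a + b) ^ 2 + u ^ 2) =
      a * b * (a + b) * (b * (a + b) - a ^ 2) + (a * b ^ 2 + 2 * a ^ 3 + a ^ 2 * b) * u ^ 2 +
        2 * a * u ^ 4 := by ring
  rw [h4]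
  have h5 : 0 ≤ b * (a + b) - a ^ 2 := by nlinarith
  have h6 : 0 ≤ a * b * (a + b) * (b * (a + b) - a ^ 2) := by positivity
  have h7 : 0 ≤ (a * b ^ 2 + 2 * a ^ 3 + a ^ 2 * b) * u ^ 2 := by positivity
  have h8 : 0 ≤ 2 * a * u ^ 4 := by positivity
  linarith

theorem key_B {b h u : ℝ} (hb : 0 < b) (hh : 2 * b < h) (hu : 0 < u) (hz : u ^ 2 ≤ b * (h - b)) :
    -b / (b ^ 2 + u ^ 2) - -(h - b) / ((h - b) ^ 2 + u ^ 2) ≤ 0 := by
  have hb' : 0 < h - b := by linarith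
  have h1 : 0 < b ^ 2 + u ^ 2 := by positivity
  have h2 : 0 < (h - b) ^ 2 + u ^ 2 := by positivity
  rw [show -b / (b ^ 2 + u ^ 2) - -(h - b) / ((h - b) ^ 2 + u ^ 2) =
    -((h - 2 * b) * (b * (h - b) - u ^ 2)) / ((b ^ 2 + u ^ 2) * ((h - b) ^ 2 + u ^ 2)) by
    field_simp
    ring]
  apply div_nonpos_of_nonpos_of_nonneg _ (by positivity)
  have h3 : 0 ≤ (h - 2 * b) * (b * (h - b) - u ^ 2) :=
    mul_nonneg (by linarith) (by linarith)
  linarith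

theorem slopeA_antitone (F : Fam) (hα : ∀ j, 0 < F.α j) (hα2 : ∀ j, 2 * F.α j < F.η) :
    AntitoneOn F.slopeA (Ioi 0) := by
  have key : ∀ j : Fin F.r, AntitoneOn (fun u : ℝ => Real.arctan (F.α j / u) +
      Real.arctan (F.η / u) - Real.arctan (((F.η : ℝ) - F.α j) / u)) (Ioi 0) := by
    intro j
    have hd : ∀ u : ℝ, 0 < u → HasDerivAt (fun u : ℝ => Real.arctan (F.α j / u) +
      Real.arctan (F.η / u) - Real.arctan (((F.η : ℝ) - F.α j) / u)) (-(F.α j : ℝ) /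
        ((F.α j : ℝ) ^ 2 + u ^ 2) + -(F.η : ℝ) / ((F.η : ℝ) ^ 2 + u ^ 2) -
        -((F.η : ℝ) - F.α j) / (((F.η : ℝ) - F.α j) ^ 2 + u ^ 2)) u := fun u hu =>
      ((hasDerivAt_arctan_div _ hu).add (hasDerivAt_arctan_div _ hu)).sub
        (hasDerivAt_arctan_div _ hu)
    refine antitoneOn_of_deriv_nonpos (convex_Ioi 0)
      (fun u hu => (hd u hu).continuousAt.continuousWithinAt) ?_ ?_
    · rw [interior_Ioi]
      exact fun u hu => (hd u hu).differentiableAt.differentiableWithinAt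
    · rw [interior_Ioi]
      intro u hu
      rw [(hd u hu).deriv]
      exact key_A (by exact_mod_cast hα j) (by exact_mod_cast hα2 j) hu
  intro u hu v hv huv
  unfold Fam.slopeA
  exact Finset.sum_le_sum fun j _ => key j hu hv huv

theorem slopeB_antitone (F : Fam) (hβ : ∀ i, 0 < F.β i) (hβ2 : ∀ i, 2 * F.β i < F.η) {Y1 : ℝ}
    (hY1 : ∀ i, Y1 ^ 2 ≤ F.β i * ((F.η : ℝ) - F.β i)) :
    AntitoneOn F.slopeB (Ioc 0 Y1) := by
  have key : ∀ i : Fin F.s, AntitoneOn (fun u : ℝ => Real.arctan (F.β i / u) -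
      Real.arctan (((F.η : ℝ) - F.β i) / u)) (Ioc 0 Y1) := by
    intro i
    have hd : ∀ u : ℝ, 0 < u → HasDerivAt (fun u : ℝ => Real.arctan (F.β i / u) -
      Real.arctan (((F.η : ℝ) - F.β i) / u)) (-(F.β i : ℝ) /
        ((F.β i : ℝ) ^ 2 + u ^ 2) -
        -((F.η : ℝ) - F.β i) / (((F.η : ℝ) - F.β i) ^ 2 + u ^ 2)) u := fun u hu =>
      (hasDerivAt_arctan_div _ hu).sub (hasDerivAt_arctan_div _ hu)
    refine antitoneOn_of_deriv_nonpos (convex_Ioc 0 Y1)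
      (fun u hu => (hd u hu.1).continuousAt.continuousWithinAt) ?_ ?_
    · rw [interior_Ioc]
      exact fun u hu => (hd u hu.1).differentiableAt.differentiableWithinAt
    · rw [interior_Ioc]
      intro u hu
      rw [(hd u hu.1).deriv]
      refine key_B (by exact_mod_cast hβ i) (by exact_mod_cast hβ2 i) hu.1 ?_
      refine le_trans ?_ (hY1 i)
      exact pow_le_pow_left₀ hu.1.le hu.2.le 2
  intro u hu v hv huv
  unfold Fam.slopeB
  exact Finset.sum_le_sum fun i _ => key i hu hv huv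

theorem slopeB_nonpos (F : Fam) (hβ2 : ∀ i, 2 * F.β i < F.η) {u : ℝ}
    (hu : 0 < u) : F.slopeB u ≤ 0 := by
  unfold Fam.slopeB
  refine Finset.sum_nonpos fun i _ => ?_
  have h1 : (F.β i : ℝ) / u ≤ ((F.η : ℝ) - F.β i) / u := by
    apply div_le_div_of_nonneg_right _ hu.le
    have : (2 * F.β i : ℝ) < F.η := by exact_mod_cast hβ2 i
    linarith
  have := Real.arctan_mono h1
  linarith

/-- the tangent bound for the rate function, general form -/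
theorem FF_le2 (F : Fam) (hα : ∀ j, 0 < F.α j) (hα2 : ∀ j, 2 * F.α j < F.η)
    (hβ : ∀ i, 0 < F.β i) (hβ2 : ∀ i, 2 * F.β i < F.η) {Y Y1 δ : ℝ} (hY : 0 < Y)
    (hYY : Y ≤ Y1) (hY1 : ∀ i, Y1 ^ 2 ≤ F.β i * ((F.η : ℝ) - F.β i))
    (h2 : F.slopeA Y + F.slopeB Y ≤ 2 * Real.pi - δ)
    (h3 : ∀ t, Y1 ≤ t → F.slopeA t + F.slopeB t ≤ 2 * Real.pi - δ)
    {t : ℝ} (ht : 0 < t) : F.FF t ≤ F.Lam (Y ^ 2) - δ * t := by
  have hY10 : 0 < Y1 := lt_of_lt_of_le hY hYY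
  have hAa := slopeA_antitone F hα hα2
  have hBa := slopeB_antitone F hβ hβ2 hY1
  have hsum : AntitoneOn (fun u => F.slopeA u + F.slopeB u - 2 * Real.pi) (Ioc 0 Y1) := by
    intro u hu v hv huv
    have e1 := hAa hu.1 hv.1 huv
    have e2 := hBa hu hv huv
    simp only
    linarith
  -- mean value theorem
  have mvt : ∀ a b : ℝ, 0 < a → a < b → ∃ ξ, a < ξ ∧ ξ < b ∧
      F.FF b - F.FF a = (F.slopeA ξ + F.slopeB ξ - 2 * Real.pi) * (b - a) := by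
    intro a b ha hab
    obtain ⟨ξ, e1, e2⟩ := exists_hasDerivAt_eq_slope F.FF
      (fun u => F.slopeA u + F.slopeB u - 2 * Real.pi) hab
      (fun x hx => (hasDerivAt_FF F (lt_of_lt_of_le ha hx.1)).continuousAt.continuousWithinAt)
      (fun x hx => hasDerivAt_FF F (ha.trans hx.1))
    refine ⟨ξ, e1.1, e1.2, ?_⟩
    rw [e2]
    field_simp [(sub_pos.mpr hab).ne']
  have hFY := FF_eq F Y
  -- the case t ≤ Y1
  have part1 : ∀ t : ℝ, 0 < t → t ≤ Y1 → F.FF t ≤ F.Lam (Y ^ 2) - δ * t := by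
    intro t ht htY
    have tangent : F.FF t ≤ F.FF Y + (F.slopeA Y + F.slopeB Y - 2 * Real.pi) * (t - Y) := by
      rcases lt_trichotomy t Y with h | h | h
      · obtain ⟨ξ, e1, e2, e3⟩ := mvt t Y ht h
        have e4 := hsum ⟨ht.trans e1, e2.le.trans hYY⟩ ⟨hY, hYY⟩ e2.le
        simp only at e4
        nlinarith
      · rw [h]; simp
      · obtain ⟨ξ, e1, e2, e3⟩ := mvt Y t hY h
        have e4 := hsum ⟨hY, hYY⟩ ⟨hY.trans e1, e2.le.trans htY⟩ e1.le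
        simp only at e4
        nlinarith
    rw [hFY] at tangent
    nlinarith
  rcases le_or_gt t Y1 with h | h
  · exact part1 t ht h
  · obtain ⟨ξ, e1, e2, e3⟩ := mvt Y1 t hY10 h
    have e4 := part1 Y1 hY10 le_rfl
    have e5 := h3 ξ e1.le
    nlinarith

/-- the tangent bound for the rate function -/
theorem FF_le (F : Fam) (hα : ∀ j, 0 < F.α j) (hα2 : ∀ j, 2 * F.α j < F.η)
    (hβ : ∀ i, 0 < F.β i) (hβ2 : ∀ i, 2 * F.β i < F.η) {Y Y1 δ : ℝ} (hY : 0 < Y)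
    (hYY : Y ≤ Y1) (hY1 : ∀ i, Y1 ^ 2 ≤ F.β i * ((F.η : ℝ) - F.β i))
    (h2 : F.slopeA Y + F.slopeB Y ≤ 2 * Real.pi - δ) (h3 : F.slopeA Y1 ≤ 2 * Real.pi - δ)
    {t : ℝ} (ht : 0 < t) : F.FF t ≤ F.Lam (Y ^ 2) - δ * t := by
  refine FF_le2 F hα hα2 hβ hβ2 hY hYY hY1 h2 (fun u hu => ?_) ht
  have hY10 : 0 < Y1 := lt_of_lt_of_le hY hYY
  have e5 := slopeA_antitone F hα hα2 (mem_Ioi.mpr hY10) (mem_Ioi.mpr (hY10.trans_le hu)) hu
  have e6 := slopeB_nonpos F hβ2 (hY10.trans_le hu)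
  linarith

end ZetaSets
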