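import Pool.Agent.Work.MP_4f096c_nt.Defs

/-!
The function `Phi`, sizes of the factors on the line `Re t = -1/2`.
-/

section

/-!
Elementary bounds for `G m y = prod_{l < m} |l + 1/2 + i y|` and for factorials, in terms of
`Phi y m = int_0^m log |u + i y| du`.
-/

namespace ZetaSets

open Real Finset

/-- `log |u + i y|` -/
noncomputable def psi (y u : ℝ) : ℝ := Real.log (u ^ 2 + y ^ 2) / 2

/-- `int_0^m log |u + i y| du` -/
noncomputable def Phi (y m : ℝ) : ℝ :=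
  m / 2 * Real.log (m ^ 2 + y ^ 2) - m + y * Real.arctan (m / y)

theorem hasDerivAt_Phi {y : ℝ} (hy : 0 < y) (m : ℝ) : HasDerivAt (Phi y) (psi y m) m := by
  have hpos : 0 < m ^ 2 + y ^ 2 := by positivity
  have h1 : HasDerivAt (fun m : ℝ => m / 2) (1 / 2) m := (hasDerivAt_id m).div_const 2
  have h2 : HasDerivAt (fun m : ℝ => Real.log (m ^ 2 + y ^ 2)) (2 * m / (m ^ 2 + y ^ 2)) m := by
    have := ((hasDerivAt_pow 2 m).add_const (y ^ 2)).log hpos.ne'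
    simpa using this
  have h3 : HasDerivAt (fun m : ℝ => Real.arctan (m / y)) (1 / (1 + (m / y) ^ 2) * (1 / y)) m :=
    ((hasDerivAt_id m).div_const y).arctan
  have h4 := ((h1.mul h2).sub (hasDerivAt_id m)).add (h3.const_mul y)
  refine h4.congr_deriv ?_
  unfold psi
  have hy' := hy.ne'
  have h5 : 1 / (1 + (m / y) ^ 2) = y ^ 2 / (m ^ 2 + y ^ 2) := by
    field_simp
    ring
  rw [h5]
  field_simp
  ring

theorem psi_mono {y u v : ℝ} (hy : 0 < y) (h : |u| ≤ v) : psi y u ≤ psi y v := by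
  unfold psi
  have h1 : u ^ 2 ≤ v ^ 2 := by
    rw [← sq_abs u]
    exact pow_le_pow_left₀ (abs_nonneg u) h 2
  have := Real.log_le_log (by positivity : (0 : ℝ) < u ^ 2 + y ^ 2)
    (by linarith : u ^ 2 + y ^ 2 ≤ v ^ 2 + y ^ 2)
  linarith

theorem Phi_mvt {y : ℝ} (hy : 0 < y) {a b : ℝ} (hab : a < b) :
    ∃ ξ, a < ξ ∧ ξ < b ∧ Phi y b - Phi y a = psi y ξ * (b - a) := by
  obtain ⟨ξ, h1, h2⟩ := exists_hasDerivAt_eq_slope (Phi y) (psi y) hab
    (fun x _ => (hasDerivAt_Phi hy x).continuousAt.continuousWithinAt)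
    (fun x _ => hasDerivAt_Phi hy x)
  refine ⟨ξ, h1.1, h1.2, ?_⟩
  rw [h2]
  field_simp [(sub_pos.mpr hab).ne']

/-- the basic product -/
noncomputable def G (m : ℕ) (y : ℝ) : ℝ :=
  ∏ l ∈ Finset.range m, Real.sqrt (((l : ℝ) + 1 / 2) ^ 2 + y ^ 2)

theorem G_pos (m : ℕ) {y : ℝ} : 0 < G m y :=
  Finset.prod_pos fun l _ => Real.sqrt_pos.mpr (by positivity)

theorem log_G {m : ℕ} {y : ℝ} (hy : 0 < y) :
    Real.log (G m y) = ∑ l ∈ Finset.range m, psi y ((l : ℝ) + 1 / 2) := by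
  unfold G psi
  rw [Real.log_prod fun l _ => (Real.sqrt_pos.mpr (by positivity)).ne']
  exact Finset.sum_congr rfl fun l _ => by rw [Real.log_sqrt (by positivity)]

theorem sum_le {y : ℝ} (hy : 0 < y) (m : ℕ) :
    ∑ l ∈ Finset.range m, psi y ((l : ℝ) + 1 / 2) ≤ Phi y (m + 1 / 2) - Phi y (1 / 2) := by
  induction m with
  | zero => simp
  | succ m ih =>
    rw [Finset.sum_range_succ]
    obtain ⟨ξ, h1, h2, h3⟩ := Phi_mvt hy (show (m : ℝ) + 1 / 2 < m + 1 + 1 / 2 by linarith)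
    have h4 : psi y ((m : ℝ) + 1 / 2) ≤ psi y ξ := psi_mono hy (by
      rw [abs_of_nonneg (by positivity)]
      exact h1.le)
    push_cast
    have h5 : psi y ξ * ((m : ℝ) + 1 + 1 / 2 - (m + 1 / 2)) = psi y ξ := by ring
    rw [h5] at h3
    linarith

theorem le_sum {y : ℝ} (hy : 0 < y) (m : ℕ) :
    Phi y (m - 1 / 2) - Phi y (-(1 / 2)) ≤ ∑ l ∈ Finset.range m, psi y ((l : ℝ) + 1 / 2) := by
  induction m with
  | zero => simp
  | succ m ih =>
    rw [Finset.sum_range_succ]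
    obtain ⟨ξ, h1, h2, h3⟩ := Phi_mvt hy (show (m : ℝ) - 1 / 2 < m + 1 - 1 / 2 by linarith)
    have hm : (0 : ℝ) ≤ m := by positivity
    have h4 : psi y ξ ≤ psi y ((m : ℝ) + 1 / 2) := psi_mono hy (by
      rw [abs_le]
      constructor <;> linarith)
    push_cast
    have h5 : psi y ξ * ((m : ℝ) + 1 - 1 / 2 - (m - 1 / 2)) = psi y ξ := by ring
    rw [h5] at h3
    linarith

theorem Phi_half {y : ℝ} (hy : 0 < y) : -1 ≤ Phi y (1 / 2) := by
  unfold Phi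
  have h1 : Real.log (1 / 4) ≤ Real.log ((1 / 2) ^ 2 + y ^ 2) := by
    apply Real.log_le_log (by norm_num)
    nlinarith [sq_nonneg y]
  have h2 : 0 ≤ Real.arctan (1 / 2 / y) := Real.arctan_nonneg.mpr (by positivity)
  have h3 : Real.log (1 / 4) = -(2 * Real.log 2) := by
    rw [one_div, Real.log_inv, show (4 : ℝ) = 2 ^ 2 by norm_num, Real.log_pow]
    push_cast
    ring
  have h4 : Real.log 2 < 1 := by
    have := Real.log_two_lt_d9
    linarith
  have h5 : 0 ≤ y * Real.arctan (1 / 2 / y) := by positivity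
  linarith

theorem Phi_neg (y m : ℝ) : Phi y (-m) = -Phi y m := by
  unfold Phi
  rw [neg_div, neg_div, Real.arctan_neg, neg_sq]
  ring

theorem psi_le_log {y u B : ℝ} (hy : 0 < y) (hu : 0 ≤ u) (hB : u + y ≤ B) (hB1 : 1 ≤ B) :
    psi y u ≤ 2 * Real.log B := by
  unfold psi
  have h1 : u ^ 2 + y ^ 2 ≤ B ^ 2 := by nlinarith [mul_nonneg hu hy.le]
  have h2 := Real.log_le_log (by positivity : (0 : ℝ) < u ^ 2 + y ^ 2) h1
  rw [Real.log_pow] at h2
  have h3 := Real.log_nonneg hB1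
  push_cast at h2
  linarith

theorem log_G_le {y B : ℝ} (hy : 0 < y) (m : ℕ) (hB : (m : ℝ) + 1 / 2 + y ≤ B) (hB1 : 1 ≤ B) :
    Real.log (G m y) ≤ Phi y m + (Real.log B + 1) := by
  rw [log_G hy]
  have h1 := sum_le hy m
  have h2 := Phi_half hy
  obtain ⟨ξ, h3, h4, h5⟩ := Phi_mvt hy (show (m : ℝ) < m + 1 / 2 by linarith)
  have hm : (0 : ℝ) ≤ m := by positivity
  have h6 : psi y ξ ≤ psi y ((m : ℝ) + 1 / 2) := psi_mono hy (by
    rw [abs_of_nonneg (by linarith)]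
    exact h4.le)
  have h7 := psi_le_log hy (by positivity : (0 : ℝ) ≤ (m : ℝ) + 1 / 2) hB hB1
  have h8 : psi y ξ * ((m : ℝ) + 1 / 2 - m) = psi y ξ / 2 := by ring
  rw [h8] at h5
  linarith

theorem le_log_G {y B : ℝ} (hy : 0 < y) (m : ℕ) (hB : (m : ℝ) + 1 / 2 + y ≤ B) (hB1 : 1 ≤ B) :
    Phi y m - (Real.log B + 1) ≤ Real.log (G m y) := by
  rw [log_G hy]
  have h1 := le_sum hy m
  have h2 := Phi_half hy
  obtain ⟨ξ, h3, h4, h5⟩ := Phi_mvt hy (show (m : ℝ) - 1 / 2 < m by linarith)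
  have hm : (0 : ℝ) ≤ m := by positivity
  have h6 : psi y ξ ≤ psi y ((m : ℝ) + 1 / 2) := psi_mono hy (by
    rw [abs_le]
    constructor <;> linarith)
  have h7 := psi_le_log hy (by positivity : (0 : ℝ) ≤ (m : ℝ) + 1 / 2) hB hB1
  have h8 : psi y ξ * ((m : ℝ) - (m - 1 / 2)) = psi y ξ / 2 := by ring
  rw [h8] at h5
  rw [Phi_neg] at h1
  linarith

/-- upper bound for `G` -/
theorem G_le {y B : ℝ} (hy : 0 < y) (m : ℕ) (hB : (m : ℝ) + 1 / 2 + y ≤ B) (hB1 : 1 ≤ B) :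
    G m y ≤ Real.exp (Phi y m) * (B * Real.exp 1) := by
  have h := log_G_le hy m hB hB1
  have h1 := Real.exp_le_exp.mpr h
  rw [Real.exp_log (G_pos m), Real.exp_add, Real.exp_add, Real.exp_log (by linarith)] at h1
  exact h1

/-- lower bound for `G` -/
theorem le_G {y B : ℝ} (hy : 0 < y) (m : ℕ) (hB : (m : ℝ) + 1 / 2 + y ≤ B) (hB1 : 1 ≤ B) :
    Real.exp (Phi y m) ≤ G m y * (B * Real.exp 1) := by
  have h := le_log_G hy m hB hB1
  have h1 := Real.exp_le_exp.mpr h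
  have hB0 : 0 < B := by linarith
  rw [Real.exp_log (G_pos m), Real.exp_sub, Real.exp_add, Real.exp_log hB0,
    div_le_iff₀ (by positivity)] at h1
  exact h1

/-! ### Factorials -/

theorem factorial_le {m : ℕ} (hm : 1 ≤ m) :
    (m.factorial : ℝ) ≤ Real.exp ((m : ℝ) * Real.log m - m) * (m * Real.exp 1) := by
  have hm0 : (0 : ℝ) < m := by exact_mod_cast hm
  obtain ⟨k, rfl⟩ : ∃ k, m = k + 1 := ⟨m - 1, by omega⟩
  have h1 := Stirling.stirlingSeq'_antitone (Nat.zero_le k)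
  simp only [Function.comp_apply] at h1
  have h2 : Stirling.stirlingSeq (Nat.succ 0) = Real.exp 1 / Real.sqrt 2 := by
    simp
  rw [h2] at h1
  unfold Stirling.stirlingSeq at h1
  have hs : (0 : ℝ) < Real.sqrt (2 * (k + 1 : ℕ)) := Real.sqrt_pos.mpr (by positivity)
  have hp : (0 : ℝ) < (((k + 1 : ℕ) : ℝ) / Real.exp 1) ^ (k + 1) := by positivity
  rw [div_le_iff₀ (by positivity)] at h1
  have h3 : (((k + 1 : ℕ) : ℝ) / Real.exp 1) ^ (k + 1) =
      Real.exp (((k + 1 : ℕ) : ℝ) * Real.log ((k + 1 : ℕ) : ℝ) - ((k + 1 : ℕ) : ℝ)) := by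
    rw [Real.exp_sub, div_pow, ← Real.exp_nat_mul, mul_one, mul_comm (((k + 1 : ℕ) : ℝ)),
      Real.exp_mul, Real.exp_log hm0, Real.rpow_natCast]
  rw [← h3]
  have h4 : Real.sqrt (2 * (k + 1 : ℕ)) / Real.sqrt 2 ≤ ((k + 1 : ℕ) : ℝ) := by
    rw [Real.sqrt_mul (by norm_num), mul_div_assoc, mul_comm, div_mul_cancel₀ _ (by positivity)]
    rw [Real.sqrt_le_left hm0.le]
    nlinarith [show (1 : ℝ) ≤ ((k + 1 : ℕ) : ℝ) by exact_mod_cast hm]
  calc ((k + 1).factorial : ℝ)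
      ≤ Real.exp 1 / Real.sqrt 2 * (Real.sqrt (2 * (k + 1 : ℕ)) *
          (((k + 1 : ℕ) : ℝ) / Real.exp 1) ^ (k + 1)) := h1
    _ = (((k + 1 : ℕ) : ℝ) / Real.exp 1) ^ (k + 1) *
          ((Real.sqrt (2 * (k + 1 : ℕ)) / Real.sqrt 2) * Real.exp 1) := by ring
    _ ≤ _ := by gcongr

theorem le_factorial {m : ℕ} (hm : 1 ≤ m) :
    Real.exp ((m : ℝ) * Real.log m - m) ≤ (m.factorial : ℝ) := by
  have hm0 : (0 : ℝ) < m := by exact_mod_cast hm
  have h3 : Real.exp ((m : ℝ) * Real.log m - m) = (m : ℝ) ^ m / Real.exp m := by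
    rw [Real.exp_sub, mul_comm (m : ℝ), Real.exp_mul, Real.exp_log hm0, Real.rpow_natCast]
  rw [h3, div_le_iff₀ (Real.exp_pos _)]
  have := Real.pow_div_factorial_le_exp (m : ℝ) hm0.le m
  rw [div_le_iff₀ (by positivity)] at this
  linarith

end ZetaSets

end

section

/-!
The sizes of the factors on the line `Re t = -1/2`.
-/

namespace ZetaSets

open Finset

theorem pt_zero (y : ℝ) : pt 0 y = ((-(1 / 2) : ℝ) : ℂ) + y * Complex.I := by
  unfold pt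
  push_cast
  ring

theorem norm_num1 (a : ℕ) (y : ℝ) :
    ‖∏ l ∈ Finset.range a, (pt 0 y + ((l : ℂ) + 1))‖ = G a y := by
  rw [norm_prod]
  unfold G
  refine Finset.prod_congr rfl fun l _ => ?_
  rw [← Complex.norm_add_mul_I, pt_zero]
  congr 1
  push_cast
  ring

theorem norm_num2 {N a : ℕ} (h : a ≤ N + 1) (y : ℝ) :
    ‖∏ l ∈ Finset.range a, (pt 0 y + ((N + 2 : ℕ) : ℂ) - ((l : ℂ) + 1))‖ * G (N + 1 - a) y =
      G (N + 1) y := by
  obtain ⟨c, hc⟩ : ∃ c, N + 1 = c + a := ⟨N + 1 - a, by omega⟩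
  rw [hc, Nat.add_sub_cancel, norm_prod, mul_comm]
  unfold G
  rw [Finset.prod_range_add]
  congr 1
  rw [← Finset.prod_range_reflect]
  refine Finset.prod_congr rfl fun l hl => ?_
  rw [Finset.mem_range] at hl
  rw [← Complex.norm_add_mul_I, pt_zero]
  congr 1
  have h1 : ((N : ℂ)) + 1 = c + a := by exact_mod_cast hc
  have h2 : ((a - 1 - l : ℕ) : ℂ) = a - 1 - l := by
    rw [Nat.sub_sub, Nat.cast_sub (by omega)]
    push_cast
    ring
  push_cast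
  rw [h2]
  linear_combination h1

theorem norm_den (b m : ℕ) (y : ℝ) :
    ‖∏ l ∈ Finset.range (m + 1), (pt 0 y + ((b + 1 : ℕ) : ℂ) + (l : ℂ))‖ * G b y =
      G (b + m + 1) y := by
  rw [norm_prod, mul_comm]
  unfold G
  rw [show b + m + 1 = b + (m + 1) by ring, Finset.prod_range_add _ b (m + 1)]
  congr 1
  refine Finset.prod_congr rfl fun l _ => ?_
  rw [← Complex.norm_add_mul_I, pt_zero]
  congr 1
  push_cast
  ring

theorem Phi_scale {n : ℕ} (hn : 0 < n) {y : ℝ} (hy : 0 < y) (c : ℝ) :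
    Phi y (c * n) = n * gg c (y / n) - c * n + c * n * Real.log n := by
  unfold Phi gg
  have hn0 : (0 : ℝ) < n := by exact_mod_cast hn
  have h1 : (c * n) ^ 2 + y ^ 2 = (n : ℝ) ^ 2 * (c ^ 2 + (y / n) ^ 2) := by
    field_simp
  have h2 : 0 < c ^ 2 + (y / n) ^ 2 := by positivity
  have h3 : c * n / y = c / (y / n) := by field_simp
  rw [h1, Real.log_mul (by positivity) h2.ne', Real.log_pow, h3]
  field_simp
  push_cast
  ring

theorem fact_scale {n a : ℕ} (hn : 0 < n) (ha : 0 < a) :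
    ((a * n : ℕ) : ℝ) * Real.log ((a * n : ℕ) : ℝ) - ((a * n : ℕ) : ℝ) =
      n * (a * Real.log a) - a * n + a * n * Real.log n := by
  have hn0 : (0 : ℝ) < n := by exact_mod_cast hn
  have ha0 : (0 : ℝ) < a := by exact_mod_cast ha
  push_cast
  rw [Real.log_mul ha0.ne' hn0.ne']
  ring

theorem G_succ (m : ℕ) (y : ℝ) :
    G (m + 1) y = G m y * Real.sqrt (((m : ℝ) + 1 / 2) ^ 2 + y ^ 2) := by
  unfold G
  rw [Finset.prod_range_succ]

theorem G_succ_le {y B : ℝ} (hy : 0 < y) (m : ℕ) (hB : (m : ℝ) + 1 / 2 + y ≤ B) (hB1 : 2 ≤ B) :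
    G (m + 1) y ≤ Real.exp (Phi y m) * (B ^ 2 * Real.exp 1) := by
  rw [G_succ]
  have h1 := G_le hy m hB (by linarith)
  have h2 : Real.sqrt (((m : ℝ) + 1 / 2) ^ 2 + y ^ 2) ≤ B := by
    rw [Real.sqrt_le_left (by linarith)]
    have : (0 : ℝ) ≤ m := by positivity
    nlinarith [mul_nonneg (by positivity : (0 : ℝ) ≤ (m : ℝ) + 1 / 2) hy.le]
  have h3 := (G_pos m (y := y)).le
  have hB0 : 0 ≤ B := by linarith
  calc G m y * Real.sqrt (((m : ℝ) + 1 / 2) ^ 2 + y ^ 2)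
      ≤ (Real.exp (Phi y m) * (B * Real.exp 1)) * B := by gcongr
    _ = _ := by ring

theorem le_G_succ {y B : ℝ} (hy : 0 < y) (m : ℕ) (hB : (m : ℝ) + 1 / 2 + y ≤ B) (hB1 : 2 ≤ B) :
    Real.exp (Phi y m) ≤ G (m + 1) y * (B ^ 2 * Real.exp 1) := by
  rw [G_succ]
  have h1 := le_G hy m hB (by linarith)
  have h2 : 1 / 2 ≤ Real.sqrt (((m : ℝ) + 1 / 2) ^ 2 + y ^ 2) := by
    apply Real.le_sqrt_of_sq_le
    have : (0 : ℝ) ≤ m := by positivity
    nlinarith [sq_nonneg y]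
  have h3 := (G_pos m (y := y)).le
  have h4 : G m y * (B * Real.exp 1) ≤
      G m y * Real.sqrt (((m : ℝ) + 1 / 2) ^ 2 + y ^ 2) * (B ^ 2 * Real.exp 1) := by
    have h5 : B * Real.exp 1 ≤
        Real.sqrt (((m : ℝ) + 1 / 2) ^ 2 + y ^ 2) * (B ^ 2 * Real.exp 1) := by
      have h6 : 1 ≤ Real.sqrt (((m : ℝ) + 1 / 2) ^ 2 + y ^ 2) * B := by nlinarith
      have h7 : 0 ≤ B * Real.exp 1 := by positivity
      nlinarith [mul_le_mul_of_nonneg_right h6 h7]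
    calc G m y * (B * Real.exp 1) ≤ G m y *
          (Real.sqrt (((m : ℝ) + 1 / 2) ^ 2 + y ^ 2) * (B ^ 2 * Real.exp 1)) := by gcongr
      _ = _ := by ring
  exact h1.trans h4

theorem G_le' {y B : ℝ} (hy : 0 < y) (m : ℕ) (hB : (m : ℝ) + 1 / 2 + y ≤ B) (hB1 : 2 ≤ B) :
    G m y ≤ Real.exp (Phi y m) * (B ^ 2 * Real.exp 1) := by
  refine (G_le hy m hB (by linarith)).trans ?_
  have : B ≤ B ^ 2 := by nlinarith
  gcongr

/-- denominator factor -/
theorem ifactor {β η n : ℕ} (hn : 0 < n) (hβ2 : 2 * β < η) {y : ℝ} (hy : 0 < y)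
    {B : ℝ} (hB : (η : ℝ) * n + 2 + y ≤ B) :
    (((η * n + 2 - 2 * (β * n + 1)).factorial : ℕ) : ℝ) /
        ‖∏ l ∈ Finset.range (η * n + 2 - 2 * (β * n + 1) + 1),
          (pt 0 y + ((β * n + 1 : ℕ) : ℂ) + (l : ℂ))‖ ≤
      (B ^ 2 * Real.exp 1) ^ 3 *
        Real.exp (n * (gg β (y / n) - gg ((η : ℝ) - β) (y / n) +
          ((η : ℝ) - 2 * β) * Real.log ((η : ℝ) - 2 * β))) := by
  set E := B ^ 2 * Real.exp 1 with hE
  have hn0 : (0 : ℝ) < n := by exact_mod_cast hn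
  have hη0 : (0 : ℝ) ≤ (η : ℝ) * n := by positivity
  have hB2 : 2 ≤ B := by linarith
  have hE0 : 0 < E := by positivity
  obtain ⟨γ, rfl⟩ : ∃ γ, η = 2 * β + γ := ⟨η - 2 * β, by omega⟩
  have hγ : 0 < γ := by omega
  have hcast : ((2 * β + γ : ℕ) : ℝ) = 2 * β + γ := by push_cast; ring
  have h1 : ((2 * β + γ : ℕ) : ℝ) - 2 * β = γ := by rw [hcast]; ring
  have h2 : ((2 * β + γ : ℕ) : ℝ) - β = β + γ := by rw [hcast]; ring
  rw [h1, h2]
  rw [hcast] at hB hη0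
  have hγn : (0 : ℝ) ≤ (γ : ℝ) * n := by positivity
  have hβn : (0 : ℝ) ≤ (β : ℝ) * n := by positivity
  have e1 : (2 * β + γ) * n + 2 - 2 * (β * n + 1) = γ * n := by
    have : (2 * β + γ) * n = 2 * (β * n) + γ * n := by ring
    omega
  rw [e1]
  have e2 := norm_den (β * n) (γ * n) y
  set P := ‖∏ l ∈ Finset.range (γ * n + 1), (pt 0 y + ((β * n + 1 : ℕ) : ℂ) + (l : ℂ))‖ with hP
  have e3 : β * n + γ * n + 1 = (β + γ) * n + 1 := by ring
  rw [e3] at e2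
  have e4 := G_le' hy (β * n) (B := B) (by push_cast; nlinarith) hB2
  have e5 := le_G_succ hy ((β + γ) * n) (B := B) (by push_cast; nlinarith) hB2
  rw [← hE] at e4 e5
  have hG := G_pos (β * n) (y := y)
  have hG2 := G_pos ((β + γ) * n + 1) (y := y)
  have hP0 : 0 < P := by
    by_contra h
    have : P = 0 := le_antisymm (not_lt.mp h) (norm_nonneg _)
    rw [this, zero_mul] at e2
    linarith
  have e6 : Real.exp (Phi y (((β + γ) * n : ℕ) : ℝ) - Phi y ((β * n : ℕ) : ℝ)) ≤ P * E ^ 2 := by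
    rw [Real.exp_sub, div_le_iff₀ (Real.exp_pos _)]
    calc Real.exp (Phi y (((β + γ) * n : ℕ) : ℝ)) ≤ G ((β + γ) * n + 1) y * E := e5
      _ = P * G (β * n) y * E := by rw [e2]
      _ ≤ P * (Real.exp (Phi y ((β * n : ℕ) : ℝ)) * E) * E := by gcongr
      _ = _ := by ring
  have e7 := factorial_le (m := γ * n) (Nat.mul_pos hγ hn)
  have e8 : ((γ * n : ℕ) : ℝ) * Real.exp 1 ≤ E := by
    rw [hE]
    have : ((γ * n : ℕ) : ℝ) ≤ B ^ 2 := by
      push_cast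
      nlinarith
    gcongr
  set X := ((γ * n : ℕ) : ℝ) * Real.log ((γ * n : ℕ) : ℝ) - ((γ * n : ℕ) : ℝ) with hX
  have e9 : X - (Phi y (((β + γ) * n : ℕ) : ℝ) - Phi y ((β * n : ℕ) : ℝ)) =
      n * (gg β (y / n) - gg ((β : ℝ) + γ) (y / n) + (γ : ℝ) * Real.log γ) := by
    have f1 := fact_scale hn hγ
    rw [← hX] at f1
    rw [f1]
    push_cast
    rw [Phi_scale hn hy, Phi_scale hn hy]
    ring
  rw [div_le_iff₀ hP0]
  calc ((γ * n).factorial : ℝ) ≤ Real.exp X * (((γ * n : ℕ) : ℝ) * Real.exp 1) := e7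
    _ ≤ Real.exp X * E := by gcongr
    _ = Real.exp (X - (Phi y (((β + γ) * n : ℕ) : ℝ) - Phi y ((β * n : ℕ) : ℝ))) *
        Real.exp (Phi y (((β + γ) * n : ℕ) : ℝ) - Phi y ((β * n : ℕ) : ℝ)) * E := by
        rw [← Real.exp_add]; ring_nf
    _ ≤ Real.exp (X - (Phi y (((β + γ) * n : ℕ) : ℝ) - Phi y ((β * n : ℕ) : ℝ))) *
        (P * E ^ 2) * E := by gcongr
    _ = E ^ 3 * Real.exp (n * (gg β (y / n) - gg ((β : ℝ) + γ) (y / n) +
        (γ : ℝ) * Real.log γ)) * P := by rw [e9]; ring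

theorem norm_add_le_abs (x y : ℝ) : ‖(x : ℂ) + y * Complex.I‖ ≤ |x| + |y| := by
  refine (norm_add_le _ _).trans ?_
  rw [norm_mul, Complex.norm_I, mul_one, Complex.norm_real, Complex.norm_real,
    Real.norm_eq_abs, Real.norm_eq_abs]

theorem exp_poly' {δ : ℝ} (hδ : 0 < δ) (N : ℕ) (y : ℝ) :
    (1 + |y|) ^ N * Real.exp (-(δ * |y|)) ≤
      ((N + 2).factorial / δ ^ (N + 2) * Real.exp δ) / (1 + y ^ 2) := by
  have hy := abs_nonneg y
  have h1 : (1 + |y|) ^ (N + 2) ≤ (N + 2).factorial / δ ^ (N + 2) * Real.exp (δ * (1 + |y|)) := by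
    have := Real.pow_div_factorial_le_exp (δ * (1 + |y|)) (by positivity) (N + 2)
    rw [div_le_iff₀ (by positivity), mul_pow] at this
    rw [div_mul_eq_mul_div, le_div_iff₀ (by positivity)]
    linarith
  have h2 : 1 + y ^ 2 ≤ (1 + |y|) ^ 2 := by
    rw [← sq_abs y]; nlinarith
  rw [le_div_iff₀ (by positivity)]
  calc (1 + |y|) ^ N * Real.exp (-(δ * |y|)) * (1 + y ^ 2)
      ≤ (1 + |y|) ^ N * Real.exp (-(δ * |y|)) * (1 + |y|) ^ 2 := by gcongr
    _ = (1 + |y|) ^ (N + 2) * Real.exp (-(δ * |y|)) := by ring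
    _ ≤ ((N + 2).factorial / δ ^ (N + 2) * Real.exp (δ * (1 + |y|))) *
          Real.exp (-(δ * |y|)) := by gcongr
    _ = (N + 2).factorial / δ ^ (N + 2) * Real.exp δ := by
        rw [mul_assoc, ← Real.exp_add]; ring_nf

end ZetaSets

end
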