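import Mathlib

/-!
The parameters of the families, the linear forms, the kernel, and the function `gg`.
-/

section

/-!
Interface for the sets {zeta(r+2), ..., zeta(r+s-2)} (project MP_4f096c_nt).

`Par` : r pairs of numerator blocks of lengths a j, s denominator blocks starting at b i,
everything symmetric under t -> -h - t.
-/

namespace ZetaSets

open scoped Nat

/-- Parameters of a very well poised rational function. -/
structure Par where
  r : ℕ
  s : ℕ
  h : ℕ
  a : Fin r → ℕ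
  b : Fin s → ℕ

/-- The rational function. -/
noncomputable def R (P : Par) (t : ℂ) : ℂ :=
  (2 * t + P.h) *
    (∏ j, ((∏ l ∈ Finset.range (P.a j), (t + (l + 1))) *
      (∏ l ∈ Finset.range (P.a j), (t + P.h - (l + 1)))) / (((P.a j)! : ℂ) ^ 2)) *
    ∏ i, (((P.h - 2 * P.b i)! : ℕ) : ℂ) /
      ∏ l ∈ Finset.range (P.h - 2 * P.b i + 1), (t + P.b i + l)

/-- The kernel `K_r(t) = sum over all integers m of (t + m)^{-r}`. -/
noncomputable def K (r : ℕ) (t : ℂ) : ℂ := ∑' m : ℤ, 1 / (t + m) ^ r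

/-- The point `-(M + 1/2) + i y` of the vertical line number `M`. -/
noncomputable def pt (M : ℕ) (y : ℝ) : ℂ := -(M + 1 / 2 : ℂ) + y * Complex.I

/-- The linear form: integral of `(t (t+h))^d R(t) K(t)` over the vertical line number `M`. -/
noncomputable def Lf (P : Par) (d M : ℕ) : ℂ :=
  ∫ y : ℝ, (pt M y * (pt M y + P.h)) ^ d * R P (pt M y) * K P.r (pt M y)

/-- `phi P k p`, the lower bound for the `p`-adic order at the pole `-k`
(floor division of integers). -/
def phi (P : Par) (p k : ℤ) : ℤ :=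
  (∑ j, (((k - 1) / p - (k - 1 - P.a j) / p - (P.a j : ℤ) / p) +
      ((P.h - k - 1) / p - (P.h - k - 1 - P.a j) / p - (P.a j : ℤ) / p))) +
    ∑ i, (((P.h : ℤ) - 2 * P.b i) / p - (k - P.b i) / p - (P.h - P.b i - k) / p)

/-- Standing assumptions on the parameters; `a0` is the smallest numerator length and
`b0` the smallest denominator start. -/
structure Good (P : Par) (a0 b0 : ℕ) : Prop where
  rodd : Odd P.r
  r3 : 3 ≤ P.r
  seven : Even P.s
  heven : Even P.h
  a0le : ∀ j, a0 ≤ P.a j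
  a0mem : ∃ j, P.a j = a0
  alt : ∀ j, P.a j < b0
  b0le : ∀ i, b0 ≤ P.b i
  b0mem : ∃ i, P.b i = b0
  b2 : ∀ i, 2 * P.b i ≤ P.h

/-- `Expo P a0 b0 p e`: the exponent `e` is large enough at the prime `p` (with `p^2 > h`). -/
structure Expo (P : Par) (a0 b0 p e : ℕ) : Prop where
  /-- poles `-k` with `k >= p + a0 + 1` -/
  big : ∀ k : ℤ, (p : ℤ) + a0 + 1 ≤ k → k ≤ P.h - b0 → ((P.r : ℤ) + P.s - 1) - phi P p k ≤ e
  /-- poles `-k` for which neither `k` nor `h - k` is `>= p + a0 + 1` -/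
  mid : ∀ k : ℤ, k < (p : ℤ) + a0 + 1 → (P.h : ℤ) - k < (p : ℤ) + a0 + 1 →
    (b0 : ℤ) ≤ k → k ≤ P.h - b0 →
    ((P.s : ℤ) - 1 - phi P p k ≤ e ∨
      2 * (∑ j, (P.a j : ℤ) / p) - ∑ i, ((P.h : ℤ) - 2 * P.b i) / p ≤ e)

/-- Linear families of parameters: `h = η n + 2`, `a j = α j n`, `b i = β i n + 1`. -/
structure Fam where
  r : ℕ
  s : ℕ
  η : ℕ
  α : Fin r → ℕ
  β : Fin s → ℕ

/-- The member number `n` of a family. -/
def Fam.par (F : Fam) (n : ℕ) : Par where
  r := F.r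
  s := F.s
  h := F.η * n + 2
  a := fun j => F.α j * n
  b := fun i => F.β i * n + 1

end ZetaSets

end

section

/-!
Generalised interface: numerator block number `j` has its zeros at
`g j - 1, ..., 0, -1, ..., -(a j)` and at the mirror images under `t -> -h - t`.
-/

namespace ZG

open ZetaSets (K pt)
open scoped Nat

/-- Parameters of a very well poised rational function. -/
structure Par where
  r : ℕ
  s : ℕ
  h : ℕ
  g : Fin r → ℕ
  a : Fin r → ℕ
  b : Fin s → ℕ

/-- The rational function. -/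
noncomputable def R (P : Par) (t : ℂ) : ℂ :=
  (2 * t + P.h) *
    (∏ j, ((∏ l ∈ Finset.range (P.g j + P.a j), (t - P.g j + (l + 1))) *
      (∏ l ∈ Finset.range (P.g j + P.a j), (t + P.h + P.g j - (l + 1)))) /
        (((P.g j + P.a j)! : ℂ) ^ 2)) *
    ∏ i, (((P.h - 2 * P.b i)! : ℕ) : ℂ) /
      ∏ l ∈ Finset.range (P.h - 2 * P.b i + 1), (t + P.b i + l)

/-- The linear form: integral of `(t (t+h))^d R(t) K(t)` over the vertical line number `M`. -/
noncomputable def Lf (P : Par) (d M : ℕ) : ℂ :=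
  ∫ y : ℝ, (pt M y * (pt M y + P.h)) ^ d * R P (pt M y) * K P.r (pt M y)

/-- `phi P k p`, the lower bound for the `p`-adic order at the pole `-k`
(floor division of integers). -/
def phi (P : Par) (p k : ℤ) : ℤ :=
  (∑ j, (((k - 1 + P.g j) / p - (k - 1 - P.a j) / p - ((P.g j : ℤ) + P.a j) / p) +
      ((P.h - k - 1 + P.g j) / p - (P.h - k - 1 - P.a j) / p - ((P.g j : ℤ) + P.a j) / p))) +
    ∑ i, (((P.h : ℤ) - 2 * P.b i) / p - (k - P.b i) / p - (P.h - P.b i - k) / p)

/-- Standing assumptions on the parameters; `a0` is the smallest numerator end and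
`b0` the smallest denominator start. -/
structure Good (P : Par) (a0 b0 : ℕ) : Prop where
  rodd : Odd P.r
  r3 : 3 ≤ P.r
  seven : Even P.s
  heven : Even P.h
  gle : ∀ j, P.g j + P.a j ≤ P.h
  a0le : ∀ j, a0 ≤ P.a j
  a0mem : ∃ j, P.a j = a0
  alt : ∀ j, P.a j < b0
  b0le : ∀ i, b0 ≤ P.b i
  b0mem : ∃ i, P.b i = b0
  b2 : ∀ i, 2 * P.b i ≤ P.h

/-- `Expo P a0 b0 p e`: the exponent `e` is large enough at the prime `p` (with `p^2 > 2 h`). -/
structure Expo (P : Par) (a0 b0 p e : ℕ) : Prop where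
  /-- poles `-k` with `k >= p + a0 + 1` -/
  big : ∀ k : ℤ, (p : ℤ) + a0 + 1 ≤ k → k ≤ P.h - b0 → ((P.r : ℤ) + P.s - 1) - phi P p k ≤ e
  /-- poles `-k` for which neither `k` nor `h - k` is `>= p + a0 + 1` -/
  mid : ∀ k : ℤ, k < (p : ℤ) + a0 + 1 → (P.h : ℤ) - k < (p : ℤ) + a0 + 1 →
    (b0 : ℤ) ≤ k → k ≤ P.h - b0 →
    ((P.s : ℤ) - 1 - phi P p k ≤ e ∨
      2 * (∑ j, ((P.g j : ℤ) + P.a j) / p) - ∑ i, ((P.h : ℤ) - 2 * P.b i) / p ≤ e)

/-- Linear families of parameters:
`h = η n + 2`, `g j = γ j n`, `a j = α j n`, `b i = β i n + 1`. -/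
structure Fam where
  r : ℕ
  s : ℕ
  η : ℕ
  γ : Fin r → ℕ
  α : Fin r → ℕ
  β : Fin s → ℕ

/-- The member number `n` of a family. -/
def Fam.par (F : Fam) (n : ℕ) : Par where
  r := F.r
  s := F.s
  h := F.η * n + 2
  g := fun j => F.γ j * n
  a := fun j => F.α j * n
  b := fun i => F.β i * n + 1

end ZG

end

section

/-!
Central residue classes and the improved exponent condition.
-/

namespace ZG

/-- `k'` is congruent modulo `p` to the mirror image `h - k` of `k`, and `k`, `k'` see the same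
floor data. -/
structure Cen (P : Par) (p k k' : ℤ) : Prop where
  dvd : p ∣ P.h - k - k'
  hb : ∀ i, (k - P.b i) / p = (k' - P.b i) / p
  ha : ∀ j, (k - 1 - P.a j) / p = (k' - 1 - P.a j) / p
  hg : ∀ j, (k - 1 + P.g j) / p = (k' - 1 + P.g j) / p

/-- `Expo2 P a0 b0 p e`: the exponent `e` is large enough at the prime `p` (with `p^2 > 2 h`);
one power of `p` is saved at central residue classes. -/
structure Expo2 (P : Par) (a0 b0 p e : ℕ) : Prop where
  /-- poles `-k` with `k >= p + a0 + 1` -/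
  big : ∀ k : ℤ, (p : ℤ) + a0 + 1 ≤ k → k ≤ P.h - b0 →
    ((P.r : ℤ) + P.s - 1) - phi P p k ≤ e ∨
      (((P.r : ℤ) + P.s - 2) - phi P p k ≤ e ∧ ∃ k', Cen P p k k')
  /-- poles `-k` for which neither `k` nor `h - k` is `>= p + a0 + 1` -/
  mid : ∀ k : ℤ, k < (p : ℤ) + a0 + 1 → (P.h : ℤ) - k < (p : ℤ) + a0 + 1 →
    (b0 : ℤ) ≤ k → k ≤ P.h - b0 →
    ((P.s : ℤ) - 1 - phi P p k ≤ e ∨
      2 * (∑ j, ((P.g j : ℤ) + P.a j) / p) - ∑ i, ((P.h : ℤ) - 2 * P.b i) / p ≤ e)

end ZG

end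

section

/-!
The function `gg` of the exponential rate and its derivative.
-/

namespace ZetaSets

open Real Finset Set

/-- `int_0^c log |u + i t| du + c` -/
noncomputable def gg (c t : ℝ) : ℝ := c / 2 * Real.log (c ^ 2 + t ^ 2) + t * Real.arctan (c / t)

theorem hasDerivAt_arctan_div (c : ℝ) {t : ℝ} (ht : 0 < t) :
    HasDerivAt (fun t : ℝ => Real.arctan (c / t)) (-c / (c ^ 2 + t ^ 2)) t := by
  have h1 : HasDerivAt (fun t : ℝ => c / t) (-c / t ^ 2) t := by
    have := (hasDerivAt_inv ht.ne').const_mul c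
    refine (this.congr_deriv ?_)
    field_simp
  refine h1.arctan.congr_deriv ?_
  have h3 : 0 < c ^ 2 + t ^ 2 := by positivity
  have h4 : 0 < 1 + (c / t) ^ 2 := by positivity
  field_simp
  ring

theorem hasDerivAt_gg (c : ℝ) {t : ℝ} (ht : 0 < t) :
    HasDerivAt (gg c) (Real.arctan (c / t)) t := by
  have h3 : 0 < c ^ 2 + t ^ 2 := by positivity
  have h1 : HasDerivAt (fun t : ℝ => Real.log (c ^ 2 + t ^ 2)) (2 * t / (c ^ 2 + t ^ 2)) t := by
    have := ((hasDerivAt_pow 2 t).const_add (c ^ 2)).log h3.ne'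
    simpa using this
  have h2 := (h1.const_mul (c / 2)).add ((hasDerivAt_id t).mul (hasDerivAt_arctan_div c ht))
  refine h2.congr_deriv ?_
  simp only [id]
  field_simp
  ring

end ZetaSets

end
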