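import Pool.Agent.Work.MP_4f096c_nt.Shift
import Pool.Agent.Work.MP_4f096c_nt.BoundA
import Pool.Agent.Work.MP_4f096c_nt.Defs

/-!
The kernel on lines, moving the ends of the line, decay of the integrand.
-/

section

/-!
The kernel on the line `Re t = -1/2`.
-/

namespace ZetaSets

open Finset

theorem K_line {r : ℕ} (hr : 2 ≤ r) : ∃ C : ℝ, 0 ≤ C ∧ ∀ y : ℝ,
    ‖K r (pt 0 y)‖ ≤ C * Real.exp (-(2 * Real.pi * |y|)) := by
  obtain ⟨C1, hC1, hK⟩ := K_decay hr
  obtain ⟨B, hB⟩ := isCompact_Icc.exists_bound_of_continuousOn (s := Set.Icc (-1 : ℝ) 1)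
    (K_pt_continuous hr 0).continuousOn
  refine ⟨C1 + |B| * Real.exp (2 * Real.pi), by positivity, fun y => ?_⟩
  have him : (pt 0 y).im = y := by rw [pt_zero]; simp
  rcases le_or_gt |y| 1 with h1 | h1
  · have h2 := (hB y (abs_le.mp h1)).trans (le_abs_self B)
    have h3 : 1 ≤ Real.exp (2 * Real.pi) * Real.exp (-(2 * Real.pi * |y|)) := by
      rw [← Real.exp_add]
      apply Real.one_le_exp
      have := Real.pi_pos
      nlinarith
    have h4 : 0 ≤ C1 * Real.exp (-(2 * Real.pi * |y|)) := by positivity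
    have h5 : |B| ≤ |B| * (Real.exp (2 * Real.pi) * Real.exp (-(2 * Real.pi * |y|))) := by
      nlinarith [abs_nonneg B]
    nlinarith
  · have h2 := hK (pt 0 y) (by rw [him]; exact h1.le)
    rw [him] at h2
    have h4 : 0 ≤ |B| * Real.exp (2 * Real.pi) * Real.exp (-(2 * Real.pi * |y|)) := by positivity
    nlinarith

end ZetaSets

end

section

/-!
Moving the two ends of a vertical line to the right (TASK G-BOUND of MP_4f096c_nt).
-/

namespace ZG

open Complex MeasureTheory Filter Topology Set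
open ZetaSets (K pt)

theorem integrableOn_decay {f : ℝ → ℂ} {T0 D : ℝ} (hf : ContinuousOn f (Ioi T0))
    (h : ∀ y, T0 < y → ‖f y‖ ≤ D / (1 + y ^ 2)) : IntegrableOn f (Ioi T0) := by
  refine Integrable.mono' ((integrable_inv_one_add_sq.const_mul D).integrableOn (s := Ioi T0))
    (hf.aestronglyMeasurable measurableSet_Ioi) ?_
  filter_upwards [ae_restrict_mem measurableSet_Ioi] with y hy
  rw [← div_eq_mul_inv]
  exact h y hy

theorem quarter_shift {H : ℂ → ℂ} {x1 x2 T0 D : ℝ}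
    (hH : DifferentiableOn ℂ H {z : ℂ | z.re ∈ uIcc x1 x2 ∧ T0 ≤ z.im})
    (hD : ∀ z : ℂ, z.re ∈ uIcc x1 x2 → T0 ≤ z.im → ‖H z‖ ≤ D / (1 + z.im ^ 2)) :
    ∫ y in Ioi T0, H ((x1 : ℂ) + (y : ℂ) * I) = (∫ y in Ioi T0, H ((x2 : ℂ) + (y : ℂ) * I)) -
      I * ∫ x in x1..x2, H ((x : ℂ) + (T0 : ℂ) * I) := by
  have him : ∀ x y : ℝ, ((x : ℂ) + y * I).im = y := by intro x y; simp
  have hre : ∀ x y : ℝ, ((x : ℂ) + y * I).re = x := by intro x y; simp
  have hc : ∀ x : ℝ, x ∈ uIcc x1 x2 →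
      ContinuousOn (fun y : ℝ => H ((x : ℂ) + (y : ℂ) * I)) (Ioi T0) := by
    intro x hx
    refine hH.continuousOn.comp (by fun_prop) fun y hy => ?_
    refine ⟨?_, ?_⟩
    · rw [hre]; exact hx
    · rw [him]; exact (mem_Ioi.mp hy).le
  have hi : ∀ x : ℝ, x ∈ uIcc x1 x2 →
      IntegrableOn (fun y : ℝ => H ((x : ℂ) + (y : ℂ) * I)) (Ioi T0) := by
    intro x hx
    refine integrableOn_decay (hc x hx) (D := D) fun y hy => ?_
    have := hD ((x : ℂ) + (y : ℂ) * I) (by rw [hre]; exact hx) (by rw [him]; exact hy.le)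
    rwa [him] at this
  have ht1 := intervalIntegral_tendsto_integral_Ioi T0 (hi x1 left_mem_uIcc) tendsto_id
  have ht2 := intervalIntegral_tendsto_integral_Ioi T0 (hi x2 right_mem_uIcc) tendsto_id
  have hbound : Tendsto (fun T : ℝ => D / (1 + T ^ 2) * |x2 - x1|) atTop (𝓝 0) := by
    have h1 : Tendsto (fun T : ℝ => 1 + T ^ 2) atTop atTop :=
      tendsto_atTop_add_const_left _ _ (tendsto_pow_atTop (by norm_num))
    have h2 := (h1.const_div_atTop D).mul_const |x2 - x1|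
    simpa using h2
  have hh1 : Tendsto (fun T : ℝ => ∫ x in x1..x2, H ((x : ℂ) + (T : ℝ) * I)) atTop (𝓝 0) := by
    refine squeeze_zero_norm' ?_ hbound
    filter_upwards [eventually_ge_atTop T0] with T hT
    refine intervalIntegral.norm_integral_le_of_norm_le_const fun x hx => ?_
    have := hD ((x : ℂ) + (T : ℝ) * I) (by rw [hre]; exact uIoc_subset_uIcc hx)
      (by rw [him]; exact hT)
    rwa [him] at this
  have hrect : ∀ T : ℝ, T0 ≤ T →
      (∫ x : ℝ in x1..x2, H ((x : ℂ) + (T0 : ℂ) * I)) -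
        (∫ x : ℝ in x1..x2, H ((x : ℂ) + (T : ℝ) * I)) +
        I • (∫ y : ℝ in T0..T, H ((x2 : ℂ) + (y : ℂ) * I)) -
        I • (∫ y : ℝ in T0..T, H ((x1 : ℂ) + (y : ℂ) * I)) = 0 := by
    intro T hT
    have h := integral_boundary_rect_eq_zero_of_differentiableOn H ⟨x1, T0⟩ ⟨x2, T⟩
      (hH.mono fun z hz => ?_)
    · simpa using h
    · refine ⟨hz.1, ?_⟩
      have h2 : z.im ∈ uIcc T0 T := hz.2
      rw [uIcc_of_le hT] at h2
      exact h2.1
  have hlim := ((tendsto_const_nhds (x := ∫ x : ℝ in x1..x2, H ((x : ℂ) + (T0 : ℂ) * I))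
    (f := (atTop : Filter ℝ))).sub hh1).add (ht2.const_smul I) |>.sub (ht1.const_smul I)
  have hzero : Tendsto (fun T : ℝ =>
      (∫ x : ℝ in x1..x2, H ((x : ℂ) + (T0 : ℂ) * I)) -
        (∫ x : ℝ in x1..x2, H ((x : ℂ) + (T : ℝ) * I)) +
        I • (∫ y : ℝ in T0..T, H ((x2 : ℂ) + (y : ℂ) * I)) -
        I • (∫ y : ℝ in T0..T, H ((x1 : ℂ) + (y : ℂ) * I))) atTop (𝓝 0) := by
    refine tendsto_const_nhds.congr' ?_
    filter_upwards [eventually_ge_atTop T0] with T hT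
    exact (hrect T hT).symm
  have heq := tendsto_nhds_unique hlim hzero
  simp only [sub_zero, smul_eq_mul] at heq
  have h3 : I * (∫ y in Ioi T0, H ((x1 : ℂ) + (y : ℂ) * I)) =
      I * ((∫ y in Ioi T0, H ((x2 : ℂ) + (y : ℂ) * I)) -
      I * ∫ x in x1..x2, H ((x : ℂ) + (T0 : ℂ) * I)) := by
    rw [mul_sub, ← mul_assoc, I_mul_I]
    linear_combination -heq
  exact mul_left_cancel₀ I_ne_zero h3

theorem K_conj (r : ℕ) (z : ℂ) : K r ((starRingEnd ℂ) z) = (starRingEnd ℂ) (K r z) := by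
  unfold K
  rw [Complex.conj_tsum]
  refine tsum_congr fun m => ?_
  simp

/-- the integral over the line `Re = x1` is bounded by the integrals over the bent path -/
theorem bent_le {f : ℂ → ℂ} {x1 x2 T0 D : ℝ} (_hT0 : 0 ≤ T0)
    (hint : Integrable fun y : ℝ => f ((x1 : ℂ) + (y : ℂ) * I))
    (hconj : ∀ z, f ((starRingEnd ℂ) z) = (starRingEnd ℂ) (f z))
    (hH : DifferentiableOn ℂ f {z : ℂ | z.re ∈ uIcc x1 x2 ∧ T0 ≤ z.im})
    (hD : ∀ z : ℂ, z.re ∈ uIcc x1 x2 → T0 ≤ z.im → ‖f z‖ ≤ D / (1 + z.im ^ 2)) :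
    ‖∫ y : ℝ, f ((x1 : ℂ) + (y : ℂ) * I)‖ ≤
      ‖∫ y in (-T0)..T0, f ((x1 : ℂ) + (y : ℂ) * I)‖ +
      2 * (‖∫ y in Ioi T0, f ((x2 : ℂ) + (y : ℂ) * I)‖ +
        ‖∫ x in x1..x2, f ((x : ℂ) + (T0 : ℂ) * I)‖) := by
  have h1 : ∫ y : ℝ, f ((x1 : ℂ) + (y : ℂ) * I) =
      (∫ y in Iic (-T0), f ((x1 : ℂ) + (y : ℂ) * I)) +
      ((∫ y in (-T0)..T0, f ((x1 : ℂ) + (y : ℂ) * I)) +
        ∫ y in Ioi T0, f ((x1 : ℂ) + (y : ℂ) * I)) := by
    rw [intervalIntegral.integral_interval_add_Ioi hint.integrableOn hint.integrableOn,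
      ← intervalIntegral.integral_Iic_add_Ioi hint.integrableOn hint.integrableOn]
  have h2 : ∫ y in Iic (-T0), f ((x1 : ℂ) + (y : ℂ) * I) =
      (starRingEnd ℂ) (∫ y in Ioi T0, f ((x1 : ℂ) + (y : ℂ) * I)) := by
    rw [← integral_comp_neg_Ioi T0 (fun y : ℝ => f ((x1 : ℂ) + (y : ℂ) * I)), ← integral_conj]
    refine setIntegral_congr_fun measurableSet_Ioi fun y _ => ?_
    rw [← hconj]
    congr 1
    simp
  have h3 := quarter_shift hH hD
  have h4 : ‖∫ y in Ioi T0, f ((x1 : ℂ) + (y : ℂ) * I)‖ ≤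
      ‖∫ y in Ioi T0, f ((x2 : ℂ) + (y : ℂ) * I)‖ +
        ‖∫ x in x1..x2, f ((x : ℂ) + (T0 : ℂ) * I)‖ := by
    rw [h3]
    refine (norm_sub_le _ _).trans ?_
    rw [norm_mul, norm_I, one_mul]
  have h5 : ‖∫ y in Iic (-T0), f ((x1 : ℂ) + (y : ℂ) * I)‖ =
      ‖∫ y in Ioi T0, f ((x1 : ℂ) + (y : ℂ) * I)‖ := by
    rw [h2, Complex.norm_conj]
  rw [h1]
  refine (norm_add_le _ _).trans ?_
  have h6 := norm_add_le (∫ y in (-T0)..T0, f ((x1 : ℂ) + (y : ℂ) * I))
    (∫ y in Ioi T0, f ((x1 : ℂ) + (y : ℂ) * I))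
  linarith

/-- the same with pointwise bounds -/
theorem bent_bound {f : ℂ → ℂ} {x1 x2 T0 D M : ℝ} (hT0 : 0 ≤ T0) (hx : x1 ≤ x2) (hM : 0 ≤ M)
    {w : ℝ → ℝ} (hw : Integrable w) (hw0 : ∀ y, 0 ≤ w y)
    (hint : Integrable fun y : ℝ => f ((x1 : ℂ) + (y : ℂ) * I))
    (hconj : ∀ z, f ((starRingEnd ℂ) z) = (starRingEnd ℂ) (f z))
    (hH : DifferentiableOn ℂ f {z : ℂ | z.re ∈ uIcc x1 x2 ∧ T0 ≤ z.im})
    (hD : ∀ z : ℂ, z.re ∈ uIcc x1 x2 → T0 ≤ z.im → ‖f z‖ ≤ D / (1 + z.im ^ 2))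
    (h1 : ∀ y : ℝ, y ≠ 0 → |y| ≤ T0 → ‖f ((x1 : ℂ) + (y : ℂ) * I)‖ ≤ M)
    (h2 : ∀ x : ℝ, x1 ≤ x → x ≤ x2 → ‖f ((x : ℂ) + (T0 : ℂ) * I)‖ ≤ M)
    (h3 : ∀ y : ℝ, T0 ≤ y → ‖f ((x2 : ℂ) + (y : ℂ) * I)‖ ≤ M * w y) :
    ‖∫ y : ℝ, f ((x1 : ℂ) + (y : ℂ) * I)‖ ≤
      M * (2 * T0 + 2 * (x2 - x1) + 2 * ∫ y, w y) := by
  have e1 : ‖∫ y in (-T0)..T0, f ((x1 : ℂ) + (y : ℂ) * I)‖ ≤ M * (2 * T0) := by
    have h0 : ∀ᵐ y : ℝ, y ≠ 0 := by simp [ae_iff, measure_singleton]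
    have h := intervalIntegral.norm_integral_le_of_norm_le_const_ae (a := -T0) (b := T0) (C := M)
      (f := fun y : ℝ => f ((x1 : ℂ) + (y : ℂ) * I)) (by
        filter_upwards [h0] with y hy hy2
        refine h1 y hy ?_
        rw [uIoc_of_le (by linarith)] at hy2
        exact abs_le.mpr ⟨hy2.1.le, hy2.2⟩)
    refine h.trans (le_of_eq ?_)
    rw [abs_of_nonneg (by linarith)]
    ring
  have e2 : ‖∫ x in x1..x2, f ((x : ℂ) + (T0 : ℂ) * I)‖ ≤ M * (x2 - x1) := by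
    have h := intervalIntegral.norm_integral_le_of_norm_le_const (a := x1) (b := x2) (C := M)
      (f := fun x : ℝ => f ((x : ℂ) + (T0 : ℂ) * I)) (fun x hx' => by
        rw [uIoc_of_le hx] at hx'
        exact h2 x hx'.1.le hx'.2)
    rwa [abs_of_nonneg (by linarith)] at h
  have e3 : ‖∫ y in Ioi T0, f ((x2 : ℂ) + (y : ℂ) * I)‖ ≤ M * ∫ y, w y := by
    rw [← integral_const_mul]
    refine (norm_integral_le_of_norm_le ((hw.const_mul M).integrableOn (s := Ioi T0)) ?_).trans ?_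
    · filter_upwards [ae_restrict_mem measurableSet_Ioi] with y hy
      exact h3 y (mem_Ioi.mp hy).le
    · exact setIntegral_le_integral (hw.const_mul M)
        (Eventually.of_forall fun y => mul_nonneg hM (hw0 y))
  have h := bent_le hT0 hint hconj hH hD
  linarith

end ZG

end

section

/-!
Growth of the integrand and the bound of the linear forms from bounds of the rate function.
-/

namespace ZG

open Finset MeasureTheory
open ZetaSets (K pt gg pt_zero norm_add_le_abs K_decay K_split Kg Kg_differentiableOn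
  line_integrable exp_poly exp_poly')

/-! ### Polynomial growth in the imaginary direction -/

/-- polynomial growth in the imaginary direction on a set -/
def Gr (S : Set ℂ) (f : ℂ → ℂ) : Prop :=
  ∃ C : ℝ, ∃ N : ℕ, 0 ≤ C ∧ ∀ z ∈ S, ‖f z‖ ≤ C * (1 + |z.im|) ^ N

theorem Gr.mul {S : Set ℂ} {f g : ℂ → ℂ} (hf : Gr S f) (hg : Gr S g) :
    Gr S fun z => f z * g z := by
  obtain ⟨C, N, hC, h⟩ := hf
  obtain ⟨C', N', hC', h'⟩ := hg
  refine ⟨C * C', N + N', by positivity, fun z hz => ?_⟩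
  rw [norm_mul, pow_add]
  calc ‖f z‖ * ‖g z‖ ≤ (C * (1 + |z.im|) ^ N) * (C' * (1 + |z.im|) ^ N') :=
        mul_le_mul (h z hz) (h' z hz) (norm_nonneg _) (by positivity)
    _ = _ := by ring

theorem Gr.congr {S : Set ℂ} {f g : ℂ → ℂ} (hf : Gr S f) (h : ∀ z, g z = f z) : Gr S g := by
  have : g = f := funext h
  rw [this]
  exact hf

theorem Gr.const (S : Set ℂ) (c : ℂ) : Gr S fun _ => c :=
  ⟨‖c‖, 0, norm_nonneg _, fun z _ => by simp⟩

theorem Gr.prod {S : Set ℂ} {ι : Type*} (s : Finset ι) {f : ι → ℂ → ℂ}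
    (h : ∀ i ∈ s, Gr S (f i)) : Gr S fun z => ∏ i ∈ s, f i z := by
  classical
  induction s using Finset.induction_on with
  | empty => simpa using Gr.const S 1
  | insert i s hi ih =>
    simp only [Finset.prod_insert hi]
    exact (h i (Finset.mem_insert_self i s)).mul (ih fun j hj => h j (Finset.mem_insert_of_mem hj))

theorem Gr.pow {S : Set ℂ} {f : ℂ → ℂ} (hf : Gr S f) (d : ℕ) : Gr S fun z => f z ^ d := by
  have := Gr.prod (S := S) (Finset.range d) (f := fun _ => f) fun _ _ => hf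
  simpa using this

/-- the strip -/
def St (X2 : ℝ) : Set ℂ := {z : ℂ | -(1 / 2) ≤ z.re ∧ z.re ≤ X2}

theorem Gr.lin (X2 : ℝ) (a c : ℂ) : Gr (St X2) fun z => a * z + c := by
  refine ⟨‖a‖ * (|X2| + 1) + ‖c‖, 1, by positivity, fun z hz => ?_⟩
  have h1 : |z.re| ≤ |X2| + 1 := by
    have h2 := le_abs_self X2
    have h3 := abs_nonneg X2
    rw [abs_le]
    constructor <;> linarith [hz.1, hz.2]
  have h2 : ‖z‖ ≤ (|X2| + 1) * (1 + |z.im|) := by
    have h3 := Complex.norm_le_abs_re_add_abs_im z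
    have h4 := abs_nonneg z.im
    have h5 := abs_nonneg X2
    nlinarith [mul_nonneg h4 h5]
  have h6 := abs_nonneg z.im
  have h7 := norm_nonneg c
  calc ‖a * z + c‖ ≤ ‖a‖ * ‖z‖ + ‖c‖ := by rw [← norm_mul]; exact norm_add_le _ _
    _ ≤ ‖a‖ * ((|X2| + 1) * (1 + |z.im|)) + ‖c‖ * (1 + |z.im|) := by
        gcongr
        nlinarith
    _ = _ := by ring

theorem Gr.inv_prod (X2 : ℝ) {b m : ℕ} (hb : 1 ≤ b) (c : ℂ) :
    Gr (St X2) fun z => c / ∏ l ∈ Finset.range m, (z + b + (l : ℂ)) := by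
  have h1 : Gr (St X2) fun z => c * ∏ l ∈ Finset.range m, (z + b + (l : ℂ))⁻¹ := by
    refine (Gr.const _ c).mul (Gr.prod _ fun l _ => ?_)
    refine ⟨2, 0, by norm_num, fun z hz => ?_⟩
    rw [pow_zero, mul_one, norm_inv]
    have h2 : (1 : ℝ) / 2 ≤ ‖z + b + (l : ℂ)‖ := by
      refine le_trans ?_ (Complex.re_le_norm _)
      simp only [Complex.add_re, Complex.natCast_re]
      have h3 : (1 : ℝ) ≤ b := by exact_mod_cast hb
      have h4 : (0 : ℝ) ≤ l := by positivity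
      linarith [hz.1]
    rw [inv_le_comm₀ (by linarith) (by norm_num)]
    linarith
  refine h1.congr fun z => ?_
  rw [div_eq_mul_inv, ← Finset.prod_inv_distrib]

theorem R_growth (P : Par) (hb : ∀ i, 1 ≤ P.b i) (X2 : ℝ) : Gr (St X2) (R P) := by
  unfold R
  refine Gr.mul (Gr.mul ?_ (Gr.prod _ fun j _ => ?_)) (Gr.prod _ fun i _ => ?_)
  · exact Gr.lin X2 2 P.h
  · have h1 : Gr (St X2) fun z => ((∏ l ∈ Finset.range (P.g j + P.a j),
        (z - P.g j + ((l : ℂ) + 1))) *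
      (∏ l ∈ Finset.range (P.g j + P.a j), (z + P.h + P.g j - ((l : ℂ) + 1)))) *
        ((((P.g j + P.a j).factorial : ℂ) ^ 2)⁻¹) := by
      refine Gr.mul (Gr.mul (Gr.prod _ fun l _ => ?_) (Gr.prod _ fun l _ => ?_)) (Gr.const _ _)
      · exact (Gr.lin X2 1 (-P.g j + ((l : ℂ) + 1))).congr fun z => by ring
      · exact (Gr.lin X2 1 (P.h + P.g j - ((l : ℂ) + 1))).congr fun z => by ring
    exact h1.congr fun z => div_eq_mul_inv _ _
  · exact Gr.inv_prod X2 (hb i) _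

theorem R_differentiableAt (P : Par) (hb : ∀ i, 1 ≤ P.b i) {z : ℂ} (hz : -(1 / 2) ≤ z.re) :
    DifferentiableAt ℂ (R P) z := by
  unfold R
  refine DifferentiableAt.mul (DifferentiableAt.mul (by fun_prop) ?_) ?_
  · refine DifferentiableAt.fun_finsetProd fun j _ => ?_
    refine DifferentiableAt.div_const (DifferentiableAt.mul ?_ ?_) _
    · exact DifferentiableAt.fun_finsetProd fun l _ => by fun_prop
    · exact DifferentiableAt.fun_finsetProd fun l _ => by fun_prop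
  · refine DifferentiableAt.fun_finsetProd fun i _ => ?_
    refine DifferentiableAt.div (by fun_prop) ?_ ?_
    · exact DifferentiableAt.fun_finsetProd fun l _ => by fun_prop
    · rw [Finset.prod_ne_zero_iff]
      intro l _ h
      have h1 := congrArg Complex.re h
      simp only [Complex.add_re, Complex.natCast_re, Complex.zero_re] at h1
      have h3 : (1 : ℝ) ≤ P.b i := by exact_mod_cast hb i
      have h4 : (0 : ℝ) ≤ l := by positivity
      linarith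

theorem K_differentiableAt {r : ℕ} (hr : 2 ≤ r) {z : ℂ} (hz : z.im ≠ 0) :
    DifferentiableAt ℂ (K r) z := by
  have h1 : |z.re - ((round z.re : ℤ) : ℝ)| ≤ 1 / 2 := abs_sub_round z.re
  have e : K r = fun w => 1 / (w - ((round z.re : ℤ) : ℂ)) ^ r + Kg r (round z.re) w := by
    funext w
    exact K_split hr (round z.re) w
  rw [e]
  have hne : z - ((round z.re : ℤ) : ℂ) ≠ 0 := by
    intro h
    apply hz
    have := congrArg Complex.im h
    simpa using this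
  refine DifferentiableAt.add ?_ ?_
  · exact DifferentiableAt.div (by fun_prop) (by fun_prop) (pow_ne_zero _ hne)
  · refine (Kg_differentiableOn hr (round z.re)).differentiableAt (IsOpen.mem_nhds ?_ ?_)
    · apply isOpen_lt _ continuous_const
      fun_prop
    · show |z.re - ((round z.re : ℤ) : ℝ)| < 3 / 4
      linarith

/-- the integrand -/
noncomputable def ff (P : Par) (d : ℕ) (z : ℂ) : ℂ := (z * (z + P.h)) ^ d * R P z * K P.r z

theorem Lf_eq (P : Par) (d : ℕ) :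
    Lf P d 0 = ∫ y : ℝ, ff P d (((-(1 / 2) : ℝ) : ℂ) + (y : ℂ) * Complex.I) := by
  unfold Lf ff
  refine integral_congr_ae (Filter.Eventually.of_forall fun y => ?_)
  simp only [pt_zero]

theorem R_conj (P : Par) (t : ℂ) :
    R P ((starRingEnd ℂ) t) = (starRingEnd ℂ) (R P t) := by
  have h2 : (starRingEnd ℂ) 2 = 2 := map_ofNat _ 2
  unfold R
  simp [map_mul, map_prod, map_div₀, map_add, map_sub, map_pow, h2]

theorem ff_conj (P : Par) (d : ℕ) (z : ℂ) :
    ff P d ((starRingEnd ℂ) z) = (starRingEnd ℂ) (ff P d z) := by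
  unfold ff
  rw [R_conj, K_conj]
  simp

theorem qr_growth (P : Par) (hb : ∀ i, 1 ≤ P.b i) (d : ℕ) (X2 : ℝ) :
    Gr (St X2) fun z => (z * (z + P.h)) ^ d * R P z := by
  refine Gr.mul (Gr.pow (Gr.mul ?_ ?_) d) (R_growth P hb X2)
  · exact (Gr.lin X2 1 0).congr fun z => by ring
  · exact (Gr.lin X2 1 P.h).congr fun z => by ring

theorem ff_decay (P : Par) (hr : 2 ≤ P.r) (hb : ∀ i, 1 ≤ P.b i) (d : ℕ) (X2 : ℝ) :
    ∃ D : ℝ, ∀ z ∈ St X2, 1 ≤ z.im → ‖ff P d z‖ ≤ D / (1 + z.im ^ 2) := by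
  obtain ⟨C, N, hC, h⟩ := qr_growth P hb d X2
  obtain ⟨C1, hC1, hK⟩ := K_decay hr
  refine ⟨C * C1 * ((N + 2).factorial * Real.exp 1), fun z hz h1 => ?_⟩
  have h2 := h z hz
  have h3 := hK z (h1.trans (le_abs_self _))
  have h4 := exp_poly N z.im
  unfold ff
  rw [norm_mul]
  calc ‖(z * (z + P.h)) ^ d * R P z‖ * ‖K P.r z‖
      ≤ (C * (1 + |z.im|) ^ N) * (C1 * Real.exp (-(2 * Real.pi * |z.im|))) := by gcongr
    _ = C * C1 * ((1 + |z.im|) ^ N * Real.exp (-(2 * Real.pi * |z.im|))) := by ring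
    _ ≤ C * C1 * (((N + 2).factorial * Real.exp 1) / (1 + z.im ^ 2)) := by gcongr
    _ = _ := by ring

theorem ff_differentiableOn (P : Par) (hr : 2 ≤ P.r) (hb : ∀ i, 1 ≤ P.b i) (d : ℕ) :
    ∀ z : ℂ, -(1 / 2) ≤ z.re → z.im ≠ 0 → DifferentiableAt ℂ (ff P d) z := by
  intro z hz hz2
  unfold ff
  refine DifferentiableAt.mul (DifferentiableAt.mul (by fun_prop) ?_) ?_
  · exact R_differentiableAt P hb hz
  · exact K_differentiableAt hr hz2

theorem ff_integrable (P : Par) (hr : 3 ≤ P.r) (hb : ∀ i, 1 ≤ P.b i) (d : ℕ) :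
    Integrable fun y : ℝ => ff P d (((-(1 / 2) : ℝ) : ℂ) + (y : ℂ) * Complex.I) := by
  obtain ⟨C, N, hC, h⟩ := qr_growth P hb d 0
  have h1 := line_integrable hr 0 (g := fun y : ℝ => (pt 0 y * (pt 0 y + P.h)) ^ d * R P (pt 0 y))
    (C := C) (N := N) ?_ fun y => ?_
  · refine h1.congr (Filter.Eventually.of_forall fun y => ?_)
    simp only [ff, pt_zero]
  · have hpt : Continuous fun y : ℝ => pt 0 y := by
      unfold pt
      fun_prop
    refine Continuous.mul (by fun_prop) ?_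
    rw [continuous_iff_continuousAt]
    intro y
    have h2 : DifferentiableAt ℂ (R P) (pt 0 y) := R_differentiableAt P hb (by
      rw [pt_zero]; simp)
    exact ContinuousAt.comp (f := fun y : ℝ => pt 0 y) h2.continuousAt hpt.continuousAt
  · have h2 := h (pt 0 y) (by rw [pt_zero]; constructor <;> simp)
    have h3 : (pt 0 y).im = y := by rw [pt_zero]; simp
    rwa [h3] at h2

end ZG

end
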