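import Pool.Agent.Work.MP_4f096c_nt.Shift
import Pool.Agent.Work.MP_4f096c_nt.BoundA
import Pool.Agent.Work.MP_4f096c_nt.Bound2
import Pool.Agent.Work.MP_4f096c_nt.GRate4

/-!
Upper bound for the linear forms `Lf (F.par n) d 0` (TASK B of MP_4f096c_nt).
-/

namespace ZetaSets

open Finset

/-! ### The products on the line `Re t = -1/2` -/

theorem G_abs (m : ℕ) (y : ℝ) : G m |y| = G m y := by
  unfold G
  simp

theorem R_norm (P : Par) (t : ℂ) :
    ‖R P t‖ = ‖2 * t + P.h‖ *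
      (∏ j, (‖∏ l ∈ Finset.range (P.a j), (t + ((l : ℂ) + 1))‖ *
        ‖∏ l ∈ Finset.range (P.a j), (t + P.h - ((l : ℂ) + 1))‖) / ((P.a j).factorial : ℝ) ^ 2) *
      ∏ i, (((P.h - 2 * P.b i).factorial : ℕ) : ℝ) /
        ‖∏ l ∈ Finset.range (P.h - 2 * P.b i + 1), (t + P.b i + (l : ℂ))‖ := by
  unfold R
  rw [norm_mul, norm_mul, norm_prod Finset.univ, norm_prod Finset.univ]
  congr 2
  · refine Finset.prod_congr rfl fun j _ => ?_
    rw [norm_div, norm_mul, norm_pow, Complex.norm_natCast]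
  · funext i
    rw [norm_div, Complex.norm_natCast]

/-! ### Scaling of `Phi` -/

/-! ### Bounds for the factors -/

/-- numerator factor -/
theorem jfactor {α η n : ℕ} (hn : 0 < n) (hα : 0 < α) (hα2 : 2 * α < η) {y : ℝ} (hy : 0 < y)
    {B : ℝ} (hB : (η : ℝ) * n + 2 + y ≤ B) :
    (‖∏ l ∈ Finset.range (α * n), (pt 0 y + ((l : ℂ) + 1))‖ *
      ‖∏ l ∈ Finset.range (α * n), (pt 0 y + ((η * n + 2 : ℕ) : ℂ) - ((l : ℂ) + 1))‖) /
        ((α * n).factorial : ℝ) ^ 2 ≤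
      (B ^ 2 * Real.exp 1) ^ 3 *
        Real.exp (n * (gg α (y / n) + gg η (y / n) - gg ((η : ℝ) - α) (y / n) -
          2 * α * Real.log α)) := by
  set E := B ^ 2 * Real.exp 1 with hE
  have hn0 : (0 : ℝ) < n := by exact_mod_cast hn
  have hη0 : (0 : ℝ) ≤ (η : ℝ) * n := by positivity
  have hB2 : 2 ≤ B := by linarith
  have hE0 : 0 < E := by positivity
  obtain ⟨γ, rfl⟩ : ∃ γ, η = γ + α := ⟨η - α, by omega⟩
  have hcast : ((γ + α : ℕ) : ℝ) = γ + α := by push_cast; ring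
  have hγα : ((γ + α : ℕ) : ℝ) - α = γ := by rw [hcast]; ring
  rw [hγα]
  rw [hcast] at hB hη0
  have hγn : (0 : ℝ) ≤ (γ : ℝ) * n := by positivity
  have hαn : (0 : ℝ) ≤ (α : ℝ) * n := by positivity
  -- the three products
  have e1 : ‖∏ l ∈ Finset.range (α * n), (pt 0 y + ((l : ℂ) + 1))‖ ≤
      Real.exp (Phi y ((α * n : ℕ) : ℝ)) * E := by
    rw [norm_num1]
    exact G_le' hy _ (by push_cast; nlinarith) hB2
  have e2 := norm_num2 (N := (γ + α) * n) (a := α * n) (by nlinarith) y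
  have e3 : (γ + α) * n + 1 - α * n = γ * n + 1 := by
    rw [add_mul]; omega
  rw [e3] at e2
  have e4 := G_succ_le hy ((γ + α) * n) (B := B) (by push_cast; nlinarith) hB2
  have e5 := le_G_succ hy (γ * n) (B := B) (by push_cast; nlinarith) hB2
  rw [← hE] at e4 e5
  set P2 := ‖∏ l ∈ Finset.range (α * n), (pt 0 y + (((γ + α) * n + 2 : ℕ) : ℂ) - ((l : ℂ) + 1))‖
    with hP2
  have hP20 : 0 ≤ P2 := norm_nonneg _
  have e6 : P2 ≤ E ^ 2 * Real.exp (Phi y (((γ + α) * n : ℕ) : ℝ) - Phi y ((γ * n : ℕ) : ℝ)) := by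
    rw [Real.exp_sub, ← mul_div_assoc, le_div_iff₀ (Real.exp_pos _)]
    calc P2 * Real.exp (Phi y ((γ * n : ℕ) : ℝ)) ≤ P2 * (G (γ * n + 1) y * E) := by gcongr
      _ = (P2 * G (γ * n + 1) y) * E := by ring
      _ ≤ (Real.exp (Phi y (((γ + α) * n : ℕ) : ℝ)) * E) * E := by rw [e2]; gcongr
      _ = _ := by ring
  have e7 := le_factorial (m := α * n) (Nat.mul_pos hα hn)
  have hf : 0 < ((α * n).factorial : ℝ) := by positivity
  rw [div_le_iff₀ (by positivity)]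
  set P1 := ‖∏ l ∈ Finset.range (α * n), (pt 0 y + ((l : ℂ) + 1))‖
  have hP10 : 0 ≤ P1 := norm_nonneg _
  set X := ((α * n : ℕ) : ℝ) * Real.log ((α * n : ℕ) : ℝ) - ((α * n : ℕ) : ℝ) with hX
  have e8 : Real.exp (2 * X) ≤ ((α * n).factorial : ℝ) ^ 2 := by
    rw [two_mul, Real.exp_add, ← sq]
    gcongr
  have e9 : Phi y ((α * n : ℕ) : ℝ) + (Phi y (((γ + α) * n : ℕ) : ℝ) - Phi y ((γ * n : ℕ) : ℝ)) =
      n * (gg α (y / n) + gg ((γ + α : ℕ) : ℝ) (y / n) - gg γ (y / n) -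
        2 * α * Real.log α) + 2 * X := by
    have f1 := fact_scale hn hα
    rw [← hX] at f1
    rw [f1]
    push_cast
    rw [Phi_scale hn hy, Phi_scale hn hy, Phi_scale hn hy]
    ring
  calc P1 * P2 ≤ (Real.exp (Phi y ((α * n : ℕ) : ℝ)) * E) *
        (E ^ 2 * Real.exp (Phi y (((γ + α) * n : ℕ) : ℝ) - Phi y ((γ * n : ℕ) : ℝ))) := by gcongr
    _ = E ^ 3 * Real.exp (Phi y ((α * n : ℕ) : ℝ) +
        (Phi y (((γ + α) * n : ℕ) : ℝ) - Phi y ((γ * n : ℕ) : ℝ))) := by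
        rw [Real.exp_add (Phi y ((α * n : ℕ) : ℝ))]; ring
    _ = E ^ 3 * Real.exp (n * (gg α (y / n) + gg ((γ + α : ℕ) : ℝ) (y / n) - gg γ (y / n) -
        2 * α * Real.log α)) * Real.exp (2 * X) := by rw [e9, Real.exp_add]; ring
    _ ≤ _ := by gcongr

/-! ### The rational function and the kernel on the line -/

theorem R_conj (P : Par) (t : ℂ) :
    R P ((starRingEnd ℂ) t) = (starRingEnd ℂ) (R P t) := by
  have h2 : (starRingEnd ℂ) 2 = 2 := map_ofNat _ 2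
  unfold R
  simp [map_mul, map_prod, map_div₀, map_add, map_sub, map_pow, h2]

theorem norm_R_neg (P : Par) (y : ℝ) : ‖R P (pt 0 (-y))‖ = ‖R P (pt 0 y)‖ := by
  have h : pt 0 (-y) = (starRingEnd ℂ) (pt 0 y) := by
    have h2 : (starRingEnd ℂ) 2 = 2 := map_ofNat _ 2
    rw [pt_zero, pt_zero]
    simp [h2]
  rw [h, R_conj, Complex.norm_conj]

theorem norm_R_abs (P : Par) (y : ℝ) : ‖R P (pt 0 |y|)‖ = ‖R P (pt 0 y)‖ := by
  rcases abs_choice y with h | h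
  · rw [h]
  · rw [h, norm_R_neg]

theorem R_le (F : Fam) (hα : ∀ j, 0 < F.α j) (hα2 : ∀ j, 2 * F.α j < F.η)
    (hβ2 : ∀ i, 2 * F.β i < F.η) {n : ℕ} (hn : 0 < n)
    {y : ℝ} (hy : 0 < y) {B : ℝ} (hB : (F.η : ℝ) * n + 2 + y ≤ B) :
    ‖R (F.par n) (pt 0 y)‖ ≤ (B ^ 2 * Real.exp 1) ^ (1 + 3 * F.r + 3 * F.s) *
      Real.exp (n * F.FF (y / n) + 2 * Real.pi * y) := by
  set E := B ^ 2 * Real.exp 1 with hE
  have hη0 : (0 : ℝ) ≤ (F.η : ℝ) * n := by positivity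
  have hB2 : 2 ≤ B := by linarith
  have hE0 : 0 < E := by positivity
  have hn0 : (0 : ℝ) < n := by exact_mod_cast hn
  rw [R_norm]
  have h1 : ‖2 * pt 0 y + ((F.par n).h : ℂ)‖ ≤ E := by
    have e1 : 2 * pt 0 y + ((F.par n).h : ℂ) =
        (((F.η : ℝ) * n + 1 : ℝ) : ℂ) + ((2 * y : ℝ) : ℂ) * Complex.I := by
      rw [pt_zero]
      simp only [Fam.par]
      push_cast
      ring
    rw [e1]
    refine (norm_add_le_abs _ _).trans ?_
    rw [abs_of_nonneg (by positivity), abs_of_nonneg (by positivity), hE]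
    have e2 : 1 ≤ Real.exp 1 := Real.one_le_exp (by norm_num)
    have e3 : (F.η : ℝ) * n + 1 + 2 * y ≤ B ^ 2 := by nlinarith
    nlinarith [sq_nonneg B]
  have h2 : (∏ j, (‖∏ l ∈ Finset.range ((F.par n).a j), (pt 0 y + ((l : ℂ) + 1))‖ *
        ‖∏ l ∈ Finset.range ((F.par n).a j), (pt 0 y + (F.par n).h - ((l : ℂ) + 1))‖) /
          (((F.par n).a j).factorial : ℝ) ^ 2) ≤
      E ^ (3 * F.r) * Real.exp (n * ∑ j, (gg (F.α j) (y / n) + gg F.η (y / n) -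
        gg ((F.η : ℝ) - F.α j) (y / n) - 2 * F.α j * Real.log (F.α j))) := by
    have e1 : E ^ (3 * F.r) * Real.exp (n * ∑ j, (gg (F.α j) (y / n) + gg F.η (y / n) -
        gg ((F.η : ℝ) - F.α j) (y / n) - 2 * F.α j * Real.log (F.α j))) =
        ∏ j : Fin F.r, (E ^ 3 * Real.exp (n * (gg (F.α j) (y / n) + gg F.η (y / n) -
          gg ((F.η : ℝ) - F.α j) (y / n) - 2 * F.α j * Real.log (F.α j)))) := by
      rw [Finset.prod_mul_distrib, Finset.prod_const, Finset.card_univ, Fintype.card_fin,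
        ← pow_mul, ← Real.exp_sum, Finset.mul_sum]
    rw [e1]
    refine Finset.prod_le_prod (fun j _ => by positivity) fun j _ => ?_
    exact jfactor hn (hα j) (hα2 j) hy hB
  have h3 : (∏ i, ((((F.par n).h - 2 * (F.par n).b i).factorial : ℕ) : ℝ) /
        ‖∏ l ∈ Finset.range ((F.par n).h - 2 * (F.par n).b i + 1),
          (pt 0 y + (F.par n).b i + (l : ℂ))‖) ≤
      E ^ (3 * F.s) * Real.exp (n * ∑ i, (gg (F.β i) (y / n) - gg ((F.η : ℝ) - F.β i) (y / n) +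
        ((F.η : ℝ) - 2 * F.β i) * Real.log ((F.η : ℝ) - 2 * F.β i))) := by
    have e1 : E ^ (3 * F.s) * Real.exp (n * ∑ i, (gg (F.β i) (y / n) -
        gg ((F.η : ℝ) - F.β i) (y / n) +
        ((F.η : ℝ) - 2 * F.β i) * Real.log ((F.η : ℝ) - 2 * F.β i))) =
        ∏ i : Fin F.s, (E ^ 3 * Real.exp (n * (gg (F.β i) (y / n) -
          gg ((F.η : ℝ) - F.β i) (y / n) +
          ((F.η : ℝ) - 2 * F.β i) * Real.log ((F.η : ℝ) - 2 * F.β i)))) := by
      rw [Finset.prod_mul_distrib, Finset.prod_const, Finset.card_univ, Fintype.card_fin,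
        ← pow_mul, ← Real.exp_sum, Finset.mul_sum]
    rw [e1]
    refine Finset.prod_le_prod (fun i _ => by positivity) fun i _ => ?_
    exact ifactor hn (hβ2 i) hy hB
  have h4 : (n : ℝ) * F.FF (y / n) + 2 * Real.pi * y =
      n * (∑ j, (gg (F.α j) (y / n) + gg F.η (y / n) -
        gg ((F.η : ℝ) - F.α j) (y / n) - 2 * F.α j * Real.log (F.α j))) +
      n * (∑ i, (gg (F.β i) (y / n) - gg ((F.η : ℝ) - F.β i) (y / n) +
        ((F.η : ℝ) - 2 * F.β i) * Real.log ((F.η : ℝ) - 2 * F.β i))) := by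
    unfold Fam.FF
    generalize (∑ j, (gg (F.α j) (y / n) + gg F.η (y / n) -
        gg ((F.η : ℝ) - F.α j) (y / n) - 2 * F.α j * Real.log (F.α j))) = S1
    generalize (∑ i, (gg (F.β i) (y / n) - gg ((F.η : ℝ) - F.β i) (y / n) +
        ((F.η : ℝ) - 2 * F.β i) * Real.log ((F.η : ℝ) - 2 * F.β i))) = S2
    field_simp
    ring
  rw [h4, Real.exp_add]
  refine (mul_le_mul (mul_le_mul h1 h2 (by positivity) hE0.le) h3 (by positivity)
    (by positivity)).trans (le_of_eq ?_)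
  rw [pow_add, pow_add, pow_one]
  ring

/-- pointwise bound for the integrand -/
theorem integrand_le (F : Fam) (hα : ∀ j, 0 < F.α j)
    (hα2 : ∀ j, 2 * F.α j < F.η) (hβ2 : ∀ i, 2 * F.β i < F.η)
    {L δ : ℝ} (hFF : ∀ t, 0 < t → F.FF t ≤ L - δ * t)
    (d : ℕ) {CK : ℝ} (hCK0 : 0 ≤ CK)
    (hCK : ∀ y : ℝ, ‖K F.r (pt 0 y)‖ ≤ CK * Real.exp (-(2 * Real.pi * |y|)))
    {n : ℕ} (hn : 0 < n) {y : ℝ} (hy : y ≠ 0) :
    ‖(pt 0 y * (pt 0 y + (F.par n).h)) ^ d * R (F.par n) (pt 0 y) * K (F.par n).r (pt 0 y)‖ ≤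
      (CK * ((F.η + 2) ^ 2 * Real.exp 1) ^ (1 + 3 * F.r + 3 * F.s + 2 * d) *
        ((n : ℝ) + 2) ^ (2 * (1 + 3 * F.r + 3 * F.s + 2 * d)) *
        Real.exp (n * L)) *
      ((1 + |y|) ^ (2 * (1 + 3 * F.r + 3 * F.s + 2 * d)) * Real.exp (-(δ * |y|))) := by
  have hn0 : (0 : ℝ) < n := by exact_mod_cast hn
  have hy0 : 0 < |y| := abs_pos.mpr hy
  have hη0 : (0 : ℝ) ≤ F.η := by positivity
  set B : ℝ := (F.η + 2) * (n + 2) * (1 + |y|) with hB
  have hBle : (F.η : ℝ) * n + 2 + |y| ≤ B := by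
    rw [hB]
    have e1 : 0 ≤ (F.η : ℝ) * n := by positivity
    have e2 : 0 ≤ (F.η : ℝ) * |y| := by positivity
    have e3 : 0 ≤ (F.η : ℝ) * n * |y| := by positivity
    have e4 : 0 ≤ (n : ℝ) * |y| := by positivity
    nlinarith
  have hB2 : 2 ≤ B := by
    have : 0 ≤ (F.η : ℝ) * n := by positivity
    linarith
  set E := B ^ 2 * Real.exp 1 with hE
  have hE0 : 0 < E := by positivity
  have hBE : B ≤ E := by
    rw [hE]
    have e2 : 1 ≤ Real.exp 1 := Real.one_le_exp (by norm_num)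
    nlinarith [sq_nonneg B]
  -- the polynomial factor
  have f1 : ‖pt 0 y‖ ≤ E := by
    rw [pt_zero]
    refine (norm_add_le_abs _ _).trans (le_trans ?_ hBE)
    rw [abs_neg, abs_of_nonneg (by norm_num : (0 : ℝ) ≤ 1 / 2)]
    have : 0 ≤ (F.η : ℝ) * n := by positivity
    linarith
  have f2 : ‖pt 0 y + ((F.par n).h : ℂ)‖ ≤ E := by
    have e1 : pt 0 y + ((F.par n).h : ℂ) =
        (((F.η : ℝ) * n + 3 / 2 : ℝ) : ℂ) + (y : ℂ) * Complex.I := by
      rw [pt_zero]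
      simp only [Fam.par]
      push_cast
      ring
    rw [e1]
    refine (norm_add_le_abs _ _).trans (le_trans ?_ hBE)
    rw [abs_of_nonneg (by positivity)]
    linarith
  have f3 : ‖(pt 0 y * (pt 0 y + (F.par n).h)) ^ d‖ ≤ E ^ (2 * d) := by
    rw [norm_pow, norm_mul, pow_mul, sq]
    gcongr
  have f4 : ‖R (F.par n) (pt 0 y)‖ ≤ E ^ (1 + 3 * F.r + 3 * F.s) *
      Real.exp (n * F.FF (|y| / n) + 2 * Real.pi * |y|) := by
    rw [← norm_R_abs]
    exact R_le F hα hα2 hβ2 hn hy0 hBle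
  have f5 : (n : ℝ) * F.FF (|y| / n) ≤ n * L - δ * |y| := by
    have e1 := hFF (|y| / n) (by positivity)
    have e2 : (n : ℝ) * (L - δ * (|y| / n)) = n * L - δ * |y| := by
      field_simp
    rw [← e2]
    gcongr
  have f6 : ‖K (F.par n).r (pt 0 y)‖ ≤ CK * Real.exp (-(2 * Real.pi * |y|)) := hCK y
  have f7 : E = ((F.η + 2) ^ 2 * Real.exp 1) * ((n : ℝ) + 2) ^ 2 * (1 + |y|) ^ 2 := by
    rw [hE, hB]; ring
  rw [norm_mul, norm_mul]
  calc ‖(pt 0 y * (pt 0 y + (F.par n).h)) ^ d‖ * ‖R (F.par n) (pt 0 y)‖ *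
        ‖K (F.par n).r (pt 0 y)‖
      ≤ E ^ (2 * d) * (E ^ (1 + 3 * F.r + 3 * F.s) *
        Real.exp (n * F.FF (|y| / n) + 2 * Real.pi * |y|)) *
        (CK * Real.exp (-(2 * Real.pi * |y|))) := by gcongr
    _ = CK * E ^ (1 + 3 * F.r + 3 * F.s + 2 * d) * Real.exp (n * F.FF (|y| / n)) := by
        rw [Real.exp_add, Real.exp_neg, pow_add E (1 + 3 * F.r + 3 * F.s)]
        field_simp
    _ ≤ CK * E ^ (1 + 3 * F.r + 3 * F.s + 2 * d) *
        Real.exp (n * L - δ * |y|) := by gcongr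
    _ = _ := by
        rw [sub_eq_add_neg, Real.exp_add, f7, mul_pow, mul_pow, ← pow_mul, ← pow_mul]
        ring

/-- **Upper bound for the linear forms**, from a linear bound for the rate function. -/
theorem Lf_le_of_FF (F : Fam) (hr : 3 ≤ F.r) (hα : ∀ j, 0 < F.α j)
    (hα2 : ∀ j, 2 * F.α j < F.η) (hβ2 : ∀ i, 2 * F.β i < F.η) {L δ C : ℝ} (hδ : 0 < δ)
    (hFF : ∀ t, 0 < t → F.FF t ≤ L - δ * t) (hC : C < -L) (d : ℕ) :
    ∀ᶠ n : ℕ in Filter.atTop, ‖Lf (F.par n) d 0‖ ≤ Real.exp (-C * n) := by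
  obtain ⟨CK, hCK0, hCK⟩ := K_line (r := F.r) (by omega)
  set K0 := 1 + 3 * F.r + 3 * F.s + 2 * d with hK0
  set J : ℝ := ∫ y : ℝ, (1 + |y|) ^ (2 * K0) * Real.exp (-(δ * |y|)) with hJ
  have hint : MeasureTheory.Integrable fun y : ℝ =>
      (1 + |y|) ^ (2 * K0) * Real.exp (-(δ * |y|)) := by
    refine MeasureTheory.Integrable.mono' (integrable_inv_one_add_sq.const_mul
      (((2 * K0 + 2).factorial / δ ^ (2 * K0 + 2) * Real.exp δ)))
      (Continuous.aestronglyMeasurable (by fun_prop)) (Filter.Eventually.of_forall fun y => ?_)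
    rw [Real.norm_eq_abs, abs_of_nonneg (by positivity), ← div_eq_mul_inv]
    exact exp_poly' hδ (2 * K0) y
  set c0 : ℝ := CK * ((F.η + 2) ^ 2 * Real.exp 1) ^ K0 * J with hc0
  have hmain : ∀ n : ℕ, 0 < n → ‖Lf (F.par n) d 0‖ ≤
      c0 * ((n : ℝ) + 2) ^ (2 * K0) * Real.exp (n * L) := by
    intro n hn
    have h0 : ∀ᵐ y : ℝ, y ≠ 0 := by
      simp [MeasureTheory.ae_iff, MeasureTheory.measure_singleton]
    have e1 : ‖Lf (F.par n) d 0‖ ≤ ∫ y : ℝ,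
        (CK * ((F.η + 2) ^ 2 * Real.exp 1) ^ K0 *
        ((n : ℝ) + 2) ^ (2 * K0) * Real.exp (n * L)) *
      ((1 + |y|) ^ (2 * K0) * Real.exp (-(δ * |y|))) := by
      unfold Lf
      refine MeasureTheory.norm_integral_le_of_norm_le (hint.const_mul _) ?_
      filter_upwards [h0] with y hy
      exact integrand_le F hα hα2 hβ2 hFF d hCK0 hCK hn hy
    rw [MeasureTheory.integral_const_mul] at e1
    refine e1.trans (le_of_eq ?_)
    rw [hc0, hJ]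
    ring
  -- the limit
  have hJ0 : 0 ≤ J := MeasureTheory.integral_nonneg fun y => by positivity
  have hc00 : 0 ≤ c0 := by positivity
  set q : ℝ := Real.exp (L + C) with hq
  have hq1 : q < 1 := by
    rw [hq, Real.exp_lt_one_iff]
    linarith
  have hq0 : 0 < q := Real.exp_pos _
  have hlim := (tendsto_pow_const_mul_const_pow_of_abs_lt_one (2 * K0)
    (by rw [abs_of_pos hq0]; exact hq1 : |q| < 1)).const_mul (c0 * 3 ^ (2 * K0))
  rw [mul_zero] at hlim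
  have hev := hlim.eventually_lt_const (show (0 : ℝ) < 1 by norm_num)
  filter_upwards [hev, Filter.eventually_gt_atTop 0] with n hn1 hn2
  have hn0 : (1 : ℝ) ≤ n := by exact_mod_cast hn2
  refine (hmain n hn2).trans ?_
  have e1 : Real.exp (n * L) = q ^ n * Real.exp (-C * n) := by
    rw [hq, ← Real.exp_nat_mul, ← Real.exp_add]
    ring_nf
  have e2 : ((n : ℝ) + 2) ^ (2 * K0) ≤ 3 ^ (2 * K0) * (n : ℝ) ^ (2 * K0) := by
    rw [← mul_pow]
    apply pow_le_pow_left₀ (by positivity)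
    linarith
  rw [e1]
  calc c0 * ((n : ℝ) + 2) ^ (2 * K0) * (q ^ n * Real.exp (-C * n))
      ≤ c0 * (3 ^ (2 * K0) * (n : ℝ) ^ (2 * K0)) * (q ^ n * Real.exp (-C * n)) := by gcongr
    _ = (c0 * 3 ^ (2 * K0) * ((n : ℝ) ^ (2 * K0) * q ^ n)) * Real.exp (-C * n) := by ring
    _ ≤ 1 * Real.exp (-C * n) := by gcongr
    _ = _ := one_mul _

/-- **Upper bound for the linear forms.** -/
theorem Lf_le (F : Fam) (hr : 3 ≤ F.r) (hα : ∀ j, 0 < F.α j) (hα2 : ∀ j, 2 * F.α j < F.η) (hβ : ∀ i, 0 < F.β i) (hβ2 : ∀ i, 2 * F.β i < F.η) (Y Y1 δ C : ℝ) (hY : 0 < Y) (hYY : Y ≤ Y1) (hY1 : ∀ i, Y1 ^ 2 ≤ F.β i * ((F.η : ℝ) - F.β i)) (hδ : 0 < δ) (h2 : F.slopeA Y + F.slopeB Y ≤ 2 * Real.pi - δ) (h3 : F.slopeA Y1 ≤ 2 * Real.pi - δ) (hC : C < -F.Lam (Y ^ 2)) (d : ℕ) : ∀ᶠ n : ℕ in Filter.atTop, ‖Lf (F.par n) d 0‖ ≤ Real.exp (-C * n) :=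
  Lf_le_of_FF F hr hα hα2 hβ2 hδ
    (fun _ ht => FF_le F hα hα2 hβ hβ2 hY hYY hY1 h2 h3 ht) hC d

end ZetaSets
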