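import Mathlib
import Pool.Agent.Work.MP_4f096c_nt.SweepD

/-!
Definitions of the checks of the bound certificate.
-/

section

/-!
Taylor polynomials of `arctan`, products of powers.
-/

namespace ZetaSets

/-- lower Taylor polynomial of `arctan` -/
def aL (x : ℚ) : ℚ := x - x ^ 3 / 3 + x ^ 5 / 5 - x ^ 7 / 7 + x ^ 9 / 9 - x ^ 11 / 11

/-- upper Taylor polynomial of `arctan` -/
def aU (x : ℚ) : ℚ := x - x ^ 3 / 3 + x ^ 5 / 5 - x ^ 7 / 7 + x ^ 9 / 9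

/-- product of the powers `base ^ exponent` -/
def PP (l : List (ℕ × ℕ)) : ℕ := (l.map fun p => p.1 ^ p.2).prod

end ZetaSets

end

section

/-!
Rational bounds for the sums over atoms and the checks of the bound certificate. Definitions.
-/

namespace ZG

open ZetaSets (aL aU PP)
open ZetaCert (Dat)

def piLo : ℚ := 3141592 / 1000000

def piHi : ℚ := 3141593 / 1000000

/-- lower bound for `arctan` -/
def aLo (x : ℚ) : ℚ :=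
  if x ≤ 2 / 5 then aL x else
    if x ≤ 1 then piLo / 4 - aU ((1 - x) / (1 + x)) else
      if x ≤ 5 / 2 then piLo / 4 + aL ((x - 1) / (1 + x)) else piLo / 2 - aU (1 / x)

/-- upper bound for `arctan` -/
def aHi (x : ℚ) : ℚ :=
  if x ≤ 2 / 5 then aU x else
    if x ≤ 1 then piHi / 4 - aL ((1 - x) / (1 + x)) else
      if x ≤ 5 / 2 then piHi / 4 + aU ((x - 1) / (1 + x)) else piHi / 2 - aL (1 / x)

/-- term of the lower bound for `eQ l X y`, `y ∈ [y1, y2]` -/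
def qy (X : ℤ) (y1 y2 : ℚ) (a : ℤ × ℤ) : ℚ :=
  (a.1 : ℚ) * (((a.2 + X : ℤ) : ℚ) /
    (((a.2 + X : ℤ) : ℚ) ^ 2 + (if 0 ≤ a.1 * (a.2 + X) then y2 else y1) ^ 2))

def Qy (l : List (ℤ × ℤ)) (X : ℤ) (y1 y2 : ℚ) : ℤ :=
  (l.map fun a => ⌊qy X y1 y2 a * 1000000000⌋).sum

/-- lower bound for `u / (u^2+y^2)`, `u ∈ [u1, u2]` -/
def flo (y u1 u2 : ℚ) : ℚ :=
  if u1 < -y ∧ -y < u2 then -(1 / (2 * y)) else min (u1 / (u1 ^ 2 + y ^ 2)) (u2 / (u2 ^ 2 + y ^ 2))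

/-- term of the lower bound for `eQ l x y`, `x ∈ [x1, x2]` -/
def qx (y x1 x2 : ℚ) (a : ℤ × ℤ) : ℚ :=
  if 0 ≤ a.1 then (a.1 : ℚ) * flo y (a.2 + x1) (a.2 + x2) else
    -(a.1 : ℚ) * flo y (-(a.2 + x2)) (-(a.2 + x1))

def Qx (l : List (ℤ × ℤ)) (y x1 x2 : ℚ) : ℤ :=
  (l.map fun a => ⌊qx y x1 x2 a * 1000000000⌋).sum

/-- term of the upper bound for `eS l X y`, `y ∈ [y1, y2]` -/
def sy (X : ℤ) (y1 y2 : ℚ) (a : ℤ × ℤ) : ℚ :=
  if 0 ≤ a.1 * (a.2 + X) then |(a.1 : ℚ)| * aHi (|((a.2 + X : ℤ) : ℚ)| / y1) else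
    -(|(a.1 : ℚ)| * aLo (|((a.2 + X : ℤ) : ℚ)| / y2))

def Sy (l : List (ℤ × ℤ)) (X : ℤ) (y1 y2 : ℚ) : ℤ :=
  (l.map fun a => ⌈sy X y1 y2 a * 1000000000⌉).sum

/-- term of the upper bound for `eS l X y`, `y ≥ y1` -/
def si (X : ℤ) (y1 : ℚ) (a : ℤ × ℤ) : ℚ :=
  if 0 ≤ a.1 * (a.2 + X) then |(a.1 : ℚ)| * aHi (|((a.2 + X : ℤ) : ℚ)| / y1) else 0

def Si (l : List (ℤ × ℤ)) (X : ℤ) (y1 : ℚ) : ℤ :=
  (l.map fun a => ⌈si X y1 a * 1000000000⌉).sum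

/-- last break point -/
def lastq : ℚ → List ℚ → ℚ
  | y, [] => y
  | _, z :: zs => lastq z zs

/-- `eQ l X y ≥ 0` on all intervals -/
def chQy (l : List (ℤ × ℤ)) (X : ℤ) : ℚ → List ℚ → Bool
  | _, [] => true
  | y1, y2 :: ys => decide (y1 ≤ y2) && (decide (0 ≤ Qy l X y1 y2) && chQy l X y2 ys)

/-- `eQ l x y ≥ 0` on all intervals -/
def chQx (l : List (ℤ × ℤ)) (y : ℚ) : ℚ → List ℚ → Bool
  | _, [] => true
  | x1, x2 :: xs => decide (0 ≤ Qx l y x1 x2) && chQx l y x2 xs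

/-- slopes at most `c` on all intervals and beyond -/
def chSy (l : List (ℤ × ℤ)) (X : ℤ) (c : ℚ) : ℚ → List ℚ → Bool
  | y1, [] => decide ((Si l X y1 : ℚ) ≤ (2 * piLo + c) * 1000000000)
  | y1, y2 :: ys => decide (y1 ≤ y2) &&
      (decide ((Sy l X y1 y2 : ℚ) ≤ (2 * piLo + c) * 1000000000) && chSy l X c y2 ys)

/-- atoms of a numerator block -/
def atA (η : ℕ) (e : ℕ × ℕ) : List (ℤ × ℤ) :=
  [(1, (e.1 : ℤ)), (-1, -(e.2 : ℤ)), (1, (η : ℤ) + e.2), (-1, (η : ℤ) - e.1)]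

/-- atoms of a denominator block -/
def atB (η b : ℕ) : List (ℤ × ℤ) := [(1, (b : ℤ)), (-1, (η : ℤ) - b)]

/-- all atoms -/
def atoms (D : Dat) : List (ℤ × ℤ) := D.A.flatMap (atA D.η) ++ D.B.flatMap (atB D.η)

/-- factors of the numerator of an atom -/
def pA (X : ℤ) (P Q : ℕ) (a : ℤ × ℤ) : List (ℕ × ℕ) :=
  [((a.2 + X).natAbs ^ 2 * Q ^ 2 + P ^ 2, (a.1 * (a.2 + X)).toNat),
    (Q ^ 2, (-(a.1 * (a.2 + X))).toNat)]

/-- factors of the denominator of an atom -/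
def nA (X : ℤ) (P Q : ℕ) (a : ℤ × ℤ) : List (ℕ × ℕ) :=
  [((a.2 + X).natAbs ^ 2 * Q ^ 2 + P ^ 2, (-(a.1 * (a.2 + X))).toNat),
    (Q ^ 2, (a.1 * (a.2 + X)).toNat)]

def posG (D : Dat) (X : ℤ) (P Q : ℕ) : List (ℕ × ℕ) :=
  (atoms D).flatMap (pA X P Q) ++ D.B.map fun b => (D.η - 2 * b, 2 * (D.η - 2 * b))

def negG (D : Dat) (X : ℤ) (P Q : ℕ) : List (ℕ × ℕ) :=
  (atoms D).flatMap (nA X P Q) ++ D.A.map fun e => (e.1 + e.2, 4 * (e.1 + e.2))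

/-- standing assumptions, as a check -/
def okB (D : Dat) : Bool :=
  decide (3 ≤ D.A.length) && (D.A.all (fun e => decide (0 < e.1) && decide (e.1 ≤ D.η)) &&
    D.B.all fun b => decide (2 * b < D.η))

/-- `eQ l X y ≥ -M` on all intervals; `ye` must be at most the last break point -/
def chQyM (l : List (ℤ × ℤ)) (X : ℤ) (M ye : ℚ) : ℚ → List ℚ → Bool
  | y1, [] => decide (ye ≤ y1)
  | y1, y2 :: ys => decide (y1 ≤ y2) &&
      (decide (-M * 1000000000 ≤ (Qy l X y1 y2 : ℚ)) && chQyM l X M ye y2 ys)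

/-- `eQ l x y ≥ -M` on all intervals; `xe` must be at most the last break point -/
def chQxM (l : List (ℤ × ℤ)) (y M xe : ℚ) : ℚ → List ℚ → Bool
  | x1, [] => decide (xe ≤ x1)
  | x1, x2 :: xs => decide (-M * 1000000000 ≤ (Qx l y x1 x2 : ℚ)) && chQxM l y M xe x2 xs

/-- certified value at the vertex `(X, P/Q)`: the rate function is at most
`-k/(2w) + (P/Q) s` -/
def evalB (D : Dat) (X : ℤ) (P Q w k : ℕ) (s : ℚ) : Bool :=
  (decide (0 < P) && decide (0 < Q)) &&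
    (decide ((Sy (atoms D) X ((P : ℚ) / Q) ((P : ℚ) / Q) : ℚ) ≤ (2 * piLo + s) * 1000000000) &&
    decide (PP (posG D X P Q) ^ w * 27182818286 ^ k < PP (negG D X P Q) ^ w * 10000000000 ^ k))

/-- horizontal part: entries `(x', k', s', M, subdivision)` -/
def chH (D : Dat) (w P0 Q0 : ℕ) (C : ℚ) : ℕ → ℚ → List (ℕ × ℕ × ℚ × ℚ × List ℚ) → Bool
  | _, _, [] => true
  | x, v, (x', k', s', M, subs) :: t =>
    (decide (x ≤ x') && (decide (0 ≤ M) && evalB D x' P0 Q0 w k' s')) &&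
    ((decide (C + M * ((x' : ℚ) - x) ^ 2 / 8 ≤ v) &&
      decide (C + M * ((x' : ℚ) - x) ^ 2 / 8 ≤ (k' : ℚ) / (2 * w) - (P0 : ℚ) / Q0 * s')) &&
    (chQxM (atoms D) ((P0 : ℚ) / Q0) M x' x subs &&
      chH D w P0 Q0 C x' ((k' : ℚ) / (2 * w) - (P0 : ℚ) / Q0 * s') t))

/-- last abscissa -/
def lastH : ℕ → List (ℕ × ℕ × ℚ × ℚ × List ℚ) → ℕ
  | x, [] => x
  | _, e :: t => lastH e.1 t

/-- vertical part: entries `(P', Q', k', s', M, subdivision)` -/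
def chV (D : Dat) (w X : ℕ) (C : ℚ) : ℚ → ℚ → List (ℕ × ℕ × ℕ × ℚ × ℚ × List ℚ) → Bool
  | _, _, [] => true
  | y, v, (P', Q', k', s', M, subs) :: t =>
    (decide (y ≤ (P' : ℚ) / Q') && (decide (0 ≤ M) && evalB D X P' Q' w k' s')) &&
    ((decide (C + M * ((P' : ℚ) / Q' - y) ^ 2 / 8 ≤ v) &&
      decide (C + M * ((P' : ℚ) / Q' - y) ^ 2 / 8 ≤ (k' : ℚ) / (2 * w) - (P' : ℚ) / Q' * s')) &&
    (chQyM ((atoms D).map fun a => (-a.1, a.2)) X M ((P' : ℚ) / Q') y subs &&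
      chV D w X C ((P' : ℚ) / Q') ((k' : ℚ) / (2 * w) - (P' : ℚ) / Q' * s') t))

/-- last ordinate -/
def lastV : ℚ → List (ℕ × ℕ × ℕ × ℚ × ℚ × List ℚ) → ℚ
  | y, [] => y
  | _, e :: t => lastV ((e.1 : ℚ) / e.2.1) t

end ZG

end

section

/-!
Integer versions of the checks of the bound certificate. Definitions.
-/

namespace ZG

open ZetaSets (PP)
open ZetaCert (Dat)

/-- sum over a list, kernel friendly -/
noncomputable def sumZ (f : ℤ × ℤ → ℤ) (l : List (ℤ × ℤ)) : ℤ :=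
  @List.rec (ℤ × ℤ) (fun _ => ℤ) 0 (fun a _ ih => f a + ih) l

/-- lower bound for `10^9 w u / (u^2 + y^2)`, `u ∈ [n1 / d, n2 / d]`, `y = m / d` -/
def floZ (w d m n1 n2 : ℤ) : ℤ :=
  if n1 < -m ∧ -m < n2 then (-(w * 1000000000 * d)) / (2 * m) else
    min ((w * 1000000000 * n1 * d) / (n1 * n1 + m * m))
      ((w * 1000000000 * n2 * d) / (n2 * n2 + m * m))

def qxZ (d m n1 n2 : ℤ) (a : ℤ × ℤ) : ℤ :=
  if 0 ≤ a.1 then floZ a.1 d m (a.2 * d + n1) (a.2 * d + n2) else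
    floZ (-a.1) d m (-(a.2 * d + n2)) (-(a.2 * d + n1))

def qyZ (X d m1 m2 : ℤ) (a : ℤ × ℤ) : ℤ :=
  (a.1 * (a.2 + X) * (d * d) * 1000000000) / ((a.2 + X) * (a.2 + X) * (d * d) +
    (if 0 ≤ a.1 * (a.2 + X) then m2 * m2 else m1 * m1))

/-- upper bound for `10^9 w aU (p / q)` -/
def cU (w p q : ℕ) : ℤ :=
  -((-((w * 1000000000 : ℕ) * (((315 * p * q ^ 8 + 63 * p ^ 5 * q ^ 4 + 35 * p ^ 9 : ℕ) : ℤ) -
    ((105 * p ^ 3 * q ^ 6 + 45 * p ^ 7 * q ^ 2 : ℕ) : ℤ)))) / ((315 * q ^ 9 : ℕ) : ℤ))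

/-- lower bound for `10^9 w aL (p / q)` -/
def fL (w p q : ℕ) : ℤ :=
  ((w * 1000000000 : ℕ) * (((3465 * p * q ^ 10 + 693 * p ^ 5 * q ^ 6 + 385 * p ^ 9 * q ^ 2 : ℕ) : ℤ) -
    ((1155 * p ^ 3 * q ^ 8 + 495 * p ^ 7 * q ^ 4 + 315 * p ^ 11 : ℕ) : ℤ))) /
      ((3465 * q ^ 11 : ℕ) : ℤ)

/-- upper bound for `10^9 w aHi (p / q)` -/
def aHiZ (w p q : ℕ) : ℤ :=
  if 5 * p ≤ 2 * q then cU w p q else
    if p ≤ q then ((w * 785398250 : ℕ) : ℤ) - fL w (q - p) (q + p) else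
      if 2 * p ≤ 5 * q then ((w * 785398250 : ℕ) : ℤ) + cU w (p - q) (q + p) else
        ((w * 1570796500 : ℕ) : ℤ) - fL w q p

/-- upper bound for `-10^9 w aLo (p / q)` -/
def aLoZ (w p q : ℕ) : ℤ :=
  if 5 * p ≤ 2 * q then -fL w p q else
    if p ≤ q then cU w (q - p) (q + p) - ((w * 785398000 : ℕ) : ℤ) else
      if 2 * p ≤ 5 * q then -fL w (p - q) (q + p) - ((w * 785398000 : ℕ) : ℤ) else
        cU w q p - ((w * 1570796000 : ℕ) : ℤ)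

/-- upper bound for `10^9 sy X (P1 / Q1) (P2 / Q2) a` -/
def syZ (X : ℤ) (P1 Q1 P2 Q2 : ℕ) (a : ℤ × ℤ) : ℤ :=
  if 0 ≤ a.1 * (a.2 + X) then aHiZ a.1.natAbs ((a.2 + X).natAbs * Q1) P1 else
    aLoZ a.1.natAbs ((a.2 + X).natAbs * Q2) P2

def siZ (X : ℤ) (P1 Q1 : ℕ) (a : ℤ × ℤ) : ℤ :=
  if 0 ≤ a.1 * (a.2 + X) then aHiZ a.1.natAbs ((a.2 + X).natAbs * Q1) P1 else 0

noncomputable def evalBZ (D : Dat) (X : ℤ) (P Q w k : ℕ) (S : ℤ) : Bool :=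
  (decide (0 < P) && decide (0 < Q)) &&
    (decide (sumZ (syZ X P Q P Q) (atoms D) ≤ 6283184000 + S) &&
    decide (PP (posG D X P Q) ^ w * 27182818286 ^ k < PP (negG D X P Q) ^ w * 10000000000 ^ k))

noncomputable def chQxMZ (l : List (ℤ × ℤ)) (d m M xe : ℤ) : ℤ → List ℤ → Bool
  | x1, [] => decide (xe ≤ x1)
  | x1, x2 :: xs => decide (-M ≤ sumZ (qxZ d m x1 x2) l) && chQxMZ l d m M xe x2 xs

noncomputable def chQyMZ (l : List (ℤ × ℤ)) (X d M ye : ℤ) : ℤ → List ℤ → Bool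
  | y1, [] => decide (ye ≤ y1)
  | y1, y2 :: ys => decide (y1 ≤ y2) &&
      (decide (-M ≤ sumZ (qyZ X d y1 y2) l) && chQyMZ l X d M ye y2 ys)

noncomputable def chQyZ (l : List (ℤ × ℤ)) (X d : ℤ) : ℤ → List ℤ → Bool
  | _, [] => true
  | y1, y2 :: ys => decide (y1 ≤ y2) && (decide (0 ≤ sumZ (qyZ X d y1 y2) l) && chQyZ l X d y2 ys)

noncomputable def chSyZ (l : List (ℤ × ℤ)) (X c : ℤ) : ℕ → ℕ → List ℕ → Bool
  | P, Q, [] => decide (sumZ (siZ X P Q) l ≤ 6283184000 + c)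
  | P, Q, z :: zs => decide (P ≤ Q * z) &&
      (decide (sumZ (syZ X P Q z 1) l ≤ 6283184000 + c) && chSyZ l X c z 1 zs)

/-- horizontal part: entries `(x', k', 10^9 s', 10^9 M, d * subdivision)`, `y = m / d` -/
noncomputable def chHZ (D : Dat) (w P0 Q0 : ℕ) (C : ℚ) (d m : ℤ) :
    ℕ → ℚ → List (ℕ × ℕ × ℤ × ℤ × List ℤ) → Bool
  | _, _, [] => true
  | x, v, (x', k', S, M, subs) :: t =>
    (decide (x ≤ x') && (decide (0 ≤ M) && evalBZ D x' P0 Q0 w k' S)) &&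
    ((decide (C + (M : ℚ) / 1000000000 * ((x' : ℚ) - x) ^ 2 / 8 ≤ v) &&
      decide (C + (M : ℚ) / 1000000000 * ((x' : ℚ) - x) ^ 2 / 8 ≤
        (k' : ℚ) / (2 * w) - (P0 : ℚ) / Q0 * ((S : ℚ) / 1000000000))) &&
    (chQxMZ (atoms D) d m M (x' * d) (x * d) subs &&
      chHZ D w P0 Q0 C d m x' ((k' : ℚ) / (2 * w) - (P0 : ℚ) / Q0 * ((S : ℚ) / 1000000000)) t))

/-- vertical part: entries `(P', Q', k', 10^9 s', 10^9 M, d * subdivision)`, `y = m / d` -/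
noncomputable def chVZ (D : Dat) (w X : ℕ) (C : ℚ) (d : ℤ) :
    ℤ → ℚ → List (ℕ × ℕ × ℕ × ℤ × ℤ × List ℤ) → Bool
  | _, _, [] => true
  | m, v, (P', Q', k', S, M, subs) :: t =>
    (decide (m * Q' ≤ P' * d) && (decide (0 ≤ M) && evalBZ D X P' Q' w k' S)) &&
    ((decide (C + (M : ℚ) / 1000000000 * ((P' : ℚ) / Q' - (m : ℚ) / d) ^ 2 / 8 ≤ v) &&
      decide (C + (M : ℚ) / 1000000000 * ((P' : ℚ) / Q' - (m : ℚ) / d) ^ 2 / 8 ≤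
        (k' : ℚ) / (2 * w) - (P' : ℚ) / Q' * ((S : ℚ) / 1000000000))) &&
    ((decide (P' * d / Q' * Q' = P' * d) &&
      chQyMZ ((atoms D).map fun a => (-a.1, a.2)) X d M (P' * d / Q') m subs) &&
      chVZ D w X C d (P' * d / Q')
        ((k' : ℚ) / (2 * w) - (P' : ℚ) / Q' * ((S : ℚ) / 1000000000)) t))

/-- the entries of `chH` -/
def cvH (d : ℤ) (e : ℕ × ℕ × ℤ × ℤ × List ℤ) : ℕ × ℕ × ℚ × ℚ × List ℚ :=
  (e.1, e.2.1, (e.2.2.1 : ℚ) / 1000000000, (e.2.2.2.1 : ℚ) / 1000000000,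
    e.2.2.2.2.map fun z : ℤ => (z : ℚ) / d)

/-- the entries of `chV` -/
def cvV (d : ℤ) (e : ℕ × ℕ × ℕ × ℤ × ℤ × List ℤ) : ℕ × ℕ × ℕ × ℚ × ℚ × List ℚ :=
  (e.1, e.2.1, e.2.2.1, (e.2.2.2.1 : ℚ) / 1000000000, (e.2.2.2.2.1 : ℚ) / 1000000000,
    e.2.2.2.2.2.map fun z : ℤ => (z : ℚ) / d)

end ZG

end
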