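import Pool.Agent.Work.MP_4f096c_nt.Fams

/-!
Certificates for the exponents `Expo`: one dimensional reduction (descent to the residues
`c n` with `c` a numerator or denominator parameter) and a finite checker.
-/

namespace ZetaSets

/-- the value of `phi` at `K = k - 1`, homogeneous form -/
def ph (η : ℤ) (A B : List ℕ) (n p K : ℤ) : ℤ :=
  (A.map fun a : ℕ => (K / p - (K - a * n) / p - (a * n) / p) +
      ((η * n - K) / p - (η * n - K - a * n) / p - (a * n) / p)).sum +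
    (B.map fun b : ℕ => ((η - 2 * b) * n) / p - (K - b * n) / p - ((η - b) * n - K) / p).sum

theorem phi_eq (η n : ℕ) (A B : List ℕ) (p K : ℤ) :
    phi ((famOf η A B).par n) p (K + 1) = ph η A B n p K := by
  unfold phi ph
  have h1 := Fin.sum_univ_fun_getElem A (fun a : ℕ => (K / p - (K - (a : ℤ) * n) / p - ((a : ℤ) * n) / p) +
      (((η : ℤ) * n - K) / p - ((η : ℤ) * n - K - a * n) / p - ((a : ℤ) * n) / p))
  have h2 := Fin.sum_univ_fun_getElem B (fun b : ℕ => (((η : ℤ) - 2 * b) * n) / p - (K - b * n) / p - (((η : ℤ) - b) * n - K) / p)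
  rw [← h1, ← h2]
  congr 1
  · apply Finset.sum_congr rfl
    intro j _
    simp only [famOf, Fam.par]
    push_cast
    congr 1
    · congr 1
      · congr 1
        · congr 1; ring
        · congr 1; ring
    · congr 1
      · congr 1
        · congr 1; ring
        · congr 1; ring
  · apply Finset.sum_congr rfl
    intro j _
    simp only [famOf, Fam.par]
    push_cast
    congr 1
    · congr 1
      · congr 1; ring
      · congr 1; ring
    · congr 1; ring

/-- residue classes where `ph` can jump down -/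
def Cl (η : ℤ) (A B : List ℕ) (n p K : ℤ) : Prop :=
  (∃ a ∈ A, p ∣ K - (a : ℤ) * n) ∨ (∃ b ∈ B, p ∣ K - (b : ℤ) * n) ∨ p ∣ η * n + 1 - K

theorem ediv_pred {p x : ℤ} (hp : 0 < p) (h : ¬ p ∣ x) : (x - 1) / p = x / p := by
  have h1 : 0 < x % p := by
    rcases (Int.emod_nonneg x hp.ne').lt_or_eq with h2 | h2
    · exact h2
    · exact absurd (Int.dvd_of_emod_eq_zero h2.symm) h
  have h2 := Int.emod_add_mul_ediv x p
  have h3 := Int.emod_lt_of_pos x hp
  rw [show x - 1 = (x % p - 1) + p * (x / p) by linarith, Int.add_mul_ediv_left _ _ hp.ne',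
    Int.ediv_eq_zero_of_lt (by omega) (by omega), zero_add]

theorem ph_step {η : ℤ} {A B : List ℕ} {n p K : ℤ} (hp : 0 < p) (h : ¬ Cl η A B n p K) :
    ph η A B n p (K - 1) ≤ ph η A B n p K := by
  unfold Cl at h
  push Not at h
  obtain ⟨hA, hB, hη⟩ := h
  unfold ph
  apply add_le_add
  · apply List.sum_le_sum
    intro a ha
    have h1 : (K - 1) / p ≤ K / p := Int.ediv_le_ediv hp (by linarith)
    have h2 : (K - 1 - a * n) / p = (K - a * n) / p := by
      rw [show K - 1 - (a : ℤ) * n = (K - a * n) - 1 by ring]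
      exact ediv_pred hp (hA a ha)
    have h3 : (η * n - (K - 1)) / p = (η * n - K) / p := by
      rw [show η * n - K = (η * n + 1 - K) - 1 by ring, ediv_pred hp hη]
      congr 1; ring
    have h4 : (η * n - K - a * n) / p ≤ (η * n - (K - 1) - a * n) / p :=
      Int.ediv_le_ediv hp (by linarith)
    linarith
  · apply List.sum_le_sum
    intro b hb
    have h2 : (K - 1 - b * n) / p = (K - b * n) / p := by
      rw [show K - 1 - (b : ℤ) * n = (K - b * n) - 1 by ring]
      exact ediv_pred hp (hB b hb)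
    have h4 : ((η - b) * n - K) / p ≤ ((η - b) * n - (K - 1)) / p :=
      Int.ediv_le_ediv hp (by linarith)
    linarith

theorem ph_descent {η : ℤ} {A B : List ℕ} {n p : ℤ} (hp : 0 < p) (L : ℤ) (hL : Cl η A B n p L)
    (m : ℕ) : ∃ K', L ≤ K' ∧ K' ≤ L + m ∧ Cl η A B n p K' ∧
      ph η A B n p K' ≤ ph η A B n p (L + m) := by
  induction m with
  | zero => exact ⟨L, le_refl _, by simp, hL, by simp⟩
  | succ m ih =>
    by_cases h : Cl η A B n p (L + (m + 1 : ℕ))
    · exact ⟨_, by push_cast; omega, le_refl _, h, le_refl _⟩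
    · obtain ⟨K', h1, h2, h3, h4⟩ := ih
      refine ⟨K', h1, by push_cast; omega, h3, h4.trans ?_⟩
      have := ph_step hp h
      rwa [show L + ((m + 1 : ℕ) : ℤ) - 1 = L + m by push_cast; ring] at this

theorem ph_descent' {η : ℤ} {A B : List ℕ} {n p : ℤ} (hp : 0 < p) {L K : ℤ} (hL : Cl η A B n p L)
    (hLK : L ≤ K) : ∃ K', L ≤ K' ∧ K' ≤ K ∧ Cl η A B n p K' ∧
      ph η A B n p K' ≤ ph η A B n p K := by
  obtain ⟨m, rfl⟩ := Int.le.dest hLK
  exact ph_descent hp L hL m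

/-- value at the class of `c n` -/
def Vc (η : ℤ) (A B : List ℕ) (f : ℤ → ℤ) (c : ℤ) : ℤ :=
  (A.map fun a : ℕ => f c - f (c - a) + f (η - c) - f (η - c - a) - 2 * f a).sum +
    (B.map fun b : ℕ => f (η - 2 * b) - f (c - b) - f (η - b - c)).sum

/-- value at the class of `η n + 1` -/
def Ve (η : ℤ) (A B : List ℕ) (f : ℤ → ℤ) : ℤ :=
  (A.map fun a : ℕ => f η - f (η - a) - f a).sum +
    (B.map fun b : ℕ => f (η - 2 * b) - f (η - b) + f b + 1).sum

theorem ph_class {η : ℤ} {A B : List ℕ} {n p : ℤ} (hp : 0 < p) (c m : ℤ) :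
    ph η A B n p (c * n + m * p) = Vc η A B (fun z => z * n / p) c := by
  unfold ph Vc
  have key : ∀ x y : ℤ, (x + y * p) / p = x / p + y := fun x y => Int.add_mul_ediv_right x y hp.ne'
  congr 2
  · apply List.map_congr_left
    intro a _
    simp only
    rw [key, show c * n + m * p - a * n = (c - a) * n + m * p by ring, key,
      show η * n - (c * n + m * p) = (η - c) * n + (-m) * p by ring, key,
      show (η - c) * n + (-m) * p - a * n = (η - c - a) * n + (-m) * p by ring, key]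
    ring
  · apply List.map_congr_left
    intro b _
    simp only
    rw [show c * n + m * p - b * n = (c - b) * n + m * p by ring, key,
      show (η - b) * n - (c * n + m * p) = (η - b - c) * n + (-m) * p by ring, key]
    ring

theorem neg_one_sub_ediv {p : ℤ} (hp : 0 < p) (x : ℤ) : (-1 - x) / p = -(x / p) - 1 := by
  have h2 := Int.emod_add_mul_ediv x p
  have h3 := Int.emod_lt_of_pos x hp
  have h1 := Int.emod_nonneg x hp.ne'
  rw [show -1 - x = (p - 1 - x % p) + p * (-(x / p) - 1) by linarith [h2],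
    Int.add_mul_ediv_left _ _ hp.ne', Int.ediv_eq_zero_of_lt (by omega) (by omega), zero_add]

theorem succ_ediv {p x : ℤ} (hp : 0 < p) (h : ¬ p ∣ x + 1) : (x + 1) / p = x / p := by
  have := ediv_pred hp h
  rw [← this]; congr 1; ring

theorem ph_eta {η : ℤ} {A B : List ℕ} {n p : ℤ} (hp : 0 < p) (m : ℤ)
    (h0 : ¬ p ∣ η * n + 1) (hA : ∀ a ∈ A, ¬ p ∣ (η - (a : ℤ)) * n + 1)
    (hB : ∀ b ∈ B, ¬ p ∣ (η - (b : ℤ)) * n + 1) :
    ph η A B n p (η * n + 1 - m * p) = Ve η A B (fun z => z * n / p) := by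
  unfold ph Ve
  have key : ∀ x y : ℤ, (x + y * p) / p = x / p + y := fun x y => Int.add_mul_ediv_right x y hp.ne'
  congr 2
  · apply List.map_congr_left
    intro a ha
    simp only
    rw [show η * n + 1 - m * p = (η * n + 1) + (-m) * p by ring, key, succ_ediv hp h0,
      show (η * n + 1) + (-m) * p - a * n = ((η - a) * n + 1) + (-m) * p by ring, key,
      succ_ediv hp (hA a ha),
      show η * n - (η * n + 1 + -m * p) = (-1 - 0) + m * p by ring, key, neg_one_sub_ediv hp,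
      show (-1 - 0) + m * p - a * n = (-1 - a * n) + m * p by ring, key, neg_one_sub_ediv hp]
    simp only [Int.zero_ediv]
    ring
  · apply List.map_congr_left
    intro b hb
    simp only
    rw [show η * n + 1 - m * p - b * n = ((η - b) * n + 1) + (-m) * p by ring, key,
      succ_ediv hp (hB b hb),
      show (η - b) * n - (η * n + 1 - m * p) = (-1 - b * n) + m * p by ring, key,
      neg_one_sub_ediv hp]
    ring

/-! ### The checker -/

/-- floor of `z * (a / b)`, generic convention for negative `z` -/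
def fz (a b : ℕ) : ℤ → ℤ
  | Int.ofNat m => ((m * a / b : ℕ) : ℤ)
  | Int.negSucc m => -(((m + 1) * a / b : ℕ) : ℤ) - 1

/-- weighted versions of `Vc`, `Ve` -/
def Vcw (η : ℤ) (A B : List (ℕ × ℕ)) (f : ℤ → ℤ) (c : ℤ) : ℤ :=
  (A.map fun a => (a.2 : ℤ) * (f c - f (c - a.1) + f (η - c) - f (η - c - a.1) - 2 * f a.1)).sum +
    (B.map fun b => (b.2 : ℤ) * (f (η - 2 * b.1) - f (c - b.1) - f (η - b.1 - c))).sum

def Vew (η : ℤ) (A B : List (ℕ × ℕ)) (f : ℤ → ℤ) : ℤ :=
  (A.map fun a => (a.2 : ℤ) * (f η - f (η - a.1) - f a.1)).sum +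
    (B.map fun b => (b.2 : ℤ) * (f (η - 2 * b.1) - f (η - b.1) + f b.1 + 1)).sum

def altw (η : ℤ) (A B : List (ℕ × ℕ)) (f : ℤ → ℤ) : ℤ :=
  2 * (A.map fun a => (a.2 : ℤ) * f a.1).sum - (B.map fun b => (b.2 : ℤ) * f (η - 2 * b.1)).sum

/-- expand multiplicities -/
theorem sum_ex (A : List (ℕ × ℕ)) (g : ℕ → ℤ) :
    ((ex A).map g).sum = (A.map fun a => (a.2 : ℤ) * g a.1).sum := by
  unfold ex
  induction A with
  | nil => simp
  | cons a A ih =>
    simp only [List.flatMap_cons, List.map_append, List.sum_append, List.map_replicate,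
      List.sum_replicate, ih, List.map_cons, List.sum_cons, nsmul_eq_mul]

theorem Vc_ex (η : ℤ) (A B : List (ℕ × ℕ)) (f : ℤ → ℤ) (c : ℤ) :
    Vc η (ex A) (ex B) f c = Vcw η A B f c := by
  unfold Vc Vcw; rw [sum_ex, sum_ex]

theorem Ve_ex (η : ℤ) (A B : List (ℕ × ℕ)) (f : ℤ → ℤ) :
    Ve η (ex A) (ex B) f = Vew η A B f := by
  unfold Ve Vew; rw [sum_ex, sum_ex]

/-- the data of a family: `η`, numerator and denominator parameters with multiplicities
(increasing), `C` = the absolute values of all multipliers occurring -/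
structure Dat where
  η : ℕ
  A : List (ℕ × ℕ)
  B : List (ℕ × ℕ)
  a0 : ℕ
  b0 : ℕ
  C : List ℕ

def Dat.cand (D : Dat) : List ℕ := D.A.map Prod.fst ++ D.B.map Prod.fst

def Dat.fam (D : Dat) : Fam := famOf D.η (ex D.A) (ex D.B)

/-- one interval `a/b <= x < a'/b'` with exponent `E` -/
def Dat.chkI (D : Dat) (a b a' b' E : ℕ) : Bool :=
  let f := fz a b
  let s : ℤ := (D.B.map fun b => (b.2 : ℤ)).sum
  let r : ℤ := (D.A.map fun b => (b.2 : ℤ)).sum
  (decide (0 < b) && decide (0 < b') &&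
  D.C.all (fun z => decide (z * a' ≤ (z * a / b + 1) * b'))) &&
  (D.cand.all (fun c => decide (f ((c : ℤ) - D.a0) + f ((D.η : ℤ) - D.b0 - c) < 1) ||
      decide (r + s - 1 - Vcw D.η D.A D.B f c ≤ E))) &&
  (decide (f ((D.η : ℤ) - D.a0) < f D.b0 + 2) || decide (r + s - 1 - Vew D.η D.A D.B f ≤ E)) &&
  (decide (2 ≤ f ((D.η : ℤ) - 2 * D.a0)) || decide (altw D.η D.A D.B f ≤ E) ||
    (D.cand.all (fun c => decide (s - 1 - Vcw D.η D.A D.B f c ≤ E)) &&
      decide (s - 1 - Vew D.η D.A D.B f ≤ E)))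

/-- all multipliers -/
def Dat.need (D : Dat) : List ℤ :=
  [(D.η : ℤ), (D.η : ℤ) - D.a0, (D.η : ℤ) - 2 * D.a0] ++
  (D.cand.map fun c : ℕ => (c : ℤ)) ++
  (D.cand.map fun c : ℕ => (c : ℤ) - D.a0) ++
  (D.cand.map fun c : ℕ => (D.η : ℤ) - D.b0 - c) ++
  (D.cand.map fun c : ℕ => (D.η : ℤ) - c) ++
  (D.cand.map fun c : ℕ => (D.η : ℤ) - 2 * c) ++
  (D.cand.flatMap fun c : ℕ => D.cand.map fun a : ℕ => (c : ℤ) - a) ++
  (D.cand.flatMap fun c : ℕ => D.cand.map fun a : ℕ => (D.η : ℤ) - c - a)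

/-- static check -/
def Dat.chk0 (D : Dat) : Bool :=
  D.need.all (fun z => decide (z = 0) || D.C.contains z.natAbs) &&
  D.C.all (fun z => decide (0 < z) && decide (z ≤ D.η)) &&
  (D.A.all fun a => decide (D.a0 ≤ a.1)) && (D.B.all fun b => decide (D.b0 ≤ b.1)) &&
  (D.A.map Prod.fst).contains D.a0 && (D.B.map Prod.fst).contains D.b0 &&
  (D.A.all fun a => decide (0 < a.2)) && (D.B.all fun b => decide (0 < b.2)) &&
  (D.A.all fun a => decide (a.1 ≤ D.b0)) && (D.B.all fun b => decide (2 * b.1 < D.η))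

theorem fz_eq {a b a' b' n p : ℕ} (hb : 0 < b)
    (h1 : a * p ≤ n * b) (h2 : n * b' < a' * p) {z : ℕ} (hz : z * a' ≤ (z * a / b + 1) * b')
    (hz0 : 0 < z) : z * n / p = z * a / b := by
  apply Nat.div_eq_of_lt_le
  · have h3 : z * a / b * b ≤ z * a := Nat.div_mul_le_self _ _
    have h4 : (z * a / b * p) * b ≤ (z * n) * b := by
      calc (z * a / b * p) * b = (z * a / b * b) * p := by ring
        _ ≤ (z * a) * p := Nat.mul_le_mul_right _ h3
        _ = z * (a * p) := by ring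
        _ ≤ z * (n * b) := Nat.mul_le_mul_left _ h1
        _ = (z * n) * b := by ring
    exact Nat.le_of_mul_le_mul_right h4 hb
  · have h4 : (z * n) * b' < ((z * a / b + 1) * p) * b' := by
      calc (z * n) * b' = z * (n * b') := by ring
        _ < z * (a' * p) := Nat.mul_lt_mul_of_pos_left h2 hz0
        _ = (z * a') * p := by ring
        _ ≤ ((z * a / b + 1) * b') * p := Nat.mul_le_mul_right _ hz
        _ = ((z * a / b + 1) * p) * b' := by ring
    exact lt_of_mul_lt_mul_right h4 (Nat.zero_le _)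

/-- the real floors agree with the table -/
theorem floor_table {C : List ℕ} {a b a' b' n p : ℕ} (hb : 0 < b)
    (hp : 0 < p) (h1 : a * p ≤ n * b) (h2 : n * b' < a' * p)
    (hC : ∀ z ∈ C, z * a' ≤ (z * a / b + 1) * b') (hC0 : ∀ z ∈ C, 0 < z)
    (hnd : ∀ z ∈ C, ¬ p ∣ z * n) {z : ℤ} (hz : z = 0 ∨ z.natAbs ∈ C) :
    z * n / p = fz a b z := by
  rcases hz with rfl | hz
  · simp [fz]
  · rcases z with m | m
    · have hm : m ∈ C := hz
      have := fz_eq hb h1 h2 (hC m hm) (hC0 m hm)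
      simp only [fz, Int.ofNat_eq_natCast]
      exact_mod_cast this
    · have hm : m + 1 ∈ C := hz
      have := fz_eq hb h1 h2 (hC _ hm) (hC0 _ hm)
      have hd := hnd _ hm
      simp only [fz]
      have hp' : (0 : ℤ) < p := by exact_mod_cast hp
      have e1 : (Int.negSucc m) * (n : ℤ) = -1 - (((m + 1) * n : ℕ) - 1 : ℤ) := by
        rw [Int.negSucc_eq]; push_cast; ring
      have hd' : ¬ (p : ℤ) ∣ (((m + 1) * n : ℕ) : ℤ) := by
        intro h; exact hd (by exact_mod_cast h)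
      rw [e1, neg_one_sub_ediv hp', ediv_pred hp' hd', ← this]
      push_cast
      ring

theorem length_ex (A : List (ℕ × ℕ)) : ((ex A).length : ℤ) = (A.map fun a => (a.2 : ℤ)).sum := by
  have := sum_ex A (fun _ => 1)
  simp only [mul_one, List.map_const', List.sum_replicate, nsmul_eq_mul] at this
  exact this

theorem mem_exm {A : List (ℕ × ℕ)} {a : ℕ} (h : a ∈ ex A) : a ∈ A.map Prod.fst := by
  unfold ex at h
  rw [List.mem_flatMap] at h
  obtain ⟨x, hx, hax⟩ := h
  rw [List.mem_replicate] at hax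
  exact List.mem_map.2 ⟨x, hx, hax.2.symm⟩

theorem mem_ex' {A : List (ℕ × ℕ)} {x : ℕ × ℕ} (h : x ∈ A) (h2 : 0 < x.2) : x.1 ∈ ex A := by
  unfold ex
  rw [List.mem_flatMap]
  exact ⟨x, h, List.mem_replicate.2 ⟨h2.ne', rfl⟩⟩

theorem Vcw_congr {D : Dat} {f g : ℤ → ℤ} (h : ∀ z ∈ D.need, f z = g z) {c : ℕ}
    (hc : c ∈ D.cand) : Vcw D.η D.A D.B f c = Vcw D.η D.A D.B g c := by
  have hA : ∀ a ∈ D.A, a.1 ∈ D.cand := fun a ha =>
    List.mem_append_left _ (List.mem_map.2 ⟨a, ha, rfl⟩)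
  have hB : ∀ a ∈ D.B, a.1 ∈ D.cand := fun a ha =>
    List.mem_append_right _ (List.mem_map.2 ⟨a, ha, rfl⟩)
  have h1 : ∀ x ∈ D.cand, f x = g x := fun x hx => h _ (by
    simp only [Dat.need, List.mem_append]
    exact Or.inl (Or.inl (Or.inl (Or.inl (Or.inl (Or.inl (Or.inr
      (List.mem_map.2 ⟨x, hx, rfl⟩))))))))
  have h2 : ∀ x ∈ D.cand, f ((D.η : ℤ) - x) = g ((D.η : ℤ) - x) := fun x hx => h _ (by
    simp only [Dat.need, List.mem_append]
    refine Or.inl (Or.inl (Or.inl (Or.inr (List.mem_map.2 ⟨x, hx, rfl⟩))))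
    )
  have h3 : ∀ x ∈ D.cand, f ((D.η : ℤ) - 2 * x) = g ((D.η : ℤ) - 2 * x) := fun x hx => h _ (by
    simp only [Dat.need, List.mem_append]
    refine Or.inl (Or.inl (Or.inr (List.mem_map.2 ⟨x, hx, rfl⟩)))
    )
  have h4 : ∀ x ∈ D.cand, ∀ y ∈ D.cand, f ((x : ℤ) - y) = g ((x : ℤ) - y) :=
    fun x hx y hy => h _ (by
    simp only [Dat.need, List.mem_append]
    refine Or.inl (Or.inr (List.mem_flatMap.2 ⟨x, hx, List.mem_map.2 ⟨y, hy, rfl⟩⟩))
    )
  have h5 : ∀ x ∈ D.cand, ∀ y ∈ D.cand, f ((D.η : ℤ) - x - y) = g ((D.η : ℤ) - x - y) :=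
    fun x hx y hy => h _ (by
    simp only [Dat.need, List.mem_append]
    refine Or.inr (List.mem_flatMap.2 ⟨x, hx, List.mem_map.2 ⟨y, hy, rfl⟩⟩)
    )
  unfold Vcw
  congr 2
  · apply List.map_congr_left
    intro a ha
    rw [h1 _ hc, h4 _ hc _ (hA a ha), h2 _ hc, h5 _ hc _ (hA a ha), h1 _ (hA a ha)]
  · apply List.map_congr_left
    intro b hb
    rw [h3 _ (hB b hb), h4 _ hc _ (hB b hb), h5 _ (hB b hb) _ hc]

theorem Vew_congr {D : Dat} {f g : ℤ → ℤ} (h : ∀ z ∈ D.need, f z = g z) :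
    Vew D.η D.A D.B f = Vew D.η D.A D.B g := by
  have hA : ∀ a ∈ D.A, a.1 ∈ D.cand := fun a ha =>
    List.mem_append_left _ (List.mem_map.2 ⟨a, ha, rfl⟩)
  have hB : ∀ a ∈ D.B, a.1 ∈ D.cand := fun a ha =>
    List.mem_append_right _ (List.mem_map.2 ⟨a, ha, rfl⟩)
  have h0 : f D.η = g D.η := h _ (by simp [Dat.need])
  have h1 : ∀ x ∈ D.cand, f x = g x := fun x hx => h _ (by
    simp only [Dat.need, List.mem_append]
    exact Or.inl (Or.inl (Or.inl (Or.inl (Or.inl (Or.inl (Or.inr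
      (List.mem_map.2 ⟨x, hx, rfl⟩))))))))
  have h2 : ∀ x ∈ D.cand, f ((D.η : ℤ) - x) = g ((D.η : ℤ) - x) := fun x hx => h _ (by
    simp only [Dat.need, List.mem_append]
    refine Or.inl (Or.inl (Or.inl (Or.inr (List.mem_map.2 ⟨x, hx, rfl⟩))))
    )
  have h3 : ∀ x ∈ D.cand, f ((D.η : ℤ) - 2 * x) = g ((D.η : ℤ) - 2 * x) := fun x hx => h _ (by
    simp only [Dat.need, List.mem_append]
    refine Or.inl (Or.inl (Or.inr (List.mem_map.2 ⟨x, hx, rfl⟩)))
    )
  unfold Vew
  congr 2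
  · apply List.map_congr_left
    intro a ha
    rw [h0, h2 _ (hA a ha), h1 _ (hA a ha)]
  · apply List.map_congr_left
    intro b hb
    rw [h3 _ (hB b hb), h2 _ (hB b hb), h1 _ (hB b hb)]

theorem altw_congr {D : Dat} {f g : ℤ → ℤ} (h : ∀ z ∈ D.need, f z = g z) :
    altw D.η D.A D.B f = altw D.η D.A D.B g := by
  have hA : ∀ a ∈ D.A, a.1 ∈ D.cand := fun a ha =>
    List.mem_append_left _ (List.mem_map.2 ⟨a, ha, rfl⟩)
  have hB : ∀ a ∈ D.B, a.1 ∈ D.cand := fun a ha =>
    List.mem_append_right _ (List.mem_map.2 ⟨a, ha, rfl⟩)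
  have h1 : ∀ x ∈ D.cand, f x = g x := fun x hx => h _ (by
    simp only [Dat.need, List.mem_append]
    exact Or.inl (Or.inl (Or.inl (Or.inl (Or.inl (Or.inl (Or.inr
      (List.mem_map.2 ⟨x, hx, rfl⟩))))))))
  have h3 : ∀ x ∈ D.cand, f ((D.η : ℤ) - 2 * x) = g ((D.η : ℤ) - 2 * x) := fun x hx => h _ (by
    simp only [Dat.need, List.mem_append]
    refine Or.inl (Or.inl (Or.inr (List.mem_map.2 ⟨x, hx, rfl⟩)))
    )
  unfold altw
  congr 1
  · congr 2
    apply List.map_congr_left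
    intro a ha
    rw [h1 _ (hA a ha)]
  · congr 1
    apply List.map_congr_left
    intro b hb
    rw [h3 _ (hB b hb)]

/-- primes that must be excluded -/
def Dat.Exc (D : Dat) (n p : ℕ) : Prop :=
  p ∣ D.η * n + 1 ∨ ∃ c ∈ D.cand, p ∣ (D.η - c) * n + 1

theorem Dat.expo_of_chkI (D : Dat) (hD : D.chk0 = true) {a b a' b' E n p : ℕ}
    (hI : D.chkI a b a' b' E = true) (hn : 0 < n) (hp : p.Prime) (h1 : a * p ≤ n * b)
    (h2 : n * b' < a' * p) (hnp : ¬ p ∣ n) (hη : D.η < p) (hex : ¬ D.Exc n p) :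
    Expo (D.fam.par n) (D.a0 * n) (D.b0 * n + 1) p E := by
  simp only [Dat.chk0, Bool.and_eq_true, List.all_eq_true, decide_eq_true_eq, Bool.or_eq_true,
    List.contains_iff_mem] at hD
  obtain ⟨⟨⟨⟨⟨⟨⟨⟨⟨hneed, hC⟩, hA0⟩, hB0⟩, ha0⟩, hb0⟩, hAm⟩, hBm⟩, hAb⟩, hBη⟩ := hD
  simp only [Dat.chkI, Bool.and_eq_true, Bool.or_eq_true, List.all_eq_true,
    decide_eq_true_eq] at hI
  obtain ⟨⟨⟨⟨⟨hb, hb'⟩, hfl⟩, hbig⟩, hbige⟩, hmid⟩ := hI
  have hp0 : (0 : ℤ) < p := by exact_mod_cast hp.pos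
  have hnd : ∀ z ∈ D.C, ¬ p ∣ z * n := by
    intro z hz h
    rcases (Nat.Prime.dvd_mul hp).1 h with h | h
    · exact absurd (Nat.le_of_dvd (hC z hz).1 h) (by have := (hC z hz).2; omega)
    · exact hnp h
  have htab : ∀ z ∈ D.need, z * (n : ℤ) / p = fz a b z := fun z hz =>
    floor_table hb hp.pos h1 h2 hfl (fun z hz => (hC z hz).1) hnd (hneed z hz)
  set f : ℤ → ℤ := fun z => z * (n : ℤ) / p with hf
  have htab' : ∀ z ∈ D.need, f z = fz a b z := htab
  -- cases of the residue classes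
  have hcA : ∀ x ∈ ex D.A, x ∈ D.cand := fun x hx => List.mem_append_left _ (mem_exm hx)
  have hcB : ∀ x ∈ ex D.B, x ∈ D.cand := fun x hx => List.mem_append_right _ (mem_exm hx)
  have hca0 : D.a0 ∈ D.cand := List.mem_append_left _ ha0
  have hcb0 : D.b0 ∈ D.cand := List.mem_append_right _ hb0
  have hcη : ∀ x ∈ D.cand, x ≤ D.η := by
    intro x hx
    rcases List.mem_append.1 hx with hx | hx
    · obtain ⟨y, hy, rfl⟩ := List.mem_map.1 hx
      have := hAb y hy
      obtain ⟨z, hz, hz'⟩ := List.mem_map.1 hb0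
      have := hBη z hz
      omega
    · obtain ⟨y, hy, rfl⟩ := List.mem_map.1 hx
      have := hBη y hy; omega
  have hClass : ∀ K : ℤ, Cl D.η (ex D.A) (ex D.B) n p K →
      (∃ c ∈ D.cand, ∃ m : ℤ, K = c * n + m * p ∧
        ph D.η (ex D.A) (ex D.B) n p K = Vcw D.η D.A D.B (fz a b) c) ∨
      (∃ m : ℤ, K = D.η * n + 1 - m * p ∧
        ph D.η (ex D.A) (ex D.B) n p K = Vew D.η D.A D.B (fz a b)) := by
    intro K hK
    have key : ∀ c ∈ D.cand, (p : ℤ) ∣ K - (c : ℤ) * n → (∃ c ∈ D.cand, ∃ m : ℤ,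
        K = c * n + m * p ∧ ph D.η (ex D.A) (ex D.B) n p K = Vcw D.η D.A D.B (fz a b) c) := by
      intro c hc hd
      obtain ⟨m, hm⟩ := hd
      refine ⟨c, hc, m, by linarith, ?_⟩
      rw [show K = c * n + m * p by linarith, ph_class hp0, Vc_ex, Vcw_congr htab' hc]
    rcases hK with ⟨c, hc, hd⟩ | ⟨c, hc, hd⟩ | hd
    · exact Or.inl (key c (hcA c hc) hd)
    · exact Or.inl (key c (hcB c hc) hd)
    · right
      obtain ⟨m, hm⟩ := hd
      refine ⟨m, by linarith, ?_⟩
      have hexc : ∀ c ∈ D.cand, ¬ (p : ℤ) ∣ ((D.η : ℤ) - (c : ℤ)) * n + 1 := by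
        intro c hc h
        apply hex
        right
        refine ⟨c, hc, ?_⟩
        have : (((D.η - c) * n + 1 : ℕ) : ℤ) = ((D.η : ℤ) - (c : ℤ)) * n + 1 := by
          push_cast [Nat.cast_sub (hcη c hc)]; ring
        rw [← this] at h
        exact_mod_cast h
      have h0 : ¬ (p : ℤ) ∣ (D.η : ℤ) * n + 1 := by
        intro h; apply hex; left; exact_mod_cast h
      rw [show K = D.η * n + 1 - m * p by linarith, ph_eta hp0 m h0
        (fun x hx => hexc x (hcA x hx)) (fun x hx => hexc x (hcB x hx)), Ve_ex, Vew_congr htab']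
  have hr : (((D.fam.par n).r : ℕ) : ℤ) = (D.A.map fun b => (b.2 : ℤ)).sum := length_ex D.A
  have hs : (((D.fam.par n).s : ℕ) : ℤ) = (D.B.map fun b => (b.2 : ℤ)).sum := length_ex D.B
  have hh : (((D.fam.par n).h : ℕ) : ℤ) = D.η * n + 2 := by
    simp [Dat.fam, famOf, Fam.par]
  have hphi : ∀ k : ℤ, phi (D.fam.par n) p k = ph D.η (ex D.A) (ex D.B) n p (k - 1) := by
    intro k
    rw [← phi_eq, sub_add_cancel]; rfl
  have hne : ∀ z ∈ D.need, ∀ m : ℤ, m * p ≤ z * n → m ≤ fz a b z := by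
    intro z hz m h
    rw [← htab z hz]
    exact Int.le_ediv_of_mul_le hp0 h
  have mem1 : ∀ c ∈ D.cand, (c : ℤ) - D.a0 ∈ D.need := fun c hc => by
    simp only [Dat.need, List.mem_append]
    exact Or.inl (Or.inl (Or.inl (Or.inl (Or.inl (Or.inr (List.mem_map.2 ⟨c, hc, rfl⟩))))))
  have mem2 : ∀ c ∈ D.cand, (D.η : ℤ) - D.b0 - c ∈ D.need := fun c hc => by
    simp only [Dat.need, List.mem_append]
    exact Or.inl (Or.inl (Or.inl (Or.inl (Or.inr (List.mem_map.2 ⟨c, hc, rfl⟩)))))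
  have mem3 : (D.η : ℤ) - D.a0 ∈ D.need := by simp [Dat.need]
  have mem4 : (D.η : ℤ) - 2 * D.a0 ∈ D.need := by simp [Dat.need]
  have mem5 : (D.b0 : ℤ) ∈ D.need := by
    simp only [Dat.need, List.mem_append]
    exact Or.inl (Or.inl (Or.inl (Or.inl (Or.inl (Or.inl (Or.inr
      (List.mem_map.2 ⟨D.b0, hcb0, rfl⟩)))))))
  have ha0A : D.a0 ∈ ex D.A := by
    obtain ⟨y, hy, hy'⟩ := List.mem_map.1 ha0
    rw [← hy']; exact mem_ex' hy (hAm y hy)
  constructor
  · intro k hk1 hk2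
    rw [hh] at hk2
    rw [hr, hs, hphi]
    push_cast at hk1 hk2
    have hL : Cl D.η (ex D.A) (ex D.B) n p ((D.a0 : ℤ) * n + p) :=
      Or.inl ⟨D.a0, ha0A, ⟨1, by ring⟩⟩
    obtain ⟨K', hK1, hK2, hK3, hK4⟩ := ph_descent' hp0 (K := k - 1) hL (by linarith)
    rcases hClass K' hK3 with ⟨c, hc, m, hm, hv⟩ | ⟨m, hm, hv⟩
    · have e1 : 1 - m ≤ fz a b ((c : ℤ) - D.a0) :=
        hne _ (mem1 c hc) _ (by rw [hm] at hK1; linarith)
      have e2 : m ≤ fz a b ((D.η : ℤ) - D.b0 - c) :=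
        hne _ (mem2 c hc) _ (by rw [hm] at hK2; linarith)
      rcases hbig c hc with h | h
      · exfalso; linarith
      · linarith
    · rcases hbige with h | h
      · exfalso
        have e1 : m + 1 ≤ fz a b ((D.η : ℤ) - D.a0) := by
          rw [← htab _ mem3]
          have hexc : ¬ (p : ℤ) ∣ ((D.η : ℤ) - (D.a0 : ℤ)) * n + 1 := by
            intro h
            apply hex
            right
            refine ⟨D.a0, hca0, ?_⟩
            have : (((D.η - D.a0) * n + 1 : ℕ) : ℤ) = ((D.η : ℤ) - (D.a0 : ℤ)) * n + 1 := by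
              push_cast [Nat.cast_sub (hcη _ hca0)]; ring
            rw [← this] at h
            exact_mod_cast h
          rw [← succ_ediv hp0 hexc]
          apply Int.le_ediv_of_mul_le hp0
          rw [hm] at hK1; linarith
        have e2 : fz a b (D.b0 : ℤ) < m := by
          rw [← htab _ mem5]
          apply Int.ediv_lt_of_lt_mul hp0
          rw [hm] at hK2; linarith
        linarith
      · linarith
  · intro k hk1 hk2 hk3 hk4
    rw [hh] at hk2 hk4
    push_cast at hk1 hk2 hk3 hk4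
    have hnomid : ¬ (2 ≤ fz a b ((D.η : ℤ) - 2 * D.a0)) := by
      intro h
      rw [← htab _ mem4] at h
      have := Int.mul_le_of_le_ediv hp0 h
      linarith
    have hsumA : (∑ j, (((D.fam.par n).a j : ℕ) : ℤ) / p) = (D.A.map fun a => (a.2 : ℤ) * f a.1).sum := by
      have e := Fin.sum_univ_fun_getElem (ex D.A) (fun x : ℕ => f x)
      rw [← sum_ex D.A (fun x => f x), ← e]
      apply Finset.sum_congr rfl
      intro j _
      simp only [Dat.fam, famOf, Fam.par, hf]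
      push_cast; rfl
    have hsumB : (∑ i, ((((D.fam.par n).h : ℕ) : ℤ) - 2 * ((D.fam.par n).b i : ℕ)) / p) =
        (D.B.map fun b => (b.2 : ℤ) * f ((D.η : ℤ) - 2 * b.1)).sum := by
      have e := Fin.sum_univ_fun_getElem (ex D.B) (fun x : ℕ => f ((D.η : ℤ) - 2 * x))
      rw [← sum_ex D.B (fun x => f ((D.η : ℤ) - 2 * x)), ← e]
      apply Finset.sum_congr rfl
      intro j _
      simp only [Dat.fam, famOf, Fam.par, hf]
      push_cast
      congr 1; ring
    rcases hmid with (h | h) | ⟨h, h'⟩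
    · exact absurd h hnomid
    · right
      rw [hsumA, hsumB]
      have := altw_congr htab'
      unfold altw at this h
      rw [this]; exact h
    · left
      rw [hs, hphi]
      have hL : Cl D.η (ex D.A) (ex D.B) n p
          ((D.a0 : ℤ) * n + (-((D.a0 : ℤ) * n + |k|)) * p) :=
        Or.inl ⟨D.a0, ha0A, ⟨-((D.a0 : ℤ) * n + |k|), by ring⟩⟩
      have hLk : (D.a0 : ℤ) * n + (-((D.a0 : ℤ) * n + |k|)) * p ≤ k - 1 := by
        have h5 : (0 : ℤ) ≤ (D.a0 : ℤ) * n := by positivity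
        have h6 : (2 : ℤ) ≤ p := by exact_mod_cast hp.two_le
        have h7 : -|k| ≤ k := neg_abs_le k
        have h8 : (0 : ℤ) ≤ |k| := abs_nonneg k
        have h9 : ((D.a0 : ℤ) * n + |k|) * 2 ≤ ((D.a0 : ℤ) * n + |k|) * p :=
          mul_le_mul_of_nonneg_left h6 (by linarith)
        have hk0 : 1 ≤ k := by
          have : (0:ℤ) ≤ (D.b0 : ℤ) * n := by positivity
          linarith
        have hk0' : |k| = k := abs_of_nonneg (by linarith)
        rw [hk0'] at h9 ⊢
        linarith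
      obtain ⟨K', hK1, hK2, hK3, hK4⟩ := ph_descent' hp0 (K := k - 1) hL hLk
      rcases hClass K' hK3 with ⟨c, hc, m, hm, hv⟩ | ⟨m, hm, hv⟩
      · have := h c hc
        linarith
      · linarith

end ZetaSets
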