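import Pool.Agent.Work.MP_4f096c_nt.Sweep
import Pool.Agent.Work.MP_4f096c_nt.SweepD
import Pool.Agent.Work.MP_4f096c_nt.Defs

/-!
Exponent certificates: the one dimensional reduction, step functions, exponents.
-/

section

/-!
Exponent certificates for families with shifted numerator blocks: the one dimensional reduction
and its checker on one interval of `x = n / p`.
-/

namespace ZetaCert

/-- the valuation bound at `K = k - 1`, homogeneous form; `A` = list of `(a_j, g_j)`,
`B` = list of `b_i` -/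
def ph (η : ℤ) (A : List (ℕ × ℕ)) (B : List ℕ) (n p K : ℤ) : ℤ :=
  (A.map fun e : ℕ × ℕ => ((K + e.2 * n) / p - (K - e.1 * n) / p - ((e.1 + e.2) * n) / p) +
      ((η * n - K + e.2 * n) / p - (η * n - K - e.1 * n) / p - ((e.1 + e.2) * n) / p)).sum +
    (B.map fun b : ℕ => ((η - 2 * b) * n) / p - (K - b * n) / p - ((η - b) * n - K) / p).sum

/-- residue classes where `ph` can jump down -/
def Cl (η : ℤ) (A : List (ℕ × ℕ)) (B : List ℕ) (n p K : ℤ) : Prop :=
  (∃ e ∈ A, p ∣ K - (e.1 : ℤ) * n) ∨ (∃ b ∈ B, p ∣ K - (b : ℤ) * n) ∨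
    ∃ e ∈ A, p ∣ (η + (e.2 : ℤ)) * n + 1 - K

theorem ediv_pred {p x : ℤ} (hp : 0 < p) (h : ¬ p ∣ x) : (x - 1) / p = x / p := by
  have h1 : 0 < x % p := by
    rcases (Int.emod_nonneg x hp.ne').lt_or_eq with h2 | h2
    · exact h2
    · exact absurd (Int.dvd_of_emod_eq_zero h2.symm) h
  have h2 := Int.emod_add_mul_ediv x p
  have h3 := Int.emod_lt_of_pos x hp
  rw [show x - 1 = (x % p - 1) + p * (x / p) by linarith, Int.add_mul_ediv_left _ _ hp.ne',
    Int.ediv_eq_zero_of_lt (by omega) (by omega), zero_add]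

theorem neg_one_sub_ediv {p : ℤ} (hp : 0 < p) (x : ℤ) : (-1 - x) / p = -(x / p) - 1 := by
  have h2 := Int.emod_add_mul_ediv x p
  have h3 := Int.emod_lt_of_pos x hp
  have h1 := Int.emod_nonneg x hp.ne'
  rw [show -1 - x = (p - 1 - x % p) + p * (-(x / p) - 1) by linarith [h2],
    Int.add_mul_ediv_left _ _ hp.ne', Int.ediv_eq_zero_of_lt (by omega) (by omega), zero_add]

theorem succ_ediv {p x : ℤ} (hp : 0 < p) (h : ¬ p ∣ x + 1) : (x + 1) / p = x / p := by
  have := ediv_pred hp h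
  rw [← this]; congr 1; ring

theorem ph_step {η : ℤ} {A : List (ℕ × ℕ)} {B : List ℕ} {n p K : ℤ} (hp : 0 < p)
    (h : ¬ Cl η A B n p K) : ph η A B n p (K - 1) ≤ ph η A B n p K := by
  unfold Cl at h
  push Not at h
  obtain ⟨hA, hB, hη⟩ := h
  unfold ph
  apply add_le_add
  · apply List.sum_le_sum
    intro e he
    have h1 : (K - 1 + e.2 * n) / p ≤ (K + e.2 * n) / p := Int.ediv_le_ediv hp (by linarith)
    have h2 : (K - 1 - e.1 * n) / p = (K - e.1 * n) / p := by
      rw [show K - 1 - (e.1 : ℤ) * n = (K - e.1 * n) - 1 by ring]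
      exact ediv_pred hp (hA e he)
    have h3 : (η * n - (K - 1) + e.2 * n) / p = (η * n - K + e.2 * n) / p := by
      rw [show η * n - K + e.2 * n = ((η + (e.2 : ℤ)) * n + 1 - K) - 1 by ring,
        ediv_pred hp (hη e he)]
      congr 1; ring
    have h4 : (η * n - K - e.1 * n) / p ≤ (η * n - (K - 1) - e.1 * n) / p :=
      Int.ediv_le_ediv hp (by linarith)
    linarith
  · apply List.sum_le_sum
    intro b hb
    have h2 : (K - 1 - b * n) / p = (K - b * n) / p := by
      rw [show K - 1 - (b : ℤ) * n = (K - b * n) - 1 by ring]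
      exact ediv_pred hp (hB b hb)
    have h4 : ((η - b) * n - K) / p ≤ ((η - b) * n - (K - 1)) / p :=
      Int.ediv_le_ediv hp (by linarith)
    linarith

theorem ph_descent {η : ℤ} {A : List (ℕ × ℕ)} {B : List ℕ} {n p : ℤ} (hp : 0 < p) (L : ℤ)
    (hL : Cl η A B n p L) (m : ℕ) : ∃ K', L ≤ K' ∧ K' ≤ L + m ∧ Cl η A B n p K' ∧
      ph η A B n p K' ≤ ph η A B n p (L + m) := by
  induction m with
  | zero => exact ⟨L, le_refl _, by simp, hL, by simp⟩
  | succ m ih =>
    by_cases h : Cl η A B n p (L + (m + 1 : ℕ))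
    · exact ⟨_, by push_cast; omega, le_refl _, h, le_refl _⟩
    · obtain ⟨K', h1, h2, h3, h4⟩ := ih
      refine ⟨K', h1, by push_cast; omega, h3, h4.trans ?_⟩
      have := ph_step hp h
      rwa [show L + ((m + 1 : ℕ) : ℤ) - 1 = L + m by push_cast; ring] at this

theorem ph_descent' {η : ℤ} {A : List (ℕ × ℕ)} {B : List ℕ} {n p : ℤ} (hp : 0 < p) {L K : ℤ}
    (hL : Cl η A B n p L) (hLK : L ≤ K) : ∃ K', L ≤ K' ∧ K' ≤ K ∧ Cl η A B n p K' ∧
      ph η A B n p K' ≤ ph η A B n p K := by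
  obtain ⟨m, rfl⟩ := Int.le.dest hLK
  exact ph_descent hp L hL m

/-! ### Values at the classes, as lists of terms `(coefficient, multiplier)` -/

/-- evaluate a list of terms -/
def ev (f : ℤ → ℤ) (l : List (ℤ × ℤ)) : ℤ := (l.map fun e => e.1 * f e.2).sum

theorem ev_append (f : ℤ → ℤ) (l l' : List (ℤ × ℤ)) : ev f (l ++ l') = ev f l + ev f l' := by
  unfold ev; rw [List.map_append, List.sum_append]

theorem ev_cons (f : ℤ → ℤ) (e : ℤ × ℤ) (l : List (ℤ × ℤ)) :
    ev f (e :: l) = e.1 * f e.2 + ev f l := by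
  unfold ev; rw [List.map_cons, List.sum_cons]

theorem ev_nil (f : ℤ → ℤ) : ev f [] = 0 := rfl

theorem ev_flatMap {α : Type} (f : ℤ → ℤ) (g : α → List (ℤ × ℤ)) (l : List α) :
    ev f (l.flatMap g) = (l.map fun a => ev f (g a)).sum := by
  induction l with
  | nil => rfl
  | cons a l ih => rw [List.flatMap_cons, ev_append, ih, List.map_cons, List.sum_cons]

theorem ph_class {η : ℤ} {A : List (ℕ × ℕ)} {B : List ℕ} {n p : ℤ} (hp : 0 < p) (c m : ℤ) :
    ph η A B n p (c * n + m * p) = ev (fun z => z * n / p) (tc η A B c) := by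
  unfold ph tc
  rw [ev_append, ev_flatMap, ev_flatMap]
  have key : ∀ x y : ℤ, (x + y * p) / p = x / p + y := fun x y => Int.add_mul_ediv_right x y hp.ne'
  congr 2
  · apply List.map_congr_left
    intro e _
    simp only [ev_cons, ev_nil]
    rw [show c * n + m * p + e.2 * n = (c + e.2) * n + m * p by ring, key,
      show c * n + m * p - e.1 * n = (c - e.1) * n + m * p by ring, key,
      show η * n - (c * n + m * p) + e.2 * n = (η - c + e.2) * n + (-m) * p by ring, key,
      show η * n - (c * n + m * p) - e.1 * n = (η - c - e.1) * n + (-m) * p by ring, key]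
    ring
  · apply List.map_congr_left
    intro b _
    simp only [ev_cons, ev_nil]
    rw [show c * n + m * p - b * n = (c - b) * n + m * p by ring, key,
      show (η - b) * n - (c * n + m * p) = (η - b - c) * n + (-m) * p by ring, key]
    ring

theorem ph_eta {η : ℤ} {A : List (ℕ × ℕ)} {B : List ℕ} {n p h : ℤ} (hp : 0 < p) (m : ℤ)
    (hg : ∀ e ∈ A, ¬ p ∣ (η + (e.2 : ℤ) + h) * n + 1)
    (hA : ∀ e ∈ A, ¬ p ∣ (η + h - (e.1 : ℤ)) * n + 1)
    (hB : ∀ b ∈ B, ¬ p ∣ (η + h - (b : ℤ)) * n + 1)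
    (hz : ∀ e ∈ A, (e.2 : ℤ) ≠ h → ¬ p ∣ ((e.2 : ℤ) - h) * n) :
    ph η A B n p ((η + h) * n + 1 - m * p) =
      ev (fun z => z * n / p) (te η A B h) + ke A B h := by
  unfold ph te ke
  rw [ev_append, ev_flatMap, ev_flatMap]
  have key : ∀ x y : ℤ, (x + y * p) / p = x / p + y := fun x y => Int.add_mul_ediv_right x y hp.ne'
  have e1 : ((A.map fun e : ℕ × ℕ => (((η + h) * n + 1 - m * p + e.2 * n) / p -
      ((η + h) * n + 1 - m * p - e.1 * n) / p - ((e.1 + e.2) * n) / p) +
      ((η * n - ((η + h) * n + 1 - m * p) + e.2 * n) / p -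
        (η * n - ((η + h) * n + 1 - m * p) - e.1 * n) / p - ((e.1 + e.2) * n) / p)).sum) =
      (A.map fun e : ℕ × ℕ => ev (fun z => z * n / p) [(1, η + e.2 + h), (-1, η + h - e.1),
        (1, (e.2 : ℤ) - h), (1, h + e.1), (-2, (e.1 : ℤ) + e.2)]).sum +
      (A.map fun e : ℕ × ℕ => if (e.2 : ℤ) = h then (0 : ℤ) else 1).sum := by
    rw [← List.sum_map_add]
    congr 1
    apply List.map_congr_left
    intro e he
    simp only [ev_cons, ev_nil]
    have h4 : (((e.2 : ℤ) - h) * n - 1) / p =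
        ((e.2 : ℤ) - h) * n / p - (if (e.2 : ℤ) = h then (1 : ℤ) else 0) := by
      by_cases h5 : (e.2 : ℤ) = h
      · rw [if_pos h5, h5]
        have h6 := neg_one_sub_ediv hp 0
        simp only [sub_self, zero_mul, Int.zero_ediv, sub_zero, neg_zero, zero_sub] at h6 ⊢
        exact h6
      · rw [if_neg h5, ediv_pred hp (hz e he h5), sub_zero]
    rw [show (η + h) * n + 1 - m * p + e.2 * n = ((η + e.2 + h) * n + 1) + (-m) * p by ring, key,
      succ_ediv hp (hg e he),
      show (η + h) * n + 1 - m * p - e.1 * n = ((η + h - e.1) * n + 1) + (-m) * p by ring, key,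
      succ_ediv hp (hA e he),
      show η * n - ((η + h) * n + 1 - m * p) + e.2 * n = (((e.2 : ℤ) - h) * n - 1) + m * p by ring,
      key, h4,
      show η * n - ((η + h) * n + 1 - m * p) - e.1 * n = (-1 - (h + e.1) * n) + m * p by ring,
      key, neg_one_sub_ediv hp]
    split_ifs <;> ring
  have e2 : (B.map fun b : ℕ => ((η - 2 * b) * n) / p - ((η + h) * n + 1 - m * p - b * n) / p -
      ((η - b) * n - ((η + h) * n + 1 - m * p)) / p).sum =
      (B.map fun b : ℕ => ev (fun z => z * n / p) [(1, η - 2 * b), (-1, η + h - b),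
        (1, h + b)]).sum + B.length := by
    have e3 : (B.length : ℤ) = (B.map fun _ : ℕ => (1 : ℤ)).sum := by simp
    rw [e3, ← List.sum_map_add]
    congr 1
    apply List.map_congr_left
    intro b hb
    simp only [ev_cons, ev_nil]
    rw [show (η + h) * n + 1 - m * p - b * n = ((η + h - b) * n + 1) + (-m) * p by ring, key,
      succ_ediv hp (hB b hb),
      show (η - b) * n - ((η + h) * n + 1 - m * p) = (-1 - (h + b) * n) + m * p by ring, key,
      neg_one_sub_ediv hp]
    ring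
  rw [e1, e2]
  ring

/-! ### The data of a family and one interval -/

/-- floor of `z * (a / b)`, generic convention for negative `z` -/
def fz (a b : ℕ) : ℤ → ℤ
  | Int.ofNat m => ((m * a / b : ℕ) : ℤ)
  | Int.negSucc m => -(((m + 1) * a / b : ℕ) : ℤ) - 1

/-- standing assumptions -/
structure Dat.Ok (D : Dat) : Prop where
  a0mem : ∃ e ∈ D.A, e.1 = D.a0
  a0le : ∀ e ∈ D.A, D.a0 ≤ e.1
  b0mem : D.b0 ∈ D.B
  b0le : ∀ b ∈ D.B, D.b0 ≤ b
  ab : D.a0 ≤ D.b0
  hA : ∀ e ∈ D.A, 2 * e.1 ≤ D.η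
  hB : ∀ b ∈ D.B, 2 * b ≤ D.η
  hN : ∀ e ∈ D.A, D.η + 2 * e.2 ≤ D.N

/-- the value of the alternative bound -/
def Dat.alt (D : Dat) (f : ℤ → ℤ) : ℤ :=
  2 * (D.A.map fun e : ℕ × ℕ => f ((e.1 : ℤ) + e.2)).sum -
    (D.B.map fun b : ℕ => f ((D.η : ℤ) - 2 * b)).sum

/-- a good interval `a / b ≤ x < a' / b'` with exponent `E` -/
structure Dat.Iv (D : Dat) (a b a' b' E : ℕ) : Prop where
  hb : 0 < b
  hb' : 0 < b'
  fl : ∀ z ≤ D.N, z * a' ≤ (z * a / b + 1) * b'
  bigA : ∀ e ∈ D.A, fz a b ((e.1 : ℤ) - D.a0) + fz a b ((D.η : ℤ) - D.b0 - e.1) < 1 ∨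
    (D.A.length : ℤ) + D.B.length - 1 - ev (fz a b) (tc D.η D.A D.B e.1) ≤ E
  bigB : ∀ c ∈ D.B, fz a b ((c : ℤ) - D.a0) + fz a b ((D.η : ℤ) - D.b0 - c) < 1 ∨
    (D.A.length : ℤ) + D.B.length - 1 - ev (fz a b) (tc D.η D.A D.B c) ≤ E
  bigE : ∀ e ∈ D.A, fz a b ((D.η : ℤ) + e.2 - D.a0) < fz a b ((D.b0 : ℤ) + e.2) + 2 ∨
    (D.A.length : ℤ) + D.B.length - 1 - (ev (fz a b) (te D.η D.A D.B e.2) + ke D.A D.B e.2) ≤ E
  mid : 2 ≤ fz a b ((D.η : ℤ) - 2 * D.a0) ∨ D.alt (fz a b) ≤ E

theorem fz_eq {a b a' b' n p : ℕ} (hb : 0 < b)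
    (h1 : a * p ≤ n * b) (h2 : n * b' < a' * p) {z : ℕ} (hz : z * a' ≤ (z * a / b + 1) * b')
    (hz0 : 0 < z) : z * n / p = z * a / b := by
  apply Nat.div_eq_of_lt_le
  · have h3 : z * a / b * b ≤ z * a := Nat.div_mul_le_self _ _
    have h4 : (z * a / b * p) * b ≤ (z * n) * b := by
      calc (z * a / b * p) * b = (z * a / b * b) * p := by ring
        _ ≤ (z * a) * p := Nat.mul_le_mul_right _ h3
        _ = z * (a * p) := by ring
        _ ≤ z * (n * b) := Nat.mul_le_mul_left _ h1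
        _ = (z * n) * b := by ring
    exact Nat.le_of_mul_le_mul_right h4 hb
  · have h4 : (z * n) * b' < ((z * a / b + 1) * p) * b' := by
      calc (z * n) * b' = z * (n * b') := by ring
        _ < z * (a' * p) := Nat.mul_lt_mul_of_pos_left h2 hz0
        _ = (z * a') * p := by ring
        _ ≤ ((z * a / b + 1) * b') * p := Nat.mul_le_mul_right _ hz
        _ = ((z * a / b + 1) * p) * b' := by ring
    exact Nat.lt_of_mul_lt_mul_right h4

/-- the floors on an interval -/
theorem floor_tab {D : Dat} {a b a' b' E n p : ℕ} (hI : D.Iv a b a' b' E)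
    (hp : p.Prime) (h1 : a * p ≤ n * b) (h2 : n * b' < a' * p) (hpn : ¬ p ∣ n) (hN : D.N < p)
    {z : ℤ} (hz : z.natAbs ≤ D.N) : z * (n : ℤ) / p = fz a b z := by
  have hp0 : (0 : ℤ) < p := by exact_mod_cast hp.pos
  have key : ∀ m : ℕ, m ≤ D.N → 0 < m → m * n / p = m * a / b := fun m hm hm0 =>
    fz_eq hI.hb h1 h2 (hI.fl m hm) hm0
  cases z with
  | ofNat m =>
    show (m : ℤ) * n / p = ((m * a / b : ℕ) : ℤ)
    have hm : m ≤ D.N := hz
    rcases Nat.eq_zero_or_pos m with h | h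
    · subst h; simp
    · rw [← key m hm h]; push_cast; rfl
  | negSucc m =>
    show (Int.negSucc m) * (n : ℤ) / p = -(((m + 1) * a / b : ℕ) : ℤ) - 1
    have hm : m + 1 ≤ D.N := hz
    rw [← key (m + 1) hm (Nat.succ_pos m)]
    have hnd : ¬ (p : ℤ) ∣ -(((m + 1 : ℕ) : ℤ) * n) := by
      rw [dvd_neg]
      intro h
      have h3 : p ∣ (m + 1) * n := by exact_mod_cast h
      rcases (Nat.Prime.dvd_mul hp).1 h3 with h4 | h4
      · exact absurd (Nat.le_of_dvd (Nat.succ_pos m) h4) (by omega)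
      · exact hpn h4
    have h3 := neg_one_sub_ediv hp0 (((m + 1 : ℕ) : ℤ) * n)
    rw [show (-1 - ((m + 1 : ℕ) : ℤ) * n) = -(((m + 1 : ℕ) : ℤ) * n) - 1 by ring,
      ediv_pred hp0 hnd] at h3
    rw [Int.negSucc_eq, show (-((m : ℤ) + 1)) * n = -(((m + 1 : ℕ) : ℤ) * n) by push_cast; ring, h3]
    push_cast; rfl

theorem ev_congr {f g : ℤ → ℤ} {l : List (ℤ × ℤ)} (h : ∀ e ∈ l, f e.2 = g e.2) :
    ev f l = ev g l := by
  unfold ev
  congr 1
  apply List.map_congr_left
  intro e he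
  rw [h e he]

theorem Dat.Ok.tc_le {D : Dat} (hD : D.Ok) {c : ℕ} (hc : 2 * c ≤ D.η) :
    ∀ t ∈ tc D.η D.A D.B c, t.2.natAbs ≤ D.N := by
  have hNη : D.η ≤ D.N := by
    obtain ⟨e, he, _⟩ := hD.a0mem
    have := hD.hN e he; omega
  intro t ht
  unfold tc at ht
  rcases List.mem_append.1 ht with ht | ht
  · obtain ⟨e, he, ht⟩ := List.mem_flatMap.1 ht
    have h1 := hD.hA e he
    have h2 := hD.hN e he
    simp only [List.mem_cons, List.not_mem_nil, or_false] at ht
    rcases ht with rfl | rfl | rfl | rfl | rfl <;> simp only <;> omega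
  · obtain ⟨b, hb, ht⟩ := List.mem_flatMap.1 ht
    have h1 := hD.hB b hb
    simp only [List.mem_cons, List.not_mem_nil, or_false] at ht
    rcases ht with rfl | rfl | rfl <;> simp only <;> omega

theorem Dat.Ok.te_le {D : Dat} (hD : D.Ok) {e' : ℕ × ℕ} (he' : e' ∈ D.A) :
    ∀ t ∈ te D.η D.A D.B e'.2, t.2.natAbs ≤ D.N := by
  have h0 := hD.hN e' he'
  intro t ht
  unfold te at ht
  rcases List.mem_append.1 ht with ht | ht
  · obtain ⟨e, he, ht⟩ := List.mem_flatMap.1 ht
    have h1 := hD.hA e he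
    have h2 := hD.hN e he
    simp only [List.mem_cons, List.not_mem_nil, or_false] at ht
    rcases ht with rfl | rfl | rfl | rfl | rfl <;> simp only <;> omega
  · obtain ⟨b, hb, ht⟩ := List.mem_flatMap.1 ht
    have h1 := hD.hB b hb
    simp only [List.mem_cons, List.not_mem_nil, or_false] at ht
    rcases ht with rfl | rfl | rfl <;> simp only <;> omega

/-- soundness of an interval -/
theorem Dat.Iv.sound {D : Dat} (hD : D.Ok) {a b a' b' E n p : ℕ} (hI : D.Iv a b a' b' E)
    (hp : p.Prime) (h1 : a * p ≤ n * b) (h2 : n * b' < a' * p) (hpn : ¬ p ∣ n) (hN : D.N < p)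
    (hex : ∀ z ≤ D.N, ¬ p ∣ z * n + 1) :
    (∀ K : ℤ, (p : ℤ) + D.a0 * n ≤ K → K ≤ ((D.η : ℤ) - D.b0) * n →
      (D.A.length : ℤ) + D.B.length - 1 - ph D.η D.A D.B n p K ≤ E) ∧
    (∀ K : ℤ, K < (p : ℤ) + D.a0 * n → (D.η : ℤ) * n - K < (p : ℤ) + D.a0 * n →
      2 * (D.A.map fun e : ℕ × ℕ => ((e.1 : ℤ) + e.2) * n / p).sum -
        (D.B.map fun b : ℕ => ((D.η : ℤ) - 2 * b) * n / p).sum ≤ E) := by
  have hp0 : (0 : ℤ) < p := by exact_mod_cast hp.pos
  set f : ℤ → ℤ := fun z => z * (n : ℤ) / p with hf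
  have htab : ∀ z : ℤ, z.natAbs ≤ D.N → f z = fz a b z := fun z hz =>
    floor_tab hI hp h1 h2 hpn hN hz
  have hNη : D.η ≤ D.N := by
    obtain ⟨e, he, _⟩ := hD.a0mem
    have := hD.hN e he; omega
  have ha0η : 2 * D.a0 ≤ D.η := by
    obtain ⟨e, he, h⟩ := hD.a0mem
    have := hD.hA e he; omega
  have hb0η : 2 * D.b0 ≤ D.η := hD.hB _ hD.b0mem
  have hexz : ∀ z : ℤ, 0 ≤ z → z.natAbs ≤ D.N → ¬ (p : ℤ) ∣ z * n + 1 := by
    intro z hz hz' h
    apply hex z.natAbs hz'
    have : ((z.natAbs : ℕ) : ℤ) = z := Int.natAbs_of_nonneg hz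
    have h3 : (((z.natAbs * n + 1 : ℕ)) : ℤ) = z * n + 1 := by push_cast; rw [← this]; simp
    rw [← h3] at h
    exact_mod_cast h
  have hne : ∀ z : ℤ, z.natAbs ≤ D.N → ∀ m : ℤ, m * p ≤ z * n → m ≤ fz a b z := by
    intro z hz m h
    rw [← htab z hz]
    exact Int.le_ediv_of_mul_le hp0 h
  constructor
  · intro K hK1 hK2
    have hL : Cl D.η D.A D.B n p ((p : ℤ) + D.a0 * n) := by
      obtain ⟨e, he, h⟩ := hD.a0mem
      exact Or.inl ⟨e, he, ⟨1, by rw [h]; ring⟩⟩
    obtain ⟨K', hK1', hK2', hK3, hK4⟩ := ph_descent' hp0 hL hK1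
    -- the two kinds of classes
    have keyc : ∀ c : ℕ, 2 * c ≤ D.η → (fz a b ((c : ℤ) - D.a0) + fz a b ((D.η : ℤ) - D.b0 - c) < 1 ∨
        (D.A.length : ℤ) + D.B.length - 1 - ev (fz a b) (tc D.η D.A D.B c) ≤ E) →
        (p : ℤ) ∣ K' - (c : ℤ) * n →
        (D.A.length : ℤ) + D.B.length - 1 - ph D.η D.A D.B n p K' ≤ E := by
      intro c hc hcE hd
      obtain ⟨m, hm⟩ := hd
      have hK' : K' = c * n + m * p := by linarith
      have e1 : 1 - m ≤ fz a b ((c : ℤ) - D.a0) := by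
        apply hne _ (by omega)
        rw [hK'] at hK1'; linarith
      have e2 : m ≤ fz a b ((D.η : ℤ) - D.b0 - c) := by
        apply hne _ (by omega)
        rw [hK'] at hK2'; linarith
      rcases hcE with h | h
      · exfalso; linarith
      · rw [hK', ph_class hp0, ev_congr (g := fz a b) fun t ht => htab _ (hD.tc_le hc t ht)]
        exact h
    have hfin : (D.A.length : ℤ) + D.B.length - 1 - ph D.η D.A D.B n p K' ≤ E := by
      rcases hK3 with ⟨e, he, hd⟩ | ⟨c, hc, hd⟩ | ⟨e, he, hd⟩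
      · exact keyc e.1 (hD.hA e he) (hI.bigA e he) hd
      · exact keyc c (hD.hB c hc) (hI.bigB c hc) hd
      · obtain ⟨m, hm⟩ := hd
        have hK' : K' = ((D.η : ℤ) + e.2) * n + 1 - m * p := by linarith
        have hgN := hD.hN e he
        rcases hI.bigE e he with h | h
        · exfalso
          have e1 : m + 1 ≤ fz a b ((D.η : ℤ) + e.2 - D.a0) := by
            rw [← htab _ (by omega)]
            show m + 1 ≤ ((D.η : ℤ) + e.2 - D.a0) * n / p
            rw [← succ_ediv hp0 (hexz _ (by omega) (by omega))]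
            apply Int.le_ediv_of_mul_le hp0
            rw [hK'] at hK1'; linarith
          have e2 : fz a b ((D.b0 : ℤ) + e.2) < m := by
            rw [← htab _ (by omega)]
            apply Int.ediv_lt_of_lt_mul hp0
            rw [hK'] at hK2'; linarith
          linarith
        · rw [hK', ph_eta hp0 m, ev_congr (g := fz a b) fun t ht => htab _ (hD.te_le he t ht)]
          · exact h
          · intro e2 he2
            exact hexz _ (by omega) (by have := hD.hN e2 he2; omega)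
          · intro e2 he2
            have := hD.hA e2 he2
            exact hexz _ (by omega) (by omega)
          · intro b hb
            have := hD.hB b hb
            exact hexz _ (by omega) (by omega)
          · intro e2 he2 hne2 hdv
            have h5 := hD.hN e2 he2
            have h6 : (p : ℤ) ∣ (((((e2.2 : ℤ) - e.2).natAbs * n : ℕ)) : ℤ) := by
              rw [Nat.cast_mul, Int.natCast_natAbs]
              rcases abs_choice ((e2.2 : ℤ) - e.2) with h7 | h7
              · rw [h7]; exact hdv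
              · rw [h7, neg_mul]; exact (dvd_neg).2 hdv
            have h7 : p ∣ ((e2.2 : ℤ) - e.2).natAbs * n := by exact_mod_cast h6
            rcases (Nat.Prime.dvd_mul hp).1 h7 with h8 | h8
            · exact absurd (Nat.le_of_dvd (by omega) h8) (by omega)
            · exact hpn h8
    linarith
  · intro K hK1 hK2
    have hnomid : ¬ (2 ≤ fz a b ((D.η : ℤ) - 2 * D.a0)) := by
      intro h
      rw [← htab _ (by omega)] at h
      have := Int.mul_le_of_le_ediv hp0 h
      linarith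
    rcases hI.mid with h | h
    · exact absurd h hnomid
    · have e1 : (D.A.map fun e : ℕ × ℕ => ((e.1 : ℤ) + e.2) * n / p).sum =
          (D.A.map fun e : ℕ × ℕ => fz a b ((e.1 : ℤ) + e.2)).sum := by
        congr 1
        apply List.map_congr_left
        intro e he
        have h3 := hD.hN e he
        have h4 := hD.hA e he
        exact htab _ (by omega)
      have e2 : (D.B.map fun b : ℕ => ((D.η : ℤ) - 2 * b) * n / p).sum =
          (D.B.map fun c : ℕ => fz a b ((D.η : ℤ) - 2 * c)).sum := by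
        congr 1
        apply List.map_congr_left
        intro c hc
        have h3 := hD.hB c hc
        exact htab _ (by omega)
      rw [e1, e2]
      exact h

end ZetaCert

end

section

/-!
From step functions followed by the sweep to good intervals, lists of intervals, exponents.
-/

namespace ZetaCert

open ZetaSweep (Cand Nb Seg GoodS ws pk costS)

/-! ### Step functions from lists of terms -/

theorem val_ofT (k : ℤ) (a b : ℕ) (l : List (ℤ × ℤ)) :
    (ofT k l).val a b = k + ev (fz a b) l := by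
  induction l with
  | nil =>
    rw [ev_nil]
    show (((k.toNat + 0 : ℕ) : ℤ)) - ((((-k).toNat + 0 : ℕ)) : ℤ) = k + 0
    omega
  | cons e l ih =>
    obtain ⟨c, z⟩ := e
    rw [ev_cons]
    rcases c with c | c <;> rcases z with (_ | m) | m
    · show (ofT k l).val a b = _
      rw [ih]
      have : fz a b (Int.ofNat 0) = 0 := by
        show (((0 * a / b : ℕ)) : ℤ) = 0
        simp
      simp only [this]; ring
    · show (((ofT k l).cp + (c * ((m + 1) * a / b) + ws (fun z => z * a / b) (ofT k l).pos) : ℕ) : ℤ) -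
        (((ofT k l).cn + ws (fun z => z * a / b) (ofT k l).neg : ℕ) : ℤ) = _
      unfold Cand.val at ih
      have h1 : fz a b (Int.ofNat (m + 1)) = (((m + 1) * a / b : ℕ) : ℤ) := rfl
      have h2 : (Int.ofNat c) = (c : ℤ) := rfl
      simp only [h1, h2]
      push_cast at ih ⊢
      linarith
    · show (((ofT k l).cp + ws (fun z => z * a / b) (ofT k l).pos : ℕ) : ℤ) -
        (((ofT k l).cn + c + (c * ((m + 1) * a / b) + ws (fun z => z * a / b) (ofT k l).neg) : ℕ) : ℤ) = _
      unfold Cand.val at ih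
      have h1 : fz a b (Int.negSucc m) = -(((m + 1) * a / b : ℕ) : ℤ) - 1 := rfl
      have h2 : (Int.ofNat c) = (c : ℤ) := rfl
      simp only [h1, h2]
      push_cast at ih ⊢
      linarith
    · show (ofT k l).val a b = _
      rw [ih]
      have : fz a b (Int.ofNat 0) = 0 := by
        show (((0 * a / b : ℕ)) : ℤ) = 0
        simp
      simp only [this]; ring
    · show (((ofT k l).cp + ws (fun z => z * a / b) (ofT k l).pos : ℕ) : ℤ) -
        (((ofT k l).cn + ((c + 1) * ((m + 1) * a / b) + ws (fun z => z * a / b) (ofT k l).neg) : ℕ) : ℤ) = _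
      unfold Cand.val at ih
      have h1 : fz a b (Int.ofNat (m + 1)) = (((m + 1) * a / b : ℕ) : ℤ) := rfl
      have h2 : (Int.negSucc c) = -((c : ℤ) + 1) := by rw [Int.negSucc_eq]
      simp only [h1, h2]
      push_cast at ih ⊢
      linarith
    · show (((ofT k l).cp + (c + 1) + ((c + 1) * ((m + 1) * a / b) + ws (fun z => z * a / b) (ofT k l).pos) : ℕ) : ℤ) -
        (((ofT k l).cn + ws (fun z => z * a / b) (ofT k l).neg : ℕ) : ℤ) = _
      unfold Cand.val at ih
      have h1 : fz a b (Int.negSucc m) = -(((m + 1) * a / b : ℕ) : ℤ) - 1 := rfl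
      have h2 : (Int.negSucc c) = -((c : ℤ) + 1) := by rw [Int.negSucc_eq]
      simp only [h1, h2]
      push_cast at ih ⊢
      linarith

/-! ### The two systems of step functions -/

/-- value lists: `C` contains all `a_j`, `b_i`; `H` contains all `g_j` -/
structure Dat.Cov (D : Dat) (C H : List ℕ) : Prop where
  hA : ∀ e ∈ D.A, e.1 ∈ C
  hB : ∀ b ∈ D.B, b ∈ C
  hH : ∀ e ∈ D.A, e.2 ∈ H

theorem fz_mono {a b : ℕ} {y z : ℤ} (hy : 0 ≤ y) (hyz : y ≤ z) : fz a b y ≤ fz a b z := by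
  obtain ⟨m, rfl⟩ := Int.eq_ofNat_of_zero_le hy
  obtain ⟨k, rfl⟩ := Int.eq_ofNat_of_zero_le (hy.trans hyz)
  show ((m * a / b : ℕ) : ℤ) ≤ ((k * a / b : ℕ) : ℤ)
  have : m ≤ k := by exact_mod_cast hyz
  exact_mod_cast Nat.div_le_div_right (Nat.mul_le_mul_right _ this)

theorem ev_altT (D : Dat) (f : ℤ → ℤ) : ev f D.altT = -D.alt f := by
  unfold Dat.altT Dat.alt
  rw [ev_append]
  unfold ev
  rw [List.map_map, List.map_map]
  have h1 : (D.A.map ((fun e : ℤ × ℤ => e.1 * f e.2) ∘ fun e : ℕ × ℕ => ((-2 : ℤ), (e.1 : ℤ) + e.2))).sum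
      = -2 * (D.A.map fun e : ℕ × ℕ => f ((e.1 : ℤ) + e.2)).sum := by
    rw [← List.sum_map_mul_left]
    rfl
  have h2 : (D.B.map ((fun e : ℤ × ℤ => e.1 * f e.2) ∘ fun b : ℕ => ((1 : ℤ), (D.η : ℤ) - 2 * b))).sum
      = (D.B.map fun b : ℕ => f ((D.η : ℤ) - 2 * b)).sum := by
    congr 1
    apply List.map_congr_left
    intro b _
    simp
  rw [h1, h2]
  ring

theorem Dat.iv_of_F {D : Dat} (hD : D.Ok) {C H : List ℕ} (hC : D.Cov C H) {q : ℕ}
    (hq : (D.A.length : ℤ) + D.B.length - 1 = q) {a b a' b' E : ℕ} (hb : 0 < b) (hb' : 0 < b')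
    (hfl : ∀ z ≤ D.N, z * a' ≤ (z * a / b + 1) * b') (hs : 2 * b ≤ a * (D.η - 2 * D.a0))
    (h : ∀ t ∈ D.cF C H, (q : ℤ) - E ≤ t.val a b) : D.Iv a b a' b' E where
  hb := hb
  hb' := hb'
  fl := hfl
  bigA := fun e he => by
    right
    have := h _ (List.mem_append_left _ (List.mem_map.2 ⟨e.1, hC.hA e he, rfl⟩))
    rw [val_ofT] at this
    rw [hq]; linarith
  bigB := fun c hc => by
    right
    have := h _ (List.mem_append_left _ (List.mem_map.2 ⟨c, hC.hB c hc, rfl⟩))
    rw [val_ofT] at this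
    rw [hq]; linarith
  bigE := fun e he => by
    right
    have := h _ (List.mem_append_right _ (List.mem_map.2 ⟨e.2, hC.hH e he, rfl⟩))
    rw [val_ofT] at this
    rw [hq]; linarith
  mid := by
    left
    obtain ⟨e, he, h1⟩ := hD.a0mem
    have h2 := hD.hA e he
    have h3 : ((D.η : ℤ) - 2 * D.a0) = Int.ofNat (D.η - 2 * D.a0) := by
      show _ = ((D.η - 2 * D.a0 : ℕ) : ℤ)
      omega
    rw [h3]
    show (2 : ℤ) ≤ (((D.η - 2 * D.a0) * a / b : ℕ) : ℤ)
    have h4 : 2 ≤ (D.η - 2 * D.a0) * a / b := by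
      rw [Nat.le_div_iff_mul_le hb]
      calc 2 * b ≤ a * (D.η - 2 * D.a0) := hs
        _ = (D.η - 2 * D.a0) * a := by ring
    exact_mod_cast h4

theorem Dat.iv_of_A {D : Dat} {C H : List ℕ} (hC : D.Cov C H) {q : ℕ}
    (hq : (D.A.length : ℤ) + D.B.length - 1 = q)
    (hC2 : ∀ c ∈ C, D.a0 ≤ c ∧ 2 * c + D.b0 ≤ D.η + D.a0) {a b a' b' E : ℕ} (hb : 0 < b)
    (hb' : 0 < b') (hfl : ∀ z ≤ D.N, z * a' ≤ (z * a / b + 1) * b')
    (h : ∀ t ∈ D.cA C H q, (q : ℤ) - E ≤ t.val a b) : D.Iv a b a' b' E where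
  hb := hb
  hb' := hb'
  fl := hfl
  bigA := fun e he => by
    by_cases h0 : fz a b ((e.1 : ℤ) - D.a0) + fz a b ((D.η : ℤ) - D.b0 - e.1) < 1
    · exact Or.inl h0
    · right
      have h1 := h _ (List.mem_append_left _ (List.mem_map.2 ⟨e.1, hC.hA e he, rfl⟩))
      rw [val_ofT, ev_cons] at h1
      have h2 := hC2 _ (hC.hA e he)
      have h3 : 1 ≤ fz a b ((D.η : ℤ) - D.b0 - e.1) := by
        have := fz_mono (a := a) (b := b) (y := (e.1 : ℤ) - D.a0) (z := (D.η : ℤ) - D.b0 - e.1)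
          (by omega) (by omega)
        omega
      rw [hq]
      have h4 : (q : ℤ) * 1 ≤ q * fz a b ((D.η : ℤ) - D.b0 - e.1) :=
        mul_le_mul_of_nonneg_left h3 (by positivity)
      simp only at h1
      linarith
  bigB := fun c hc => by
    by_cases h0 : fz a b ((c : ℤ) - D.a0) + fz a b ((D.η : ℤ) - D.b0 - c) < 1
    · exact Or.inl h0
    · right
      have h1 := h _ (List.mem_append_left _ (List.mem_map.2 ⟨c, hC.hB c hc, rfl⟩))
      rw [val_ofT, ev_cons] at h1
      have h2 := hC2 _ (hC.hB c hc)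
      have h3 : 1 ≤ fz a b ((D.η : ℤ) - D.b0 - c) := by
        have := fz_mono (a := a) (b := b) (y := (c : ℤ) - D.a0) (z := (D.η : ℤ) - D.b0 - c)
          (by omega) (by omega)
        omega
      rw [hq]
      have h4 : (q : ℤ) * 1 ≤ q * fz a b ((D.η : ℤ) - D.b0 - c) :=
        mul_le_mul_of_nonneg_left h3 (by positivity)
      simp only at h1
      linarith
  bigE := fun e he => by
    by_cases h0 : fz a b ((D.η : ℤ) + e.2 - D.a0) < fz a b ((D.b0 : ℤ) + e.2) + 2
    · exact Or.inl h0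
    · right
      have h1 := h _ (List.mem_append_right _ (List.mem_append_left _
        (List.mem_map.2 ⟨e.2, hC.hH e he, rfl⟩)))
      rw [val_ofT, ev_cons, ev_cons] at h1
      rw [hq]
      have h3 : fz a b ((D.b0 : ℤ) + e.2) + 2 ≤ fz a b ((D.η : ℤ) + e.2 - D.a0) := not_lt.1 h0
      have h4 : (q : ℤ) * (fz a b ((D.b0 : ℤ) + e.2) + 2) ≤ q * fz a b ((D.η : ℤ) + e.2 - D.a0) :=
        mul_le_mul_of_nonneg_left h3 (by positivity)
      simp only at h1
      linarith
  mid := by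
    right
    have h1 := h _ (List.mem_append_right _ (List.mem_append_right _ (List.mem_singleton.2 rfl)))
    rw [val_ofT, ev_altT] at h1
    linarith

/-! ### Lists of intervals -/

/-- all intervals of a list are good -/
def Dat.GoodL (D : Dat) : List (ℕ × ℕ × ℕ) → ℕ → ℕ → Prop
  | [], _, _ => True
  | e :: L, a, b => D.Iv a b e.1 e.2.1 e.2.2 ∧ D.GoodL L e.1 e.2.1

/-- monotone list of end points -/
def Mono : List (ℕ × ℕ × ℕ) → ℕ → ℕ → Prop
  | [], a, _ => 1 ≤ a
  | e :: L, a, b => 1 ≤ a ∧ a * e.2.1 ≤ b * e.1 ∧ Mono L e.1 e.2.1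

/-- the exponent read off from the list of `(a', b', E)`; `q` beyond the end of the list -/
def lookq (q : ℕ) : List (ℕ × ℕ × ℕ) → ℕ → ℕ → ℕ
  | [], _, _ => q
  | e :: L, n, p => if n * e.2.1 < e.1 * p then e.2.2 else lookq q L n p

/-- the cost of a list of intervals starting at `a / b`; everything beyond the last end point
costs `q` -/
noncomputable def costR (q : ℕ) : List (ℕ × ℕ × ℕ) → ℕ → ℕ → ℝ
  | [], a, b => q * ((b : ℝ) / a)
  | e :: L, a, b => e.2.2 * ((b : ℝ) / a - (e.2.1 : ℝ) / e.1) + costR q L e.1 e.2.1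

theorem seg_good {D : Dat} {P : ℕ → ℕ → ℕ → ℕ → ℕ → Prop}
    (hP : ∀ a b a' b' E, P a b a' b' E → D.Iv a b a' b' E ∧ 1 ≤ a ∧ a * b' ≤ b * a') {q ta tb : ℕ}
    (hta : 1 ≤ ta) : ∀ (L : List (ℕ × ℕ × ℕ)) (a b : ℕ), Seg P ta tb L a b →
      D.GoodL L a b ∧ Mono L a b ∧ costR q L a b = costS L a b + q * ((tb : ℝ) / ta) := by
  intro L
  induction L with
  | nil =>
    intro a b h
    obtain ⟨rfl, rfl⟩ := h
    refine ⟨trivial, hta, ?_⟩
    simp only [costR, costS, zero_add]
  | cons e L ih =>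
    intro a b h
    obtain ⟨h1, h2⟩ := h
    obtain ⟨h3, h4, h5⟩ := hP _ _ _ _ _ h1
    obtain ⟨h6, h7, h8⟩ := ih _ _ h2
    refine ⟨⟨h3, h6⟩, ⟨h4, h5, h7⟩, ?_⟩
    simp only [costR, costS, h8]
    ring

theorem look_sound {D : Dat} {n p q : ℕ} {P : ℕ → Prop} (hq : P q)
    (hI : ∀ a b a' b' E, D.Iv a b a' b' E → a * p ≤ n * b → n * b' < a' * p → P E) :
    ∀ (L : List (ℕ × ℕ × ℕ)) (a b : ℕ), D.GoodL L a b → a * p ≤ n * b →
      P (lookq q L n p) := by
  intro L
  induction L with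
  | nil => intro a b _ _; exact hq
  | cons e L ih =>
    intro a b h h1
    unfold lookq
    split
    · rename_i h3
      exact hI _ _ _ _ _ h.1 h1 h3
    · rename_i h3
      exact ih _ _ h.2 (not_lt.1 h3)

/-! ### The family and the exponents -/

/-- the family of the data -/
def Dat.fam (D : Dat) : ZG.Fam where
  r := D.A.length
  s := D.B.length
  η := D.η
  γ := fun j => D.A[j.1].2
  α := fun j => D.A[j.1].1
  β := fun i => D.B[i.1]

/-- exceptional primes -/
def Exc (N n p : ℕ) : Prop := p ∣ n ∨ ∃ z ≤ N, p ∣ z * n + 1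

/-- the exponents -/
noncomputable def expE (q N : ℕ) (L : List (ℕ × ℕ × ℕ)) (n p : ℕ) : ℕ := by
  classical
  exact if Exc N n p then q else lookq q L n p

theorem phi_eq (D : Dat) (n : ℕ) (p K : ℤ) :
    ZG.phi (D.fam.par n) p (K + 1) = ph D.η D.A D.B n p K := by
  unfold ZG.phi ph
  have h1 := Fin.sum_univ_fun_getElem D.A (fun e : ℕ × ℕ =>
    ((K + e.2 * n) / p - (K - e.1 * n) / p - (((e.1 : ℤ) + e.2) * n) / p) +
      (((D.η : ℤ) * n - K + e.2 * n) / p - ((D.η : ℤ) * n - K - e.1 * n) / p -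
        (((e.1 : ℤ) + e.2) * n) / p))
  have h2 := Fin.sum_univ_fun_getElem D.B (fun b : ℕ => (((D.η : ℤ) - 2 * b) * n) / p -
    (K - b * n) / p - (((D.η : ℤ) - b) * n - K) / p)
  rw [← h1, ← h2]
  congr 1
  · apply Finset.sum_congr rfl
    intro j _
    simp only [Dat.fam, ZG.Fam.par]
    push_cast
    congr 1
    · congr 1
      · congr 1
        · congr 1; ring
        · congr 1; ring
      · congr 1; ring
    · congr 1
      · congr 1
        · congr 1; ring
        · congr 1; ring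
      · congr 1; ring
  · apply Finset.sum_congr rfl
    intro j _
    simp only [Dat.fam, ZG.Fam.par]
    push_cast
    congr 1
    · congr 1
      · congr 1; ring
      · congr 1; ring
    · congr 1; ring

theorem phi_nonneg (P : ZG.Par) {p : ℕ} (hp : 0 < p) (k : ℤ) : 0 ≤ ZG.phi P p k := by
  have key : ∀ x y : ℤ, x / p + y / p ≤ (x + y) / p := by
    intro x y
    apply Int.le_ediv_of_mul_le (by exact_mod_cast hp)
    have h1 := Int.ediv_mul_le x (b := (p : ℤ)) (by exact_mod_cast hp.ne')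
    have h2 := Int.ediv_mul_le y (b := (p : ℤ)) (by exact_mod_cast hp.ne')
    linarith
  unfold ZG.phi
  apply add_nonneg
  · apply Finset.sum_nonneg
    intro j _
    have h1 := key (k - 1 - P.a j) (P.g j + P.a j)
    have h2 := key (P.h - k - 1 - P.a j) (P.g j + P.a j)
    rw [show k - 1 - (P.a j : ℤ) + (P.g j + P.a j) = k - 1 + P.g j by ring] at h1
    rw [show (P.h : ℤ) - k - 1 - (P.a j : ℤ) + (P.g j + P.a j) = P.h - k - 1 + P.g j by ring] at h2
    linarith
  · apply Finset.sum_nonneg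
    intro i _
    have h1 := key (k - P.b i) (P.h - P.b i - k)
    rw [show k - (P.b i : ℤ) + (P.h - P.b i - k) = P.h - 2 * P.b i by ring] at h1
    linarith

theorem expo_top (P : ZG.Par) (a0 b0 : ℕ) {p E : ℕ} (hp : 0 < p) (h1 : P.r + P.s - 1 ≤ E) :
    ZG.Expo P a0 b0 p E := by
  constructor
  · intro k _ _
    have := phi_nonneg P hp k
    omega
  · intro k _ _ _ _
    left
    have := phi_nonneg P hp k
    omega

theorem hE {D : Dat} (hD : D.Ok) {q : ℕ} (hq : D.A.length + D.B.length = q + 1)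
    (L : List (ℕ × ℕ × ℕ)) (hL : D.GoodL L 0 1) :
    ∀ᶠ n : ℕ in Filter.atTop, ∀ p : ℕ, p.Prime → 2 * (D.fam.par n).h < p * p →
      p ≤ (D.fam.par n).h →
      ZG.Expo (D.fam.par n) (D.a0 * n) (D.b0 * n + 1) p (expE q D.N L n p) := by
  filter_upwards [Filter.eventually_ge_atTop (D.N * D.N)] with n hn p hp hpp _
  have hNη : D.η ≤ D.N := by
    obtain ⟨e, he, _⟩ := hD.a0mem
    have := hD.hN e he; omega
  have hη0 : 0 < D.η ∨ D.η = 0 := by omega
  have htop : ZG.Expo (D.fam.par n) (D.a0 * n) (D.b0 * n + 1) p q :=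
    expo_top _ _ _ hp.pos (by
      show D.A.length + D.B.length - 1 ≤ q
      omega)
  unfold expE
  split
  · exact htop
  · rename_i hex
    unfold Exc at hex
    push Not at hex
    have hb0 : 2 * D.b0 ≤ D.η := hD.hB _ hD.b0mem
    by_cases hηz : D.η = 0
    · -- degenerate: no large primes
      exfalso
      have h1 : (D.fam.par n).h = 2 := by
        show D.η * n + 2 = 2
        rw [hηz]; ring
      have h2 : p ≤ 2 := by rw [← h1]; assumption
      have h3 : p * p ≤ 2 * 2 := Nat.mul_le_mul h2 h2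
      rw [h1] at hpp
      omega
    have hNp : D.N < p := by
      by_contra hc
      push Not at hc
      have h1 : (D.fam.par n).h = D.η * n + 2 := rfl
      rw [h1] at hpp
      have h2 : p * p ≤ D.N * D.N := Nat.mul_le_mul hc hc
      have h3 : n ≤ D.η * n := Nat.le_mul_of_pos_left n (by omega)
      omega
    refine look_sound (D := D) (P := fun E => ZG.Expo (D.fam.par n) (D.a0 * n)
      (D.b0 * n + 1) p E) htop ?_ L 0 1 hL (by omega)
    intro a b a' b' E hI h1 h2
    obtain ⟨s1, s2⟩ := hI.sound hD hp h1 h2 hex.1 hNp hex.2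
    have hh : (((D.fam.par n).h : ℕ) : ℤ) = D.η * n + 2 := by
      simp [Dat.fam, ZG.Fam.par]
    constructor
    · intro k hk1 hk2
      have h3 := s1 (k - 1) (by push_cast at hk1; linarith) (by
        rw [hh] at hk2; push_cast at hk2; linarith)
      rw [← phi_eq, sub_add_cancel] at h3
      exact h3
    · intro k hk1 hk2 hk3 hk4
      right
      have h3 := s2 (k - 1) (by push_cast at hk1; linarith) (by
        rw [hh] at hk2; push_cast at hk2; linarith)
      have e1 : (∑ j, (((D.fam.par n).g j : ℤ) + (D.fam.par n).a j) / p) =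
          (D.A.map fun e : ℕ × ℕ => ((e.1 : ℤ) + e.2) * n / p).sum := by
        rw [← Fin.sum_univ_fun_getElem D.A (fun e : ℕ × ℕ => ((e.1 : ℤ) + e.2) * n / p)]
        apply Finset.sum_congr rfl
        intro j _
        simp only [Dat.fam, ZG.Fam.par]
        push_cast
        congr 1; ring
      have e2 : (∑ i, (((D.fam.par n).h : ℤ) - 2 * (D.fam.par n).b i) / p) =
          (D.B.map fun b : ℕ => ((D.η : ℤ) - 2 * b) * n / p).sum := by
        rw [← Fin.sum_univ_fun_getElem D.B (fun b : ℕ => ((D.η : ℤ) - 2 * b) * n / p)]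
        apply Finset.sum_congr rfl
        intro i _
        simp only [Dat.fam, ZG.Fam.par]
        push_cast
        congr 1; ring
      rw [e1, e2]
      exact h3

end ZetaCert

end
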