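import Pool.Agent.Work.MP_4f096c_nt.Cert2
import Pool.Agent.Work.MP_4f096c_nt.Defs

/-!
Centrality of arcs.
-/

section

/-!
Centrality of the arcs of the floor data: reduction to step functions of `x = n / p`.
-/

namespace ZetaCert

/-- sum of the floor data -/
def sd (A : List (ℕ × ℕ)) (B : List ℕ) (n p K : ℤ) : ℤ :=
  (A.map fun e : ℕ × ℕ => (K - e.1 * n) / p + (K + e.2 * n) / p).sum +
    (B.map fun b : ℕ => (K - b * n) / p).sum

/-- equal floor data -/
def Same (A : List (ℕ × ℕ)) (B : List ℕ) (n p K K' : ℤ) : Prop :=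
  (∀ e ∈ A, (K - (e.1 : ℤ) * n) / p = (K' - e.1 * n) / p ∧
    (K + (e.2 : ℤ) * n) / p = (K' + e.2 * n) / p) ∧
    ∀ b ∈ B, (K - (b : ℤ) * n) / p = (K' - b * n) / p

theorem list_eq_of_sum_le {α : Type} {f g : α → ℤ} : ∀ (l : List α), (∀ x ∈ l, f x ≤ g x) →
    (l.map g).sum ≤ (l.map f).sum → ∀ x ∈ l, f x = g x := by
  intro l
  induction l with
  | nil => intro _ _ x hx; simp at hx
  | cons y l ih =>
    intro h h1 x hx
    rw [List.map_cons, List.map_cons, List.sum_cons, List.sum_cons] at h1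
    have h2 : (l.map f).sum ≤ (l.map g).sum :=
      List.sum_le_sum fun x hx => h x (List.mem_cons_of_mem _ hx)
    have h3 := h y List.mem_cons_self
    rcases List.mem_cons.1 hx with rfl | hx
    · linarith
    · exact ih (fun x hx => h x (List.mem_cons_of_mem _ hx)) (by linarith) x hx

theorem same_of_sd {A : List (ℕ × ℕ)} {B : List ℕ} {n p K0 K1 : ℤ} (hp : 0 < p) (h : K0 ≤ K1)
    (hs : sd A B n p K1 ≤ sd A B n p K0) : Same A B n p K0 K1 := by
  unfold sd at hs
  have m1 : ∀ e ∈ A, (K0 - (e.1 : ℤ) * n) / p + (K0 + e.2 * n) / p ≤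
      (K1 - e.1 * n) / p + (K1 + e.2 * n) / p := fun e _ => add_le_add
    (Int.ediv_le_ediv hp (by linarith)) (Int.ediv_le_ediv hp (by linarith))
  have m2 : ∀ b ∈ B, (K0 - (b : ℤ) * n) / p ≤ (K1 - b * n) / p := fun b _ =>
    Int.ediv_le_ediv hp (by linarith)
  have s1 := List.sum_le_sum m1
  have s2 := List.sum_le_sum m2
  have e1 := list_eq_of_sum_le A m1 (by linarith)
  have e2 := list_eq_of_sum_le B m2 (by linarith)
  refine ⟨fun e he => ?_, e2⟩
  have h1 := e1 e he
  have h2 : (K0 - (e.1 : ℤ) * n) / p ≤ (K1 - e.1 * n) / p := Int.ediv_le_ediv hp (by linarith)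
  have h3 : (K0 + (e.2 : ℤ) * n) / p ≤ (K1 + e.2 * n) / p := Int.ediv_le_ediv hp (by linarith)
  constructor <;> linarith

theorem sd_mono {A : List (ℕ × ℕ)} {B : List ℕ} {n p K0 K1 : ℤ} (hp : 0 < p) (h : K0 ≤ K1) :
    sd A B n p K0 ≤ sd A B n p K1 := by
  unfold sd
  apply add_le_add
  · exact List.sum_le_sum fun e _ => add_le_add
      (Int.ediv_le_ediv hp (by linarith)) (Int.ediv_le_ediv hp (by linarith))
  · exact List.sum_le_sum fun b _ => Int.ediv_le_ediv hp (by linarith)

/-- equal data at the ends of an interval: equal data inside -/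
theorem Same.mid {A : List (ℕ × ℕ)} {B : List ℕ} {n p K0 K1 K K' : ℤ} (hp : 0 < p)
    (h : Same A B n p K0 K1) (h1 : K0 ≤ K) (h2 : K ≤ K1) (h3 : K0 ≤ K') (h4 : K' ≤ K1) :
    Same A B n p K K' := by
  have key : ∀ z : ℤ, (K0 + z) / p = (K1 + z) / p → (K + z) / p = (K' + z) / p := by
    intro z hz
    have e1 : (K0 + z) / p ≤ (K + z) / p := Int.ediv_le_ediv hp (by linarith)
    have e2 : (K + z) / p ≤ (K1 + z) / p := Int.ediv_le_ediv hp (by linarith)
    have e3 : (K0 + z) / p ≤ (K' + z) / p := Int.ediv_le_ediv hp (by linarith)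
    have e4 : (K' + z) / p ≤ (K1 + z) / p := Int.ediv_le_ediv hp (by linarith)
    linarith
  refine ⟨fun e he => ⟨?_, ?_⟩, fun b hb => ?_⟩
  · have := key (-((e.1 : ℤ) * n)) (by simpa only [← sub_eq_add_neg] using (h.1 e he).1)
    simpa only [← sub_eq_add_neg] using this
  · exact key _ (h.1 e he).2
  · have := key (-((b : ℤ) * n)) (by simpa only [← sub_eq_add_neg] using h.2 b hb)
    simpa only [← sub_eq_add_neg] using this

/-- no class strictly between `K0` and `K`: the data of the downward jumps are constant -/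
theorem down_const {η : ℤ} {A : List (ℕ × ℕ)} {B : List ℕ} {n p : ℤ} (hp : 0 < p) (K0 : ℤ)
    (m : ℕ) (h : ∀ K, K0 < K → K ≤ K0 + m → ¬ Cl η A B n p K) :
    (∀ e ∈ A, (K0 + m - (e.1 : ℤ) * n) / p = (K0 - e.1 * n) / p ∧
      (η * n - (K0 + m) + (e.2 : ℤ) * n) / p = (η * n - K0 + e.2 * n) / p) ∧
    ∀ b ∈ B, (K0 + m - (b : ℤ) * n) / p = (K0 - b * n) / p := by
  induction m with
  | zero => simp
  | succ m ih =>
    obtain ⟨i1, i2⟩ := ih fun K h1 h2 => h K h1 (by push_cast; linarith)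
    have h0 := h (K0 + (m + 1 : ℕ)) (by push_cast; linarith) le_rfl
    unfold Cl at h0
    push Not at h0
    obtain ⟨hA, hB, hη⟩ := h0
    refine ⟨fun e he => ⟨?_, ?_⟩, fun b hb => ?_⟩
    · rw [← (i1 e he).1, show K0 + (m : ℤ) - (e.1 : ℤ) * n =
        (K0 + ((m + 1 : ℕ) : ℤ) - e.1 * n) - 1 by push_cast; ring]
      exact (ediv_pred hp (hA e he)).symm
    · rw [← (i1 e he).2, show η * n - (K0 + ((m + 1 : ℕ) : ℤ)) + (e.2 : ℤ) * n =
        ((η + (e.2 : ℤ)) * n + 1 - (K0 + ((m + 1 : ℕ) : ℤ))) - 1 by ring, ediv_pred hp (hη e he)]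
      congr 1; push_cast; ring
    · rw [← i2 b hb, show K0 + (m : ℤ) - (b : ℤ) * n =
        (K0 + ((m + 1 : ℕ) : ℤ) - b * n) - 1 by push_cast; ring]
      exact (ediv_pred hp (hB b hb)).symm

/-- either `ph` grows or the data of the upward jumps are constant -/
theorem up_const {η : ℤ} {A : List (ℕ × ℕ)} {B : List ℕ} {n p K0 K : ℤ} (hp : 0 < p)
    (hK : K0 ≤ K) (h : ∀ K', K0 < K' → K' ≤ K → ¬ Cl η A B n p K') :
    ph η A B n p K0 + 1 ≤ ph η A B n p K ∨
    (ph η A B n p K0 = ph η A B n p K ∧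
    (∀ e ∈ A, (K + (e.2 : ℤ) * n) / p = (K0 + e.2 * n) / p ∧
      (η * n - K - (e.1 : ℤ) * n) / p = (η * n - K0 - e.1 * n) / p) ∧
    ∀ b ∈ B, ((η - (b : ℤ)) * n - K) / p = ((η - b) * n - K0) / p) := by
  obtain ⟨m, rfl⟩ := Int.le.dest hK
  obtain ⟨d1, d2⟩ := down_const hp K0 m h
  by_cases hc : ph η A B n p K0 + 1 ≤ ph η A B n p (K0 + m)
  · exact Or.inl hc
  · right
    have hle : ph η A B n p (K0 + m) ≤ ph η A B n p K0 := by linarith [not_le.1 hc]
    unfold ph at hle
    have m1 : ∀ e ∈ A, (((K0 + (e.2 : ℤ) * n) / p - (K0 - e.1 * n) / p - ((e.1 + e.2) * n) / p) +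
        ((η * n - K0 + e.2 * n) / p - (η * n - K0 - e.1 * n) / p - ((e.1 + e.2) * n) / p)) ≤
        (((K0 + m + e.2 * n) / p - (K0 + m - e.1 * n) / p - ((e.1 + e.2) * n) / p) +
        ((η * n - (K0 + m) + e.2 * n) / p - (η * n - (K0 + m) - e.1 * n) / p -
          ((e.1 + e.2) * n) / p)) := by
      intro e he
      have h1 : (K0 + (e.2 : ℤ) * n) / p ≤ (K0 + m + e.2 * n) / p :=
        Int.ediv_le_ediv hp (by linarith)
      have h2 : (η * n - (K0 + m) - (e.1 : ℤ) * n) / p ≤ (η * n - K0 - e.1 * n) / p :=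
        Int.ediv_le_ediv hp (by linarith)
      linarith [(d1 e he).1, (d1 e he).2]
    have m2 : ∀ b ∈ B, ((η - 2 * (b : ℤ)) * n) / p - (K0 - b * n) / p - ((η - b) * n - K0) / p ≤
        ((η - 2 * b) * n) / p - (K0 + m - b * n) / p - ((η - b) * n - (K0 + m)) / p := by
      intro b hb
      have h2 : ((η - (b : ℤ)) * n - (K0 + m)) / p ≤ ((η - b) * n - K0) / p :=
        Int.ediv_le_ediv hp (by linarith)
      linarith [d2 b hb]
    have s1 := List.sum_le_sum m1
    have s2 := List.sum_le_sum m2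
    have e1 := list_eq_of_sum_le A m1 (by linarith)
    have e2 := list_eq_of_sum_le B m2 (by linarith)
    refine ⟨?_, fun e he => ?_, fun b hb => ?_⟩
    · unfold ph
      linarith
    · have h0 := e1 e he
      have h1 : (K0 + (e.2 : ℤ) * n) / p ≤ (K0 + m + e.2 * n) / p :=
        Int.ediv_le_ediv hp (by linarith)
      have h2 : (η * n - (K0 + m) - (e.1 : ℤ) * n) / p ≤ (η * n - K0 - e.1 * n) / p :=
        Int.ediv_le_ediv hp (by linarith)
      constructor <;> linarith [(d1 e he).1, (d1 e he).2]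
    · have h0 := e2 b hb
      have h2 : ((η - (b : ℤ)) * n - (K0 + m)) / p ≤ ((η - b) * n - K0) / p :=
        Int.ediv_le_ediv hp (by linarith)
      linarith [d2 b hb]

/-- the last class below `K` -/
theorem last_class {η : ℤ} {A : List (ℕ × ℕ)} {B : List ℕ} {n p L : ℤ}
    (hL : Cl η A B n p L) (m : ℕ) : ∃ K0, L ≤ K0 ∧ K0 ≤ L + m ∧ Cl η A B n p K0 ∧
      ∀ K', K0 < K' → K' ≤ L + m → ¬ Cl η A B n p K' := by
  induction m with
  | zero => exact ⟨L, le_rfl, by simp, hL, fun K' h1 h2 => by simp at h2; omega⟩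
  | succ m ih =>
    by_cases h : Cl η A B n p (L + (m + 1 : ℕ))
    · exact ⟨_, by push_cast; omega, le_rfl, h, fun K' h1 h2 => by omega⟩
    · obtain ⟨K0, h1, h2, h3, h4⟩ := ih
      refine ⟨K0, h1, by push_cast; omega, h3, fun K' h5 h6 => ?_⟩
      rcases (show K' ≤ L + m ∨ K' = L + (m + 1 : ℕ) by push_cast at h6 ⊢; omega) with h7 | h7
      · exact h4 K' h5 h7
      · rw [h7]; exact h

/-- floor inequality: a number below the remainder -/
theorem le_mod_of_ediv_eq {p x y : ℤ} (hp : 0 < p) (h : (x - y) / p = x / p) : y ≤ x % p := by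
  have h1 := Int.emod_add_mul_ediv x p
  have h2 := Int.emod_add_mul_ediv (x - y) p
  have h3 := Int.emod_nonneg (x - y) hp.ne'
  rw [h] at h2
  linarith

theorem add_lt_of_ediv_eq {p x y : ℤ} (hp : 0 < p) (h : (x + y) / p = x / p) :
    x % p + y < p := by
  have h1 := Int.emod_add_mul_ediv x p
  have h2 := Int.emod_add_mul_ediv (x + y) p
  have h3 := Int.emod_lt_of_pos (x + y) hp
  rw [h] at h2
  linarith

/-- the partner in an arc with equal data at the mirror end -/
theorem partner {η : ℤ} {A : List (ℕ × ℕ)} {B : List ℕ} {n p K0 K : ℤ} (hp : 0 < p)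
    (hK : K0 ≤ K) (hr : K - K0 ≤ (η * n - 2 * K0) % p)
    (hs : Same A B n p K0 (K0 + (η * n - 2 * K0) % p)) :
    ∃ K', p ∣ η * n - K - K' ∧ Same A B n p K K' := by
  have h0 := Int.emod_nonneg (η * n - 2 * K0) hp.ne'
  refine ⟨K0 + (η * n - 2 * K0) % p - (K - K0), ?_, hs.mid hp hK (by linarith) (by linarith)
    (by linarith)⟩
  have h1 := Int.emod_add_mul_ediv (η * n - 2 * K0) p
  exact ⟨(η * n - 2 * K0) / p, by linarith⟩

end ZetaCert

end

section

/-!
Intervals with the central saving.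
-/

namespace ZetaCert

/-- the mirror end of the arc of the class `c n` -/
theorem mod_c {η n p c m : ℤ} : (η * n - 2 * (c * n + m * p)) % p =
    (η - 2 * c) * n - p * ((η - 2 * c) * n / p) := by
  rw [show η * n - 2 * (c * n + m * p) = (η - 2 * c) * n + (-2 * m) * p by ring,
    Int.add_mul_emod_self_right, Int.emod_def]

/-- number of changes along the arc of the class `c n` -/
theorem sd_c {η : ℤ} {A : List (ℕ × ℕ)} {B : List ℕ} {n p c m : ℤ} (hp : 0 < p) :
    sd A B n p (c * n + m * p + (η * n - 2 * (c * n + m * p)) % p) =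
      sd A B n p (c * n + m * p) + ev (fun z => z * n / p) (nc η A B c) := by
  have key : ∀ x y : ℤ, (x + y * p) / p = x / p + y := fun x y => Int.add_mul_ediv_right x y hp.ne'
  rw [mod_c]
  unfold sd nc
  rw [ev_append, ev_flatMap, ev_flatMap]
  set F := (η - 2 * c) * n / p with hF
  have e1 : (A.map fun e : ℕ × ℕ =>
      (c * n + m * p + ((η - 2 * c) * n - p * F) - e.1 * n) / p +
      (c * n + m * p + ((η - 2 * c) * n - p * F) + e.2 * n) / p).sum =
      (A.map fun e : ℕ × ℕ => (c * n + m * p - e.1 * n) / p + (c * n + m * p + e.2 * n) / p).sum +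
      (A.map fun e : ℕ × ℕ => ev (fun z => z * n / p) [(1, η - c - e.1), (-1, c - e.1),
        (-1, η - 2 * c), (1, η - c + e.2), (-1, c + e.2), (-1, η - 2 * c)]).sum := by
    rw [← List.sum_map_add]
    congr 1
    apply List.map_congr_left
    intro e _
    simp only [ev_cons, ev_nil]
    rw [show c * n + m * p + ((η - 2 * c) * n - p * F) - e.1 * n =
        (η - c - e.1) * n + (m - F) * p by ring, key,
      show c * n + m * p + ((η - 2 * c) * n - p * F) + e.2 * n =
        (η - c + e.2) * n + (m - F) * p by ring, key,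
      show c * n + m * p - e.1 * n = (c - e.1) * n + m * p by ring, key,
      show c * n + m * p + e.2 * n = (c + e.2) * n + m * p by ring, key, ← hF]
    ring
  have e2 : (B.map fun b : ℕ =>
      (c * n + m * p + ((η - 2 * c) * n - p * F) - b * n) / p).sum =
      (B.map fun b : ℕ => (c * n + m * p - b * n) / p).sum +
      (B.map fun b : ℕ => ev (fun z => z * n / p) [(1, η - c - b), (-1, c - b),
        (-1, η - 2 * c)]).sum := by
    rw [← List.sum_map_add]
    congr 1
    apply List.map_congr_left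
    intro b _
    simp only [ev_cons, ev_nil]
    rw [show c * n + m * p + ((η - 2 * c) * n - p * F) - b * n =
        (η - c - b) * n + (m - F) * p by ring, key,
      show c * n + m * p - b * n = (c - b) * n + m * p by ring, key, ← hF]
    ring
  rw [e1, e2]
  ring

/-- the mirror end of the arc of the class `(η + h) n + 1` -/
theorem mod_h {η n p h m : ℤ} (hp : 0 < p) (hz : ¬ p ∣ (η + 2 * h) * n)
    (hz1 : ¬ p ∣ (η + 2 * h) * n + 1) : (η * n - 2 * ((η + h) * n + 1 - m * p)) % p =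
    -(η + 2 * h) * n - 2 - p * (-(η + 2 * h) * n / p) := by
  have h1 : (-(η + 2 * h) * n - 2) / p = -(η + 2 * h) * n / p := by
    have h2 : ¬ p ∣ -(η + 2 * h) * n - 1 := by
      intro h3; apply hz1
      have := (dvd_neg).2 h3
      rwa [show -(-(η + 2 * h) * n - 1) = (η + 2 * h) * n + 1 by ring] at this
    have h3 : ¬ p ∣ -(η + 2 * h) * n := by
      intro h3; apply hz
      have := (dvd_neg).2 h3
      rwa [show -(-(η + 2 * h) * n) = (η + 2 * h) * n by ring] at this
    rw [show -(η + 2 * h) * n - 2 = (-(η + 2 * h) * n - 1) - 1 by ring, ediv_pred hp h2,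
      ediv_pred hp h3]
  rw [show η * n - 2 * ((η + h) * n + 1 - m * p) = (-(η + 2 * h) * n - 2) + (2 * m) * p by ring,
    Int.add_mul_emod_self_right, Int.emod_def, h1]

/-- number of changes along the arc of the class `(η + h) n + 1` -/
theorem sd_h {η : ℤ} {A : List (ℕ × ℕ)} {B : List ℕ} {n p h m : ℤ} (hp : 0 < p)
    (hz : ¬ p ∣ (η + 2 * h) * n) (hz1 : ¬ p ∣ (η + 2 * h) * n + 1)
    (hg : ∀ e ∈ A, ¬ p ∣ (η + h + (e.2 : ℤ)) * n + 1)
    (hA : ∀ e ∈ A, ¬ p ∣ (η + h - (e.1 : ℤ)) * n + 1)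
    (hB : ∀ b ∈ B, ¬ p ∣ (η + h - (b : ℤ)) * n + 1)
    (hA2 : ∀ e ∈ A, ¬ p ∣ (h + (e.1 : ℤ)) * n)
    (hB2 : ∀ b ∈ B, ¬ p ∣ (h + (b : ℤ)) * n)
    (hz2 : ∀ e ∈ A, (e.2 : ℤ) ≠ h → ¬ p ∣ ((e.2 : ℤ) - h) * n) :
    sd A B n p ((η + h) * n + 1 - m * p + (η * n - 2 * ((η + h) * n + 1 - m * p)) % p) =
      sd A B n p ((η + h) * n + 1 - m * p) +
        (ev (fun z => z * n / p) (nh η A B h) - kh A h) := by
  have key : ∀ x y : ℤ, (x + y * p) / p = x / p + y := fun x y => Int.add_mul_ediv_right x y hp.ne'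
  have hneg : ∀ z : ℤ, ¬ p ∣ z * n → (-z * n - 1) / p = -z * n / p := by
    intro z hz
    apply ediv_pred hp
    intro h3; apply hz
    have := (dvd_neg).2 h3
    rwa [show -(-z * n) = z * n by ring] at this
  rw [mod_h hp hz hz1]
  unfold sd nh kh
  rw [ev_append, ev_flatMap, ev_flatMap]
  set F := -(η + 2 * h) * n / p with hF
  have e1 : (A.map fun e : ℕ × ℕ =>
      ((η + h) * n + 1 - m * p + (-(η + 2 * h) * n - 2 - p * F) - e.1 * n) / p +
      ((η + h) * n + 1 - m * p + (-(η + 2 * h) * n - 2 - p * F) + e.2 * n) / p).sum +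
      (A.map fun e : ℕ × ℕ => if (e.2 : ℤ) = h then (1 : ℤ) else 0).sum =
      (A.map fun e : ℕ × ℕ => ((η + h) * n + 1 - m * p - e.1 * n) / p +
        ((η + h) * n + 1 - m * p + e.2 * n) / p).sum +
      (A.map fun e : ℕ × ℕ => ev (fun z => z * n / p) [(1, -(h + e.1)), (-1, -(η + 2 * h)),
        (-1, η + h - e.1), (1, (e.2 : ℤ) - h), (-1, -(η + 2 * h)), (-1, η + h + e.2)]).sum := by
    rw [← List.sum_map_add, ← List.sum_map_add]
    congr 1
    apply List.map_congr_left
    intro e he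
    simp only [ev_cons, ev_nil]
    have h4 : (((e.2 : ℤ) - h) * n - 1) / p =
        ((e.2 : ℤ) - h) * n / p - (if (e.2 : ℤ) = h then (1 : ℤ) else 0) := by
      by_cases h5 : (e.2 : ℤ) = h
      · rw [if_pos h5, h5]
        have h6 := neg_one_sub_ediv hp 0
        simp only [sub_self, zero_mul, Int.zero_ediv, sub_zero, neg_zero, zero_sub] at h6 ⊢
        exact h6
      · rw [if_neg h5, ediv_pred hp (hz2 e he h5), sub_zero]
    rw [show (η + h) * n + 1 - m * p + (-(η + 2 * h) * n - 2 - p * F) - e.1 * n =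
        (-(h + e.1) * n - 1) + (-m - F) * p by ring, key, hneg _ (hA2 e he),
      show (η + h) * n + 1 - m * p + (-(η + 2 * h) * n - 2 - p * F) + e.2 * n =
        (((e.2 : ℤ) - h) * n - 1) + (-m - F) * p by ring, key, h4,
      show (η + h) * n + 1 - m * p - e.1 * n = ((η + h - e.1) * n + 1) + (-m) * p by ring, key,
      succ_ediv hp (hA e he),
      show (η + h) * n + 1 - m * p + e.2 * n = ((η + h + e.2) * n + 1) + (-m) * p by ring, key,
      succ_ediv hp (hg e he), ← hF]
    ring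
  have e2 : (B.map fun b : ℕ =>
      ((η + h) * n + 1 - m * p + (-(η + 2 * h) * n - 2 - p * F) - b * n) / p).sum =
      (B.map fun b : ℕ => ((η + h) * n + 1 - m * p - b * n) / p).sum +
      (B.map fun b : ℕ => ev (fun z => z * n / p) [(1, -(h + b)), (-1, -(η + 2 * h)),
        (-1, η + h - b)]).sum := by
    rw [← List.sum_map_add]
    congr 1
    apply List.map_congr_left
    intro b hb
    simp only [ev_cons, ev_nil]
    rw [show (η + h) * n + 1 - m * p + (-(η + 2 * h) * n - 2 - p * F) - b * n =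
        (-(h + b) * n - 1) + (-m - F) * p by ring, key, hneg _ (hB2 b hb),
      show (η + h) * n + 1 - m * p - b * n = ((η + h - b) * n + 1) + (-m) * p by ring, key,
      succ_ediv hp (hB b hb), ← hF]
    ring
  rw [e2]
  linarith

/-- distance to the mirror end, class `c n` -/
theorem arc_c {η n p c m K z : ℤ} (hp : 0 < p) (hz : z = (η - c) * n)
    (h : (z - K) / p = (z - (c * n + m * p)) / p) :
    K - (c * n + m * p) ≤ (η * n - 2 * (c * n + m * p)) % p := by
  have h1 := le_mod_of_ediv_eq (x := z - (c * n + m * p)) (y := K - (c * n + m * p)) hp (by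
    rw [show z - (c * n + m * p) - (K - (c * n + m * p)) = z - K by ring]; exact h)
  have h2 : (z - (c * n + m * p)) % p = (η * n - 2 * (c * n + m * p)) % p := by
    rw [hz, show (η - c) * n - (c * n + m * p) = (η * n - 2 * (c * n + m * p)) + m * p by ring,
      Int.add_mul_emod_self_right]
  rw [← h2]; exact h1

/-- distance to the mirror end, class `(η + h) n + 1` -/
theorem arc_h {η n p h m K : ℤ} (hp : 0 < p)
    (hk : (K + h * n) / p = ((η + h) * n + 1 - m * p + h * n) / p) :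
    K - ((η + h) * n + 1 - m * p) ≤ (η * n - 2 * ((η + h) * n + 1 - m * p)) % p := by
  have h1 := add_lt_of_ediv_eq (x := (η + h) * n + 1 - m * p + h * n)
    (y := K - ((η + h) * n + 1 - m * p)) hp (by
    rw [show (η + h) * n + 1 - m * p + h * n + (K - ((η + h) * n + 1 - m * p)) = K + h * n by ring]
    exact hk)
  have h2 := neg_one_sub_ediv hp ((η + h) * n + 1 - m * p + h * n)
  have h3 : (η * n - 2 * ((η + h) * n + 1 - m * p)) % p =
      (-1 - ((η + h) * n + 1 - m * p + h * n)) % p := by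
    rw [show η * n - 2 * ((η + h) * n + 1 - m * p) =
      (-1 - ((η + h) * n + 1 - m * p + h * n)) + m * p by ring, Int.add_mul_emod_self_right]
  rw [h3, Int.emod_def, h2]
  have h4 := Int.emod_def ((η + h) * n + 1 - m * p + h * n) p
  linarith

/-- a good interval `a / b ≤ x < a' / b'` with exponent `E`; one unit is saved at classes whose
arc has constant floor data -/
structure Dat.Iv2 (D : Dat) (a b a' b' E : ℕ) : Prop where
  hb : 0 < b
  hb' : 0 < b'
  fl : ∀ z ≤ D.N, z * a' ≤ (z * a / b + 1) * b'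
  bigC : ∀ c : ℕ, ((∃ e ∈ D.A, e.1 = c) ∨ c ∈ D.B) →
    fz a b ((c : ℤ) - D.a0) + fz a b ((D.η : ℤ) - D.b0 - c) < 1 ∨
    (D.A.length : ℤ) + D.B.length - 1 - ev (fz a b) (tc D.η D.A D.B c) ≤ E ∨
    (D.A.length : ℤ) + D.B.length - 1 - (1 + ev (fz a b) (tc D.η D.A D.B c) -
      ev (fz a b) (nc D.η D.A D.B c)) ≤ E
  bigE : ∀ e ∈ D.A, fz a b ((D.η : ℤ) + e.2 - D.a0) < fz a b ((D.b0 : ℤ) + e.2) + 2 ∨
    (D.A.length : ℤ) + D.B.length - 1 - (ev (fz a b) (te D.η D.A D.B e.2) + ke D.A D.B e.2) ≤ E ∨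
    (D.A.length : ℤ) + D.B.length - 1 - (1 + (ev (fz a b) (te D.η D.A D.B e.2) +
      ke D.A D.B e.2) - (ev (fz a b) (nh D.η D.A D.B e.2) - kh D.A e.2)) ≤ E
  mid : 2 ≤ fz a b ((D.η : ℤ) - 2 * D.a0) ∨ D.alt (fz a b) ≤ E

/-- the floors on an interval -/
theorem floor_tab2 {N a b a' b' n p : ℕ} (hb : 0 < b)
    (fl : ∀ z ≤ N, z * a' ≤ (z * a / b + 1) * b')
    (hp : p.Prime) (h1 : a * p ≤ n * b) (h2 : n * b' < a' * p) (hpn : ¬ p ∣ n) (hN : N < p)
    {z : ℤ} (hz : z.natAbs ≤ N) : z * (n : ℤ) / p = fz a b z := by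
  have hp0 : (0 : ℤ) < p := by exact_mod_cast hp.pos
  have key : ∀ m : ℕ, m ≤ N → 0 < m → m * n / p = m * a / b := fun m hm hm0 =>
    fz_eq hb h1 h2 (fl m hm) hm0
  cases z with
  | ofNat m =>
    show (m : ℤ) * n / p = ((m * a / b : ℕ) : ℤ)
    have hm : m ≤ N := hz
    rcases Nat.eq_zero_or_pos m with h | h
    · subst h; simp
    · rw [← key m hm h]; push_cast; rfl
  | negSucc m =>
    show (Int.negSucc m) * (n : ℤ) / p = -(((m + 1) * a / b : ℕ) : ℤ) - 1
    have hm : m + 1 ≤ N := hz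
    rw [← key (m + 1) hm (Nat.succ_pos m)]
    have hnd : ¬ (p : ℤ) ∣ -(((m + 1 : ℕ) : ℤ) * n) := by
      rw [dvd_neg]
      intro h
      have h3 : p ∣ (m + 1) * n := by exact_mod_cast h
      rcases (Nat.Prime.dvd_mul hp).1 h3 with h4 | h4
      · exact absurd (Nat.le_of_dvd (Nat.succ_pos m) h4) (by omega)
      · exact hpn h4
    have h3 := neg_one_sub_ediv hp0 (((m + 1 : ℕ) : ℤ) * n)
    rw [show (-1 - ((m + 1 : ℕ) : ℤ) * n) = -(((m + 1 : ℕ) : ℤ) * n) - 1 by ring,
      ediv_pred hp0 hnd] at h3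
    rw [Int.negSucc_eq, show (-((m : ℤ) + 1)) * n = -(((m + 1 : ℕ) : ℤ) * n) by push_cast; ring, h3]
    push_cast; rfl

theorem Dat.Ok.nc_le {D : Dat} (hD : D.Ok) {c : ℕ} (hc : 2 * c ≤ D.η) :
    ∀ t ∈ nc D.η D.A D.B c, t.2.natAbs ≤ D.N := by
  have hNη : D.η ≤ D.N := by
    obtain ⟨e, he, _⟩ := hD.a0mem
    have := hD.hN e he; omega
  intro t ht
  unfold nc at ht
  rcases List.mem_append.1 ht with ht | ht
  · obtain ⟨e, he, ht⟩ := List.mem_flatMap.1 ht
    have h1 := hD.hA e he
    have h2 := hD.hN e he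
    simp only [List.mem_cons, List.not_mem_nil, or_false] at ht
    rcases ht with rfl | rfl | rfl | rfl | rfl | rfl <;> simp only <;> omega
  · obtain ⟨b, hb, ht⟩ := List.mem_flatMap.1 ht
    have h1 := hD.hB b hb
    simp only [List.mem_cons, List.not_mem_nil, or_false] at ht
    rcases ht with rfl | rfl | rfl <;> simp only <;> omega

theorem Dat.Ok.nh_le {D : Dat} (hD : D.Ok) {e' : ℕ × ℕ} (he' : e' ∈ D.A) :
    ∀ t ∈ nh D.η D.A D.B e'.2, t.2.natAbs ≤ D.N := by
  have h0 := hD.hN e' he'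
  intro t ht
  unfold nh at ht
  rcases List.mem_append.1 ht with ht | ht
  · obtain ⟨e, he, ht⟩ := List.mem_flatMap.1 ht
    have h1 := hD.hA e he
    have h2 := hD.hN e he
    simp only [List.mem_cons, List.not_mem_nil, or_false] at ht
    rcases ht with rfl | rfl | rfl | rfl | rfl | rfl <;> simp only <;> omega
  · obtain ⟨b, hb, ht⟩ := List.mem_flatMap.1 ht
    have h1 := hD.hB b hb
    simp only [List.mem_cons, List.not_mem_nil, or_false] at ht
    rcases ht with rfl | rfl | rfl <;> simp only <;> omega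

/-- the final step: from the last class below `K` to `K` -/
theorem fin_step {η : ℤ} {A : List (ℕ × ℕ)} {B : List ℕ} {n p K0 K q E V nv : ℤ} (hp : 0 < p)
    (hK : K0 ≤ K) (hV : ph η A B n p K0 = V)
    (hs : sd A B n p (K0 + (η * n - 2 * K0) % p) = sd A B n p K0 + nv)
    (hE : q - V ≤ E ∨ q - (1 + V - nv) ≤ E)
    (hup : ph η A B n p K0 + 1 ≤ ph η A B n p K ∨
      (ph η A B n p K0 = ph η A B n p K ∧ K - K0 ≤ (η * n - 2 * K0) % p)) :
    q - ph η A B n p K ≤ E ∨ (q - 1 - ph η A B n p K ≤ E ∧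
      ∃ K', p ∣ η * n - K - K' ∧ Same A B n p K K') := by
  have h0 : 0 ≤ (η * n - 2 * K0) % p := Int.emod_nonneg _ hp.ne'
  have hnv : 0 ≤ nv := by
    have := sd_mono (A := A) (B := B) (n := n) hp (show K0 ≤ K0 + (η * n - 2 * K0) % p by linarith)
    linarith
  have hph : ph η A B n p K0 ≤ ph η A B n p K := by
    rcases hup with h | h
    · linarith
    · exact h.1.le
  rcases hE with hE | hE
  · left; linarith
  rcases hnv.lt_or_eq with h1 | h1
  · left; linarith [Int.add_one_le_iff.2 h1]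
  · rcases hup with h | ⟨h, h2⟩
    · left; linarith
    · right
      refine ⟨by linarith, partner hp hK h2 (same_of_sd hp (by linarith) (by linarith))⟩

/-- soundness of an interval -/
theorem Dat.Iv2.sound {D : Dat} (hD : D.Ok) (ha : 0 < D.a0) {a b a' b' E n p : ℕ}
    (hI : D.Iv2 a b a' b' E)
    (hp : p.Prime) (h1 : a * p ≤ n * b) (h2 : n * b' < a' * p) (hpn : ¬ p ∣ n) (hN : D.N < p)
    (hex : ∀ z ≤ D.N, ¬ p ∣ z * n + 1) :
    (∀ K : ℤ, (p : ℤ) + D.a0 * n ≤ K → K ≤ ((D.η : ℤ) - D.b0) * n →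
      (D.A.length : ℤ) + D.B.length - 1 - ph D.η D.A D.B n p K ≤ E ∨
      ((D.A.length : ℤ) + D.B.length - 1 - 1 - ph D.η D.A D.B n p K ≤ E ∧
        ∃ K', (p : ℤ) ∣ D.η * n - K - K' ∧ Same D.A D.B n p K K')) ∧
    (∀ K : ℤ, K < (p : ℤ) + D.a0 * n → (D.η : ℤ) * n - K < (p : ℤ) + D.a0 * n →
      2 * (D.A.map fun e : ℕ × ℕ => ((e.1 : ℤ) + e.2) * n / p).sum -
        (D.B.map fun b : ℕ => ((D.η : ℤ) - 2 * b) * n / p).sum ≤ E) := by
  have hp0 : (0 : ℤ) < p := by exact_mod_cast hp.pos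
  set f : ℤ → ℤ := fun z => z * (n : ℤ) / p with hf
  have htab : ∀ z : ℤ, z.natAbs ≤ D.N → f z = fz a b z := fun z hz =>
    floor_tab2 hI.hb hI.fl hp h1 h2 hpn hN hz
  have hNη : D.η ≤ D.N := by
    obtain ⟨e, he, _⟩ := hD.a0mem
    have := hD.hN e he; omega
  have ha0η : 2 * D.a0 ≤ D.η := by
    obtain ⟨e, he, h⟩ := hD.a0mem
    have := hD.hA e he; omega
  have hb0η : 2 * D.b0 ≤ D.η := hD.hB _ hD.b0mem
  have hexz : ∀ z : ℤ, 0 ≤ z → z.natAbs ≤ D.N → ¬ (p : ℤ) ∣ z * n + 1 := by
    intro z hz hz' h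
    apply hex z.natAbs hz'
    have : ((z.natAbs : ℕ) : ℤ) = z := Int.natAbs_of_nonneg hz
    have h3 : (((z.natAbs * n + 1 : ℕ)) : ℤ) = z * n + 1 := by push_cast; rw [← this]; simp
    rw [← h3] at h
    exact_mod_cast h
  have hnz : ∀ z : ℤ, 0 < z.natAbs → z.natAbs ≤ D.N → ¬ (p : ℤ) ∣ z * n := by
    intro z hz hz' hdv
    have h6 : (p : ℤ) ∣ (((z.natAbs * n : ℕ)) : ℤ) := by
      rw [Nat.cast_mul, Int.natCast_natAbs]
      rcases abs_choice z with h7 | h7
      · rw [h7]; exact hdv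
      · rw [h7, neg_mul]; exact (dvd_neg).2 hdv
    have h7 : p ∣ z.natAbs * n := by exact_mod_cast h6
    rcases (Nat.Prime.dvd_mul hp).1 h7 with h8 | h8
    · exact absurd (Nat.le_of_dvd hz h8) (by omega)
    · exact hpn h8
  have hne : ∀ z : ℤ, z.natAbs ≤ D.N → ∀ m : ℤ, m * p ≤ z * n → m ≤ fz a b z := by
    intro z hz m h
    rw [← htab z hz]
    exact Int.le_ediv_of_mul_le hp0 h
  constructor
  · intro K hK1 hK2
    have hL : Cl D.η D.A D.B n p ((p : ℤ) + D.a0 * n) := by
      obtain ⟨e, he, h⟩ := hD.a0mem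
      exact Or.inl ⟨e, he, ⟨1, by rw [h]; ring⟩⟩
    obtain ⟨mm, hmm⟩ := Int.le.dest hK1
    obtain ⟨K0, hK01, hK02, hK3, hK4⟩ := last_class hL mm
    rw [hmm] at hK02 hK4
    have hup := up_const (η := D.η) (A := D.A) (B := D.B) (n := n) hp0 hK02 hK4
    have hK02' : K0 ≤ ((D.η : ℤ) - D.b0) * n := hK02.trans hK2
    -- the classes `c n`
    have keyc : ∀ c : ℕ, 2 * c ≤ D.η → ((∃ e ∈ D.A, e.1 = c) ∨ c ∈ D.B) →
        (p : ℤ) ∣ K0 - (c : ℤ) * n →
        (D.A.length : ℤ) + D.B.length - 1 - ph D.η D.A D.B n p K ≤ E ∨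
        ((D.A.length : ℤ) + D.B.length - 1 - 1 - ph D.η D.A D.B n p K ≤ E ∧
          ∃ K', (p : ℤ) ∣ D.η * n - K - K' ∧ Same D.A D.B n p K K') := by
      intro c hc hcm hd
      obtain ⟨m, hm⟩ := hd
      have hK' : K0 = c * n + m * p := by linarith
      have e1 : 1 - m ≤ fz a b ((c : ℤ) - D.a0) := by
        apply hne _ (by omega)
        rw [hK'] at hK01; linarith
      have e2 : m ≤ fz a b ((D.η : ℤ) - D.b0 - c) := by
        apply hne _ (by omega)
        rw [hK'] at hK02'; linarith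
      have hcE := hI.bigC c hcm
      rcases hcE with h | hE
      · exfalso; linarith
      have hE' : (D.A.length : ℤ) + D.B.length - 1 - ev f (tc D.η D.A D.B c) ≤ E ∨
          (D.A.length : ℤ) + D.B.length - 1 - (1 + ev f (tc D.η D.A D.B c) -
            ev f (nc D.η D.A D.B c)) ≤ E := by
        rw [ev_congr (g := fz a b) fun t ht => htab _ (hD.tc_le hc t ht),
          ev_congr (l := nc D.η D.A D.B c) (g := fz a b) fun t ht => htab _ (hD.nc_le hc t ht)]
        exact hE
      refine fin_step hp0 hK02 (V := ev f (tc D.η D.A D.B c)) (nv := ev f (nc D.η D.A D.B c))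
        ?_ ?_ hE' ?_
      · rw [hK']; exact ph_class hp0 c m
      · rw [hK']; exact sd_c hp0
      · rcases hup with h | ⟨h, hA, hB⟩
        · exact Or.inl h
        · right
          refine ⟨h, ?_⟩
          rw [hK']
          rcases hcm with ⟨e, he, rfl⟩ | hcB
          · refine arc_c (z := ((D.η : ℤ) - e.1) * n) hp0 rfl ?_
            have := (hA e he).2
            rw [hK'] at this
            rw [show ((D.η : ℤ) - e.1) * n - K = D.η * n - K - e.1 * n by ring, this]
            congr 1; ring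
          · refine arc_c (z := ((D.η : ℤ) - c) * n) hp0 rfl ?_
            have := hB c hcB
            rw [hK'] at this
            exact this
    rcases hK3 with ⟨e, he, hd⟩ | ⟨c, hc, hd⟩ | ⟨e, he, hd⟩
    · exact keyc e.1 (hD.hA e he) (Or.inl ⟨e, he, rfl⟩) hd
    · exact keyc c (hD.hB c hc) (Or.inr hc) hd
    · obtain ⟨m, hm⟩ := hd
      have hK' : K0 = ((D.η : ℤ) + e.2) * n + 1 - m * p := by linarith
      have hgN := hD.hN e he
      rcases hI.bigE e he with h | hE
      · exfalso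
        have e1 : m + 1 ≤ fz a b ((D.η : ℤ) + e.2 - D.a0) := by
          rw [← htab _ (by omega)]
          show m + 1 ≤ ((D.η : ℤ) + e.2 - D.a0) * n / p
          rw [← succ_ediv hp0 (hexz _ (by omega) (by omega))]
          apply Int.le_ediv_of_mul_le hp0
          rw [hK'] at hK01; linarith
        have e2 : fz a b ((D.b0 : ℤ) + e.2) < m := by
          rw [← htab _ (by omega)]
          apply Int.ediv_lt_of_lt_mul hp0
          rw [hK'] at hK02'; linarith
        linarith
      · have hE' : (D.A.length : ℤ) + D.B.length - 1 -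
            (ev f (te D.η D.A D.B e.2) + ke D.A D.B e.2) ≤ E ∨
            (D.A.length : ℤ) + D.B.length - 1 - (1 + (ev f (te D.η D.A D.B e.2) +
              ke D.A D.B e.2) - (ev f (nh D.η D.A D.B e.2) - kh D.A e.2)) ≤ E := by
          rw [ev_congr (g := fz a b) fun t ht => htab _ (hD.te_le he t ht),
            ev_congr (l := nh D.η D.A D.B e.2) (g := fz a b) fun t ht => htab _ (hD.nh_le he t ht)]
          exact hE
        have hz2 : ∀ e2 ∈ D.A, (e2.2 : ℤ) ≠ e.2 → ¬ (p : ℤ) ∣ ((e2.2 : ℤ) - e.2) * n := by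
          intro e2 he2 hne2
          have h5 := hD.hN e2 he2
          exact hnz _ (by omega) (by omega)
        have hgg : ∀ e2 ∈ D.A, ¬ (p : ℤ) ∣ ((D.η : ℤ) + e.2 + e2.2) * n + 1 := by
          intro e2 he2
          exact hexz _ (by omega) (by have := hD.hN e2 he2; omega)
        have hAA : ∀ e2 ∈ D.A, ¬ (p : ℤ) ∣ ((D.η : ℤ) + e.2 - e2.1) * n + 1 := by
          intro e2 he2
          have := hD.hA e2 he2
          exact hexz _ (by omega) (by omega)
        have hBB : ∀ b ∈ D.B, ¬ (p : ℤ) ∣ ((D.η : ℤ) + e.2 - b) * n + 1 := by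
          intro b hb
          have := hD.hB b hb
          exact hexz _ (by omega) (by omega)
        refine fin_step hp0 hK02 (V := ev f (te D.η D.A D.B e.2) + ke D.A D.B e.2)
          (nv := ev f (nh D.η D.A D.B e.2) - kh D.A e.2) ?_ ?_ hE' ?_
        · rw [hK']
          refine ph_eta hp0 m ?_ hAA hBB hz2
          intro e2 he2
          have := hgg e2 he2
          rwa [show (D.η : ℤ) + e2.2 + e.2 = D.η + e.2 + e2.2 by ring]
        · rw [hK']
          refine sd_h hp0 (hnz _ (by omega) (by omega)) (hexz _ (by omega) (by omega)) hgg hAA hBB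
            ?_ ?_ hz2
          · intro e2 he2
            have h3 := hD.a0le e2 he2
            have h4 := hD.hA e2 he2
            exact hnz _ (by omega) (by omega)
          · intro b hb
            have h3 := hD.b0le b hb
            have h4 := hD.hB b hb
            have h5 := hD.ab
            exact hnz _ (by omega) (by omega)
        · rcases hup with h | ⟨h, hA, hB⟩
          · exact Or.inl h
          · right
            refine ⟨h, ?_⟩
            rw [hK']
            refine arc_h hp0 ?_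
            have := (hA e he).1
            rw [hK'] at this
            exact this
  · intro K hK1 hK2
    have hnomid : ¬ (2 ≤ fz a b ((D.η : ℤ) - 2 * D.a0)) := by
      intro h
      rw [← htab _ (by omega)] at h
      have := Int.mul_le_of_le_ediv hp0 h
      linarith
    rcases hI.mid with h | h
    · exact absurd h hnomid
    · have e1 : (D.A.map fun e : ℕ × ℕ => ((e.1 : ℤ) + e.2) * n / p).sum =
          (D.A.map fun e : ℕ × ℕ => fz a b ((e.1 : ℤ) + e.2)).sum := by
        congr 1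
        apply List.map_congr_left
        intro e he
        have h3 := hD.hN e he
        have h4 := hD.hA e he
        exact htab _ (by omega)
      have e2 : (D.B.map fun b : ℕ => ((D.η : ℤ) - 2 * b) * n / p).sum =
          (D.B.map fun c : ℕ => fz a b ((D.η : ℤ) - 2 * c)).sum := by
        congr 1
        apply List.map_congr_left
        intro c hc
        have h3 := hD.hB c hc
        exact htab _ (by omega)
      rw [e1, e2]
      exact h

end ZetaCert

end
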