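import Pool.Agent.Work.MP_4f096c_nt.CertN

/-!
A fast checker for families whose parameters are consecutive integers, each with
multiplicity one.
-/

namespace ZetaSets

open Finset

/-- `sum_{j<k} f j`, kernel friendly -/
noncomputable def rsum (f : ℕ → ℕ) (k : ℕ) : ℕ :=
  @Nat.rec (fun _ => ℕ) 0 (fun j ih => Nat.add ih (f j)) k

/-- numerator parameters `v0, ..., v0+r-1`, denominator parameters `v0+r, ..., v0+r+s-1` -/
structure DatA where
  η : ℕ
  v0 : ℕ
  r : ℕ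
  s : ℕ
  C : List ℕ

/-- the corresponding general data -/
def DatA.dat (D : DatA) : Dat :=
  ⟨D.η, (List.range D.r).map fun j => (D.v0 + j, 1),
    (List.range D.s).map fun j => (D.v0 + D.r + j, 1), D.v0, D.v0 + D.r, D.C⟩

/-- sweep over `c = c0, ..., c0 + k`, with `T - W_c = p - n` -/
noncomputable def passA (a b η v0 v1 : ℕ) (t : ℕ → ℕ → ℕ → Bool) (k : ℕ) : ℕ → ℕ → ℕ → Bool :=
  @Nat.rec (fun _ => ℕ → ℕ → ℕ → Bool) (fun c p n => t c p n)
    (fun _ ih c p n => band (t c p n) (ih (Nat.succ c)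
      (Nat.add p (gN a b (Nat.sub (Nat.sub η c) v0)))
      (Nat.add n (Nat.succ (Nat.add (gN a b (Nat.sub (Nat.succ c) v0))
        (Nat.add (gN a b (Nat.sub v1 c)) (gN a b (Nat.sub (Nat.sub η (Nat.succ c)) v1))))))))
    k

noncomputable def DatA.TB (D : DatA) (a b : ℕ) : ℕ :=
  rsum (fun j => gN a b (Nat.sub D.η (Nat.mul 2 (Nat.add (Nat.add D.v0 D.r) j)))) D.s

noncomputable def DatA.TA (D : DatA) (a b : ℕ) : ℕ :=
  Nat.mul 2 (rsum (fun j => gN a b (Nat.add D.v0 j)) D.r)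

noncomputable def DatA.p0 (D : DatA) (a b : ℕ) : ℕ :=
  Nat.add (D.TB a b) (rsum (fun j => Nat.succ (gN a b (Nat.succ j))) (Nat.pred (Nat.add D.r D.s)))

noncomputable def DatA.n0 (D : DatA) (a b : ℕ) : ℕ :=
  Nat.add (D.TA a b)
    (rsum (fun j => gN a b (Nat.sub (Nat.sub D.η (Nat.mul 2 D.v0)) j)) (Nat.add D.r D.s))

noncomputable def DatA.pE (D : DatA) (a b : ℕ) : ℕ :=
  Nat.add (Nat.mul D.r (gN a b D.η)) (Nat.add (D.TB a b)
    (rsum (fun j => Nat.succ (gN a b (Nat.add (Nat.add D.v0 D.r) j))) D.s))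

noncomputable def DatA.nE (D : DatA) (a b : ℕ) : ℕ :=
  Nat.add (rsum (fun j => Nat.add (gN a b (Nat.sub D.η (Nat.add D.v0 j))) (gN a b (Nat.add D.v0 j))) D.r)
    (rsum (fun j => gN a b (Nat.sub D.η (Nat.add (Nat.add D.v0 D.r) j))) D.s)

/-- `q + n <= p + r (g c + g (η - c)) + E + 1` -/
noncomputable def DatA.tst (D : DatA) (a b q E c p n : ℕ) : Bool :=
  Nat.ble (Nat.add q n) (Nat.add (Nat.add p
    (Nat.mul D.r (Nat.add (gN a b c) (gN a b (Nat.sub D.η c))))) (Nat.succ E))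

noncomputable def DatA.chkI (D : DatA) (a b a' b' E : ℕ) : Bool :=
  band (Nat.ble 1 b) (band (Nat.ble 1 b')
    (band (allr (fun z => Nat.ble (Nat.mul z a') (Nat.mul (Nat.succ (gN a b z)) b')) D.C)
    (band (passA a b D.η D.v0 (Nat.pred (Nat.add (Nat.add D.v0 D.r) D.s))
        (fun c p n => bor (Nat.ble (Nat.add (gN a b (Nat.sub c D.v0))
          (gN a b (Nat.sub (Nat.sub D.η (Nat.add D.v0 D.r)) c))) 0)
          (D.tst a b (Nat.add D.r D.s) E c p n)) (Nat.pred (Nat.add D.r D.s)) D.v0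
        (D.p0 a b) (D.n0 a b))
    (band (bor (Nat.ble (gN a b (Nat.sub D.η D.v0)) (Nat.succ (gN a b (Nat.add D.v0 D.r))))
        (Nat.ble (Nat.add (Nat.add D.r D.s) (D.nE a b)) (Nat.add (D.pE a b) (Nat.succ E))))
    (bor (Nat.ble 2 (gN a b (Nat.sub D.η (Nat.mul 2 D.v0))))
      (bor (Nat.ble (D.TA a b) (Nat.add E (D.TB a b)))
        (band (passA a b D.η D.v0 (Nat.pred (Nat.add (Nat.add D.v0 D.r) D.s))
            (fun c p n => D.tst a b D.s E c p n) (Nat.pred (Nat.add D.r D.s)) D.v0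
            (D.p0 a b) (D.n0 a b))
          (Nat.ble (Nat.add D.s (D.nE a b)) (Nat.add (D.pE a b) (Nat.succ E))))))))))

noncomputable def DatA.chk (D : DatA) (L : List (ℕ × ℕ × ℕ)) : ℕ → ℕ → Bool :=
  @List.rec (ℕ × ℕ × ℕ) (fun _ => ℕ → ℕ → Bool) (fun _ _ => true)
    (fun e _ ih a b => band (D.chkI a b e.1 e.2.1 e.2.2) (ih e.1 e.2.1)) L

/-! ### Correctness -/

theorem rsum_cast (f : ℕ → ℕ) (k : ℕ) : ((rsum f k : ℕ) : ℤ) = ∑ j ∈ range k, (f j : ℤ) := by
  induction k with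
  | zero => rfl
  | succ k ih =>
    rw [Finset.sum_range_succ, ← ih]
    have : rsum f (k + 1) = rsum f k + f k := rfl
    rw [this]; push_cast; rfl

theorem wz_range (f : ℕ → ℤ) (v k : ℕ) :
    wz f ((List.range k).map fun j => (v + j, 1)) = ∑ j ∈ range k, f (v + j) := by
  unfold wz
  induction k with
  | zero => rfl
  | succ k ih =>
    rw [List.range_succ, List.map_append, List.map_append, List.sum_append, ih,
      Finset.sum_range_succ]
    simp

theorem snd_range (v k : ℕ) :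
    (((List.range k).map fun j => ((v + j, 1) : ℕ × ℕ)).map Prod.snd).sum = k := by
  induction k with
  | zero => rfl
  | succ k ih =>
    rw [List.range_succ, List.map_append, List.map_append, List.sum_append, ih]
    simp

/-- the convolution part of `V_c` -/
def Wf (f : ℤ → ℤ) (η : ℤ) (v0 q : ℕ) (c : ℤ) : ℤ :=
  ∑ j ∈ range q, (f (c - (v0 + j : ℕ)) + f (η - c - (v0 + j : ℕ)))

theorem Wf_succ (f : ℤ → ℤ) (η : ℤ) (v0 q : ℕ) (c : ℤ) :
    Wf f η v0 (q + 1) (c + 1) = Wf f η v0 (q + 1) c + f (c + 1 - v0) - f (c - (v0 + q : ℕ))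
      + f (η - c - 1 - (v0 + q : ℕ)) - f (η - c - v0) := by
  unfold Wf
  rw [Finset.sum_add_distrib, Finset.sum_add_distrib]
  have h1 : ∑ j ∈ range (q + 1), f (c + 1 - (v0 + j : ℕ)) =
      ∑ j ∈ range (q + 1), f (c - (v0 + j : ℕ)) + f (c + 1 - v0) - f (c - (v0 + q : ℕ)) := by
    rw [Finset.sum_range_succ' (fun j => f (c + 1 - (v0 + j : ℕ))),
      Finset.sum_range_succ (fun j => f (c - (v0 + j : ℕ)))]
    have : ∀ j ∈ range q, f (c + 1 - (v0 + (j + 1) : ℕ)) = f (c - (v0 + j : ℕ)) := by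
      intro j _
      congr 1; push_cast; ring
    rw [Finset.sum_congr rfl this]
    simp only [add_zero]
    ring
  have h2 : ∑ j ∈ range (q + 1), f (η - c - (v0 + j : ℕ)) =
      ∑ j ∈ range (q + 1), f (η - (c + 1) - (v0 + j : ℕ)) + f (η - c - v0)
        - f (η - c - 1 - (v0 + q : ℕ)) := by
    rw [Finset.sum_range_succ' (fun j => f (η - c - (v0 + j : ℕ))),
      Finset.sum_range_succ (fun j => f (η - (c + 1) - (v0 + j : ℕ)))]
    have : ∀ j ∈ range q, f (η - c - (v0 + (j + 1) : ℕ)) = f (η - (c + 1) - (v0 + j : ℕ)) := by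
      intro j _
      congr 1; push_cast; ring
    rw [Finset.sum_congr rfl this]
    simp only [add_zero]
    rw [show η - c - 1 - ((v0 + q : ℕ) : ℤ) = η - (c + 1) - ((v0 + q : ℕ) : ℤ) by ring]
    ring
  rw [h1, h2]; ring

theorem fz_pos_sub (a b : ℕ) {x y : ℕ} (h : y ≤ x) :
    fz a b ((x : ℤ) - y) = (gN a b (Nat.sub x y) : ℕ) := by
  rw [← fz_nat]; congr 1
  show _ = ((x - y : ℕ) : ℤ)
  omega

theorem fz_neg_sub (a b : ℕ) {x y : ℕ} (h : x < y) :
    fz a b ((x : ℤ) - y) = -((gN a b (Nat.sub y x) : ℕ) : ℤ) - 1 := by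
  rw [fz_sub]
  have h0 : gN a b 0 = 0 := by
    show 0 * a / b = 0
    simp
  have h1 : Nat.sub x y = 0 := Nat.sub_eq_zero_of_le h.le
  have h4 : Nat.sub 1 (Nat.sub 1 (Nat.sub y x)) = 1 := by
    show 1 - (1 - (y - x)) = 1
    omega
  rw [h1, h4, h0]
  push_cast; ring

theorem passA_sound {a b η v0 q : ℕ} {t : ℕ → ℕ → ℕ → Bool} (hη : 2 * (v0 + q) < η) (T : ℤ) :
    ∀ (k c p n : ℕ), passA a b η v0 (v0 + q) t k c p n = true → v0 ≤ c → c + k ≤ v0 + q →
      (p : ℤ) - n = T - Wf (fz a b) η v0 (q + 1) c →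
      ∀ i ≤ k, ∃ p' n' : ℕ, (p' : ℤ) - n' = T - Wf (fz a b) η v0 (q + 1) (c + i : ℕ) ∧
        t (c + i) p' n' = true := by
  intro k
  induction k with
  | zero =>
    intro c p n h _ _ h1 i hi
    obtain rfl : i = 0 := by omega
    exact ⟨p, n, by simpa using h1, h⟩
  | succ k ih =>
    intro c p n h hc hk h1 i hi
    have h2 : band (t c p n) (passA a b η v0 (v0 + q) t k (c + 1)
      (p + gN a b (Nat.sub (Nat.sub η c) v0))
      (n + (gN a b (Nat.sub (Nat.succ c) v0) +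
        (gN a b (Nat.sub (v0 + q) c) + gN a b (Nat.sub (Nat.sub η (Nat.succ c)) (v0 + q))) + 1)))
        = true := h
    rw [band_eq, Bool.and_eq_true] at h2
    rcases i with _ | i
    · exact ⟨p, n, by simpa using h1, h2.1⟩
    · have h3 : ((p + gN a b (Nat.sub (Nat.sub η c) v0) : ℕ) : ℤ) -
          ((n + (gN a b (Nat.sub (Nat.succ c) v0) +
          (gN a b (Nat.sub (v0 + q) c) + gN a b (Nat.sub (Nat.sub η (Nat.succ c)) (v0 + q))) + 1) : ℕ) : ℤ)
          = T - Wf (fz a b) η v0 (q + 1) ((c + 1 : ℕ) : ℤ) := by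
        have e := Wf_succ (fz a b) η v0 q c
        have e1 : fz a b ((c : ℤ) + 1 - v0) = (gN a b (Nat.sub (Nat.succ c) v0) : ℕ) := by
          have := fz_pos_sub a b (x := Nat.succ c) (y := v0) (by omega)
          rw [← this]; congr 1
        have e2 : fz a b ((c : ℤ) - (v0 + q : ℕ)) = -((gN a b (Nat.sub (v0 + q) c) : ℕ) : ℤ) - 1 :=
          fz_neg_sub a b (by omega)
        have e3 : fz a b ((η : ℤ) - c - 1 - (v0 + q : ℕ)) =
            (gN a b (Nat.sub (Nat.sub η (Nat.succ c)) (v0 + q)) : ℕ) := by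
          have h5 : v0 + q ≤ η - (c + 1) := by omega
          have := fz_pos_sub a b h5
          rw [show ((η - (c + 1) : ℕ) : ℤ) = (η : ℤ) - c - 1 by omega] at this
          exact this
        have e4 : fz a b ((η : ℤ) - c - v0) = (gN a b (Nat.sub (Nat.sub η c) v0) : ℕ) := by
          have h5 : v0 ≤ η - c := by omega
          have := fz_pos_sub a b h5
          rw [show ((η - c : ℕ) : ℤ) = (η : ℤ) - c by omega] at this
          exact this
        rw [e1, e2, e3, e4] at e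
        push_cast at e h1 ⊢
        rw [e]
        linarith [h1]
      obtain ⟨p', n', h4, h5⟩ := ih (c + 1) _ _ h2.2 (by omega) (by omega) h3 i (by omega)
      refine ⟨p', n', ?_, ?_⟩
      · rw [show c + (i + 1) = c + 1 + i by ring]; exact h4
      · rw [show c + (i + 1) = c + 1 + i by ring]; exact h5

theorem DatA.dat_chkI {D : DatA} (hr : 0 < D.r) (hs : 0 < D.s)
    (hη : 2 * (D.v0 + D.r + D.s) ≤ D.η) {a b a' b' E : ℕ}
    (h : D.chkI a b a' b' E = true) : D.dat.chkI a b a' b' E = true := by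
  obtain ⟨q, hq⟩ : ∃ q, D.r + D.s = q + 1 := ⟨D.r + D.s - 1, by omega⟩
  have hv1 : Nat.pred (Nat.add (Nat.add D.v0 D.r) D.s) = D.v0 + q := by
    show (D.v0 + D.r + D.s) - 1 = D.v0 + q
    omega
  have hq1 : Nat.pred (Nat.add D.r D.s) = q := by
    show D.r + D.s - 1 = q
    omega
  -- the constant part
  set T : ℤ := (D.TB a b : ℤ) - D.TA a b with hT
  have hTB : (D.TB a b : ℤ) = wz (fun v => fz a b ((D.η : ℤ) - 2 * v)) D.dat.B := by
    unfold DatA.TB
    rw [rsum_cast]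
    show _ = wz _ ((List.range D.s).map fun j => (D.v0 + D.r + j, 1))
    rw [wz_range]
    apply Finset.sum_congr rfl
    intro j hj
    rw [Finset.mem_range] at hj
    have := fz_pos_sub a b (x := D.η) (y := 2 * (D.v0 + D.r + j)) (by omega)
    rw [← fz_nat] at this
    rw [← fz_nat]
    rw [show ((2 * (D.v0 + D.r + j) : ℕ) : ℤ) = 2 * ((D.v0 + D.r + j : ℕ) : ℤ) by push_cast; ring]
      at this
    rw [this]
    rfl
  have hTA : (D.TA a b : ℤ) = 2 * wz (fun v => fz a b (v : ℤ)) D.dat.A := by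
    have h1 : D.TA a b = 2 * rsum (fun j => gN a b (Nat.add D.v0 j)) D.r := rfl
    rw [h1]
    push_cast
    rw [rsum_cast]
    show _ = 2 * wz _ ((List.range D.r).map fun j => (D.v0 + j, 1))
    rw [wz_range]
    rfl
  have hW : ∀ c : ℤ, wz (fun v => fz a b (c - v) + fz a b (D.η - c - v)) D.dat.A +
      wz (fun v => fz a b (c - v) + fz a b (D.η - c - v)) D.dat.B =
      Wf (fz a b) D.η D.v0 (q + 1) c := by
    intro c
    show wz _ ((List.range D.r).map fun j => (D.v0 + j, 1)) +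
      wz _ ((List.range D.s).map fun j => (D.v0 + D.r + j, 1)) = _
    rw [wz_range, wz_range]
    unfold Wf
    rw [← hq, Finset.sum_range_add]
    congr 1
    apply Finset.sum_congr rfl
    intro j _
    rw [add_assoc]
  have hrA : ((D.dat.A.map Prod.snd).sum) = D.r := snd_range D.v0 D.r
  have hsB : ((D.dat.B.map Prod.snd).sum) = D.s := snd_range (D.v0 + D.r) D.s
  have hV : ∀ c : ℤ, Vcw D.η D.dat.A D.dat.B (fz a b) c = T - Wf (fz a b) D.η D.v0 (q + 1) c +
      D.r * (fz a b c + fz a b (D.η - c)) := by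
    intro c
    rw [Vcw_eq, hrA, ← hW c, hT, hTB, hTA]
    ring
  have hE : Vew D.η D.dat.A D.dat.B (fz a b) = (D.pE a b : ℤ) - D.nE a b := by
    rw [Vew_eq, hrA]
    have e1 : (D.pE a b : ℤ) = D.r * (gN a b D.η : ℤ) + ((D.TB a b : ℤ) +
        ∑ j ∈ range D.s, ((gN a b (D.v0 + D.r + j) : ℤ) + 1)) := by
      have h1 : D.pE a b = D.r * gN a b D.η + (D.TB a b +
        rsum (fun j => Nat.succ (gN a b (Nat.add (Nat.add D.v0 D.r) j))) D.s) := rfl
      rw [h1]; push_cast; rw [rsum_cast]; push_cast; rfl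
    have e2 : (D.nE a b : ℤ) = ∑ j ∈ range D.r, ((gN a b (D.η - (D.v0 + j)) : ℤ) +
        gN a b (D.v0 + j)) + ∑ j ∈ range D.s, (gN a b (D.η - (D.v0 + D.r + j)) : ℤ) := by
      have h1 : D.nE a b = rsum (fun j => Nat.add (gN a b (Nat.sub D.η (Nat.add D.v0 j)))
        (gN a b (Nat.add D.v0 j))) D.r +
        rsum (fun j => gN a b (Nat.sub D.η (Nat.add (Nat.add D.v0 D.r) j))) D.s := rfl
      rw [h1]; push_cast; rw [rsum_cast, rsum_cast]
      congr 1
    rw [e1, e2, hTB]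
    have e3 : wz (fun v => fz a b ((D.η : ℤ) - 2 * v) + fz a b v + 1) D.dat.B =
        wz (fun v => fz a b ((D.η : ℤ) - 2 * v)) D.dat.B +
        ∑ j ∈ range D.s, ((gN a b (D.v0 + D.r + j) : ℤ) + 1) := by
      have h1 : (fun v : ℕ => fz a b ((D.η : ℤ) - 2 * v) + fz a b v + 1) =
        (fun v : ℕ => fz a b ((D.η : ℤ) - 2 * v) + (fz a b v + 1)) := by funext v; ring
      rw [h1, wz_add]
      congr 1
      exact wz_range _ _ _
    have e4 : wz (fun v => fz a b ((D.η : ℤ) - v) + fz a b v) D.dat.A =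
        ∑ j ∈ range D.r, ((gN a b (D.η - (D.v0 + j)) : ℤ) + gN a b (D.v0 + j)) := by
      refine (wz_range _ _ _).trans (Finset.sum_congr rfl fun j hj => ?_)
      rw [Finset.mem_range] at hj
      rw [fz_pos_sub a b (by omega)]
      rfl
    have e5 : wz (fun v => fz a b ((D.η : ℤ) - v)) D.dat.B =
        ∑ j ∈ range D.s, (gN a b (D.η - (D.v0 + D.r + j)) : ℤ) := by
      refine (wz_range _ _ _).trans (Finset.sum_congr rfl fun j hj => ?_)
      rw [Finset.mem_range] at hj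
      rw [fz_pos_sub a b (by omega)]
      rfl
    rw [e3, e4, e5, fz_nat]
    ring
  -- the start of the sweep
  have hp0 : (D.p0 a b : ℤ) - D.n0 a b = T - Wf (fz a b) D.η D.v0 (q + 1) D.v0 := by
    have e1 : (D.p0 a b : ℤ) = D.TB a b + ∑ j ∈ range q, ((gN a b (j + 1) : ℤ) + 1) := by
      have h1 : D.p0 a b = D.TB a b +
        rsum (fun j => Nat.succ (gN a b (Nat.succ j))) (Nat.pred (Nat.add D.r D.s)) := rfl
      rw [h1, hq1]; push_cast; rw [rsum_cast]; push_cast; rfl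
    have e2 : (D.n0 a b : ℤ) = D.TA a b +
        ∑ j ∈ range (q + 1), (gN a b (D.η - 2 * D.v0 - j) : ℤ) := by
      have h1 : D.n0 a b = D.TA a b +
        rsum (fun j => gN a b (Nat.sub (Nat.sub D.η (Nat.mul 2 D.v0)) j)) (D.r + D.s) := rfl
      rw [h1, hq]; push_cast; rw [rsum_cast]; rfl
    have e0 : Wf (fz a b) D.η D.v0 (q + 1) D.v0 =
        (∑ j ∈ range q, fz a b (D.v0 - (D.v0 + (j + 1) : ℕ)) + fz a b (D.v0 - (D.v0 + 0 : ℕ))) +
        ∑ j ∈ range (q + 1), fz a b (D.η - D.v0 - (D.v0 + j : ℕ)) := by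
      unfold Wf
      rw [Finset.sum_add_distrib, Finset.sum_range_succ' (fun j => fz a b (D.v0 - (D.v0 + j : ℕ)))]
    rw [e1, e2, hT, e0]
    have e3 : ∑ j ∈ range q, fz a b (D.v0 - (D.v0 + (j + 1) : ℕ)) =
        -∑ j ∈ range q, ((gN a b (j + 1) : ℤ) + 1) := by
      rw [← Finset.sum_neg_distrib]
      apply Finset.sum_congr rfl
      intro j _
      rw [fz_neg_sub a b (by omega)]
      have : Nat.sub (D.v0 + (j + 1)) D.v0 = j + 1 := by
        show D.v0 + (j + 1) - D.v0 = j + 1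
        omega
      rw [this]; ring
    have e4 : fz a b (D.v0 - (D.v0 + 0 : ℕ)) = 0 := by
      rw [fz_pos_sub a b (by omega)]
      have : Nat.sub D.v0 (D.v0 + 0) = 0 := by
        show D.v0 - (D.v0 + 0) = 0
        omega
      rw [this]
      show ((0 * a / b : ℕ) : ℤ) = 0
      simp
    have e5 : ∑ j ∈ range (q + 1), fz a b (D.η - D.v0 - (D.v0 + j : ℕ)) =
        ∑ j ∈ range (q + 1), (gN a b (D.η - 2 * D.v0 - j) : ℤ) := by
      apply Finset.sum_congr rfl
      intro j hj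
      rw [Finset.mem_range] at hj
      rw [← fz_nat]
      congr 1
      omega
    rw [e3, e4, e5]
    ring
  simp only [DatA.chkI, band_eq, bor_eq, allr_eq, Bool.and_eq_true, Bool.or_eq_true,
    List.all_eq_true, Nat.ble_eq, hv1, hq1] at h
  obtain ⟨h1, h2, h3, h4, h5, h6⟩ := h
  have hcand : ∀ c ∈ D.dat.cand, ∃ i ≤ q, c = D.v0 + i := by
    intro c hc
    rcases List.mem_append.1 hc with hc | hc
    · change c ∈ ((List.range D.r).map fun j => ((D.v0 + j, 1) : ℕ × ℕ)).map Prod.fst at hc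
      rw [List.map_map, List.mem_map] at hc
      obtain ⟨j, hj, rfl⟩ := hc
      rw [List.mem_range] at hj
      exact ⟨j, by omega, rfl⟩
    · change c ∈ ((List.range D.s).map fun j => ((D.v0 + D.r + j, 1) : ℕ × ℕ)).map Prod.fst at hc
      rw [List.map_map, List.mem_map] at hc
      obtain ⟨j, hj, rfl⟩ := hc
      rw [List.mem_range] at hj
      exact ⟨D.r + j, by omega, by show D.v0 + D.r + j = _; ring⟩
  have hrr : ((D.dat.A.map fun b => (b.2 : ℤ)).sum) = D.r := by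
    have := wz_const 1 D.dat.A
    rw [hrA] at this
    unfold wz at this
    simpa using this
  have hss : ((D.dat.B.map fun b => (b.2 : ℤ)).sum) = D.s := by
    have := wz_const 1 D.dat.B
    rw [hsB] at this
    unfold wz at this
    simpa using this
  have hfc : ∀ i ≤ q, fz a b ((D.v0 + i : ℕ) : ℤ) + fz a b ((D.η : ℤ) - (D.v0 + i : ℕ)) =
      (gN a b (D.v0 + i) + gN a b (Nat.sub D.η (D.v0 + i)) : ℕ) := by
    intro i hi
    rw [fz_pos_sub a b (by omega), fz_nat]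
    push_cast; rfl
  have htst : ∀ (Q i p n : ℕ), i ≤ q → (p : ℤ) - n = T - Wf (fz a b) D.η D.v0 (q + 1) (D.v0 + i : ℕ) →
      D.tst a b Q E (D.v0 + i) p n = true →
      (Q : ℤ) - 1 - Vcw D.η D.dat.A D.dat.B (fz a b) (D.v0 + i : ℕ) ≤ E := by
    intro Q i p n hi h h'
    have h7 : Q + n ≤ p + D.r * (gN a b (D.v0 + i) + gN a b (Nat.sub D.η (D.v0 + i))) + (E + 1) :=
      Nat.le_of_ble_eq_true h'
    rw [hV, ← h, hfc i hi]
    zify at h7 ⊢
    linarith
  simp only [Dat.chkI, Bool.and_eq_true, Bool.or_eq_true, List.all_eq_true,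
    decide_eq_true_eq]
  refine ⟨⟨⟨⟨⟨h1, h2⟩, fun z hz => h3 z hz⟩, ?_⟩, ?_⟩, ?_⟩
  · intro c hc
    obtain ⟨i, hi, rfl⟩ := hcand c hc
    obtain ⟨p, n, hpn, ht⟩ := passA_sound (q := q) (by omega) T q D.v0 _ _ h4 le_rfl le_rfl hp0 i hi
    rw [Bool.or_eq_true] at ht
    rcases ht with ht | ht
    · left
      have h7 : gN a b (Nat.sub (D.v0 + i) D.v0) +
          gN a b (Nat.sub (Nat.sub D.η (D.v0 + D.r)) (D.v0 + i)) ≤ 0 := Nat.le_of_ble_eq_true ht
      change fz a b (((D.v0 + i : ℕ) : ℤ) - D.v0) +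
        fz a b ((D.η : ℤ) - (D.v0 + D.r : ℕ) - (D.v0 + i : ℕ)) < 1
      rw [fz_pos_sub a b (by omega), show ((D.η : ℤ) - (D.v0 + D.r : ℕ) - (D.v0 + i : ℕ)) =
        (((D.η - (D.v0 + D.r) : ℕ) : ℤ) - (D.v0 + i : ℕ)) by omega, fz_pos_sub a b (by omega)]
      have h8 : gN a b (Nat.sub (D.v0 + i) D.v0) +
          gN a b (Nat.sub (D.η - (D.v0 + D.r)) (D.v0 + i)) ≤ 0 := h7
      omega
    · right
      have := htst _ i p n hi hpn ht
      change ((D.dat.A.map fun b => (b.2 : ℤ)).sum) + ((D.dat.B.map fun b => (b.2 : ℤ)).sum) - 1 -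
        Vcw D.η D.dat.A D.dat.B (fz a b) (D.v0 + i : ℕ) ≤ E
      rw [hrr, hss]
      have h8 : ((Nat.add D.r D.s : ℕ) : ℤ) = (D.r : ℤ) + D.s := by
        show ((D.r + D.s : ℕ) : ℤ) = _
        push_cast; rfl
      rw [h8] at this
      exact this
  · rcases h5 with h | h
    · left
      change fz a b ((D.η : ℤ) - D.v0) < fz a b (D.v0 + D.r : ℕ) + 2
      rw [fz_pos_sub a b (by omega), fz_nat]
      have h7 : gN a b (Nat.sub D.η D.v0) ≤ gN a b (D.v0 + D.r) + 1 := h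
      omega
    · right
      have h7 : (D.r + D.s) + D.nE a b ≤ D.pE a b + (E + 1) := h
      change ((D.dat.A.map fun b => (b.2 : ℤ)).sum) + ((D.dat.B.map fun b => (b.2 : ℤ)).sum) - 1 -
        Vew D.η D.dat.A D.dat.B (fz a b) ≤ E
      rw [hrr, hss, hE]
      omega
  · rcases h6 with h | h | h
    · left; left
      change 2 ≤ fz a b ((D.η : ℤ) - 2 * D.v0)
      have h' : ((D.η : ℤ) - 2 * D.v0) = ((D.η : ℤ) - ((2 * D.v0 : ℕ) : ℤ)) := by push_cast; rfl
      rw [h', fz_pos_sub a b (by omega)]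
      have h7 : 2 ≤ gN a b (Nat.sub D.η (2 * D.v0)) := h
      omega
    · left; right
      change altw D.η D.dat.A D.dat.B (fz a b) ≤ E
      rw [altw_eq, ← hTA, ← hTB]
      have h7 : D.TA a b ≤ E + D.TB a b := h
      omega
    · right
      refine ⟨?_, ?_⟩
      · intro c hc
        obtain ⟨i, hi, rfl⟩ := hcand c hc
        obtain ⟨p, n, hpn, ht⟩ := passA_sound (q := q) (by omega) T q D.v0 _ _ h.1 le_rfl le_rfl hp0 i hi
        have := htst _ i p n hi hpn ht
        change ((D.dat.B.map fun b => (b.2 : ℤ)).sum) - 1 -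
          Vcw D.η D.dat.A D.dat.B (fz a b) (D.v0 + i : ℕ) ≤ E
        rw [hss]
        exact this
      · have h' := h.2
        change D.s + D.nE a b ≤ D.pE a b + (E + 1) at h'
        change ((D.dat.B.map fun b => (b.2 : ℤ)).sum) - 1 - Vew D.η D.dat.A D.dat.B (fz a b) ≤ E
        rw [hss, hE]
        omega

/-! ### The static check and the final statement -/

/-- the multipliers needed are in the list `C` -/
def DatA.chkC (D : DatA) : Bool :=
  (List.range (D.r + D.s - 1)).all (fun j => D.C.contains (j + 1)) &&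
  (List.range (D.r + D.s)).all (fun j => D.C.contains (D.v0 + j)) &&
  (List.range (D.r + D.s)).all (fun j => D.C.contains (D.η - D.v0 - j)) &&
  (List.range (2 * (D.r + D.s) - 1)).all (fun j => D.C.contains (D.η - 2 * D.v0 - j)) &&
  D.C.contains D.η && D.C.all (fun z => decide (0 < z) && decide (z ≤ D.η))

theorem DatA.mem_cand {D : DatA} {c : ℕ} (hc : c ∈ D.dat.cand) :
    ∃ i < D.r + D.s, c = D.v0 + i := by
  rcases List.mem_append.1 hc with hc | hc
  · change c ∈ ((List.range D.r).map fun j => ((D.v0 + j, 1) : ℕ × ℕ)).map Prod.fst at hc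
    rw [List.map_map, List.mem_map] at hc
    obtain ⟨j, hj, rfl⟩ := hc
    rw [List.mem_range] at hj
    exact ⟨j, by omega, rfl⟩
  · change c ∈ ((List.range D.s).map fun j => ((D.v0 + D.r + j, 1) : ℕ × ℕ)).map Prod.fst at hc
    rw [List.map_map, List.mem_map] at hc
    obtain ⟨j, hj, rfl⟩ := hc
    rw [List.mem_range] at hj
    exact ⟨D.r + j, by omega, by show D.v0 + D.r + j = _; ring⟩

theorem DatA.chk0 {D : DatA} (hr : 0 < D.r) (hs : 0 < D.s)
    (hη : 2 * (D.v0 + D.r + D.s) ≤ D.η) (h : D.chkC = true) : D.dat.chk0 = true := by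
  simp only [DatA.chkC, Bool.and_eq_true, List.all_eq_true, decide_eq_true_eq,
    List.contains_iff_mem, List.mem_range] at h
  obtain ⟨⟨⟨⟨⟨h1, h2⟩, h3⟩, h4⟩, h5⟩, h6⟩ := h
  have hA : ∀ e ∈ D.dat.A, ∃ j < D.r, e = (D.v0 + j, 1) := by
    intro e he
    change e ∈ (List.range D.r).map fun j => ((D.v0 + j, 1) : ℕ × ℕ) at he
    obtain ⟨j, hj, rfl⟩ := List.mem_map.1 he
    exact ⟨j, List.mem_range.1 hj, rfl⟩
  have hB : ∀ e ∈ D.dat.B, ∃ j < D.s, e = (D.v0 + D.r + j, 1) := by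
    intro e he
    change e ∈ (List.range D.s).map fun j => ((D.v0 + D.r + j, 1) : ℕ × ℕ) at he
    obtain ⟨j, hj, rfl⟩ := List.mem_map.1 he
    exact ⟨j, List.mem_range.1 hj, rfl⟩
  -- the four kinds of multipliers
  have k1 : ∀ z : ℤ, z.natAbs < D.r + D.s → z = 0 ∨ z.natAbs ∈ D.C := by
    intro z hz
    rcases Nat.eq_zero_or_pos z.natAbs with h | h
    · left; exact Int.natAbs_eq_zero.1 h
    · right
      have := h1 (z.natAbs - 1) (by omega)
      rwa [Nat.sub_add_cancel h] at this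
  have k2 : ∀ z : ℤ, (D.v0 : ℤ) ≤ z → z < D.v0 + (D.r + D.s) → z = 0 ∨ z.natAbs ∈ D.C := by
    intro z hz hz'
    right
    have := h2 (z.natAbs - D.v0) (by omega)
    rwa [show D.v0 + (z.natAbs - D.v0) = z.natAbs by omega] at this
  have k3 : ∀ z : ℤ, (D.η : ℤ) - D.v0 - (D.r + D.s) < z → z ≤ D.η - D.v0 →
      z = 0 ∨ z.natAbs ∈ D.C := by
    intro z hz hz'
    right
    have := h3 (D.η - D.v0 - z.natAbs) (by omega)
    rwa [show D.η - D.v0 - (D.η - D.v0 - z.natAbs) = z.natAbs by omega] at this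
  have k4 : ∀ z : ℤ, (D.η : ℤ) - 2 * D.v0 - (2 * (D.r + D.s) - 1) < z → z ≤ D.η - 2 * D.v0 →
      z = 0 ∨ z.natAbs ∈ D.C := by
    intro z hz hz'
    right
    have := h4 (D.η - 2 * D.v0 - z.natAbs) (by omega)
    rwa [show D.η - 2 * D.v0 - (D.η - 2 * D.v0 - z.natAbs) = z.natAbs by omega] at this
  have hneed : ∀ z ∈ D.dat.need, z = 0 ∨ z.natAbs ∈ D.C := by
    intro z hz
    simp only [Dat.need, List.mem_append] at hz
    rcases hz with (((((((hz | hz) | hz) | hz) | hz) | hz) | hz) | hz)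
    · simp only [List.mem_cons, List.not_mem_nil, or_false] at hz
      change z = (D.η : ℤ) ∨ z = (D.η : ℤ) - D.v0 ∨ z = (D.η : ℤ) - 2 * D.v0 at hz
      rcases hz with rfl | rfl | rfl
      · right; simpa using h5
      · exact k3 _ (by omega) le_rfl
      · exact k4 _ (by omega) le_rfl
    · obtain ⟨c, hc, rfl⟩ := List.mem_map.1 hz
      obtain ⟨i, hi, rfl⟩ := DatA.mem_cand hc
      exact k2 _ (by push_cast; omega) (by push_cast; omega)
    · obtain ⟨c, hc, rfl⟩ := List.mem_map.1 hz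
      obtain ⟨i, hi, rfl⟩ := DatA.mem_cand hc
      change ((D.v0 + i : ℕ) : ℤ) - D.v0 = 0 ∨ (((D.v0 + i : ℕ) : ℤ) - D.v0).natAbs ∈ D.C
      exact k1 _ (by omega)
    · obtain ⟨c, hc, rfl⟩ := List.mem_map.1 hz
      obtain ⟨i, hi, rfl⟩ := DatA.mem_cand hc
      change (D.η : ℤ) - (D.v0 + D.r : ℕ) - (D.v0 + i : ℕ) = 0 ∨
        ((D.η : ℤ) - (D.v0 + D.r : ℕ) - (D.v0 + i : ℕ)).natAbs ∈ D.C
      exact k4 _ (by push_cast; omega) (by push_cast; omega)
    · obtain ⟨c, hc, rfl⟩ := List.mem_map.1 hz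
      obtain ⟨i, hi, rfl⟩ := DatA.mem_cand hc
      change (D.η : ℤ) - (D.v0 + i : ℕ) = 0 ∨ ((D.η : ℤ) - (D.v0 + i : ℕ)).natAbs ∈ D.C
      exact k3 _ (by push_cast; omega) (by push_cast; omega)
    · obtain ⟨c, hc, rfl⟩ := List.mem_map.1 hz
      obtain ⟨i, hi, rfl⟩ := DatA.mem_cand hc
      change (D.η : ℤ) - 2 * (D.v0 + i : ℕ) = 0 ∨ ((D.η : ℤ) - 2 * (D.v0 + i : ℕ)).natAbs ∈ D.C
      exact k4 _ (by push_cast; omega) (by push_cast; omega)
    · obtain ⟨c, hc, hz⟩ := List.mem_flatMap.1 hz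
      obtain ⟨a, ha, rfl⟩ := List.mem_map.1 hz
      obtain ⟨i, hi, rfl⟩ := DatA.mem_cand hc
      obtain ⟨j, hj, rfl⟩ := DatA.mem_cand ha
      exact k1 _ (by omega)
    · obtain ⟨c, hc, hz⟩ := List.mem_flatMap.1 hz
      obtain ⟨a, ha, rfl⟩ := List.mem_map.1 hz
      obtain ⟨i, hi, rfl⟩ := DatA.mem_cand hc
      obtain ⟨j, hj, rfl⟩ := DatA.mem_cand ha
      change (D.η : ℤ) - (D.v0 + i : ℕ) - (D.v0 + j : ℕ) = 0 ∨
        ((D.η : ℤ) - (D.v0 + i : ℕ) - (D.v0 + j : ℕ)).natAbs ∈ D.C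
      exact k4 _ (by push_cast; omega) (by push_cast; omega)
  simp only [Dat.chk0, Bool.and_eq_true, List.all_eq_true, decide_eq_true_eq, Bool.or_eq_true,
    List.contains_iff_mem]
  refine ⟨⟨⟨⟨⟨⟨⟨⟨⟨hneed, h6⟩, ?_⟩, ?_⟩, ?_⟩, ?_⟩, ?_⟩, ?_⟩, ?_⟩, ?_⟩
  · intro e he
    obtain ⟨j, hj, rfl⟩ := hA e he
    show D.v0 ≤ D.v0 + j
    omega
  · intro e he
    obtain ⟨j, hj, rfl⟩ := hB e he
    show D.v0 + D.r ≤ D.v0 + D.r + j
    omega
  · exact List.mem_map.2 ⟨(D.v0 + 0, 1), List.mem_map.2 ⟨0, List.mem_range.2 hr, rfl⟩, rfl⟩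
  · exact List.mem_map.2 ⟨(D.v0 + D.r + 0, 1), List.mem_map.2 ⟨0, List.mem_range.2 hs, rfl⟩, rfl⟩
  · intro e he
    obtain ⟨j, hj, rfl⟩ := hA e he
    exact Nat.one_pos
  · intro e he
    obtain ⟨j, hj, rfl⟩ := hB e he
    exact Nat.one_pos
  · intro e he
    obtain ⟨j, hj, rfl⟩ := hA e he
    show D.v0 + j ≤ D.v0 + D.r
    omega
  · intro e he
    obtain ⟨j, hj, rfl⟩ := hB e he
    show 2 * (D.v0 + D.r + j) < D.η
    omega

/-- the data as `DatN` -/
def DatA.toN (D : DatA) : DatN :=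
  ⟨D.η, D.dat.A, D.dat.B, D.dat.A ++ D.dat.B, D.v0, D.v0 + D.r, D.r, D.s, D.C, D.dat.cand⟩

theorem DatA.valid {D : DatA} (hr : 0 < D.r) (hs : 0 < D.s)
    (hη : 2 * (D.v0 + D.r + D.s) ≤ D.η) (h : D.chkC = true) : D.toN.Valid where
  hS := rfl
  hcd := rfl
  hr := (snd_range D.v0 D.r).symm
  hs := (snd_range (D.v0 + D.r) D.s).symm
  h0 := DatA.chk0 hr hs hη h

/-- all intervals of a list are good -/
def Dat.GoodL (D : Dat) : List (ℕ × ℕ × ℕ) → ℕ → ℕ → Prop
  | [], _, _ => True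
  | e :: L, a, b => D.chkI a b e.1 e.2.1 e.2.2 = true ∧ D.GoodL L e.1 e.2.1

theorem DatA.goodL {D : DatA} (hr : 0 < D.r) (hs : 0 < D.s)
    (hη : 2 * (D.v0 + D.r + D.s) ≤ D.η) :
    ∀ (L : List (ℕ × ℕ × ℕ)) (a b : ℕ), D.chk L a b = true → D.dat.GoodL L a b := by
  intro L
  induction L with
  | nil => intro a b _; exact trivial
  | cons e L ih =>
    intro a b h
    have h2 : band (D.chkI a b e.1 e.2.1 e.2.2) (D.chk L e.1 e.2.1) = true := h
    rw [band_eq, Bool.and_eq_true] at h2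
    exact ⟨DatA.dat_chkI hr hs hη h2.1, ih _ _ h2.2⟩

/-- concatenation: lets one check a long list in pieces -/
theorem Dat.GoodL.append {D : Dat} {L' : List (ℕ × ℕ × ℕ)} {c d : ℕ} (h' : D.GoodL L' c d) :
    ∀ (L : List (ℕ × ℕ × ℕ)) (a b : ℕ), D.GoodL L a b →
      ((L.getLast?).map fun e => (e.1, e.2.1)).getD (a, b) = (c, d) → D.GoodL (L ++ L') a b := by
  intro L
  induction L with
  | nil =>
    intro a b _ h
    simp only [List.getLast?_nil, Option.map_none, Option.getD_none, Prod.mk.injEq] at h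
    obtain ⟨rfl, rfl⟩ := h
    exact h'
  | cons e L ih =>
    intro a b h h2
    refine ⟨h.1, ih _ _ h.2 ?_⟩
    cases L with
    | nil =>
      simpa using h2
    | cons e' L' =>
      rw [← h2, List.getLast?_cons_cons]
      cases hl : (e' :: L').getLast? with
      | none => simp at hl
      | some x => rfl

theorem Dat.look_sound {D : Dat} {n p q : ℕ} {P : ℕ → Prop} (hq : P q)
    (hI : ∀ a b a' b' E, D.chkI a b a' b' E = true → a * p ≤ n * b → n * b' < a' * p → P E) :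
    ∀ (L : List (ℕ × ℕ × ℕ)) (a b : ℕ), D.GoodL L a b → a * p ≤ n * b →
      P (lookq q L n p) := by
  intro L
  induction L with
  | nil => intro a b _ _; exact hq
  | cons e L ih =>
    intro a b h h1
    unfold lookq
    split
    · rename_i h3
      exact hI _ _ _ _ _ h.1 h1 h3
    · rename_i h3
      exact ih _ _ h.2 (not_lt.1 h3)

theorem DatN.hE' {D : DatN} (hD : D.Valid) (L : List (ℕ × ℕ × ℕ)) (hL : D.dat.GoodL L 0 1) :
    ∀ᶠ n : ℕ in Filter.atTop, ∀ p : ℕ, p.Prime → (D.dat.fam.par n).h < p * p →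
      p ≤ (D.dat.fam.par n).h → Expo (D.dat.fam.par n) (D.a0 * n) (D.b0 * n + 1) p (D.e L n p) := by
  have hr' : (D.dat.fam.par 0).r = D.r := by
    have h1 : (((D.dat.fam.par 0).r : ℕ) : ℤ) = (D.A.map fun b => (b.2 : ℤ)).sum := length_ex D.A
    have h2 := wz_const 1 D.A
    unfold wz at h2
    rw [← hD.hr] at h2
    have h3 : (((D.dat.fam.par 0).r : ℕ) : ℤ) = D.r := by rw [h1]; simpa using h2
    exact_mod_cast h3
  have hs' : (D.dat.fam.par 0).s = D.s := by
    have h1 : (((D.dat.fam.par 0).s : ℕ) : ℤ) = (D.B.map fun b => (b.2 : ℤ)).sum := length_ex D.B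
    have h2 := wz_const 1 D.B
    unfold wz at h2
    rw [← hD.hs] at h2
    have h3 : (((D.dat.fam.par 0).s : ℕ) : ℤ) = D.s := by rw [h1]; simpa using h2
    exact_mod_cast h3
  filter_upwards [Filter.eventually_ge_atTop (D.η + 1)] with n hn p hp hpp _
  have hr : (D.dat.fam.par n).r = D.r := hr'
  have hs1 : (D.dat.fam.par n).s = D.s := hs'
  have hη : D.η < p := by
    by_contra hc
    push Not at hc
    have h1 : (D.dat.fam.par n).h = D.η * n + 2 := rfl
    rw [h1] at hpp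
    have h2 : p * p ≤ D.η * D.η := Nat.mul_le_mul hc hc
    have h3 : D.η * D.η ≤ D.η * n := Nat.mul_le_mul_left _ (by omega)
    omega
  have htop : Expo (D.dat.fam.par n) (D.a0 * n) (D.b0 * n + 1) p (D.r + D.s - 1) :=
    expo_top _ _ _ hp.pos (by rw [hr, hs1])
  unfold DatN.e
  split
  · exact htop
  · rename_i hex
    push Not at hex
    refine Dat.look_sound (D := D.dat) (P := fun E => Expo (D.dat.fam.par n) (D.a0 * n)
      (D.b0 * n + 1) p E) htop ?_ L 0 1 hL (by omega)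
    intro a b a' b' E hI h1 h2
    exact Dat.expo_of_chkI D.dat hD.h0 hI (by omega) hp h1 h2 hex.1 hη hex.2

end ZetaSets
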