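import Pool.Agent.Work.MP_4f096c_nt.Cert

/-!
A kernel friendly version of the checker `Dat.chkI` (natural numbers only) and the soundness of
a list of intervals.
-/

namespace ZetaSets

/-- weighted sum, kernel friendly -/
noncomputable def wsum (f : ℕ → ℕ) (l : List (ℕ × ℕ)) : ℕ :=
  @List.rec (ℕ × ℕ) (fun _ => ℕ) 0 (fun e _ ih => Nat.add (Nat.mul e.2 (f e.1)) ih) l

noncomputable def bor (x y : Bool) : Bool := Bool.rec y true x
noncomputable def band (x y : Bool) : Bool := Bool.rec false y x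

/-- all, kernel friendly -/
noncomputable def allr {α : Type} (f : α → Bool) (l : List α) : Bool :=
  @List.rec α (fun _ => Bool) true (fun e _ ih => band (f e) ih) l

noncomputable def gN (a b z : ℕ) : ℕ := Nat.div (Nat.mul z a) b

/-- positive part of `V_c` -/
noncomputable def posV (a b η r : ℕ) (S B : List (ℕ × ℕ)) (c : ℕ) : ℕ :=
  Nat.add (wsum (fun v => gN a b (Nat.sub η (Nat.mul 2 v))) B)
    (Nat.add (Nat.mul r (Nat.add (gN a b c) (gN a b (Nat.sub η c))))
      (wsum (fun v => Nat.add (gN a b (Nat.sub v c)) (Nat.sub 1 (Nat.sub 1 (Nat.sub v c)))) S))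

/-- negative part of `V_c` -/
noncomputable def negV (a b η : ℕ) (S A : List (ℕ × ℕ)) (c : ℕ) : ℕ :=
  Nat.add (Nat.mul 2 (wsum (gN a b) A))
    (wsum (fun v => Nat.add (gN a b (Nat.sub c v)) (gN a b (Nat.sub (Nat.sub η c) v))) S)

noncomputable def posE (a b η r : ℕ) (B : List (ℕ × ℕ)) : ℕ :=
  Nat.add (Nat.mul r (gN a b η))
    (wsum (fun v => Nat.add (Nat.add (gN a b (Nat.sub η (Nat.mul 2 v))) (gN a b v)) 1) B)

noncomputable def negE (a b η : ℕ) (A B : List (ℕ × ℕ)) : ℕ :=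
  Nat.add (wsum (fun v => Nat.add (gN a b (Nat.sub η v)) (gN a b v)) A)
    (wsum (fun v => gN a b (Nat.sub η v)) B)

/-- data with redundant fields for fast evaluation -/
structure DatN where
  η : ℕ
  A : List (ℕ × ℕ)
  B : List (ℕ × ℕ)
  S : List (ℕ × ℕ)
  a0 : ℕ
  b0 : ℕ
  r : ℕ
  s : ℕ
  C : List ℕ
  cd : List ℕ

noncomputable def DatN.chkI (D : DatN) (a b a' b' E : ℕ) : Bool :=
  band (Nat.ble 1 b) (band (Nat.ble 1 b')
    (band (allr (fun z => Nat.ble (Nat.mul z a') (Nat.mul (Nat.succ (gN a b z)) b')) D.C)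
    (band (allr (fun c => bor (Nat.ble (Nat.add (gN a b (Nat.sub c D.a0))
          (gN a b (Nat.sub (Nat.sub D.η D.b0) c))) 0)
        (Nat.ble (Nat.add (Nat.add D.r D.s) (negV a b D.η D.S D.A c))
          (Nat.add (posV a b D.η D.r D.S D.B c) (Nat.succ E)))) D.cd)
    (band (bor (Nat.ble (gN a b (Nat.sub D.η D.a0)) (Nat.succ (gN a b D.b0)))
        (Nat.ble (Nat.add (Nat.add D.r D.s) (negE a b D.η D.A D.B))
          (Nat.add (posE a b D.η D.r D.B) (Nat.succ E))))
    (bor (Nat.ble 2 (gN a b (Nat.sub D.η (Nat.mul 2 D.a0))))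
      (bor (Nat.ble (Nat.mul 2 (wsum (gN a b) D.A))
          (Nat.add E (wsum (fun v => gN a b (Nat.sub D.η (Nat.mul 2 v))) D.B)))
        (band (allr (fun c => Nat.ble (Nat.add D.s (negV a b D.η D.S D.A c))
          (Nat.add (posV a b D.η D.r D.S D.B c) (Nat.succ E))) D.cd)
          (Nat.ble (Nat.add D.s (negE a b D.η D.A D.B))
            (Nat.add (posE a b D.η D.r D.B) (Nat.succ E))))))))))

noncomputable def DatN.chk (D : DatN) (L : List (ℕ × ℕ × ℕ)) : ℕ → ℕ → Bool :=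
  @List.rec (ℕ × ℕ × ℕ) (fun _ => ℕ → ℕ → Bool) (fun _ _ => true)
    (fun e _ ih a b => band (D.chkI a b e.1 e.2.1 e.2.2) (ih e.1 e.2.1)) L

/-- the corresponding `Dat` -/
def DatN.dat (D : DatN) : Dat := ⟨D.η, D.A, D.B, D.a0, D.b0, D.C⟩

/-- static validity -/
structure DatN.Valid (D : DatN) : Prop where
  hS : D.S = D.A ++ D.B
  hcd : D.cd = D.A.map Prod.fst ++ D.B.map Prod.fst
  hr : D.r = (D.A.map Prod.snd).sum
  hs : D.s = (D.B.map Prod.snd).sum
  h0 : D.dat.chk0 = true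

/-! ### The kernel friendly functions -/

theorem band_eq (x y : Bool) : band x y = (x && y) := by cases x <;> rfl
theorem bor_eq (x y : Bool) : bor x y = (x || y) := by cases x <;> rfl

theorem allr_eq {α : Type} (f : α → Bool) (l : List α) : allr f l = l.all f := by
  induction l with
  | nil => rfl
  | cons e l ih =>
    rw [List.all_cons, ← ih, ← band_eq]; rfl

/-- integer weighted sum -/
def wz (f : ℕ → ℤ) (l : List (ℕ × ℕ)) : ℤ := (l.map fun e => (e.2 : ℤ) * f e.1).sum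

theorem wsum_cast (f : ℕ → ℕ) (l : List (ℕ × ℕ)) :
    ((wsum f l : ℕ) : ℤ) = wz (fun v => (f v : ℤ)) l := by
  unfold wz
  induction l with
  | nil => rfl
  | cons e l ih =>
    rw [List.map_cons, List.sum_cons, ← ih]
    have : wsum f (e :: l) = e.2 * f e.1 + wsum f l := rfl
    rw [this]; push_cast; rfl

theorem wz_append (f : ℕ → ℤ) (l l' : List (ℕ × ℕ)) : wz f (l ++ l') = wz f l + wz f l' := by
  unfold wz; rw [List.map_append, List.sum_append]

theorem wz_congr {f g : ℕ → ℤ} {l : List (ℕ × ℕ)} (h : ∀ e ∈ l, f e.1 = g e.1) :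
    wz f l = wz g l := by
  unfold wz
  congr 1
  apply List.map_congr_left
  intro e he
  rw [h e he]

theorem wz_add (f g : ℕ → ℤ) (l : List (ℕ × ℕ)) :
    wz (fun v => f v + g v) l = wz f l + wz g l := by
  unfold wz
  induction l with
  | nil => simp
  | cons e l ih => simp only [List.map_cons, List.sum_cons, ih]; ring

theorem wz_sub (f g : ℕ → ℤ) (l : List (ℕ × ℕ)) :
    wz (fun v => f v - g v) l = wz f l - wz g l := by
  unfold wz
  induction l with
  | nil => simp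
  | cons e l ih => simp only [List.map_cons, List.sum_cons, ih]; ring

theorem wz_const (k : ℤ) (l : List (ℕ × ℕ)) :
    wz (fun _ => k) l = ((l.map Prod.snd).sum : ℕ) * k := by
  unfold wz
  induction l with
  | nil => simp
  | cons e l ih => simp only [List.map_cons, List.sum_cons, ih]; push_cast; ring

theorem wz_mul (k : ℤ) (f : ℕ → ℤ) (l : List (ℕ × ℕ)) :
    wz (fun v => k * f v) l = k * wz f l := by
  unfold wz
  induction l with
  | nil => simp
  | cons e l ih => simp only [List.map_cons, List.sum_cons, ih]; ring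

theorem Vcw_eq (η : ℤ) (A B : List (ℕ × ℕ)) (f : ℤ → ℤ) (c : ℤ) :
    Vcw η A B f c = ((A.map Prod.snd).sum : ℕ) * (f c + f (η - c)) - 2 * wz (fun v => f v) A
      + wz (fun v => f (η - 2 * v)) B
      - (wz (fun v => f (c - v) + f (η - c - v)) A + wz (fun v => f (c - v) + f (η - c - v)) B) := by
  have h1 : Vcw η A B f c = wz (fun v => ((f c + f (η - c)) - 2 * f v) -
      (f (c - v) + f (η - c - v))) A +
      wz (fun v => f (η - 2 * v) - (f (c - v) + f (η - c - v))) B := by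
    unfold Vcw wz
    congr 2
    · apply List.map_congr_left
      intro e _; ring
    · apply List.map_congr_left
      intro e _
      rw [show η - e.1 - c = η - c - e.1 by ring]; ring
  rw [h1, wz_sub, wz_sub, wz_const, wz_mul, wz_sub]
  ring

theorem Vew_eq (η : ℤ) (A B : List (ℕ × ℕ)) (f : ℤ → ℤ) :
    Vew η A B f = ((A.map Prod.snd).sum : ℕ) * f η - wz (fun v => f (η - v) + f v) A
      + wz (fun v => f (η - 2 * v) + f v + 1) B - wz (fun v => f (η - v)) B := by
  have h1 : Vew η A B f = wz (fun v => f η - (f (η - v) + f v)) A +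
      wz (fun v => (f (η - 2 * v) + f v + 1) - f (η - v)) B := by
    unfold Vew wz
    congr 2
    · apply List.map_congr_left
      intro e _; ring
    · apply List.map_congr_left
      intro e _; ring
  rw [h1, wz_sub, wz_sub, wz_const]
  ring

theorem altw_eq (η : ℤ) (A B : List (ℕ × ℕ)) (f : ℤ → ℤ) :
    altw η A B f = 2 * wz (fun v => f v) A - wz (fun v => f (η - 2 * v)) B := rfl

theorem fz_nat (a b z : ℕ) : fz a b (z : ℤ) = (gN a b z : ℕ) := rfl

theorem fz_sub (a b c v : ℕ) : fz a b ((c : ℤ) - v) =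
    (gN a b (Nat.sub c v) : ℤ) - ((gN a b (Nat.sub v c) + (Nat.sub 1 (Nat.sub 1 (Nat.sub v c))) : ℕ) : ℤ) := by
  have h0 : gN a b 0 = 0 := by
    show 0 * a / b = 0
    simp
  rcases le_or_gt v c with h | h
  · have h1 : Nat.sub v c = 0 := Nat.sub_eq_zero_of_le h
    have h2 : ((c : ℤ) - v) = ((Nat.sub c v : ℕ) : ℤ) := by
      show ((c : ℤ) - v) = ((c - v : ℕ) : ℤ)
      omega
    rw [h2, fz_nat, h1, h0]
    rfl
  · have h1 : Nat.sub c v = 0 := Nat.sub_eq_zero_of_le h.le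
    obtain ⟨k, hk⟩ : ∃ k, v = c + k + 1 := ⟨v - c - 1, by omega⟩
    have h2 : Nat.sub v c = k + 1 := by
      show v - c = k + 1
      omega
    have h3 : ((c : ℤ) - v) = Int.negSucc k := by
      rw [hk]; push_cast; rw [Int.negSucc_eq]; ring
    have h4 : Nat.sub 1 (Nat.sub 1 (k + 1)) = 1 := by
      show 1 - (1 - (k + 1)) = 1
      omega
    rw [h3, h1, h2, h4, h0]
    show -(((k + 1) * a / b : ℕ) : ℤ) - 1 = ((0 : ℕ) : ℤ) - (((k + 1) * a / b + 1 : ℕ) : ℤ)
    push_cast; ring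

theorem posV_sub_negV {D : DatN} (hD : D.Valid) (a b : ℕ) {c : ℕ} (hc : c ≤ D.η)
    (hS : ∀ e ∈ D.S, c + e.1 ≤ D.η) (hB : ∀ e ∈ D.B, 2 * e.1 ≤ D.η) :
    (posV a b D.η D.r D.S D.B c : ℤ) - negV a b D.η D.S D.A c = Vcw D.η D.A D.B (fz a b) c := by
  have e1 : (posV a b D.η D.r D.S D.B c : ℤ) = wz (fun v => (gN a b (Nat.sub D.η (Nat.mul 2 v)) : ℤ)) D.B
      + (D.r * ((gN a b c : ℤ) + gN a b (Nat.sub D.η c)) +
        wz (fun v => ((gN a b (Nat.sub v c) + (Nat.sub 1 (Nat.sub 1 (Nat.sub v c))) : ℕ) : ℤ)) D.S) := by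
    rw [← wsum_cast, ← wsum_cast]
    unfold posV
    push_cast [Nat.add_eq, Nat.mul_eq]
    rfl
  have e2 : (negV a b D.η D.S D.A c : ℤ) = 2 * wz (fun v => (gN a b v : ℤ)) D.A
      + wz (fun v => (gN a b (Nat.sub c v) : ℤ) + (gN a b (Nat.sub (Nat.sub D.η c) v) : ℤ)) D.S := by
    have h1 : (fun v => (gN a b (Nat.sub c v) : ℤ) + (gN a b (Nat.sub (Nat.sub D.η c) v) : ℤ)) =
      (fun v => ((Nat.add (gN a b (Nat.sub c v)) (gN a b (Nat.sub (Nat.sub D.η c) v)) : ℕ) : ℤ)) := by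
      funext v
      show _ = ((gN a b (Nat.sub c v) + gN a b (Nat.sub (Nat.sub D.η c) v) : ℕ) : ℤ)
      push_cast; rfl
    rw [h1, ← wsum_cast, ← wsum_cast]
    unfold negV
    push_cast [Nat.add_eq, Nat.mul_eq]
    rfl
  rw [e1, e2, Vcw_eq, ← hD.hr, fz_nat]
  have e3 : fz a b ((D.η : ℤ) - c) = (gN a b (Nat.sub D.η c) : ℕ) := by
    rw [← fz_nat]; congr 1
    show (D.η : ℤ) - c = ((D.η - c : ℕ) : ℤ)
    omega
  have e4 : wz (fun v => (gN a b (Nat.sub D.η (Nat.mul 2 v)) : ℤ)) D.B =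
      wz (fun v => fz a b ((D.η : ℤ) - 2 * v)) D.B := by
    apply wz_congr
    intro e he
    rw [← fz_nat]; congr 1
    have := hB e he
    show ((D.η - 2 * e.1 : ℕ) : ℤ) = _
    omega
  have e5 : wz (fun v => (gN a b v : ℤ)) D.A = wz (fun v => fz a b v) D.A := rfl
  have e6 : wz (fun v => (gN a b (Nat.sub c v) : ℤ) + (gN a b (Nat.sub (Nat.sub D.η c) v) : ℤ)) D.S
      - wz (fun v => ((gN a b (Nat.sub v c) + (Nat.sub 1 (Nat.sub 1 (Nat.sub v c))) : ℕ) : ℤ)) D.S
      = wz (fun v => fz a b ((c : ℤ) - v) + fz a b ((D.η : ℤ) - c - v)) D.A +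
        wz (fun v => fz a b ((c : ℤ) - v) + fz a b ((D.η : ℤ) - c - v)) D.B := by
    rw [← wz_append, ← hD.hS, ← wz_sub]
    apply wz_congr
    intro e he
    rw [fz_sub]
    have h1 : ((D.η : ℤ) - c - e.1) = ((Nat.sub (Nat.sub D.η c) e.1 : ℕ) : ℤ) := by
      have := hS e he
      show _ = ((D.η - c - e.1 : ℕ) : ℤ)
      omega
    rw [h1, fz_nat]
    ring
  rw [e3, e4, e5]
  linarith [e6]

theorem posE_sub_negE {D : DatN} (hD : D.Valid) (a b : ℕ)
    (hA : ∀ e ∈ D.A, e.1 ≤ D.η) (hB : ∀ e ∈ D.B, 2 * e.1 ≤ D.η) :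
    (posE a b D.η D.r D.B : ℤ) - negE a b D.η D.A D.B = Vew D.η D.A D.B (fz a b) := by
  have e1 : (posE a b D.η D.r D.B : ℤ) = D.r * (gN a b D.η : ℤ) +
      wz (fun v => ((gN a b (Nat.sub D.η (Nat.mul 2 v)) + gN a b v + 1 : ℕ) : ℤ)) D.B := by
    rw [← wsum_cast]
    unfold posE
    push_cast [Nat.add_eq, Nat.mul_eq]
    rfl
  have e2 : (negE a b D.η D.A D.B : ℤ) =
      wz (fun v => ((gN a b (Nat.sub D.η v) + gN a b v : ℕ) : ℤ)) D.A +
      wz (fun v => ((gN a b (Nat.sub D.η v) : ℕ) : ℤ)) D.B := by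
    rw [← wsum_cast, ← wsum_cast]
    unfold negE
    push_cast [Nat.add_eq, Nat.mul_eq]
    rfl
  rw [e1, e2, Vew_eq, ← hD.hr, fz_nat]
  have e3 : wz (fun v => ((gN a b (Nat.sub D.η (Nat.mul 2 v)) + gN a b v + 1 : ℕ) : ℤ)) D.B =
      wz (fun v => fz a b ((D.η : ℤ) - 2 * v) + fz a b v + 1) D.B := by
    apply wz_congr
    intro e he
    have : ((D.η : ℤ) - 2 * e.1) = ((Nat.sub D.η (Nat.mul 2 e.1) : ℕ) : ℤ) := by
      have := hB e he
      show _ = ((D.η - 2 * e.1 : ℕ) : ℤ)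
      omega
    rw [this, fz_nat, fz_nat]; push_cast; rfl
  have key : ∀ v : ℕ, v ≤ D.η → fz a b ((D.η : ℤ) - v) = (gN a b (Nat.sub D.η v) : ℕ) := by
    intro v hv
    rw [← fz_nat]; congr 1
    show _ = ((D.η - v : ℕ) : ℤ)
    omega
  have e4 : wz (fun v => ((gN a b (Nat.sub D.η v) + gN a b v : ℕ) : ℤ)) D.A =
      wz (fun v => fz a b ((D.η : ℤ) - v) + fz a b v) D.A := by
    apply wz_congr
    intro e he
    rw [key _ (hA e he), fz_nat]; push_cast; rfl
  have e5 : wz (fun v => ((gN a b (Nat.sub D.η v) : ℕ) : ℤ)) D.B =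
      wz (fun v => fz a b ((D.η : ℤ) - v)) D.B := by
    apply wz_congr
    intro e he
    rw [key _ (by have := hB e he; omega)]
  rw [e3, e4, e5]
  ring

theorem DatN.dat_chkI {D : DatN} (hD : D.Valid) {a b a' b' E : ℕ}
    (h : D.chkI a b a' b' E = true) : D.dat.chkI a b a' b' E = true := by
  have h0 := hD.h0
  simp only [Dat.chk0, Bool.and_eq_true, List.all_eq_true, decide_eq_true_eq, Bool.or_eq_true,
    List.contains_iff_mem] at h0
  obtain ⟨⟨⟨⟨⟨⟨⟨⟨⟨-, -⟩, hA0⟩, hB0⟩, ha0⟩, hb0⟩, -⟩, -⟩, hAb⟩, hBη⟩ := h0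
  change ∀ e ∈ D.A, D.a0 ≤ e.1 at hA0
  change ∀ e ∈ D.B, D.b0 ≤ e.1 at hB0
  change D.a0 ∈ D.A.map Prod.fst at ha0
  change D.b0 ∈ D.B.map Prod.fst at hb0
  change ∀ e ∈ D.A, e.1 ≤ D.b0 at hAb
  change ∀ e ∈ D.B, 2 * e.1 < D.η at hBη
  have hb0η : 2 * D.b0 < D.η := by
    obtain ⟨y, hy, hy'⟩ := List.mem_map.1 hb0
    rw [← hy']; exact hBη y hy
  have hS2 : ∀ e ∈ D.S, 2 * e.1 < D.η := by
    intro e he
    rw [hD.hS] at he
    rcases List.mem_append.1 he with he | he
    · have := hAb e he; omega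
    · exact hBη e he
  have hc2 : ∀ c ∈ D.cd, 2 * c < D.η ∧ D.a0 ≤ c := by
    intro c hc
    rw [hD.hcd] at hc
    rcases List.mem_append.1 hc with hc | hc
    · obtain ⟨y, hy, rfl⟩ := List.mem_map.1 hc
      have := hAb y hy; have := hA0 y hy; constructor <;> omega
    · obtain ⟨y, hy, rfl⟩ := List.mem_map.1 hc
      have := hBη y hy; have := hB0 y hy
      obtain ⟨z, hz, hz'⟩ := List.mem_map.1 ha0
      have := hAb z hz
      constructor <;> omega
  have hcand : ∀ c, c ∈ D.dat.cand ↔ c ∈ D.cd := by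
    intro c; rw [hD.hcd]; rfl
  have hV : ∀ c ∈ D.cd, (posV a b D.η D.r D.S D.B c : ℤ) - negV a b D.η D.S D.A c =
      Vcw D.η D.A D.B (fz a b) c := fun c hc =>
    posV_sub_negV hD a b (by have := hc2 c hc; omega)
      (fun e he => by have := hc2 c hc; have := hS2 e he; omega)
      (fun e he => (hBη e he).le)
  have hE := posE_sub_negE hD a b (fun e he => by have := hAb e he; omega)
    (fun e he => (hBη e he).le)
  have hrr : ((D.A.map fun b => (b.2 : ℤ)).sum) = D.r := by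
    rw [hD.hr]
    have := wz_const 1 D.A
    unfold wz at this
    simpa using this
  have hss : ((D.B.map fun b => (b.2 : ℤ)).sum) = D.s := by
    rw [hD.hs]
    have := wz_const 1 D.B
    unfold wz at this
    simpa using this
  simp only [DatN.chkI, band_eq, bor_eq, allr_eq, Bool.and_eq_true, Bool.or_eq_true,
    List.all_eq_true, Nat.ble_eq] at h
  simp only [Dat.chkI, Bool.and_eq_true, Bool.or_eq_true, List.all_eq_true,
    decide_eq_true_eq, hcand]
  obtain ⟨h1, h2, h3, h4, h5, h6⟩ := h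
  have hsub : ∀ x y : ℕ, y ≤ x → fz a b ((x : ℤ) - y) = (gN a b (Nat.sub x y) : ℕ) := by
    intro x y hxy
    rw [← fz_nat]; congr 1
    show _ = ((x - y : ℕ) : ℤ)
    omega
  refine ⟨⟨⟨⟨⟨h1, h2⟩, fun z hz => h3 z hz⟩, ?_⟩, ?_⟩, ?_⟩
  · intro c hc
    rcases h4 c hc with h | h
    · left
      change fz a b ((c : ℤ) - D.a0) + fz a b ((D.η : ℤ) - D.b0 - c) < 1
      rw [hsub c D.a0 (hc2 c hc).2, show ((D.η : ℤ) - D.b0 - c) = (((D.η - D.b0 : ℕ) : ℤ) - c) by
        have := hc2 c hc; omega, hsub _ _ (by have := hc2 c hc; omega)]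
      change gN a b (Nat.sub c D.a0) + gN a b (Nat.sub (Nat.sub D.η D.b0) c) ≤ 0 at h
      change ((gN a b (Nat.sub c D.a0) : ℕ) : ℤ) +
        ((gN a b (Nat.sub (Nat.sub D.η D.b0) c) : ℕ) : ℤ) < 1
      omega
    · right
      change (D.r + D.s) + negV a b D.η D.S D.A c ≤ posV a b D.η D.r D.S D.B c + (E + 1) at h
      change ((D.A.map fun b => (b.2 : ℤ)).sum) + ((D.B.map fun b => (b.2 : ℤ)).sum) - 1 -
        Vcw D.η D.A D.B (fz a b) c ≤ E
      rw [hrr, hss, ← hV c hc]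
      omega
  · rcases h5 with h | h
    · left
      change fz a b ((D.η : ℤ) - D.a0) < fz a b D.b0 + 2
      rw [hsub D.η D.a0 (by obtain ⟨z, hz, hz'⟩ := List.mem_map.1 ha0; have := hAb z hz; omega),
        fz_nat]
      change gN a b (Nat.sub D.η D.a0) ≤ gN a b D.b0 + 1 at h
      omega
    · right
      change (D.r + D.s) + negE a b D.η D.A D.B ≤ posE a b D.η D.r D.B + (E + 1) at h
      change ((D.A.map fun b => (b.2 : ℤ)).sum) + ((D.B.map fun b => (b.2 : ℤ)).sum) - 1 -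
        Vew D.η D.A D.B (fz a b) ≤ E
      rw [hrr, hss, ← hE]
      omega
  · rcases h6 with h | h | h
    · left; left
      change 2 ≤ fz a b ((D.η : ℤ) - 2 * D.a0)
      have h' : ((D.η : ℤ) - 2 * D.a0) = ((D.η : ℤ) - ((2 * D.a0 : ℕ) : ℤ)) := by push_cast; rfl
      rw [h', hsub D.η (2 * D.a0) (by
        obtain ⟨z, hz, hz'⟩ := List.mem_map.1 ha0; have := hAb z hz; omega)]
      change 2 ≤ gN a b (Nat.sub D.η (2 * D.a0)) at h
      omega
    · left; right
      change 2 * wsum (gN a b) D.A ≤ E + wsum (fun v => gN a b (Nat.sub D.η (Nat.mul 2 v))) D.B at h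
      change altw D.η D.A D.B (fz a b) ≤ E
      rw [altw_eq]
      have e4 : wz (fun v => fz a b ((D.η : ℤ) - 2 * v)) D.B =
          wz (fun v => (gN a b (Nat.sub D.η (Nat.mul 2 v)) : ℤ)) D.B := by
        apply wz_congr
        intro e he
        have h' : ((D.η : ℤ) - 2 * e.1) = ((D.η : ℤ) - ((2 * e.1 : ℕ) : ℤ)) := by push_cast; rfl
        rw [h', hsub D.η (2 * e.1) (hBη e he).le]
        rfl
      rw [e4, ← wsum_cast, show (fun v : ℕ => fz a b (v : ℤ)) = fun v : ℕ => (gN a b v : ℤ) from rfl,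
        ← wsum_cast]
      omega
    · right
      refine ⟨?_, ?_⟩
      · intro c hc
        have h' := h.1 c hc
        change D.s + negV a b D.η D.S D.A c ≤ posV a b D.η D.r D.S D.B c + (E + 1) at h'
        change ((D.B.map fun b => (b.2 : ℤ)).sum) - 1 - Vcw D.η D.A D.B (fz a b) c ≤ E
        rw [hss, ← hV c hc]
        omega
      · have h' := h.2
        change D.s + negE a b D.η D.A D.B ≤ posE a b D.η D.r D.B + (E + 1) at h'
        change ((D.B.map fun b => (b.2 : ℤ)).sum) - 1 - Vew D.η D.A D.B (fz a b) ≤ E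
        rw [hss, ← hE]
        omega

/-! ### Lists of intervals -/

/-- the exponent read off from the list of `(a', b', E)`; `q` beyond the end of the list -/
def lookq (q : ℕ) : List (ℕ × ℕ × ℕ) → ℕ → ℕ → ℕ
  | [], _, _ => q
  | e :: L, n, p => if n * e.2.1 < e.1 * p then e.2.2 else lookq q L n p

theorem DatN.chk_sound {D : DatN} {n p q : ℕ} {P : ℕ → Prop} (hq : P q)
    (hI : ∀ a b a' b' E, D.chkI a b a' b' E = true → a * p ≤ n * b → n * b' < a' * p → P E) :
    ∀ (L : List (ℕ × ℕ × ℕ)) (a b : ℕ), D.chk L a b = true → a * p ≤ n * b →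
      P (lookq q L n p) := by
  intro L
  induction L with
  | nil => intro a b _ _; exact hq
  | cons e L ih =>
    intro a b h h1
    have h2 : band (D.chkI a b e.1 e.2.1 e.2.2) (D.chk L e.1 e.2.1) = true := h
    rw [band_eq, Bool.and_eq_true] at h2
    unfold lookq
    split
    · rename_i h3
      exact hI _ _ _ _ _ h2.1 h1 h3
    · rename_i h3
      exact ih _ _ h2.2 (not_lt.1 h3)

/-- the exponents of a certificate -/
noncomputable def DatN.e (D : DatN) (L : List (ℕ × ℕ × ℕ)) (n p : ℕ) : ℕ := by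
  classical
  exact if p ∣ n ∨ D.dat.Exc n p then D.r + D.s - 1 else lookq (D.r + D.s - 1) L n p

theorem phi_nonneg (P : Par) {p : ℕ} (hp : 0 < p) (k : ℤ) : 0 ≤ phi P p k := by
  have key : ∀ x y : ℤ, x / p + y / p ≤ (x + y) / p := by
    intro x y
    apply Int.le_ediv_of_mul_le (by exact_mod_cast hp)
    have h1 := Int.ediv_mul_le x (b := (p : ℤ)) (by exact_mod_cast hp.ne')
    have h2 := Int.ediv_mul_le y (b := (p : ℤ)) (by exact_mod_cast hp.ne')
    linarith
  unfold phi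
  apply add_nonneg
  · apply Finset.sum_nonneg
    intro j _
    have h1 := key (k - 1 - P.a j) (P.a j)
    have h2 := key (P.h - k - 1 - P.a j) (P.a j)
    rw [sub_add_cancel] at h1 h2
    linarith
  · apply Finset.sum_nonneg
    intro i _
    have h1 := key (k - P.b i) (P.h - P.b i - k)
    rw [show k - (P.b i : ℤ) + (P.h - P.b i - k) = P.h - 2 * P.b i by ring] at h1
    linarith

theorem expo_top (P : Par) (a0 b0 : ℕ) {p E : ℕ} (hp : 0 < p) (h1 : P.r + P.s - 1 ≤ E) :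
    Expo P a0 b0 p E := by
  constructor
  · intro k _ _
    have := phi_nonneg P hp k
    omega
  · intro k _ _ _ _
    left
    have := phi_nonneg P hp k
    omega

theorem DatN.hE {D : DatN} (hD : D.Valid) (L : List (ℕ × ℕ × ℕ)) (hL : D.chk L 0 1 = true) :
    ∀ᶠ n : ℕ in Filter.atTop, ∀ p : ℕ, p.Prime → (D.dat.fam.par n).h < p * p →
      p ≤ (D.dat.fam.par n).h → Expo (D.dat.fam.par n) (D.a0 * n) (D.b0 * n + 1) p (D.e L n p) := by
  have hr' : (D.dat.fam.par 0).r = D.r := by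
    have h1 : (((D.dat.fam.par 0).r : ℕ) : ℤ) = (D.A.map fun b => (b.2 : ℤ)).sum := length_ex D.A
    have h2 := wz_const 1 D.A
    unfold wz at h2
    rw [← hD.hr] at h2
    have h3 : (((D.dat.fam.par 0).r : ℕ) : ℤ) = D.r := by rw [h1]; simpa using h2
    exact_mod_cast h3
  have hs' : (D.dat.fam.par 0).s = D.s := by
    have h1 : (((D.dat.fam.par 0).s : ℕ) : ℤ) = (D.B.map fun b => (b.2 : ℤ)).sum := length_ex D.B
    have h2 := wz_const 1 D.B
    unfold wz at h2
    rw [← hD.hs] at h2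
    have h3 : (((D.dat.fam.par 0).s : ℕ) : ℤ) = D.s := by rw [h1]; simpa using h2
    exact_mod_cast h3
  filter_upwards [Filter.eventually_ge_atTop (D.η + 1)] with n hn p hp hpp _
  have hr : (D.dat.fam.par n).r = D.r := hr'
  have hs1 : (D.dat.fam.par n).s = D.s := hs'
  have hη : D.η < p := by
    by_contra hc
    push Not at hc
    have h1 : (D.dat.fam.par n).h = D.η * n + 2 := rfl
    rw [h1] at hpp
    have h2 : p * p ≤ D.η * D.η := Nat.mul_le_mul hc hc
    have h3 : D.η * D.η ≤ D.η * n := Nat.mul_le_mul_left _ (by omega)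
    omega
  have htop : Expo (D.dat.fam.par n) (D.a0 * n) (D.b0 * n + 1) p (D.r + D.s - 1) :=
    expo_top _ _ _ hp.pos (by rw [hr, hs1])
  unfold DatN.e
  split
  · exact htop
  · rename_i hex
    push Not at hex
    refine DatN.chk_sound (D := D) (P := fun E => Expo (D.dat.fam.par n) (D.a0 * n)
      (D.b0 * n + 1) p E) htop ?_ L 0 1 hL (by omega)
    intro a b a' b' E hI h1 h2
    exact Dat.expo_of_chkI D.dat hD.h0 (DatN.dat_chkI hD hI) (by omega) hp h1 h2 hex.1 hη hex.2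

/-! ### The cost of a list -/

/-- the cost of a list of intervals starting at `a / b`; everything beyond the last end point
costs `q` -/
noncomputable def costR (q : ℕ) : List (ℕ × ℕ × ℕ) → ℕ → ℕ → ℝ
  | [], a, b => q * ((b : ℝ) / a)
  | e :: L, a, b => e.2.2 * ((b : ℝ) / a - (e.2.1 : ℝ) / e.1) + costR q L e.1 e.2.1

/-- kernel friendly upper bound of `M * costR`, `M` a scaling factor; returns the test
`M * costR q L a b + acc < T` and monotonicity -/
noncomputable def costB (M q T : ℕ) (L : List (ℕ × ℕ × ℕ)) : ℕ → ℕ → ℕ → Bool :=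
  @List.rec (ℕ × ℕ × ℕ) (fun _ => ℕ → ℕ → ℕ → Bool)
    (fun a b acc => band (Nat.ble 1 a) (Nat.ble (Nat.add acc (Nat.succ (Nat.div (Nat.mul (Nat.mul q M) b) a))) T))
    (fun e _ ih a b acc => band (Nat.ble 1 a) (band (Nat.ble (Nat.mul a e.2.1) (Nat.mul b e.1))
      (ih e.1 e.2.1 (Nat.add acc (Nat.succ (Nat.div
        (Nat.mul (Nat.mul e.2.2 M) (Nat.sub (Nat.mul b e.1) (Nat.mul a e.2.1)))
        (Nat.mul a e.1))))))) L

end ZetaSets
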