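import Pool.Agent.Work.MP_4f096c_nt.SweepD

/-!
The data of the family T19.
-/

namespace ZetaCert
open ZetaSweep

/-- the data -/
def DT19 : Dat := ⟨146, [(38, 12), (39, 9), (40, 6), (41, 3), (42, 0)], [43, 44, 45, 46, 47, 48, 49, 50, 51, 52, 53, 55, 56, 58, 59, 61], 38, 43, 170⟩

def CT19 : List ℕ := [38, 39, 40, 41, 42, 43, 44, 45, 46, 47, 48, 49, 50, 51, 52, 53, 55, 56, 58, 59, 61]

def HT19 : List ℕ := [0, 3, 6, 9, 12]

end ZetaCert
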