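import Pool.Agent.Work.MP_4f096c_nt.SweepD

/-!
The data of the family T27.
-/

namespace ZetaCert
open ZetaSweep

/-- the data -/
def DT27 : Dat := ⟨220, [(42, 49), (44, 42), (45, 35), (47, 27), (49, 18), (51, 11), (52, 1)], [54, 56, 57, 59, 60, 62, 63, 65, 67, 68, 70, 71, 73, 74, 76, 78, 80, 81, 83, 85, 87, 89], 42, 54, 318⟩

def CT27 : List ℕ := [42, 44, 45, 47, 49, 51, 52, 54, 56, 57, 59, 60, 62, 63, 65, 67, 68, 70, 71, 73, 74, 76, 78, 80, 81, 83, 85, 87, 89]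

def HT27 : List ℕ := [1, 11, 18, 27, 35, 42, 49]

end ZetaCert
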