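import Pool.Agent.Work.MP_4f096c_nt.SweepD

/-!
The data of the family T35.
-/

namespace ZetaCert
open ZetaSweep

/-- the data -/
def DT35 : Dat := ⟨306, [(69, 0), (55, 61), (59, 41), (67, 51), (61, 33), (57, 71), (71, 5), (65, 17), (63, 11)], [73, 75, 77, 79, 81, 83, 85, 87, 88, 89, 91, 93, 95, 97, 99, 101, 103, 105, 107, 109, 111, 113, 115, 117, 119, 121, 123, 128], 55, 73, 448⟩

def CT35 : List ℕ := [55, 57, 59, 61, 63, 65, 67, 69, 71, 73, 75, 77, 79, 81, 83, 85, 87, 88, 89, 91, 93, 95, 97, 99, 101, 103, 105, 107, 109, 111, 113, 115, 117, 119, 121, 123, 128]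

def HT35 : List ℕ := [0, 5, 11, 17, 33, 41, 51, 61, 71]

end ZetaCert
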