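import Pool.Agent.Work.MP_4f096c_nt.SweepD

/-!
The data of the family T9.
-/

namespace ZetaCert
open ZetaSweep

/-- the data -/
def DT9 : Dat := ⟨98, [(21, 19), (23, 13), (25, 8)], [27, 28, 29, 31, 33, 35, 37, 39], 21, 27, 136⟩

def CT9 : List ℕ := [21, 23, 25, 27, 28, 29, 31, 33, 35, 37, 39]

def HT9 : List ℕ := [8, 13, 19]

end ZetaCert
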