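import Pool.Agent.Work.MP_4f096c_nt.Defs

/-!
Families given by lists with multiplicities, and the concrete families.
-/

namespace ZetaSets

/-- family from lists -/
def famOf (η : ℕ) (A B : List ℕ) : Fam where
  r := A.length
  s := B.length
  η := η
  α := fun j => A[j.1]
  β := fun i => B[i.1]

/-- expand multiplicities: `(v, m)` stands for `m` copies of `v` -/
def ex (A : List (ℕ × ℕ)) : List ℕ := A.flatMap fun a => List.replicate a.2 a.1

/-- numerator parameters of the family for `zeta(11), ..., zeta(43)`: `r = 9` -/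
def A43 : List (ℕ × ℕ) := [(30, 3), (31, 3), (32, 3)]

/-- denominator parameters: `s = 36` -/
def B43 : List (ℕ × ℕ) :=
  [(33, 3), (34, 3), (35, 3), (36, 3), (37, 3), (38, 3), (39, 3), (40, 3), (41, 3), (42, 3),
    (43, 3), (44, 3)]

/-- the family for `zeta(11), ..., zeta(43)`, `η = 104` -/
def F43 : Fam := famOf 104 (ex A43) (ex B43)

/-- numerator parameters of the family for `zeta(7), ..., zeta(21)`: `r = 5` -/
def A21 : List (ℕ × ℕ) := [(33, 3), (34, 2)]

/-- denominator parameters: `s = 18` -/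
def B21 : List (ℕ × ℕ) :=
  [(35, 2), (36, 2), (37, 2), (38, 2), (39, 2), (40, 2), (41, 2), (42, 2), (43, 1), (44, 1)]

/-- the family for `zeta(7), ..., zeta(21)`, `η = 104` -/
def F21 : Fam := famOf 104 (ex A21) (ex B21)

theorem map_sum_ex {M : Type*} [AddCommMonoid M] (A : List (ℕ × ℕ)) (g : ℕ → M) :
    ((ex A).map g).sum = (A.map fun a => a.2 • g a.1).sum := by
  unfold ex
  induction A with
  | nil => simp
  | cons a A ih =>
    simp only [List.flatMap_cons, List.map_append, List.sum_append, List.map_replicate,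
      List.sum_replicate, ih, List.map_cons, List.sum_cons]

theorem famOf_sum_α {M : Type*} [AddCommMonoid M] (η : ℕ) (A B : List (ℕ × ℕ)) (g : ℕ → M) :
    ∑ j, g ((famOf η (ex A) (ex B)).α j) = (A.map fun a => a.2 • g a.1).sum := by
  rw [← map_sum_ex, ← Fin.sum_univ_fun_getElem]
  rfl

theorem famOf_sum_β {M : Type*} [AddCommMonoid M] (η : ℕ) (A B : List (ℕ × ℕ)) (g : ℕ → M) :
    ∑ i, g ((famOf η (ex A) (ex B)).β i) = (B.map fun a => a.2 • g a.1).sum := by
  rw [← map_sum_ex, ← Fin.sum_univ_fun_getElem]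
  rfl

theorem mem_ex {A : List (ℕ × ℕ)} {x : ℕ} (h : x ∈ ex A) : ∃ a ∈ A, x = a.1 := by
  unfold ex at h
  rw [List.mem_flatMap] at h
  obtain ⟨a, ha, hb⟩ := h
  rw [List.mem_replicate] at hb
  exact ⟨a, ha, hb.2⟩

theorem famOf_forall_α (η : ℕ) (A B : List (ℕ × ℕ)) {p : ℕ → Prop}
    (h : ∀ a ∈ A, p a.1) : ∀ j, p ((famOf η (ex A) (ex B)).α j) := by
  intro j
  have h1 : (famOf η (ex A) (ex B)).α j ∈ ex A := List.getElem_mem _
  obtain ⟨a, ha, hb⟩ := mem_ex h1
  rw [hb]
  exact h a ha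

theorem famOf_forall_β (η : ℕ) (A B : List (ℕ × ℕ)) {p : ℕ → Prop}
    (h : ∀ a ∈ B, p a.1) : ∀ i, p ((famOf η (ex A) (ex B)).β i) := by
  intro i
  have h1 : (famOf η (ex A) (ex B)).β i ∈ ex B := List.getElem_mem _
  obtain ⟨a, ha, hb⟩ := mem_ex h1
  rw [hb]
  exact h a ha

end ZetaSets
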