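import Pool.Agent.Work.MP_4f096c_nt.Rat

/-!
The coefficients of the linear forms.
-/

namespace ZetaSets

/-- Coefficient of `zeta(r+j)` (up to the common factor). -/
noncomputable def Bq (P : Par) (b0 d j : ℕ) : ℚ :=
  ((j + P.r - 1).choose (P.r - 1) : ℚ) *
    ∑ k ∈ Sk P b0, PowerSeries.coeff (P.s - 1 - j) (fser P d k)

/-- The rational term. -/
noncomputable def B0q (P : Par) (a0 b0 d : ℕ) : ℚ :=
  ∑ k ∈ Sk P b0, ∑ j ∈ Finset.range P.s, ((j + P.r - 1).choose (P.r - 1) : ℚ) *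
    PowerSeries.coeff (P.s - 1 - j) (fser P d k) *
      ∑ l ∈ Finset.range (k.toNat - a0 - 1), 1 / ((l : ℚ) + 1) ^ (j + P.r)

end ZetaSets
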