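import Pool.Agent.Work.MP_4f096c_nt.BoundA
import Pool.Agent.Work.MP_4f096c_nt.Defs

/-!
Pointwise bound of the rational function by its rate function.
-/

section

/-!
Pointwise bound of the rational function `ZG.R` by its rate function (TASK G-BOUND of
MP_4f096c_nt).
-/

namespace ZG

open Finset
open ZetaSets (K pt gg psi Phi G G_pos G_le' G_succ_le le_G_succ G_succ hasDerivAt_Phi Phi_mvt
  Phi_scale fact_scale factorial_le le_factorial norm_num1 norm_num2 norm_den pt_zero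
  norm_add_le_abs)

/-! ### The rate function -/

/-- contribution of a numerator block -/
noncomputable def VA (η γ α x y : ℝ) : ℝ :=
  gg (α + x) y + gg (γ - x) y + gg (η + γ + x) y - gg (η - α + x) y -
    2 * (α + γ) * Real.log (α + γ)

/-- contribution of a denominator block -/
noncomputable def VB (η β x y : ℝ) : ℝ :=
  gg (β + x) y - gg (η - β + x) y + (η - 2 * β) * Real.log (η - 2 * β)

/-- the rate function -/
noncomputable def Fam.V (F : Fam) (x y : ℝ) : ℝ :=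
  ∑ j, VA F.η (F.γ j) (F.α j) x y + ∑ i, VB F.η (F.β i) x y - 2 * Real.pi * y

/-! ### Products along an arithmetic progression -/

/-- the product of the `|u + l + 1/2 + i y|`, `l < m` -/
noncomputable def PL (u : ℝ) (m : ℕ) (y : ℝ) : ℝ :=
  ∏ l ∈ Finset.range m, Real.sqrt ((u + l + 1 / 2) ^ 2 + y ^ 2)

theorem PL_pos (u : ℝ) (m : ℕ) {y : ℝ} (hy : 0 < y) : 0 < PL u m y :=
  Finset.prod_pos fun l _ => Real.sqrt_pos.mpr (by positivity)

theorem psi_abs_deriv {y : ℝ} (hy : 0 < y) (u v : ℝ) :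
    |psi y u - psi y v| ≤ |u - v| / (2 * y) := by
  have hd : ∀ x : ℝ, HasDerivAt (psi y) (x / (x ^ 2 + y ^ 2)) x := by
    intro x
    have h3 : 0 < x ^ 2 + y ^ 2 := by positivity
    have h := (((hasDerivAt_pow 2 x).add_const (y ^ 2)).log h3.ne').div_const 2
    refine h.congr_deriv ?_
    field_simp
    norm_num
    ring
  have hb : ∀ x : ℝ, ‖x / (x ^ 2 + y ^ 2)‖ ≤ 1 / (2 * y) := by
    intro x
    have h3 : 0 < x ^ 2 + y ^ 2 := by positivity
    rw [Real.norm_eq_abs, abs_div, abs_of_pos h3, div_le_div_iff₀ h3 (by positivity)]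
    have h4 : 2 * (|x| * y) ≤ x ^ 2 + y ^ 2 := by
      rw [← sq_abs x]
      nlinarith [sq_nonneg (|x| - y)]
    linarith
  have h := convex_univ.norm_image_sub_le_of_norm_hasDerivWithin_le (f := psi y)
    (f' := fun x => x / (x ^ 2 + y ^ 2)) (C := 1 / (2 * y)) (s := Set.univ) (x := v) (y := u)
    (fun x _ => (hd x).hasDerivWithinAt) (fun x _ => hb x) (Set.mem_univ _) (Set.mem_univ _)
  rw [Real.norm_eq_abs, Real.norm_eq_abs] at h
  refine h.trans (le_of_eq ?_)
  ring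

theorem Phi_step {y : ℝ} (hy : 0 < y) (c : ℝ) :
    |psi y (c + 1 / 2) - (Phi y (c + 1) - Phi y c)| ≤ 1 / (4 * y) := by
  obtain ⟨ξ, h1, h2, h3⟩ := Phi_mvt hy (show c < c + 1 by linarith)
  rw [h3, add_sub_cancel_left, mul_one]
  refine (psi_abs_deriv hy _ _).trans ?_
  have h4 : |c + 1 / 2 - ξ| ≤ 1 / 2 := by
    rw [abs_le]; constructor <;> linarith
  rw [div_le_div_iff₀ (by positivity) (by positivity)]
  nlinarith

theorem log_PL (u : ℝ) (m : ℕ) {y : ℝ} (hy : 0 < y) :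
    Real.log (PL u m y) = ∑ l ∈ Finset.range m, psi y (u + l + 1 / 2) := by
  unfold PL psi
  rw [Real.log_prod fun l _ => (Real.sqrt_pos.mpr (by positivity)).ne']
  exact Finset.sum_congr rfl fun l _ => by rw [Real.log_sqrt (by positivity)]

theorem log_PL_sub (u : ℝ) (m : ℕ) {y : ℝ} (hy : 0 < y) :
    |Real.log (PL u m y) - (Phi y (u + m) - Phi y u)| ≤ m / (4 * y) := by
  rw [log_PL u m hy]
  induction m with
  | zero => simp
  | succ m ih =>
    rw [Finset.sum_range_succ]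
    have h := Phi_step hy (u + m)
    have e1 : ∑ l ∈ Finset.range m, psi y (u + l + 1 / 2) + psi y (u + m + 1 / 2) -
        (Phi y (u + (m + 1 : ℕ)) - Phi y u) =
        (∑ l ∈ Finset.range m, psi y (u + l + 1 / 2) - (Phi y (u + m) - Phi y u)) +
        (psi y (u + m + 1 / 2) - (Phi y (u + m + 1) - Phi y (u + m))) := by
      push_cast
      rw [← add_assoc]
      ring
    rw [e1]
    refine (abs_add_le _ _).trans ?_
    have e2 : ((m + 1 : ℕ) : ℝ) / (4 * y) = m / (4 * y) + 1 / (4 * y) := by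
      push_cast; ring
    rw [e2]
    exact add_le_add ih h

theorem PL_le (u : ℝ) (m : ℕ) {y E : ℝ} (hy : 0 < y) (hE : (m : ℝ) / (4 * y) ≤ E) :
    PL u m y ≤ Real.exp (Phi y (u + m) - Phi y u + E) := by
  have h := (abs_le.mp (log_PL_sub u m hy)).2
  rw [← Real.log_le_iff_le_exp (PL_pos u m hy)]
  linarith

theorem le_PL (u : ℝ) (m : ℕ) {y E : ℝ} (hy : 0 < y) (hE : (m : ℝ) / (4 * y) ≤ E) :
    Real.exp (Phi y (u + m) - Phi y u - E) ≤ PL u m y := by
  have h := (abs_le.mp (log_PL_sub u m hy)).1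
  rw [← Real.le_log_iff_exp_le (PL_pos u m hy)]
  linarith

/-- one step of `Phi`, for `y >= 1` -/
theorem Phi_one {y : ℝ} (hy : 1 ≤ y) (c : ℝ) {B : ℝ} (hB : |c| + 1 + y ≤ B) :
    0 ≤ Phi y (c + 1) - Phi y c ∧ Phi y (c + 1) - Phi y c ≤ Real.log B := by
  have hy0 : 0 < y := by linarith
  obtain ⟨ξ, h1, h2, h3⟩ := Phi_mvt hy0 (show c < c + 1 by linarith)
  rw [h3, add_sub_cancel_left, mul_one]
  have h4 : |ξ| ≤ |c| + 1 := by
    have h5 := neg_abs_le c
    have h6 := le_abs_self c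
    rw [abs_le]
    constructor <;> linarith
  have hB0 : 0 < B := by have := abs_nonneg c; linarith
  unfold psi
  constructor
  · have : 1 ≤ ξ ^ 2 + y ^ 2 := by nlinarith [sq_nonneg ξ]
    have := Real.log_nonneg this
    linarith
  · have h5 : ξ ^ 2 + y ^ 2 ≤ B ^ 2 := by
      rw [← sq_abs ξ]
      have h7 : |ξ| + y ≤ B := by linarith
      have h8 := abs_nonneg ξ
      nlinarith [mul_nonneg h8 hy0.le]
    have h6 := Real.log_le_log (by positivity : (0 : ℝ) < ξ ^ 2 + y ^ 2) h5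
    rw [Real.log_pow] at h6
    push_cast at h6
    linarith

theorem norm_PL (u : ℝ) (m : ℕ) (y : ℝ) (z : ℂ)
    (hz : z = ((u + 1 / 2 : ℝ) : ℂ) + (y : ℂ) * Complex.I) :
    ‖∏ l ∈ Finset.range m, (z + (l : ℂ))‖ = PL u m y := by
  rw [norm_prod]
  unfold PL
  refine Finset.prod_congr rfl fun l _ => ?_
  rw [← Complex.norm_add_mul_I, hz]
  congr 1
  push_cast
  ring

theorem gg_neg (c y : ℝ) : gg (-c) y = -gg c y := by
  unfold gg
  rw [neg_div, neg_div, Real.arctan_neg, neg_sq]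
  ring

/-! ### Factors of `R` away from the real axis -/

/-- numerator factor, away from the real axis -/
theorem jfactor2 {α γ η n : ℕ} (hn : 0 < n) (hα : 0 < α) (hη : α ≤ η) {x y : ℝ} (hx : 0 ≤ x)
    (hy : 0 < y) (hny : 1 ≤ n * y) {B K1 : ℝ} (hB : ((η : ℝ) + γ + x + y) * n + 2 ≤ B)
    (hK : ((γ : ℝ) + α) / (4 * y) ≤ K1) {t : ℂ}
    (ht : t = ((-(1 / 2) + n * x : ℝ) : ℂ) + ((n * y : ℝ) : ℂ) * Complex.I) :
    (‖∏ l ∈ Finset.range (γ * n + α * n), (t - ((γ * n : ℕ) : ℂ) + ((l : ℂ) + 1))‖ *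
      ‖∏ l ∈ Finset.range (γ * n + α * n), (t + ((η * n + 2 : ℕ) : ℂ) + ((γ * n : ℕ) : ℂ) -
        ((l : ℂ) + 1))‖) / ((γ * n + α * n).factorial : ℝ) ^ 2 ≤
      (B ^ 2 * Real.exp K1) ^ 3 * Real.exp (n * VA η γ α x y) := by
  set m := γ * n + α * n with hm
  have hn0 : (0 : ℝ) < n := by exact_mod_cast hn
  have hY0 : (0 : ℝ) < n * y := by linarith
  have hmr : (m : ℝ) = (γ + α) * n := by rw [hm]; push_cast; ring
  have hK0 : 0 ≤ K1 := le_trans (by positivity) hK
  have hE1 : (m : ℝ) / (4 * (n * y)) ≤ K1 := by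
    refine le_trans (le_of_eq ?_) hK
    rw [hmr]
    field_simp
  have hηn : (0 : ℝ) ≤ (η : ℝ) * n := by positivity
  have hγn : (0 : ℝ) ≤ (γ : ℝ) * n := by positivity
  have hxn : (0 : ℝ) ≤ x * n := by positivity
  have hB' : (η : ℝ) * n + γ * n + x * n + n * y + 2 ≤ B := by linarith
  have hB1 : 1 ≤ B := by linarith
  have e1 : ‖∏ l ∈ Finset.range m, (t - ((γ * n : ℕ) : ℂ) + ((l : ℂ) + 1))‖ =
      PL (n * x - γ * n) m (n * y) := by
    rw [← norm_PL (n * x - γ * n) m (n * y) (t - ((γ * n : ℕ) : ℂ) + 1) (by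
      rw [ht]; push_cast; ring)]
    congr 1
    exact Finset.prod_congr rfl fun l _ => by ring
  have e2 : ‖∏ l ∈ Finset.range m, (t + ((η * n + 2 : ℕ) : ℂ) + ((γ * n : ℕ) : ℂ) -
        ((l : ℂ) + 1))‖ = PL (n * x + η * n + 1 - α * n) m (n * y) := by
    rw [← norm_PL (n * x + η * n + 1 - α * n) m (n * y)
      (t + ((η * n + 2 : ℕ) : ℂ) - ((α * n : ℕ) : ℂ)) (by rw [ht]; push_cast; ring)]
    congr 1
    rw [← Finset.prod_range_reflect]
    refine Finset.prod_congr rfl fun l hl => ?_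
    rw [Finset.mem_range] at hl
    have h2 : ((m - 1 - l : ℕ) : ℂ) = m - 1 - l := by
      rw [Nat.sub_sub, Nat.cast_sub (by omega)]
      push_cast
      ring
    have h3 : (m : ℂ) = γ * n + α * n := by rw [hm]; push_cast; ring
    rw [h2, h3]
    push_cast
    ring
  have e3 := PL_le (n * x - γ * n) m hY0 hE1
  have e4 := PL_le (n * x + η * n + 1 - α * n) m hY0 hE1
  have f1 : n * x - γ * n + m = (α + x) * n := by rw [hmr]; ring
  have f2 : (n : ℝ) * x - γ * n = (x - γ) * n := by ring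
  have f3 : (n : ℝ) * x + η * n + 1 - α * n + m = (η + γ + x) * n + 1 := by rw [hmr]; ring
  have f4 : (n : ℝ) * x + η * n + 1 - α * n = (η - α + x) * n + 1 := by ring
  rw [f3, f4] at e4
  rw [f1, f2] at e3
  have hαη : (α : ℝ) ≤ η := by exact_mod_cast hη
  have g1 := Phi_one hny ((η + γ + x) * n) (B := B) (by
    rw [abs_of_nonneg (by positivity)]
    linarith)
  have g2 := Phi_one hny ((η - α + x) * n) (B := B) (by
    rw [abs_of_nonneg (mul_nonneg (by linarith) hn0.le)]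
    have : (0 : ℝ) ≤ α * n := by positivity
    linarith)
  have e7 := le_factorial (m := m) (by
    rw [hm]
    have := Nat.mul_pos hα hn
    omega)
  have hmf : (m : ℝ) * Real.log m - m = n * (((γ : ℝ) + α) * Real.log (γ + α)) -
      (γ + α) * n + (γ + α) * n * Real.log n := by
    have := fact_scale (n := n) (a := γ + α) hn (by omega)
    rw [show (γ + α) * n = m by rw [hm]; ring] at this
    rw [this]
    push_cast
    ring
  have hs : ∀ c : ℝ, Phi (n * y) (c * n) = n * gg c y - c * n + c * n * Real.log n := by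
    intro c
    have := Phi_scale hn hY0 c
    rwa [mul_div_cancel_left₀ _ hn0.ne'] at this
  rw [e1, e2, div_le_iff₀ (by positivity)]
  have hP1 : 0 ≤ PL (n * x - γ * n) m (n * y) := (PL_pos _ _ hY0).le
  rw [f2] at hP1 ⊢
  rw [f4]
  have h5 : Real.exp (2 * ((m : ℝ) * Real.log m - m)) ≤ ((m).factorial : ℝ) ^ 2 := by
    rw [two_mul, Real.exp_add, ← sq]
    gcongr
  calc PL ((x - γ) * n) m (n * y) * PL ((η - α + x) * n + 1) m (n * y)
      ≤ Real.exp (Phi (n * y) ((α + x) * n) - Phi (n * y) ((x - γ) * n) + K1) *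
        Real.exp (Phi (n * y) ((η + γ + x) * n + 1) - Phi (n * y) ((η - α + x) * n + 1) + K1) :=
        mul_le_mul e3 e4 (PL_pos _ _ hY0).le (Real.exp_pos _).le
    _ = Real.exp (Phi (n * y) ((α + x) * n) - Phi (n * y) ((x - γ) * n) + K1 +
        (Phi (n * y) ((η + γ + x) * n + 1) - Phi (n * y) ((η - α + x) * n + 1) + K1)) := by
        rw [← Real.exp_add]
    _ ≤ Real.exp (3 * (2 * Real.log B + K1) + n * VA η γ α x y +
        2 * ((m : ℝ) * Real.log m - m)) := by
        apply Real.exp_le_exp.mpr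
        have hlB := Real.log_nonneg hB1
        have s1 := hs (α + x)
        have s2 := hs (x - γ)
        have s3 := hs (η + γ + x)
        have s4 := hs (η - α + x)
        have hodd : gg ((x : ℝ) - γ) y = -gg (γ - x) y := by
          rw [← gg_neg]; congr 1; ring
        rw [hodd] at s2
        rw [hmf]
        unfold VA
        have hc : Real.log ((α : ℝ) + γ) = Real.log ((γ : ℝ) + α) := by rw [add_comm]
        rw [hc]
        have g11 := g1.2
        have g21 := g2.1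
        linarith
    _ = (B ^ 2 * Real.exp K1) ^ 3 * Real.exp (n * VA η γ α x y) *
        Real.exp (2 * ((m : ℝ) * Real.log m - m)) := by
        rw [Real.exp_add, Real.exp_add]
        congr 2
        have hB0 : 0 < B := by linarith
        rw [← Real.exp_log (show 0 < B ^ 2 by positivity), ← Real.exp_add, ← Real.exp_nat_mul,
          Real.log_pow]
        push_cast
        ring_nf
    _ ≤ _ := by gcongr

end ZG

end

section

/-!
Pointwise bound of the rational function `ZG.R`, continued: denominator factors, the line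
`Re t = -1/2`, and the bound of `R` itself.
-/

namespace ZG

open Finset
open ZetaSets (K pt gg psi Phi G G_pos G_le' G_succ_le le_G_succ G_succ hasDerivAt_Phi Phi_mvt
  Phi_scale fact_scale factorial_le le_factorial norm_num1 norm_num2 norm_den pt_zero
  norm_add_le_abs)

/-- denominator factor, away from the real axis -/
theorem ifactor2 {β η n : ℕ} (hn : 0 < n) (hβ2 : 2 * β < η) {x y : ℝ} (hx : 0 ≤ x)
    (hy : 0 < y) (hny : 1 ≤ n * y) {B K1 : ℝ} (hB : ((η : ℝ) + x + y) * n + 2 ≤ B)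
    (hK1 : 1 ≤ K1) (hK : ((η : ℝ) + 1) / (4 * y) ≤ K1) {t : ℂ}
    (ht : t = ((-(1 / 2) + n * x : ℝ) : ℂ) + ((n * y : ℝ) : ℂ) * Complex.I) :
    (((η * n + 2 - 2 * (β * n + 1)).factorial : ℕ) : ℝ) /
        ‖∏ l ∈ Finset.range (η * n + 2 - 2 * (β * n + 1) + 1),
          (t + ((β * n + 1 : ℕ) : ℂ) + (l : ℂ))‖ ≤
      (B ^ 2 * Real.exp K1) ^ 3 * Real.exp (n * VB η β x y) := by
  obtain ⟨γ, rfl⟩ : ∃ γ, η = 2 * β + γ := ⟨η - 2 * β, by omega⟩
  have hγ : 0 < γ := by omega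
  have hn0 : (0 : ℝ) < n := by exact_mod_cast hn
  have hn1 : (1 : ℝ) ≤ n := by exact_mod_cast hn
  have hY0 : (0 : ℝ) < n * y := by linarith
  have hcast : ((2 * β + γ : ℕ) : ℝ) = 2 * β + γ := by push_cast; ring
  rw [hcast] at hB hK
  have e1 : (2 * β + γ) * n + 2 - 2 * (β * n + 1) = γ * n := by
    have : (2 * β + γ) * n = 2 * (β * n) + γ * n := by ring
    omega
  rw [e1]
  have hβn : (0 : ℝ) ≤ (β : ℝ) * n := by positivity
  have hγn : (0 : ℝ) ≤ (γ : ℝ) * n := by positivity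
  have hxn : (0 : ℝ) ≤ x * n := by positivity
  have hB' : 2 * ((β : ℝ) * n) + γ * n + x * n + n * y + 2 ≤ B := by linarith
  have hB1 : 1 ≤ B := by linarith
  have e2 : ‖∏ l ∈ Finset.range (γ * n + 1), (t + ((β * n + 1 : ℕ) : ℂ) + (l : ℂ))‖ =
      PL ((β + x) * n) (γ * n + 1) (n * y) := by
    rw [← norm_PL ((β + x) * n) (γ * n + 1) (n * y) (t + ((β * n + 1 : ℕ) : ℂ)) (by
      rw [ht]; push_cast; ring)]
  have hE1 : ((γ * n + 1 : ℕ) : ℝ) / (4 * (n * y)) ≤ K1 := by
    refine le_trans ?_ hK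
    push_cast
    rw [div_le_div_iff₀ (by positivity) (by positivity)]
    have h1 : (γ : ℝ) * n + 1 ≤ (2 * β + γ + 1) * n := by nlinarith
    nlinarith
  have e3 := le_PL ((β + x) * n) (γ * n + 1) hY0 hE1
  have f1 : ((β : ℝ) + x) * n + (γ * n + 1 : ℕ) = (β + γ + x) * n + 1 := by push_cast; ring
  rw [f1] at e3
  have g1 := Phi_one hny ((β + γ + x) * n) (B := B) (by
    rw [abs_of_nonneg (by positivity)]
    linarith)
  have e7 := factorial_le (m := γ * n) (Nat.mul_pos hγ hn)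
  have hmf := fact_scale (n := n) (a := γ) hn hγ
  have hs : ∀ c : ℝ, Phi (n * y) (c * n) = n * gg c y - c * n + c * n * Real.log n := by
    intro c
    have := Phi_scale hn hY0 c
    rwa [mul_div_cancel_left₀ _ hn0.ne'] at this
  have e8 : ((γ * n : ℕ) : ℝ) * Real.exp 1 ≤ B ^ 2 * Real.exp K1 := by
    have h1 : ((γ * n : ℕ) : ℝ) ≤ B ^ 2 := by
      push_cast
      nlinarith
    have h2 : Real.exp 1 ≤ Real.exp K1 := Real.exp_le_exp.mpr hK1
    gcongr
  have hP := PL_pos ((β + x) * n) (γ * n + 1) hY0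
  rw [e2, div_le_iff₀ hP]
  set X := ((γ * n : ℕ) : ℝ) * Real.log ((γ * n : ℕ) : ℝ) - ((γ * n : ℕ) : ℝ) with hX
  have hB0 : 0 < B := by linarith
  have hlB := Real.log_nonneg hB1
  calc ((γ * n).factorial : ℝ) ≤ Real.exp X * (((γ * n : ℕ) : ℝ) * Real.exp 1) := e7
    _ ≤ Real.exp X * (B ^ 2 * Real.exp K1) := by gcongr
    _ ≤ (B ^ 2 * Real.exp K1) ^ 3 * Real.exp (n * VB ((2 * β + γ : ℕ) : ℝ) β x y) *
        Real.exp (Phi (n * y) ((β + γ + x) * n + 1) - Phi (n * y) ((β + x) * n) - K1) := by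
        have h1 : (B ^ 2 * Real.exp K1) ^ 3 = Real.exp (2 * (2 * Real.log B + K1)) *
            (B ^ 2 * Real.exp K1) := by
          rw [pow_succ]
          congr 1
          rw [two_mul, Real.exp_add, Real.exp_add, two_mul, Real.exp_add, Real.exp_log hB0]
          ring
        rw [h1]
        have h2 : Real.exp X ≤ Real.exp (2 * (2 * Real.log B + K1)) *
            Real.exp (n * VB ((2 * β + γ : ℕ) : ℝ) β x y) *
            Real.exp (Phi (n * y) ((β + γ + x) * n + 1) - Phi (n * y) ((β + x) * n) - K1) := by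
          rw [← Real.exp_add, ← Real.exp_add]
          apply Real.exp_le_exp.mpr
          have s1 := hs (β + x)
          have s2 := hs (β + γ + x)
          unfold VB
          rw [hmf]
          have c1 : (((2 * β + γ : ℕ) : ℝ) - β + x) = β + γ + x := by rw [hcast]; ring
          have c2 : (((2 * β + γ : ℕ) : ℝ) - 2 * β) = γ := by rw [hcast]; ring
          rw [c1, c2]
          have g11 := g1.1
          linarith
        have h3 : 0 ≤ B ^ 2 * Real.exp K1 := by positivity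
        calc Real.exp X * (B ^ 2 * Real.exp K1) ≤ (Real.exp (2 * (2 * Real.log B + K1)) *
            Real.exp (n * VB ((2 * β + γ : ℕ) : ℝ) β x y) *
            Real.exp (Phi (n * y) ((β + γ + x) * n + 1) - Phi (n * y) ((β + x) * n) - K1)) *
            (B ^ 2 * Real.exp K1) := mul_le_mul_of_nonneg_right h2 h3
          _ = _ := by ring
    _ ≤ _ := by gcongr

/-! ### The line `Re t = -1/2` -/

theorem norm_num1g (g a : ℕ) (y : ℝ) :
    ‖∏ l ∈ Finset.range (g + a), (pt 0 y - (g : ℂ) + ((l : ℂ) + 1))‖ = G g y * G a y := by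
  rw [Finset.prod_range_add, norm_mul]
  congr 1
  · rw [norm_prod]
    unfold G
    rw [← Finset.prod_range_reflect]
    refine Finset.prod_congr rfl fun l hl => ?_
    rw [Finset.mem_range] at hl
    rw [← Complex.norm_add_mul_I, pt_zero, ← norm_neg]
    have h2 : ((g - 1 - l : ℕ) : ℂ) = g - 1 - l := by
      rw [Nat.sub_sub, Nat.cast_sub (by omega)]
      push_cast
      ring
    have h3 : -(((-(1 / 2) : ℝ) : ℂ) + y * Complex.I - (g : ℂ) + (((g - 1 - l : ℕ) : ℂ) + 1)) =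
        (starRingEnd ℂ) ((((l : ℝ) + 1 / 2 : ℝ) : ℂ) + y * Complex.I) := by
      rw [h2]
      simp only [map_add, map_mul, Complex.conj_ofReal, Complex.conj_I]
      push_cast
      ring
    rw [h3, Complex.norm_conj]
  · rw [← ZetaSets.norm_num1]
    congr 1
    refine Finset.prod_congr rfl fun l _ => ?_
    push_cast
    ring

/-- numerator factor on the line `Re t = -1/2` -/
theorem jfactor1 {α γ η n : ℕ} (hn : 0 < n) (hα : 0 < α) (hη : α ≤ η) {y : ℝ}
    (hy : 0 < y) {B K1 : ℝ} (hB : ((η : ℝ) + γ + y) * n + 2 ≤ B) (hK : 1 ≤ K1) :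
    (‖∏ l ∈ Finset.range (γ * n + α * n), (pt 0 (n * y) - ((γ * n : ℕ) : ℂ) + ((l : ℂ) + 1))‖ *
      ‖∏ l ∈ Finset.range (γ * n + α * n), (pt 0 (n * y) + ((η * n + 2 : ℕ) : ℂ) +
        ((γ * n : ℕ) : ℂ) - ((l : ℂ) + 1))‖) / ((γ * n + α * n).factorial : ℝ) ^ 2 ≤
      (B ^ 2 * Real.exp K1) ^ 4 * Real.exp (n * VA η γ α 0 y) := by
  set m := γ * n + α * n with hm
  have hn0 : (0 : ℝ) < n := by exact_mod_cast hn
  have hY0 : (0 : ℝ) < n * y := by positivity
  have hηn : (0 : ℝ) ≤ (η : ℝ) * n := by positivity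
  have hγn : (0 : ℝ) ≤ (γ : ℝ) * n := by positivity
  have hαn : (0 : ℝ) ≤ (α : ℝ) * n := by positivity
  have hαη : (α : ℝ) ≤ η := by exact_mod_cast hη
  have hαηn : (α : ℝ) * n ≤ η * n := by gcongr
  have hB' : (η : ℝ) * n + γ * n + n * y + 2 ≤ B := by linarith
  have hB2 : 2 ≤ B := by linarith
  set E := B ^ 2 * Real.exp 1 with hE
  have hE0 : 0 < E := by positivity
  have e1 := norm_num1g (γ * n) (α * n) (n * y)
  have e2 := norm_num2 (N := η * n + γ * n) (a := m) (by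
    rw [hm]
    have := Nat.mul_le_mul_right n hη
    omega) (n * y)
  have e3 : ((η * n + γ * n + 2 : ℕ) : ℂ) = ((η * n + 2 : ℕ) : ℂ) + ((γ * n : ℕ) : ℂ) := by
    push_cast; ring
  have e4 : η * n + γ * n + 1 - m = (η - α) * n + 1 := by
    rw [hm, Nat.sub_mul]
    have := Nat.mul_le_mul_right n hη
    omega
  rw [e4] at e2
  simp only [e3, ← add_assoc] at e2
  rw [← hm] at e1
  set P2 := ‖∏ l ∈ Finset.range m, (pt 0 (n * y) + ((η * n + 2 : ℕ) : ℂ) +
        ((γ * n : ℕ) : ℂ) - ((l : ℂ) + 1))‖ with hP2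
  have hP20 : 0 ≤ P2 := norm_nonneg _
  have hsubn : (((η - α) * n : ℕ) : ℝ) = ((η : ℝ) - α) * n := by
    rw [Nat.cast_mul, Nat.cast_sub hη]
  have k1 := G_le' hY0 (γ * n) (B := B) (by push_cast; linarith) hB2
  have k2 := G_le' hY0 (α * n) (B := B) (by push_cast; linarith) hB2
  have k3 := G_succ_le hY0 (η * n + γ * n) (B := B) (by push_cast; linarith) hB2
  have k4 := le_G_succ hY0 ((η - α) * n) (B := B) (by rw [hsubn]; linarith) hB2
  rw [← hE] at k1 k2 k3 k4
  have k5 : P2 ≤ E ^ 2 * Real.exp (Phi (n * y) ((η * n + γ * n : ℕ) : ℝ) -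
      Phi (n * y) (((η - α) * n : ℕ) : ℝ)) := by
    rw [Real.exp_sub, ← mul_div_assoc, le_div_iff₀ (Real.exp_pos _)]
    calc P2 * Real.exp (Phi (n * y) (((η - α) * n : ℕ) : ℝ))
        ≤ P2 * (G ((η - α) * n + 1) (n * y) * E) := by gcongr
      _ = (P2 * G ((η - α) * n + 1) (n * y)) * E := by ring
      _ ≤ (Real.exp (Phi (n * y) ((η * n + γ * n : ℕ) : ℝ)) * E) * E := by rw [e2]; gcongr
      _ = _ := by ring
  have e7 := le_factorial (m := m) (by
    rw [hm]
    have := Nat.mul_pos hα hn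
    omega)
  have hmf : (m : ℝ) * Real.log m - m = n * (((γ : ℝ) + α) * Real.log (γ + α)) -
      (γ + α) * n + (γ + α) * n * Real.log n := by
    have := fact_scale (n := n) (a := γ + α) hn (by omega)
    rw [show (γ + α) * n = m by rw [hm]; ring] at this
    rw [this]
    push_cast
    ring
  have hs : ∀ c : ℝ, Phi (n * y) (c * n) = n * gg c y - c * n + c * n * Real.log n := by
    intro c
    have := Phi_scale hn hY0 c
    rwa [mul_div_cancel_left₀ _ hn0.ne'] at this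
  have h5 : Real.exp (2 * ((m : ℝ) * Real.log m - m)) ≤ ((m).factorial : ℝ) ^ 2 := by
    rw [two_mul, Real.exp_add, ← sq]
    gcongr
  rw [e1, div_le_iff₀ (by positivity)]
  have hEE : E ≤ B ^ 2 * Real.exp K1 := by
    rw [hE]
    have := Real.exp_le_exp.mpr hK
    gcongr
  have hGg := (G_pos (γ * n) (y := n * y)).le
  have hGa := (G_pos (α * n) (y := n * y)).le
  calc G (γ * n) (n * y) * G (α * n) (n * y) * P2
      ≤ (Real.exp (Phi (n * y) ((γ * n : ℕ) : ℝ)) * E) *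
        (Real.exp (Phi (n * y) ((α * n : ℕ) : ℝ)) * E) *
        (E ^ 2 * Real.exp (Phi (n * y) ((η * n + γ * n : ℕ) : ℝ) -
          Phi (n * y) (((η - α) * n : ℕ) : ℝ))) := by gcongr
    _ = E ^ 4 * Real.exp (Phi (n * y) ((γ * n : ℕ) : ℝ) + Phi (n * y) ((α * n : ℕ) : ℝ) +
        (Phi (n * y) ((η * n + γ * n : ℕ) : ℝ) - Phi (n * y) (((η - α) * n : ℕ) : ℝ))) := by
        rw [Real.exp_add, Real.exp_add]; ring
    _ = E ^ 4 * Real.exp (n * VA η γ α 0 y + 2 * ((m : ℝ) * Real.log m - m)) := by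
        congr 2
        have s1 := hs γ
        have s2 := hs α
        have s3 := hs (η + γ)
        have s4 := hs (η - α)
        rw [hsubn]
        push_cast
        rw [← add_mul, s1, s2, s3, s4, hmf]
        unfold VA
        have hc : Real.log ((α : ℝ) + γ) = Real.log ((γ : ℝ) + α) := by rw [add_comm]
        rw [hc, add_zero, add_zero, add_zero, sub_zero]
        ring
    _ = E ^ 4 * Real.exp (n * VA η γ α 0 y) * Real.exp (2 * ((m : ℝ) * Real.log m - m)) := by
        rw [Real.exp_add]; ring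
    _ ≤ _ := by gcongr

end ZG

end

section

/-!
The bound of the linear forms `ZG.Lf` from bounds of the rate function on a bent path.
-/

namespace ZG

open Finset MeasureTheory
open ZetaSets (K pt gg pt_zero norm_add_le_abs)

/-! ### `R` and its norm -/

theorem R_norm (P : Par) (t : ℂ) :
    ‖R P t‖ = ‖2 * t + P.h‖ *
      (∏ j, (‖∏ l ∈ Finset.range (P.g j + P.a j), (t - P.g j + ((l : ℂ) + 1))‖ *
        ‖∏ l ∈ Finset.range (P.g j + P.a j), (t + P.h + P.g j - ((l : ℂ) + 1))‖) /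
          ((P.g j + P.a j).factorial : ℝ) ^ 2) *
      ∏ i, (((P.h - 2 * P.b i).factorial : ℕ) : ℝ) /
        ‖∏ l ∈ Finset.range (P.h - 2 * P.b i + 1), (t + P.b i + (l : ℂ))‖ := by
  unfold R
  rw [norm_mul, norm_mul, norm_prod Finset.univ, norm_prod Finset.univ]
  congr 2
  · refine Finset.prod_congr rfl fun j _ => ?_
    rw [norm_div, norm_mul, norm_pow, Complex.norm_natCast]
  · funext i
    rw [norm_div, Complex.norm_natCast]

theorem R_le_of (F : Fam) {n : ℕ} {t : ℂ} {x y E : ℝ} (hE : 0 ≤ E)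
    (h1 : ‖2 * t + ((F.par n).h : ℂ)‖ ≤ E)
    (h2 : ∀ j, (‖∏ l ∈ Finset.range (F.γ j * n + F.α j * n),
        (t - ((F.γ j * n : ℕ) : ℂ) + ((l : ℂ) + 1))‖ *
      ‖∏ l ∈ Finset.range (F.γ j * n + F.α j * n), (t + ((F.η * n + 2 : ℕ) : ℂ) +
        ((F.γ j * n : ℕ) : ℂ) - ((l : ℂ) + 1))‖) / ((F.γ j * n + F.α j * n).factorial : ℝ) ^ 2 ≤
      E ^ 4 * Real.exp (n * VA F.η (F.γ j) (F.α j) x y))
    (h3 : ∀ i, (((F.η * n + 2 - 2 * (F.β i * n + 1)).factorial : ℕ) : ℝ) /
        ‖∏ l ∈ Finset.range (F.η * n + 2 - 2 * (F.β i * n + 1) + 1),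
          (t + ((F.β i * n + 1 : ℕ) : ℂ) + (l : ℂ))‖ ≤
      E ^ 3 * Real.exp (n * VB F.η (F.β i) x y)) :
    ‖R (F.par n) t‖ ≤ E ^ (1 + 4 * F.r + 3 * F.s) *
      Real.exp (n * F.V x y + 2 * Real.pi * (n * y)) := by
  rw [R_norm]
  have k2 : (∏ j, (‖∏ l ∈ Finset.range ((F.par n).g j + (F.par n).a j),
        (t - (F.par n).g j + ((l : ℂ) + 1))‖ *
      ‖∏ l ∈ Finset.range ((F.par n).g j + (F.par n).a j), (t + (F.par n).h +
        (F.par n).g j - ((l : ℂ) + 1))‖) / (((F.par n).g j + (F.par n).a j).factorial : ℝ) ^ 2) ≤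
      E ^ (4 * F.r) * Real.exp (n * ∑ j, VA F.η (F.γ j) (F.α j) x y) := by
    have e1 : E ^ (4 * F.r) * Real.exp (n * ∑ j, VA F.η (F.γ j) (F.α j) x y) =
        ∏ j : Fin F.r, (E ^ 4 * Real.exp (n * VA F.η (F.γ j) (F.α j) x y)) := by
      rw [Finset.prod_mul_distrib, Finset.prod_const, Finset.card_univ, Fintype.card_fin,
        ← pow_mul, ← Real.exp_sum, Finset.mul_sum]
    rw [e1]
    refine Finset.prod_le_prod (fun j _ => by positivity) fun j _ => ?_
    exact h2 j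
  have k3 : (∏ i, ((((F.par n).h - 2 * (F.par n).b i).factorial : ℕ) : ℝ) /
        ‖∏ l ∈ Finset.range ((F.par n).h - 2 * (F.par n).b i + 1),
          (t + (F.par n).b i + (l : ℂ))‖) ≤
      E ^ (3 * F.s) * Real.exp (n * ∑ i, VB F.η (F.β i) x y) := by
    have e1 : E ^ (3 * F.s) * Real.exp (n * ∑ i, VB F.η (F.β i) x y) =
        ∏ i : Fin F.s, (E ^ 3 * Real.exp (n * VB F.η (F.β i) x y)) := by
      rw [Finset.prod_mul_distrib, Finset.prod_const, Finset.card_univ, Fintype.card_fin,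
        ← pow_mul, ← Real.exp_sum, Finset.mul_sum]
    rw [e1]
    refine Finset.prod_le_prod (fun i _ => by positivity) fun i _ => ?_
    exact h3 i
  have k4 : (n : ℝ) * F.V x y + 2 * Real.pi * (n * y) =
      n * (∑ j, VA F.η (F.γ j) (F.α j) x y) + n * (∑ i, VB F.η (F.β i) x y) := by
    unfold Fam.V
    ring
  rw [k4, Real.exp_add]
  refine (mul_le_mul (mul_le_mul h1 k2 (by positivity) hE) k3 (by positivity)
    (by positivity)).trans (le_of_eq ?_)
  rw [pow_add, pow_add, pow_one]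
  ring

/-- standing assumptions on a family -/
structure Fam.Ok (F : Fam) : Prop where
  r3 : 3 ≤ F.r
  α0 : ∀ j, 0 < F.α j
  αη : ∀ j, F.α j ≤ F.η
  β2 : ∀ i, 2 * F.β i < F.η

/-- sum of the shifts -/
def Fam.Γ (F : Fam) : ℕ := ∑ j, F.γ j

theorem Fam.γ_le (F : Fam) (j : Fin F.r) : (F.γ j : ℝ) ≤ F.Γ := by
  unfold Fam.Γ
  exact_mod_cast Finset.single_le_sum (fun i _ => Nat.zero_le (F.γ i)) (Finset.mem_univ j)

theorem tnorm {F : Fam} {n : ℕ} {x y B : ℝ} (hx : 0 ≤ x) (hy : 0 ≤ y)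
    (hB : ((F.η : ℝ) + F.Γ + x + y) * n + 2 ≤ B) {t : ℂ}
    (ht : t = ((-(1 / 2) + n * x : ℝ) : ℂ) + ((n * y : ℝ) : ℂ) * Complex.I) :
    ‖t‖ ≤ B ∧ ‖t + ((F.par n).h : ℂ)‖ ≤ B ∧ ‖2 * t + ((F.par n).h : ℂ)‖ ≤ 2 * B := by
  have hn0 : (0 : ℝ) ≤ n := by positivity
  have h1 : (0 : ℝ) ≤ F.η * n := by positivity
  have h2 : (0 : ℝ) ≤ F.Γ * n := by positivity
  have h3 : (0 : ℝ) ≤ x * n := by positivity
  have h4 : (0 : ℝ) ≤ y * n := by positivity
  have h5 : |(n : ℝ) * y| = y * n := by rw [abs_of_nonneg (by positivity)]; ring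
  refine ⟨?_, ?_, ?_⟩
  · rw [ht]
    refine (norm_add_le_abs _ _).trans ?_
    rw [h5]
    have : |(-(1 / 2) + n * x : ℝ)| ≤ 1 / 2 + x * n := by
      rw [abs_le]; constructor <;> linarith
    linarith
  · have e1 : t + ((F.par n).h : ℂ) = (((F.η : ℝ) * n + n * x + 3 / 2 : ℝ) : ℂ) +
        ((n * y : ℝ) : ℂ) * Complex.I := by
      rw [ht]
      simp only [Fam.par]
      push_cast
      ring
    rw [e1]
    refine (norm_add_le_abs _ _).trans ?_
    rw [h5, abs_of_nonneg (by positivity)]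
    linarith
  · have e1 : 2 * t + ((F.par n).h : ℂ) = (((F.η : ℝ) * n + 2 * n * x + 1 : ℝ) : ℂ) +
        ((2 * (n * y) : ℝ) : ℂ) * Complex.I := by
      rw [ht]
      simp only [Fam.par]
      push_cast
      ring
    rw [e1]
    refine (norm_add_le_abs _ _).trans ?_
    rw [abs_of_nonneg (by positivity), abs_of_nonneg (by positivity)]
    linarith

/-- bound of `R` off the real axis -/
theorem R_le2 {F : Fam} (hF : F.Ok) {n : ℕ} (hn : 0 < n) {x y : ℝ} (hx : 0 ≤ x) (hy : 0 < y)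
    (hny : 1 ≤ n * y) {B K1 : ℝ} (hB : ((F.η : ℝ) + F.Γ + x + y) * n + 2 ≤ B) (hK1 : 1 ≤ K1)
    (hK : ((F.η : ℝ) + F.Γ + 1) / (4 * y) ≤ K1) {t : ℂ}
    (ht : t = ((-(1 / 2) + n * x : ℝ) : ℂ) + ((n * y : ℝ) : ℂ) * Complex.I) :
    ‖R (F.par n) t‖ ≤ (B ^ 2 * Real.exp K1) ^ (1 + 4 * F.r + 3 * F.s) *
      Real.exp (n * F.V x y + 2 * Real.pi * (n * y)) := by
  have hn0 : (0 : ℝ) < n := by exact_mod_cast hn
  have hB2 : 2 ≤ B := by
    have : (0 : ℝ) ≤ ((F.η : ℝ) + F.Γ + x + y) * n := by positivity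
    linarith
  have hEB : 2 * B ≤ B ^ 2 * Real.exp K1 := by
    have : 1 ≤ Real.exp K1 := Real.one_le_exp (by linarith)
    nlinarith [sq_nonneg B]
  have hE1 : 1 ≤ B ^ 2 * Real.exp K1 := by linarith
  have hΓ : (0 : ℝ) ≤ F.Γ := by positivity
  refine R_le_of F (by linarith) ((tnorm hx hy.le hB ht).2.2.trans hEB) (fun j => ?_)
    (fun i => ?_)
  · have hγ := F.γ_le j
    have h1 := jfactor2 (α := F.α j) (γ := F.γ j) (η := F.η) hn (hF.α0 j) (hF.αη j) hx hy hny
      (B := B) (K1 := K1) (by nlinarith) (by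
        refine le_trans (div_le_div_of_nonneg_right ?_ (by positivity)) hK
        have : (F.α j : ℝ) ≤ F.η := by exact_mod_cast hF.αη j
        linarith) ht
    exact h1.trans (mul_le_mul_of_nonneg_right (pow_le_pow_right₀ hE1 (by norm_num))
      (Real.exp_pos _).le)
  · exact ifactor2 hn (hF.β2 i) hx hy hny (B := B) (K1 := K1) (by nlinarith) hK1 (by
        refine le_trans (div_le_div_of_nonneg_right ?_ (by positivity)) hK
        linarith) ht

/-- bound of `R` on the line `Re t = -1/2` -/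
theorem R_le1 {F : Fam} (hF : F.Ok) {n : ℕ} (hn : 0 < n) {y : ℝ} (hy : 0 < y)
    {B K1 : ℝ} (hB : ((F.η : ℝ) + F.Γ + y) * n + 2 ≤ B) (hK1 : 1 ≤ K1) :
    ‖R (F.par n) (pt 0 (n * y))‖ ≤ (B ^ 2 * Real.exp K1) ^ (1 + 4 * F.r + 3 * F.s) *
      Real.exp (n * F.V 0 y + 2 * Real.pi * (n * y)) := by
  have hn0 : (0 : ℝ) < n := by exact_mod_cast hn
  have hB2 : 2 ≤ B := by
    have : (0 : ℝ) ≤ ((F.η : ℝ) + F.Γ + y) * n := by positivity
    linarith
  have hEB : 2 * B ≤ B ^ 2 * Real.exp K1 := by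
    have : 1 ≤ Real.exp K1 := Real.one_le_exp (by linarith)
    nlinarith [sq_nonneg B]
  have hE1 : 1 ≤ B ^ 2 * Real.exp K1 := by linarith
  have hΓ : (0 : ℝ) ≤ F.Γ := by positivity
  have ht : pt 0 (n * y) = ((-(1 / 2) + n * (0 : ℝ) : ℝ) : ℂ) + ((n * y : ℝ) : ℂ) * Complex.I := by
    rw [pt_zero, mul_zero, add_zero]
  refine R_le_of F (by linarith) ((tnorm (F := F) le_rfl hy.le (B := B) (by linarith) ht).2.2.trans
    hEB) (fun j => ?_) (fun i => ?_)
  · have hγ := F.γ_le j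
    exact jfactor1 (α := F.α j) (γ := F.γ j) (η := F.η) hn (hF.α0 j) (hF.αη j) hy
      (B := B) (K1 := K1) (by nlinarith) hK1
  · have h1 := ZetaSets.ifactor (β := F.β i) (η := F.η) hn (hF.β2 i) (y := n * y)
      (by positivity) (B := B) (by nlinarith)
    rw [mul_div_cancel_left₀ _ hn0.ne'] at h1
    refine h1.trans ?_
    unfold VB
    rw [add_zero, add_zero]
    have h2 : Real.exp 1 ≤ Real.exp K1 := Real.exp_le_exp.mpr hK1
    gcongr

end ZG

end
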