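import Pool.Agent.Work.MP_4f096c_nt.GNum
import Pool.Agent.Work.MP_4f096c_nt.Cert2
import Pool.Agent.Work.MP_4f096c_nt.GRate

/-!
The bound certificate of a family: checks.
-/

section

/-!
The certificate for the upper bound of the linear forms of a family given by `ZetaCert.Dat`
(TASK G-BOUND of MP_4f096c_nt).
-/

namespace ZG

open ZetaSets (gg LS PP PP_pos LS_eq LS_append)
open ZetaCert (Dat)

/-! ### Atoms of a family -/

/-- the constant of the rate function -/
noncomputable def K0 (D : Dat) : ℝ :=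
  (D.B.map fun b : ℕ => ((D.η : ℝ) - 2 * b) * Real.log ((D.η : ℝ) - 2 * b)).sum -
    (D.A.map fun e : ℕ × ℕ => 2 * ((e.1 : ℝ) + e.2) * Real.log ((e.1 : ℝ) + e.2)).sum

theorem eV_append (l m : List (ℤ × ℤ)) (x y : ℝ) : eV (l ++ m) x y = eV l x y + eV m x y := by
  simp [eV]

theorem eV_flatMap {α : Type} (l : List α) (f : α → List (ℤ × ℤ)) (x y : ℝ) :
    eV (l.flatMap f) x y = (l.map fun a => eV (f a) x y).sum := by
  induction l with
  | nil => simp [eV]
  | cons a l ih => simp only [List.flatMap_cons, eV_append, ih, List.map_cons, List.sum_cons]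

theorem list_sub {α : Type} (l : List α) (f g : α → ℝ) :
    (l.map fun a => f a - g a).sum = (l.map f).sum - (l.map g).sum := by
  induction l with
  | nil => simp
  | cons a l ih =>
    simp only [List.map_cons, List.sum_cons, ih]
    ring

theorem V_eq (D : Dat) (x y : ℝ) :
    D.fam.V x y = eV (atoms D) x y + K0 D - 2 * Real.pi * y := by
  have h1 : ∑ j, VA D.fam.η (D.fam.γ j) (D.fam.α j) x y =
      (D.A.map fun e : ℕ × ℕ => VA D.η e.2 e.1 x y).sum := by
    rw [← Fin.sum_univ_fun_getElem]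
    rfl
  have h2 : ∑ i, VB D.fam.η (D.fam.β i) x y = (D.B.map fun b : ℕ => VB D.η b x y).sum := by
    rw [← Fin.sum_univ_fun_getElem]
    rfl
  unfold Fam.V
  rw [h1, h2]
  unfold atoms
  rw [eV_append, eV_flatMap, eV_flatMap]
  have h3 : (D.A.map fun e : ℕ × ℕ => VA D.η e.2 e.1 x y) = D.A.map fun e : ℕ × ℕ =>
      eV (atA D.η e) x y - 2 * ((e.1 : ℝ) + e.2) * Real.log ((e.1 : ℝ) + e.2) := by
    apply List.map_congr_left
    intro e _
    unfold VA eV atA
    simp only [List.map_cons, List.map_nil, List.sum_cons, List.sum_nil]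
    have h4 : gg ((e.2 : ℝ) - x) y = -gg (-(e.2 : ℝ) + x) y := by
      rw [← gg_neg]; congr 1; ring
    rw [h4]
    push_cast
    ring
  have h5 : (D.B.map fun b : ℕ => VB D.η b x y) = D.B.map fun b : ℕ =>
      eV (atB D.η b) x y - (-(((D.η : ℝ) - 2 * b) * Real.log ((D.η : ℝ) - 2 * b))) := by
    apply List.map_congr_left
    intro b _
    unfold VB eV atB
    simp only [List.map_cons, List.map_nil, List.sum_cons, List.sum_nil]
    push_cast
    ring
  rw [h3, h5, list_sub, list_sub]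
  unfold K0
  have h6 : (D.B.map fun b : ℕ => -(((D.η : ℝ) - 2 * b) * Real.log ((D.η : ℝ) - 2 * b))).sum =
      -(D.B.map fun b : ℕ => ((D.η : ℝ) - 2 * b) * Real.log ((D.η : ℝ) - 2 * b)).sum := by
    generalize D.B = l
    induction l with
    | nil => simp
    | cons a l ih =>
      simp only [List.map_cons, List.sum_cons, ih]
      ring
  rw [h6]
  ring

/-! ### Big integers -/

theorem LS_flatMap' {α : Type} (A : List α) (f : α → List (ℕ × ℕ)) :
    LS (A.flatMap f) = (A.map fun a => LS (f a)).sum := by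
  induction A with
  | nil => simp [LS]
  | cons a A ih => simp only [List.flatMap_cons, LS_append, ih, List.map_cons, List.sum_cons]

theorem toNat_sub (z : ℤ) : ((z.toNat : ℕ) : ℝ) - (((-z).toNat : ℕ) : ℝ) = z := by
  have h : (z.toNat : ℤ) - ((-z).toNat : ℤ) = z := by omega
  exact_mod_cast congrArg (fun z : ℤ => (z : ℝ)) h

theorem LS_atom {X : ℤ} {P Q : ℕ} (hP : 0 < P) (hQ : 0 < Q) (a : ℤ × ℤ) :
    LS (pA X P Q a) - LS (nA X P Q a) = 2 * ((a.1 : ℝ) * ((a.2 + (X : ℝ)) / 2 *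
      Real.log ((a.2 + X) ^ 2 + ((P : ℝ) / Q) ^ 2))) := by
  have hQr : (0 : ℝ) < Q := by exact_mod_cast hQ
  have hPr : (0 : ℝ) < P := by exact_mod_cast hP
  have h1 : Real.log (((a.2 : ℝ) + X) ^ 2 + ((P : ℝ) / Q) ^ 2) =
      Real.log ((((a.2 + X).natAbs ^ 2 * Q ^ 2 + P ^ 2 : ℕ) : ℝ)) -
        Real.log (((Q ^ 2 : ℕ) : ℝ)) := by
    rw [← Real.log_div (by positivity) (by positivity)]
    congr 1
    have h2 : (((a.2 + X).natAbs : ℕ) : ℝ) ^ 2 = ((a.2 : ℝ) + X) ^ 2 := by
      rw [Nat.cast_natAbs, Int.cast_abs, sq_abs, Int.cast_add]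
    push_cast
    rw [h2]
    field_simp
  rw [h1]
  have h3 := toNat_sub (a.1 * (a.2 + X))
  unfold LS pA nA
  simp only [List.map_cons, List.map_nil, List.sum_cons, List.sum_nil]
  push_cast at h3 ⊢
  linear_combination (Real.log (((a.2 + X).natAbs : ℝ) ^ 2 * (Q : ℝ) ^ 2 + (P : ℝ) ^ 2) -
    Real.log ((Q : ℝ) ^ 2)) * h3

theorem LS_atoms {X : ℤ} {P Q : ℕ} (hP : 0 < P) (hQ : 0 < Q) (l : List (ℤ × ℤ)) :
    LS (l.flatMap (pA X P Q)) - LS (l.flatMap (nA X P Q)) = 2 * eL l X ((P : ℝ) / Q) := by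
  rw [LS_flatMap', LS_flatMap']
  unfold eL
  induction l with
  | nil => simp
  | cons a l ih =>
    have h1 := LS_atom (X := X) hP hQ a
    simp only [List.map_cons, List.sum_cons]
    linarith

theorem okB_A {D : Dat} (h : okB D = true) : ∀ e ∈ D.A, 0 < e.1 ∧ e.1 ≤ D.η := by
  simp only [okB, Bool.and_eq_true, List.all_eq_true, decide_eq_true_eq] at h
  exact h.2.1

theorem okB_B {D : Dat} (h : okB D = true) : ∀ b ∈ D.B, 2 * b < D.η := by
  simp only [okB, Bool.and_eq_true, List.all_eq_true, decide_eq_true_eq] at h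
  exact h.2.2

theorem okB_ok {D : Dat} (h : okB D = true) : D.fam.Ok where
  r3 := by
    simp only [okB, Bool.and_eq_true, decide_eq_true_eq] at h
    exact h.1
  α0 := fun j => (okB_A h _ (List.getElem_mem _)).1
  αη := fun j => (okB_A h _ (List.getElem_mem _)).2
  β2 := fun i => okB_B h _ (List.getElem_mem _)

theorem posG_pos {D : Dat} (h : okB D = true) {X : ℤ} {P Q : ℕ} (hP : 0 < P) (hQ : 0 < Q) :
    ∀ p ∈ posG D X P Q, 0 < p.1 := by
  intro p hp
  unfold posG at hp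
  rw [List.mem_append, List.mem_flatMap, List.mem_map] at hp
  rcases hp with ⟨a, _, hp⟩ | ⟨b, hb, rfl⟩
  · simp only [pA, List.mem_cons, List.not_mem_nil, or_false] at hp
    rcases hp with rfl | rfl
    · show 0 < (a.2 + X).natAbs ^ 2 * Q ^ 2 + P ^ 2
      positivity
    · show 0 < Q ^ 2
      positivity
  · have := okB_B h b hb
    show 0 < D.η - 2 * b
    omega

theorem negG_pos {D : Dat} (h : okB D = true) {X : ℤ} {P Q : ℕ} (hP : 0 < P) (hQ : 0 < Q) :
    ∀ p ∈ negG D X P Q, 0 < p.1 := by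
  intro p hp
  unfold negG at hp
  rw [List.mem_append, List.mem_flatMap, List.mem_map] at hp
  rcases hp with ⟨a, _, hp⟩ | ⟨e, he, rfl⟩
  · simp only [nA, List.mem_cons, List.not_mem_nil, or_false] at hp
    rcases hp with rfl | rfl
    · show 0 < (a.2 + X).natAbs ^ 2 * Q ^ 2 + P ^ 2
      positivity
    · show 0 < Q ^ 2
      positivity
  · have := (okB_A h e he).1
    show 0 < e.1 + e.2
    omega

theorem LS_G {D : Dat} (h : okB D = true) {X : ℤ} {P Q : ℕ} (hP : 0 < P) (hQ : 0 < Q) :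
    LS (posG D X P Q) - LS (negG D X P Q) = 2 * (eL (atoms D) X ((P : ℝ) / Q) + K0 D) := by
  have h1 := LS_atoms (X := X) hP hQ (atoms D)
  have h2 : LS (D.B.map fun b => (D.η - 2 * b, 2 * (D.η - 2 * b))) =
      2 * (D.B.map fun b : ℕ => ((D.η : ℝ) - 2 * b) * Real.log ((D.η : ℝ) - 2 * b)).sum := by
    have hB := okB_B h
    generalize D.B = l at hB
    unfold LS
    induction l with
    | nil => simp
    | cons b l ih =>
      have ih' := ih fun c hc => hB c (by simp [hc])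
      have hb := hB b (by simp)
      simp only [List.map_cons, List.sum_cons, ih']
      push_cast [Nat.cast_sub hb.le]
      ring
  have h3 : LS (D.A.map fun e => (e.1 + e.2, 4 * (e.1 + e.2))) =
      2 * (D.A.map fun e : ℕ × ℕ => 2 * ((e.1 : ℝ) + e.2) *
        Real.log ((e.1 : ℝ) + e.2)).sum := by
    generalize D.A = l
    unfold LS
    induction l with
    | nil => simp
    | cons e l ih =>
      simp only [List.map_cons, List.sum_cons, ih]
      push_cast
      ring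
  unfold posG negG K0
  rw [LS_append, LS_append, h2, h3]
  linarith

/-- certified upper bound for the value of the rate function -/
theorem lam_lt {D : Dat} (h : okB D = true) {X : ℤ} {P Q w k : ℕ} (hP : 0 < P) (hQ : 0 < Q)
    (hw : 0 < w)
    (hc : PP (posG D X P Q) ^ w * 27182818286 ^ k < PP (negG D X P Q) ^ w * 10000000000 ^ k) :
    eL (atoms D) X ((P : ℝ) / Q) + K0 D < -((k : ℝ) / (2 * w)) := by
  have e1 := LS_G (X := X) h hP hQ
  rw [LS_eq (posG_pos h hP hQ), LS_eq (negG_pos h hP hQ)] at e1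
  have hp : (0 : ℝ) < PP (posG D X P Q) := by exact_mod_cast PP_pos (posG_pos h hP hQ)
  have hn : (0 : ℝ) < PP (negG D X P Q) := by exact_mod_cast PP_pos (negG_pos h hP hQ)
  set Z1 : ℝ := (PP (posG D X P Q) : ℝ) with hZ1
  set Z2 : ℝ := (PP (negG D X P Q) : ℝ) with hZ2
  have h1 : Z1 ^ w * 27182818286 ^ k < Z2 ^ w * 10000000000 ^ k := by
    rw [hZ1, hZ2]; exact_mod_cast hc
  have h2 := Real.log_lt_log (by positivity) h1
  rw [Real.log_mul (by positivity) (by positivity), Real.log_mul (by positivity) (by positivity),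
    Real.log_pow, Real.log_pow, Real.log_pow, Real.log_pow] at h2
  have h3 : 1 ≤ Real.log 27182818286 - Real.log 10000000000 := by
    rw [← Real.log_div (by norm_num) (by norm_num), Real.le_log_iff_exp_le (by norm_num)]
    have := Real.exp_one_lt_d9
    norm_num
    linarith
  have hk : (0 : ℝ) ≤ k := by positivity
  have hw' : (0 : ℝ) < w := by exact_mod_cast hw
  have h4 : (w : ℝ) * (Real.log Z1 - Real.log Z2) < -k := by nlinarith
  rw [e1] at h4
  rw [lt_neg, div_lt_iff₀ (by positivity)]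
  nlinarith

end ZG

end

section

/-!
A second certificate for the upper bound of the linear forms: values at the vertices of a
rectangular path and curvature bounds on the segments (TASK G-BOUND of MP_4f096c_nt).
-/

namespace ZG

open ZetaSets (gg LS PP PP_pos LS_eq LS_append)
open ZetaCert (Dat)

/-- values at the end points and a lower bound for the second derivative -/
theorem seg {g g' g'' : ℝ → ℝ} {a b M A : ℝ} (hab : a ≤ b) (hM : 0 ≤ M)
    (h1 : ∀ x ∈ Set.Icc a b, HasDerivAt g (g' x) x)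
    (h2 : ∀ x ∈ Set.Icc a b, HasDerivAt g' (g'' x) x)
    (h3 : ∀ x ∈ Set.Icc a b, -M ≤ g'' x) (ha : g a ≤ A) (hb : g b ≤ A) :
    ∀ x ∈ Set.Icc a b, g x ≤ A + M * (b - a) ^ 2 / 8 := by
  intro x hx
  have d1 : ∀ x : ℝ, HasDerivAt (fun x : ℝ => M / 2 * ((x - a) * (b - x)))
      (M / 2 * (a + b - 2 * x)) x := by
    intro x
    have e1 : HasDerivAt (fun x : ℝ => x - a) 1 x := (hasDerivAt_id x).sub_const a
    have e2 : HasDerivAt (fun x : ℝ => b - x) (-1) x := (hasDerivAt_id x).const_sub b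
    refine ((e1.mul e2).const_mul (M / 2)).congr_deriv ?_
    ring
  have d2 : ∀ x : ℝ, HasDerivAt (fun x : ℝ => M / 2 * (a + b - 2 * x)) (-M) x := by
    intro x
    have e1 : HasDerivAt (fun x : ℝ => a + b - 2 * x) (-(2 * 1)) x :=
      ((hasDerivAt_id x).const_mul 2).const_sub (a + b)
    refine (e1.const_mul (M / 2)).congr_deriv ?_
    ring
  have hconv : ConvexOn ℝ (Set.Icc a b) (fun x => g x - M / 2 * ((x - a) * (b - x))) := by
    refine convexOn_of_hasDerivWithinAt2_nonneg (convex_Icc a b)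
      (f' := fun x => g' x - M / 2 * (a + b - 2 * x)) (f'' := fun x => g'' x - (-M))
      (fun x hx => ((h1 x hx).sub (d1 x)).continuousAt.continuousWithinAt)
      (fun x hx => ((h1 x (interior_subset hx)).sub (d1 x)).hasDerivWithinAt)
      (fun x hx => ((h2 x (interior_subset hx)).sub (d2 x)).hasDerivWithinAt) fun x hx => ?_
    have := h3 x (interior_subset hx)
    linarith
  have hmax := hconv.le_max_of_mem_Icc (Set.left_mem_Icc.mpr hab) (Set.right_mem_Icc.mpr hab) hx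
  simp only [sub_self, zero_mul, mul_zero, sub_zero] at hmax
  have h4 : g x - M / 2 * ((x - a) * (b - x)) ≤ A := hmax.trans (max_le ha hb)
  have h5 : M * ((x - a) * (b - x)) ≤ M * ((b - a) ^ 2 / 4) := by
    apply mul_le_mul_of_nonneg_left _ hM
    nlinarith [sq_nonneg ((x - a) - (b - x))]
  linarith

/-! ### Curvature bounds on chains of intervals -/

theorem Qy_sound' {l : List (ℤ × ℤ)} {X : ℤ} {y1 y2 M : ℚ} (hy1 : 0 ≤ y1)
    (h : -M * 1000000000 ≤ (Qy l X y1 y2 : ℚ)) {y : ℝ} (hy : 0 < y) (h1 : (y1 : ℝ) ≤ y)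
    (h2 : y ≤ y2) : -(M : ℝ) ≤ eQ l X y := by
  unfold eQ
  have h3 := sum_floor_le l (f := qy X y1 y2)
    (g := fun a => (a.1 : ℝ) * ((a.2 + (X : ℝ)) / ((a.2 + X) ^ 2 + y ^ 2)))
    fun a _ => qy_le hy1 hy h1 h2
  have h4 := (Rat.cast_le (K := ℝ)).mpr h
  push_cast at h4
  unfold Qy at h4
  linarith

theorem Qx_sound' {l : List (ℤ × ℤ)} {y x1 x2 M : ℚ} (hy : 0 < y)
    (h : -M * 1000000000 ≤ (Qx l y x1 x2 : ℚ)) {x : ℝ} (h1 : (x1 : ℝ) ≤ x) (h2 : x ≤ x2) :
    -(M : ℝ) ≤ eQ l x y := by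
  unfold eQ
  have h3 := sum_floor_le l (f := qx y x1 x2)
    (g := fun a => (a.1 : ℝ) * ((a.2 + x) / ((a.2 + x) ^ 2 + (y : ℝ) ^ 2)))
    fun a _ => qx_le hy h1 h2
  have h4 := (Rat.cast_le (K := ℝ)).mpr h
  push_cast at h4
  unfold Qx at h4
  linarith

theorem chQyM_sound {l : List (ℤ × ℤ)} {X : ℤ} {M ye : ℚ} : ∀ (ys : List ℚ) (y1 : ℚ), 0 ≤ y1 →
    chQyM l X M ye y1 ys = true → ∀ y : ℝ, 0 < y → (y1 : ℝ) < y → y ≤ ye →
      -(M : ℝ) ≤ eQ l X y := by
  intro ys
  induction ys with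
  | nil =>
    intro y1 _ h y hy h1 h2
    simp only [chQyM, decide_eq_true_eq] at h
    have : (ye : ℝ) ≤ y1 := by exact_mod_cast h
    linarith
  | cons y2 ys ih =>
    intro y1 hy1 h y hy h1 h2
    simp only [chQyM, Bool.and_eq_true, decide_eq_true_eq] at h
    rcases le_or_gt y y2 with h3 | h3
    · exact Qy_sound' hy1 h.2.1 hy h1.le h3
    · exact ih y2 (hy1.trans h.1) h.2.2 y hy h3 h2

theorem chQxM_sound {l : List (ℤ × ℤ)} {y M xe : ℚ} (hy : 0 < y) : ∀ (xs : List ℚ) (x1 : ℚ),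
    chQxM l y M xe x1 xs = true → ∀ x : ℝ, (x1 : ℝ) < x → x ≤ xe → -(M : ℝ) ≤ eQ l x y := by
  intro xs
  induction xs with
  | nil =>
    intro x1 h x h1 h2
    simp only [chQxM, decide_eq_true_eq] at h
    have : (xe : ℝ) ≤ x1 := by exact_mod_cast h
    linarith
  | cons x2 xs ih =>
    intro x1 h x h1 h2
    simp only [chQxM, Bool.and_eq_true, decide_eq_true_eq] at h
    rcases le_or_gt x x2 with h3 | h3
    · exact Qx_sound' hy h.1 h1.le h3
    · exact ih x2 h.2 x h3 h2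

/-! ### Values at vertices -/

theorem evalB_sound {D : Dat} (hok : okB D = true) {X : ℤ} {P Q w k : ℕ} {s : ℚ} (hw : 0 < w)
    (h : evalB D X P Q w k s = true) :
    eV (atoms D) X (((P : ℚ) / Q : ℚ) : ℝ) + K0 D - 2 * Real.pi * (((P : ℚ) / Q : ℚ) : ℝ) ≤
      -(((k : ℚ) / (2 * w) - (P : ℚ) / Q * s : ℚ) : ℝ) := by
  simp only [evalB, Bool.and_eq_true, decide_eq_true_eq] at h
  obtain ⟨⟨hP, hQ⟩, h1, h2⟩ := h
  have hY : (0 : ℚ) < (P : ℚ) / Q := by positivity
  have hYr : (0 : ℝ) < (((P : ℚ) / Q : ℚ) : ℝ) := by exact_mod_cast hY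
  have l0 := lam_lt (X := X) hok hP hQ hw h2
  have s0 := Sy_sound hY h1 (y := ((((P : ℚ) / Q : ℚ)) : ℝ)) le_rfl le_rfl
  have e1 : (((P : ℚ) / Q : ℚ) : ℝ) = (P : ℝ) / Q := by push_cast; ring
  rw [← e1] at l0
  rw [eV_eq]
  have h3 := mul_le_mul_of_nonneg_left s0 hYr.le
  push_cast at h3 l0 ⊢
  linarith

/-- the rate function at a point -/
noncomputable def VV (D : Dat) (x y : ℝ) : ℝ := eV (atoms D) x y + K0 D - 2 * Real.pi * y

/-- one sided version of `seg` (the curvature bound is not needed at the left end point) -/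
theorem seg' {g g' g'' : ℝ → ℝ} {a b M A : ℝ} (hab : a ≤ b) (hM : 0 ≤ M)
    (h1 : ∀ x ∈ Set.Icc a b, HasDerivAt g (g' x) x)
    (h2 : ∀ x ∈ Set.Icc a b, HasDerivAt g' (g'' x) x)
    (hc : ContinuousOn g'' (Set.Icc a b))
    (h3 : ∀ x, a < x → x ≤ b → -M ≤ g'' x) (ha : g a ≤ A) (hb : g b ≤ A) :
    ∀ x ∈ Set.Icc a b, g x ≤ A + M * (b - a) ^ 2 / 8 := by
  rcases hab.eq_or_lt with h | h
  · subst h
    intro x hx
    rw [Set.Icc_self, Set.mem_singleton_iff] at hx
    rw [hx]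
    nlinarith
  · refine seg hab hM h1 h2 (fun x hx => ?_) ha hb
    rcases hx.1.eq_or_lt with h4 | h4
    · rw [← h4]
      have h5 : Set.Icc a b ⊆ closure (Set.Ioc a b) := by rw [closure_Ioc h.ne]
      have h6 : ContinuousWithinAt g'' (Set.Ioc a b) a :=
        (hc a (Set.left_mem_Icc.mpr hab)).mono Set.Ioc_subset_Icc_self
      have h7 : a ∈ closure (Set.Ioc a b) := h5 (Set.left_mem_Icc.mpr hab)
      have := mem_closure_iff_nhdsWithin_neBot.mp h7
      exact ge_of_tendsto h6 (by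
        filter_upwards [self_mem_nhdsWithin] with z hz
        exact h3 z hz.1 hz.2)
    · exact h3 x h4 hx.2

theorem eQ_continuous_left (l : List (ℤ × ℤ)) {y : ℝ} (hy : 0 < y) :
    Continuous fun x => eQ l x y := by
  unfold eQ
  induction l with
  | nil => simpa using continuous_const
  | cons a l ih =>
    simp only [List.map_cons, List.sum_cons]
    refine Continuous.add (continuous_const.mul (Continuous.div (by fun_prop) (by fun_prop)
      fun x => ?_)) ih
    positivity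

theorem eQ_continuousOn_right (l : List (ℤ × ℤ)) (x : ℝ) {a b : ℝ} (ha : 0 < a) :
    ContinuousOn (fun y => eQ l x y) (Set.Icc a b) := by
  unfold eQ
  induction l with
  | nil => simpa using continuousOn_const
  | cons c l ih =>
    simp only [List.map_cons, List.sum_cons]
    refine ContinuousOn.add (continuousOn_const.mul (ContinuousOn.div (by fun_prop) (by fun_prop)
      fun y hy => ?_)) ih
    have : 0 < y := lt_of_lt_of_le ha hy.1
    positivity

theorem VV_hasDerivAt_left (D : Dat) (x : ℝ) {y : ℝ} (hy : 0 < y) :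
    HasDerivAt (fun x => VV D x y) (eP (atoms D) x y) x := by
  unfold VV
  exact ((hasDerivAt_eV_left (atoms D) x hy).add_const _).sub_const _

theorem VV_hasDerivAt_right (D : Dat) (x : ℝ) {y : ℝ} (hy : 0 < y) :
    HasDerivAt (fun y => VV D x y) (eS (atoms D) x y - 2 * Real.pi) y := by
  unfold VV
  exact (((hasDerivAt_eV (atoms D) x hy).add_const _).sub
    ((hasDerivAt_id y).const_mul (2 * Real.pi))).congr_deriv (by ring)

theorem chH_sound {D : Dat} (hok : okB D = true) {w P0 Q0 : ℕ} (hw : 0 < w) (hP0 : 0 < P0)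
    (hQ0 : 0 < Q0) {C : ℚ} : ∀ (t : List (ℕ × ℕ × ℚ × ℚ × List ℚ)) (x0 : ℕ) (v : ℚ),
    chH D w P0 Q0 C x0 v t = true → C ≤ v →
    VV D x0 (((P0 : ℚ) / Q0 : ℚ) : ℝ) ≤ -(v : ℝ) →
    (∀ x : ℝ, (x0 : ℝ) ≤ x → x ≤ lastH x0 t → VV D x (((P0 : ℚ) / Q0 : ℚ) : ℝ) ≤ -(C : ℝ)) := by
  have hY : (0 : ℚ) < (P0 : ℚ) / Q0 := by positivity
  have hYr : (0 : ℝ) < (((P0 : ℚ) / Q0 : ℚ) : ℝ) := by exact_mod_cast hY
  intro t
  induction t with
  | nil =>
    intro x0 v _ hCv hv x h1 h2
    simp only [lastH] at h2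
    have : x = x0 := le_antisymm h2 h1
    rw [this]
    have : (C : ℝ) ≤ v := by exact_mod_cast hCv
    linarith
  | cons e t ih =>
    obtain ⟨x', k', s', M, subs⟩ := e
    intro x0 v h hCv hv x h1 h2
    simp only [chH, Bool.and_eq_true, decide_eq_true_eq] at h
    obtain ⟨⟨hxx, hM, hev⟩, ⟨hc1, hc2⟩, hq, ht⟩ := h
    have hv' := evalB_sound hok hw hev
    have hMr : (0 : ℝ) ≤ M := by exact_mod_cast hM
    have hxxr : (x0 : ℝ) ≤ x' := by exact_mod_cast hxx
    have hC2 : C ≤ (k' : ℚ) / (2 * w) - (P0 : ℚ) / Q0 * s' := by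
      refine le_trans ?_ hc2
      have : 0 ≤ M * ((x' : ℚ) - x0) ^ 2 / 8 := by positivity
      linarith
    rcases le_or_gt x x' with h3 | h3
    · have hc1r := (Rat.cast_le (K := ℝ)).mpr hc1
      have hc2r := (Rat.cast_le (K := ℝ)).mpr hc2
      set A : ℝ := -(C : ℝ) - M * ((x' : ℝ) - x0) ^ 2 / 8 with hA
      have hs := seg' (g := fun x => VV D x (((P0 : ℚ) / Q0 : ℚ) : ℝ))
        (g' := fun x => eP (atoms D) x (((P0 : ℚ) / Q0 : ℚ) : ℝ))
        (g'' := fun x => eQ (atoms D) x (((P0 : ℚ) / Q0 : ℚ) : ℝ)) (a := x0) (b := x') (M := M)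
        (A := A) hxxr hMr (fun x _ => VV_hasDerivAt_left D x hYr)
        (fun x _ => hasDerivAt_eP_left _ x hYr) (eQ_continuous_left _ hYr).continuousOn
        (fun x hx1 hx2 => chQxM_sound hY subs x0 hq x (by exact_mod_cast hx1)
          (by exact_mod_cast hx2)) ?_ ?_ x ⟨h1, h3⟩
      · refine hs.trans (le_of_eq ?_)
        rw [hA]; ring
      · refine hv.trans ?_
        push_cast at hc1r
        rw [hA]; linarith
      · show VV D x' _ ≤ A
        have hv'' : VV D x' (((P0 : ℚ) / Q0 : ℚ) : ℝ) ≤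
            -(((k' : ℚ) / (2 * w) - (P0 : ℚ) / Q0 * s' : ℚ) : ℝ) := by
          have := hv'
          rw [Int.cast_natCast] at this
          exact this
        refine hv''.trans ?_
        push_cast at hc2r ⊢
        rw [hA]; linarith
    · refine ih x' _ ht hC2 ?_ x h3.le h2
      have := hv'
      rw [Int.cast_natCast] at this
      exact this

theorem eQ_neg (l : List (ℤ × ℤ)) (x y : ℝ) :
    eQ (l.map fun a => (-a.1, a.2)) x y = -eQ l x y := by
  unfold eQ
  induction l with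
  | nil => simp
  | cons a l ih =>
    simp only [List.map_cons, List.sum_cons, ih]
    push_cast
    ring

theorem chV_sound {D : Dat} (hok : okB D = true) {w X : ℕ} (hw : 0 < w) {C : ℚ} :
    ∀ (t : List (ℕ × ℕ × ℕ × ℚ × ℚ × List ℚ)) (y0 v : ℚ), 0 < y0 →
    chV D w X C y0 v t = true → C ≤ v → VV D X y0 ≤ -(v : ℝ) →
    (∀ y : ℝ, (y0 : ℝ) ≤ y → y ≤ (lastV y0 t : ℚ) → VV D X y ≤ -(C : ℝ)) ∧
      0 < lastV y0 t ∧ y0 ≤ lastV y0 t := by
  intro t
  induction t with
  | nil =>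
    intro y0 v hy0 _ hCv hv
    simp only [lastV]
    refine ⟨fun y h1 h2 => ?_, hy0, le_rfl⟩
    have : y = y0 := le_antisymm h2 h1
    rw [this]
    have : (C : ℝ) ≤ v := by exact_mod_cast hCv
    linarith
  | cons e t ih =>
    obtain ⟨P', Q', k', s', M, subs⟩ := e
    intro y0 v hy0 h hCv hv
    simp only [chV, Bool.and_eq_true, decide_eq_true_eq] at h
    obtain ⟨⟨hyy, hM, hev⟩, ⟨hc1, hc2⟩, hq, ht⟩ := h
    have hv' := evalB_sound hok hw hev
    rw [Int.cast_natCast] at hv'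
    have hMr : (0 : ℝ) ≤ M := by exact_mod_cast hM
    have hy0r : (0 : ℝ) < y0 := by exact_mod_cast hy0
    have hyyr : (y0 : ℝ) ≤ (((P' : ℚ) / Q' : ℚ) : ℝ) := by exact_mod_cast hyy
    have hy' : (0 : ℚ) < (P' : ℚ) / Q' := hy0.trans_le hyy
    have hC2 : C ≤ (k' : ℚ) / (2 * w) - (P' : ℚ) / Q' * s' := by
      refine le_trans ?_ hc2
      have : 0 ≤ M * ((P' : ℚ) / Q' - y0) ^ 2 / 8 := by positivity
      linarith
    obtain ⟨i1, i2, i3⟩ := ih _ _ hy' ht hC2 hv'
    refine ⟨fun y h1 h2 => ?_, i2, hyy.trans i3⟩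
    rcases le_or_gt y (((P' : ℚ) / Q' : ℚ) : ℝ) with h3 | h3
    · have hc1r := (Rat.cast_le (K := ℝ)).mpr hc1
      have hc2r := (Rat.cast_le (K := ℝ)).mpr hc2
      set A : ℝ := -(C : ℝ) - M * ((((P' : ℚ) / Q' : ℚ) : ℝ) - y0) ^ 2 / 8 with hA
      have hs := seg' (g := fun y => VV D X y)
        (g' := fun y => eS (atoms D) X y - 2 * Real.pi)
        (g'' := fun y => -eQ (atoms D) X y) (a := y0) (b := (((P' : ℚ) / Q' : ℚ) : ℝ)) (M := M)
        (A := A) hyyr hMr (fun y hy => VV_hasDerivAt_right D X (hy0r.trans_le hy.1))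
        (fun y hy => (hasDerivAt_eS _ _ (hy0r.trans_le hy.1)).sub_const _)
        (eQ_continuousOn_right _ _ hy0r).neg
        (fun y hy1 hy2 => by
          have := chQyM_sound subs y0 hy0.le hq y (hy0r.trans hy1) hy1 hy2
          rw [eQ_neg, Int.cast_natCast] at this
          exact this) ?_ ?_ y ⟨h1, h3⟩
      · refine hs.trans (le_of_eq ?_)
        rw [hA]; ring
      · refine hv.trans ?_
        push_cast at hc1r
        rw [hA]; push_cast; linarith
      · refine hv'.trans ?_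
        push_cast at hc2r ⊢
        rw [hA]; push_cast; linarith
    · exact i1 y h3.le h2

/-- tangent bound on a vertical segment -/
theorem tangent_le {l : List (ℤ × ℤ)} {x y1 y2 Yt : ℝ} (hYt : 0 < Yt)
    (h12 : y1 ≤ Yt) (h23 : Yt ≤ y2) (hq : ∀ y, 0 < y → y1 ≤ y → y ≤ y2 → 0 ≤ eQ l x y) {y : ℝ}
    (hy0 : 0 < y) (hy : y1 ≤ y) (hy2 : y ≤ y2) :
    eV l x y - 2 * Real.pi * y ≤ eL l x Yt + (eS l x Yt - 2 * Real.pi) * y := by
  have hd : ∀ u : ℝ, 0 < u → HasDerivAt (fun u => eV l x u - 2 * Real.pi * u)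
      (eS l x u - 2 * Real.pi) u := by
    intro u hu
    exact ((hasDerivAt_eV l x hu).sub ((hasDerivAt_id u).const_mul (2 * Real.pi))).congr_deriv
      (by ring)
  have mvt : ∀ a b : ℝ, 0 < a → a < b → ∃ ξ, a < ξ ∧ ξ < b ∧
      (eV l x b - 2 * Real.pi * b) - (eV l x a - 2 * Real.pi * a) =
        (eS l x ξ - 2 * Real.pi) * (b - a) := by
    intro a b ha hab
    obtain ⟨ξ, e1, e2⟩ := exists_hasDerivAt_eq_slope (fun u => eV l x u - 2 * Real.pi * u)
      (fun u => eS l x u - 2 * Real.pi) hab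
      (fun u hu => (hd u (lt_of_lt_of_le ha hu.1)).continuousAt.continuousWithinAt)
      (fun u hu => hd u (ha.trans hu.1))
    refine ⟨ξ, e1.1, e1.2, ?_⟩
    rw [e2]
    field_simp [(sub_pos.mpr hab).ne']
  have mvt2 : ∀ a b : ℝ, 0 < a → a ≤ b → y1 ≤ a → b ≤ y2 → eS l x b ≤ eS l x a := by
    intro a b ha hab ha1 hb2
    rcases hab.eq_or_lt with h | h
    · rw [h]
    · obtain ⟨ξ, e1, e2⟩ := exists_hasDerivAt_eq_slope (eS l x) (fun u => -eQ l x u) h
        (fun u hu => (hasDerivAt_eS l x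
          (lt_of_lt_of_le ha hu.1)).continuousAt.continuousWithinAt)
        (fun u hu => hasDerivAt_eS l x (ha.trans hu.1))
      have e3 := hq ξ (ha.trans e1.1) (ha1.trans e1.1.le) (e1.2.le.trans hb2)
      rw [eq_div_iff (sub_pos.mpr h).ne'] at e2
      nlinarith [sub_pos.mpr h]
  have hYv : eV l x Yt = eL l x Yt + Yt * eS l x Yt := eV_eq l x Yt
  rcases lt_trichotomy y Yt with h | h | h
  · obtain ⟨ξ, e1, e2, e3⟩ := mvt y Yt hy0 h
    have e4 := mvt2 ξ Yt (hy0.trans e1) e2.le (hy.trans e1.le) h23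
    nlinarith [mul_le_mul_of_nonneg_right e4 (sub_pos.mpr h).le]
  · rw [h, hYv]
    linarith
  · obtain ⟨ξ, e1, e2, e3⟩ := mvt Yt y hYt h
    have e4 := mvt2 Yt ξ hYt e1.le h12 (e2.le.trans hy2)
    nlinarith [mul_le_mul_of_nonneg_right e4 (sub_pos.mpr h).le]

end ZG

end
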