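import Pool.Agent.Work.MP_4f096c_nt.BoundD
import Pool.Agent.Work.MP_4f096c_nt.Defs

/-!
Sums over atoms: derivatives, rational and integer bounds.
-/

section

/-!
Taylor bounds for `arctan` and sums of logarithms.
-/

namespace ZetaSets

open Real Finset Set

theorem arctan_lower {x : ℝ} (hx : 0 ≤ x) :
    x - x ^ 3 / 3 + x ^ 5 / 5 - x ^ 7 / 7 + x ^ 9 / 9 - x ^ 11 / 11 ≤ Real.arctan x := by
  set f : ℝ → ℝ := fun x => Real.arctan x -
    (x - x ^ 3 / 3 + x ^ 5 / 5 - x ^ 7 / 7 + x ^ 9 / 9 - x ^ 11 / 11) with hf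
  have hd : ∀ x : ℝ, HasDerivAt f (x ^ 12 / (1 + x ^ 2)) x := by
    intro x
    have h1 : HasDerivAt (fun x : ℝ =>
        x - x ^ 3 / 3 + x ^ 5 / 5 - x ^ 7 / 7 + x ^ 9 / 9 - x ^ 11 / 11)
        (1 - x ^ 2 + x ^ 4 - x ^ 6 + x ^ 8 - x ^ 10) x := by
      have e1 := hasDerivAt_id x
      have e3 := (hasDerivAt_pow 3 x).div_const 3
      have e5 := (hasDerivAt_pow 5 x).div_const 5
      have e7 := (hasDerivAt_pow 7 x).div_const 7
      have e9 := (hasDerivAt_pow 9 x).div_const 9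
      have e11 := (hasDerivAt_pow 11 x).div_const 11
      refine (((((e1.sub e3).add e5).sub e7).add e9).sub e11).congr_deriv ?_
      norm_num
    refine ((Real.hasDerivAt_arctan x).sub h1).congr_deriv ?_
    have : 1 + x ^ 2 ≠ 0 := by positivity
    field_simp
    ring
  have hmono : MonotoneOn f (Ici 0) := by
    refine monotoneOn_of_deriv_nonneg (convex_Ici 0)
      (fun x _ => (hd x).continuousAt.continuousWithinAt)
      (fun x _ => (hd x).differentiableAt.differentiableWithinAt) fun x _ => ?_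
    rw [(hd x).deriv]
    positivity
  have h := hmono (mem_Ici.mpr le_rfl) (mem_Ici.mpr hx) hx
  simp only [hf, Real.arctan_zero] at h
  norm_num at h
  linarith

theorem arctan_upper {x : ℝ} (hx : 0 ≤ x) :
    Real.arctan x ≤ x - x ^ 3 / 3 + x ^ 5 / 5 - x ^ 7 / 7 + x ^ 9 / 9 := by
  set f : ℝ → ℝ := fun x =>
    (x - x ^ 3 / 3 + x ^ 5 / 5 - x ^ 7 / 7 + x ^ 9 / 9) - Real.arctan x with hf
  have hd : ∀ x : ℝ, HasDerivAt f (x ^ 10 / (1 + x ^ 2)) x := by
    intro x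
    have h1 : HasDerivAt (fun x : ℝ =>
        x - x ^ 3 / 3 + x ^ 5 / 5 - x ^ 7 / 7 + x ^ 9 / 9)
        (1 - x ^ 2 + x ^ 4 - x ^ 6 + x ^ 8) x := by
      have e1 := hasDerivAt_id x
      have e3 := (hasDerivAt_pow 3 x).div_const 3
      have e5 := (hasDerivAt_pow 5 x).div_const 5
      have e7 := (hasDerivAt_pow 7 x).div_const 7
      have e9 := (hasDerivAt_pow 9 x).div_const 9
      refine ((((e1.sub e3).add e5).sub e7).add e9).congr_deriv ?_
      norm_num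
    refine (h1.sub (Real.hasDerivAt_arctan x)).congr_deriv ?_
    have : 1 + x ^ 2 ≠ 0 := by positivity
    field_simp
    ring
  have hmono : MonotoneOn f (Ici 0) := by
    refine monotoneOn_of_deriv_nonneg (convex_Ici 0)
      (fun x _ => (hd x).continuousAt.continuousWithinAt)
      (fun x _ => (hd x).differentiableAt.differentiableWithinAt) fun x _ => ?_
    rw [(hd x).deriv]
    positivity
  have h := hmono (mem_Ici.mpr le_rfl) (mem_Ici.mpr hx) hx
  simp only [hf, Real.arctan_zero] at h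
  norm_num at h
  linarith

theorem aL_le {x : ℚ} (hx : 0 ≤ x) : ((aL x : ℚ) : ℝ) ≤ Real.arctan (x : ℝ) := by
  have h := arctan_lower (x := (x : ℝ)) (by exact_mod_cast hx)
  unfold aL
  push_cast
  exact h

theorem le_aU {x : ℚ} (hx : 0 ≤ x) : Real.arctan (x : ℝ) ≤ ((aU x : ℚ) : ℝ) := by
  have h := arctan_upper (x := (x : ℝ)) (by exact_mod_cast hx)
  unfold aU
  push_cast
  exact h

/-- sum of `exponent * log base` -/
noncomputable def LS (l : List (ℕ × ℕ)) : ℝ := (l.map fun p => (p.2 : ℝ) * Real.log p.1).sum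

theorem LS_append (l m : List (ℕ × ℕ)) : LS (l ++ m) = LS l + LS m := by
  simp [LS]

theorem PP_pos {l : List (ℕ × ℕ)} (h : ∀ p ∈ l, 0 < p.1) : 0 < PP l := by
  induction l with
  | nil => simp [PP]
  | cons a l ih =>
    have h1 := h a (by simp)
    have h2 := ih fun p hp => h p (by simp [hp])
    unfold PP at *
    simp only [List.map_cons, List.prod_cons]
    positivity

theorem LS_eq {l : List (ℕ × ℕ)} (h : ∀ p ∈ l, 0 < p.1) : LS l = Real.log (PP l) := by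
  induction l with
  | nil => simp [PP, LS]
  | cons a l ih =>
    have h1 : (0 : ℝ) < a.1 := by exact_mod_cast h a (by simp)
    have h3 : ∀ p ∈ l, 0 < p.1 := fun p hp => h p (by simp [hp])
    have h2 := ih h3
    have h4 : (0 : ℝ) < PP l := by exact_mod_cast PP_pos h3
    have h5 : PP (a :: l) = a.1 ^ a.2 * PP l := by simp [PP]
    have h6 : LS (a :: l) = a.2 * Real.log a.1 + LS l := by simp [LS]
    rw [h5, h6, h2]
    push_cast
    rw [Real.log_mul (by positivity) h4.ne', Real.log_pow]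

end ZetaSets

end

section

/-!
Sums of terms `w * gg (c + x) y` over lists of integer atoms `(w, c)`: derivatives, and the bound
on a bent path from a certificate (TASK G-BOUND of MP_4f096c_nt).
-/

namespace ZG

open ZetaSets (gg hasDerivAt_arctan_div hasDerivAt_gg)

/-- sum over atoms of `w * gg (c + x) y` -/
noncomputable def eV (l : List (ℤ × ℤ)) (x y : ℝ) : ℝ :=
  (l.map fun a => (a.1 : ℝ) * gg (a.2 + x) y).sum

/-- sum over atoms of `w * arctan ((c + x) / y)` -/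
noncomputable def eS (l : List (ℤ × ℤ)) (x y : ℝ) : ℝ :=
  (l.map fun a => (a.1 : ℝ) * Real.arctan ((a.2 + x) / y)).sum

/-- sum over atoms of `w * (c + x) / ((c + x)^2 + y^2)` -/
noncomputable def eQ (l : List (ℤ × ℤ)) (x y : ℝ) : ℝ :=
  (l.map fun a => (a.1 : ℝ) * ((a.2 + x) / ((a.2 + x) ^ 2 + y ^ 2))).sum

/-- the derivative of `eV` in `x` -/
noncomputable def eP (l : List (ℤ × ℤ)) (x y : ℝ) : ℝ :=
  (l.map fun a => (a.1 : ℝ) * (Real.log ((a.2 + x) ^ 2 + y ^ 2) / 2 + 1)).sum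

/-- the logarithmic part of `eV` -/
noncomputable def eL (l : List (ℤ × ℤ)) (x y : ℝ) : ℝ :=
  (l.map fun a => (a.1 : ℝ) * ((a.2 + x) / 2 * Real.log ((a.2 + x) ^ 2 + y ^ 2))).sum

theorem eV_eq (l : List (ℤ × ℤ)) (x y : ℝ) : eV l x y = eL l x y + y * eS l x y := by
  unfold eV eL eS
  induction l with
  | nil => simp
  | cons a l ih =>
    simp only [List.map_cons, List.sum_cons, ih]
    unfold gg
    ring

theorem hasDerivAt_list (l : List (ℤ × ℤ)) {f : ℤ × ℤ → ℝ → ℝ} {f' : ℤ × ℤ → ℝ} {t : ℝ}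
    (h : ∀ a, HasDerivAt (f a) (f' a) t) :
    HasDerivAt (fun t => (l.map fun a => (a.1 : ℝ) * f a t).sum)
      ((l.map fun a => (a.1 : ℝ) * f' a).sum) t := by
  induction l with
  | nil => simpa using hasDerivAt_const t (0 : ℝ)
  | cons a l ih =>
    simp only [List.map_cons, List.sum_cons]
    exact ((h a).const_mul _).add ih

theorem hasDerivAt_eV (l : List (ℤ × ℤ)) (x : ℝ) {y : ℝ} (hy : 0 < y) :
    HasDerivAt (eV l x) (eS l x y) y := by
  unfold eV eS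
  exact hasDerivAt_list l (f := fun a y => gg (a.2 + x) y)
    (f' := fun a => Real.arctan ((a.2 + x) / y)) fun a => hasDerivAt_gg _ hy

theorem hasDerivAt_eS (l : List (ℤ × ℤ)) (x : ℝ) {y : ℝ} (hy : 0 < y) :
    HasDerivAt (eS l x) (-eQ l x y) y := by
  have h := hasDerivAt_list l (f := fun a y => Real.arctan ((a.2 + x) / y))
    (f' := fun a => -(a.2 + x) / ((a.2 + x) ^ 2 + y ^ 2)) fun a => hasDerivAt_arctan_div _ hy
  refine h.congr_deriv ?_
  unfold eQ
  induction l with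
  | nil => simp
  | cons a l ih =>
    have ih' := ih (hasDerivAt_list l (f := fun a y => Real.arctan ((a.2 + x) / y))
      (f' := fun a => -(a.2 + x) / ((a.2 + x) ^ 2 + y ^ 2)) fun a => hasDerivAt_arctan_div _ hy)
    simp only [List.map_cons, List.sum_cons, ih']
    ring

theorem hasDerivAt_gg_left (c x : ℝ) {y : ℝ} (hy : 0 < y) :
    HasDerivAt (fun x => gg (c + x) y) (Real.log ((c + x) ^ 2 + y ^ 2) / 2 + 1) x := by
  have hpos : 0 < (c + x) ^ 2 + y ^ 2 := by positivity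
  have h0 : HasDerivAt (fun x : ℝ => c + x) 1 x := (hasDerivAt_id x).const_add c
  have h1 : HasDerivAt (fun x : ℝ => (c + x) / 2) (1 / 2) x := h0.div_const 2
  have h2 : HasDerivAt (fun x : ℝ => Real.log ((c + x) ^ 2 + y ^ 2))
      (2 * (c + x) / ((c + x) ^ 2 + y ^ 2)) x := by
    have := ((h0.pow 2).add_const (y ^ 2)).log hpos.ne'
    refine this.congr_deriv ?_
    norm_num
  have h3 : HasDerivAt (fun x : ℝ => Real.arctan ((c + x) / y))
      (1 / (1 + ((c + x) / y) ^ 2) * (1 / y)) x := (h0.div_const y).arctan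
  have h4 := (h1.mul h2).add (h3.const_mul y)
  refine h4.congr_deriv ?_
  have hy' := hy.ne'
  have h5 : 1 / (1 + ((c + x) / y) ^ 2) = y ^ 2 / ((c + x) ^ 2 + y ^ 2) := by
    field_simp
    ring
  rw [h5]
  field_simp
  ring

theorem hasDerivAt_eV_left (l : List (ℤ × ℤ)) (x : ℝ) {y : ℝ} (hy : 0 < y) :
    HasDerivAt (fun x => eV l x y) (eP l x y) x := by
  unfold eV eP
  exact hasDerivAt_list l (f := fun a x => gg (a.2 + x) y)
    (f' := fun a => Real.log ((a.2 + x) ^ 2 + y ^ 2) / 2 + 1) fun a =>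
      hasDerivAt_gg_left _ _ hy

theorem hasDerivAt_eP_left (l : List (ℤ × ℤ)) (x : ℝ) {y : ℝ} (hy : 0 < y) :
    HasDerivAt (fun x => eP l x y) (eQ l x y) x := by
  unfold eP eQ
  refine hasDerivAt_list l (f := fun a x => Real.log ((a.2 + x) ^ 2 + y ^ 2) / 2 + 1)
    (f' := fun a => (a.2 + x) / ((a.2 + x) ^ 2 + y ^ 2)) fun a => ?_
  have hpos : 0 < ((a.2 : ℝ) + x) ^ 2 + y ^ 2 := by positivity
  have h0 : HasDerivAt (fun x : ℝ => (a.2 : ℝ) + x) 1 x := (hasDerivAt_id x).const_add _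
  have h2 := ((((h0.pow 2).add_const (y ^ 2)).log hpos.ne').div_const 2).add_const 1
  refine h2.congr_deriv ?_
  norm_num
  field_simp

/-- The rate function of a list of atoms is bounded on the bent path. -/
theorem bent_sup {l : List (ℤ × ℤ)} {X Y0 Ya Y1 δ s0 K0 L : ℝ} (hX : 0 ≤ X) (hY0 : 0 < Y0)
    (ha : Y0 ≤ Ya) (h1 : Ya ≤ Y1) (hδ : 0 ≤ δ) (hs0 : 0 ≤ s0)
    (q0 : ∀ y, 0 < y → y ≤ Y0 → 0 ≤ eQ l 0 y)
    (qx : ∀ x, 0 ≤ x → x ≤ X → 0 ≤ eQ l x Y0)
    (qy : ∀ y, Y0 ≤ y → y ≤ Y1 → 0 ≤ eQ l X y)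
    (t0 : eS l 0 Y0 - 2 * Real.pi ≤ s0)
    (ta : eS l X Ya - 2 * Real.pi ≤ -δ)
    (t1 : ∀ y, Y1 ≤ y → eS l X y - 2 * Real.pi ≤ -δ)
    (k0 : eL l 0 Y0 + K0 + Y0 * s0 ≤ L) (ka : eL l X Ya + K0 ≤ L) :
    (∀ y, 0 < y → y ≤ Y0 → eV l 0 y + K0 - 2 * Real.pi * y ≤ L) ∧
    (∀ x, 0 ≤ x → x ≤ X → eV l x Y0 + K0 - 2 * Real.pi * Y0 ≤ L) ∧
    (∀ y, Y0 ≤ y → eV l X y + K0 - 2 * Real.pi * y ≤ L - δ * y) := by
  -- the tangent bound on a vertical segment
  have tangent : ∀ x y1 y2 Yt : ℝ, 0 ≤ y1 → 0 < Yt → y1 ≤ Yt → Yt ≤ y2 →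
      (∀ y, 0 < y → y1 ≤ y → y ≤ y2 → 0 ≤ eQ l x y) → ∀ y, 0 < y → y1 ≤ y → y ≤ y2 →
      eV l x y - 2 * Real.pi * y ≤ eL l x Yt + (eS l x Yt - 2 * Real.pi) * y := by
    intro x y1 y2 Yt hy1 hYt h12 h23 hq y hy0 hy hy2
    have hd : ∀ u : ℝ, 0 < u → HasDerivAt (fun u => eV l x u - 2 * Real.pi * u)
        (eS l x u - 2 * Real.pi) u := by
      intro u hu
      exact ((hasDerivAt_eV l x hu).sub ((hasDerivAt_id u).const_mul (2 * Real.pi))).congr_deriv
        (by ring)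
    have mvt : ∀ a b : ℝ, 0 < a → a < b → ∃ ξ, a < ξ ∧ ξ < b ∧
        (eV l x b - 2 * Real.pi * b) - (eV l x a - 2 * Real.pi * a) =
          (eS l x ξ - 2 * Real.pi) * (b - a) := by
      intro a b ha hab
      obtain ⟨ξ, e1, e2⟩ := exists_hasDerivAt_eq_slope (fun u => eV l x u - 2 * Real.pi * u)
        (fun u => eS l x u - 2 * Real.pi) hab
        (fun u hu => (hd u (lt_of_lt_of_le ha hu.1)).continuousAt.continuousWithinAt)
        (fun u hu => hd u (ha.trans hu.1))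
      refine ⟨ξ, e1.1, e1.2, ?_⟩
      rw [e2]
      field_simp [(sub_pos.mpr hab).ne']
    have mvt2 : ∀ a b : ℝ, 0 < a → a ≤ b → y1 ≤ a → b ≤ y2 → eS l x b ≤ eS l x a := by
      intro a b ha hab ha1 hb2
      rcases hab.eq_or_lt with h | h
      · rw [h]
      · obtain ⟨ξ, e1, e2⟩ := exists_hasDerivAt_eq_slope (eS l x) (fun u => -eQ l x u) h
          (fun u hu => (hasDerivAt_eS l x
            (lt_of_lt_of_le ha hu.1)).continuousAt.continuousWithinAt)
          (fun u hu => hasDerivAt_eS l x (ha.trans hu.1))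
        have e3 := hq ξ (ha.trans e1.1) (ha1.trans e1.1.le) (e1.2.le.trans hb2)
        rw [eq_div_iff (sub_pos.mpr h).ne'] at e2
        nlinarith [sub_pos.mpr h]
    have hYv : eV l x Yt = eL l x Yt + Yt * eS l x Yt := eV_eq l x Yt
    rcases lt_trichotomy y Yt with h | h | h
    · obtain ⟨ξ, e1, e2, e3⟩ := mvt y Yt hy0 h
      have e4 := mvt2 ξ Yt (hy0.trans e1) e2.le (hy.trans e1.le) h23
      nlinarith [mul_le_mul_of_nonneg_right e4 (sub_pos.mpr h).le]
    · rw [h, hYv]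
      linarith
    · obtain ⟨ξ, e1, e2, e3⟩ := mvt Yt y hYt h
      have e4 := mvt2 Yt ξ hYt e1.le h12 (e2.le.trans hy2)
      nlinarith [mul_le_mul_of_nonneg_right e4 (sub_pos.mpr h).le]
  have hYa0 : 0 < Ya := hY0.trans_le ha
  have hY10 : 0 < Y1 := hYa0.trans_le h1
  have c1 : ∀ y, 0 < y → y ≤ Y0 → eV l 0 y + K0 - 2 * Real.pi * y ≤ L := by
    intro y hy hy2
    have h := tangent 0 0 Y0 Y0 le_rfl hY0 hY0.le le_rfl (fun y h _ h2 => q0 y h h2) y hy hy.le hy2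
    have h2 : (eS l 0 Y0 - 2 * Real.pi) * y ≤ s0 * Y0 := by
      calc (eS l 0 Y0 - 2 * Real.pi) * y ≤ s0 * y := mul_le_mul_of_nonneg_right t0 hy.le
        _ ≤ s0 * Y0 := mul_le_mul_of_nonneg_left hy2 hs0
    linarith
  have c3' : ∀ y, Y0 ≤ y → y ≤ Y1 → eV l X y + K0 - 2 * Real.pi * y ≤ L - δ * y := by
    intro y hy hy2
    have hy0 := hY0.trans_le hy
    have h := tangent X Y0 Y1 Ya hY0.le hYa0 ha h1 (fun y _ h h2 => qy y h h2) y hy0 hy hy2
    have h2 : (eS l X Ya - 2 * Real.pi) * y ≤ -δ * y := mul_le_mul_of_nonneg_right ta hy0.le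
    linarith
  have c3 : ∀ y, Y0 ≤ y → eV l X y + K0 - 2 * Real.pi * y ≤ L - δ * y := by
    intro y hy
    rcases le_or_gt y Y1 with h | h
    · exact c3' y hy h
    · have hd : ∀ u : ℝ, 0 < u → HasDerivAt (fun u => eV l X u - 2 * Real.pi * u)
          (eS l X u - 2 * Real.pi) u := by
        intro u hu
        exact ((hasDerivAt_eV l X hu).sub ((hasDerivAt_id u).const_mul (2 * Real.pi))).congr_deriv
          (by ring)
      obtain ⟨ξ, e1, e2⟩ := exists_hasDerivAt_eq_slope (fun u => eV l X u - 2 * Real.pi * u)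
        (fun u => eS l X u - 2 * Real.pi) h
        (fun u hu => (hd u (lt_of_lt_of_le hY10 hu.1)).continuousAt.continuousWithinAt)
        (fun u hu => hd u (hY10.trans hu.1))
      rw [eq_div_iff (sub_pos.mpr h).ne'] at e2
      have e3 := t1 ξ e1.1.le
      have e4 := c3' Y1 (ha.trans h1) le_rfl
      have e5 := mul_le_mul_of_nonneg_right e3 (sub_pos.mpr h).le
      linarith
  refine ⟨c1, fun x hx hxX => ?_, c3⟩
  have hconv : ConvexOn ℝ (Set.Icc 0 X) (fun x => eV l x Y0) := by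
    refine convexOn_of_hasDerivWithinAt2_nonneg (convex_Icc 0 X)
      (f' := fun x => eP l x Y0) (f'' := fun x => eQ l x Y0)
      (fun x _ => (hasDerivAt_eV_left l x hY0).continuousAt.continuousWithinAt)
      (fun x _ => (hasDerivAt_eV_left l x hY0).hasDerivWithinAt)
      (fun x _ => (hasDerivAt_eP_left l x hY0).hasDerivWithinAt) fun x hx => ?_
    rw [interior_Icc] at hx
    exact qx x hx.1.le hx.2.le
  have hmax := hconv.le_max_of_mem_Icc (Set.left_mem_Icc.mpr hX) (Set.right_mem_Icc.mpr hX)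
    (Set.mem_Icc.mpr ⟨hx, hxX⟩)
  have e1 := c1 Y0 hY0 le_rfl
  have e2 := c3 Y0 le_rfl
  have e3 : 0 ≤ δ * Y0 := by positivity
  rcases le_max_iff.mp hmax with h | h <;> linarith

end ZG

end

section

/-!
Rational bounds for the sums over atoms (TASK G-BOUND of MP_4f096c_nt).
-/

namespace ZG

open ZetaSets (gg aL aU aL_le le_aU)

/-! ### Rational bounds for `arctan` -/

theorem piLo_lt : ((piLo : ℚ) : ℝ) < Real.pi := by
  unfold piLo
  have := Real.pi_gt_d6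
  push_cast
  linarith

theorem lt_piHi : Real.pi < ((piHi : ℚ) : ℝ) := by
  unfold piHi
  have := Real.pi_lt_d6
  push_cast
  linarith

theorem arctan_quarter {x : ℝ} (hx : 0 ≤ x) :
    Real.arctan x = Real.pi / 4 + Real.arctan ((x - 1) / (1 + x)) := by
  have h1 : (1 : ℝ) * ((x - 1) / (1 + x)) < 1 := by
    rw [one_mul, div_lt_one (by linarith)]
    linarith
  rw [← Real.arctan_one, Real.arctan_add h1]
  congr 1
  have h2 : (1 : ℝ) + x ≠ 0 := by positivity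
  field_simp
  ring

theorem arctan_quarter' {x : ℝ} (hx : 0 ≤ x) :
    Real.arctan x = Real.pi / 4 - Real.arctan ((1 - x) / (1 + x)) := by
  have h : (x - 1) / (1 + x) = -((1 - x) / (1 + x)) := by ring
  rw [arctan_quarter hx, h, Real.arctan_neg]
  ring

theorem arctan_inv' {x : ℝ} (hx : 0 < x) : Real.arctan x = Real.pi / 2 - Real.arctan (1 / x) := by
  rw [one_div, Real.arctan_inv_of_pos hx]
  ring

theorem aLo_le {x : ℚ} (hx : 0 ≤ x) : ((aLo x : ℚ) : ℝ) ≤ Real.arctan x := by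
  have hxr : (0 : ℝ) ≤ x := by exact_mod_cast hx
  have hpi := piLo_lt
  unfold aLo
  split_ifs with h1 h2 h3
  · exact aL_le hx
  · have h : 0 ≤ (1 - x) / (1 + x) := div_nonneg (by linarith) (by linarith)
    have := le_aU h
    rw [arctan_quarter' hxr]
    push_cast at this ⊢
    linarith
  · push Not at h2
    have h : 0 ≤ (x - 1) / (1 + x) := div_nonneg (by linarith) (by linarith)
    have := aL_le h
    rw [arctan_quarter hxr]
    push_cast at this ⊢
    linarith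
  · push Not at h3
    have hx0 : 0 < x := by linarith
    have h : 0 ≤ 1 / x := by positivity
    have := le_aU h
    rw [arctan_inv' (by exact_mod_cast hx0)]
    push_cast at this ⊢
    linarith

theorem le_aHi {x : ℚ} (hx : 0 ≤ x) : Real.arctan x ≤ ((aHi x : ℚ) : ℝ) := by
  have hxr : (0 : ℝ) ≤ x := by exact_mod_cast hx
  have hpi := lt_piHi
  unfold aHi
  split_ifs with h1 h2 h3
  · exact le_aU hx
  · have h : 0 ≤ (1 - x) / (1 + x) := div_nonneg (by linarith) (by linarith)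
    have := aL_le h
    rw [arctan_quarter' hxr]
    push_cast at this ⊢
    linarith
  · push Not at h2
    have h : 0 ≤ (x - 1) / (1 + x) := div_nonneg (by linarith) (by linarith)
    have := le_aU h
    rw [arctan_quarter hxr]
    push_cast at this ⊢
    linarith
  · push Not at h3
    have hx0 : 0 < x := by linarith
    have h : 0 ≤ 1 / x := by positivity
    have := aL_le h
    rw [arctan_inv' (by exact_mod_cast hx0)]
    push_cast at this ⊢
    linarith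

/-! ### Sums of rounded terms -/

theorem sum_floor_le (l : List (ℤ × ℤ)) {f : ℤ × ℤ → ℚ} {g : ℤ × ℤ → ℝ}
    (h : ∀ a ∈ l, ((f a : ℚ) : ℝ) ≤ g a) :
    (((l.map fun a => ⌊f a * 1000000000⌋).sum : ℤ) : ℝ) ≤ 1000000000 * (l.map g).sum := by
  induction l with
  | nil => simp
  | cons a l ih =>
    simp only [List.map_cons, List.sum_cons, Int.cast_add]
    have h1 := h a (by simp)
    have h2 := ih fun b hb => h b (by simp [hb])
    have h3 : ((⌊f a * 1000000000⌋ : ℤ) : ℝ) ≤ ((f a : ℚ) : ℝ) * 1000000000 := by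
      have := Int.floor_le (f a * 1000000000)
      have h4 := (Rat.cast_le (K := ℝ)).mpr this
      push_cast at h4
      exact h4
    linarith

theorem le_sum_ceil (l : List (ℤ × ℤ)) {f : ℤ × ℤ → ℚ} {g : ℤ × ℤ → ℝ}
    (h : ∀ a ∈ l, g a ≤ ((f a : ℚ) : ℝ)) :
    1000000000 * (l.map g).sum ≤ (((l.map fun a => ⌈f a * 1000000000⌉).sum : ℤ) : ℝ) := by
  induction l with
  | nil => simp
  | cons a l ih =>
    simp only [List.map_cons, List.sum_cons, Int.cast_add]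
    have h1 := h a (by simp)
    have h2 := ih fun b hb => h b (by simp [hb])
    have h3 : ((f a : ℚ) : ℝ) * 1000000000 ≤ ((⌈f a * 1000000000⌉ : ℤ) : ℝ) := by
      have := Int.le_ceil (f a * 1000000000)
      have h4 := (Rat.cast_le (K := ℝ)).mpr this
      push_cast at h4
      exact h4
    linarith

/-! ### Lower bounds for `eQ` -/

theorem qy_le {X : ℤ} {y1 y2 : ℚ} (hy1 : 0 ≤ y1) {a : ℤ × ℤ} {y : ℝ} (hy : 0 < y)
    (h1 : (y1 : ℝ) ≤ y) (h2 : y ≤ y2) :
    ((qy X y1 y2 a : ℚ) : ℝ) ≤ (a.1 : ℝ) * ((a.2 + (X : ℝ)) / ((a.2 + X) ^ 2 + y ^ 2)) := by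
  unfold qy
  have hy1r : (0 : ℝ) ≤ y1 := by exact_mod_cast hy1
  push_cast
  set u : ℝ := (a.2 : ℝ) + X with hu
  by_cases h : 0 ≤ a.1 * (a.2 + X)
  · rw [if_pos h]
    have h' : (0 : ℝ) ≤ a.1 * u := by rw [hu]; exact_mod_cast h
    rw [← mul_div_assoc, ← mul_div_assoc]
    apply div_le_div_of_nonneg_left h' (by positivity)
    gcongr
  · rw [if_neg h]
    have h' : (a.1 : ℝ) * u < 0 := by rw [hu]; exact_mod_cast (not_le.mp h)
    have hu0 : u ≠ 0 := by
      intro h0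
      rw [h0, mul_zero] at h'
      exact lt_irrefl _ h'
    rw [← mul_div_assoc, ← mul_div_assoc, ← neg_le_neg_iff, ← neg_div, ← neg_div]
    apply div_le_div_of_nonneg_left (by linarith) (by positivity)
    gcongr

theorem Qy_sound {l : List (ℤ × ℤ)} {X : ℤ} {y1 y2 : ℚ} (hy1 : 0 ≤ y1)
    (h : 0 ≤ Qy l X y1 y2) {y : ℝ} (hy : 0 < y) (h1 : (y1 : ℝ) ≤ y) (h2 : y ≤ y2) :
    0 ≤ eQ l X y := by
  unfold eQ
  have h3 := sum_floor_le l (f := qy X y1 y2)
    (g := fun a => (a.1 : ℝ) * ((a.2 + (X : ℝ)) / ((a.2 + X) ^ 2 + y ^ 2)))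
    fun a _ => qy_le hy1 hy h1 h2
  have h4 : (0 : ℝ) ≤ ((Qy l X y1 y2 : ℤ) : ℝ) := by exact_mod_cast h
  unfold Qy at h4
  linarith

theorem flo_le {y u1 u2 : ℚ} (hy : 0 < y) {u : ℝ} (h1 : (u1 : ℝ) ≤ u) (h2 : u ≤ u2) :
    ((flo y u1 u2 : ℚ) : ℝ) ≤ u / (u ^ 2 + (y : ℝ) ^ 2) := by
  have hyr : (0 : ℝ) < y := by exact_mod_cast hy
  have hpos : 0 < u ^ 2 + (y : ℝ) ^ 2 := by positivity
  unfold flo
  split_ifs with h
  · push_cast
    rw [← neg_div, div_le_div_iff₀ (by positivity) hpos]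
    nlinarith [sq_nonneg (u + y)]
  · push_cast
    have key : ∀ v : ℝ, 0 ≤ (u - v) * ((y : ℝ) ^ 2 - u * v) →
        v / (v ^ 2 + (y : ℝ) ^ 2) ≤ u / (u ^ 2 + (y : ℝ) ^ 2) := by
      intro v hv
      rw [div_le_div_iff₀ (by positivity) hpos]
      nlinarith
    by_cases c1 : u * u1 ≤ (y : ℝ) ^ 2
    · exact (min_le_left _ _).trans (key _ (mul_nonneg (by linarith) (by linarith)))
    · by_cases c2 : (y : ℝ) ^ 2 ≤ u * u2
      · refine (min_le_right _ _).trans (key _ ?_)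
        nlinarith [mul_nonneg (sub_nonneg.mpr h2) (sub_nonneg.mpr c2)]
      · exfalso
        push Not at c1 c2
        have hu : u < 0 := by
          by_contra hu
          push Not at hu
          nlinarith [mul_le_mul_of_nonneg_left (h1.trans h2) hu]
        have hu1 : (u1 : ℝ) < -y := by
          by_contra hc
          push Not at hc
          nlinarith
        have hu2 : -(y : ℝ) < u2 := by
          by_contra hc
          push Not at hc
          nlinarith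
        apply h
        constructor
        · exact_mod_cast hu1
        · exact_mod_cast hu2

theorem qx_le {y x1 x2 : ℚ} (hy : 0 < y) {a : ℤ × ℤ} {x : ℝ} (h1 : (x1 : ℝ) ≤ x) (h2 : x ≤ x2) :
    ((qx y x1 x2 a : ℚ) : ℝ) ≤ (a.1 : ℝ) * ((a.2 + x) / ((a.2 + x) ^ 2 + (y : ℝ) ^ 2)) := by
  unfold qx
  split_ifs with h
  · have h' : (0 : ℝ) ≤ a.1 := by exact_mod_cast h
    push_cast
    apply mul_le_mul_of_nonneg_left _ h'
    exact flo_le hy (by push_cast; linarith) (by push_cast; linarith)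
  · have h' : (0 : ℝ) ≤ -(a.1 : ℝ) := by
      have : a.1 < 0 := not_le.mp h
      have : (a.1 : ℝ) < 0 := by exact_mod_cast this
      linarith
    push_cast
    have h3 := flo_le (y := y) (u1 := -(a.2 + x2)) (u2 := -(a.2 + x1)) hy (u := -(a.2 + x))
      (by push_cast; linarith) (by push_cast; linarith)
    have h4 : (a.1 : ℝ) * ((a.2 + x) / ((a.2 + x) ^ 2 + (y : ℝ) ^ 2)) =
        -(a.1 : ℝ) * (-(a.2 + x) / ((-(a.2 + x)) ^ 2 + (y : ℝ) ^ 2)) := by
      rw [neg_sq]; ring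
    rw [h4]
    exact mul_le_mul_of_nonneg_left h3 h'

theorem Qx_sound {l : List (ℤ × ℤ)} {y x1 x2 : ℚ} (hy : 0 < y)
    (h : 0 ≤ Qx l y x1 x2) {x : ℝ} (h1 : (x1 : ℝ) ≤ x) (h2 : x ≤ x2) :
    0 ≤ eQ l x y := by
  unfold eQ
  have h3 := sum_floor_le l (f := qx y x1 x2)
    (g := fun a => (a.1 : ℝ) * ((a.2 + x) / ((a.2 + x) ^ 2 + (y : ℝ) ^ 2)))
    fun a _ => qx_le hy h1 h2
  have h4 : (0 : ℝ) ≤ ((Qx l y x1 x2 : ℤ) : ℝ) := by exact_mod_cast h
  unfold Qx at h4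
  linarith

/-! ### Upper bounds for `eS` -/

theorem term_eq (w u y : ℝ) : w * Real.arctan (u / y) =
    if 0 ≤ w * u then |w| * Real.arctan (|u| / y) else -(|w| * Real.arctan (|u| / y)) := by
  rcases le_or_gt 0 w with hw | hw <;> rcases le_or_gt 0 u with hu | hu
  · rw [if_pos (by positivity), abs_of_nonneg hw, abs_of_nonneg hu]
  · rw [abs_of_nonneg hw, abs_of_neg hu, neg_div, Real.arctan_neg]
    rcases hw.eq_or_lt with h0 | h0
    · rw [← h0]; simp
    · rw [if_neg (by nlinarith)]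
      ring
  · rw [abs_of_neg hw, abs_of_nonneg hu]
    rcases hu.eq_or_lt with h0 | h0
    · rw [← h0]; simp
    · rw [if_neg (by nlinarith)]
      ring
  · rw [if_pos (by nlinarith), abs_of_neg hw, abs_of_neg hu, neg_div, Real.arctan_neg]
    ring

theorem le_sy {X : ℤ} {y1 y2 : ℚ} (hy1 : 0 < y1) {a : ℤ × ℤ} {y : ℝ}
    (h1 : (y1 : ℝ) ≤ y) (h2 : y ≤ y2) :
    (a.1 : ℝ) * Real.arctan ((a.2 + (X : ℝ)) / y) ≤ ((sy X y1 y2 a : ℚ) : ℝ) := by
  have hy1r : (0 : ℝ) < y1 := by exact_mod_cast hy1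
  have hy : 0 < y := by linarith
  have hy2r : (0 : ℝ) < y2 := by linarith
  have hy2 : 0 < y2 := by exact_mod_cast hy2r
  rw [term_eq]
  unfold sy
  have hiff : (0 : ℝ) ≤ (a.1 : ℝ) * (a.2 + (X : ℝ)) ↔ 0 ≤ a.1 * (a.2 + X) := by
    constructor
    · intro h; exact_mod_cast h
    · intro h; exact_mod_cast h
  by_cases h : 0 ≤ a.1 * (a.2 + X)
  · rw [if_pos h, if_pos (hiff.mpr h)]
    have h3 := le_aHi (x := |((a.2 + X : ℤ) : ℚ)| / y1) (by positivity)
    push_cast at h3 ⊢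
    apply mul_le_mul_of_nonneg_left _ (abs_nonneg _)
    refine le_trans (Real.arctan_mono ?_) h3
    gcongr
  · rw [if_neg h, if_neg (fun h' => h (hiff.mp h'))]
    have h3 := aLo_le (x := |((a.2 + X : ℤ) : ℚ)| / y2) (by positivity)
    push_cast at h3 ⊢
    apply neg_le_neg
    apply mul_le_mul_of_nonneg_left _ (abs_nonneg _)
    refine le_trans h3 (Real.arctan_mono ?_)
    gcongr

theorem le_si {X : ℤ} {y1 : ℚ} (hy1 : 0 < y1) {a : ℤ × ℤ} {y : ℝ}
    (h1 : (y1 : ℝ) ≤ y) :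
    (a.1 : ℝ) * Real.arctan ((a.2 + (X : ℝ)) / y) ≤ ((si X y1 a : ℚ) : ℝ) := by
  have hy1r : (0 : ℝ) < y1 := by exact_mod_cast hy1
  have hy : 0 < y := by linarith
  rw [term_eq]
  unfold si
  have hiff : (0 : ℝ) ≤ (a.1 : ℝ) * (a.2 + (X : ℝ)) ↔ 0 ≤ a.1 * (a.2 + X) := by
    constructor
    · intro h; exact_mod_cast h
    · intro h; exact_mod_cast h
  by_cases h : 0 ≤ a.1 * (a.2 + X)
  · rw [if_pos h, if_pos (hiff.mpr h)]
    have h3 := le_aHi (x := |((a.2 + X : ℤ) : ℚ)| / y1) (by positivity)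
    push_cast at h3 ⊢
    apply mul_le_mul_of_nonneg_left _ (abs_nonneg _)
    refine le_trans (Real.arctan_mono ?_) h3
    gcongr
  · rw [if_neg h, if_neg (fun h' => h (hiff.mp h'))]
    push_cast
    have : 0 ≤ |(a.1 : ℝ)| * Real.arctan (|(a.2 : ℝ) + X| / y) :=
      mul_nonneg (abs_nonneg _) (Real.arctan_nonneg.mpr (by positivity))
    linarith

theorem Sy_sound {l : List (ℤ × ℤ)} {X : ℤ} {y1 y2 : ℚ} (hy1 : 0 < y1) {c : ℚ}
    (h : (Sy l X y1 y2 : ℚ) ≤ (2 * piLo + c) * 1000000000) {y : ℝ} (h1 : (y1 : ℝ) ≤ y)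
    (h2 : y ≤ y2) : eS l X y - 2 * Real.pi ≤ c := by
  unfold eS
  have h3 := le_sum_ceil l (f := sy X y1 y2)
    (g := fun a => (a.1 : ℝ) * Real.arctan ((a.2 + (X : ℝ)) / y))
    fun a _ => le_sy hy1 h1 h2
  have h4 := (Rat.cast_le (K := ℝ)).mpr h
  push_cast at h4
  unfold Sy at h4
  have := piLo_lt
  linarith

theorem Si_sound {l : List (ℤ × ℤ)} {X : ℤ} {y1 : ℚ} (hy1 : 0 < y1) {c : ℚ}
    (h : (Si l X y1 : ℚ) ≤ (2 * piLo + c) * 1000000000) {y : ℝ} (h1 : (y1 : ℝ) ≤ y) :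
    eS l X y - 2 * Real.pi ≤ c := by
  unfold eS
  have h3 := le_sum_ceil l (f := si X y1)
    (g := fun a => (a.1 : ℝ) * Real.arctan ((a.2 + (X : ℝ)) / y))
    fun a _ => le_si hy1 h1
  have h4 := (Rat.cast_le (K := ℝ)).mpr h
  push_cast at h4
  unfold Si at h4
  have := piLo_lt
  linarith

/-! ### Chains of intervals -/

theorem chQy_sound {l : List (ℤ × ℤ)} {X : ℤ} : ∀ (ys : List ℚ) (y1 : ℚ), 0 ≤ y1 → ys ≠ [] →
    chQy l X y1 ys = true → ∀ y : ℝ, 0 < y → (y1 : ℝ) ≤ y → y ≤ (lastq y1 ys : ℚ) →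
      0 ≤ eQ l X y := by
  intro ys
  induction ys with
  | nil => intro y1 _ h; exact absurd rfl h
  | cons y2 ys ih =>
    intro y1 hy1 _ h y hy h1 h2
    simp only [chQy, Bool.and_eq_true, decide_eq_true_eq] at h
    rcases le_or_gt y y2 with h3 | h3
    · exact Qy_sound hy1 h.2.1 hy h1 h3
    · cases ys with
      | nil =>
        simp only [lastq] at h2
        exact absurd h2 (not_le.mpr h3)
      | cons y3 ys =>
        exact ih y2 (hy1.trans h.1) (by simp) h.2.2 y hy h3.le h2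

theorem chQx_sound {l : List (ℤ × ℤ)} {y : ℚ} (hy : 0 < y) : ∀ (xs : List ℚ) (x1 : ℚ), xs ≠ [] →
    chQx l y x1 xs = true → ∀ x : ℝ, (x1 : ℝ) ≤ x → x ≤ (lastq x1 xs : ℚ) →
      0 ≤ eQ l x y := by
  intro xs
  induction xs with
  | nil => intro x1 h; exact absurd rfl h
  | cons x2 xs ih =>
    intro x1 _ h x h1 h2
    simp only [chQx, Bool.and_eq_true, decide_eq_true_eq] at h
    rcases le_or_gt x x2 with h3 | h3
    · exact Qx_sound hy h.1 h1 h3
    · cases xs with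
      | nil =>
        simp only [lastq] at h2
        exact absurd h2 (not_le.mpr h3)
      | cons x3 xs =>
        exact ih x2 (by simp) h.2 x h3.le h2

theorem chSy_sound {l : List (ℤ × ℤ)} {X : ℤ} {c : ℚ} : ∀ (ys : List ℚ) (y1 : ℚ), 0 < y1 →
    chSy l X c y1 ys = true → ∀ y : ℝ, (y1 : ℝ) ≤ y → eS l X y - 2 * Real.pi ≤ c := by
  intro ys
  induction ys with
  | nil =>
    intro y1 hy1 h y h1
    simp only [chSy, decide_eq_true_eq] at h
    exact Si_sound hy1 h h1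
  | cons y2 ys ih =>
    intro y1 hy1 h y h1
    simp only [chSy, Bool.and_eq_true, decide_eq_true_eq] at h
    rcases le_or_gt y y2 with h3 | h3
    · exact Sy_sound hy1 h.2.1 h1 h3
    · exact ih y2 (hy1.trans_le h.1) h.2.2 y h3.le

end ZG

end

section

/-!
Integer versions of the checks of the bound certificate. Soundness.
-/

namespace ZG

open ZetaSets (aL aU PP)
open ZetaCert (Dat)

theorem sumZ_cons (f : ℤ × ℤ → ℤ) (a : ℤ × ℤ) (l : List (ℤ × ℤ)) :
    sumZ f (a :: l) = f a + sumZ f l := rfl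

theorem sumZ_le {f g : ℤ × ℤ → ℤ} (l : List (ℤ × ℤ)) (h : ∀ a ∈ l, f a ≤ g a) :
    sumZ f l ≤ (l.map g).sum := by
  induction l with
  | nil => simp [sumZ]
  | cons a l ih =>
    rw [sumZ_cons, List.map_cons, List.sum_cons]
    exact add_le_add (h a List.mem_cons_self) (ih fun b hb => h b (List.mem_cons_of_mem _ hb))

theorem le_sumZ {f g : ℤ × ℤ → ℤ} (l : List (ℤ × ℤ)) (h : ∀ a ∈ l, g a ≤ f a) :
    (l.map g).sum ≤ sumZ f l := by
  induction l with
  | nil => simp [sumZ]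
  | cons a l ih =>
    rw [sumZ_cons, List.map_cons, List.sum_cons]
    exact add_le_add (h a List.mem_cons_self) (ih fun b hb => h b (List.mem_cons_of_mem _ hb))

theorem ediv_le {a b : ℤ} (hb : 0 ≤ b) : ((a / b : ℤ) : ℚ) ≤ (a : ℚ) / b := by
  rcases hb.eq_or_lt with rfl | hb
  · simp
  · rw [le_div_iff₀ (by exact_mod_cast hb)]
    exact_mod_cast Int.ediv_mul_le a hb.ne'

theorem floZ_le {w d m n1 n2 : ℤ} (hw : 0 ≤ w) (hd : 0 < d) (hm : 0 < m) :
    ((floZ w d m n1 n2 : ℤ) : ℚ) ≤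
      (w : ℚ) * flo ((m : ℚ) / d) ((n1 : ℚ) / d) ((n2 : ℚ) / d) * 1000000000 := by
  have hd' : (0 : ℚ) < d := by exact_mod_cast hd
  have hm' : (0 : ℚ) < m := by exact_mod_cast hm
  have hw' : (0 : ℚ) ≤ w := by exact_mod_cast hw
  have hc : ((n1 : ℚ) / d < -((m : ℚ) / d) ∧ -((m : ℚ) / d) < (n2 : ℚ) / d) ↔
      (n1 < -m ∧ -m < n2) := by
    rw [← neg_div, div_lt_div_iff_of_pos_right hd', div_lt_div_iff_of_pos_right hd']
    constructor
    · rintro ⟨h1, h2⟩; exact ⟨by exact_mod_cast h1, by exact_mod_cast h2⟩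
    · rintro ⟨h1, h2⟩; exact ⟨by exact_mod_cast h1, by exact_mod_cast h2⟩
  unfold floZ flo
  by_cases h : n1 < -m ∧ -m < n2
  · rw [if_pos h, if_pos (hc.2 h)]
    refine (ediv_le (by linarith)).trans (le_of_eq ?_)
    push_cast
    field_simp
  · rw [if_neg h, if_neg fun h' => h (hc.1 h')]
    have key : ∀ n : ℤ, (((w * 1000000000 * n * d) / (n * n + m * m) : ℤ) : ℚ) ≤
        (w : ℚ) * ((n : ℚ) / d / (((n : ℚ) / d) ^ 2 + ((m : ℚ) / d) ^ 2)) * 1000000000 := by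
      intro n
      have h0 : 0 < n * n + m * m := by nlinarith [mul_self_nonneg n, mul_pos hm hm]
      have h0' : (0 : ℚ) < (n : ℚ) * n + m * m := by exact_mod_cast h0
      refine (ediv_le h0.le).trans (le_of_eq ?_)
      push_cast
      have h1 : ((n : ℚ) / d) ^ 2 + ((m : ℚ) / d) ^ 2 = ((n : ℚ) * n + m * m) / (d * d) := by
        field_simp
      rw [h1]
      field_simp
    rcases min_choice ((n1 : ℚ) / d / (((n1 : ℚ) / d) ^ 2 + ((m : ℚ) / d) ^ 2))
      ((n2 : ℚ) / d / (((n2 : ℚ) / d) ^ 2 + ((m : ℚ) / d) ^ 2)) with h1 | h1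
    · rw [h1]
      exact (Int.cast_le.2 (min_le_left _ _)).trans (key n1)
    · rw [h1]
      exact (Int.cast_le.2 (min_le_right _ _)).trans (key n2)

theorem qxZ_le {d m n1 n2 : ℤ} (hd : 0 < d) (hm : 0 < m) (a : ℤ × ℤ) :
    qxZ d m n1 n2 a ≤ ⌊qx ((m : ℚ) / d) ((n1 : ℚ) / d) ((n2 : ℚ) / d) a * 1000000000⌋ := by
  have hd' : (0 : ℚ) < d := by exact_mod_cast hd
  rw [Int.le_floor]
  unfold qxZ qx
  have e1 : ∀ n : ℤ, (a.2 : ℚ) + (n : ℚ) / d = ((a.2 * d + n : ℤ) : ℚ) / d := by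
    intro n; push_cast; field_simp
  have e2 : ∀ n : ℤ, -((a.2 : ℚ) + (n : ℚ) / d) = ((-(a.2 * d + n) : ℤ) : ℚ) / d := by
    intro n; push_cast; field_simp
  by_cases h : 0 ≤ a.1
  · rw [if_pos h, if_pos h, e1, e1]
    exact floZ_le h hd hm
  · rw [if_neg h, if_neg h, e2, e2]
    have := floZ_le (w := -a.1) (n1 := -(a.2 * d + n2)) (n2 := -(a.2 * d + n1)) (by omega) hd hm
    rwa [Int.cast_neg a.1] at this

theorem QxZ_le {d m n1 n2 : ℤ} (hd : 0 < d) (hm : 0 < m) (l : List (ℤ × ℤ)) :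
    sumZ (qxZ d m n1 n2) l ≤ Qx l ((m : ℚ) / d) ((n1 : ℚ) / d) ((n2 : ℚ) / d) :=
  sumZ_le l fun a _ => qxZ_le hd hm a

theorem qyZ_le {X d m1 m2 : ℤ} (hd : 0 < d) (a : ℤ × ℤ) :
    qyZ X d m1 m2 a ≤ ⌊qy X ((m1 : ℚ) / d) ((m2 : ℚ) / d) a * 1000000000⌋ := by
  have hd' : (0 : ℚ) < d := by exact_mod_cast hd
  rw [Int.le_floor]
  have key : ∀ m : ℤ, (((a.1 * (a.2 + X) * (d * d) * 1000000000) /
      ((a.2 + X) * (a.2 + X) * (d * d) + m * m) : ℤ) : ℚ) ≤
      (a.1 : ℚ) * (((a.2 + X : ℤ) : ℚ) / (((a.2 + X : ℤ) : ℚ) ^ 2 + ((m : ℚ) / d) ^ 2)) *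
        1000000000 := by
    intro m
    have h0 : 0 ≤ (a.2 + X) * (a.2 + X) * (d * d) + m * m := by
      nlinarith [mul_self_nonneg ((a.2 + X) * d), mul_self_nonneg m]
    refine (ediv_le h0).trans (le_of_eq ?_)
    have h1 : ((a.2 + X : ℤ) : ℚ) ^ 2 + ((m : ℚ) / d) ^ 2 =
        ((((a.2 + X) * (a.2 + X) * (d * d) + m * m : ℤ)) : ℚ) / (d * d) := by
      push_cast; field_simp
    rw [h1, div_div_eq_mul_div]
    push_cast
    ring
  unfold qyZ qy
  by_cases h : 0 ≤ a.1 * (a.2 + X)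
  · rw [if_pos h, if_pos h]; exact key m2
  · rw [if_neg h, if_neg h]; exact key m1

theorem QyZ_le {X d m1 m2 : ℤ} (hd : 0 < d) (l : List (ℤ × ℤ)) :
    sumZ (qyZ X d m1 m2) l ≤ Qy l X ((m1 : ℚ) / d) ((m2 : ℚ) / d) :=
  sumZ_le l fun a _ => qyZ_le hd a

theorem le_cU {w p q : ℕ} (hq : 0 < q) :
    (w : ℚ) * aU ((p : ℚ) / q) * 1000000000 ≤ ((cU w p q : ℤ) : ℚ) := by
  have hq' : (0 : ℚ) < q := by exact_mod_cast hq
  unfold cU
  rw [Int.cast_neg, le_neg]
  refine (ediv_le (by positivity)).trans (le_of_eq ?_)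
  unfold aU
  push_cast
  field_simp
  ring

theorem fL_le {w p q : ℕ} (hq : 0 < q) :
    ((fL w p q : ℤ) : ℚ) ≤ (w : ℚ) * aL ((p : ℚ) / q) * 1000000000 := by
  have hq' : (0 : ℚ) < q := by exact_mod_cast hq
  unfold fL
  refine (ediv_le (by positivity)).trans (le_of_eq ?_)
  unfold aL
  push_cast
  field_simp
  ring

theorem le_aHiZ {w p q : ℕ} (hq : 0 < q) :
    (w : ℚ) * aHi ((p : ℚ) / q) * 1000000000 ≤ ((aHiZ w p q : ℤ) : ℚ) := by
  have hq' : (0 : ℚ) < q := by exact_mod_cast hq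
  unfold aHi aHiZ
  have c1 : (p : ℚ) / q ≤ 2 / 5 ↔ 5 * p ≤ 2 * q := by
    rw [div_le_div_iff₀ hq' (by norm_num)]
    constructor
    · intro h
      have : (5 * p : ℚ) ≤ 2 * q := by linarith
      exact_mod_cast this
    · intro h
      have : (5 * p : ℚ) ≤ 2 * q := by exact_mod_cast h
      linarith
  have c2 : (p : ℚ) / q ≤ 1 ↔ p ≤ q := by
    rw [div_le_one hq']
    exact Nat.cast_le
  have c3 : (p : ℚ) / q ≤ 5 / 2 ↔ 2 * p ≤ 5 * q := by
    rw [div_le_div_iff₀ hq' (by norm_num)]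
    constructor
    · intro h
      have : (2 * p : ℚ) ≤ 5 * q := by linarith
      exact_mod_cast this
    · intro h
      have : (2 * p : ℚ) ≤ 5 * q := by exact_mod_cast h
      linarith
  by_cases h1 : 5 * p ≤ 2 * q
  · rw [if_pos h1, if_pos (c1.2 h1)]
    exact le_cU hq
  rw [if_neg h1, if_neg fun h => h1 (c1.1 h)]
  by_cases h2 : p ≤ q
  · rw [if_pos h2, if_pos (c2.2 h2)]
    have e : (1 - (p : ℚ) / q) / (1 + (p : ℚ) / q) = ((q - p : ℕ) : ℚ) / ((q + p : ℕ) : ℚ) := by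
      rw [Nat.cast_sub h2, Nat.cast_add]
      have : (q : ℚ) + p ≠ 0 := by positivity
      field_simp
    rw [e]
    have := fL_le (w := w) (p := q - p) (q := q + p) (by omega)
    unfold piHi
    push_cast at this ⊢
    linarith
  rw [if_neg h2, if_neg fun h => h2 (c2.1 h)]
  by_cases h3 : 2 * p ≤ 5 * q
  · rw [if_pos h3, if_pos (c3.2 h3)]
    have e : ((p : ℚ) / q - 1) / (1 + (p : ℚ) / q) = ((p - q : ℕ) : ℚ) / ((q + p : ℕ) : ℚ) := by
      rw [Nat.cast_sub (by omega), Nat.cast_add]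
      have : (q : ℚ) + p ≠ 0 := by positivity
      field_simp
    rw [e]
    have := le_cU (w := w) (p := p - q) (q := q + p) (by omega)
    unfold piHi
    push_cast at this ⊢
    linarith
  · rw [if_neg h3, if_neg fun h => h3 (c3.1 h)]
    have hp : 0 < p := by omega
    have e : (1 : ℚ) / ((p : ℚ) / q) = (q : ℚ) / p := by rw [one_div_div]
    rw [e]
    have := fL_le (w := w) (p := q) (q := p) hp
    unfold piHi
    push_cast at this ⊢
    linarith

theorem le_aLoZ {w p q : ℕ} (hq : 0 < q) :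
    -((w : ℚ) * aLo ((p : ℚ) / q)) * 1000000000 ≤ ((aLoZ w p q : ℤ) : ℚ) := by
  have hq' : (0 : ℚ) < q := by exact_mod_cast hq
  unfold aLo aLoZ
  have c1 : (p : ℚ) / q ≤ 2 / 5 ↔ 5 * p ≤ 2 * q := by
    rw [div_le_div_iff₀ hq' (by norm_num)]
    constructor
    · intro h
      have : (5 * p : ℚ) ≤ 2 * q := by linarith
      exact_mod_cast this
    · intro h
      have : (5 * p : ℚ) ≤ 2 * q := by exact_mod_cast h
      linarith
  have c2 : (p : ℚ) / q ≤ 1 ↔ p ≤ q := by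
    rw [div_le_one hq']
    exact Nat.cast_le
  have c3 : (p : ℚ) / q ≤ 5 / 2 ↔ 2 * p ≤ 5 * q := by
    rw [div_le_div_iff₀ hq' (by norm_num)]
    constructor
    · intro h
      have : (2 * p : ℚ) ≤ 5 * q := by linarith
      exact_mod_cast this
    · intro h
      have : (2 * p : ℚ) ≤ 5 * q := by exact_mod_cast h
      linarith
  by_cases h1 : 5 * p ≤ 2 * q
  · rw [if_pos h1, if_pos (c1.2 h1)]
    have := fL_le (w := w) (p := p) (q := q) hq
    push_cast at this ⊢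
    linarith
  rw [if_neg h1, if_neg fun h => h1 (c1.1 h)]
  by_cases h2 : p ≤ q
  · rw [if_pos h2, if_pos (c2.2 h2)]
    have e : (1 - (p : ℚ) / q) / (1 + (p : ℚ) / q) = ((q - p : ℕ) : ℚ) / ((q + p : ℕ) : ℚ) := by
      rw [Nat.cast_sub h2, Nat.cast_add]
      have : (q : ℚ) + p ≠ 0 := by positivity
      field_simp
    rw [e]
    have := le_cU (w := w) (p := q - p) (q := q + p) (by omega)
    unfold piLo
    push_cast at this ⊢
    linarith
  rw [if_neg h2, if_neg fun h => h2 (c2.1 h)]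
  by_cases h3 : 2 * p ≤ 5 * q
  · rw [if_pos h3, if_pos (c3.2 h3)]
    have e : ((p : ℚ) / q - 1) / (1 + (p : ℚ) / q) = ((p - q : ℕ) : ℚ) / ((q + p : ℕ) : ℚ) := by
      rw [Nat.cast_sub (by omega), Nat.cast_add]
      have : (q : ℚ) + p ≠ 0 := by positivity
      field_simp
    rw [e]
    have := fL_le (w := w) (p := p - q) (q := q + p) (by omega)
    unfold piLo
    push_cast at this ⊢
    linarith
  · rw [if_neg h3, if_neg fun h => h3 (c3.1 h)]
    have hp : 0 < p := by omega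
    have e : (1 : ℚ) / ((p : ℚ) / q) = (q : ℚ) / p := by rw [one_div_div]
    rw [e]
    have := le_cU (w := w) (p := q) (q := p) hp
    unfold piLo
    push_cast at this ⊢
    linarith

theorem abs_div_eq (u : ℤ) (P Q : ℕ) :
    |(u : ℚ)| / ((P : ℚ) / Q) = ((u.natAbs * Q : ℕ) : ℚ) / P := by
  rw [div_div_eq_mul_div, Nat.cast_mul, Nat.cast_natAbs, Int.cast_abs]

theorem le_syZ {X : ℤ} {P1 Q1 P2 Q2 : ℕ} (h1 : 0 < P1) (h2 : 0 < P2) (a : ℤ × ℤ) :
    ⌈sy X ((P1 : ℚ) / Q1) ((P2 : ℚ) / Q2) a * 1000000000⌉ ≤ syZ X P1 Q1 P2 Q2 a := by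
  rw [Int.ceil_le]
  unfold sy syZ
  rw [abs_div_eq, abs_div_eq]
  have e : |(a.1 : ℚ)| = ((a.1.natAbs : ℕ) : ℚ) := by rw [Nat.cast_natAbs, Int.cast_abs]
  rw [e]
  by_cases h : 0 ≤ a.1 * (a.2 + X)
  · rw [if_pos h, if_pos h]
    exact le_aHiZ h1
  · rw [if_neg h, if_neg h]
    exact le_aLoZ h2

theorem le_siZ {X : ℤ} {P1 Q1 : ℕ} (h1 : 0 < P1) (a : ℤ × ℤ) :
    ⌈si X ((P1 : ℚ) / Q1) a * 1000000000⌉ ≤ siZ X P1 Q1 a := by
  rw [Int.ceil_le]
  unfold si siZ
  rw [abs_div_eq]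
  have e : |(a.1 : ℚ)| = ((a.1.natAbs : ℕ) : ℚ) := by rw [Nat.cast_natAbs, Int.cast_abs]
  rw [e]
  by_cases h : 0 ≤ a.1 * (a.2 + X)
  · rw [if_pos h, if_pos h]
    exact le_aHiZ h1
  · rw [if_neg h, if_neg h]; simp

theorem le_SyZ {X : ℤ} {P1 Q1 P2 Q2 : ℕ} (h1 : 0 < P1) (h2 : 0 < P2) (l : List (ℤ × ℤ)) :
    Sy l X ((P1 : ℚ) / Q1) ((P2 : ℚ) / Q2) ≤ sumZ (syZ X P1 Q1 P2 Q2) l :=
  le_sumZ l fun a _ => le_syZ h1 h2 a

theorem le_SiZ {X : ℤ} {P1 Q1 : ℕ} (h1 : 0 < P1) (l : List (ℤ × ℤ)) :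
    Si l X ((P1 : ℚ) / Q1) ≤ sumZ (siZ X P1 Q1) l :=
  le_sumZ l fun a _ => le_siZ h1 a

theorem evalBZ_imp {D : Dat} {X : ℤ} {P Q w k : ℕ} {S : ℤ} (h : evalBZ D X P Q w k S = true) :
    evalB D X P Q w k ((S : ℚ) / 1000000000) = true := by
  simp only [evalBZ, evalB, Bool.and_eq_true, decide_eq_true_eq] at h ⊢
  obtain ⟨⟨hP, hQ⟩, h1, h2⟩ := h
  refine ⟨⟨hP, hQ⟩, ?_, h2⟩
  have h3 := (le_SyZ (X := X) (Q1 := Q) (Q2 := Q) hP hP (atoms D)).trans h1
  have h4 : ((Sy (atoms D) X ((P : ℚ) / Q) ((P : ℚ) / Q) : ℤ) : ℚ) ≤ ((6283184000 + S : ℤ) : ℚ) :=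
    Int.cast_le.2 h3
  refine h4.trans (le_of_eq ?_)
  unfold piLo
  push_cast
  ring

theorem chQxMZ_imp {l : List (ℤ × ℤ)} {d m M xe : ℤ} (hd : 0 < d) (hm : 0 < m) :
    ∀ (xs : List ℤ) (x1 : ℤ), chQxMZ l d m M xe x1 xs = true →
      chQxM l ((m : ℚ) / d) ((M : ℚ) / 1000000000) ((xe : ℚ) / d) ((x1 : ℚ) / d)
        (xs.map fun z : ℤ => (z : ℚ) / d) = true := by
  have hd' : (0 : ℚ) < d := by exact_mod_cast hd
  intro xs
  induction xs with
  | nil =>
    intro x1 h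
    simp only [chQxMZ, decide_eq_true_eq] at h
    simp only [List.map_nil, chQxM, decide_eq_true_eq]
    rw [div_le_div_iff_of_pos_right hd']
    exact_mod_cast h
  | cons x2 xs ih =>
    intro x1 h
    simp only [chQxMZ, Bool.and_eq_true, decide_eq_true_eq] at h
    simp only [List.map_cons, chQxM, Bool.and_eq_true, decide_eq_true_eq]
    refine ⟨?_, ih x2 h.2⟩
    have h1 := h.1.trans (QxZ_le (n1 := x1) (n2 := x2) hd hm l)
    have h2 := (Int.cast_le (R := ℚ)).2 h1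
    refine le_trans (le_of_eq ?_) h2
    push_cast
    ring

theorem chQyMZ_imp {l : List (ℤ × ℤ)} {X d M ye : ℤ} (hd : 0 < d) :
    ∀ (ys : List ℤ) (y1 : ℤ), chQyMZ l X d M ye y1 ys = true →
      chQyM l X ((M : ℚ) / 1000000000) ((ye : ℚ) / d) ((y1 : ℚ) / d)
        (ys.map fun z : ℤ => (z : ℚ) / d) = true := by
  have hd' : (0 : ℚ) < d := by exact_mod_cast hd
  intro ys
  induction ys with
  | nil =>
    intro y1 h
    simp only [chQyMZ, decide_eq_true_eq] at h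
    simp only [List.map_nil, chQyM, decide_eq_true_eq]
    rw [div_le_div_iff_of_pos_right hd']
    exact_mod_cast h
  | cons y2 ys ih =>
    intro y1 h
    simp only [chQyMZ, Bool.and_eq_true, decide_eq_true_eq] at h
    simp only [List.map_cons, chQyM, Bool.and_eq_true, decide_eq_true_eq]
    refine ⟨?_, ?_, ih y2 h.2.2⟩
    · rw [div_le_div_iff_of_pos_right hd']
      exact_mod_cast h.1
    have h1 := h.2.1.trans (QyZ_le (X := X) (m1 := y1) (m2 := y2) hd l)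
    have h2 := (Int.cast_le (R := ℚ)).2 h1
    refine le_trans (le_of_eq ?_) h2
    push_cast
    ring

theorem chQyZ_imp {l : List (ℤ × ℤ)} {X d : ℤ} (hd : 0 < d) :
    ∀ (ys : List ℤ) (y1 : ℤ), chQyZ l X d y1 ys = true →
      chQy l X ((y1 : ℚ) / d) (ys.map fun z : ℤ => (z : ℚ) / d) = true := by
  have hd' : (0 : ℚ) < d := by exact_mod_cast hd
  intro ys
  induction ys with
  | nil =>
    intro y1 _
    simp only [List.map_nil, chQy]
  | cons y2 ys ih =>
    intro y1 h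
    simp only [chQyZ, Bool.and_eq_true, decide_eq_true_eq] at h
    simp only [List.map_cons, chQy, Bool.and_eq_true, decide_eq_true_eq]
    refine ⟨?_, ?_, ih y2 h.2.2⟩
    · rw [div_le_div_iff_of_pos_right hd']
      exact_mod_cast h.1
    · exact h.2.1.trans (QyZ_le (X := X) (m1 := y1) (m2 := y2) hd l)

theorem chSyZ_imp {l : List (ℤ × ℤ)} {X c : ℤ} :
    ∀ (zs : List ℕ) (P Q : ℕ), 0 < P → 0 < Q → chSyZ l X c P Q zs = true →
      chSy l X ((c : ℚ) / 1000000000) ((P : ℚ) / Q) (zs.map fun z : ℕ => (z : ℚ)) = true := by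
  intro zs
  induction zs with
  | nil =>
    intro P Q hP hQ h
    simp only [chSyZ, decide_eq_true_eq] at h
    simp only [List.map_nil, chSy, decide_eq_true_eq]
    have h1 := (le_SiZ (X := X) (Q1 := Q) hP l).trans h
    have h2 := (Int.cast_le (R := ℚ)).2 h1
    refine h2.trans (le_of_eq ?_)
    unfold piLo
    push_cast
    ring
  | cons z zs ih =>
    intro P Q hP hQ h
    simp only [chSyZ, Bool.and_eq_true, decide_eq_true_eq] at h
    simp only [List.map_cons, chSy, Bool.and_eq_true, decide_eq_true_eq]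
    have hQ' : (0 : ℚ) < Q := by exact_mod_cast hQ
    have hz : 0 < z := by
      rcases Nat.eq_zero_or_pos z with h0 | h0
      · rw [h0, Nat.mul_zero] at h; omega
      · exact h0
    have hzz : (z : ℚ) = (z : ℚ) / ((1 : ℕ) : ℚ) := by simp
    refine ⟨?_, ?_, ?_⟩
    · rw [div_le_iff₀ hQ', mul_comm]
      exact_mod_cast h.1
    · have h1 := (le_SyZ (X := X) (Q1 := Q) (Q2 := 1) hP hz l).trans h.2.1
      rw [← hzz] at h1
      have h2 := (Int.cast_le (R := ℚ)).2 h1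
      refine h2.trans (le_of_eq ?_)
      unfold piLo
      push_cast
      ring
    · have := ih z 1 hz Nat.one_pos h.2.2
      rwa [← hzz] at this

theorem chHZ_imp {D : Dat} {w P0 Q0 : ℕ} {C : ℚ} {d m : ℤ} (hd : 0 < d) (hm : 0 < m)
    (hmd : (m : ℚ) / d = (P0 : ℚ) / Q0) :
    ∀ (t : List (ℕ × ℕ × ℤ × ℤ × List ℤ)) (x : ℕ) (v : ℚ), chHZ D w P0 Q0 C d m x v t = true →
      chH D w P0 Q0 C x v (t.map (cvH d)) = true := by
  have hd' : (0 : ℚ) < d := by exact_mod_cast hd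
  intro t
  induction t with
  | nil => intro x v _; simp only [List.map_nil, chH]
  | cons e t ih =>
    intro x v h
    obtain ⟨x', k', S, M, subs⟩ := e
    simp only [chHZ, Bool.and_eq_true, decide_eq_true_eq] at h
    obtain ⟨⟨h1, h2, h3⟩, ⟨h4, h5⟩, h6, h7⟩ := h
    simp only [List.map_cons, cvH, chH, Bool.and_eq_true, decide_eq_true_eq]
    refine ⟨⟨h1, ?_, evalBZ_imp h3⟩, ⟨h4, h5⟩, ?_, ih _ _ h7⟩
    · have : (0 : ℚ) ≤ M := by exact_mod_cast h2
      positivity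
    · have h8 := chQxMZ_imp hd hm subs _ h6
      rw [hmd] at h8
      push_cast at h8
      rwa [mul_div_cancel_right₀ _ hd'.ne', mul_div_cancel_right₀ _ hd'.ne'] at h8

theorem chVZ_imp {D : Dat} {w X : ℕ} {C : ℚ} {d : ℤ} (hd : 0 < d) :
    ∀ (t : List (ℕ × ℕ × ℕ × ℤ × ℤ × List ℤ)) (m : ℤ) (v : ℚ), chVZ D w X C d m v t = true →
      chV D w X C ((m : ℚ) / d) v (t.map (cvV d)) = true := by
  have hd' : (0 : ℚ) < d := by exact_mod_cast hd
  intro t
  induction t with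
  | nil => intro m v _; simp only [List.map_nil, chV]
  | cons e t ih =>
    intro m v h
    obtain ⟨P', Q', k', S, M, subs⟩ := e
    simp only [chVZ, Bool.and_eq_true, decide_eq_true_eq] at h
    obtain ⟨⟨h1, h2, h3⟩, ⟨h4, h5⟩, ⟨h6, h7⟩, h8⟩ := h
    have h3' := h3
    simp only [evalBZ, Bool.and_eq_true, decide_eq_true_eq] at h3'
    obtain ⟨⟨hP, hQ⟩, -⟩ := h3'
    have hQ' : (0 : ℚ) < Q' := by exact_mod_cast hQ
    have e1 : (((P' * d / Q' : ℤ)) : ℚ) / d = (P' : ℚ) / Q' := by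
      rw [div_eq_div_iff hd'.ne' hQ'.ne']
      exact_mod_cast h6
    simp only [List.map_cons, cvV, chV, Bool.and_eq_true, decide_eq_true_eq]
    refine ⟨⟨?_, ?_, evalBZ_imp h3⟩, ⟨h4, h5⟩, ?_, ?_⟩
    · rw [div_le_div_iff₀ hd' hQ']
      exact_mod_cast h1
    · have : (0 : ℚ) ≤ M := by exact_mod_cast h2
      positivity
    · have h9 := chQyMZ_imp hd subs _ h7
      rwa [e1] at h9
    · have h9 := ih _ _ h8
      rwa [e1] at h9

end ZG

end
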