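import Pool.Agent.Work.MP_4f096c_nt.GRate
import Pool.Agent.Work.MP_4f096c_nt.GRate4

/-!
The bound of the linear forms `ZG.Lf` from bounds of the rate function on a bent path.
-/

namespace ZG

open Finset MeasureTheory
open ZetaSets (K pt gg pt_zero norm_add_le_abs K_line K_decay K_split Kg Kg_differentiableOn
  line_integrable exp_poly exp_poly')

/-- pointwise bound of the integrand, from the bounds of the factors -/
theorem ff_le_of {F : Fam} {n d : ℕ} {t : ℂ} {y V B E CK : ℝ} (hB0 : 0 ≤ B) (hBE : B ^ 2 ≤ E)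
    (_hCK0 : 0 ≤ CK)
    (h1 : ‖t‖ ≤ B) (h2 : ‖t + ((F.par n).h : ℂ)‖ ≤ B)
    (h3 : ‖R (F.par n) t‖ ≤ E ^ (1 + 4 * F.r + 3 * F.s) *
      Real.exp (n * V + 2 * Real.pi * (n * y)))
    (h4 : ‖K F.r t‖ ≤ CK * Real.exp (-(2 * Real.pi * (n * y)))) :
    ‖ff (F.par n) d t‖ ≤ CK * E ^ (1 + 4 * F.r + 3 * F.s + d) * Real.exp (n * V) := by
  have hE0 : 0 ≤ E := le_trans (by positivity) hBE
  unfold ff
  rw [norm_mul, norm_mul, norm_pow, norm_mul]
  have h5 : ‖t‖ * ‖t + ((F.par n).h : ℂ)‖ ≤ E := by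
    refine le_trans ?_ hBE
    rw [sq]
    gcongr
  calc (‖t‖ * ‖t + ((F.par n).h : ℂ)‖) ^ d * ‖R (F.par n) t‖ * ‖K (F.par n).r t‖
      ≤ E ^ d * (E ^ (1 + 4 * F.r + 3 * F.s) *
      Real.exp (n * V + 2 * Real.pi * (n * y))) *
        (CK * Real.exp (-(2 * Real.pi * (n * y)))) := by
        refine mul_le_mul (mul_le_mul ?_ h3 (norm_nonneg _) (by positivity)) h4 (norm_nonneg _)
          (by positivity)
        exact pow_le_pow_left₀ (by positivity) h5 d
    _ = CK * E ^ (1 + 4 * F.r + 3 * F.s + d) * Real.exp (n * V) := by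
        rw [Real.exp_add, Real.exp_neg, pow_add E (1 + 4 * F.r + 3 * F.s)]
        field_simp

theorem arith_final {A Z Z1 w E p q Q : ℝ} (hA : 0 ≤ A) (hZ : 0 ≤ Z) (hE : 0 ≤ E)
    (hw : w ≤ Z1 * Z) (hw0 : 0 ≤ w) (hpq : p ≤ q * Q) (hp : 0 ≤ p) :
    (A * Z * w * E) * p ≤ A * Z1 * q * (Z * Z * Q) * E := by
  have h1 : 0 ≤ A * Z * E := by positivity
  have h2 : w * p ≤ (Z1 * Z) * (q * Q) := mul_le_mul hw hpq hp (hw0.trans hw)
  calc (A * Z * w * E) * p = (A * Z * E) * (w * p) := by ring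
    _ ≤ (A * Z * E) * ((Z1 * Z) * (q * Q)) := mul_le_mul_of_nonneg_left h2 h1
    _ = _ := by ring

theorem arith1 {c a z p p' e e' : ℝ} (hc : 0 ≤ c) (ha : 0 ≤ a) (hz : 0 ≤ z) (hp0 : 0 ≤ p)
    (hp : p ≤ p') (he0 : 0 ≤ e) (he : e ≤ e') : c * (a * z * p) * e ≤ c * a * z * p' * e' := by
  have hp' : 0 ≤ p' := hp0.trans hp
  calc c * (a * z * p) * e = (c * a * z * p) * e := by ring
    _ ≤ _ := by gcongr

theorem arith3 {c a z p s e l w : ℝ} (hc : 0 ≤ c) (ha : 0 ≤ a) (hz : 0 ≤ z) (hp0 : 0 ≤ p)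
    (hs : 1 ≤ s) (hl : 0 ≤ l) (hw : 0 ≤ w) (he : e ≤ l * w) :
    c * (a * z * p) * e ≤ c * a * z * s * l * (p * w) := by
  calc c * (a * z * p) * e ≤ c * (a * z * p) * (l * w) := by gcongr
    _ = (c * a * z * l * (p * w)) * 1 := by ring
    _ ≤ (c * a * z * l * (p * w)) * s := by gcongr
    _ = _ := by ring

/-- **Upper bound for the linear forms**, from bounds for the rate function on a bent path. -/
theorem Lf_le_of_V {F : Fam} (hF : F.Ok) {X Y0 L δ C : ℝ} (hX : 0 ≤ X) (hY0 : 0 < Y0)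
    (hδ : 0 < δ) (ha : ∀ y, 0 < y → y ≤ Y0 → F.V 0 y ≤ L)
    (hb : ∀ x, 0 ≤ x → x ≤ X → F.V x Y0 ≤ L) (hc : ∀ y, Y0 ≤ y → F.V X y ≤ L - δ * y)
    (hC : C < -L) (d : ℕ) :
    ∀ᶠ n : ℕ in Filter.atTop, ‖Lf (F.par n) d 0‖ ≤ Real.exp (-C * n) := by
  have hr := hF.r3
  obtain ⟨CK1, hCK10, hCK1⟩ := K_line (r := F.r) (by omega)
  obtain ⟨CK2, hCK20, hCK2⟩ := K_decay (r := F.r) (by omega)
  set CK := CK1 + CK2 with hCK
  have hCK0 : 0 ≤ CK := by positivity
  set N0 := 1 + 4 * F.r + 3 * F.s + d with hN0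
  set κ : ℝ := F.η + F.Γ + X + 2 with hκ
  have hη0 : (0 : ℝ) ≤ F.η := by positivity
  have hΓ0 : (0 : ℝ) ≤ F.Γ := by positivity
  have hκ2 : 2 ≤ κ := by rw [hκ]; linarith
  set K1 : ℝ := 1 + (F.η + F.Γ + 1) / (4 * Y0) with hK1
  have hK11 : 1 ≤ K1 := by
    rw [hK1]
    have : 0 ≤ ((F.η : ℝ) + F.Γ + 1) / (4 * Y0) := by positivity
    linarith
  set J : ℝ := ∫ y : ℝ, (1 + |y|) ^ (2 * N0) * Real.exp (-(δ * |y|)) with hJ
  have hint : MeasureTheory.Integrable fun y : ℝ =>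
      (1 + |y|) ^ (2 * N0) * Real.exp (-(δ * |y|)) := by
    refine MeasureTheory.Integrable.mono' (integrable_inv_one_add_sq.const_mul
      (((2 * N0 + 2).factorial / δ ^ (2 * N0 + 2) * Real.exp δ)))
      (Continuous.aestronglyMeasurable (by fun_prop)) (Filter.Eventually.of_forall fun y => ?_)
    rw [Real.norm_eq_abs, abs_of_nonneg (by positivity), ← div_eq_mul_inv]
    exact exp_poly' hδ (2 * N0) y
  have hJ0 : 0 ≤ J := MeasureTheory.integral_nonneg fun y => by positivity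
  clear_value CK κ K1
  -- the polynomial factor
  have hBx : ∀ (n : ℕ), 0 < n → ∀ x y : ℝ, x ≤ X → 0 ≤ x → 0 ≤ y →
      ((F.η : ℝ) + F.Γ + x + y) * n + 2 ≤ κ * (n + 2) * (1 + n * y) := by
    intro n hn x y hx hx0 hy
    have hn1 : (1 : ℝ) ≤ n := by exact_mod_cast hn
    have e1 : ((F.η : ℝ) + F.Γ + x) * n ≤ κ * n := by
      refine mul_le_mul_of_nonneg_right ?_ (by positivity)
      rw [hκ]; linarith
    have e2 : 0 ≤ (n : ℝ) * y := by positivity
    have e3 : (n : ℝ) * y ≤ κ * (n + 2) * (n * y) := by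
      have : 1 ≤ κ * (n + 2) := by nlinarith
      nlinarith
    nlinarith
  have hmain : ∀ n : ℕ, 0 < n → 1 ≤ n * Y0 → ‖Lf (F.par n) d 0‖ ≤
      (CK * (κ ^ 2 * Real.exp K1) ^ N0 * ((n : ℝ) + 2) ^ (2 * N0) * (1 + n * Y0) ^ (2 * N0) *
        Real.exp (n * L)) * (2 * (n * Y0) + 2 * (n * X) + 2 * J) := by
    intro n hn hnY
    have hn0 : (0 : ℝ) < n := by exact_mod_cast hn
    have hn1 : (1 : ℝ) ≤ n := by exact_mod_cast hn
    have hb1 : ∀ i, 1 ≤ (F.par n).b i := fun i => Nat.succ_le_succ (Nat.zero_le _)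
    -- E for a given height
    have hE : ∀ y : ℝ, ((κ * (n + 2) * (1 + n * y)) ^ 2 * Real.exp K1) ^ N0 =
        (κ ^ 2 * Real.exp K1) ^ N0 * ((n : ℝ) + 2) ^ (2 * N0) * (1 + n * y) ^ (2 * N0) := by
      intro y
      rw [pow_mul ((n : ℝ) + 2), pow_mul (1 + n * y), ← mul_pow, ← mul_pow]
      ring
    have hBE : ∀ B : ℝ, B ^ 2 ≤ B ^ 2 * Real.exp K1 := by
      intro B
      have : 1 ≤ Real.exp K1 := Real.one_le_exp (by linarith)
      nlinarith [sq_nonneg B]
    -- on the line Re = -1/2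
    have p1 : ∀ y : ℝ, 0 < y →
        ‖ff (F.par n) d (((-(1 / 2) : ℝ) : ℂ) + ((n * y : ℝ) : ℂ) * Complex.I)‖ ≤
        CK * ((κ * (n + 2) * (1 + n * y)) ^ 2 * Real.exp K1) ^ N0 * Real.exp (n * F.V 0 y) := by
      intro y hy
      have hBy := hBx n hn 0 y hX le_rfl hy.le
      have ht : pt 0 (n * y) = ((-(1 / 2) + n * (0 : ℝ) : ℝ) : ℂ) +
          ((n * y : ℝ) : ℂ) * Complex.I := by
        rw [pt_zero, mul_zero, add_zero]
      have ht' := tnorm (F := F) le_rfl hy.le hBy ht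
      rw [← pt_zero]
      have hB0 : 0 ≤ κ * (n + 2) * (1 + n * y) := by positivity
      refine ff_le_of hB0 (hBE _) hCK0 ht'.1 ht'.2.1
        (R_le1 hF hn hy (by rw [add_zero] at hBy; exact hBy) hK11) ?_
      have h := hCK1 (n * y)
      rw [abs_of_pos (by positivity)] at h
      refine h.trans ?_
      gcongr
      linarith
    -- away from the real axis
    have p2 : ∀ x y : ℝ, 0 ≤ x → x ≤ X → Y0 ≤ y →
        ‖ff (F.par n) d (((-(1 / 2) + n * x : ℝ) : ℂ) + ((n * y : ℝ) : ℂ) * Complex.I)‖ ≤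
        CK * ((κ * (n + 2) * (1 + n * y)) ^ 2 * Real.exp K1) ^ N0 * Real.exp (n * F.V x y) := by
      intro x y hx hxX hy
      have hy0 : 0 < y := lt_of_lt_of_le hY0 hy
      have hny : 1 ≤ n * y := hnY.trans (by gcongr)
      have hBy := hBx n hn x y hxX hx hy0.le
      have ht' := tnorm (F := F) hx hy0.le hBy rfl
      have hB0 : 0 ≤ κ * (n + 2) * (1 + n * y) := by positivity
      refine ff_le_of hB0 (hBE _) hCK0 ht'.1 ht'.2.1 (R_le2 hF hn hx hy0 hny hBy hK11 ?_ rfl) ?_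
      · rw [hK1]
        have : ((F.η : ℝ) + F.Γ + 1) / (4 * y) ≤ (F.η + F.Γ + 1) / (4 * Y0) := by gcongr
        linarith
      · have him : (((-(1 / 2) + n * x : ℝ) : ℂ) + ((n * y : ℝ) : ℂ) * Complex.I).im = n * y := by
          rw [Complex.add_im, Complex.ofReal_im, Complex.mul_im, Complex.ofReal_re, Complex.I_im,
            Complex.ofReal_im, Complex.I_re]
          ring
        have h := hCK2 (((-(1 / 2) + n * x : ℝ) : ℂ) + ((n * y : ℝ) : ℂ) * Complex.I) (by
          rw [him, abs_of_pos (by positivity)]; exact hny)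
        rw [him, abs_of_pos (by positivity)] at h
        refine h.trans ?_
        gcongr
        linarith
    set M : ℝ := CK * (κ ^ 2 * Real.exp K1) ^ N0 * ((n : ℝ) + 2) ^ (2 * N0) *
      (1 + n * Y0) ^ (2 * N0) * Real.exp (n * L) with hM
    have hM0 : 0 ≤ M := by positivity
    have hx12 : -(1 / 2 : ℝ) ≤ -(1 / 2) + n * X := by
      have : 0 ≤ n * X := by positivity
      linarith
    obtain ⟨D, hD⟩ := ff_decay (F.par n) (show 2 ≤ F.r by omega) hb1 d (-(1 / 2) + n * X)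
    have hbent := bent_bound (f := ff (F.par n) d) (x1 := -(1 / 2)) (x2 := -(1 / 2) + n * X)
      (T0 := n * Y0) (D := D) (M := M) (w := fun y => (1 + |y|) ^ (2 * N0) *
        Real.exp (-(δ * |y|))) (by positivity) hx12 hM0 hint (fun y => by positivity)
      (ff_integrable (F.par n) hr hb1 d) (ff_conj _ _)
      (fun z hz => by
        rw [Set.uIcc_of_le hx12] at hz
        refine (ff_differentiableOn (F.par n) (show 2 ≤ F.r by omega) hb1 d z hz.1.1
          ?_).differentiableWithinAt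
        have := hz.2
        intro h
        rw [h] at this
        linarith)
      (fun z hz hz2 => by
        rw [Set.uIcc_of_le hx12] at hz
        exact hD z hz (hnY.trans hz2)) ?_ ?_ ?_
    · rw [Lf_eq]
      refine hbent.trans (le_of_eq ?_)
      rw [hJ]
      ring
    · -- piece 1
      intro y hy0 hyT
      have key : ∀ y : ℝ, 0 < y → y ≤ n * Y0 →
          ‖ff (F.par n) d (((-(1 / 2) : ℝ) : ℂ) + (y : ℂ) * Complex.I)‖ ≤ M := by
        intro y hy hyT
        have h := p1 (y / n) (by positivity)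
        have e1 : (n : ℝ) * (y / n) = y := by field_simp
        have e2 : y / n ≤ Y0 := by
          rw [div_le_iff₀ hn0]; linarith
        rw [e1] at h
        refine h.trans ?_
        have hE' := hE (y / n)
        rw [e1] at hE'
        rw [hE', hM]
        have h2 := ha (y / n) (by positivity) e2
        have h3 : (1 + y) ^ (2 * N0) ≤ (1 + n * Y0) ^ (2 * N0) := by gcongr
        have h4 : Real.exp (n * F.V 0 (y / n)) ≤ Real.exp (n * L) := by gcongr
        exact arith1 hCK0 (by positivity) (by positivity) (by positivity) h3 (Real.exp_pos _).le h4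
      rcases lt_or_gt_of_ne hy0 with h | h
      · have h1 := key (-y) (by linarith) (by rw [abs_of_neg h] at hyT; exact hyT)
        have h2 := ff_conj (F.par n) d (((-(1 / 2) : ℝ) : ℂ) + ((-y : ℝ) : ℂ) * Complex.I)
        have h3 : (starRingEnd ℂ) (((-(1 / 2) : ℝ) : ℂ) + ((-y : ℝ) : ℂ) * Complex.I) =
            ((-(1 / 2) : ℝ) : ℂ) + (y : ℂ) * Complex.I := by
          simp only [map_add, map_mul, Complex.conj_ofReal, Complex.conj_I]
          push_cast
          ring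
        rw [h3] at h2
        rw [h2, Complex.norm_conj]
        exact h1
      · exact key y h (by rw [abs_of_pos h] at hyT; exact hyT)
    · -- piece 2
      intro x hx1 hx2
      have h := p2 ((x + 1 / 2) / n) Y0 (by
        apply div_nonneg _ hn0.le; linarith) (by
        rw [div_le_iff₀ hn0]; linarith) le_rfl
      have e1 : -(1 / 2) + n * ((x + 1 / 2) / n) = x := by field_simp; ring
      rw [e1] at h
      refine h.trans ?_
      rw [hE, hM]
      have h2 := hb ((x + 1 / 2) / n) (by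
        apply div_nonneg _ hn0.le; linarith) (by
        rw [div_le_iff₀ hn0]; linarith)
      have h4 : Real.exp (n * F.V ((x + 1 / 2) / n) Y0) ≤ Real.exp (n * L) := by gcongr
      exact arith1 hCK0 (by positivity) (by positivity) (by positivity) le_rfl
        (Real.exp_pos _).le h4
    · -- piece 3
      intro y hy
      have hy0 : 0 < y := lt_of_lt_of_le (by positivity) hy
      have e1 : (n : ℝ) * (y / n) = y := by field_simp
      have e2 : Y0 ≤ y / n := by
        rw [le_div_iff₀ hn0]; linarith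
      have h := p2 X (y / n) hX le_rfl e2
      have hE' := hE (y / n)
      rw [e1] at h hE'
      refine h.trans ?_
      rw [hE', hM, abs_of_pos hy0]
      have h2 := hc (y / n) e2
      have h3 : (1 : ℝ) ≤ (1 + n * Y0) ^ (2 * N0) := one_le_pow₀ (by linarith)
      have h4 : Real.exp (n * F.V X (y / n)) ≤ Real.exp (n * L) * Real.exp (-(δ * y)) := by
        rw [← Real.exp_add]
        apply Real.exp_le_exp.mpr
        have e3 : (n : ℝ) * (L - δ * (y / n)) = n * L + -(δ * y) := by field_simp; ring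
        rw [← e3]
        gcongr
      exact arith3 hCK0 (by positivity) (by positivity) (by positivity) h3 (Real.exp_pos _).le
        (Real.exp_pos _).le h4
  -- the limit
  set c0 : ℝ := CK * (κ ^ 2 * Real.exp K1) ^ N0 * (1 + Y0) ^ (2 * N0) * (2 * Y0 + 2 * X + 2 * J)
    with hc0
  have hc00 : 0 ≤ c0 := by positivity
  have hmain2 : ∀ n : ℕ, 0 < n → 1 ≤ n * Y0 → ‖Lf (F.par n) d 0‖ ≤
      c0 * ((n : ℝ) + 2) ^ (4 * N0 + 1) * Real.exp (n * L) := by
    intro n hn hnY
    have hn0 : (0 : ℝ) < n := by exact_mod_cast hn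
    refine (hmain n hn hnY).trans ?_
    have e1 : 1 + n * Y0 ≤ (1 + Y0) * ((n : ℝ) + 2) := by nlinarith
    have e2 : 2 * (n * Y0) + 2 * (n * X) + 2 * J ≤ (2 * Y0 + 2 * X + 2 * J) * ((n : ℝ) + 2) := by
      have f1 : 0 ≤ J * (n : ℝ) := by positivity
      nlinarith
    have e3 : 0 ≤ 2 * (n * Y0) + 2 * (n * X) + 2 * J := by positivity
    have e4 : (1 + n * Y0) ^ (2 * N0) ≤ (1 + Y0) ^ (2 * N0) * ((n : ℝ) + 2) ^ (2 * N0) := by
      rw [← mul_pow]
      exact pow_le_pow_left₀ (by positivity) e1 _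
    have e6 : ((n : ℝ) + 2) ^ (4 * N0 + 1) =
        ((n : ℝ) + 2) ^ (2 * N0) * ((n : ℝ) + 2) ^ (2 * N0) * (n + 2) := by
      rw [← pow_add, ← pow_succ]
      congr 1
      omega
    rw [hc0, e6]
    exact arith_final (by positivity) (by positivity) (Real.exp_pos _).le e4 (by positivity) e2 e3
  set q : ℝ := Real.exp (L + C) with hq
  have hq1 : q < 1 := by
    rw [hq, Real.exp_lt_one_iff]
    linarith
  have hq0 : 0 < q := Real.exp_pos _
  have hlim := (tendsto_pow_const_mul_const_pow_of_abs_lt_one (4 * N0 + 1)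
    (by rw [abs_of_pos hq0]; exact hq1 : |q| < 1)).const_mul (c0 * 3 ^ (4 * N0 + 1))
  rw [mul_zero] at hlim
  have hev := hlim.eventually_lt_const (show (0 : ℝ) < 1 by norm_num)
  have hev2 : ∀ᶠ n : ℕ in Filter.atTop, 1 ≤ (n : ℝ) * Y0 :=
    (tendsto_natCast_atTop_atTop.atTop_mul_const hY0).eventually_ge_atTop 1
  filter_upwards [hev, Filter.eventually_gt_atTop 0, hev2] with n hn1 hn2 hn3
  have hn0 : (1 : ℝ) ≤ n := by exact_mod_cast hn2
  refine (hmain2 n hn2 hn3).trans ?_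
  have e1 : Real.exp (n * L) = q ^ n * Real.exp (-C * n) := by
    rw [hq, ← Real.exp_nat_mul, ← Real.exp_add]
    ring_nf
  have e2 : ((n : ℝ) + 2) ^ (4 * N0 + 1) ≤ 3 ^ (4 * N0 + 1) * (n : ℝ) ^ (4 * N0 + 1) := by
    rw [← mul_pow]
    apply pow_le_pow_left₀ (by positivity)
    linarith
  rw [e1]
  calc c0 * ((n : ℝ) + 2) ^ (4 * N0 + 1) * (q ^ n * Real.exp (-C * n))
      ≤ c0 * (3 ^ (4 * N0 + 1) * (n : ℝ) ^ (4 * N0 + 1)) * (q ^ n * Real.exp (-C * n)) := by
        gcongr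
    _ = (c0 * 3 ^ (4 * N0 + 1) * ((n : ℝ) ^ (4 * N0 + 1) * q ^ n)) * Real.exp (-C * n) := by ring
    _ ≤ 1 * Real.exp (-C * n) := by gcongr
    _ = _ := one_mul _

end ZG
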