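import Pool.Agent.Work.MP_4f096c_nt.GBound
import Pool.Agent.Work.MP_4f096c_nt.GRate5
import Pool.Agent.Work.MP_4f096c_nt.GNum

/-!
The bound certificate of a family.
-/

namespace ZG

open ZetaSets (gg LS PP PP_pos LS_eq LS_append)
open ZetaCert (Dat)

/-- **The second bound certificate.** -/
theorem bound_dat2 (D : Dat) {X P0 Q0 w k0 kX : ℕ} {s0 sX δ C C' : ℚ} {ys0 zs : List ℚ}
    {hor : List (ℕ × ℕ × ℚ × ℚ × List ℚ)} {ver : List (ℕ × ℕ × ℕ × ℚ × ℚ × List ℚ)}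
    (hok : okB D = true) (hP0 : 0 < P0) (hQ0 : 0 < Q0) (hw : 0 < w) (hδ : 0 < δ)
    (hn0 : ys0 ≠ []) (hy0 : (P0 : ℚ) / Q0 ≤ lastq 0 ys0)
    (c0 : chQy (atoms D) 0 0 ys0 = true) (e0 : evalB D 0 P0 Q0 w k0 s0 = true)
    (hC0 : C ≤ (k0 : ℚ) / (2 * w) - (P0 : ℚ) / Q0 * max s0 0)
    (ch : chH D w P0 Q0 C 0 ((k0 : ℚ) / (2 * w) - (P0 : ℚ) / Q0 * s0) hor = true)
    (hX : lastH 0 hor = X) (eX : evalB D X P0 Q0 w kX sX = true)
    (hCX : C ≤ (kX : ℚ) / (2 * w) - (P0 : ℚ) / Q0 * sX)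
    (cv : chV D w X C ((P0 : ℚ) / Q0) ((kX : ℚ) / (2 * w) - (P0 : ℚ) / Q0 * sX) ver = true)
    (t1 : chSy (atoms D) X (-δ) (lastV ((P0 : ℚ) / Q0) ver) zs = true)
    (hC' : C' + δ * lastV ((P0 : ℚ) / Q0) ver < C) (d : ℕ) :
    ∀ᶠ n : ℕ in Filter.atTop, ‖Lf (D.fam.par n) d 0‖ ≤ Real.exp (-(C' : ℝ) * n) := by
  set Y0 : ℚ := (P0 : ℚ) / Q0 with hY0
  have hY0pos : 0 < Y0 := by rw [hY0]; positivity
  have hY0r : (0 : ℝ) < Y0 := by exact_mod_cast hY0pos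
  have eY0 : ((Y0 : ℚ) : ℝ) = (P0 : ℝ) / Q0 := by rw [hY0]; push_cast; ring
  have ev0 := evalB_sound hok hw e0
  have evX := evalB_sound hok hw eX
  rw [← hY0] at ev0 evX
  rw [Int.cast_natCast] at evX
  rw [Int.cast_zero] at ev0
  have hCle : C ≤ (k0 : ℚ) / (2 * w) - Y0 * s0 := by
    refine hC0.trans ?_
    have := mul_le_mul_of_nonneg_left (le_max_left s0 0) hY0pos.le
    linarith
  -- piece A
  have pA : ∀ y : ℝ, 0 < y → y ≤ Y0 → VV D 0 y ≤ -(C : ℝ) := by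
    intro y hy hy2
    simp only [evalB, Bool.and_eq_true, decide_eq_true_eq] at e0
    obtain ⟨-, h1, h2⟩ := e0
    have l0 := lam_lt (X := 0) hok hP0 hQ0 hw h2
    have s0' := Sy_sound hY0pos h1 (y := (Y0 : ℝ)) le_rfl le_rfl
    rw [← eY0] at l0
    rw [Int.cast_zero] at l0 s0'
    have ht := tangent_le (l := atoms D) (x := 0) (y1 := 0) (y2 := Y0) (Yt := Y0) hY0r hY0r.le
      le_rfl (fun y hy _ hy2 => by
        have h := chQy_sound ys0 0 le_rfl hn0 c0 y hy (by simpa using hy.le)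
          (hy2.trans (by exact_mod_cast hy0))
        rwa [Int.cast_zero] at h) hy hy.le hy2
    have h3 : (eS (atoms D) 0 Y0 - 2 * Real.pi) * y ≤ Y0 * max (s0 : ℝ) 0 := by
      calc (eS (atoms D) 0 Y0 - 2 * Real.pi) * y ≤ max (s0 : ℝ) 0 * y :=
            mul_le_mul_of_nonneg_right (s0'.trans (le_max_left _ _)) hy.le
        _ ≤ max (s0 : ℝ) 0 * Y0 := mul_le_mul_of_nonneg_left hy2 (le_max_right _ _)
        _ = _ := mul_comm _ _
    have h4 := (Rat.cast_le (K := ℝ)).mpr hC0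
    push_cast at h4
    unfold VV
    linarith
  have pB := chH_sound hok hw hP0 hQ0 hor 0 _ ch hCle (by
    rw [← hY0, Nat.cast_zero]
    exact ev0)
  rw [← hY0] at pB
  obtain ⟨pC, pC2, pC3⟩ := chV_sound (X := X) hok hw ver Y0 _ hY0pos cv hCX evX
  set Y1 : ℚ := lastV Y0 ver with hY1
  have hY1r : (0 : ℝ) < Y1 := by exact_mod_cast pC2
  have hδr : (0 : ℝ) < δ := by exact_mod_cast hδ
  have hY01 : (Y0 : ℝ) ≤ Y1 := by exact_mod_cast pC3
  set L : ℝ := -(C : ℝ) + δ * Y1 with hL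
  have hδY : 0 ≤ (δ : ℝ) * Y1 := by positivity
  have pD : ∀ y : ℝ, (Y1 : ℝ) < y → VV D X y ≤ -(C : ℝ) - δ * (y - Y1) := by
    intro y hy
    obtain ⟨ξ, e1, e2⟩ := exists_hasDerivAt_eq_slope (fun u => VV D X u)
      (fun u => eS (atoms D) X u - 2 * Real.pi) hy
      (fun u hu => (VV_hasDerivAt_right D X
        (lt_of_lt_of_le hY1r hu.1)).continuousAt.continuousWithinAt)
      (fun u hu => VV_hasDerivAt_right D X (hY1r.trans hu.1))
    rw [eq_div_iff (sub_pos.mpr hy).ne'] at e2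
    have e3 := chSy_sound zs _ pC2 t1 ξ e1.1.le
    rw [Int.cast_natCast] at e3
    push_cast at e3
    have e4 := pC Y1 hY01 le_rfl
    have e5 := mul_le_mul_of_nonneg_right e3 (sub_pos.mpr hy).le
    linarith
  refine Lf_le_of_V (okB_ok hok) (X := X) (Y0 := Y0) (L := L) (δ := δ) (C := C') (by positivity)
    hY0r hδr (fun y hy hy2 => ?_) (fun x hx1 hx2 => ?_) (fun y hy => ?_) ?_ d
  · rw [V_eq]
    have := pA y hy hy2
    unfold VV at this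
    linarith
  · rw [V_eq]
    have := pB x (by simpa using hx1) (by rw [hX]; exact hx2)
    unfold VV at this
    linarith
  · rw [V_eq]
    rcases le_or_gt y Y1 with h | h
    · have h1 := pC y hy h
      have h2 := mul_le_mul_of_nonneg_left h hδr.le
      unfold VV at h1
      linarith
    · have h1 := pD y h
      unfold VV at h1
      linarith
  · have h1 := (Rat.cast_lt (K := ℝ)).mpr hC'
    push_cast at h1
    rw [hL]
    linarith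

/-- **The second bound certificate**, with integer checks. -/
theorem bound_dat3 (D : Dat) {X P0 Q0 w k0 kX PL QL : ℕ} {S0 SX cδ d m0 : ℤ} {C C' : ℚ}
    {ys0 : List ℤ} {zs : List ℕ} {hor : List (ℕ × ℕ × ℤ × ℤ × List ℤ)}
    {ver : List (ℕ × ℕ × ℕ × ℤ × ℤ × List ℤ)}
    (hok : okB D = true) (hP0 : 0 < P0) (hQ0 : 0 < Q0) (hw : 0 < w) (hδ : 0 < cδ) (hd : 0 < d)
    (hm0 : 0 < m0) (hmd : m0 * Q0 = P0 * d) (hPL : 0 < PL) (hQL : 0 < QL)
    (hn0 : ys0 ≠ []) (hy0 : (P0 : ℚ) / Q0 ≤ lastq 0 (ys0.map fun z : ℤ => (z : ℚ) / d))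
    (c0 : chQyZ (atoms D) 0 d 0 ys0 = true) (e0 : evalBZ D 0 P0 Q0 w k0 S0 = true)
    (hC0 : C ≤ (k0 : ℚ) / (2 * w) - (P0 : ℚ) / Q0 * max ((S0 : ℚ) / 1000000000) 0)
    (ch : chHZ D w P0 Q0 C d m0 0
      ((k0 : ℚ) / (2 * w) - (P0 : ℚ) / Q0 * ((S0 : ℚ) / 1000000000)) hor = true)
    (hX : lastH 0 (hor.map (cvH d)) = X) (eX : evalBZ D X P0 Q0 w kX SX = true)
    (hCX : C ≤ (kX : ℚ) / (2 * w) - (P0 : ℚ) / Q0 * ((SX : ℚ) / 1000000000))
    (cv : chVZ D w X C d m0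
      ((kX : ℚ) / (2 * w) - (P0 : ℚ) / Q0 * ((SX : ℚ) / 1000000000)) ver = true)
    (hL : lastV ((P0 : ℚ) / Q0) (ver.map (cvV d)) = (PL : ℚ) / QL)
    (t1 : chSyZ (atoms D) X (-cδ) PL QL zs = true)
    (hC' : C' + (cδ : ℚ) / 1000000000 * ((PL : ℚ) / QL) < C) (d' : ℕ) :
    ∀ᶠ n : ℕ in Filter.atTop, ‖Lf (D.fam.par n) d' 0‖ ≤ Real.exp (-(C' : ℝ) * n) := by
  have hd' : (0 : ℚ) < d := by exact_mod_cast hd
  have hQ0' : (0 : ℚ) < Q0 := by exact_mod_cast hQ0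
  have hδ' : (0 : ℚ) < cδ := by exact_mod_cast hδ
  have hmd' : (m0 : ℚ) / d = (P0 : ℚ) / Q0 := by
    rw [div_eq_div_iff hd'.ne' hQ0'.ne']
    exact_mod_cast hmd
  have c0' := chQyZ_imp hd ys0 0 c0
  rw [Int.cast_zero, zero_div] at c0'
  have cv' := chVZ_imp hd ver m0 _ cv
  rw [hmd'] at cv'
  have t1' := chSyZ_imp zs PL QL hPL hQL t1
  rw [← hL] at t1' hC'
  rw [Int.cast_neg, neg_div] at t1'
  exact bound_dat2 D (δ := (cδ : ℚ) / 1000000000) (C := C) hok hP0 hQ0 hw (by positivity)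
    (by simpa using hn0) hy0 c0' (evalBZ_imp e0) hC0 (chHZ_imp hd hm0 hmd' hor 0 _ ch) hX
    (evalBZ_imp eX) hCX cv' t1' hC' d'

end ZG
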