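import Pool.Agent.Work.MP_4f096c_nt.GRat
import Pool.Agent.Work.MP_4f096c_nt.Defs

/-!
Central classes: the leading `p`-adic parts of the local expansions at `k` and at `k'`
cancel when `k'` is congruent to the mirror image of `k` and has the same floor data.
-/

namespace ZG

open ZetaSets (Cl lin Cl_lin Cl_lin_zero Cl_lin_inv Cl_X Cl_C Cl_int ord_le ord_eq_sum fact_norm
  neg_ediv_eq add_ediv_ge inv' coeff_lin)

open PowerSeries
open scoped Nat

theorem Cen.symm {P : Par} {p k k' : ℤ} (h : Cen P p k k') : Cen P p k' k where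
  dvd := by
    have e : (P.h : ℤ) - k' - k = P.h - k - k' := by ring
    rw [e]
    exact h.dvd
  hb := fun i => (h.hb i).symm
  ha := fun j => (h.ha j).symm
  hg := fun j => (h.hg j).symm

theorem Cen.mem {P : Par} {a0 b0 : ℕ} (hP : Good P a0 b0) {p k k' : ℤ} (hp : 0 < p)
    (h : Cen P p k k') (hk : k ∈ Sk P b0) : k' ∈ Sk P b0 := by
  unfold Sk at hk ⊢
  rw [Finset.mem_Icc] at hk ⊢
  obtain ⟨i, hi⟩ := hP.b0mem
  have h1 := h.hb i
  rw [hi] at h1
  obtain ⟨t, ht⟩ := h.dvd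
  constructor
  · have h2 : 0 ≤ (k - b0) / p := Int.ediv_nonneg (by omega) hp.le
    rw [h1] at h2
    by_contra hcon
    have := Int.ediv_neg_of_neg_of_pos (a := k' - b0) (b := p) (by omega) hp
    omega
  · have h2 : 0 ≤ (P.h - b0 - k) / p := Int.ediv_nonneg (by omega) hp.le
    have e1 : (P.h : ℤ) - b0 - k = k' - b0 + p * t := by omega
    rw [e1, Int.add_mul_ediv_left _ _ hp.ne', ← h1, ← Int.add_mul_ediv_left _ _ hp.ne'] at h2
    have e2 : k - (b0 : ℤ) + p * t = P.h - b0 - k' := by omega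
    rw [e2] at h2
    by_contra hcon
    have := Int.ediv_neg_of_neg_of_pos (a := P.h - b0 - k') (b := p) (by omega) hp
    omega

theorem Cen.unique {P : Par} {a0 b0 : ℕ} (hP : Good P a0 b0) {p k k' k'' : ℤ} (hp : 0 < p)
    (h : Cen P p k k') (h' : Cen P p k k'') : k' = k'' := by
  obtain ⟨i, hi⟩ := hP.b0mem
  have h1 := h.hb i
  have h2 := h'.hb i
  obtain ⟨t, ht⟩ := h.dvd
  obtain ⟨t', ht'⟩ := h'.dvd
  have e : k' - (P.b i : ℤ) = k'' - P.b i + p * (t' - t) := by
    rw [mul_sub, ← ht, ← ht']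
    ring
  rw [h2, e, Int.add_mul_ediv_left _ _ hp.ne'] at h1
  have h3 : t' - t = 0 := by omega
  rw [h3, mul_zero] at e
  omega

theorem Cen.phi {P : Par} {p k k' : ℤ} (hp : 0 < p) (h : Cen P p k k') :
    phi P p k' = phi P p k := by
  obtain ⟨t, ht⟩ := h.dvd
  unfold ZG.phi
  congr 1
  · refine Finset.sum_congr rfl fun j _ => ?_
    have e1 : (P.h : ℤ) - k' - 1 + P.g j = k - 1 + P.g j + p * t := by omega
    have e2 : (P.h : ℤ) - k' - 1 - P.a j = k - 1 - P.a j + p * t := by omega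
    have e3 : (P.h : ℤ) - k - 1 + P.g j = k' - 1 + P.g j + p * t := by omega
    have e4 : (P.h : ℤ) - k - 1 - P.a j = k' - 1 - P.a j + p * t := by omega
    rw [e1, e2, e3, e4]
    simp only [Int.add_mul_ediv_left _ _ hp.ne']
    rw [h.ha j, h.hg j]
  · refine Finset.sum_congr rfl fun i _ => ?_
    have e1 : (P.h : ℤ) - P.b i - k' = k - P.b i + p * t := by omega
    have e2 : (P.h : ℤ) - P.b i - k = k' - P.b i + p * t := by omega
    rw [e1, e2]
    simp only [Int.add_mul_ediv_left _ _ hp.ne']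
    rw [h.hb i]

section

variable {p : ℕ} [hp : Fact p.Prime]

lemma Cl_add {Λ : ℕ} {v : ℤ} {f g : ℚ⟦X⟧} (hf : Cl p Λ v f) (hg : Cl p Λ v g) :
    Cl p Λ v (f + g) := by
  intro m
  rw [map_add]
  exact (padicNorm.nonarchimedean (p := p)).trans (max_le (hf m) (hg m))

omit hp in
lemma Cl_neg {Λ : ℕ} {v : ℤ} {f : ℚ⟦X⟧} (hf : Cl p Λ v f) : Cl p Λ v (-f) := by
  intro m
  rw [map_neg, padicNorm.neg]
  exact hf m

lemma Cl_dvd {c : ℤ} (hc : (p : ℤ) ∣ c) (m : ℤ) : Cl p 1 1 (C (c : ℚ) + C (m : ℚ) * X) := by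
  intro n
  have h1 : (1 : ℚ) ≤ p := by exact_mod_cast hp.out.one_lt.le
  rw [map_add, coeff_C, coeff_C_mul, coeff_X]
  rcases n with _ | _ | n
  · have := (padicNorm.dvd_iff_norm_le (p := p) (n := 1) (z := c)).1 (by simpa using hc)
    simpa using this
  · have := padicNorm.of_int (p := p) m
    simpa using this
  · have e0 : ¬ (n + 1 + 1 = 0) := by omega
    have e1 : ¬ (n + 1 + 1 = 1) := by omega
    rw [if_neg e0, if_neg e1, mul_zero, add_zero, padicNorm.zero]
    positivity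

/-- `f` and `g` have the same leading part in the class of order `v`. -/
structure App (p : ℕ) (v : ℤ) (f g : ℚ⟦X⟧) : Prop where
  left : Cl p 1 v f
  right : Cl p 1 v g
  diff : Cl p 1 (v + 1) (f - g)

omit hp in
lemma App.refl {v : ℤ} {f : ℚ⟦X⟧} (h : Cl p 1 v f) : App p v f f where
  left := h
  right := h
  diff := by
    rw [sub_self]
    intro m
    rw [map_zero, padicNorm.zero]
    positivity

lemma App.mul {v w : ℤ} {f g f' g' : ℚ⟦X⟧} (h : App p v f g) (h' : App p w f' g') :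
    App p (v + w) (f * f') (g * g') where
  left := h.left.mul h'.left
  right := h.right.mul h'.right
  diff := by
    have e : f * f' - g * g' = (f - g) * f' + g * (f' - g') := by ring
    rw [e]
    apply Cl_add
    · have := h.diff.mul h'.left
      have e2 : v + w + 1 = v + 1 + w := by ring
      rwa [e2]
    · have := h.right.mul h'.diff
      have e2 : v + w + 1 = v + (w + 1) := by ring
      rwa [e2]

lemma App.prod {ι : Type*} (s : Finset ι) {v : ι → ℤ} {f g : ι → ℚ⟦X⟧}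
    (h : ∀ i ∈ s, App p (v i) (f i) (g i)) : App p (∑ i ∈ s, v i) (∏ i ∈ s, f i) (∏ i ∈ s, g i) := by
  classical
  induction s using Finset.induction_on with
  | empty => simpa using App.refl Cl.one
  | insert a s ha ih =>
    rw [Finset.sum_insert ha, Finset.prod_insert ha, Finset.prod_insert ha]
    exact (h a (Finset.mem_insert_self _ _)).mul
      (ih fun i hi => h i (Finset.mem_insert_of_mem hi))

lemma App.pow {v : ℤ} {f g : ℚ⟦X⟧} (h : App p v f g) (n : ℕ) :
    App p (n * v) (f ^ n) (g ^ n) := by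
  have := App.prod (Finset.range n) (v := fun _ => v) (f := fun _ => f) (g := fun _ => g)
    (fun _ _ => h)
  simpa using this

lemma App_lin {v v' : ℤ} (h : (p : ℤ) ∣ v + v') : App p 0 (lin v') (-lin v) where
  left := Cl_lin_zero v'
  right := Cl_neg (Cl_lin_zero v)
  diff := by
    have e : lin v' - -lin v = C ((v + v' : ℤ) : ℚ) + C ((2 : ℤ) : ℚ) * X := by
      unfold ZetaSets.lin
      push_cast
      rw [map_add]
      have h2 : (2 : ℚ⟦X⟧) = C (2 : ℚ) := (map_ofNat C 2).symm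
      rw [← h2]
      ring
    rw [e, zero_add]
    exact Cl_dvd h 2

lemma Cl_inv_unit {v : ℤ} (h : ¬ (p : ℤ) ∣ v) : Cl p 1 0 (inv' v) := by
  have hv : v ≠ 0 := by
    rintro rfl
    exact h (dvd_zero _)
  unfold ZetaSets.inv'
  rw [if_neg hv]
  have h0 : padicValInt p v = 0 := padicValInt.eq_zero_of_not_dvd h
  have := Cl_lin_inv (p := p) (Λ := 1) hv (by omega)
  rw [h0] at this
  simpa using this

lemma App_inv {v v' : ℤ} (h : (p : ℤ) ∣ v + v') (hv : ¬ (p : ℤ) ∣ v) :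
    App p 0 (inv' v') (-inv' v) := by
  have hv' : ¬ (p : ℤ) ∣ v' := by
    intro h'
    exact hv ((Int.dvd_iff_dvd_of_dvd_add h).2 h')
  have n1 : v ≠ 0 := by
    rintro rfl
    exact hv (dvd_zero _)
  have n2 : v' ≠ 0 := by
    rintro rfl
    exact hv' (dvd_zero _)
  refine ⟨Cl_inv_unit hv', Cl_neg (Cl_inv_unit hv), ?_⟩
  have m1 : inv' v * lin v = 1 := by rw [ZetaSets.inv'_mul, if_neg n1]
  have m2 : inv' v' * lin v' = 1 := by rw [ZetaSets.inv'_mul, if_neg n2]
  have e : inv' v' - -inv' v = inv' v' * inv' v * (lin v' - -lin v) := by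
    linear_combination inv' v' * (-m1) + inv' v * (-m2)
  rw [e]
  have := ((Cl_inv_unit hv').mul (Cl_inv_unit hv)).mul (App_lin h).diff
  simpa using this

lemma prod_range_Icc {M : Type*} [CommMonoid M] (F : ℤ → M) (x : ℤ) (n : ℕ) :
    ∏ l ∈ Finset.range n, F (x + l) = ∏ v ∈ Finset.Icc x (x + n - 1), F v := by
  refine Finset.prod_bij' (fun (l : ℕ) _ => x + (l : ℤ)) (fun (v : ℤ) _ => (v - x).toNat)
    ?_ ?_ ?_ ?_ ?_
  · intro l hl
    rw [Finset.mem_range] at hl
    rw [Finset.mem_Icc]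
    omega
  · intro v hv
    rw [Finset.mem_Icc] at hv
    rw [Finset.mem_range]
    omega
  · intro l _
    simp
  · intro v hv
    rw [Finset.mem_Icc] at hv
    omega
  · intro l _
    rfl

lemma prod_split_dvd {M : Type*} [CommMonoid M] (F : ℤ → M) (q A B : ℤ) (hq : 0 < q) :
    ∏ v ∈ Finset.Icc A B, F v =
      (∏ l ∈ Finset.Icc ((A - 1) / q + 1) (B / q), F (q * l)) *
        ∏ v ∈ (Finset.Icc A B).filter (fun v => ¬ q ∣ v), F v := by
  classical
  rw [← Finset.prod_filter_mul_prod_filter_not (Finset.Icc A B) (fun v => q ∣ v)]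
  congr 1
  refine Finset.prod_bij' (fun (v : ℤ) _ => v / q) (fun (l : ℤ) _ => q * l) ?_ ?_ ?_ ?_ ?_
  · intro v hv
    rw [Finset.mem_filter, Finset.mem_Icc] at hv
    rw [Finset.mem_Icc]
    obtain ⟨l, rfl⟩ := hv.2
    rw [Int.mul_ediv_cancel_left _ hq.ne']
    constructor
    · have : (A - 1) / q < l := Int.ediv_lt_of_lt_mul hq (by rw [mul_comm]; omega)
      omega
    · exact Int.le_ediv_of_mul_le hq (by rw [mul_comm]; omega)
  · intro l hl
    rw [Finset.mem_Icc] at hl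
    rw [Finset.mem_filter, Finset.mem_Icc]
    refine ⟨⟨?_, ?_⟩, dvd_mul_right _ _⟩
    · have h1 : (A - 1) / q < l := by omega
      have := Int.lt_mul_of_ediv_lt hq h1
      rw [mul_comm] at this
      omega
    · have := Int.mul_le_of_le_ediv hq hl.2
      rw [mul_comm] at this
      omega
  · intro v hv
    rw [Finset.mem_filter] at hv
    exact Int.mul_ediv_cancel' hv.2
  · intro l _
    exact Int.mul_ediv_cancel_left _ hq.ne'
  · intro v hv
    rw [Finset.mem_filter] at hv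
    rw [Int.mul_ediv_cancel' hv.2]

/-- The number of the non-multiples of `q` in an interval. -/
lemma card_not_dvd (q A B : ℤ) (hq : 0 < q) (h : A ≤ B + 1) :
    (((Finset.Icc A B).filter (fun v => ¬ q ∣ v)).card : ℤ) =
      (B + 1 - A) - (B / q - (A - 1) / q) := by
  have h1 := prod_split_dvd (M := Multiplicative ℕ) (fun _ => Multiplicative.ofAdd 1) q A B hq
  rw [Finset.prod_const, Finset.prod_const, Finset.prod_const, ← ofAdd_nsmul, ← ofAdd_nsmul,
    ← ofAdd_nsmul, ← ofAdd_add] at h1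
  have h2 := Multiplicative.ofAdd.injective h1
  simp only [smul_eq_mul, mul_one, Int.card_Icc] at h2
  have h3 : (A - 1) / q ≤ B / q := Int.ediv_le_ediv hq (by omega)
  omega

lemma App_units (F : ℤ → ℚ⟦X⟧)
    (hF : ∀ v v' : ℤ, (p : ℤ) ∣ v + v' → ¬ (p : ℤ) ∣ v → App p 0 (F v') (-F v))
    (A B t : ℤ) :
    App p 0 (∏ v ∈ (Finset.Icc (-B + p * t) (-A + p * t)).filter (fun v => ¬ (p : ℤ) ∣ v), F v)
      ((-1) ^ ((Finset.Icc A B).filter (fun v => ¬ (p : ℤ) ∣ v)).card *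
        ∏ v ∈ (Finset.Icc A B).filter (fun v => ¬ (p : ℤ) ∣ v), F v) := by
  have h1 : ∏ v ∈ (Finset.Icc (-B + p * t) (-A + p * t)).filter (fun v => ¬ (p : ℤ) ∣ v), F v =
      ∏ v ∈ (Finset.Icc A B).filter (fun v => ¬ (p : ℤ) ∣ v), F (p * t - v) := by
    refine Finset.prod_bij' (fun v _ => p * t - v) (fun v _ => p * t - v) ?_ ?_ ?_ ?_ ?_
    · intro v hv
      rw [Finset.mem_filter, Finset.mem_Icc] at hv ⊢
      refine ⟨⟨by omega, by omega⟩, fun h => hv.2 ?_⟩
      have := dvd_sub (dvd_mul_right (p : ℤ) t) h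
      rwa [sub_sub_cancel] at this
    · intro v hv
      rw [Finset.mem_filter, Finset.mem_Icc] at hv ⊢
      refine ⟨⟨by omega, by omega⟩, fun h => hv.2 ?_⟩
      have := dvd_sub (dvd_mul_right (p : ℤ) t) h
      rwa [sub_sub_cancel] at this
    · intro v _
      ring
    · intro v _
      ring
    · intro v _
      rw [sub_sub_cancel]
  rw [h1, ← Finset.prod_neg]
  have := App.prod (p := p) ((Finset.Icc A B).filter (fun v => ¬ (p : ℤ) ∣ v)) (v := fun _ => 0)
    (f := fun v => F (p * t - v)) (g := fun v => -F v) (fun v hv => by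
      rw [Finset.mem_filter] at hv
      apply hF _ _ _ hv.2
      rw [add_sub_cancel]
      exact dvd_mul_right _ _)
  simpa using this

lemma Cl_lin_dvd {c : ℤ} (hc : (p : ℤ) ∣ c) : Cl p 1 1 (lin c) := by
  have := Cl_dvd (p := p) hc 1
  simpa [ZetaSets.lin] using this

/-- Class of a product of multiples of `p`. -/
lemma Cl_mult (x y : ℤ) :
    Cl p 1 ((Finset.Icc x y).card : ℤ) (∏ q ∈ Finset.Icc x y, lin (p * q)) := by
  have := Cl.prod (p := p) (Λ := 1) (Finset.Icc x y) (v := fun _ => 1)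
    (f := fun q => lin (p * q)) (fun q _ => Cl_lin_dvd (dvd_mul_right _ _))
  simpa using this

lemma fnum_eq (P : Par) (j : Fin P.r) (k : ℤ) : fnum P j k =
    (∏ v ∈ Finset.Icc (1 - (P.g j : ℤ) - k) (P.a j - k), lin v) *
      (∏ v ∈ Finset.Icc ((P.h : ℤ) - P.a j - k) (P.h - 1 + P.g j - k), lin v) *
      C (1 / ((P.g j + P.a j)! : ℚ) ^ 2) := by
  have e1 : (∏ l ∈ Finset.range (P.g j + P.a j), lin ((l : ℤ) + 1 - P.g j - k)) =
      ∏ v ∈ Finset.Icc (1 - (P.g j : ℤ) - k) (P.a j - k), lin v := by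
    have := prod_range_Icc lin (1 - (P.g j : ℤ) - k) (P.g j + P.a j)
    have e : 1 - (P.g j : ℤ) - k + ((P.g j + P.a j : ℕ) : ℤ) - 1 = P.a j - k := by
      push_cast
      ring
    rw [e] at this
    rw [← this]
    exact Finset.prod_congr rfl fun l _ => by congr 1; ring
  have e2 : (∏ l ∈ Finset.range (P.g j + P.a j), lin ((P.h : ℤ) + P.g j - (l + 1) - k)) =
      ∏ v ∈ Finset.Icc ((P.h : ℤ) - P.a j - k) (P.h - 1 + P.g j - k), lin v := by
    have := prod_range_Icc lin ((P.h : ℤ) - P.a j - k) (P.g j + P.a j)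
    have e : (P.h : ℤ) - P.a j - k + ((P.g j + P.a j : ℕ) : ℤ) - 1 = P.h - 1 + P.g j - k := by
      push_cast
      ring
    rw [e] at this
    rw [← this, ← Finset.prod_range_reflect]
    refine Finset.prod_congr rfl fun l hl => ?_
    have := Finset.mem_range.1 hl
    congr 1
    omega
  unfold fnum
  rw [e1, e2]

lemma App_fnum (P : Par) (j : Fin P.r) {k k' : ℤ} (hgh : P.g j + P.a j ≤ P.h)
    (hh : 2 * (P.h : ℤ) < (p : ℤ) ^ 2) (hd : (p : ℤ) ∣ P.h - k - k')
    (ha : (k - 1 - P.a j) / (p : ℤ) = (k' - 1 - P.a j) / p)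
    (hg : (k - 1 + P.g j) / (p : ℤ) = (k' - 1 + P.g j) / p) :
    App p (((k - 1 + P.g j) / p - (k - 1 - P.a j) / p - ((P.g j : ℤ) + P.a j) / p) +
      ((P.h - k - 1 + P.g j) / p - (P.h - k - 1 - P.a j) / p - ((P.g j : ℤ) + P.a j) / p))
      (fnum P j k') (fnum P j k) := by
  have hq : (0 : ℤ) < p := by exact_mod_cast hp.out.pos
  have h0 : (0 : ℚ) < p := by exact_mod_cast hp.out.pos
  obtain ⟨t, ht⟩ := hd
  -- the floors
  have a1 : (1 - (P.g j : ℤ) - k - 1) / p = -((k - 1 + P.g j) / p) - 1 := by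
    have := neg_ediv_eq hq (k + P.g j)
    rw [show (1 - (P.g j : ℤ) - k - 1 : ℤ) = -(k + P.g j) by ring, this,
      show k + (P.g j : ℤ) - 1 = k - 1 + P.g j by ring]
  have a1' : (1 - (P.g j : ℤ) - k' - 1) / p = -((k - 1 + P.g j) / p) - 1 := by
    have := neg_ediv_eq hq (k' + P.g j)
    rw [show (1 - (P.g j : ℤ) - k' - 1 : ℤ) = -(k' + P.g j) by ring, this,
      show k' + (P.g j : ℤ) - 1 = k' - 1 + P.g j by ring, hg]
  have a2 : ((P.a j : ℤ) - k) / p = -((k - 1 - P.a j) / p) - 1 := by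
    have := neg_ediv_eq hq (k - P.a j)
    rw [show ((P.a j : ℤ) - k) = -(k - P.a j) by ring, this,
      show k - (P.a j : ℤ) - 1 = k - 1 - P.a j by ring]
  have a2' : ((P.a j : ℤ) - k') / p = -((k - 1 - P.a j) / p) - 1 := by
    have := neg_ediv_eq hq (k' - P.a j)
    rw [show ((P.a j : ℤ) - k') = -(k' - P.a j) by ring, this,
      show k' - (P.a j : ℤ) - 1 = k' - 1 - P.a j by ring, ha]
  have a3 : ((P.h : ℤ) - P.a j - k - 1) / p = (k - 1 - P.a j) / p + t := by
    rw [show (P.h : ℤ) - P.a j - k - 1 = (k' - 1 - P.a j) + p * t by omega,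
      Int.add_mul_ediv_left _ _ hq.ne', ha]
  have a3' : ((P.h : ℤ) - P.a j - k' - 1) / p = (k - 1 - P.a j) / p + t := by
    rw [show (P.h : ℤ) - P.a j - k' - 1 = (k - 1 - P.a j) + p * t by omega,
      Int.add_mul_ediv_left _ _ hq.ne']
  have a4 : ((P.h : ℤ) - 1 + P.g j - k) / p = (k - 1 + P.g j) / p + t := by
    rw [show (P.h : ℤ) - 1 + P.g j - k = (k' - 1 + P.g j) + p * t by omega,
      Int.add_mul_ediv_left _ _ hq.ne', hg]
  have a4' : ((P.h : ℤ) - 1 + P.g j - k') / p = (k - 1 + P.g j) / p + t := by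
    rw [show (P.h : ℤ) - 1 + P.g j - k' = (k - 1 + P.g j) + p * t by omega,
      Int.add_mul_ediv_left _ _ hq.ne']
  have a5 : ((P.h : ℤ) - k - 1 + P.g j) / p = (k - 1 + P.g j) / p + t := by
    rw [← a4]
    congr 1
    ring
  have a6 : ((P.h : ℤ) - k - 1 - P.a j) / p = (k - 1 - P.a j) / p + t := by
    rw [← a3]
    congr 1
    ring
  have mono : (k - 1 - (P.a j : ℤ)) / p ≤ (k - 1 + P.g j) / p := Int.ediv_le_ediv hq (by omega)
  -- the cardinalities
  have c1 := card_not_dvd (p : ℤ) (1 - (P.g j : ℤ) - k) (P.a j - k) hq (by omega)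
  have c2 := card_not_dvd (p : ℤ) ((P.h : ℤ) - P.a j - k) (P.h - 1 + P.g j - k) hq (by omega)
  rw [a1, a2] at c1
  rw [a3, a4] at c2
  have hcard : ((Finset.Icc (1 - (P.g j : ℤ) - k) (P.a j - k)).filter
      (fun v => ¬ (p : ℤ) ∣ v)).card = ((Finset.Icc ((P.h : ℤ) - P.a j - k)
      (P.h - 1 + P.g j - k)).filter (fun v => ¬ (p : ℤ) ∣ v)).card := by omega
  -- the units
  have u1 := App_units (p := p) lin (fun v v' h _ => App_lin h) (1 - (P.g j : ℤ) - k) (P.a j - k) t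
  have u2 := App_units (p := p) lin (fun v v' h _ => App_lin h) ((P.h : ℤ) - P.a j - k)
    (P.h - 1 + P.g j - k) t
  rw [show -((P.a j : ℤ) - k) + p * t = P.h - P.a j - k' by omega,
    show -(1 - (P.g j : ℤ) - k) + p * t = P.h - 1 + P.g j - k' by omega] at u1
  rw [show -((P.h : ℤ) - 1 + P.g j - k) + p * t = 1 - P.g j - k' by omega,
    show -((P.h : ℤ) - P.a j - k) + p * t = P.a j - k' by omega, ← hcard] at u2
  -- the multiples
  have m1 := Cl_mult (p := p) (-((k - 1 + P.g j) / p) - 1 + 1) (-((k - 1 - P.a j) / p) - 1)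
  have m2 := Cl_mult (p := p) ((k - 1 - P.a j) / p + t + 1) ((k - 1 + P.g j) / p + t)
  rw [Int.card_Icc] at m1 m2
  have h3 : Cl p 1 (-2 * (((P.g j : ℤ) + P.a j) / p)) (C (1 / ((P.g j + P.a j)! : ℚ) ^ 2)) := by
    apply Cl_C
    have hlt : P.g j + P.a j < p ^ (1 + 1) := by
      zify
      have h3 : (p : ℤ) ^ (1 + 1) = (p : ℤ) ^ 2 := by norm_num
      omega
    have h4 := fact_norm (p := p) hlt
    rw [padicNorm.div, padicNorm.one, pow_two, padicNorm.mul, h4, ← zpow_add₀ h0.ne', one_div,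
      ← zpow_neg]
    apply le_of_eq
    congr 1
    simp
    ring
  have tot := (((App.refl m1).mul u2).mul ((App.refl m2).mul u1)).mul (App.refl h3)
  rw [fnum_eq P j k', fnum_eq P j k,
    prod_split_dvd lin (p : ℤ) (1 - (P.g j : ℤ) - k') (P.a j - k') hq,
    prod_split_dvd lin (p : ℤ) (1 - (P.g j : ℤ) - k) (P.a j - k) hq,
    prod_split_dvd lin (p : ℤ) ((P.h : ℤ) - P.a j - k') (P.h - 1 + P.g j - k') hq,
    prod_split_dvd lin (p : ℤ) ((P.h : ℤ) - P.a j - k) (P.h - 1 + P.g j - k) hq,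
    a1, a1', a2, a2', a3, a3', a4, a4', a5, a6]
  have sq : ∀ N : ℕ, ((-1 : ℚ⟦X⟧)) ^ N * (-1) ^ N = 1 := by
    intro N
    rw [← mul_pow]
    simp
  convert tot using 1
  · omega
  · have := sq ((Finset.Icc (1 - (P.g j : ℤ) - k) (P.a j - k)).filter
      (fun v => ¬ (p : ℤ) ∣ v)).card
    linear_combination (-(∏ l ∈ Finset.Icc (-((k - 1 + P.g j) / (p : ℤ)) - 1 + 1)
        (-((k - 1 - P.a j) / (p : ℤ)) - 1), lin (p * l)) *
      (∏ v ∈ (Finset.Icc (1 - (P.g j : ℤ) - k) (P.a j - k)).filter (fun v => ¬ (p : ℤ) ∣ v),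
        lin v) *
      (∏ l ∈ Finset.Icc ((k - 1 - P.a j) / (p : ℤ) + t + 1) ((k - 1 + P.g j) / (p : ℤ) + t),
        lin (p * l)) *
      (∏ v ∈ (Finset.Icc ((P.h : ℤ) - P.a j - k) (P.h - 1 + P.g j - k)).filter
        (fun v => ¬ (p : ℤ) ∣ v), lin v) * C (1 / ((P.g j + P.a j)! : ℚ) ^ 2)) * this

lemma Cl_mult_inv (x y : ℤ) (hxy : ∀ q ∈ Finset.Icc x y, |(p : ℤ) * q| < (p : ℤ) ^ (1 + 1)) :
    Cl p 1 (1 - ((Finset.Icc x y).card : ℤ)) ((∏ q ∈ Finset.Icc x y, inv' (p * q)) *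
      (if x ≤ 0 ∧ 0 ≤ y then 1 else X)) := by
  have hq : (0 : ℤ) < p := by exact_mod_cast hp.out.pos
  have h1 := Cl.prod (p := p) (Λ := 1) (Finset.Icc x y)
    (v := fun q => -1 + if q = 0 then (1 : ℤ) else 0)
    (f := fun q => inv' (p * q)) (fun q hqm => by
      by_cases h : q = 0
      · subst h
        simp only [ZetaSets.inv', mul_zero, if_true]
        simpa using (Cl.one (p := p) (Λ := 1))
      · have hne : (p : ℤ) * q ≠ 0 := mul_ne_zero hq.ne' h
        have := ord_le hne (hxy q hqm)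
        simp only [ZetaSets.inv', if_neg hne, if_neg h, add_zero]
        exact (Cl_lin_inv hne this).mono (by omega))
  rw [Finset.sum_add_distrib, Finset.sum_const, Finset.sum_ite_eq', nsmul_eq_mul, mul_neg_one] at h1
  simp only [Finset.mem_Icc] at h1
  split_ifs at h1 ⊢ with h
  · have := h1.mul (Cl.one (p := p) (Λ := 1))
    convert this using 1
    omega
  · have := h1.mul (Cl_X (p := p) (Λ := 1))
    convert this using 1
    omega

lemma fden_eq (P : Par) (i : Fin P.s) (k : ℤ) (hb : 2 * P.b i ≤ P.h) : fden P i k =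
    C (((P.h - 2 * P.b i)! : ℕ) : ℚ) *
      (∏ v ∈ Finset.Icc ((P.b i : ℤ) - k) (P.h - P.b i - k), inv' v) *
      (if (P.b i : ℤ) ≤ k ∧ k ≤ P.h - P.b i then 1 else X) := by
  have e1 : (∏ l ∈ Finset.range (P.h - 2 * P.b i + 1), inv' ((P.b i : ℤ) + l - k)) =
      ∏ v ∈ Finset.Icc ((P.b i : ℤ) - k) (P.h - P.b i - k), inv' v := by
    have := prod_range_Icc inv' ((P.b i : ℤ) - k) (P.h - 2 * P.b i + 1)
    have e : (P.b i : ℤ) - k + ((P.h - 2 * P.b i + 1 : ℕ) : ℤ) - 1 = P.h - P.b i - k := by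
      push_cast [hb]
      ring
    rw [e] at this
    rw [← this]
    exact Finset.prod_congr rfl fun l _ => by congr 1; ring
  unfold fden
  rw [e1]

lemma App_fden (P : Par) (i : Fin P.s) {k k' t : ℤ} (hk0 : 0 ≤ k) (hk1 : k ≤ P.h)
    (hb : 2 * P.b i ≤ P.h) (heven : Even P.h)
    (hh : 2 * (P.h : ℤ) < (p : ℤ) ^ 2) (ht : P.h - k - k' = p * t)
    (hbk : (k - P.b i) / (p : ℤ) = (k' - P.b i) / p) :
    App p (((P.h : ℤ) - 2 * P.b i) / p - (k - P.b i) / p - (P.h - P.b i - k) / p)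
      (fden P i k') ((-1) ^ t.natAbs * fden P i k) := by
  have hq : (0 : ℤ) < p := by exact_mod_cast hp.out.pos
  have h0 : (0 : ℚ) < p := by exact_mod_cast hp.out.pos
  -- the floors
  have a1 : ((P.b i : ℤ) - k - 1) / p = -((k - P.b i) / p) - 1 := by
    have := neg_ediv_eq hq (k - P.b i + 1)
    rw [show ((P.b i : ℤ) - k - 1) = -(k - P.b i + 1) by ring, this,
      show k - (P.b i : ℤ) + 1 - 1 = k - P.b i by ring]
  have a1' : ((P.b i : ℤ) - k' - 1) / p = -((k - P.b i) / p) - 1 := by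
    have := neg_ediv_eq hq (k' - P.b i + 1)
    rw [show ((P.b i : ℤ) - k' - 1) = -(k' - P.b i + 1) by ring, this,
      show k' - (P.b i : ℤ) + 1 - 1 = k' - P.b i by ring, hbk]
  have a2 : ((P.h : ℤ) - P.b i - k) / p = (k - P.b i) / p + t := by
    rw [show (P.h : ℤ) - P.b i - k = (k' - P.b i) + p * t by omega,
      Int.add_mul_ediv_left _ _ hq.ne', hbk]
  have a2' : ((P.h : ℤ) - P.b i - k') / p = (k - P.b i) / p + t := by
    rw [show (P.h : ℤ) - P.b i - k' = (k - P.b i) + p * t by omega,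
      Int.add_mul_ediv_left _ _ hq.ne']
  have mono : ((P.b i : ℤ) - k - 1) / p ≤ ((P.h : ℤ) - P.b i - k) / p :=
    Int.ediv_le_ediv hq (by omega)
  -- the conditions
  have b1 : ((P.b i : ℤ) ≤ k ∧ k ≤ P.h - P.b i) ↔
      (-((k - P.b i) / (p : ℤ)) - 1 + 1 ≤ 0 ∧ 0 ≤ (k - P.b i) / (p : ℤ) + t) := by
    rw [← a2]
    constructor
    · rintro ⟨h1, h2⟩
      have e1 : 0 ≤ (k - P.b i) / (p : ℤ) := Int.ediv_nonneg (by omega) hq.le
      have e2 : 0 ≤ ((P.h : ℤ) - P.b i - k) / (p : ℤ) := Int.ediv_nonneg (by omega) hq.le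
      omega
    · rintro ⟨h1, h2⟩
      constructor
      · by_contra hcon
        have := Int.ediv_neg_of_neg_of_pos (a := k - P.b i) (b := p) (by omega) hq
        omega
      · by_contra hcon
        have := Int.ediv_neg_of_neg_of_pos (a := P.h - P.b i - k) (b := p) (by omega) hq
        omega
  have b1' : ((P.b i : ℤ) ≤ k' ∧ k' ≤ P.h - P.b i) ↔
      (-((k - P.b i) / (p : ℤ)) - 1 + 1 ≤ 0 ∧ 0 ≤ (k - P.b i) / (p : ℤ) + t) := by
    rw [← a2']
    constructor
    · rintro ⟨h1, h2⟩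
      have e1 : 0 ≤ (k' - P.b i) / (p : ℤ) := Int.ediv_nonneg (by omega) hq.le
      have e2 : 0 ≤ ((P.h : ℤ) - P.b i - k') / (p : ℤ) := Int.ediv_nonneg (by omega) hq.le
      omega
    · rintro ⟨h1, h2⟩
      constructor
      · by_contra hcon
        have := Int.ediv_neg_of_neg_of_pos (a := k' - P.b i) (b := p) (by omega) hq
        omega
      · by_contra hcon
        have := Int.ediv_neg_of_neg_of_pos (a := P.h - P.b i - k') (b := p) (by omega) hq
        omega
  -- the cardinality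
  have c1 := card_not_dvd (p : ℤ) ((P.b i : ℤ) - k) (P.h - P.b i - k) hq (by omega)
  rw [a1, a2] at c1
  rw [a1, a2] at mono
  -- the units
  have u1 := App_units (p := p) inv' (fun v v' h h' => App_inv h h') ((P.b i : ℤ) - k)
    (P.h - P.b i - k) t
  rw [show -((P.h : ℤ) - P.b i - k) + p * t = P.b i - k' by omega,
    show -((P.b i : ℤ) - k) + p * t = P.h - P.b i - k' by omega] at u1
  -- the sign
  have sg : ((-1 : ℚ⟦X⟧)) ^ ((Finset.Icc ((P.b i : ℤ) - k) (P.h - P.b i - k)).filter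
      (fun v => ¬ (p : ℤ) ∣ v)).card = (-1) ^ t.natAbs := by
    apply neg_one_pow_congr
    obtain ⟨w, hw⟩ := heven
    rw [← Int.even_coe_nat, c1, Int.natAbs_even]
    rw [hw]
    push_cast
    constructor
    · rintro ⟨y, hy⟩
      exact ⟨(w : ℤ) - P.b i - y - (k - P.b i) / p, by omega⟩
    · rintro ⟨y, hy⟩
      exact ⟨(w : ℤ) - P.b i - y - (k - P.b i) / p, by omega⟩
  rw [sg] at u1
  -- the multiples
  have m1 := Cl_mult_inv (p := p) (-((k - P.b i) / (p : ℤ)) - 1 + 1) ((k - P.b i) / (p : ℤ) + t)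
    (by
      intro q hqm
      rw [Finset.mem_Icc, ← a1, ← a2] at hqm
      have h1 : ((P.b i : ℤ) - k - 1) / p < q := by omega
      have h2 := Int.lt_mul_of_ediv_lt hq h1
      have h3 := Int.mul_le_of_le_ediv hq hqm.2
      rw [mul_comm] at h2 h3
      have h4 : (p : ℤ) ^ (1 + 1) = (p : ℤ) ^ 2 := by norm_num
      rw [h4, abs_lt]
      constructor <;> omega)
  rw [Int.card_Icc] at m1
  -- the factorial
  have h3 : Cl p 1 (((P.h : ℤ) - 2 * P.b i) / p) (C (((P.h - 2 * P.b i)! : ℕ) : ℚ)) := by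
    apply Cl_C
    have ha : P.h - 2 * P.b i < p ^ (1 + 1) := by
      zify [hb]
      have h3 : (p : ℤ) ^ (1 + 1) = (p : ℤ) ^ 2 := by norm_num
      omega
    rw [fact_norm (p := p) ha]
    apply le_of_eq
    congr 2
    simp
    push_cast [hb]
    rfl
  have tot := ((App.refl h3).mul u1).mul (App.refl m1)
  rw [fden_eq P i k' hb, fden_eq P i k hb,
    prod_split_dvd inv' (p : ℤ) ((P.b i : ℤ) - k') (P.h - P.b i - k') hq,
    prod_split_dvd inv' (p : ℤ) ((P.b i : ℤ) - k) (P.h - P.b i - k) hq,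
    a1, a1', a2, a2']
  simp only [b1, b1']
  convert tot using 1
  · omega
  · ring
  · ring

/-- The leading parts of the expansions at the two poles of a central class cancel. -/
theorem Cl_cen (P : Par) {a0 b0 : ℕ} (hP : Good P a0 b0) (d : ℕ) {k k' : ℤ} (hk : k ∈ Sk P b0)
    (hc : Cen P p k k') (hh : 2 * (P.h : ℤ) < (p : ℤ) ^ 2) :
    Cl p 1 (phi P p k + 1) (fser P d k + fser P d k') := by
  have hk' : (b0 : ℤ) ≤ k ∧ k ≤ P.h - b0 := by
    unfold Sk at hk
    rwa [Finset.mem_Icc] at hk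
  obtain ⟨t, ht⟩ := hc.dvd
  have h1 : App p 0 (C (((P.h : ℤ) - 2 * k' : ℤ) : ℚ) + 2 * X)
      (-(C (((P.h : ℤ) - 2 * k : ℤ) : ℚ) + 2 * X)) := by
    refine ⟨Cl_int _, Cl_neg (Cl_int _), ?_⟩
    have e : C (((P.h : ℤ) - 2 * k' : ℤ) : ℚ) + 2 * X -
        -(C (((P.h : ℤ) - 2 * k : ℤ) : ℚ) + 2 * X) =
        C (((p : ℤ) * (2 * t) : ℤ) : ℚ) + C ((4 : ℤ) : ℚ) * (X : ℚ⟦X⟧) := by
      have e1 : (((p : ℤ) * (2 * t) : ℤ) : ℚ) = (((P.h : ℤ) - 2 * k' : ℤ) : ℚ) +
          (((P.h : ℤ) - 2 * k : ℤ) : ℚ) := by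
        rw [← Int.cast_add]
        congr 1
        linarith
      have h2 : ((4 : ℤ) : ℚ) = 2 + 2 := by norm_num
      have h3 : (2 : ℚ⟦X⟧) = C (2 : ℚ) := (map_ofNat C 2).symm
      rw [e1, h2, map_add, map_add, ← h3]
      ring
    rw [e, zero_add]
    exact Cl_dvd (dvd_mul_right _ _) 4
  have h2 : App p 0 ((lin (-k') * lin ((P.h : ℤ) - k')) ^ d)
      ((lin (-k) * lin ((P.h : ℤ) - k)) ^ d) := by
    have e1 : App p 0 (lin (-k')) (-lin ((P.h : ℤ) - k)) :=
      App_lin (by rw [show (P.h : ℤ) - k + -k' = p * t by omega]; exact dvd_mul_right _ _)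
    have e2 : App p 0 (lin ((P.h : ℤ) - k')) (-lin (-k)) :=
      App_lin (by rw [show -k + ((P.h : ℤ) - k') = p * t by omega]; exact dvd_mul_right _ _)
    have := (e1.mul e2).pow d
    rw [neg_mul_neg, mul_comm (lin ((P.h : ℤ) - k)) (lin (-k))] at this
    simpa using this
  have h3 := App.prod (p := p) Finset.univ (f := fun j => fnum P j k')
    (g := fun j => fnum P j k) (v := fun j =>
      (((k - 1 + P.g j) / p - (k - 1 - P.a j) / p - ((P.g j : ℤ) + P.a j) / p) +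
      ((P.h - k - 1 + P.g j) / p - (P.h - k - 1 - P.a j) / p - ((P.g j : ℤ) + P.a j) / p)))
    (fun j _ => App_fnum P j (hP.gle j) hh hc.dvd (hc.ha j) (hc.hg j))
  have h4 := App.prod (p := p) Finset.univ (f := fun i => fden P i k')
    (g := fun i => (-1) ^ t.natAbs * fden P i k) (v := fun i =>
      (((P.h : ℤ) - 2 * P.b i) / p - (k - P.b i) / p - (P.h - P.b i - k) / p))
    (fun i _ => App_fden P i (by omega) (by omega) (hP.b2 i) hP.heven hh ht (hc.hb i))
  rw [Finset.prod_mul_distrib, Finset.prod_const, Finset.card_univ, Fintype.card_fin, ← pow_mul,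
    mul_comm t.natAbs, pow_mul, hP.seven.neg_one_pow, one_pow, one_mul] at h4
  have h5 := (((h1.mul h2).mul h3).mul h4).diff
  unfold ZG.phi
  unfold fser
  convert h5 using 1
  · ring
  · ring

end

end ZG
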