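import Pool.Agent.Work.MP_4f096c_nt.GMain2
import Pool.Agent.Work.MP_4f096c_nt.GFinal

/-!
Final statement for a family given by certificate data, with the improved exponents
(`Expo2`) and for at least three numerator blocks.
-/

namespace ZetaCert

open Filter

/-- the structural conditions, as a check -/
def okMB3 (D : Dat) : Bool :=
  (decide (D.A.length % 2 = 1) && decide (3 ≤ D.A.length)) &&
  (decide (D.B.length % 2 = 0) && decide (D.η % 2 = 0)) &&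
  (D.A.all (fun e => decide (e.1 ≤ D.b0) && decide (e.2 + e.1 ≤ D.η))) &&
  decide ((D.A.map fun e => 2 * (e.2 + e.1)).sum < (D.B.map fun b => D.η - 2 * b).sum)

theorem okM3 {D : Dat} (hD : D.Ok) (h : okMB3 D = true) : D.fam.OkM3 D.a0 D.b0 := by
  unfold okMB3 at h
  simp only [Bool.and_eq_true, List.all_eq_true, decide_eq_true_eq] at h
  obtain ⟨⟨⟨⟨h1, h2⟩, h3, h4⟩, h5⟩, h6⟩ := h
  refine ⟨Nat.odd_iff.2 h1, h2, Nat.even_iff.2 h3, Nat.even_iff.2 h4, ?_, ?_, ?_, ?_, ?_, ?_, ?_, ?_⟩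
  · exact fun j => hD.a0le _ (List.getElem_mem _)
  · obtain ⟨e, he, h7⟩ := hD.a0mem
    obtain ⟨j, hj, h8⟩ := List.mem_iff_getElem.1 he
    refine ⟨⟨j, hj⟩, ?_⟩
    show D.A[j].1 = D.a0
    rw [h8, h7]
  · exact fun j => (h5 _ (List.getElem_mem _)).1
  · exact fun i => hD.b0le _ (List.getElem_mem _)
  · obtain ⟨j, hj, h8⟩ := List.mem_iff_getElem.1 hD.b0mem
    refine ⟨⟨j, hj⟩, ?_⟩
    show D.B[j] = D.b0
    rw [h8]
  · exact fun i => hD.hB _ (List.getElem_mem _)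
  · exact fun j => (h5 _ (List.getElem_mem _)).2
  · have e1 := sum_getElem D.A (fun e => 2 * (e.2 + e.1))
    have e2 := sum_getElem D.B (fun b => D.η - 2 * b)
    show ∑ j : Fin D.A.length, 2 * (D.A[j.1].2 + D.A[j.1].1) <
      ∑ i : Fin D.B.length, (D.η - 2 * D.B[i.1])
    rw [e1, e2]
    exact h6

/-- **The final criterion** (improved exponents, `3 ≤ r`). -/
theorem final2 {D : Dat} (hD : D.Ok) (h : okMB3 D = true) {C0 C2 : ℝ} (hC : C2 < C0)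
    (hcert : ∃ e : ℕ → ℕ → ℕ,
      (∀ᶠ n : ℕ in Filter.atTop, ∀ p : ℕ, p.Prime → 2 * (D.fam.par n).h < p * p →
        p ≤ (D.fam.par n).h →
        ZG.Expo2 (D.fam.par n) (D.a0 * n) (D.b0 * n + 1) p (e n p)) ∧
      (∀ᶠ n : ℕ in Filter.atTop, ∑ p ∈ (Finset.range ((D.fam.par n).h + 1)).filter
        (fun p => p.Prime ∧ 2 * (D.fam.par n).h < p * p), (e n p : ℝ) * Real.log p ≤ C2 * n))
    (hb : ∀ d, ∀ᶠ n : ℕ in Filter.atTop, ‖ZG.Lf (D.fam.par n) d 0‖ ≤ Real.exp (-C0 * n)) :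
    ∃ k : ℕ, Odd k ∧ D.A.length + 2 ≤ k ∧ k ≤ D.A.length + D.B.length - 2 ∧
      Irrational (∑' n : ℕ, 1 / ((n : ℝ) + 1) ^ k) := by
  obtain ⟨e, hE, hsum⟩ := hcert
  have hM := okM3 hD h
  obtain ⟨i, hi, hirr⟩ := ZG.main2 D.fam hM hC hb e hE hsum
  obtain ⟨s2, hs2⟩ := hM.seven
  obtain ⟨r2, hr2⟩ := hM.rodd
  have e1 : D.fam.s = D.B.length := rfl
  have e2 : D.fam.r = D.A.length := rfl
  rw [e1] at hs2 hi
  rw [e2] at hr2
  refine ⟨2 * (i + 1) + D.fam.r, ⟨i + 1 + r2, ?_⟩, ?_, ?_, hirr⟩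
  · rw [e2]; omega
  · rw [e2]; omega
  · rw [e2]; omega

end ZetaCert
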