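import Pool.Agent.Work.MP_4f096c_nt.GRat

/-!
A common denominator of the coefficients of the linear forms.
-/

namespace ZG

open ZetaSets (Cl lin Cl_lin Cl_lin_zero Cl_lin_inv Cl_X Cl_C Cl_int ord_le ord_eq_sum fact_norm
  inv' rat_int_of_norm norm_inv_pow_le norm_nat_mul_le)

open PowerSeries
open scoped Nat

section

variable {p Λ : ℕ} [hp : Fact p.Prime]

lemma Cl_mid (P : Par) {a0 b0 : ℕ} (hP : Good P a0 b0) (d : ℕ) (k : ℤ) (hk : k ∈ Sk P b0)
    (hh : 2 * (P.h : ℤ) < (p : ℤ) ^ 2) (h1 : k < (p : ℤ) + a0 + 1)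
    (h2 : (P.h : ℤ) - k < (p : ℤ) + a0 + 1) :
    Cl p 0 ((∑ i, ((P.h : ℤ) - 2 * P.b i) / p) - 2 * ∑ j, ((P.g j : ℤ) + P.a j) / p) (fser P d k) := by
  have hk' : (b0 : ℤ) ≤ k ∧ k ≤ P.h - b0 := by
    unfold Sk at hk
    rwa [Finset.mem_Icc] at hk
  have hab : a0 < b0 := by
    obtain ⟨j, hj⟩ := hP.a0mem
    have := hP.alt j
    omega
  have h0 : (0 : ℚ) < p := by exact_mod_cast hp.out.pos
  have g1 : Cl p 0 0 (C (((P.h : ℤ) - 2 * k : ℤ) : ℚ) + 2 * X) := Cl_int _
  have g2 : Cl p 0 0 ((lin (-k) * lin ((P.h : ℤ) - k)) ^ d) := by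
    have := ((Cl_lin_zero (p := p) (Λ := 0) (-k)).mul (Cl_lin_zero ((P.h : ℤ) - k))).pow d
    simpa using this
  have prod0 : ∀ (n : ℕ) (f : ℕ → ℤ), Cl p 0 0 (∏ l ∈ Finset.range n, lin (f l)) := by
    intro n f
    have := Cl.prod (p := p) (Λ := 0) (Finset.range n) (v := fun _ => 0) (f := fun l => lin (f l))
      (fun l _ => Cl_lin_zero (f l))
    simpa using this
  have g3 : Cl p 0 (∑ j, (-2 * (((P.g j : ℤ) + P.a j) / p))) (∏ j, fnum P j k) := by
    apply Cl.prod
    intro j _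
    have ha : P.g j + P.a j < p ^ (1 + 1) := by
      have := hP.gle j
      zify
      have h3 : (p : ℤ) ^ (1 + 1) = (p : ℤ) ^ 2 := by norm_num
      omega
    have h3 : Cl p 0 (-2 * (((P.g j : ℤ) + P.a j) / p)) (C (1 / ((P.g j + P.a j)! : ℚ) ^ 2)) := by
      apply Cl_C
      have h4 := fact_norm (p := p) ha
      rw [padicNorm.div, padicNorm.one, pow_two, padicNorm.mul, h4, ← zpow_add₀ h0.ne', one_div,
        ← zpow_neg]
      apply le_of_eq
      congr 1
      simp
      ring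
    unfold fnum
    have := ((prod0 (P.g j + P.a j) (fun l => (l : ℤ) + 1 - P.g j - k)).mul
      (prod0 (P.g j + P.a j) (fun l => (P.h : ℤ) + P.g j - (l + 1) - k))).mul h3
    simpa using this
  have g4 : Cl p 0 (∑ i, (((P.h : ℤ) - 2 * P.b i) / p)) (∏ i, fden P i k) := by
    apply Cl.prod
    intro i _
    have hb := hP.b2 i
    have hb0 := hP.b0le i
    have h3 : Cl p 0 (((P.h : ℤ) - 2 * P.b i) / p) (C (((P.h - 2 * P.b i)! : ℕ) : ℚ)) := by
      apply Cl_C
      have ha : P.h - 2 * P.b i < p ^ (1 + 1) := by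
        zify [hb]
        have h3 : (p : ℤ) ^ (1 + 1) = (p : ℤ) ^ 2 := by norm_num
        omega
      rw [fact_norm (p := p) ha]
      apply le_of_eq
      congr 2
      simp
      push_cast [hb]
      rfl
    have h4 : Cl p 0 0 (∏ l ∈ Finset.range (P.h - 2 * P.b i + 1), inv' ((P.b i : ℤ) + l - k)) := by
      have : Cl p 0 (∑ l ∈ Finset.range (P.h - 2 * P.b i + 1), 0)
          (∏ l ∈ Finset.range (P.h - 2 * P.b i + 1), inv' ((P.b i : ℤ) + l - k)) := by
        apply Cl.prod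
        intro l hl
        have hl' := Finset.mem_range.1 hl
        unfold inv'
        split_ifs with hc
        · exact Cl.one
        · have hlt : |(P.b i : ℤ) + l - k| < (p : ℤ) ^ (0 + 1) := by
            rw [abs_lt, zero_add, pow_one]
            constructor <;> omega
          have h5 : padicValInt p ((P.b i : ℤ) + l - k) = 0 := by
            have := ord_le (p := p) (Λ := 0) hc hlt
            omega
          have := Cl_lin_inv (p := p) (Λ := 0) hc h5.le
          rw [h5] at this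
          simpa using this
      simpa using this
    have h5 : Cl p 0 0 (if (P.b i : ℤ) ≤ k ∧ k ≤ P.h - P.b i then 1 else X : ℚ⟦X⟧) := by
      split_ifs
      · exact Cl.one
      · simpa using Cl_X (p := p) (Λ := 0)
    have := (h3.mul h4).mul h5
    unfold fden
    simpa only [add_zero] using this
  have h5 := ((g1.mul g2).mul g3).mul g4
  unfold fser
  convert h5 using 1
  rw [← Finset.mul_sum]
  ring

/-- The exponent of the prime `p` in the common denominator. -/
def pex (P : Par) (e : ℕ → ℕ) (p : ℕ) : ℕ :=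
  if p * p ≤ 2 * P.h then Nat.log p (2 * P.h) * (P.r + P.s - 1) else if p ≤ P.h then e p else 0

/-- The common denominator. -/
def EE (P : Par) (e : ℕ → ℕ) : ℕ := ∏ p ∈ (Finset.range (P.h + 1)).filter Nat.Prime, p ^ pex P e p

lemma term_bound (P : Par) {a0 b0 : ℕ} (hP : Good P a0 b0) (e : ℕ → ℕ)
    (hE : ∀ p, p.Prime → 2 * P.h < p * p → p ≤ P.h → Expo P a0 b0 p (e p)) (d : ℕ) (k : ℤ)
    (hk : k ∈ Sk P b0) (j : ℕ) (hj : j < P.s) (x : ℚ)
    (hx : x = 1 ∨ ∃ l < k.toNat - a0 - 1, x = 1 / ((l : ℚ) + 1) ^ (j + P.r)) :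
    padicNorm p (coeff (P.s - 1 - j) (fser P d k) * x) ≤ (p : ℚ) ^ (pex P e p : ℤ) := by
  have hp1 : (1 : ℚ) ≤ p := by exact_mod_cast hp.out.one_lt.le
  have hp0 : (0 : ℚ) < p := by linarith
  have hk' : (b0 : ℤ) ≤ k ∧ k ≤ P.h - b0 := by
    unfold Sk at hk
    rwa [Finset.mem_Icc] at hk
  have hsub : ((P.s - 1 - j : ℕ) : ℤ) = (P.s : ℤ) - 1 - j := by omega
  have hr1 : 1 ≤ P.r := by have := hP.r3; omega
  have hrs : ((P.r + P.s - 1 : ℕ) : ℤ) = (P.r : ℤ) + P.s - 1 := by omega
  have hxΛ : ∀ Λ : ℕ, P.h < p ^ (Λ + 1) →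
      padicNorm p x ≤ (p : ℚ) ^ ((Λ : ℤ) * ((j : ℤ) + P.r)) := by
    intro Λ hΛ
    rcases hx with rfl | ⟨l, hl, rfl⟩
    · rw [padicNorm.one]
      apply one_le_zpow₀ hp1
      positivity
    · have := norm_inv_pow_le (p := p) (Λ := Λ) (l := l + 1) (n := j + P.r) (by omega) (by omega)
      push_cast at this
      exact this
  have hx1 : k < (p : ℤ) + a0 + 1 → padicNorm p x ≤ 1 := by
    intro hkp
    rcases hx with rfl | ⟨l, hl, rfl⟩
    · rw [padicNorm.one]
    · have := norm_inv_pow_le (p := p) (Λ := 0) (l := l + 1) (n := j + P.r) (by omega)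
        (by rw [zero_add, pow_one]; omega)
      push_cast at this
      simpa using this
  rw [padicNorm.mul]
  unfold pex
  split_ifs with h1 h2
  · -- small primes
    have hΛ : 2 * P.h < p ^ (Nat.log p (2 * P.h) + 1) :=
      Nat.lt_pow_succ_log_self hp.out.one_lt _
    set Λ := Nat.log p (2 * P.h) with hΛdef
    have hΛ' : 2 * (P.h : ℤ) < (p : ℤ) ^ (Λ + 1) := by exact_mod_cast hΛ
    have h3 := Cl_fser (p := p) (Λ := Λ) P hP d k hk hΛ' (P.s - 1 - j)
    have h4 : 0 ≤ ∑ t ∈ Finset.Ico 1 (Λ + 1), phi P ((p : ℤ) ^ t) k := by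
      apply Finset.sum_nonneg
      intro t _
      apply phi_nonneg
      have := hp.out.pos
      positivity
    calc _ ≤ (p : ℚ) ^ ((Λ : ℤ) * ((P.s - 1 - j : ℕ) : ℤ) -
          ∑ t ∈ Finset.Ico 1 (Λ + 1), phi P ((p : ℤ) ^ t) k) *
          (p : ℚ) ^ ((Λ : ℤ) * ((j : ℤ) + P.r)) :=
          mul_le_mul h3 (hxΛ Λ (by omega)) (padicNorm.nonneg _) (by positivity)
      _ ≤ (p : ℚ) ^ (((Λ * (P.r + P.s - 1) : ℕ)) : ℤ) := by
          rw [← zpow_add₀ hp0.ne']
          apply zpow_le_zpow_right₀ hp1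
          push_cast [hrs, hsub]
          nlinarith
  · -- big primes
    have hE' := hE p hp.out (by omega) h2
    have hΛ' : 2 * (P.h : ℤ) < (p : ℤ) ^ (1 + 1) := by
      have : (p : ℤ) ^ (1 + 1) = p * p := by ring
      rw [this]
      exact_mod_cast (by omega : 2 * P.h < p * p)
    have h3 := Cl_fser (p := p) (Λ := 1) P hP d k hk hΛ' (P.s - 1 - j)
    have h3' : padicNorm p (coeff (P.s - 1 - j) (fser P d k)) ≤
        (p : ℚ) ^ ((P.s : ℤ) - 1 - j - phi P p k) := by
      refine h3.trans (le_of_eq ?_)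
      congr 1
      simp [hsub]
    by_cases hkp : (p : ℤ) + a0 + 1 ≤ k
    · have h5 := hE'.big k hkp hk'.2
      have h6 := hxΛ 1 (by
        have : p ^ (1 + 1) = p * p := by ring
        omega)
      calc _ ≤ (p : ℚ) ^ ((P.s : ℤ) - 1 - j - phi P p k) *
            (p : ℚ) ^ (((1 : ℕ) : ℤ) * ((j : ℤ) + P.r)) :=
            mul_le_mul h3' h6 (padicNorm.nonneg _) (by positivity)
        _ ≤ (p : ℚ) ^ (e p : ℤ) := by
            rw [← zpow_add₀ hp0.ne']
            apply zpow_le_zpow_right₀ hp1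
            push_cast
            linarith
    · have hkp' : k < (p : ℤ) + a0 + 1 := by omega
      have h5 : padicNorm p (coeff (P.s - 1 - j) (fser P d k)) ≤ (p : ℚ) ^ (e p : ℤ) := by
        by_cases hkp2 : (p : ℤ) + a0 + 1 ≤ P.h - k
        · have h6 := hE'.big (P.h - k) hkp2 (by omega)
          rw [phi_symm] at h6
          refine h3'.trans (zpow_le_zpow_right₀ hp1 ?_)
          omega
        · have hkp3 : (P.h : ℤ) - k < (p : ℤ) + a0 + 1 := by omega
          rcases hE'.mid k hkp' hkp3 hk'.1 hk'.2 with h6 | h6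
          · refine h3'.trans (zpow_le_zpow_right₀ hp1 ?_)
            omega
          · have h7 := Cl_mid (p := p) P hP d k hk (by
              have : (p : ℤ) ^ (1 + 1) = (p : ℤ) ^ 2 := by norm_num
              omega) hkp' hkp3 (P.s - 1 - j)
            refine h7.trans (zpow_le_zpow_right₀ hp1 ?_)
            push_cast
            linarith
      calc _ ≤ (p : ℚ) ^ (e p : ℤ) * 1 :=
            mul_le_mul h5 (hx1 hkp') (padicNorm.nonneg _) (by positivity)
        _ = _ := mul_one _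
  · -- primes greater than h
    have hΛ' : 2 * (P.h : ℤ) < (p : ℤ) ^ 2 := by
      have : (p : ℤ) ^ 2 = p * p := by ring
      rw [this]
      exact_mod_cast (by omega : 2 * P.h < p * p)
    have h3 := Cl_mid (p := p) P hP d k hk hΛ' (by omega) (by omega) (P.s - 1 - j)
    have e1 : ∑ i, ((P.h : ℤ) - 2 * P.b i) / p = 0 := by
      apply Finset.sum_eq_zero
      intro i _
      apply Int.ediv_eq_zero_of_lt
      · have := hP.b2 i
        omega
      · omega
    have e2 : ∑ j, ((P.g j : ℤ) + P.a j) / p = 0 := by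
      apply Finset.sum_eq_zero
      intro i _
      apply Int.ediv_eq_zero_of_lt
      · omega
      · have := hP.gle i
        omega
    rw [e1, e2] at h3
    have h4 : padicNorm p (coeff (P.s - 1 - j) (fser P d k)) ≤ 1 := by simpa using h3
    calc _ ≤ (1 : ℚ) * 1 := mul_le_mul h4 (hx1 (by omega)) (padicNorm.nonneg _) (by positivity)
      _ = _ := by simp

lemma norm_EE (P : Par) (e : ℕ → ℕ) :
    padicNorm p (EE P e : ℚ) ≤ (p : ℚ) ^ (-(pex P e p : ℤ)) := by
  have hp1 : (1 : ℚ) ≤ p := by exact_mod_cast hp.out.one_lt.le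
  by_cases h : p ≤ P.h
  · have hmem : p ∈ (Finset.range (P.h + 1)).filter Nat.Prime := by
      rw [Finset.mem_filter, Finset.mem_range]
      exact ⟨by omega, hp.out⟩
    have hdvd : p ^ pex P e p ∣ EE P e := Finset.dvd_prod_of_mem (fun p => p ^ pex P e p) hmem
    have := (padicNorm.dvd_iff_norm_le (p := p) (n := pex P e p) (z := (EE P e : ℤ))).1
      (by exact_mod_cast hdvd)
    exact_mod_cast this
  · have : pex P e p = 0 := by
      unfold pex
      have h2 : ¬ p * p ≤ 2 * P.h := by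
        have := hp.out.two_le
        have h3 : P.h < p := by omega
        intro h4
        have h5 : p * p < 2 * p := by omega
        have h6 : p < 2 := Nat.lt_of_mul_lt_mul_right h5
        omega
      rw [if_neg h2, if_neg h]
    rw [this]
    simpa using padicNorm.of_nat (EE P e) (p := p)

end

theorem EE_Bq_int (P : Par) {a0 b0 : ℕ} (hP : Good P a0 b0) (e : ℕ → ℕ)
    (hE : ∀ p, p.Prime → 2 * P.h < p * p → p ≤ P.h → Expo P a0 b0 p (e p)) (d j : ℕ)
    (hj : j < P.s) : ∃ z : ℤ, (EE P e : ℚ) * Bq P b0 d j = z := by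
  apply rat_int_of_norm
  intro p hp
  have : Fact p.Prime := ⟨hp⟩
  have hp0 : (0 : ℚ) < p := by exact_mod_cast hp.pos
  rw [padicNorm.mul]
  have h1 : padicNorm p (Bq P b0 d j) ≤ (p : ℚ) ^ (pex P e p : ℤ) := by
    unfold Bq
    refine (norm_nat_mul_le _ _).trans ?_
    apply padicNorm.sum_le' _ (by positivity)
    intro k hk
    have := term_bound (p := p) P hP e hE d k hk j hj 1 (Or.inl rfl)
    simpa using this
  calc _ ≤ (p : ℚ) ^ (-(pex P e p : ℤ)) * (p : ℚ) ^ (pex P e p : ℤ) :=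
        mul_le_mul (norm_EE P e) h1 (padicNorm.nonneg _) (by positivity)
    _ = 1 := by rw [← zpow_add₀ hp0.ne']; simp

theorem EE_B0q_int (P : Par) {a0 b0 : ℕ} (hP : Good P a0 b0) (e : ℕ → ℕ)
    (hE : ∀ p, p.Prime → 2 * P.h < p * p → p ≤ P.h → Expo P a0 b0 p (e p)) (d : ℕ) :
    ∃ z : ℤ, (EE P e : ℚ) * B0q P a0 b0 d = z := by
  apply rat_int_of_norm
  intro p hp
  have : Fact p.Prime := ⟨hp⟩
  have hp0 : (0 : ℚ) < p := by exact_mod_cast hp.pos
  rw [padicNorm.mul]
  have h1 : padicNorm p (B0q P a0 b0 d) ≤ (p : ℚ) ^ (pex P e p : ℤ) := by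
    unfold B0q
    apply padicNorm.sum_le' _ (by positivity)
    intro k hk
    apply padicNorm.sum_le' _ (by positivity)
    intro j hj
    rw [Finset.mem_range] at hj
    rw [mul_assoc]
    refine (norm_nat_mul_le _ _).trans ?_
    rw [Finset.mul_sum]
    apply padicNorm.sum_le' _ (by positivity)
    intro l hl
    rw [Finset.mem_range] at hl
    exact term_bound (p := p) P hP e hE d k hk j hj _ (Or.inr ⟨l, hl, rfl⟩)
  calc _ ≤ (p : ℚ) ^ (-(pex P e p : ℤ)) * (p : ℚ) ^ (pex P e p : ℤ) :=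
        mul_le_mul (norm_EE P e) h1 (padicNorm.nonneg _) (by positivity)
    _ = 1 := by rw [← zpow_add₀ hp0.ne']; simp

end ZG
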