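import Pool.Agent.Work.MP_4f096c_nt.GInteg
import Pool.Agent.Work.MP_4f096c_nt.GCen

/-!
The common denominator with the improved exponents (`Expo2`): poles whose mirror image is
congruent to a pole with the same floor data gain one factor.
-/

namespace ZG

open ZetaSets (Cl lin Cl_lin Cl_lin_zero Cl_lin_inv Cl_X Cl_C Cl_int ord_le ord_eq_sum fact_norm
  inv' rat_int_of_norm norm_inv_pow_le norm_nat_mul_le)

open PowerSeries
open scoped Nat

section

variable {p Λ : ℕ} [hp : Fact p.Prime]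

lemma term_bound2 (P : Par) {a0 b0 : ℕ} (hP : Good P a0 b0) (e : ℕ → ℕ)
    (hE : ∀ p, p.Prime → 2 * P.h < p * p → p ≤ P.h → Expo2 P a0 b0 p (e p)) (d : ℕ) (k : ℤ)
    (hk : k ∈ Sk P b0) (j : ℕ) (hj : j < P.s) (x : ℚ)
    (hx : x = 1 ∨ ∃ l < k.toNat - a0 - 1, x = 1 / ((l : ℚ) + 1) ^ (j + P.r))
    (hgood : x = 1 ∨ p * p ≤ 2 * P.h ∨ P.h < p ∨ k < (p : ℤ) + a0 + 1 ∨
      ((P.r : ℤ) + P.s - 1) - phi P p k ≤ e p) :
    padicNorm p (coeff (P.s - 1 - j) (fser P d k) * x) ≤ (p : ℚ) ^ (pex P e p : ℤ) := by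
  have hp1 : (1 : ℚ) ≤ p := by exact_mod_cast hp.out.one_lt.le
  have hp0 : (0 : ℚ) < p := by linarith
  have hk' : (b0 : ℤ) ≤ k ∧ k ≤ P.h - b0 := by
    unfold Sk at hk
    rwa [Finset.mem_Icc] at hk
  have hsub : ((P.s - 1 - j : ℕ) : ℤ) = (P.s : ℤ) - 1 - j := by omega
  have hr1 : 1 ≤ P.r := by have := hP.r3; omega
  have hrs : ((P.r + P.s - 1 : ℕ) : ℤ) = (P.r : ℤ) + P.s - 1 := by omega
  have hxΛ : ∀ Λ : ℕ, P.h < p ^ (Λ + 1) →
      padicNorm p x ≤ (p : ℚ) ^ ((Λ : ℤ) * ((j : ℤ) + P.r)) := by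
    intro Λ hΛ
    rcases hx with rfl | ⟨l, hl, rfl⟩
    · rw [padicNorm.one]
      apply one_le_zpow₀ hp1
      positivity
    · have := norm_inv_pow_le (p := p) (Λ := Λ) (l := l + 1) (n := j + P.r) (by omega) (by omega)
      push_cast at this
      exact this
  have hx1 : k < (p : ℤ) + a0 + 1 → padicNorm p x ≤ 1 := by
    intro hkp
    rcases hx with rfl | ⟨l, hl, rfl⟩
    · rw [padicNorm.one]
    · have := norm_inv_pow_le (p := p) (Λ := 0) (l := l + 1) (n := j + P.r) (by omega)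
        (by rw [zero_add, pow_one]; omega)
      push_cast at this
      simpa using this
  rw [padicNorm.mul]
  unfold pex
  split_ifs with h1 h2
  · -- small primes
    have hΛ : 2 * P.h < p ^ (Nat.log p (2 * P.h) + 1) :=
      Nat.lt_pow_succ_log_self hp.out.one_lt _
    set Λ := Nat.log p (2 * P.h) with hΛdef
    have hΛ' : 2 * (P.h : ℤ) < (p : ℤ) ^ (Λ + 1) := by exact_mod_cast hΛ
    have h3 := Cl_fser (p := p) (Λ := Λ) P hP d k hk hΛ' (P.s - 1 - j)
    have h4 : 0 ≤ ∑ t ∈ Finset.Ico 1 (Λ + 1), phi P ((p : ℤ) ^ t) k := by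
      apply Finset.sum_nonneg
      intro t _
      apply phi_nonneg
      have := hp.out.pos
      positivity
    calc _ ≤ (p : ℚ) ^ ((Λ : ℤ) * ((P.s - 1 - j : ℕ) : ℤ) -
          ∑ t ∈ Finset.Ico 1 (Λ + 1), phi P ((p : ℤ) ^ t) k) *
          (p : ℚ) ^ ((Λ : ℤ) * ((j : ℤ) + P.r)) :=
          mul_le_mul h3 (hxΛ Λ (by omega)) (padicNorm.nonneg _) (by positivity)
      _ ≤ (p : ℚ) ^ (((Λ * (P.r + P.s - 1) : ℕ)) : ℤ) := by
          rw [← zpow_add₀ hp0.ne']
          apply zpow_le_zpow_right₀ hp1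
          push_cast [hrs, hsub]
          nlinarith
  · -- big primes
    have hE' := hE p hp.out (by omega) h2
    have hΛ' : 2 * (P.h : ℤ) < (p : ℤ) ^ (1 + 1) := by
      have : (p : ℤ) ^ (1 + 1) = p * p := by ring
      rw [this]
      exact_mod_cast (by omega : 2 * P.h < p * p)
    have h3 := Cl_fser (p := p) (Λ := 1) P hP d k hk hΛ' (P.s - 1 - j)
    have h3' : padicNorm p (coeff (P.s - 1 - j) (fser P d k)) ≤
        (p : ℚ) ^ ((P.s : ℤ) - 1 - j - phi P p k) := by
      refine h3.trans (le_of_eq ?_)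
      congr 1
      simp [hsub]
    -- the bound without the harmonic factor
    have hcoef : padicNorm p (coeff (P.s - 1 - j) (fser P d k)) ≤ (p : ℚ) ^ (e p : ℤ) := by
      by_cases hkp : (p : ℤ) + a0 + 1 ≤ k
      · refine h3'.trans (zpow_le_zpow_right₀ hp1 ?_)
        rcases hE'.big k hkp hk'.2 with h6 | ⟨h6, _⟩ <;> omega
      · have hkp' : k < (p : ℤ) + a0 + 1 := by omega
        by_cases hkp2 : (p : ℤ) + a0 + 1 ≤ P.h - k
        · have h6 := hE'.big (P.h - k) hkp2 (by omega)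
          rw [phi_symm] at h6
          refine h3'.trans (zpow_le_zpow_right₀ hp1 ?_)
          rcases h6 with h6 | ⟨h6, _⟩ <;> omega
        · have hkp3 : (P.h : ℤ) - k < (p : ℤ) + a0 + 1 := by omega
          rcases hE'.mid k hkp' hkp3 hk'.1 hk'.2 with h6 | h6
          · refine h3'.trans (zpow_le_zpow_right₀ hp1 ?_)
            omega
          · have h7 := Cl_mid (p := p) P hP d k hk (by
              have : (p : ℤ) ^ (1 + 1) = (p : ℤ) ^ 2 := by norm_num
              omega) hkp' hkp3 (P.s - 1 - j)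
            refine h7.trans (zpow_le_zpow_right₀ hp1 ?_)
            push_cast
            linarith
    by_cases hx0 : x = 1
    · rw [hx0, padicNorm.one, mul_one]
      exact hcoef
    by_cases hkp : (p : ℤ) + a0 + 1 ≤ k
    · have h5 : ((P.r : ℤ) + P.s - 1) - phi P p k ≤ e p := by
        rcases hgood with h | h | h | h | h
        · exact absurd h hx0
        · omega
        · omega
        · omega
        · exact h
      have h6 := hxΛ 1 (by
        have : p ^ (1 + 1) = p * p := by ring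
        omega)
      calc _ ≤ (p : ℚ) ^ ((P.s : ℤ) - 1 - j - phi P p k) *
            (p : ℚ) ^ (((1 : ℕ) : ℤ) * ((j : ℤ) + P.r)) :=
            mul_le_mul h3' h6 (padicNorm.nonneg _) (by positivity)
        _ ≤ (p : ℚ) ^ (e p : ℤ) := by
            rw [← zpow_add₀ hp0.ne']
            apply zpow_le_zpow_right₀ hp1
            push_cast
            linarith
    · have hkp' : k < (p : ℤ) + a0 + 1 := by omega
      calc _ ≤ (p : ℚ) ^ (e p : ℤ) * 1 :=
            mul_le_mul hcoef (hx1 hkp') (padicNorm.nonneg _) (by positivity)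
        _ = _ := mul_one _
  · -- primes greater than h
    have hΛ' : 2 * (P.h : ℤ) < (p : ℤ) ^ 2 := by
      have : (p : ℤ) ^ 2 = p * p := by ring
      rw [this]
      exact_mod_cast (by omega : 2 * P.h < p * p)
    have h3 := Cl_mid (p := p) P hP d k hk hΛ' (by omega) (by omega) (P.s - 1 - j)
    have e1 : ∑ i, ((P.h : ℤ) - 2 * P.b i) / p = 0 := by
      apply Finset.sum_eq_zero
      intro i _
      apply Int.ediv_eq_zero_of_lt
      · have := hP.b2 i
        omega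
      · omega
    have e2 : ∑ j, ((P.g j : ℤ) + P.a j) / p = 0 := by
      apply Finset.sum_eq_zero
      intro i _
      apply Int.ediv_eq_zero_of_lt
      · omega
      · have := hP.gle i
        omega
    rw [e1, e2] at h3
    have h4 : padicNorm p (coeff (P.s - 1 - j) (fser P d k)) ≤ 1 := by simpa using h3
    calc _ ≤ (1 : ℚ) * 1 := mul_le_mul h4 (hx1 (by omega)) (padicNorm.nonneg _) (by positivity)
      _ = _ := by simp

/-- The contribution of the pole `-k` to the rational term. -/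
noncomputable def Tk (P : Par) (a0 d : ℕ) (k : ℤ) : ℚ :=
  ∑ j ∈ Finset.range P.s, ((j + P.r - 1).choose (P.r - 1) : ℚ) *
    PowerSeries.coeff (P.s - 1 - j) (fser P d k) *
      ∑ l ∈ Finset.range (k.toNat - a0 - 1), 1 / ((l : ℚ) + 1) ^ (j + P.r)

lemma Tk_bound (P : Par) {a0 b0 : ℕ} (hP : Good P a0 b0) (e : ℕ → ℕ)
    (hE : ∀ p, p.Prime → 2 * P.h < p * p → p ≤ P.h → Expo2 P a0 b0 p (e p)) (d : ℕ) (k : ℤ)
    (hk : k ∈ Sk P b0)
    (hgood : p * p ≤ 2 * P.h ∨ P.h < p ∨ k < (p : ℤ) + a0 + 1 ∨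
      ((P.r : ℤ) + P.s - 1) - phi P p k ≤ e p) :
    padicNorm p (Tk P a0 d k) ≤ (p : ℚ) ^ (pex P e p : ℤ) := by
  have hp0 : (0 : ℚ) < p := by exact_mod_cast hp.out.pos
  unfold Tk
  apply padicNorm.sum_le' _ (by positivity)
  intro j hj
  rw [Finset.mem_range] at hj
  rw [mul_assoc]
  refine (norm_nat_mul_le _ _).trans ?_
  rw [Finset.mul_sum]
  apply padicNorm.sum_le' _ (by positivity)
  intro l hl
  rw [Finset.mem_range] at hl
  exact term_bound2 (p := p) P hP e hE d k hk j hj _ (Or.inr ⟨l, hl, rfl⟩) (Or.inr hgood)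

/-- `p`-integrality of a difference of two harmonic sums without a multiple of `p` in between. -/
lemma harm_diff {n m q : ℕ} (hnm : n ≤ m) (hd : n / p = m / p) :
    padicNorm p ((∑ l ∈ Finset.range m, 1 / ((l : ℚ) + 1) ^ q) -
      ∑ l ∈ Finset.range n, 1 / ((l : ℚ) + 1) ^ q) ≤ 1 := by
  rw [← Finset.sum_range_add_sum_Ico _ hnm, add_sub_cancel_left]
  apply padicNorm.sum_le' _ zero_le_one
  intro l hl
  rw [Finset.mem_Ico] at hl
  have hnd : ¬ p ∣ l + 1 := by
    rintro ⟨c, hc⟩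
    have hp0 := hp.out.pos
    have h1 : c ≤ m / p := by
      rw [Nat.le_div_iff_mul_le hp0]
      rw [mul_comm]
      omega
    have h2 : n / p < c := by
      rw [Nat.div_lt_iff_lt_mul hp0]
      rw [mul_comm]
      omega
    omega
  have h1 : padicNorm p (((l + 1 : ℕ) : ℚ)) = 1 := padicNorm.nat_eq_one_iff _ |>.2 hnd
  have e1 : ∀ n : ℕ, padicNorm p ((((l + 1 : ℕ) : ℚ)) ^ n) = 1 := by
    intro n
    induction n with
    | zero => simp
    | succ n ih => rw [pow_succ, padicNorm.mul, ih, h1, one_mul]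
  have e2 : ((l : ℚ) + 1) = ((l + 1 : ℕ) : ℚ) := by push_cast; ring
  rw [e2, padicNorm.div, padicNorm.one, e1]
  simp

lemma Tk_add_bound (P : Par) {a0 b0 : ℕ} (hP : Good P a0 b0) (d : ℕ) {k k' : ℤ}
    (hk : k ∈ Sk P b0) (hc : Cen P p k k') (hh : 2 * P.h < p * p) {E : ℤ}
    (hE : ((P.r : ℤ) + P.s - 2) - phi P p k ≤ E) :
    padicNorm p (Tk P a0 d k + Tk P a0 d k') ≤ (p : ℚ) ^ E := by
  have hp1 : (1 : ℚ) ≤ p := by exact_mod_cast hp.out.one_lt.le
  have hp0 : (0 : ℚ) < p := by linarith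
  have hpi : (0 : ℤ) < p := by exact_mod_cast hp.out.pos
  have hk' := hc.mem hP hpi hk
  have hr1 : 1 ≤ P.r := by have := hP.r3; omega
  have hΛ' : 2 * (P.h : ℤ) < (p : ℤ) ^ (1 + 1) := by
    have : (p : ℤ) ^ (1 + 1) = p * p := by ring
    rw [this]
    exact_mod_cast hh
  have hab : a0 < b0 := by
    obtain ⟨j, hj⟩ := hP.a0mem
    have := hP.alt j
    omega
  have hkk : (b0 : ℤ) ≤ k ∧ k ≤ P.h - b0 := by
    unfold Sk at hk
    rwa [Finset.mem_Icc] at hk
  have hkk' : (b0 : ℤ) ≤ k' ∧ k' ≤ P.h - b0 := by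
    unfold Sk at hk'
    rwa [Finset.mem_Icc] at hk'
  set N := k.toNat - a0 - 1 with hN
  set N' := k'.toNat - a0 - 1 with hN'
  have hNN : N / p = N' / p := by
    obtain ⟨j, hj⟩ := hP.a0mem
    have h1 := hc.ha j
    rw [hj] at h1
    have e1 : k - 1 - (a0 : ℤ) = (N : ℤ) := by omega
    have e2 : k' - 1 - (a0 : ℤ) = (N' : ℤ) := by omega
    rw [e1, e2] at h1
    exact_mod_cast h1
  have hdiff : ∀ q : ℕ, padicNorm p ((∑ l ∈ Finset.range N', 1 / ((l : ℚ) + 1) ^ q) -
      ∑ l ∈ Finset.range N, 1 / ((l : ℚ) + 1) ^ q) ≤ 1 := by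
    intro q
    rcases le_total N N' with h | h
    · exact harm_diff h hNN
    · rw [← padicNorm.neg, neg_sub]
      exact harm_diff h hNN.symm
  unfold Tk
  rw [← Finset.sum_add_distrib]
  apply padicNorm.sum_le' _ (by positivity)
  intro j hj
  rw [Finset.mem_range] at hj
  have hsub : ((P.s - 1 - j : ℕ) : ℤ) = (P.s : ℤ) - 1 - j := by omega
  rw [← hN, ← hN']
  set H : ℚ := ∑ l ∈ Finset.range N, 1 / ((l : ℚ) + 1) ^ (j + P.r) with hH
  set H' : ℚ := ∑ l ∈ Finset.range N', 1 / ((l : ℚ) + 1) ^ (j + P.r) with hH'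
  have e : ((j + P.r - 1).choose (P.r - 1) : ℚ) * coeff (P.s - 1 - j) (fser P d k) * H +
      ((j + P.r - 1).choose (P.r - 1) : ℚ) * coeff (P.s - 1 - j) (fser P d k') * H' =
      ((j + P.r - 1).choose (P.r - 1) : ℚ) * (coeff (P.s - 1 - j) (fser P d k + fser P d k') * H +
        coeff (P.s - 1 - j) (fser P d k') * (H' - H)) := by
    rw [map_add]
    ring
  rw [e]
  refine (norm_nat_mul_le _ _).trans ((padicNorm.nonarchimedean).trans (max_le ?_ ?_))
  · have h1 := Cl_cen (p := p) P hP d hk hc (by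
      have : (p : ℤ) ^ (1 + 1) = (p : ℤ) ^ 2 := by norm_num
      omega) (P.s - 1 - j)
    have h2 : padicNorm p H ≤ (p : ℚ) ^ (((1 : ℕ) : ℤ) * ((j : ℤ) + P.r)) := by
      apply padicNorm.sum_le' _ (by positivity)
      intro l hl
      rw [Finset.mem_range] at hl
      have := norm_inv_pow_le (p := p) (Λ := 1) (l := l + 1) (n := j + P.r) (by omega) (by
        have : p ^ (1 + 1) = p * p := by ring
        omega)
      push_cast at this ⊢
      exact this
    rw [padicNorm.mul]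
    calc _ ≤ (p : ℚ) ^ (((1 : ℕ) : ℤ) * ((P.s - 1 - j : ℕ) : ℤ) - (phi P p k + 1)) *
          (p : ℚ) ^ (((1 : ℕ) : ℤ) * ((j : ℤ) + P.r)) :=
          mul_le_mul h1 h2 (padicNorm.nonneg _) (by positivity)
      _ ≤ (p : ℚ) ^ E := by
          rw [← zpow_add₀ hp0.ne']
          apply zpow_le_zpow_right₀ hp1
          push_cast [hsub]
          linarith
  · have h1 := Cl_fser (p := p) (Λ := 1) P hP d k' hk' hΛ' (P.s - 1 - j)
    rw [padicNorm.mul]
    have h3 : padicNorm p (coeff (P.s - 1 - j) (fser P d k')) ≤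
        (p : ℚ) ^ ((P.s : ℤ) - 1 - j - phi P p k) := by
      refine h1.trans (le_of_eq ?_)
      congr 1
      simp [hsub, hc.phi hpi]
    calc _ ≤ (p : ℚ) ^ ((P.s : ℤ) - 1 - j - phi P p k) * 1 :=
          mul_le_mul h3 (hdiff _) (padicNorm.nonneg _) (by positivity)
      _ ≤ (p : ℚ) ^ E := by
          rw [mul_one]
          apply zpow_le_zpow_right₀ hp1
          omega

end

theorem EE_Bq_int2 (P : Par) {a0 b0 : ℕ} (hP : Good P a0 b0) (e : ℕ → ℕ)
    (hE : ∀ p, p.Prime → 2 * P.h < p * p → p ≤ P.h → Expo2 P a0 b0 p (e p)) (d j : ℕ)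
    (hj : j < P.s) : ∃ z : ℤ, (EE P e : ℚ) * Bq P b0 d j = z := by
  apply rat_int_of_norm
  intro p hp
  have : Fact p.Prime := ⟨hp⟩
  have hp0 : (0 : ℚ) < p := by exact_mod_cast hp.pos
  rw [padicNorm.mul]
  have h1 : padicNorm p (Bq P b0 d j) ≤ (p : ℚ) ^ (pex P e p : ℤ) := by
    unfold Bq
    refine (norm_nat_mul_le _ _).trans ?_
    apply padicNorm.sum_le' _ (by positivity)
    intro k hk
    have := term_bound2 (p := p) P hP e hE d k hk j hj 1 (Or.inl rfl) (Or.inl rfl)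
    simpa using this
  calc _ ≤ (p : ℚ) ^ (-(pex P e p : ℤ)) * (p : ℚ) ^ (pex P e p : ℤ) :=
        mul_le_mul (norm_EE P e) h1 (padicNorm.nonneg _) (by positivity)
    _ = 1 := by rw [← zpow_add₀ hp0.ne']; simp

lemma B0q_bound2 (P : Par) {a0 b0 : ℕ} (hP : Good P a0 b0) (e : ℕ → ℕ)
    (hE : ∀ p, p.Prime → 2 * P.h < p * p → p ≤ P.h → Expo2 P a0 b0 p (e p)) (d : ℕ) (p : ℕ)
    [hp : Fact p.Prime] :
    padicNorm p (B0q P a0 b0 d) ≤ (p : ℚ) ^ (pex P e p : ℤ) := by
  classical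
  have hp1 : (1 : ℚ) ≤ p := by exact_mod_cast hp.out.one_lt.le
  have hp0 : (0 : ℚ) < p := by linarith
  have hpi : (0 : ℤ) < p := by exact_mod_cast hp.out.pos
  have e0 : B0q P a0 b0 d = ∑ k ∈ Sk P b0, Tk P a0 d k := rfl
  rw [e0]
  by_cases hbig : p * p ≤ 2 * P.h ∨ P.h < p
  · apply padicNorm.sum_le' _ (by positivity)
    intro k hk
    apply Tk_bound P hP e hE d k hk
    rcases hbig with h | h
    · exact Or.inl h
    · exact Or.inr (Or.inl h)
  push Not at hbig
  obtain ⟨hb1, hb2⟩ := hbig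
  have hE' := hE p hp.out (by omega) hb2
  have hpex : pex P e p = e p := by
    unfold pex
    rw [if_neg (by omega), if_pos hb2]
  set Q : ℤ → Prop := fun k => (p : ℤ) + a0 + 1 ≤ k ∧
    (e p : ℤ) < ((P.r : ℤ) + P.s - 1) - phi P p k with hQ
  rw [← Finset.sum_filter_add_sum_filter_not (Sk P b0) Q]
  refine (padicNorm.nonarchimedean).trans (max_le ?_ ?_)
  · set S2 := (Sk P b0).filter Q with hS2
    have hex : ∀ k ∈ S2, (((P.r : ℤ) + P.s - 2) - phi P p k ≤ e p ∧ ∃ k', Cen P p k k') := by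
      intro k hk
      rw [hS2, Finset.mem_filter] at hk
      obtain ⟨hk1, hk2, hk3⟩ := hk
      unfold Sk at hk1
      rw [Finset.mem_Icc] at hk1
      rcases hE'.big k hk2 hk1.2 with h | h
      · omega
      · exact h
    choose! cm hcm using fun k hk => (hex k hk).2
    have hmem : ∀ k ∈ S2, cm k ∈ S2 := by
      intro k hk
      have h1 := hcm k hk
      rw [hS2, Finset.mem_filter] at hk ⊢
      refine ⟨h1.mem hP hpi hk.1, ?_, ?_⟩
      · obtain ⟨j, hj⟩ := hP.a0mem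
        have h2 := h1.ha j
        rw [hj] at h2
        have h3 : 1 ≤ (k - 1 - (a0 : ℤ)) / p := by
          rw [Int.le_ediv_iff_mul_le hpi]
          have := hk.2.1
          linarith
        rw [h2, Int.le_ediv_iff_mul_le hpi] at h3
        linarith
      · rw [h1.phi hpi]
        exact hk.2.2
    have hinv : ∀ k ∈ S2, cm (cm k) = k := by
      intro k hk
      exact (hcm (cm k) (hmem k hk)).unique hP hpi ((hcm k hk).symm)
    have hsum : ∑ k ∈ S2, Tk P a0 d (cm k) = ∑ k ∈ S2, Tk P a0 d k := by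
      apply Finset.sum_bij (fun k _ => cm k) hmem
      · intro k1 h1 k2 h2 h
        rw [← hinv k1 h1, ← hinv k2 h2, h]
      · intro k hk
        exact ⟨cm k, hmem k hk, hinv k hk⟩
      · intro k _
        rfl
    have h2 : 2 * ∑ k ∈ S2, Tk P a0 d k = ∑ k ∈ S2, (Tk P a0 d k + Tk P a0 d (cm k)) := by
      rw [Finset.sum_add_distrib, hsum, two_mul]
    have hne2 : ¬ p ∣ 2 := by
      intro h
      have h3 : p ≤ 2 := Nat.le_of_dvd (by norm_num) h
      have h4 := hp.out.two_le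
      have h5 : p = 2 := by omega
      subst h5
      omega
    have hn2 : padicNorm p (2 : ℚ) = 1 := by
      have := (padicNorm.nat_eq_one_iff (p := p) 2).2 hne2
      exact_mod_cast this
    have h3 : padicNorm p (∑ k ∈ S2, Tk P a0 d k) =
        padicNorm p (∑ k ∈ S2, (Tk P a0 d k + Tk P a0 d (cm k))) := by
      rw [← h2, padicNorm.mul, hn2, one_mul]
    rw [h3, hpex]
    apply padicNorm.sum_le' _ (by positivity)
    intro k hk
    exact Tk_add_bound P hP d (Finset.mem_filter.1 hk).1 (hcm k hk) (by omega) (hex k hk).1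
  · apply padicNorm.sum_le' _ (by positivity)
    intro k hk
    rw [Finset.mem_filter] at hk
    apply Tk_bound P hP e hE d k hk.1
    right
    right
    by_contra hcon
    push Not at hcon
    exact hk.2 ⟨hcon.1, hcon.2⟩

theorem EE_B0q_int2 (P : Par) {a0 b0 : ℕ} (hP : Good P a0 b0) (e : ℕ → ℕ)
    (hE : ∀ p, p.Prime → 2 * P.h < p * p → p ≤ P.h → Expo2 P a0 b0 p (e p)) (d : ℕ) :
    ∃ z : ℤ, (EE P e : ℚ) * B0q P a0 b0 d = z := by
  apply rat_int_of_norm
  intro p hp
  have : Fact p.Prime := ⟨hp⟩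
  have hp0 : (0 : ℚ) < p := by exact_mod_cast hp.pos
  rw [padicNorm.mul]
  calc _ ≤ (p : ℚ) ^ (-(pex P e p : ℤ)) * (p : ℚ) ^ (pex P e p : ℤ) :=
        mul_le_mul (norm_EE P e) (B0q_bound2 P hP e hE d p) (padicNorm.nonneg _) (by positivity)
    _ = 1 := by rw [← zpow_add₀ hp0.ne']; simp

end ZG
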