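import Pool.Agent.Work.MP_4f096c_nt.Defs

set_option autoImplicit false

/-!
TASK J of the project MP_4f096c_nt (helper65): the line integrals
`∫ dy / ((a+iy)^j (b+iy)^r)` and their sum over the terms of the kernel `K`.
-/

namespace ZetaSets

open Complex MeasureTheory Filter Topology

namespace J

/-- the integrand -/
noncomputable def g (a b : ℝ) (j r : ℕ) (y : ℝ) : ℂ :=
  1 / (((a : ℂ) + y * I) ^ j * ((b : ℂ) + y * I) ^ r)

lemma ne0 {a : ℝ} (ha : a ≠ 0) (y : ℝ) : (a : ℂ) + y * I ≠ 0 := by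
  intro h
  have := congrArg Complex.re h
  simp at this
  exact ha this

lemma continuous_g {a b : ℝ} (ha : a ≠ 0) (hb : b ≠ 0) (j r : ℕ) : Continuous (g a b j r) := by
  unfold g
  refine Continuous.div continuous_const (by fun_prop) fun y => ?_
  exact mul_ne_zero (pow_ne_zero _ (ne0 ha y)) (pow_ne_zero _ (ne0 hb y))

lemma norm_sq (a y : ℝ) : ‖(a : ℂ) + y * I‖ ^ 2 = a ^ 2 + y ^ 2 := by
  rw [Complex.sq_norm, Complex.normSq_apply]
  simp
  ring

/-- lower bound for the norm -/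
lemma norm_ge (a : ℝ) (y : ℝ) : |a| ≤ ‖(a : ℂ) + y * I‖ := by
  have h := norm_sq a y
  have h2 : |a| ^ 2 ≤ ‖(a : ℂ) + y * I‖ ^ 2 := by rw [h, sq_abs]; nlinarith [sq_nonneg y]
  exact le_of_sq_le_sq h2 (norm_nonneg _)

lemma norm_ge' (a : ℝ) : ∃ m : ℝ, 0 < m ∧ m ≤ 1 ∧ (a ≠ 0 → ∀ y : ℝ,
    m * (1 + y ^ 2) ≤ ‖(a : ℂ) + y * I‖ ^ 2) := by
  by_cases ha : a = 0
  · exact ⟨1, one_pos, le_rfl, fun h => absurd ha h⟩
  · refine ⟨min 1 (a ^ 2), lt_min one_pos (by positivity), min_le_left _ _, fun _ y => ?_⟩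
    rw [norm_sq]
    have h1 : min 1 (a ^ 2) ≤ 1 := min_le_left _ _
    have h2 : min 1 (a ^ 2) ≤ a ^ 2 := min_le_right _ _
    nlinarith [sq_nonneg y]

lemma norm_g_le {a b : ℝ} (ha : a ≠ 0) (hb : b ≠ 0) {j r : ℕ} (h : 2 ≤ j + r) :
    ∃ C : ℝ, 0 ≤ C ∧ ∀ y : ℝ, ‖g a b j r y‖ ≤ C * (1 + y ^ 2)⁻¹ := by
  obtain ⟨m, hm, hm1, hma⟩ := norm_ge' a
  obtain ⟨n, hn, hn1, hnb⟩ := norm_ge' b
  have hma := hma ha
  have hnb := hnb hb
  refine ⟨(m ^ j)⁻¹ * (n ^ r)⁻¹, by positivity, fun y => ?_⟩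
  have hpos : 0 < ‖g a b j r y‖ := by
    rw [norm_pos_iff]
    unfold g
    exact one_div_ne_zero (mul_ne_zero (pow_ne_zero _ (ne0 ha y)) (pow_ne_zero _ (ne0 hb y)))
  have hq : (1 : ℝ) ≤ 1 + y ^ 2 := by nlinarith [sq_nonneg y]
  -- compare squares
  have h1 : ‖g a b j r y‖ ^ 2 ≤ ((m ^ j)⁻¹ * (n ^ r)⁻¹ * (1 + y ^ 2)⁻¹) ^ 2 := by
    have e1 : ‖g a b j r y‖ ^ 2 =
        ((‖(a : ℂ) + y * I‖ ^ 2) ^ j * (‖(b : ℂ) + y * I‖ ^ 2) ^ r)⁻¹ := by
      unfold g
      rw [norm_div, norm_mul, norm_pow, norm_pow, norm_one, one_div, inv_pow, mul_pow]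
      congr 2 <;> ring
    rw [e1]
    have e2 : ((m ^ j)⁻¹ * (n ^ r)⁻¹ * (1 + y ^ 2)⁻¹) ^ 2 =
        ((m ^ j) ^ 2 * (n ^ r) ^ 2 * (1 + y ^ 2) ^ 2)⁻¹ := by
      rw [mul_pow, mul_pow, inv_pow, inv_pow, inv_pow, mul_inv, mul_inv]
    rw [e2]
    apply inv_anti₀ (by positivity)
    have e3 : (m * (1 + y ^ 2)) ^ j ≤ (‖(a : ℂ) + y * I‖ ^ 2) ^ j :=
      pow_le_pow_left₀ (by positivity) (hma y) _
    have e4 : (n * (1 + y ^ 2)) ^ r ≤ (‖(b : ℂ) + y * I‖ ^ 2) ^ r :=
      pow_le_pow_left₀ (by positivity) (hnb y) _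
    have e5 : (m ^ j) ^ 2 ≤ m ^ j := by
      have : m ^ j ≤ 1 := pow_le_one₀ hm.le hm1
      nlinarith [pow_pos hm j]
    have e6 : (n ^ r) ^ 2 ≤ n ^ r := by
      have : n ^ r ≤ 1 := pow_le_one₀ hn.le hn1
      nlinarith [pow_pos hn r]
    have e7 : (1 + y ^ 2) ^ 2 ≤ (1 + y ^ 2) ^ (j + r) := pow_le_pow_right₀ hq h
    calc (m ^ j) ^ 2 * (n ^ r) ^ 2 * (1 + y ^ 2) ^ 2
        ≤ m ^ j * n ^ r * (1 + y ^ 2) ^ (j + r) := by gcongr
      _ = (m * (1 + y ^ 2)) ^ j * (n * (1 + y ^ 2)) ^ r := by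
          rw [mul_pow, mul_pow, pow_add]; ring
      _ ≤ _ := by gcongr
  exact le_of_sq_le_sq h1 (by positivity)

lemma integrable_g {a b : ℝ} (ha : a ≠ 0) (hb : b ≠ 0) {j r : ℕ} (h : 2 ≤ j + r) :
    Integrable (g a b j r) := by
  obtain ⟨C, hC, hle⟩ := norm_g_le ha hb h
  refine Integrable.mono' (g := fun y : ℝ => C * (1 + y ^ 2)⁻¹)
    (integrable_inv_one_add_sq.const_mul C) (continuous_g ha hb j r).aestronglyMeasurable ?_
  exact Eventually.of_forall hle

/-- the recurrence -/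
lemma g_rec {a b : ℝ} (ha : a ≠ 0) (hb : b ≠ 0) (hab : a ≠ b) (j r : ℕ) (y : ℝ) :
    g a b (j + 1) (r + 1) y = (g a b j (r + 1) y - g a b (j + 1) r y) / ((a : ℂ) - b) := by
  unfold g
  have h1 := ne0 ha y
  have h2 := ne0 hb y
  have h3 : (a : ℂ) - b ≠ 0 := by
    rw [sub_ne_zero]; exact_mod_cast hab
  rw [eq_div_iff h3]
  have e1 : 1 / (((a : ℂ) + y * I) ^ j * ((b : ℂ) + y * I) ^ (r + 1)) =
      ((a : ℂ) + y * I) / (((a : ℂ) + y * I) ^ (j + 1) * ((b : ℂ) + y * I) ^ (r + 1)) := by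
    rw [div_eq_div_iff (mul_ne_zero (pow_ne_zero _ h1) (pow_ne_zero _ h2))
      (mul_ne_zero (pow_ne_zero _ h1) (pow_ne_zero _ h2))]
    ring
  have e2 : 1 / (((a : ℂ) + y * I) ^ (j + 1) * ((b : ℂ) + y * I) ^ r) =
      ((b : ℂ) + y * I) / (((a : ℂ) + y * I) ^ (j + 1) * ((b : ℂ) + y * I) ^ (r + 1)) := by
    rw [div_eq_div_iff (mul_ne_zero (pow_ne_zero _ h1) (pow_ne_zero _ h2))
      (mul_ne_zero (pow_ne_zero _ h1) (pow_ne_zero _ h2))]
    ring
  rw [e1, e2, ← sub_div, div_mul_eq_mul_div, one_mul]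
  congr 1
  ring

lemma int_rec {a b : ℝ} (ha : a ≠ 0) (hb : b ≠ 0) (hab : a ≠ b) {j r : ℕ} (h : 1 ≤ j + r) :
    ∫ y, g a b (j + 1) (r + 1) y =
      ((∫ y, g a b j (r + 1) y) - ∫ y, g a b (j + 1) r y) / ((a : ℂ) - b) := by
  have h1 : (fun y => g a b (j + 1) (r + 1) y) =
      fun y => (g a b j (r + 1) y - g a b (j + 1) r y) / ((a : ℂ) - b) :=
    funext fun y => g_rec ha hb hab j r y
  rw [h1, integral_div, integral_sub (integrable_g ha hb (by omega))
    (integrable_g ha hb (by omega))]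

lemma tendsto_norm_atTop (a : ℝ) : Tendsto (fun y : ℝ => ‖(a : ℂ) + y * I‖) atTop atTop := by
  refine tendsto_atTop_mono (fun y => ?_) tendsto_id
  have h := Complex.abs_im_le_norm ((a : ℂ) + y * I)
  simp at h
  exact (le_abs_self y).trans h

lemma tendsto_norm_atBot (a : ℝ) : Tendsto (fun y : ℝ => ‖(a : ℂ) + y * I‖) atBot atTop := by
  refine tendsto_atTop_mono (fun y => ?_) tendsto_neg_atBot_atTop
  have h := Complex.abs_im_le_norm ((a : ℂ) + y * I)
  simp at h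
  exact (neg_le_abs y).trans h

/-- one factor only -/
lemma int_single {a : ℝ} (ha : a ≠ 0) {b : ℝ} (hb : b ≠ 0) {j : ℕ} (hj : 1 ≤ j) :
    ∫ y, g a b (j + 1) 0 y = 0 := by
  have hint : Integrable (g a b (j + 1) 0) := integrable_g ha hb (by omega)
  have hj0 : (j : ℂ) ≠ 0 := by exact_mod_cast (by omega : j ≠ 0)
  -- antiderivative
  let F : ℝ → ℂ := fun y => (((a : ℂ) + y * I) ^ j)⁻¹ * (-(1 / (j * I)))
  have hderiv : ∀ y, HasDerivAt F (g a b (j + 1) 0 y) y := by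
    intro y
    have h1 : HasDerivAt (fun y : ℝ => (a : ℂ) + y * I) (1 * I) y := by
      have := (Complex.ofRealCLM.hasDerivAt (x := y)).mul_const I
      simpa using this.const_add (a : ℂ)
    have h2 : HasDerivAt (fun y : ℝ => (((a : ℂ) + y * I) ^ j)⁻¹)
        (-((j : ℂ) * ((a : ℂ) + y * I) ^ (j - 1) * (1 * I)) / (((a : ℂ) + y * I) ^ j) ^ 2) y :=
      (h1.fun_pow j).fun_inv (pow_ne_zero _ (ne0 ha y))
    have h3 := h2.mul_const (-(1 / (j * I)))
    convert! h3 using 1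
    unfold g
    have hne := ne0 ha y
    obtain ⟨i, rfl⟩ : ∃ i, j = i + 1 := ⟨j - 1, by omega⟩
    simp only [pow_zero, mul_one, Nat.add_sub_cancel, one_mul]
    have hI : (I : ℂ) ≠ 0 := I_ne_zero
    field_simp
    ring
  have hlim : ∀ l : Filter ℝ, Tendsto (fun y : ℝ => ‖(a : ℂ) + y * I‖) l atTop →
      Tendsto F l (𝓝 0) := by
    intro l hl
    have h1 : Tendsto (fun y : ℝ => (((a : ℂ) + y * I) ^ j)⁻¹) l (𝓝 0) := by
      rw [tendsto_zero_iff_norm_tendsto_zero]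
      have h2 : (fun y : ℝ => ‖(((a : ℂ) + y * I) ^ j)⁻¹‖) =
          fun y : ℝ => (‖(a : ℂ) + y * I‖ ^ j)⁻¹ := by
        funext y; rw [norm_inv, norm_pow]
      rw [h2]
      exact tendsto_inv_atTop_zero.comp ((tendsto_pow_atTop (by omega)).comp hl)
    have := h1.mul_const (-(1 / ((j : ℂ) * I)))
    rw [zero_mul] at this
    exact this
  have := integral_of_hasDerivAt_of_tendsto hderiv hint (hlim _ (tendsto_norm_atBot a))
    (hlim _ (tendsto_norm_atTop a))
  simpa using this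

lemma g_swap (a b : ℝ) (j r : ℕ) (y : ℝ) : g a b j r y = g b a r j y := by
  unfold g; rw [mul_comm]

lemma int_single' {a : ℝ} (ha : a ≠ 0) {b : ℝ} (hb : b ≠ 0) {r : ℕ} (hr : 1 ≤ r) :
    ∫ y, g a b 0 (r + 1) y = 0 := by
  simp only [g_swap a b]
  exact int_single hb ha hr

/-- limits of arctan(y/b) -/
lemma tendsto_arctan_div_atTop {b : ℝ} (hb : b ≠ 0) :
    Tendsto (fun y : ℝ => Real.arctan (y / b)) atTop (𝓝 (SignType.sign b * (Real.pi / 2))) := by
  rcases lt_or_gt_of_ne hb with h | h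
  · have h1 : Tendsto (fun y : ℝ => y / b) atTop atBot := tendsto_id.atTop_div_const_of_neg h
    have h2 := (tendsto_nhds_of_tendsto_nhdsWithin Real.tendsto_arctan_atBot).comp h1
    simp only [sign_neg h, SignType.coe_neg_one]
    convert! h2 using 2
    ring
  · have h1 : Tendsto (fun y : ℝ => y / b) atTop atTop := tendsto_id.atTop_div_const h
    have h2 := (tendsto_nhds_of_tendsto_nhdsWithin Real.tendsto_arctan_atTop).comp h1
    simp only [sign_pos h, SignType.coe_one]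
    convert! h2 using 2
    ring

lemma tendsto_arctan_div_atBot {b : ℝ} (hb : b ≠ 0) :
    Tendsto (fun y : ℝ => Real.arctan (y / b)) atBot (𝓝 (-(SignType.sign b * (Real.pi / 2)))) := by
  have h := (tendsto_arctan_div_atTop hb).comp tendsto_neg_atBot_atTop
  have h2 := h.neg
  convert! h2 using 2 with y
  simp [neg_div, Real.arctan_neg]

lemma tendsto_log_ratio {a b : ℝ} (l : Filter ℝ) (hl : Tendsto (fun y : ℝ => y ^ 2) l atTop) :
    Tendsto (fun y : ℝ => Real.log (b ^ 2 + y ^ 2) - Real.log (a ^ 2 + y ^ 2)) l (𝓝 0) := by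
  have h1 : Tendsto (fun y : ℝ => (b ^ 2 - a ^ 2) / (a ^ 2 + y ^ 2)) l (𝓝 0) := by
    apply Tendsto.div_atTop tendsto_const_nhds
    exact tendsto_atTop_add_const_left _ _ hl
  have h2 : Tendsto (fun y : ℝ => Real.log (1 + (b ^ 2 - a ^ 2) / (a ^ 2 + y ^ 2))) l (𝓝 0) := by
    have := (h1.const_add 1).log (by norm_num)
    simpa using this
  refine h2.congr' ?_
  have h3 : ∀ᶠ y in l, 1 ≤ y ^ 2 := hl.eventually_ge_atTop 1
  filter_upwards [h3] with y hy
  have hp1 : 0 < a ^ 2 + y ^ 2 := by nlinarith [sq_nonneg a]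
  have hp2 : 0 < b ^ 2 + y ^ 2 := by nlinarith [sq_nonneg b]
  rw [← Real.log_div hp2.ne' hp1.ne']
  congr 1
  field_simp
  ring

/-- the case of two simple factors -/
lemma int_one_one {a b : ℝ} (ha : a ≠ 0) (hb : b ≠ 0) (hab : a ≠ b) :
    ∫ y, g a b 1 1 y =
      ((SignType.sign b : ℝ) - (SignType.sign a : ℝ)) * Real.pi / ((a : ℂ) - b) := by
  have h3 : (a : ℂ) - b ≠ 0 := by
    rw [sub_ne_zero]; exact_mod_cast hab
  let F : ℝ → ℂ := fun y => (((Real.arctan (y / b) - Real.arctan (y / a) : ℝ) : ℂ) -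
    ((1 / 2 * (Real.log (b ^ 2 + y ^ 2) - Real.log (a ^ 2 + y ^ 2)) : ℝ) : ℂ) * I) / ((a : ℂ) - b)
  have hat : ∀ c : ℝ, c ≠ 0 → ∀ y : ℝ,
      HasDerivAt (fun y : ℝ => Real.arctan (y / c)) (c / (c ^ 2 + y ^ 2)) y := by
    intro c hc y
    have h1 := (Real.hasDerivAt_arctan (y / c)).comp y ((hasDerivAt_id y).div_const c)
    convert! h1 using 1
    have : c ^ 2 + y ^ 2 ≠ 0 := by positivity
    field_simp
  have hlog : ∀ c : ℝ, c ≠ 0 → ∀ y : ℝ,
      HasDerivAt (fun y : ℝ => Real.log (c ^ 2 + y ^ 2)) (2 * y / (c ^ 2 + y ^ 2)) y := by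
    intro c hc y
    have h0 : c ^ 2 + y ^ 2 ≠ 0 := by positivity
    have h1 := (((hasDerivAt_id y).pow 2).const_add (c ^ 2)).log (by simpa using h0)
    convert! h1 using 1
    simp
  have hderiv : ∀ y, HasDerivAt F (g a b 1 1 y) y := by
    intro y
    have h1 := ((hat b hb y).sub (hat a ha y)).ofReal_comp
    have h2 := ((((hlog b hb y).sub (hlog a ha y)).const_mul (1 / 2)).ofReal_comp).mul_const I
    have h4 := (h1.sub h2).div_const ((a : ℂ) - b)
    convert! h4 using 1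
    unfold g
    have n1 := ne0 ha y
    have n2 := ne0 hb y
    have p1 : ((a ^ 2 + y ^ 2 : ℝ) : ℂ) ≠ 0 := by
      exact_mod_cast (by positivity : a ^ 2 + y ^ 2 ≠ 0)
    have p2 : ((b ^ 2 + y ^ 2 : ℝ) : ℂ) ≠ 0 := by
      exact_mod_cast (by positivity : b ^ 2 + y ^ 2 ≠ 0)
    have q1 : ((a ^ 2 + y ^ 2 : ℝ) : ℂ) = ((a : ℂ) + y * I) * ((a : ℂ) - y * I) := by
      push_cast; ring_nf; rw [I_sq]; ring
    have q2 : ((b ^ 2 + y ^ 2 : ℝ) : ℂ) = ((b : ℂ) + y * I) * ((b : ℂ) - y * I) := by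
      push_cast; ring_nf; rw [I_sq]; ring
    have m1 : (a : ℂ) - y * I ≠ 0 := by
      intro h; rw [q1, h, mul_zero] at p1; exact p1 rfl
    have m2 : (b : ℂ) - y * I ≠ 0 := by
      intro h; rw [q2, h, mul_zero] at p2; exact p2 rfl
    have r1 : (((b / (b ^ 2 + y ^ 2) - a / (a ^ 2 + y ^ 2) : ℝ)) : ℂ) -
        ((1 / 2 * (2 * y / (b ^ 2 + y ^ 2) - 2 * y / (a ^ 2 + y ^ 2)) : ℝ) : ℂ) * I =
        1 / ((b : ℂ) + y * I) - 1 / ((a : ℂ) + y * I) := by
      have s1 : 1 / ((b : ℂ) + y * I) = ((b : ℂ) - y * I) / ((b ^ 2 + y ^ 2 : ℝ) : ℂ) := by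
        rw [q2]; field_simp
      have s2 : 1 / ((a : ℂ) + y * I) = ((a : ℂ) - y * I) / ((a ^ 2 + y ^ 2 : ℝ) : ℂ) := by
        rw [q1]; field_simp
      rw [s1, s2]
      push_cast
      push_cast at p1 p2
      field_simp
      ring
    rw [r1]
    field_simp
    ring
  have hint : Integrable (g a b 1 1) := integrable_g ha hb (by norm_num)
  have hsq1 : Tendsto (fun y : ℝ => y ^ 2) atTop atTop := tendsto_pow_atTop (by norm_num)
  have hsq2 : Tendsto (fun y : ℝ => y ^ 2) atBot atTop := by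
    have := hsq1.comp tendsto_neg_atBot_atTop
    refine this.congr fun y => by simp
  have hlim : ∀ (l : Filter ℝ) (s t : ℝ), Tendsto (fun y : ℝ => Real.arctan (y / b)) l (𝓝 s) →
      Tendsto (fun y : ℝ => Real.arctan (y / a)) l (𝓝 t) →
      Tendsto (fun y : ℝ => y ^ 2) l atTop →
      Tendsto F l (𝓝 (((s - t : ℝ) : ℂ) / ((a : ℂ) - b))) := by
    intro l s t hs ht hl
    have h1 : Tendsto (fun y : ℝ => ((Real.arctan (y / b) - Real.arctan (y / a) : ℝ) : ℂ)) l
        (𝓝 ((s - t : ℝ) : ℂ)) :=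
      (Complex.continuous_ofReal.tendsto _).comp (hs.sub ht)
    have h2 : Tendsto (fun y : ℝ =>
        ((1 / 2 * (Real.log (b ^ 2 + y ^ 2) - Real.log (a ^ 2 + y ^ 2)) : ℝ) : ℂ)) l
        (𝓝 ((1 / 2 * 0 : ℝ) : ℂ)) :=
      (Complex.continuous_ofReal.tendsto _).comp ((tendsto_log_ratio l hl).const_mul _)
    have h3 := (h1.sub (h2.mul_const I)).div_const ((a : ℂ) - b)
    simpa [F] using h3
  have := integral_of_hasDerivAt_of_tendsto hderiv hint
    (hlim _ _ _ (tendsto_arctan_div_atBot hb) (tendsto_arctan_div_atBot ha) hsq2)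
    (hlim _ _ _ (tendsto_arctan_div_atTop hb) (tendsto_arctan_div_atTop ha) hsq1)
  rw [this]
  push_cast
  field_simp
  ring

end J

open J in
theorem J_zero {a b : ℝ} (ha : 0 < a) (hb : 0 < b) {j r : ℕ} (h : 2 ≤ j + r) :
    ∫ y : ℝ, 1 / (((a : ℂ) + y * I) ^ j * ((b : ℂ) + y * I) ^ r) = 0 := by
  change ∫ y : ℝ, g a b j r y = 0
  by_cases hab : a = b
  · subst hab
    have h1 : (fun y => g a a j r y) = fun y => g a a ((j + r - 1) + 1) 0 y := by
      funext y
      unfold g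
      rw [pow_zero, mul_one, ← pow_add]
      congr 2
      omega
    rw [h1]
    exact int_single ha.ne' ha.ne' (by omega)
  · -- induction on `j + r`
    have key : ∀ n : ℕ, ∀ j r : ℕ, j + r = n → 2 ≤ n → ∫ y : ℝ, g a b j r y = 0 := by
      intro n
      induction n using Nat.strong_induction_on with
      | _ n ih =>
        intro j r hjr hn
        rcases Nat.eq_zero_or_pos j with hj | hj
        · subst hj
          obtain ⟨r', rfl⟩ : ∃ r', r = r' + 1 := ⟨r - 1, by omega⟩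
          exact int_single' ha.ne' hb.ne' (by omega)
        · rcases Nat.eq_zero_or_pos r with hr | hr
          · subst hr
            obtain ⟨j', rfl⟩ : ∃ j', j = j' + 1 := ⟨j - 1, by omega⟩
            exact int_single ha.ne' hb.ne' (by omega)
          · obtain ⟨j', rfl⟩ : ∃ j', j = j' + 1 := ⟨j - 1, by omega⟩
            obtain ⟨r', rfl⟩ : ∃ r', r = r' + 1 := ⟨r - 1, by omega⟩
            rcases Nat.eq_zero_or_pos (j' + r') with h0 | h0
            · have hj' : j' = 0 := by omega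
              have hr' : r' = 0 := by omega
              subst hj' hr'
              rw [int_one_one ha.ne' hb.ne' hab, sign_pos ha, sign_pos hb]
              simp
            · rw [int_rec ha.ne' hb.ne' hab h0, ih (n - 1) (by omega) j' (r' + 1) (by omega)
                (by omega), ih (n - 1) (by omega) (j' + 1) r' (by omega) (by omega)]
              simp
    exact key (j + r) j r rfl h

open J in
theorem J_val {a b : ℝ} (ha : 0 < a) (hb : b < 0) (j r : ℕ) :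
    ∫ y : ℝ, 1 / (((a : ℂ) + y * I) ^ (j + 1) * ((b : ℂ) + y * I) ^ (r + 1)) =
      2 * Real.pi * (-1) ^ (r + 1) * ((j + r).choose r : ℂ) / ((a : ℂ) - b) ^ (j + r + 1) := by
  change ∫ y : ℝ, g a b (j + 1) (r + 1) y = _
  have hab : a ≠ b := by linarith
  have h3 : (a : ℂ) - b ≠ 0 := by
    rw [sub_ne_zero]; exact_mod_cast hab
  have key : ∀ n : ℕ, ∀ j r : ℕ, j + r = n → ∫ y : ℝ, g a b (j + 1) (r + 1) y =
      2 * Real.pi * (-1) ^ (r + 1) * ((j + r).choose r : ℂ) / ((a : ℂ) - b) ^ (j + r + 1) := by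
    intro n
    induction n with
    | zero =>
      intro j r hjr
      have hj' : j = 0 := by omega
      have hr' : r = 0 := by omega
      subst hj' hr'
      rw [int_one_one ha.ne' hb.ne hab, sign_pos ha, sign_neg hb]
      simp
      ring
    | succ n ih =>
      intro j r hjr
      rw [int_rec ha.ne' hb.ne hab (by omega)]
      rcases Nat.eq_zero_or_pos j with hj | hj
      · subst hj
        obtain ⟨r', rfl⟩ : ∃ r', r = r' + 1 := ⟨r - 1, by omega⟩
        rw [int_single' ha.ne' hb.ne (by omega), ih 0 r' (by omega)]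
        simp only [zero_add, Nat.choose_self, Nat.cast_one, mul_one]
        field_simp
        ring
      · rcases Nat.eq_zero_or_pos r with hr | hr
        · subst hr
          obtain ⟨j', rfl⟩ : ∃ j', j = j' + 1 := ⟨j - 1, by omega⟩
          rw [int_single ha.ne' hb.ne (by omega), ih j' 0 (by omega)]
          simp only [add_zero, Nat.choose_zero_right, Nat.cast_one, mul_one, sub_zero]
          field_simp
          ring
        · obtain ⟨j', rfl⟩ : ∃ j', j = j' + 1 := ⟨j - 1, by omega⟩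
          obtain ⟨r', rfl⟩ : ∃ r', r = r' + 1 := ⟨r - 1, by omega⟩
          rw [ih j' (r' + 1) (by omega), ih (j' + 1) r' (by omega)]
          have e1 : (j' + 1 + (r' + 1)).choose (r' + 1) =
              (j' + (r' + 1)).choose (r' + 1) + (j' + 1 + r').choose r' := by
            have : j' + 1 + (r' + 1) = (j' + 1 + r') + 1 := by ring
            rw [this, Nat.choose_succ_succ' (j' + 1 + r') r']
            have h2 : j' + 1 + r' = j' + (r' + 1) := by ring
            rw [h2]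
            ring
          rw [e1]
          have e2 : j' + 1 + (r' + 1) + 1 = (j' + 1 + r' + 1) + 1 := by ring
          have e3 : j' + (r' + 1) + 1 = j' + 1 + r' + 1 := by ring
          rw [e2, e3]
          push_cast
          field_simp
          ring
  exact key (j + r) j r rfl

namespace J

/-- uniform bound for the terms of the kernel -/
lemma term_bound {a b : ℝ} (ha : 1 / 2 ≤ |a|) (hb : 1 / 2 ≤ |b|) {r : ℕ} (hr : 4 ≤ r) (j : ℕ)
    (y : ℝ) :
    ‖g a b j r y‖ ≤ (2 ^ j * 2 ^ (r - 4) * 4) * (b ^ 2)⁻¹ * (1 + y ^ 2)⁻¹ := by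
  have hna := (ha.trans (norm_ge a y))
  have hnb := (hb.trans (norm_ge b y))
  have hb2 : (1 / 4 : ℝ) ≤ b ^ 2 := by
    have : (1 / 2 : ℝ) ^ 2 ≤ |b| ^ 2 := pow_le_pow_left₀ (by norm_num) hb 2
    rw [sq_abs] at this
    norm_num at this ⊢
    exact this
  have hbpos : 0 < b ^ 2 := by linarith
  have e1 : ‖g a b j r y‖ = (‖(a : ℂ) + y * I‖ ^ j * ‖(b : ℂ) + y * I‖ ^ r)⁻¹ := by
    unfold g
    rw [norm_div, norm_mul, norm_pow, norm_pow, norm_one, one_div]
  rw [e1]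
  have e2 : (2 ^ j * 2 ^ (r - 4) * 4) * (b ^ 2)⁻¹ * (1 + y ^ 2)⁻¹ =
      (((1 / 2 : ℝ) ^ j) * (((1 / 2 : ℝ) ^ (r - 4)) * (b ^ 2 * ((1 / 4) * (1 + y ^ 2)))))⁻¹ := by
    have h1 : (1 + y ^ 2) ≠ 0 := by positivity
    rw [one_div, inv_pow, inv_pow]
    field_simp
  rw [e2]
  apply inv_anti₀ (by positivity)
  have e3 : ‖(b : ℂ) + y * I‖ ^ r =
      ‖(b : ℂ) + y * I‖ ^ (r - 4) * (‖(b : ℂ) + y * I‖ ^ 2 * ‖(b : ℂ) + y * I‖ ^ 2) := by
    rw [← pow_add, ← pow_add]
    congr 1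
    omega
  rw [e3, norm_sq]
  have h4 : b ^ 2 ≤ b ^ 2 + y ^ 2 := by nlinarith [sq_nonneg y]
  have h5 : (1 / 4) * (1 + y ^ 2) ≤ b ^ 2 + y ^ 2 := by nlinarith [sq_nonneg y]
  have h6 : (1 / 2 : ℝ) ^ j ≤ ‖(a : ℂ) + y * I‖ ^ j := pow_le_pow_left₀ (by norm_num) hna j
  have h7 : (1 / 2 : ℝ) ^ (r - 4) ≤ ‖(b : ℂ) + y * I‖ ^ (r - 4) :=
    pow_le_pow_left₀ (by norm_num) hnb _
  have h8 : b ^ 2 * ((1 / 4) * (1 + y ^ 2)) ≤ (b ^ 2 + y ^ 2) * (b ^ 2 + y ^ 2) :=
    mul_le_mul h4 h5 (by positivity) (by positivity)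
  gcongr

/-- the shift of the term number `m` -/
noncomputable def sh (M : ℕ) (m : ℤ) : ℝ := (m : ℝ) - (M + 1 / 2)

lemma pt_add (M : ℕ) (m : ℤ) (y : ℝ) : pt M y + (m : ℂ) = ((sh M m : ℝ) : ℂ) + y * I := by
  unfold pt sh
  push_cast
  ring

lemma pt_add_nat (M k : ℕ) (y : ℝ) : pt M y + (k : ℂ) = ((sh M k : ℝ) : ℂ) + y * I := by
  have := pt_add M k y
  push_cast at this
  exact_mod_cast this

lemma sh_abs (M : ℕ) (m : ℤ) : 1 / 2 ≤ |sh M m| := by
  unfold sh
  rcases lt_or_ge (M : ℤ) m with h | h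
  · have h1 : ((M : ℤ) : ℝ) + 1 ≤ (m : ℝ) := by exact_mod_cast h
    rw [Int.cast_natCast] at h1
    rw [abs_of_pos (by linarith)]
    linarith
  · have h1 : (m : ℝ) ≤ ((M : ℤ) : ℝ) := by exact_mod_cast h
    rw [Int.cast_natCast] at h1
    rw [abs_of_neg (by linarith)]
    linarith

lemma sh_pos {M : ℕ} {m : ℤ} (h : (M : ℤ) < m) : 0 < sh M m := by
  unfold sh
  have h1 : ((M : ℤ) : ℝ) + 1 ≤ (m : ℝ) := by exact_mod_cast h
  rw [Int.cast_natCast] at h1
  linarith

lemma sh_neg {M : ℕ} {m : ℤ} (h : m ≤ (M : ℤ)) : sh M m < 0 := by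
  unfold sh
  have h1 : (m : ℝ) ≤ ((M : ℤ) : ℝ) := by exact_mod_cast h
  rw [Int.cast_natCast] at h1
  linarith

lemma sh_ne (M : ℕ) (m : ℤ) : sh M m ≠ 0 := by
  intro h
  have := sh_abs M m
  rw [h, abs_zero] at this
  norm_num at this

lemma summable_sh (M : ℕ) : Summable fun m : ℤ => ((sh M m) ^ 2)⁻¹ := by
  have h := (Real.summable_one_div_int_add_rpow (-(M + 1 / 2 : ℝ)) 2).mpr (by norm_num)
  refine h.congr fun m => ?_
  unfold sh
  rw [← sub_eq_add_neg, one_div]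
  congr 1
  rw [← sq_abs]
  norm_cast

end J

open J in
/-- one pole `-k` to the left of line number `M`. -/
theorem K_term {r : ℕ} (hr : 4 ≤ r) (M k j : ℕ) (hk : M < k) :
    Integrable (fun y : ℝ => 1 / (pt M y + k) ^ (j + 1) * K r (pt M y)) ∧
    ∫ y : ℝ, 1 / (pt M y + k) ^ (j + 1) * K r (pt M y) =
      2 * Real.pi * (-1) ^ r * ((j + r - 1).choose (r - 1) : ℂ) *
        ((∑' l : ℕ, 1 / ((l : ℂ) + 1) ^ (j + r)) -
          ∑ l ∈ Finset.range (k - M - 1), 1 / ((l : ℂ) + 1) ^ (j + r)) := by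
  set a : ℝ := sh M k with ha_def
  have ha2 : 1 / 2 ≤ |a| := sh_abs M k
  have hapos : 0 < a := sh_pos (by exact_mod_cast hk)
  -- the integrand is a sum of terms
  have hsum : ∀ y : ℝ, 1 / (pt M y + k) ^ (j + 1) * K r (pt M y) =
      ∑' m : ℤ, g a (sh M m) (j + 1) r y := by
    intro y
    unfold K
    rw [← tsum_mul_left]
    refine tsum_congr fun m => ?_
    unfold g
    rw [pt_add M m y, pt_add_nat M k y, ← one_div_mul_one_div]
  set C : ℝ := (2 ^ (j + 1) * 2 ^ (r - 4) * 4) with hC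
  have hC0 : 0 ≤ C := by positivity
  have hb : ∀ (m : ℤ) (y : ℝ), ‖g a (sh M m) (j + 1) r y‖ ≤
      C * ((sh M m) ^ 2)⁻¹ * (1 + y ^ 2)⁻¹ := fun m y =>
    term_bound ha2 (sh_abs M m) hr (j + 1) y
  have hb' : ∀ (m : ℤ) (y : ℝ), ‖g a (sh M m) (j + 1) r y‖ ≤ C * ((sh M m) ^ 2)⁻¹ := by
    intro m y
    refine (hb m y).trans ?_
    have h1 : (1 + y ^ 2)⁻¹ ≤ (1 : ℝ) := by
      rw [inv_le_one₀ (by positivity)]
      nlinarith [sq_nonneg y]
    have h2 : 0 ≤ C * ((sh M m) ^ 2)⁻¹ := by positivity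
    nlinarith
  have hsm : Summable fun m : ℤ => C * ((sh M m) ^ 2)⁻¹ := (summable_sh M).mul_left C
  have hcont : Continuous fun y : ℝ => ∑' m : ℤ, g a (sh M m) (j + 1) r y :=
    continuous_tsum (fun m => continuous_g hapos.ne' (sh_ne M m) _ _) hsm hb'
  have hint : ∀ m : ℤ, Integrable (g a (sh M m) (j + 1) r) := fun m =>
    integrable_g hapos.ne' (sh_ne M m) (by omega)
  have hI2 : Integrable (fun y : ℝ => ∑' m : ℤ, g a (sh M m) (j + 1) r y) := by
    refine Integrable.mono' (g := fun y : ℝ => (∑' m : ℤ, C * ((sh M m) ^ 2)⁻¹) * (1 + y ^ 2)⁻¹)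
      (integrable_inv_one_add_sq.const_mul _) hcont.aestronglyMeasurable
      (Eventually.of_forall fun y => ?_)
    rw [← tsum_mul_right]
    exact tsum_of_norm_bounded (hsm.mul_right _).hasSum (fun m => hb m y)
  constructor
  · exact hI2.congr (Eventually.of_forall fun y => (hsum y).symm)
  · have hnorm : Summable fun m : ℤ => ∫ y : ℝ, ‖g a (sh M m) (j + 1) r y‖ := by
      refine Summable.of_nonneg_of_le (fun m => integral_nonneg fun y => norm_nonneg _)
        (fun m => ?_) (hsm.mul_right (∫ y : ℝ, (1 + y ^ 2)⁻¹))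
      rw [← integral_const_mul]
      exact integral_mono (hint m).norm (integrable_inv_one_add_sq.const_mul _) (hb m)
    have hhas := hasSum_integral_of_summable_integral_norm hint hnorm
    have hI : ∫ y : ℝ, 1 / (pt M y + k) ^ (j + 1) * K r (pt M y) =
        ∫ y : ℝ, ∑' m : ℤ, g a (sh M m) (j + 1) r y := by
      congr 1
      funext y
      exact hsum y
    rw [hI, ← hhas.tsum_eq]
    -- values of the terms
    set c : ℂ := 2 * Real.pi * (-1) ^ r * ((j + r - 1).choose (r - 1) : ℂ) with hc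
    have hval : ∀ m : ℤ, ∫ y : ℝ, g a (sh M m) (j + 1) r y =
        if m ≤ M then c / ((k : ℂ) - m) ^ (j + r) else 0 := by
      intro m
      split_ifs with hm
      · have h1 := J_val hapos (sh_neg hm) j (r - 1)
        have h2 : r - 1 + 1 = r := by omega
        rw [h2] at h1
        change ∫ y : ℝ, g a (sh M m) (j + 1) r y = _ at h1
        rw [h1]
        have h3 : (a : ℂ) - (sh M m : ℂ) = (k : ℂ) - m := by
          rw [ha_def]
          unfold sh
          push_cast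
          ring
        have h4 : j + (r - 1) + 1 = j + r := by omega
        have h5 : j + (r - 1) = j + r - 1 := by omega
        rw [h3, h4, h5]
      · have h1 := J_zero (j := j + 1) (r := r) hapos (sh_pos (not_le.mp hm)) (by omega)
        exact h1
    simp only [hval]
    -- reindex
    have hre : ∑' m : ℤ, (if m ≤ M then c / ((k : ℂ) - m) ^ (j + r) else 0) =
        ∑' l : ℕ, (if k - M - 1 ≤ l then c / ((l : ℂ) + 1) ^ (j + r) else 0) := by
      rw [← (Equiv.subLeft ((k : ℤ) - 1)).tsum_eq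
        (fun m : ℤ => (if m ≤ M then c / ((k : ℂ) - m) ^ (j + r) else 0))]
      have h1 : Function.Injective (fun l : ℕ => (l : ℤ)) := Nat.cast_injective
      rw [← h1.tsum_eq]
      · refine tsum_congr fun l => ?_
        simp only [Equiv.subLeft_apply]
        have h2 : ((k : ℤ) - 1 - (l : ℤ) ≤ (M : ℤ)) ↔ (k - M - 1 ≤ l) := by omega
        have h3 : (k : ℂ) - (((k : ℤ) - 1 - (l : ℤ) : ℤ) : ℂ) = (l : ℂ) + 1 := by
          push_cast; ring
        simp only [h2, h3]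
      · intro m hm
        simp only [Function.mem_support, Equiv.subLeft_apply, ne_eq, ite_eq_right_iff,
          Classical.not_imp] at hm
        have h4 : 0 ≤ m := by have := hm.1; omega
        exact ⟨m.toNat, by simp [h4]⟩
    rw [hre]
    have hs : Summable fun l : ℕ => 1 / ((l : ℂ) + 1) ^ (j + r) := by
      have h1 : Summable fun n : ℕ => 1 / (n : ℝ) ^ (j + r) :=
        Real.summable_one_div_nat_pow.mpr (by omega)
      have h2 := (summable_nat_add_iff 1).mpr h1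
      have h3 : (fun l : ℕ => 1 / ((l : ℂ) + 1) ^ (j + r)) =
          fun l : ℕ => (((1 / ((l + 1 : ℕ) : ℝ) ^ (j + r) : ℝ)) : ℂ) := by
        funext l
        push_cast
        rfl
      rw [h3]
      exact Complex.ofRealCLM.summable h2
    have hs2 : Summable fun l : ℕ =>
        (if k - M - 1 ≤ l then c / ((l : ℂ) + 1) ^ (j + r) else 0) := by
      refine (hs.norm.mul_left ‖c‖).of_norm_bounded fun l => ?_
      split_ifs
      · rw [div_eq_mul_one_div, norm_mul]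
      · rw [norm_zero]; positivity
    rw [← hs2.sum_add_tsum_nat_add (k - M - 1), ← hs.sum_add_tsum_nat_add (k - M - 1)]
    have hz : ∑ i ∈ Finset.range (k - M - 1),
        (if k - M - 1 ≤ i then c / ((i : ℂ) + 1) ^ (j + r) else 0) = 0 := by
      refine Finset.sum_eq_zero fun i hi => ?_
      rw [if_neg]
      have := Finset.mem_range.mp hi
      omega
    rw [hz, zero_add, add_sub_cancel_left, ← tsum_mul_left]
    refine tsum_congr fun l => ?_
    rw [if_pos (by omega)]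
    rw [div_eq_mul_one_div]

end ZetaSets
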