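import Pool.Agent.Work.MP_4f096c_nt.Defs

/-!
Complex analysis for the project MP_4f096c_nt (TASK S of note 883): the kernel
`K r t = sum over all integers m of (t + m)^{-r}` decays exponentially in vertical direction,
integrals over vertical lines can be shifted inside a strip around an integer where the other
factor vanishes to order `r`, and the integral over the symmetric line is not zero.
-/

namespace ZetaSets

open Complex MeasureTheory Filter Topology Set

/-! ### Summability and splitting off one term -/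

theorem summable_K {r : ℕ} (hr : 2 ≤ r) (z : ℂ) : Summable fun m : ℤ => 1 / (z + m) ^ r := by
  have h := EisensteinSeries.linear_right_summable z 1 (k := (r : ℤ)) (by exact_mod_cast hr)
  refine h.congr fun m => ?_
  simp [one_div]

/-- the kernel without the term that is singular at `m0` -/
noncomputable def Kg (r : ℕ) (m0 : ℤ) (z : ℂ) : ℂ :=
  ∑' m : ℤ, if m = -m0 then (0 : ℂ) else 1 / (z + m) ^ r

theorem K_split {r : ℕ} (hr : 2 ≤ r) (m0 : ℤ) (z : ℂ) :
    K r z = 1 / (z - m0) ^ r + Kg r m0 z := by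
  unfold K Kg
  rw [(summable_K hr z).tsum_eq_add_tsum_ite (-m0)]
  congr 2
  push_cast
  ring

theorem summable_bound {r : ℕ} (hr : 2 ≤ r) (m0 : ℤ) :
    Summable fun m : ℤ => (4 / |((m + m0 : ℤ) : ℝ)|) ^ r := by
  have h1 : Summable fun n : ℤ => 1 / (n : ℝ) ^ r :=
    Real.summable_one_div_int_pow.mpr (by omega)
  have h2 : Summable fun n : ℤ => (4 : ℝ) ^ r * |1 / (n : ℝ) ^ r| := (h1.abs).mul_left _
  have h3 := (Equiv.addRight m0).summable_iff.mpr h2
  refine h3.congr fun m => ?_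
  simp only [Function.comp_apply, Equiv.coe_addRight]
  rw [div_pow, abs_div, abs_one, abs_pow]
  ring

theorem Kg_differentiableOn {r : ℕ} (hr : 2 ≤ r) (m0 : ℤ) :
    DifferentiableOn ℂ (Kg r m0) {z : ℂ | |z.re - m0| < 3 / 4} := by
  unfold Kg
  have hopen : IsOpen {z : ℂ | |z.re - m0| < 3 / 4} := by
    apply isOpen_lt _ continuous_const
    fun_prop
  have key : ∀ (m : ℤ), m ≠ -m0 → ∀ z : ℂ, |z.re - m0| < 3 / 4 →
      |((m + m0 : ℤ) : ℝ)| / 4 ≤ ‖z + m‖ := by
    intro m hm z hz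
    have h1 : |(z + m).re| ≤ ‖z + m‖ := Complex.abs_re_le_norm _
    have h2 : (z + m).re = (z.re - m0) + ((m + m0 : ℤ) : ℝ) := by
      simp only [Complex.add_re, Complex.intCast_re]
      push_cast
      ring
    have h3 : (1 : ℝ) ≤ |((m + m0 : ℤ) : ℝ)| := by
      have : (m + m0 : ℤ) ≠ 0 := fun h => hm (by omega)
      have h4 : (1 : ℤ) ≤ |m + m0| := Int.one_le_abs this
      exact_mod_cast h4
    have h5 : |((m + m0 : ℤ) : ℝ)| - 3 / 4 ≤ |(z + m).re| := by
      rw [h2]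
      have := abs_sub_abs_le_abs_sub (((m + m0 : ℤ) : ℝ)) (-(z.re - m0))
      rw [abs_neg, sub_neg_eq_add] at this
      rw [add_comm (z.re - (m0 : ℝ))]
      linarith
    linarith
  refine differentiableOn_tsum_of_summable_norm (summable_bound hr m0) (fun m => ?_) hopen
    (fun m z hz => ?_)
  · by_cases hm : m = -m0
    · simp [hm]
    · simp only [hm, if_false]
      intro z hz
      have h0 : z + m ≠ 0 := by
        intro h
        have h1 := key m hm z hz
        rw [h, norm_zero] at h1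
        have h4 : (1 : ℤ) ≤ |m + m0| := Int.one_le_abs (fun h => hm (by omega))
        have h5 : (1 : ℝ) ≤ |((m + m0 : ℤ) : ℝ)| := by exact_mod_cast h4
        linarith
      have hd : DifferentiableAt ℂ (fun z : ℂ => 1 / (z + m) ^ r) z := by
        apply DifferentiableAt.div (by fun_prop) (by fun_prop)
        exact pow_ne_zero _ h0
      exact hd.differentiableWithinAt
  · by_cases hm : m = -m0
    · subst hm
      simp only [if_true, norm_zero]
      positivity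
    · simp only [hm, if_false]
      have h1 := key m hm z hz
      have h4 : (1 : ℤ) ≤ |m + m0| := Int.one_le_abs (fun h => hm (by omega))
      have h5 : (1 : ℝ) ≤ |((m + m0 : ℤ) : ℝ)| := by exact_mod_cast h4
      rw [norm_div, norm_one, norm_pow, ← one_div_pow]
      apply pow_le_pow_left₀ (by positivity)
      rw [div_le_div_iff₀ (by linarith) (by linarith)]
      linarith

/-! ### Symmetry and decay -/

theorem K_neg (r : ℕ) (z : ℂ) : K r (-z) = (-1) ^ r * K r z := by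
  unfold K
  rw [← tsum_mul_left, ← (Equiv.neg ℤ).tsum_eq]
  refine tsum_congr fun m => ?_
  simp only [Equiv.neg_apply, Int.cast_neg]
  rw [show -z + -(m : ℂ) = (-1) * (z + m) by ring, mul_pow]
  have h : ((-1 : ℂ) ^ r) * ((-1 : ℂ) ^ r) = 1 := by
    rw [← mul_pow]; norm_num
  rw [one_div, mul_inv, one_div]
  congr 1
  exact inv_eq_of_mul_eq_one_left h

/-- the real series in the Lipschitz formula -/
noncomputable def S (r : ℕ) (y : ℝ) : ℝ :=
  ∑' n : ℕ, (n : ℝ) ^ (r - 1) * Real.exp (-(2 * Real.pi * y)) ^ n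

noncomputable def kap (r : ℕ) : ℂ := (-2 * Real.pi * I) ^ r / ((r - 1).factorial : ℂ)

theorem kap_ne_zero (r : ℕ) : kap r ≠ 0 := by
  unfold kap
  apply div_ne_zero
  · apply pow_ne_zero
    simp [Real.pi_ne_zero]
  · exact_mod_cast Nat.factorial_ne_zero _

theorem lipschitz {r : ℕ} (hr : 2 ≤ r) {z : ℂ} (hz : 0 < z.im) :
    K r z = kap r * ∑' n : ℕ, (n : ℂ) ^ (r - 1) * cexp (2 * Real.pi * I * z) ^ n := by
  obtain ⟨k, rfl⟩ : ∃ k, r = k + 1 := ⟨r - 1, by omega⟩
  have h := EisensteinSeries.qExpansion_identity (k := k) (by omega) ⟨z, hz⟩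
  unfold K kap
  simpa using h

theorem summable_S (k : ℕ) {y : ℝ} (hy : 0 < y) :
    Summable fun n : ℕ => (n : ℝ) ^ k * Real.exp (-(2 * Real.pi * y)) ^ n := by
  apply summable_pow_mul_geometric_of_norm_lt_one
  rw [Real.norm_eq_abs, abs_of_pos (Real.exp_pos _)]
  rw [Real.exp_lt_one_iff]
  have := Real.pi_pos
  nlinarith [mul_pos this hy]

theorem S_nonneg (r : ℕ) (y : ℝ) : 0 ≤ S r y :=
  tsum_nonneg fun n => by positivity

theorem S_pos {r : ℕ} {y : ℝ} (hy : 0 < y) : 0 < S r y := by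
  apply (summable_S (r - 1) hy).tsum_pos (fun n => by positivity) 1
  simp only [Nat.cast_one, one_pow, pow_one, one_mul]
  exact Real.exp_pos _

theorem S_le {r : ℕ} (hr : 2 ≤ r) {y : ℝ} (hy : 1 ≤ y) :
    S r y ≤ Real.exp (-(2 * Real.pi * y)) * (Real.exp (2 * Real.pi) * S r 1) := by
  unfold S
  rw [← tsum_mul_left, ← tsum_mul_left]
  apply Summable.tsum_le_tsum _ (summable_S (r - 1) (by linarith))
  · exact ((summable_S (r - 1) one_pos).mul_left _).mul_left _
  · intro n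
    rcases Nat.eq_zero_or_pos n with rfl | hn
    · rw [Nat.cast_zero, zero_pow (by omega)]
      simp
    · rw [← Real.exp_nat_mul, ← Real.exp_nat_mul]
      have h1 : Real.exp (n * -(2 * Real.pi * y)) ≤
          Real.exp (-(2 * Real.pi * y)) * (Real.exp (2 * Real.pi) *
            Real.exp (n * -(2 * Real.pi * 1))) := by
        rw [← Real.exp_add, ← Real.exp_add]
        apply Real.exp_le_exp.mpr
        have h2 : (1 : ℝ) ≤ n := by exact_mod_cast hn
        have h3 := Real.pi_pos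
        nlinarith [mul_nonneg (mul_nonneg h3.le (sub_nonneg.mpr h2)) (sub_nonneg.mpr hy)]
      calc (n : ℝ) ^ (r - 1) * Real.exp (n * -(2 * Real.pi * y))
          ≤ (n : ℝ) ^ (r - 1) * (Real.exp (-(2 * Real.pi * y)) * (Real.exp (2 * Real.pi) *
            Real.exp (n * -(2 * Real.pi * 1)))) := by gcongr
        _ = _ := by ring

theorem K_le_S {r : ℕ} (hr : 2 ≤ r) {z : ℂ} (hz : 0 < z.im) :
    ‖K r z‖ ≤ ‖kap r‖ * S r z.im := by
  rw [lipschitz hr hz, norm_mul]
  apply mul_le_mul_of_nonneg_left _ (norm_nonneg _)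
  unfold S
  have h : ∀ n : ℕ, ‖(n : ℂ) ^ (r - 1) * cexp (2 * Real.pi * I * z) ^ n‖ =
      (n : ℝ) ^ (r - 1) * Real.exp (-(2 * Real.pi * z.im)) ^ n := by
    intro n
    rw [norm_mul, norm_pow, norm_pow, Complex.norm_natCast, Complex.norm_exp]
    congr 3
    simp
  have hs : Summable fun n : ℕ => ‖(n : ℂ) ^ (r - 1) * cexp (2 * Real.pi * I * z) ^ n‖ := by
    simp_rw [h]
    exact summable_S (r - 1) hz
  refine (norm_tsum_le_tsum_norm hs).trans (le_of_eq ?_)
  exact tsum_congr h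

theorem K_decay {r : ℕ} (hr : 2 ≤ r) : ∃ C : ℝ, 0 ≤ C ∧ ∀ z : ℂ, 1 ≤ |z.im| →
    ‖K r z‖ ≤ C * Real.exp (-(2 * Real.pi * |z.im|)) := by
  refine ⟨‖kap r‖ * (Real.exp (2 * Real.pi) * S r 1), by
    have := S_nonneg r 1
    positivity, ?_⟩
  have key : ∀ z : ℂ, 1 ≤ z.im →
      ‖K r z‖ ≤ ‖kap r‖ * (Real.exp (2 * Real.pi) * S r 1) *
        Real.exp (-(2 * Real.pi * z.im)) := by
    intro z hz
    refine (K_le_S hr (by linarith)).trans ?_
    have h := S_le hr hz
    calc ‖kap r‖ * S r z.im ≤ ‖kap r‖ * (Real.exp (-(2 * Real.pi * z.im)) *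
          (Real.exp (2 * Real.pi) * S r 1)) := by gcongr
      _ = _ := by ring
  intro z hz
  rcases le_or_gt 0 z.im with h0 | h0
  · rw [abs_of_nonneg h0] at hz ⊢
    exact key z hz
  · rw [abs_of_neg h0] at hz ⊢
    have h1 := key (-z) (by simpa using hz)
    rw [K_neg, norm_mul, norm_pow, norm_neg, norm_one, one_pow, one_mul] at h1
    simpa using h1

theorem exp_poly (N : ℕ) (y : ℝ) :
    (1 + |y|) ^ N * Real.exp (-(2 * Real.pi * |y|)) ≤
      ((N + 2).factorial * Real.exp 1) / (1 + y ^ 2) := by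
  have hy := abs_nonneg y
  have h1 : (1 + |y|) ^ (N + 2) ≤ (N + 2).factorial * Real.exp (1 + |y|) := by
    have := Real.pow_div_factorial_le_exp (1 + |y|) (by positivity) (N + 2)
    rw [div_le_iff₀ (by positivity)] at this
    linarith
  have h2 : 1 + y ^ 2 ≤ (1 + |y|) ^ 2 := by
    rw [← sq_abs y]; nlinarith
  rw [le_div_iff₀ (by positivity)]
  calc (1 + |y|) ^ N * Real.exp (-(2 * Real.pi * |y|)) * (1 + y ^ 2)
      ≤ (1 + |y|) ^ N * Real.exp (-(2 * Real.pi * |y|)) * (1 + |y|) ^ 2 := by gcongr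
    _ = (1 + |y|) ^ (N + 2) * Real.exp (-(2 * Real.pi * |y|)) := by ring
    _ ≤ ((N + 2).factorial * Real.exp (1 + |y|)) * Real.exp (-(2 * Real.pi * |y|)) := by gcongr
    _ = (N + 2).factorial * Real.exp (1 + |y| - 2 * Real.pi * |y|) := by
        rw [mul_assoc, ← Real.exp_add]; ring_nf
    _ ≤ (N + 2).factorial * Real.exp 1 := by
        gcongr
        have := Real.two_le_pi
        nlinarith [Real.pi_gt_three]

/-! ### Shifting a vertical line -/

theorem integrable_decay {f : ℝ → ℂ} (hf : Continuous f) {D : ℝ}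
    (h : ∀ y, ‖f y‖ ≤ D / (1 + y ^ 2)) : Integrable f := by
  refine Integrable.mono' (integrable_inv_one_add_sq.const_mul D) hf.aestronglyMeasurable
    (Eventually.of_forall fun y => ?_)
  rw [← div_eq_mul_inv]
  exact h y

theorem line_shift {H : ℂ → ℂ} {x1 x2 D : ℝ}
    (hH : DifferentiableOn ℂ H {z : ℂ | z.re ∈ uIcc x1 x2})
    (hD : ∀ z : ℂ, z.re ∈ uIcc x1 x2 → ‖H z‖ ≤ D / (1 + z.im ^ 2))
    (hc1 : Continuous fun y : ℝ => H ((x1 : ℂ) + y * I))
    (hc2 : Continuous fun y : ℝ => H ((x2 : ℂ) + y * I)) :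
    ∫ y : ℝ, H ((x1 : ℂ) + y * I) = ∫ y : ℝ, H ((x2 : ℂ) + y * I) := by
  have him : ∀ x y : ℝ, ((x : ℂ) + y * I).im = y := by intro x y; simp
  have hre : ∀ x y : ℝ, ((x : ℂ) + y * I).re = x := by intro x y; simp
  have hi1 : Integrable fun y : ℝ => H ((x1 : ℂ) + y * I) :=
    integrable_decay hc1 (D := D) fun y => by
      have := hD ((x1 : ℂ) + y * I) (by rw [hre]; exact left_mem_uIcc)
      rwa [him] at this
  have hi2 : Integrable fun y : ℝ => H ((x2 : ℂ) + y * I) :=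
    integrable_decay hc2 (D := D) fun y => by
      have := hD ((x2 : ℂ) + y * I) (by rw [hre]; exact right_mem_uIcc)
      rwa [him] at this
  have ht1 : Tendsto (fun T : ℝ => ∫ y in (-T)..T, H ((x1 : ℂ) + y * I)) atTop
      (𝓝 (∫ y : ℝ, H ((x1 : ℂ) + y * I))) :=
    intervalIntegral_tendsto_integral hi1 tendsto_neg_atTop_atBot tendsto_id
  have ht2 : Tendsto (fun T : ℝ => ∫ y in (-T)..T, H ((x2 : ℂ) + y * I)) atTop
      (𝓝 (∫ y : ℝ, H ((x2 : ℂ) + y * I))) :=
    intervalIntegral_tendsto_integral hi2 tendsto_neg_atTop_atBot tendsto_id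
  -- the horizontal pieces
  have hbound : Tendsto (fun T : ℝ => D / (1 + T ^ 2) * |x2 - x1|) atTop (𝓝 0) := by
    have h1 : Tendsto (fun T : ℝ => 1 + T ^ 2) atTop atTop :=
      tendsto_atTop_add_const_left _ _ (tendsto_pow_atTop (by norm_num))
    have h2 := (h1.const_div_atTop D).mul_const |x2 - x1|
    simpa using h2
  have hh1 : Tendsto (fun T : ℝ => ∫ x in x1..x2, H ((x : ℂ) + (T : ℝ) * I)) atTop (𝓝 0) := by
    refine squeeze_zero_norm (fun T => ?_) hbound
    refine intervalIntegral.norm_integral_le_of_norm_le_const fun x hx => ?_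
    have := hD ((x : ℂ) + (T : ℝ) * I) (by rw [hre]; exact uIoc_subset_uIcc hx)
    rwa [him] at this
  have hh2 : Tendsto (fun T : ℝ => ∫ x in x1..x2, H ((x : ℂ) + ((-T : ℝ) : ℂ) * I)) atTop
      (𝓝 0) := by
    refine squeeze_zero_norm (fun T => ?_) hbound
    refine intervalIntegral.norm_integral_le_of_norm_le_const fun x hx => ?_
    have := hD ((x : ℂ) + ((-T : ℝ) : ℂ) * I) (by rw [hre]; exact uIoc_subset_uIcc hx)
    rw [him, neg_sq] at this
    exact this
  have hrect : ∀ T : ℝ,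
      (∫ x : ℝ in x1..x2, H ((x : ℂ) + ((-T : ℝ) : ℂ) * I)) -
        (∫ x : ℝ in x1..x2, H ((x : ℂ) + (T : ℝ) * I)) +
        I • (∫ y : ℝ in (-T)..T, H ((x2 : ℂ) + y * I)) -
        I • (∫ y : ℝ in (-T)..T, H ((x1 : ℂ) + y * I)) = 0 := by
    intro T
    have h := integral_boundary_rect_eq_zero_of_differentiableOn H ⟨x1, -T⟩ ⟨x2, T⟩
      (hH.mono fun z hz => hz.1)
    simpa using h
  have hlim := ((hh2.sub hh1).add (ht2.const_smul I)).sub (ht1.const_smul I)
  have hzero : Tendsto (fun T : ℝ =>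
      (∫ x : ℝ in x1..x2, H ((x : ℂ) + ((-T : ℝ) : ℂ) * I)) -
        (∫ x : ℝ in x1..x2, H ((x : ℂ) + (T : ℝ) * I)) +
        I • (∫ y : ℝ in (-T)..T, H ((x2 : ℂ) + y * I)) -
        I • (∫ y : ℝ in (-T)..T, H ((x1 : ℂ) + y * I))) atTop (𝓝 0) := by
    simp_rw [hrect]
    exact tendsto_const_nhds
  have heq := tendsto_nhds_unique hlim hzero
  simp only [sub_self, zero_add, smul_eq_mul] at heq
  have : I * ((∫ y : ℝ, H ((x2 : ℂ) + y * I)) - ∫ y : ℝ, H ((x1 : ℂ) + y * I)) = 0 := by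
    rw [mul_sub]; exact heq
  rcases mul_eq_zero.mp this with h | h
  · exact absurd h I_ne_zero
  · exact (sub_eq_zero.mp h).symm

/-! ### The product `G * K` in a strip -/

/-- the holomorphic continuation of `G * K` in the strip around `m0` -/
noncomputable def HH (r : ℕ) (m0 : ℤ) (G0 : ℂ → ℂ) (z : ℂ) : ℂ :=
  G0 z * (1 + (z - m0) ^ r * Kg r m0 z)

theorem HH_eq {r : ℕ} (hr : 2 ≤ r) (m0 : ℤ) {G G0 : ℂ → ℂ} {z : ℂ}
    (hG : G z = (z - m0) ^ r * G0 z) (hz : z ≠ m0) : G z * K r z = HH r m0 G0 z := by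
  unfold HH
  rw [K_split hr m0, hG]
  have h : (z - m0) ^ r ≠ 0 := pow_ne_zero _ (sub_ne_zero.mpr hz)
  field_simp

theorem HH_differentiableOn {r : ℕ} (hr : 2 ≤ r) (m0 : ℤ) {G0 : ℂ → ℂ}
    (hG0 : DifferentiableOn ℂ G0 {z : ℂ | |z.re - m0| < 3 / 4}) :
    DifferentiableOn ℂ (HH r m0 G0) {z : ℂ | |z.re - m0| < 3 / 4} := by
  unfold HH
  exact hG0.mul ((differentiableOn_const _).add
    ((by fun_prop : Differentiable ℂ fun z : ℂ => (z - m0) ^ r).differentiableOn.mul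
      (Kg_differentiableOn hr m0)))

theorem HH_bound {r : ℕ} (hr : 2 ≤ r) (m0 : ℤ) {G G0 : ℂ → ℂ}
    (hG0 : DifferentiableOn ℂ G0 {z : ℂ | |z.re - m0| < 3 / 4})
    (hG : ∀ z : ℂ, |z.re - m0| ≤ 1 / 2 → G z = (z - m0) ^ r * G0 z)
    {C : ℝ} {N : ℕ} (hgr : ∀ z : ℂ, |z.re - m0| ≤ 1 / 2 → ‖G z‖ ≤ C * (1 + |z.im|) ^ N) :
    ∃ D : ℝ, ∀ z : ℂ, |z.re - m0| ≤ 1 / 2 → ‖HH r m0 G0 z‖ ≤ D / (1 + z.im ^ 2) := by
  have hC : 0 ≤ C := by
    have := hgr m0 (by simp)
    simp only [Complex.intCast_im, abs_zero, add_zero, one_pow, mul_one] at this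
    exact (norm_nonneg _).trans this
  obtain ⟨C1, hC1, hK⟩ := K_decay hr
  have hcont := (HH_differentiableOn hr m0 hG0).continuousOn
  have hcpt : IsCompact ((Icc ((m0 : ℝ) - 1 / 2) (m0 + 1 / 2)) ×ℂ (Icc (-1 : ℝ) 1)) :=
    isCompact_Icc.reProdIm isCompact_Icc
  obtain ⟨B, hB⟩ := hcpt.exists_bound_of_continuousOn (hcont.mono fun z hz => by
    have h1 := hz.1
    simp only [mem_preimage, mem_Icc] at h1
    simp only [mem_ofPred_eq, abs_lt]
    constructor <;> linarith [h1.1, h1.2])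
  refine ⟨2 * |B| + C * C1 * ((N + 2).factorial * Real.exp 1), fun z hz => ?_⟩
  have hpos : 0 < 1 + z.im ^ 2 := by positivity
  have hE : 0 ≤ ((N + 2).factorial : ℝ) * Real.exp 1 := by positivity
  rcases le_or_gt |z.im| 1 with h1 | h1
  · have hm : z ∈ (Icc ((m0 : ℝ) - 1 / 2) (m0 + 1 / 2)) ×ℂ (Icc (-1 : ℝ) 1) := by
      rw [abs_le] at hz h1
      refine ⟨?_, ?_⟩
      · simp only [mem_preimage, mem_Icc]; constructor <;> linarith [hz.1, hz.2]
      · simp only [mem_preimage, mem_Icc]; exact h1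
    have h2 := hB z hm
    rw [le_div_iff₀ hpos]
    have h3 : z.im ^ 2 ≤ 1 := by
      rw [← sq_abs]; nlinarith [abs_nonneg z.im]
    have h4 : ‖HH r m0 G0 z‖ ≤ |B| := h2.trans (le_abs_self B)
    have h5 : 0 ≤ C * C1 * ((N + 2).factorial * Real.exp 1) := by positivity
    nlinarith [norm_nonneg (HH r m0 G0 z), abs_nonneg B]
  · have hz0 : z ≠ m0 := by
      intro h
      rw [h] at h1
      simp at h1
      linarith
    rw [← HH_eq hr m0 (hG z hz) hz0, norm_mul]
    have h2 := hgr z hz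
    have h3 := hK z h1.le
    have h4 := exp_poly N z.im
    calc ‖G z‖ * ‖K r z‖ ≤ (C * (1 + |z.im|) ^ N) * (C1 * Real.exp (-(2 * Real.pi * |z.im|))) := by
          gcongr
      _ = C * C1 * ((1 + |z.im|) ^ N * Real.exp (-(2 * Real.pi * |z.im|))) := by ring
      _ ≤ C * C1 * (((N + 2).factorial * Real.exp 1) / (1 + z.im ^ 2)) := by gcongr
      _ = (C * C1 * ((N + 2).factorial * Real.exp 1)) / (1 + z.im ^ 2) := by ring
      _ ≤ _ := by
          apply div_le_div_of_nonneg_right _ hpos.le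
          have := abs_nonneg B
          linarith

theorem HH_continuous {r : ℕ} (hr : 2 ≤ r) (m0 : ℤ) {G0 : ℂ → ℂ} {x : ℝ}
    (hx : |x - m0| ≤ 1 / 2)
    (hG0 : DifferentiableOn ℂ G0 {z : ℂ | |z.re - m0| < 3 / 4}) :
    Continuous fun y : ℝ => HH r m0 G0 ((x : ℂ) + y * I) := by
  refine (HH_differentiableOn hr m0 hG0).continuousOn.comp_continuous (by fun_prop) fun y => ?_
  simp only [mem_ofPred_eq, add_re, ofReal_re, mul_re, I_re, mul_zero, ofReal_im, I_im, mul_one,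
    sub_self, add_zero]
  linarith

theorem GK_ae {r : ℕ} (hr : 2 ≤ r) (m0 : ℤ) {G G0 : ℂ → ℂ} {x : ℝ}
    (hx : |x - m0| ≤ 1 / 2)
    (hG : ∀ z : ℂ, |z.re - m0| ≤ 1 / 2 → G z = (z - m0) ^ r * G0 z) :
    (fun y : ℝ => HH r m0 G0 ((x : ℂ) + y * I)) =ᵐ[volume]
      fun y : ℝ => G ((x : ℂ) + y * I) * K r ((x : ℂ) + y * I) := by
  have h0 : ∀ᵐ y : ℝ, y ≠ 0 := by simp [ae_iff, measure_singleton]
  filter_upwards [h0] with y hy
  symm
  apply HH_eq hr m0 (hG _ (by simpa using hx))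
  intro h
  apply hy
  have := congrArg Complex.im h
  simpa using this

/-- integrability on one line of the strip, polynomial growth -/
theorem shift_integrable {r : ℕ} (hr : 3 ≤ r) (m0 : ℤ) {G G0 : ℂ → ℂ} {x : ℝ}
    (hx : |x - m0| ≤ 1 / 2)
    (hG0 : DifferentiableOn ℂ G0 {z : ℂ | |z.re - m0| < 3 / 4})
    (hG : ∀ z : ℂ, |z.re - m0| ≤ 1 / 2 → G z = (z - m0) ^ r * G0 z)
    {C : ℝ} {N : ℕ} (hgr : ∀ z : ℂ, |z.re - m0| ≤ 1 / 2 → ‖G z‖ ≤ C * (1 + |z.im|) ^ N) :
    Integrable (fun y : ℝ => G ((x : ℂ) + y * I) * K r ((x : ℂ) + y * I)) := by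
  have hr2 : 2 ≤ r := by omega
  obtain ⟨D, hD⟩ := HH_bound hr2 m0 hG0 hG hgr
  refine Integrable.congr (integrable_decay (HH_continuous hr2 m0 hx hG0) (D := D) fun y => ?_)
    (GK_ae hr2 m0 hx hG)
  have := hD ((x : ℂ) + y * I) (by simpa using hx)
  simpa using this

theorem shift {r : ℕ} (hr : 3 ≤ r) (m0 : ℤ) {G G0 : ℂ → ℂ} {x1 x2 : ℝ}
    (hx1 : |x1 - m0| ≤ 1 / 2) (hx2 : |x2 - m0| ≤ 1 / 2)
    (hG0 : DifferentiableOn ℂ G0 {z : ℂ | |z.re - m0| < 3 / 4})
    (hG : ∀ z : ℂ, |z.re - m0| ≤ 1 / 2 → G z = (z - m0) ^ r * G0 z)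
    {C : ℝ} {N : ℕ} (hgr : ∀ z : ℂ, |z.re - m0| ≤ 1 / 2 → ‖G z‖ ≤ C * (1 + |z.im|) ^ N) :
    ∫ y : ℝ, G ((x1 : ℂ) + y * I) * K r ((x1 : ℂ) + y * I) =
      ∫ y : ℝ, G ((x2 : ℂ) + y * I) * K r ((x2 : ℂ) + y * I) := by
  have hr2 : 2 ≤ r := by omega
  obtain ⟨D, hD⟩ := HH_bound hr2 m0 hG0 hG hgr
  rw [← integral_congr_ae (GK_ae hr2 m0 hx1 hG), ← integral_congr_ae (GK_ae hr2 m0 hx2 hG)]
  have hsub : ∀ z : ℂ, z.re ∈ uIcc x1 x2 → |z.re - m0| ≤ 1 / 2 := by
    intro z hz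
    rw [abs_le] at *
    rcases mem_uIcc.mp hz with h | h <;> constructor <;> linarith [h.1, h.2, hx1.1, hx1.2,
      hx2.1, hx2.2]
  refine line_shift (D := D) ((HH_differentiableOn hr2 m0 hG0).mono fun z hz => ?_)
    (fun z hz => hD z (hsub z hz)) (HH_continuous hr2 m0 hx1 hG0) (HH_continuous hr2 m0 hx2 hG0)
  have := hsub z hz
  simp only [mem_ofPred_eq]
  linarith

/-! ### The symmetric line -/

theorem K_pos_im {r : ℕ} (hr : 2 ≤ r) {y : ℝ} (hy : 0 < y) :
    K r ((y : ℂ) * I) = kap r * (S r y : ℂ) := by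
  rw [lipschitz hr (by simpa using hy)]
  congr 1
  unfold S
  rw [ofReal_tsum]
  refine tsum_congr fun n => ?_
  push_cast
  congr 3
  rw [show 2 * (Real.pi : ℂ) * I * (y * I) = 2 * Real.pi * y * (I * I) by ring, I_mul_I]
  ring

/-- the integrand on the symmetric line, up to a constant -/
noncomputable def Fpos (r : ℕ) (Q : ℝ → ℝ) (y : ℝ) : ℝ := |y| ^ (r + 2) * Q y * S r |y|

theorem integrand_eq {r : ℕ} (hr : 2 ≤ r) (hodd : Odd r) (Q : ℝ → ℝ) (y : ℝ) :
    ((y : ℂ) ^ (r + 2) * (Q y : ℂ)) * K r (y * I) = kap r * (Fpos r Q y : ℂ) := by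
  unfold Fpos
  rcases lt_trichotomy y 0 with h | h | h
  · have h1 : K r ((y : ℂ) * I) = -(kap r * (S r (-y) : ℂ)) := by
      have h2 := K_pos_im hr (y := -y) (by linarith)
      have h3 := K_neg r ((y : ℂ) * I)
      rw [show -((y : ℂ) * I) = ((-y : ℝ) : ℂ) * I by push_cast; ring, h2,
        hodd.neg_one_pow] at h3
      rw [h3]; ring
    have h4 : Odd (r + 2) := by
      obtain ⟨k, hk⟩ := hodd
      exact ⟨k + 1, by omega⟩
    have h5 : ((y : ℂ)) ^ (r + 2) = -((-y : ℝ) : ℂ) ^ (r + 2) := by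
      push_cast
      rw [h4.neg_pow, neg_neg]
    rw [abs_of_neg h, h1, h5]
    push_cast
    ring
  · subst h
    simp
  · rw [abs_of_pos h, K_pos_im hr h]
    push_cast
    ring

theorem integrand_cont_eq {r : ℕ} (hr : 2 ≤ r) (Q : ℝ → ℝ) (y : ℝ) :
    ((y : ℂ) ^ (r + 2) * (Q y : ℂ)) * K r (y * I) =
      (y : ℂ) ^ 2 * (Q y : ℂ) * (HH r 0 (fun _ => 1) (((0 : ℝ) : ℂ) + y * I)) / I ^ r := by
  by_cases hy : y = 0
  · subst hy
    simp
  · have h := HH_eq hr 0 (G := fun z => z ^ r) (G0 := fun _ => 1) (z := (y : ℂ) * I) (by simp)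
      (by simp [hy])
    have h2 : I ^ r ≠ 0 := pow_ne_zero _ I_ne_zero
    rw [show (((0 : ℝ) : ℂ) + y * I) = (y : ℂ) * I by simp, ← h, mul_pow]
    field_simp
    ring

theorem integrand_integrable {r : ℕ} (hr : 2 ≤ r) {Q : ℝ → ℝ} (hQ : Continuous Q)
    (hQpos : ∀ y, 0 ≤ Q y) {C : ℝ} {N : ℕ} (hgr : ∀ y, Q y ≤ C * (1 + |y|) ^ N) :
    Integrable fun y : ℝ => ((y : ℂ) ^ (r + 2) * (Q y : ℂ)) * K r (y * I) := by
  have hC : 0 ≤ C := by
    have := (hQpos 0).trans (hgr 0)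
    simpa using this
  have hcont : Continuous fun y : ℝ => ((y : ℂ) ^ (r + 2) * (Q y : ℂ)) * K r (y * I) := by
    simp_rw [integrand_cont_eq hr Q]
    have h1 : Continuous fun y : ℝ => HH r 0 (fun _ => 1) (((0 : ℝ) : ℂ) + y * I) :=
      HH_continuous hr 0 (by simp) (differentiableOn_const _)
    have h2 : Continuous fun y : ℝ => (Q y : ℂ) := continuous_ofReal.comp hQ
    fun_prop
  obtain ⟨C1, hC1, hK⟩ := K_decay hr
  obtain ⟨B, hB⟩ := isCompact_Icc.exists_bound_of_continuousOn (s := Icc (-1 : ℝ) 1)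
    hcont.continuousOn
  refine integrable_decay hcont
    (D := 2 * |B| + C * C1 * ((N + (r + 2) + 2).factorial * Real.exp 1)) fun y => ?_
  have hpos : 0 < 1 + y ^ 2 := by positivity
  rcases le_or_gt |y| 1 with h1 | h1
  · have h2 := hB y (abs_le.mp h1)
    rw [le_div_iff₀ hpos]
    have h3 : y ^ 2 ≤ 1 := by
      rw [← sq_abs]; nlinarith [abs_nonneg y]
    have h4 := h2.trans (le_abs_self B)
    have h5 : 0 ≤ C * C1 * ((N + (r + 2) + 2).factorial * Real.exp 1) := by positivity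
    nlinarith [norm_nonneg (((y : ℂ) ^ (r + 2) * (Q y : ℂ)) * K r (y * I)), abs_nonneg B]
  · have h3 := hK ((y : ℂ) * I) (by simpa using h1.le)
    have h3' : ‖K r ((y : ℂ) * I)‖ ≤ C1 * Real.exp (-(2 * Real.pi * |y|)) := by simpa using h3
    have h4 := exp_poly (N + (r + 2)) y
    have h5 : ‖(y : ℂ) ^ (r + 2)‖ ≤ (1 + |y|) ^ (r + 2) := by
      rw [norm_pow, Complex.norm_real, Real.norm_eq_abs]
      gcongr
      linarith [abs_nonneg y]
    have h6 : ‖(Q y : ℂ)‖ ≤ C * (1 + |y|) ^ N := by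
      rw [Complex.norm_real, Real.norm_eq_abs, abs_of_nonneg (hQpos y)]
      exact hgr y
    rw [norm_mul, norm_mul]
    calc ‖(y : ℂ) ^ (r + 2)‖ * ‖(Q y : ℂ)‖ * ‖K r (y * I)‖
        ≤ (1 + |y|) ^ (r + 2) * (C * (1 + |y|) ^ N) *
            (C1 * Real.exp (-(2 * Real.pi * |y|))) := by gcongr
      _ = C * C1 * ((1 + |y|) ^ (N + (r + 2)) * Real.exp (-(2 * Real.pi * |y|))) := by ring
      _ ≤ C * C1 * (((N + (r + 2) + 2).factorial * Real.exp 1) / (1 + y ^ 2)) := by gcongr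
      _ = (C * C1 * ((N + (r + 2) + 2).factorial * Real.exp 1)) / (1 + y ^ 2) := by ring
      _ ≤ _ := by
          apply div_le_div_of_nonneg_right _ hpos.le
          have := abs_nonneg B
          linarith

set_option linter.unusedVariables false in
theorem pos_int {r : ℕ} (hr : 3 ≤ r) (hodd : Odd r) {Q : ℝ → ℝ} (hQ : Continuous Q)
    (hQpos : ∀ y, 0 < Q y) (hQeven : ∀ y, Q (-y) = Q y)
    {C : ℝ} {N : ℕ} (hgr : ∀ y, Q y ≤ C * (1 + |y|) ^ N) :
    ∫ y : ℝ, ((y : ℂ) ^ (r + 2) * (Q y : ℂ)) * K r (y * I) ≠ 0 := by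
  have hr2 : 2 ≤ r := by omega
  have hint := integrand_integrable hr2 hQ (fun y => (hQpos y).le) hgr
  simp_rw [integrand_eq hr2 hodd Q] at hint ⊢
  rw [integral_const_mul, integral_complex_ofReal]
  have hF : Integrable (Fpos r Q) := by
    have h1 := hint.const_mul (kap r)⁻¹
    have h2 : (fun y : ℝ => (kap r)⁻¹ * (kap r * (Fpos r Q y : ℂ))) =
        fun y : ℝ => (Fpos r Q y : ℂ) := by
      ext y
      rw [inv_mul_cancel_left₀ (kap_ne_zero r)]
    rw [h2] at h1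
    simpa using h1.re
  have hnn : 0 ≤ Fpos r Q := fun y => by
    unfold Fpos
    have := S_nonneg r |y|
    have := (hQpos y).le
    positivity
  have hpos : 0 < ∫ y, Fpos r Q y := by
    rw [integral_pos_iff_support_of_nonneg hnn hF]
    have hsub : Ioo (0 : ℝ) 1 ⊆ Function.support (Fpos r Q) := by
      intro y hy
      have h1 : 0 < y := hy.1
      have h2 : 0 < Fpos r Q y := by
        unfold Fpos
        rw [abs_of_pos h1]
        have := S_pos (r := r) h1
        have := hQpos y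
        positivity
      exact h2.ne'
    refine lt_of_lt_of_le ?_ (measure_mono hsub)
    simp
  apply mul_ne_zero (kap_ne_zero r)
  exact_mod_cast hpos.ne'

/-! ### Integrability on the half-integral lines -/

theorem K_pt_continuous {r : ℕ} (hr : 2 ≤ r) (M : ℕ) : Continuous fun y : ℝ => K r (pt M y) := by
  have h1 : ∀ y : ℝ, K r (pt M y) =
      1 / (pt M y - ((-(M : ℤ) : ℤ) : ℂ)) ^ r + Kg r (-(M : ℤ)) (pt M y) :=
    fun y => K_split hr _ _
  simp_rw [h1]
  have hpt : Continuous fun y : ℝ => pt M y := by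
    unfold pt
    fun_prop
  refine Continuous.add ?_ ?_
  · refine continuous_const.div (by fun_prop) fun y => pow_ne_zero _ fun h => ?_
    have h2 := congrArg Complex.re h
    unfold pt at h2
    simp at h2
  · refine (Kg_differentiableOn hr (-(M : ℤ))).continuousOn.comp_continuous hpt fun y => ?_
    unfold pt
    simp only [mem_ofPred_eq]
    have h3 : (-((M : ℂ) + 1 / 2) + (y : ℂ) * I).re - ((-(M : ℤ) : ℤ) : ℝ) = -(1 / 2) := by
      simp
    rw [h3]
    norm_num [abs_of_pos]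

theorem line_integrable {r : ℕ} (hr : 3 ≤ r) (M : ℕ) {g : ℝ → ℂ} (hg : Continuous g)
    {C : ℝ} {N : ℕ} (hgr : ∀ y, ‖g y‖ ≤ C * (1 + |y|) ^ N) :
    Integrable (fun y : ℝ => g y * K r (pt M y)) := by
  have hr2 : 2 ≤ r := by omega
  have hC : 0 ≤ C := by
    have := (norm_nonneg _).trans (hgr 0)
    simpa using this
  have hcont : Continuous fun y : ℝ => g y * K r (pt M y) := hg.mul (K_pt_continuous hr2 M)
  obtain ⟨C1, hC1, hK⟩ := K_decay hr2
  obtain ⟨B, hB⟩ := isCompact_Icc.exists_bound_of_continuousOn (s := Icc (-1 : ℝ) 1)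
    hcont.continuousOn
  refine integrable_decay hcont
    (D := 2 * |B| + C * C1 * ((N + 2).factorial * Real.exp 1)) fun y => ?_
  have hpos : 0 < 1 + y ^ 2 := by positivity
  rcases le_or_gt |y| 1 with h1 | h1
  · have h2 := hB y (abs_le.mp h1)
    rw [le_div_iff₀ hpos]
    have h3 : y ^ 2 ≤ 1 := by
      rw [← sq_abs]; nlinarith [abs_nonneg y]
    have h4 := h2.trans (le_abs_self B)
    have h5 : 0 ≤ C * C1 * ((N + 2).factorial * Real.exp 1) := by positivity
    nlinarith [norm_nonneg (g y * K r (pt M y)), abs_nonneg B]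
  · have him : (pt M y).im = y := by unfold pt; simp
    have h3 := hK (pt M y) (by rw [him]; exact h1.le)
    rw [him] at h3
    have h4 := exp_poly N y
    rw [norm_mul]
    calc ‖g y‖ * ‖K r (pt M y)‖
        ≤ (C * (1 + |y|) ^ N) * (C1 * Real.exp (-(2 * Real.pi * |y|))) := by
          gcongr
          exact hgr y
      _ = C * C1 * ((1 + |y|) ^ N * Real.exp (-(2 * Real.pi * |y|))) := by ring
      _ ≤ C * C1 * (((N + 2).factorial * Real.exp 1) / (1 + y ^ 2)) := by gcongr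
      _ = (C * C1 * ((N + 2).factorial * Real.exp 1)) / (1 + y ^ 2) := by ring
      _ ≤ _ := by
          apply div_le_div_of_nonneg_right _ hpos.le
          have := abs_nonneg B
          linarith

end ZetaSets
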