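import Pool.Agent.Work.MP_4f096c_nt.GRat
import Pool.Agent.Work.MP_4f096c_nt.Jint
import Pool.Agent.Work.MP_4f096c_nt.Shift

/-!
The linear form: the integral on the line number `0` is a combination of zeta values.
-/

namespace ZG

open ZetaSets (K pt PV PF_eval PF_res PF_symm DD shift K_term)
open Polynomial MeasureTheory
open scoped Nat

namespace LF

/-- Polynomials grow polynomially in vertical strips. -/
lemma poly_growth (p : ℚ[X]) (m : ℝ) (hm : 0 ≤ m) : ∃ C : ℝ, 0 ≤ C ∧ ∃ N : ℕ, ∀ z : ℂ,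
    |z.re| ≤ m → ‖aeval z p‖ ≤ C * (1 + |z.im|) ^ N := by
  refine ⟨(∑ i ∈ Finset.range (p.natDegree + 1), |((p.coeff i : ℚ) : ℝ)|) *
    (1 + m) ^ p.natDegree, by positivity, p.natDegree, fun z hz => ?_⟩
  have h1 : ‖z‖ ≤ (1 + m) * (1 + |z.im|) := by
    have := Complex.norm_le_abs_re_add_abs_im z
    nlinarith [abs_nonneg z.im, mul_nonneg hm (abs_nonneg z.im)]
  have h2 : 1 ≤ (1 + m) * (1 + |z.im|) := by
    nlinarith [abs_nonneg z.im, mul_nonneg hm (abs_nonneg z.im)]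
  rw [aeval_eq_sum_range]
  refine (norm_sum_le _ _).trans ?_
  rw [mul_assoc, ← mul_pow, Finset.sum_mul]
  refine Finset.sum_le_sum fun i hi => ?_
  have hi' : i ≤ p.natDegree := by
    have := Finset.mem_range.1 hi
    omega
  have h3 : ‖(p.coeff i) • z ^ i‖ = |((p.coeff i : ℚ) : ℝ)| * ‖z‖ ^ i := by
    rw [Algebra.smul_def, norm_mul, norm_pow]
    congr 1
    have : (algebraMap ℚ ℂ) (p.coeff i) = (((p.coeff i : ℚ) : ℝ) : ℂ) := by simp
    rw [this, Complex.norm_real, Real.norm_eq_abs]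
  rw [h3]
  refine mul_le_mul_of_nonneg_left ?_ (abs_nonneg _)
  calc ‖z‖ ^ i ≤ ((1 + m) * (1 + |z.im|)) ^ i := pow_le_pow_left₀ (norm_nonneg z) h1 i
    _ ≤ _ := pow_le_pow_right₀ h2 hi'

lemma aeval_denP (P : Par) (z : ℂ) : aeval z (denP P) =
    ∏ i, ∏ l ∈ Finset.range (P.h - 2 * P.b i + 1), (z + ((P.b i : ℂ) + l)) := by
  unfold denP
  simp

/-- The denominator is bounded from below to the right of its zeros. -/
lemma den_lower (P : Par) {a0 b0 : ℕ} (hab : a0 < b0) (hb0 : ∀ i, b0 ≤ P.b i) {δ : ℝ}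
    (hδ : 0 ≤ δ) {z : ℂ} (hz : -(a0 : ℝ) - 1 + δ ≤ z.re) :
    δ ^ (∑ i, (P.h - 2 * P.b i + 1)) ≤ ‖aeval z (denP P)‖ := by
  rw [aeval_denP, norm_prod, ← Finset.prod_pow_eq_pow_sum]
  refine Finset.prod_le_prod (fun i _ => by positivity) fun i _ => ?_
  rw [norm_prod]
  calc δ ^ (P.h - 2 * P.b i + 1) = ∏ _l ∈ Finset.range (P.h - 2 * P.b i + 1), δ := by
        rw [Finset.prod_const, Finset.card_range]
    _ ≤ _ := by
        refine Finset.prod_le_prod (fun _ _ => hδ) fun l _ => ?_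
        refine le_trans ?_ (Complex.abs_re_le_norm _)
        refine le_trans ?_ (le_abs_self _)
        have h1 : (z + ((P.b i : ℂ) + l)).re = z.re + ((P.b i : ℝ) + l) := by simp
        rw [h1]
        have h2 : ((a0 : ℝ) + 1) ≤ b0 := by exact_mod_cast hab
        have h3 : (b0 : ℝ) ≤ P.b i := by exact_mod_cast hb0 i
        have h4 : (0 : ℝ) ≤ l := Nat.cast_nonneg l
        linarith

/-- The numerator vanishes to order `r` at `-m`, `1 ≤ m ≤ a0`. -/
lemma num_dvd (P : Par) (d : ℕ) {a0 : ℕ} (ha : ∀ j, a0 ≤ P.a j) {m : ℕ} (hm : 1 ≤ m)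
    (hma : m ≤ a0) : (X + C (m : ℚ)) ^ P.r ∣ numP P d := by
  unfold numP
  apply Dvd.dvd.mul_right
  apply Dvd.dvd.mul_left
  have h1 : (X + C (m : ℚ)) ^ P.r = ∏ _j : Fin P.r, (X + C (m : ℚ)) := by
    rw [Finset.prod_const, Finset.card_univ, Fintype.card_fin]
  rw [h1]
  refine Finset.prod_dvd_prod_of_dvd _ _ fun j _ => ?_
  apply Dvd.dvd.mul_right
  apply Dvd.dvd.mul_right
  have h2 : P.g j + m - 1 ∈ Finset.range (P.g j + P.a j) := by
    have := ha j
    rw [Finset.mem_range]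
    omega
  have h3 : (X + C (m : ℚ)) = X + C (((P.g j + m - 1 : ℕ) : ℚ) + 1 - P.g j) := by
    have : ((P.g j + m - 1 : ℕ) : ℚ) = P.g j + m - 1 := by
      rw [Nat.cast_sub (by omega)]
      push_cast
      ring
    rw [this]
    ring_nf
  rw [h3]
  exact Finset.dvd_prod_of_mem (fun l : ℕ => X + C ((l : ℚ) + 1 - P.g j)) h2

/-- Crossing one zero of the numerator. -/
lemma shift_one (P : Par) {a0 b0 : ℕ} (hP : Good P a0 b0) (d : ℕ) {m : ℕ} (hm : m + 1 ≤ a0) :
    Lf P d m = Lf P d (m + 1) := by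
  have hab : a0 < b0 := by
    obtain ⟨j, hj⟩ := hP.a0mem
    rw [← hj]
    exact hP.alt j
  obtain ⟨q, hq⟩ := num_dvd P d hP.a0le (m := m + 1) (by omega) hm
  have hr3 := hP.r3
  -- growth
  obtain ⟨C, hC, N, hCN⟩ := poly_growth (numP P d) (a0 + 1) (by positivity)
  have hre : ∀ z : ℂ, |z.re - ((-((m : ℤ) + 1) : ℤ) : ℝ)| ≤ 1 / 2 →
      -(a0 : ℝ) - 1 + 1 / 2 ≤ z.re ∧ |z.re| ≤ a0 + 1 := by
    intro z hz
    have hm' : ((m : ℝ) + 1) ≤ a0 := by exact_mod_cast hm
    push_cast at hz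
    rw [abs_le] at hz ⊢
    have hm0 : (0 : ℝ) ≤ m := Nat.cast_nonneg m
    refine ⟨by linarith, by linarith, by linarith⟩
  have hsh := shift (r := P.r) hr3 (-((m : ℤ) + 1))
    (G := fun z => (z * (z + P.h)) ^ d * R P z)
    (G0 := fun z => aeval z q / aeval z (denP P))
    (x1 := -((m : ℝ) + 1 / 2)) (x2 := -(((m + 1 : ℕ) : ℝ) + 1 / 2))
    (by push_cast; rw [abs_le]; constructor <;> linarith)
    (by push_cast; rw [abs_le]; constructor <;> linarith)
    (by
      refine DifferentiableOn.div ?_ ?_ ?_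
      · exact (Polynomial.differentiable_aeval q).differentiableOn
      · exact (Polynomial.differentiable_aeval (denP P)).differentiableOn
      · intro z hz
        have hz' : |z.re - ((-((m : ℤ) + 1) : ℤ) : ℝ)| < 3 / 4 := hz
        have hm' : ((m : ℝ) + 1) ≤ a0 := by exact_mod_cast hm
        push_cast at hz'
        rw [abs_lt] at hz'
        have := den_lower P hab hP.b0le (δ := 1 / 4) (by norm_num) (z := z) (by linarith)
        intro h0
        rw [h0, norm_zero] at this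
        exact absurd this (not_le.2 (by positivity)))
    (by
      intro z _
      rw [← eval_quot, hq, map_mul, map_pow, map_add, aeval_X, aeval_C]
      push_cast
      ring)
    (C := C * (2 ^ (∑ i, (P.h - 2 * P.b i + 1)))) (N := N)
    (by
      intro z hz
      obtain ⟨h1, h2⟩ := hre z hz
      have h3 := den_lower P hab hP.b0le (δ := 1 / 2) (by norm_num) h1
      have h4 := hCN z h2
      have h5 : 0 < ‖aeval z (denP P)‖ := lt_of_lt_of_le (by positivity) h3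
      change ‖(z * (z + P.h)) ^ d * R P z‖ ≤ _
      rw [← eval_quot, norm_div, div_le_iff₀ h5]
      calc ‖aeval z (numP P d)‖ ≤ C * (1 + |z.im|) ^ N := h4
        _ = C * 2 ^ (∑ i, (P.h - 2 * P.b i + 1)) * (1 + |z.im|) ^ N *
            (1 / 2) ^ (∑ i, (P.h - 2 * P.b i + 1)) := by
            rw [one_div, inv_pow]
            field_simp
        _ ≤ _ := by
            refine mul_le_mul_of_nonneg_left h3 (by positivity))
  unfold Lf
  have e1 : ∀ (M : ℕ) (y : ℝ), pt M y = ((-((M : ℝ) + 1 / 2) : ℝ) : ℂ) + y * Complex.I := by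
    intro M y
    unfold pt
    push_cast
    ring
  simp only [e1]
  exact hsh

lemma shift_all (P : Par) {a0 b0 : ℕ} (hP : Good P a0 b0) (d : ℕ) :
    ∀ m : ℕ, m ≤ a0 → Lf P d 0 = Lf P d m := by
  intro m
  induction m with
  | zero => intro _; rfl
  | succ m ih => intro h; rw [ih (by omega), shift_one P hP d h]

lemma sum_pairs (t : ℕ → ℂ) : ∀ u : ℕ, ∑ j ∈ Finset.range (2 * u), t j =
    ∑ i ∈ Finset.range u, (t (2 * i) + t (2 * i + 1)) := by
  intro u
  induction u with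
  | zero => simp
  | succ u ih =>
    rw [show 2 * (u + 1) = 2 * u + 1 + 1 by ring, Finset.sum_range_succ, Finset.sum_range_succ, ih,
      Finset.sum_range_succ]
    ring

lemma sum_even (t : ℕ → ℂ) {s : ℕ} (hs : Even s) (h0 : t 0 = 0)
    (hodd : ∀ j, j < s → Odd j → t j = 0) :
    ∑ j ∈ Finset.range s, t j = ∑ i ∈ Finset.range (s / 2 - 1), t (2 * (i + 1)) := by
  obtain ⟨u, hu⟩ := hs
  have hu' : s = 2 * u := by omega
  subst hu'
  rw [sum_pairs]
  have h1 : ∀ i ∈ Finset.range u, t (2 * i) + t (2 * i + 1) = t (2 * i) := by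
    intro i hi
    rw [hodd (2 * i + 1) (by have := Finset.mem_range.1 hi; omega) ⟨i, rfl⟩, add_zero]
  rw [Finset.sum_congr rfl h1]
  rw [Nat.mul_div_cancel_left u two_pos]
  cases u with
  | zero => simp
  | succ u =>
    rw [Finset.sum_range_succ', Nat.add_sub_cancel, mul_zero, h0, add_zero]

variable (P : Par) {a0 b0 : ℕ}

lemma Bq_zero (hP : Good P a0 b0) (d : ℕ)
    (hdeg : 1 + 2 * d + (∑ j, 2 * (P.g j + P.a j)) + 2 ≤ ∑ i, (P.h - 2 * P.b i + 1)) :
    Bq P b0 d 0 = 0 := by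
  obtain ⟨co, hco⟩ := denP_dvd P hP.b2 hP.b0le
  have h1 := PF_res (S := Sk P b0) (s := P.s) (num := numP P d) (f := fser P d) hco
    (fun k _ => fser_mul P hP.b2 d k) (by
      have := numP_natDegree P d
      rw [denP_natDegree]
      omega)
  unfold Bq
  rw [Nat.sub_zero, h1, mul_zero]

lemma Bq_odd (hP : Good P a0 b0) (d : ℕ) {j : ℕ} (hj : j < P.s) (hodd : Odd j) :
    Bq P b0 d j = 0 := by
  obtain ⟨co, hco⟩ := denP_dvd P hP.b2 hP.b0le
  have hmem : ∀ k ∈ Sk P b0, (P.h : ℤ) - k ∈ Sk P b0 := by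
    intro k hk
    unfold Sk at *
    rw [Finset.mem_Icc] at *
    omega
  have hs := hP.seven
  have heven : Even (P.s - 1 - j) := by
    obtain ⟨u, hu⟩ := hs
    obtain ⟨v, hv⟩ := hodd
    exact ⟨u - 1 - v, by omega⟩
  have h1 : ∀ k ∈ Sk P b0, PowerSeries.coeff (P.s - 1 - j) (fser P d (P.h - k)) =
      -PowerSeries.coeff (P.s - 1 - j) (fser P d k) := by
    intro k hk
    have := PF_symm (P.h : ℤ) (S := Sk P b0) (s := P.s) (num := numP P d) (den := denP P)
      (f := fser P d) hs hco (fun k _ => fser_mul P hP.b2 d k) (numP_refl P d)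
      (denP_refl P hP.heven hs hP.b2) k hk (hmem k hk) (P.s - 1 - j)
    rwa [heven.neg_one_pow, one_mul] at this
  have h2 : ∑ k ∈ Sk P b0, PowerSeries.coeff (P.s - 1 - j) (fser P d k) =
      ∑ k ∈ Sk P b0, PowerSeries.coeff (P.s - 1 - j) (fser P d (P.h - k)) := by
    refine Finset.sum_bij' (fun k _ => (P.h : ℤ) - k) (fun k _ => (P.h : ℤ) - k) hmem hmem
      (fun k _ => by ring) (fun k _ => by ring) (fun k _ => by rw [sub_sub_cancel])
  rw [Finset.sum_congr rfl h1, Finset.sum_neg_distrib] at h2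
  have h3 : ∑ k ∈ Sk P b0, PowerSeries.coeff (P.s - 1 - j) (fser P d k) = 0 := by linarith
  unfold Bq
  rw [h3, mul_zero]

lemma Lf_sum (hP : Good P a0 b0) (hr : 4 ≤ P.r) (d : ℕ)
    (hdeg : 1 + 2 * d + (∑ j, 2 * (P.g j + P.a j)) + 2 ≤ ∑ i, (P.h - 2 * P.b i + 1)) :
    Lf P d a0 = ∑ k ∈ Sk P b0, ∑ j ∈ Finset.range P.s,
      ((PowerSeries.coeff (P.s - 1 - j) (fser P d k) : ℚ) : ℂ) *
      (2 * Real.pi * (-1) ^ P.r * ((j + P.r - 1).choose (P.r - 1) : ℂ) *
        ((∑' l : ℕ, 1 / ((l : ℂ) + 1) ^ (j + P.r)) -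
          ∑ l ∈ Finset.range (k.toNat - a0 - 1), 1 / ((l : ℂ) + 1) ^ (j + P.r))) := by
  have hab : a0 < b0 := by
    obtain ⟨j, hj⟩ := hP.a0mem
    rw [← hj]
    exact hP.alt j
  obtain ⟨co, hco⟩ := denP_dvd P hP.b2 hP.b0le
  have hk : ∀ k ∈ Sk P b0, ((k.toNat : ℕ) : ℂ) = (k : ℂ) ∧ a0 < k.toNat := by
    intro k hk
    unfold Sk at hk
    rw [Finset.mem_Icc] at hk
    have h1 : ((k.toNat : ℕ) : ℤ) = k := Int.toNat_of_nonneg (by omega)
    refine ⟨?_, by omega⟩
    exact_mod_cast congrArg (Int.cast : ℤ → ℂ) h1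
  have hne : ∀ (y : ℝ), ∀ k ∈ Sk P b0, pt a0 y + k ≠ 0 := by
    intro y k hk' h0
    have h1 := congrArg Complex.re h0
    have h2 : (a0 : ℝ) + 1 ≤ k := by
      unfold Sk at hk'
      rw [Finset.mem_Icc] at hk'
      have : (a0 : ℤ) + 1 ≤ k := by omega
      exact_mod_cast this
    unfold pt at h1
    simp at h1
    linarith
  have hF : ∀ y : ℝ, (pt a0 y * (pt a0 y + P.h)) ^ d * R P (pt a0 y) * K P.r (pt a0 y) =
      ∑ k ∈ Sk P b0, ∑ j ∈ Finset.range P.s,
        ((PowerSeries.coeff (P.s - 1 - j) (fser P d k) : ℚ) : ℂ) *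
        (1 / (pt a0 y + (k.toNat : ℕ)) ^ (j + 1) * K P.r (pt a0 y)) := by
    intro y
    rw [← eval_quot, PF_eval (S := Sk P b0) (s := P.s) (f := fser P d) hco
      (fun k _ => fser_mul P hP.b2 d k) (by
        have := numP_natDegree P d
        rw [denP_natDegree]
        omega) (hne y)]
    unfold PV
    rw [Finset.sum_mul]
    refine Finset.sum_congr rfl fun k hk' => ?_
    rw [Finset.sum_mul]
    refine Finset.sum_congr rfl fun j _ => ?_
    rw [(hk k hk').1]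
    ring
  unfold Lf
  simp_rw [hF]
  have hint : ∀ k ∈ Sk P b0, ∀ j ∈ Finset.range P.s, Integrable (fun y : ℝ =>
      ((PowerSeries.coeff (P.s - 1 - j) (fser P d k) : ℚ) : ℂ) *
        (1 / (pt a0 y + (k.toNat : ℕ)) ^ (j + 1) * K P.r (pt a0 y))) := by
    intro k hk' j _
    exact (K_term hr a0 k.toNat j (hk k hk').2).1.const_mul _
  rw [integral_finsetSum _ fun k hk' => integrable_finsetSum _ fun j hj => hint k hk' j hj]
  refine Finset.sum_congr rfl fun k hk' => ?_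
  rw [integral_finsetSum _ fun j hj => hint k hk' j hj]
  refine Finset.sum_congr rfl fun j _ => ?_
  rw [integral_const_mul, (K_term hr a0 k.toNat j (hk k hk').2).2]

end LF

open LF in
/-- **The linear form.** -/
theorem linform (P : Par) {a0 b0 : ℕ} (hP : Good P a0 b0) (hr : 4 ≤ P.r) (d : ℕ)
    (hdeg : 1 + 2 * d + (∑ j, 2 * (P.g j + P.a j)) + 2 ≤ ∑ i, (P.h - 2 * P.b i + 1)) :
    Lf P d 0 = -2 * Real.pi * ((∑ i ∈ Finset.range (P.s / 2 - 1),
      (Bq P b0 d (2 * (i + 1)) : ℂ) * ∑' l : ℕ, 1 / ((l : ℂ) + 1) ^ (2 * (i + 1) + P.r)) -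
        (B0q P a0 b0 d : ℂ)) := by
  rw [shift_all P hP d a0 le_rfl, Lf_sum P hP hr d hdeg]
  have h1 : ∑ i ∈ Finset.range (P.s / 2 - 1), (Bq P b0 d (2 * (i + 1)) : ℂ) *
      ∑' l : ℕ, 1 / ((l : ℂ) + 1) ^ (2 * (i + 1) + P.r) =
      ∑ j ∈ Finset.range P.s, (Bq P b0 d j : ℂ) * ∑' l : ℕ, 1 / ((l : ℂ) + 1) ^ (j + P.r) := by
    rw [sum_even (fun j => (Bq P b0 d j : ℂ) * ∑' l : ℕ, 1 / ((l : ℂ) + 1) ^ (j + P.r)) hP.seven
      (by simp [Bq_zero P hP d hdeg]) (fun j hj hodd => by simp [Bq_odd P hP d hj hodd])]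
  rw [h1, hP.rodd.neg_one_pow]
  unfold Bq B0q
  rw [mul_sub, Finset.mul_sum]
  push_cast
  simp only [Finset.mul_sum, Finset.sum_mul]
  rw [Finset.sum_comm (s := Finset.range P.s), ← Finset.sum_sub_distrib]
  refine Finset.sum_congr rfl fun k _ => ?_
  rw [← Finset.sum_sub_distrib]
  refine Finset.sum_congr rfl fun j _ => ?_
  rw [mul_sub, mul_sub, Finset.mul_sum, Finset.mul_sum]
  congr 1
  · ring
  · refine Finset.sum_congr rfl fun l _ => ?_
    ring

end ZG
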