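import Pool.Agent.Work.MP_4f096c_nt.GLinForm

set_option autoImplicit false

/-!
`K_term`, `Lf_sum` and `linform` with `3 ≤ r` (helper65).
-/

namespace ZetaSets

open Complex MeasureTheory Filter Topology

/-- uniform bound for the terms of the kernel, `r = 3` allowed -/
lemma J.term_bound3 {a b : ℝ} (ha : 1 / 2 ≤ |a|) (hb : 1 / 2 ≤ |b|) {r : ℕ} (hr : 3 ≤ r) (j : ℕ)
    (y : ℝ) :
    ‖J.g a b (j + 1) r y‖ ≤ (2 ^ j * 2 ^ (r - 3) * 4) * (b ^ 2)⁻¹ * (1 + y ^ 2)⁻¹ := by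
  have hna := (ha.trans (J.norm_ge a y))
  have hnb := (hb.trans (J.norm_ge b y))
  have sq4 : ∀ c : ℝ, 1 / 2 ≤ |c| → (1 / 4 : ℝ) ≤ c ^ 2 := by
    intro c hc
    have : (1 / 2 : ℝ) ^ 2 ≤ |c| ^ 2 := pow_le_pow_left₀ (by norm_num) hc 2
    rw [sq_abs] at this
    norm_num at this ⊢
    exact this
  have hb2 := sq4 b hb
  have ha2 := sq4 a ha
  have hbpos : 0 < b ^ 2 := by linarith
  have e1 : ‖J.g a b (j + 1) r y‖ = (‖(a : ℂ) + y * I‖ ^ (j + 1) * ‖(b : ℂ) + y * I‖ ^ r)⁻¹ := by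
    unfold J.g
    rw [norm_div, norm_mul, norm_pow, norm_pow, norm_one, one_div]
  rw [e1]
  have e2 : (2 ^ j * 2 ^ (r - 3) * 4) * (b ^ 2)⁻¹ * (1 + y ^ 2)⁻¹ =
      (((1 / 2 : ℝ) ^ j) * (((1 / 2 : ℝ) ^ (r - 3)) * (b ^ 2 * ((1 / 4) * (1 + y ^ 2)))))⁻¹ := by
    have h1 : (1 + y ^ 2) ≠ 0 := by positivity
    rw [one_div, inv_pow, inv_pow]
    field_simp
  rw [e2]
  apply inv_anti₀ (by positivity)
  have hA := norm_nonneg ((a : ℂ) + y * I)
  have hB := norm_nonneg ((b : ℂ) + y * I)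
  have h4 : b ^ 2 ≤ ‖(b : ℂ) + y * I‖ ^ 2 := by
    rw [J.norm_sq]; nlinarith [sq_nonneg y]
  have h5 : (1 / 4) * (1 + y ^ 2) ≤ ‖(a : ℂ) + y * I‖ * ‖(b : ℂ) + y * I‖ := by
    have f1 : (1 / 4) * (1 + y ^ 2) ≤ ‖(a : ℂ) + y * I‖ ^ 2 := by
      rw [J.norm_sq]; nlinarith [sq_nonneg y]
    have f2 : (1 / 4) * (1 + y ^ 2) ≤ ‖(b : ℂ) + y * I‖ ^ 2 := by
      rw [J.norm_sq]; nlinarith [sq_nonneg y]
    have f3 : ((1 / 4) * (1 + y ^ 2)) ^ 2 ≤ (‖(a : ℂ) + y * I‖ * ‖(b : ℂ) + y * I‖) ^ 2 := by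
      rw [mul_pow ‖(a : ℂ) + y * I‖, sq ((1 / 4) * (1 + y ^ 2))]
      exact mul_le_mul f1 f2 (by positivity) (by positivity)
    exact le_of_sq_le_sq f3 (by positivity)
  have h6 : (1 / 2 : ℝ) ^ j ≤ ‖(a : ℂ) + y * I‖ ^ j := pow_le_pow_left₀ (by norm_num) hna j
  have h7 : (1 / 2 : ℝ) ^ (r - 3) ≤ ‖(b : ℂ) + y * I‖ ^ (r - 3) :=
    pow_le_pow_left₀ (by norm_num) hnb _
  have e3 : ‖(a : ℂ) + y * I‖ ^ (j + 1) * ‖(b : ℂ) + y * I‖ ^ r =
      ‖(a : ℂ) + y * I‖ ^ j * (‖(b : ℂ) + y * I‖ ^ (r - 3) *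
        (‖(b : ℂ) + y * I‖ ^ 2 * (‖(a : ℂ) + y * I‖ * ‖(b : ℂ) + y * I‖))) := by
    obtain ⟨r', rfl⟩ : ∃ r', r = r' + 3 := ⟨r - 3, by omega⟩
    rw [Nat.add_sub_cancel]
    ring
  rw [e3]
  gcongr

open J in
/-- one pole `-k` to the left of line number `M`. -/
theorem K_term3 {r : ℕ} (hr : 3 ≤ r) (M k j : ℕ) (hk : M < k) :
    Integrable (fun y : ℝ => 1 / (pt M y + k) ^ (j + 1) * K r (pt M y)) ∧
    ∫ y : ℝ, 1 / (pt M y + k) ^ (j + 1) * K r (pt M y) =
      2 * Real.pi * (-1) ^ r * ((j + r - 1).choose (r - 1) : ℂ) *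
        ((∑' l : ℕ, 1 / ((l : ℂ) + 1) ^ (j + r)) -
          ∑ l ∈ Finset.range (k - M - 1), 1 / ((l : ℂ) + 1) ^ (j + r)) := by
  set a : ℝ := sh M k with ha_def
  have ha2 : 1 / 2 ≤ |a| := sh_abs M k
  have hapos : 0 < a := sh_pos (by exact_mod_cast hk)
  -- the integrand is a sum of terms
  have hsum : ∀ y : ℝ, 1 / (pt M y + k) ^ (j + 1) * K r (pt M y) =
      ∑' m : ℤ, g a (sh M m) (j + 1) r y := by
    intro y
    unfold K
    rw [← tsum_mul_left]
    refine tsum_congr fun m => ?_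
    unfold g
    rw [pt_add M m y, pt_add_nat M k y, ← one_div_mul_one_div]
  set C : ℝ := (2 ^ j * 2 ^ (r - 3) * 4) with hC
  have hC0 : 0 ≤ C := by positivity
  have hb : ∀ (m : ℤ) (y : ℝ), ‖g a (sh M m) (j + 1) r y‖ ≤
      C * ((sh M m) ^ 2)⁻¹ * (1 + y ^ 2)⁻¹ := fun m y =>
    term_bound3 ha2 (sh_abs M m) hr j y
  have hb' : ∀ (m : ℤ) (y : ℝ), ‖g a (sh M m) (j + 1) r y‖ ≤ C * ((sh M m) ^ 2)⁻¹ := by
    intro m y
    refine (hb m y).trans ?_
    have h1 : (1 + y ^ 2)⁻¹ ≤ (1 : ℝ) := by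
      rw [inv_le_one₀ (by positivity)]
      nlinarith [sq_nonneg y]
    have h2 : 0 ≤ C * ((sh M m) ^ 2)⁻¹ := by positivity
    nlinarith
  have hsm : Summable fun m : ℤ => C * ((sh M m) ^ 2)⁻¹ := (summable_sh M).mul_left C
  have hcont : Continuous fun y : ℝ => ∑' m : ℤ, g a (sh M m) (j + 1) r y :=
    continuous_tsum (fun m => continuous_g hapos.ne' (sh_ne M m) _ _) hsm hb'
  have hint : ∀ m : ℤ, Integrable (g a (sh M m) (j + 1) r) := fun m =>
    integrable_g hapos.ne' (sh_ne M m) (by omega)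
  have hI2 : Integrable (fun y : ℝ => ∑' m : ℤ, g a (sh M m) (j + 1) r y) := by
    refine Integrable.mono' (g := fun y : ℝ => (∑' m : ℤ, C * ((sh M m) ^ 2)⁻¹) * (1 + y ^ 2)⁻¹)
      (integrable_inv_one_add_sq.const_mul _) hcont.aestronglyMeasurable
      (Eventually.of_forall fun y => ?_)
    rw [← tsum_mul_right]
    exact tsum_of_norm_bounded (hsm.mul_right _).hasSum (fun m => hb m y)
  constructor
  · exact hI2.congr (Eventually.of_forall fun y => (hsum y).symm)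
  · have hnorm : Summable fun m : ℤ => ∫ y : ℝ, ‖g a (sh M m) (j + 1) r y‖ := by
      refine Summable.of_nonneg_of_le (fun m => integral_nonneg fun y => norm_nonneg _)
        (fun m => ?_) (hsm.mul_right (∫ y : ℝ, (1 + y ^ 2)⁻¹))
      rw [← integral_const_mul]
      exact integral_mono (hint m).norm (integrable_inv_one_add_sq.const_mul _) (hb m)
    have hhas := hasSum_integral_of_summable_integral_norm hint hnorm
    have hI : ∫ y : ℝ, 1 / (pt M y + k) ^ (j + 1) * K r (pt M y) =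
        ∫ y : ℝ, ∑' m : ℤ, g a (sh M m) (j + 1) r y := by
      congr 1
      funext y
      exact hsum y
    rw [hI, ← hhas.tsum_eq]
    -- values of the terms
    set c : ℂ := 2 * Real.pi * (-1) ^ r * ((j + r - 1).choose (r - 1) : ℂ) with hc
    have hval : ∀ m : ℤ, ∫ y : ℝ, g a (sh M m) (j + 1) r y =
        if m ≤ M then c / ((k : ℂ) - m) ^ (j + r) else 0 := by
      intro m
      split_ifs with hm
      · have h1 := J_val hapos (sh_neg hm) j (r - 1)
        have h2 : r - 1 + 1 = r := by omega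
        rw [h2] at h1
        change ∫ y : ℝ, g a (sh M m) (j + 1) r y = _ at h1
        rw [h1]
        have h3 : (a : ℂ) - (sh M m : ℂ) = (k : ℂ) - m := by
          rw [ha_def]
          unfold sh
          push_cast
          ring
        have h4 : j + (r - 1) + 1 = j + r := by omega
        have h5 : j + (r - 1) = j + r - 1 := by omega
        rw [h3, h4, h5]
      · have h1 := J_zero (j := j + 1) (r := r) hapos (sh_pos (not_le.mp hm)) (by omega)
        exact h1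
    simp only [hval]
    -- reindex
    have hre : ∑' m : ℤ, (if m ≤ M then c / ((k : ℂ) - m) ^ (j + r) else 0) =
        ∑' l : ℕ, (if k - M - 1 ≤ l then c / ((l : ℂ) + 1) ^ (j + r) else 0) := by
      rw [← (Equiv.subLeft ((k : ℤ) - 1)).tsum_eq
        (fun m : ℤ => (if m ≤ M then c / ((k : ℂ) - m) ^ (j + r) else 0))]
      have h1 : Function.Injective (fun l : ℕ => (l : ℤ)) := Nat.cast_injective
      rw [← h1.tsum_eq]
      · refine tsum_congr fun l => ?_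
        simp only [Equiv.subLeft_apply]
        have h2 : ((k : ℤ) - 1 - (l : ℤ) ≤ (M : ℤ)) ↔ (k - M - 1 ≤ l) := by omega
        have h3 : (k : ℂ) - (((k : ℤ) - 1 - (l : ℤ) : ℤ) : ℂ) = (l : ℂ) + 1 := by
          push_cast; ring
        simp only [h2, h3]
      · intro m hm
        simp only [Function.mem_support, Equiv.subLeft_apply, ne_eq, ite_eq_right_iff,
          Classical.not_imp] at hm
        have h4 : 0 ≤ m := by have := hm.1; omega
        exact ⟨m.toNat, by simp [h4]⟩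
    rw [hre]
    have hs : Summable fun l : ℕ => 1 / ((l : ℂ) + 1) ^ (j + r) := by
      have h1 : Summable fun n : ℕ => 1 / (n : ℝ) ^ (j + r) :=
        Real.summable_one_div_nat_pow.mpr (by omega)
      have h2 := (summable_nat_add_iff 1).mpr h1
      have h3 : (fun l : ℕ => 1 / ((l : ℂ) + 1) ^ (j + r)) =
          fun l : ℕ => (((1 / ((l + 1 : ℕ) : ℝ) ^ (j + r) : ℝ)) : ℂ) := by
        funext l
        push_cast
        rfl
      rw [h3]
      exact Complex.ofRealCLM.summable h2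
    have hs2 : Summable fun l : ℕ =>
        (if k - M - 1 ≤ l then c / ((l : ℂ) + 1) ^ (j + r) else 0) := by
      refine (hs.norm.mul_left ‖c‖).of_norm_bounded fun l => ?_
      split_ifs
      · rw [div_eq_mul_one_div, norm_mul]
      · rw [norm_zero]; positivity
    rw [← hs2.sum_add_tsum_nat_add (k - M - 1), ← hs.sum_add_tsum_nat_add (k - M - 1)]
    have hz : ∑ i ∈ Finset.range (k - M - 1),
        (if k - M - 1 ≤ i then c / ((i : ℂ) + 1) ^ (j + r) else 0) = 0 := by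
      refine Finset.sum_eq_zero fun i hi => ?_
      rw [if_neg]
      have := Finset.mem_range.mp hi
      omega
    rw [hz, zero_add, add_sub_cancel_left, ← tsum_mul_left]
    refine tsum_congr fun l => ?_
    rw [if_pos (by omega)]
    rw [div_eq_mul_one_div]

end ZetaSets

namespace ZG

open ZetaSets (K pt PV PF_eval PF_res PF_symm DD shift)
open Polynomial MeasureTheory
open scoped Nat

namespace LF

lemma Lf_sum3 (P : Par) {a0 b0 : ℕ} (hP : Good P a0 b0) (hr : 3 ≤ P.r) (d : ℕ)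
    (hdeg : 1 + 2 * d + (∑ j, 2 * (P.g j + P.a j)) + 2 ≤ ∑ i, (P.h - 2 * P.b i + 1)) :
    Lf P d a0 = ∑ k ∈ Sk P b0, ∑ j ∈ Finset.range P.s,
      ((PowerSeries.coeff (P.s - 1 - j) (fser P d k) : ℚ) : ℂ) *
      (2 * Real.pi * (-1) ^ P.r * ((j + P.r - 1).choose (P.r - 1) : ℂ) *
        ((∑' l : ℕ, 1 / ((l : ℂ) + 1) ^ (j + P.r)) -
          ∑ l ∈ Finset.range (k.toNat - a0 - 1), 1 / ((l : ℂ) + 1) ^ (j + P.r))) := by
  have hab : a0 < b0 := by
    obtain ⟨j, hj⟩ := hP.a0mem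
    rw [← hj]
    exact hP.alt j
  obtain ⟨co, hco⟩ := denP_dvd P hP.b2 hP.b0le
  have hk : ∀ k ∈ Sk P b0, ((k.toNat : ℕ) : ℂ) = (k : ℂ) ∧ a0 < k.toNat := by
    intro k hk
    unfold Sk at hk
    rw [Finset.mem_Icc] at hk
    have h1 : ((k.toNat : ℕ) : ℤ) = k := Int.toNat_of_nonneg (by omega)
    refine ⟨?_, by omega⟩
    exact_mod_cast congrArg (Int.cast : ℤ → ℂ) h1
  have hne : ∀ (y : ℝ), ∀ k ∈ Sk P b0, pt a0 y + k ≠ 0 := by
    intro y k hk' h0
    have h1 := congrArg Complex.re h0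
    have h2 : (a0 : ℝ) + 1 ≤ k := by
      unfold Sk at hk'
      rw [Finset.mem_Icc] at hk'
      have : (a0 : ℤ) + 1 ≤ k := by omega
      exact_mod_cast this
    unfold pt at h1
    simp at h1
    linarith
  have hF : ∀ y : ℝ, (pt a0 y * (pt a0 y + P.h)) ^ d * R P (pt a0 y) * K P.r (pt a0 y) =
      ∑ k ∈ Sk P b0, ∑ j ∈ Finset.range P.s,
        ((PowerSeries.coeff (P.s - 1 - j) (fser P d k) : ℚ) : ℂ) *
        (1 / (pt a0 y + (k.toNat : ℕ)) ^ (j + 1) * K P.r (pt a0 y)) := by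
    intro y
    rw [← eval_quot, PF_eval (S := Sk P b0) (s := P.s) (f := fser P d) hco
      (fun k _ => fser_mul P hP.b2 d k) (by
        have := numP_natDegree P d
        rw [denP_natDegree]
        omega) (hne y)]
    unfold PV
    rw [Finset.sum_mul]
    refine Finset.sum_congr rfl fun k hk' => ?_
    rw [Finset.sum_mul]
    refine Finset.sum_congr rfl fun j _ => ?_
    rw [(hk k hk').1]
    ring
  unfold Lf
  simp_rw [hF]
  have hint : ∀ k ∈ Sk P b0, ∀ j ∈ Finset.range P.s, Integrable (fun y : ℝ =>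
      ((PowerSeries.coeff (P.s - 1 - j) (fser P d k) : ℚ) : ℂ) *
        (1 / (pt a0 y + (k.toNat : ℕ)) ^ (j + 1) * K P.r (pt a0 y))) := by
    intro k hk' j _
    exact (ZetaSets.K_term3 hr a0 k.toNat j (hk k hk').2).1.const_mul _
  rw [integral_finsetSum _ fun k hk' => integrable_finsetSum _ fun j hj => hint k hk' j hj]
  refine Finset.sum_congr rfl fun k hk' => ?_
  rw [integral_finsetSum _ fun j hj => hint k hk' j hj]
  refine Finset.sum_congr rfl fun j _ => ?_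
  rw [integral_const_mul, (ZetaSets.K_term3 hr a0 k.toNat j (hk k hk').2).2]

end LF

open LF in
/-- **The linear form.** -/
theorem linform3 (P : Par) {a0 b0 : ℕ} (hP : Good P a0 b0) (hr : 3 ≤ P.r) (d : ℕ)
    (hdeg : 1 + 2 * d + (∑ j, 2 * (P.g j + P.a j)) + 2 ≤ ∑ i, (P.h - 2 * P.b i + 1)) :
    Lf P d 0 = -2 * Real.pi * ((∑ i ∈ Finset.range (P.s / 2 - 1),
      (Bq P b0 d (2 * (i + 1)) : ℂ) * ∑' l : ℕ, 1 / ((l : ℂ) + 1) ^ (2 * (i + 1) + P.r)) -
        (B0q P a0 b0 d : ℂ)) := by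
  rw [shift_all P hP d a0 le_rfl, Lf_sum3 P hP hr d hdeg]
  have h1 : ∑ i ∈ Finset.range (P.s / 2 - 1), (Bq P b0 d (2 * (i + 1)) : ℂ) *
      ∑' l : ℕ, 1 / ((l : ℂ) + 1) ^ (2 * (i + 1) + P.r) =
      ∑ j ∈ Finset.range P.s, (Bq P b0 d j : ℂ) * ∑' l : ℕ, 1 / ((l : ℂ) + 1) ^ (j + P.r) := by
    rw [sum_even (fun j => (Bq P b0 d j : ℂ) * ∑' l : ℕ, 1 / ((l : ℂ) + 1) ^ (j + P.r)) hP.seven
      (by simp [Bq_zero P hP d hdeg]) (fun j hj hodd => by simp [Bq_odd P hP d hj hodd])]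
  rw [h1, hP.rodd.neg_one_pow]
  unfold Bq B0q
  rw [mul_sub, Finset.mul_sum]
  push_cast
  simp only [Finset.mul_sum, Finset.sum_mul]
  rw [Finset.sum_comm (s := Finset.range P.s), ← Finset.sum_sub_distrib]
  refine Finset.sum_congr rfl fun k _ => ?_
  rw [← Finset.sum_sub_distrib]
  refine Finset.sum_congr rfl fun j _ => ?_
  rw [mul_sub, mul_sub, Finset.mul_sum, Finset.mul_sum]
  congr 1
  · ring
  · refine Finset.sum_congr rfl fun l _ => ?_
    ring

end ZG
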