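import Mathlib

/-!
Telescoping lemma (TASK T of the plan for MP_4f096c_nt).
-/

namespace ZetaSets
open Polynomial

noncomputable def Pm {ι : Type*} [Fintype ι] (c : ι → ℂ) (c0 : ℂ) (r : ℕ) : ℂ[X] :=
  (∏ i, (X - C (c i))) * (X + C c0) ^ r

noncomputable def Pp {ι : Type*} [Fintype ι] (c : ι → ℂ) (c0 : ℂ) (r : ℕ) : ℂ[X] :=
  (∏ i, (X + C (c i))) * (X - C c0) ^ r

namespace T

/-! ### Finite differences of polynomials -/

theorem coeff_comp_X_add_one (P : ℂ[X]) (n : ℕ) (M : ℕ) (hM : P.natDegree < M) :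
    (P.comp (X + 1)).coeff n = ∑ k ∈ Finset.range M, P.coeff k * (k.choose n : ℂ) := by
  rw [comp_eq_sum_left, sum_over_range' _ (by simp) M hM, finsetSum_coeff]
  refine Finset.sum_congr rfl fun k _ => ?_
  rw [coeff_C_mul, coeff_X_add_one_pow]

theorem diff_coeff (P : ℂ[X]) (m : ℕ) (hP : P.natDegree ≤ m + 1) :
    (P.comp (X + 1) - P).coeff m = (m + 1) * P.coeff (m + 1) := by
  rw [coeff_sub, coeff_comp_X_add_one P m (m + 2) (by omega), Finset.sum_range_succ,
    Finset.sum_range_succ, Finset.sum_eq_zero]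
  · simp [Nat.choose_succ_self_right]
    ring
  · intro k hk
    rw [Nat.choose_eq_zero_of_lt (Finset.mem_range.1 hk)]
    simp

theorem diff_natDegree (P : ℂ[X]) (m : ℕ) (hP : P.natDegree ≤ m + 1) :
    (P.comp (X + 1) - P).natDegree ≤ m := by
  rw [natDegree_le_iff_coeff_eq_zero]
  intro k hk
  rw [coeff_sub, coeff_comp_X_add_one P k (m + 2) (by omega), Finset.sum_range_succ,
    Finset.sum_eq_zero]
  · rcases Nat.lt_or_ge (m + 1) k with h | h
    · rw [Nat.choose_eq_zero_of_lt h, coeff_eq_zero_of_natDegree_lt (lt_of_le_of_lt hP h)]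
      simp
    · have : k = m + 1 := by omega
      subst this
      simp
  · intro i hi
    rw [Nat.choose_eq_zero_of_lt (lt_of_lt_of_le (Finset.mem_range.1 hi) hk)]
    simp

theorem diff_const (P : ℂ[X]) (hP : P.natDegree = 0) : P.comp (X + 1) - P = 0 := by
  rw [eq_C_of_natDegree_eq_zero hP]
  simp

/-- antidifference -/
theorem exists_anti (n : ℕ) : ∀ Q : ℂ[X], (∀ k ≥ n, Q.coeff k = 0) →
    ∃ S : ℂ[X], S.comp (X + 1) - S = Q := by
  induction n with
  | zero =>
    intro Q hQ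
    refine ⟨0, ?_⟩
    have : Q = 0 := by
      ext k
      simpa using hQ k (Nat.zero_le k)
    simp [this]
  | succ n ih =>
    intro Q hQ
    set T : ℂ[X] := C (Q.coeff n / (n + 1)) * X ^ (n + 1) with hT
    have hTd : T.natDegree ≤ n + 1 := natDegree_C_mul_X_pow_le _ _
    have h1 := diff_coeff T n hTd
    have h2 := diff_natDegree T n hTd
    have h3 : T.coeff (n + 1) = Q.coeff n / (n + 1) := by
      rw [hT, coeff_C_mul_X_pow]; simp
    obtain ⟨S, hS⟩ := ih (Q - (T.comp (X + 1) - T)) (by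
      intro k hk
      rw [coeff_sub]
      rcases Nat.lt_or_ge n k with h | h
      · rw [hQ k h, coeff_eq_zero_of_natDegree_lt (lt_of_le_of_lt h2 h)]
        simp
      · have : k = n := by omega
        subst this
        rw [h1, h3]
        have : (k : ℂ) + 1 ≠ 0 := Nat.cast_add_one_ne_zero k
        field_simp
        ring)
    refine ⟨S + T, ?_⟩
    rw [add_comp]
    linear_combination hS

/-- Discrete derivative of a rational function cannot behave like `c/x`. -/
theorem no_log (U1 U2 W : ℂ[X]) (hW : U1.comp (X + 1) * U2 - U1 * U2.comp (X + 1) = W)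
    (b : ℕ) (hb : U2.natDegree = b + 1) (hW0 : W ≠ 0) (hWd : W.natDegree = 2 * b + 1) :
    False := by
  have hU2 : U2 ≠ 0 := by
    rintro rfl
    simp at hb
  have key : W = (U1.comp (X + 1) - U1) * U2 - U1 * (U2.comp (X + 1) - U2) := by
    rw [← hW]; ring
  have d2 := diff_natDegree U2 b hb.le
  have c2 := diff_coeff U2 b hb.le
  rcases Nat.eq_zero_or_pos U1.natDegree with h0 | h0
  · -- U1 constant
    rw [diff_const U1 h0, zero_mul, zero_sub] at key
    have : W.natDegree ≤ b := by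
      rw [key, natDegree_neg]
      refine le_trans natDegree_mul_le ?_
      omega
    omega
  · obtain ⟨a, ha⟩ := Nat.exists_eq_add_one.2 h0
    have hU1 : U1 ≠ 0 := by
      rintro rfl
      simp at h0
    have d1 := diff_natDegree U1 a ha.le
    have c1 := diff_coeff U1 a ha.le
    have e1 : ((U1.comp (X + 1) - U1) * U2).coeff (a + (b + 1)) =
        (a + 1) * U1.coeff (a + 1) * U2.coeff (b + 1) := by
      rw [coeff_mul_add_eq_of_natDegree_le d1 hb.le, c1]
    have e2 : (U1 * (U2.comp (X + 1) - U2)).coeff ((a + 1) + b) =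
        U1.coeff (a + 1) * ((b + 1) * U2.coeff (b + 1)) := by
      rw [coeff_mul_add_eq_of_natDegree_le ha.le d2, c2]
    have e3 : W.coeff (a + b + 1) = ((a : ℂ) - b) * (U1.coeff (a + 1) * U2.coeff (b + 1)) := by
      rw [key, coeff_sub, show a + b + 1 = a + (b + 1) by ring, e1,
        show a + (b + 1) = (a + 1) + b by ring, e2]
      ring
    have hWle : W.natDegree ≤ a + b + 1 := by
      rw [key]
      refine le_trans (natDegree_sub_le _ _) (max_le ?_ ?_)
      · refine le_trans natDegree_mul_le ?_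
        omega
      · refine le_trans natDegree_mul_le ?_
        omega
    have l1 : U1.coeff (a + 1) ≠ 0 := by
      rw [← ha]; exact leadingCoeff_ne_zero.2 hU1
    have l2 : U2.coeff (b + 1) ≠ 0 := by
      rw [← hb]; exact leadingCoeff_ne_zero.2 hU2
    by_cases hab : a = b
    · subst hab
      have h4 : W.coeff (2 * a + 1) = 0 := by
        rw [show 2 * a + 1 = a + a + 1 by ring, e3]; simp
      rw [← hWd] at h4
      exact hW0 (leadingCoeff_eq_zero.1 h4)
    · have h5 : W.coeff (a + b + 1) ≠ 0 := by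
        rw [e3]
        refine mul_ne_zero (sub_ne_zero.2 ?_) (mul_ne_zero l1 l2)
        exact_mod_cast hab
      have h6 : a + b + 1 ≤ W.natDegree := le_natDegree_of_ne_zero h5
      omega

/-! ### Odd polynomials -/

theorem coeff_comp_neg_X (P : ℂ[X]) (n : ℕ) : (P.comp (-X)).coeff n = (-1) ^ n * P.coeff n := by
  rw [comp_eq_sum_left, sum_over_range _ (by simp), finsetSum_coeff]
  have : ∀ k, (C (P.coeff k) * (-X : ℂ[X]) ^ k).coeff n =
      if n = k then (-1) ^ n * P.coeff n else 0 := by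
    intro k
    rw [neg_pow, show ((-1 : ℂ[X])) ^ k = C ((-1) ^ k) by simp, ← mul_assoc, ← C_mul,
      coeff_C_mul_X_pow]
    split_ifs with h
    · subst h; ring
    · rfl
  simp_rw [this]
  rw [Finset.sum_ite_eq]
  split_ifs with h
  · rfl
  · rw [coeff_eq_zero_of_natDegree_lt, mul_zero]
    simpa using h

theorem odd_sum (B : ℂ[X]) (hB : B.comp (-X) = -B) (M : ℕ) (hM : B.natDegree ≤ 2 * M + 1) :
    B = ∑ k ∈ Finset.range (M + 1), C (B.coeff (2 * k + 1)) * X ^ (2 * k + 1) := by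
  have heven : ∀ k, B.coeff (2 * k) = 0 := by
    intro k
    have h := coeff_comp_neg_X B (2 * k)
    rw [hB, coeff_neg, pow_mul] at h
    norm_num at h
    have h2 : B.coeff (2 * k) + B.coeff (2 * k) = 0 := by
      nth_rewrite 1 [← h]; ring
    simpa using h2
  ext n
  rw [finsetSum_coeff]
  simp_rw [coeff_C_mul_X_pow]
  rcases Nat.even_or_odd' n with ⟨k, hk | hk⟩
  · rw [hk, heven, Finset.sum_eq_zero]
    intro i _
    rw [if_neg (by omega)]
  · rw [hk]
    have : ∀ i, (if 2 * k + 1 = 2 * i + 1 then B.coeff (2 * i + 1) else 0) =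
        if k = i then B.coeff (2 * k + 1) else 0 := by
      intro i
      by_cases h : k = i
      · subst h; simp
      · rw [if_neg h, if_neg (by omega)]
    simp_rw [this]
    rw [Finset.sum_ite_eq]
    split_ifs with h
    · rfl
    · rw [coeff_eq_zero_of_natDegree_lt]
      simp at h
      omega


section Dl

variable {ι : Type*} [Fintype ι] (c : ι → ℂ) (c0 : ℂ) (r : ℕ)

/-- the telescoping operator -/
noncomputable def Dl (A : ℂ[X]) : ℂ[X] := A.comp (X + 1) * Pm c c0 r - A * Pp c c0 r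

theorem Dl_add (A A' : ℂ[X]) : Dl c c0 r (A + A') = Dl c c0 r A + Dl c c0 r A' := by
  simp only [Dl, add_comp]; ring

theorem Dl_C_mul (k : ℂ) (A : ℂ[X]) : Dl c c0 r (C k * A) = C k * Dl c c0 r A := by
  simp only [Dl, mul_comp, C_comp]; ring

theorem Pm_monic : (Pm c c0 r).Monic :=
  (monic_prod_of_monic _ _ fun _ _ => monic_X_sub_C _).mul ((monic_X_add_C c0).pow r)

theorem Pp_monic : (Pp c c0 r).Monic :=
  (monic_prod_of_monic _ _ fun _ _ => monic_X_add_C _).mul ((monic_X_sub_C c0).pow r)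

theorem Pm_natDegree : (Pm c c0 r).natDegree = Fintype.card ι + r := by
  rw [Pm, (monic_prod_of_monic _ _ fun _ _ => monic_X_sub_C _).natDegree_mul
    ((monic_X_add_C c0).pow r), natDegree_prod_of_monic _ _ fun _ _ => monic_X_sub_C _,
    (monic_X_add_C c0).natDegree_pow]
  simp

theorem Pp_natDegree : (Pp c c0 r).natDegree = Fintype.card ι + r := by
  rw [Pp, (monic_prod_of_monic _ _ fun _ _ => monic_X_add_C _).natDegree_mul
    ((monic_X_sub_C c0).pow r), natDegree_prod_of_monic _ _ fun _ _ => monic_X_add_C _,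
    (monic_X_sub_C c0).natDegree_pow]
  simp

theorem Pm_next : (Pm c c0 r).nextCoeff = -(∑ i, c i - r * c0) := by
  rw [Pm, (monic_prod_of_monic _ _ fun _ _ => monic_X_sub_C _).nextCoeff_mul
    ((monic_X_add_C c0).pow r), Monic.nextCoeff_prod _ _ fun _ _ => monic_X_sub_C _,
    (monic_X_add_C c0).nextCoeff_pow]
  simp only [nextCoeff_X_sub_C, nextCoeff_X_add_C, Finset.sum_neg_distrib, nsmul_eq_mul]
  ring

theorem Pp_next : (Pp c c0 r).nextCoeff = ∑ i, c i - r * c0 := by
  rw [Pp, (monic_prod_of_monic _ _ fun _ _ => monic_X_add_C _).nextCoeff_mul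
    ((monic_X_sub_C c0).pow r), Monic.nextCoeff_prod _ _ fun _ _ => monic_X_add_C _,
    (monic_X_sub_C c0).nextCoeff_pow]
  simp only [nextCoeff_X_sub_C, nextCoeff_X_add_C, nsmul_eq_mul]
  ring

theorem prod_neg' (f : ι → ℂ[X]) : ∏ i, (-(f i)) = (-1) ^ (Fintype.card ι) * ∏ i, f i := by
  have : ∀ i, -(f i) = (-1) * f i := fun i => by ring
  simp_rw [this]
  rw [Finset.prod_mul_distrib, Finset.prod_const, Finset.card_univ]

theorem Pm_neg (h : Even (Fintype.card ι + r)) : (Pm c c0 r).comp (-X) = Pp c c0 r := by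
  rw [Pm, Pp, mul_comp, prod_comp, pow_comp]
  have h1 : ∀ i, (X - C (c i)).comp (-X) = -(X + C (c i)) := fun i => by simp; ring
  have h2 : (X + C c0).comp (-X) = -(X - C c0) := by simp; ring
  simp_rw [h1]
  rw [h2, prod_neg', neg_pow (X - C c0)]
  calc _ = (-1) ^ (Fintype.card ι + r) * ((∏ i, (X + C (c i))) * (X - C c0) ^ r) := by
        rw [pow_add]; ring
    _ = _ := by rw [h.neg_one_pow, one_mul]

theorem Pp_neg (h : Even (Fintype.card ι + r)) : (Pp c c0 r).comp (-X) = Pm c c0 r := by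
  rw [← Pm_neg c c0 r h, comp_assoc]
  simp

/-- test polynomials -/
noncomputable def Aa (a : ℕ) : ℂ[X] := (X - C (1 / 2)) ^ (2 * a)

theorem Aa_comp (a : ℕ) : (Aa a).comp (X + 1) = (X + C (1 / 2)) ^ (2 * a) := by
  rw [Aa, pow_comp]
  refine congrArg (fun q : ℂ[X] => q ^ (2 * a)) ?_
  rw [sub_comp, X_comp, C_comp, show (1 : ℂ[X]) = C 1 by simp, add_sub_assoc, ← C_sub]
  norm_num

theorem Aa_neg (a : ℕ) : (Aa a).comp (-X) = (X + C (1 / 2)) ^ (2 * a) := by
  rw [Aa, pow_comp, sub_comp, X_comp, C_comp, pow_mul, pow_mul]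
  refine congrArg (fun q : ℂ[X] => q ^ a) ?_
  ring

theorem Aa_comp_neg (a : ℕ) : ((Aa a).comp (X + 1)).comp (-X) = Aa a := by
  rw [Aa_comp, Aa, pow_comp, add_comp, X_comp, C_comp, pow_mul, pow_mul]
  refine congrArg (fun q : ℂ[X] => q ^ a) ?_
  ring

theorem Dl_Aa_odd (h : Even (Fintype.card ι + r)) (a : ℕ) :
    (Dl c c0 r (Aa a)).comp (-X) = -Dl c c0 r (Aa a) := by
  rw [Dl, sub_comp, mul_comp, mul_comp, Aa_comp_neg, Pm_neg c c0 r h, Pp_neg c c0 r h, Aa_neg,
    Aa_comp]
  ring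

theorem Dl_Aa_deg {d0 : ℕ} (hq : Fintype.card ι + r = 2 * (d0 + 1)) (a : ℕ) :
    (Dl c c0 r (Aa a)).natDegree ≤ 2 * (a + d0) + 1 ∧
    (Dl c c0 r (Aa a)).coeff (2 * (a + d0) + 1) = 2 * (a - (∑ i, c i - r * c0)) := by
  have m1 : ((X + C (1 / 2) : ℂ[X]) ^ (2 * a)).Monic := (monic_X_add_C _).pow _
  have m2 : ((X - C (1 / 2) : ℂ[X]) ^ (2 * a)).Monic := (monic_X_sub_C _).pow _
  have n1 : ((X + C (1 / 2) : ℂ[X]) ^ (2 * a)).natDegree = 2 * a := by
    rw [(monic_X_add_C _).natDegree_pow]; simp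
  have n2 : ((X - C (1 / 2) : ℂ[X]) ^ (2 * a)).natDegree = 2 * a := by
    rw [(monic_X_sub_C _).natDegree_pow]; simp
  have M1 := m1.mul (Pm_monic c c0 r)
  have M2 := m2.mul (Pp_monic c c0 r)
  have N1 : ((X + C (1 / 2)) ^ (2 * a) * Pm c c0 r).natDegree = 2 * (a + d0) + 1 + 1 := by
    rw [m1.natDegree_mul (Pm_monic c c0 r), n1, Pm_natDegree]; omega
  have N2 : ((X - C (1 / 2)) ^ (2 * a) * Pp c c0 r).natDegree = 2 * (a + d0) + 1 + 1 := by
    rw [m2.natDegree_mul (Pp_monic c c0 r), n2, Pp_natDegree]; omega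
  have C1 : ((X + C (1 / 2)) ^ (2 * a) * Pm c c0 r).coeff (2 * (a + d0) + 1) =
      a - (∑ i, c i - r * c0) := by
    have h := m1.nextCoeff_mul (Pm_monic c c0 r)
    rw [nextCoeff_of_natDegree_pos (by omega), N1, (monic_X_add_C _).nextCoeff_pow, Pm_next,
      nextCoeff_X_add_C] at h
    rw [Nat.add_sub_cancel] at h
    rw [h, nsmul_eq_mul]
    push_cast
    ring
  have C2 : ((X - C (1 / 2)) ^ (2 * a) * Pp c c0 r).coeff (2 * (a + d0) + 1) =
      -(a - (∑ i, c i - r * c0)) := by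
    have h := m2.nextCoeff_mul (Pp_monic c c0 r)
    rw [nextCoeff_of_natDegree_pos (by omega), N2, (monic_X_sub_C _).nextCoeff_pow, Pp_next,
      nextCoeff_X_sub_C] at h
    rw [Nat.add_sub_cancel] at h
    rw [h, nsmul_eq_mul]
    push_cast
    ring
  have hform : Dl c c0 r (Aa a) = (X + C (1 / 2)) ^ (2 * a) * Pm c c0 r -
      (X - C (1 / 2)) ^ (2 * a) * Pp c c0 r := by
    rw [Dl, Aa_comp]; rfl
  constructor
  · rw [natDegree_le_iff_coeff_eq_zero]
    intro k hk
    rw [hform, coeff_sub]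
    rcases Nat.lt_or_ge (2 * (a + d0) + 1 + 1) k with h | h
    · rw [coeff_eq_zero_of_natDegree_lt (by omega), coeff_eq_zero_of_natDegree_lt (by omega),
        sub_zero]
    · have hk' : k = 2 * (a + d0) + 1 + 1 := by omega
      subst hk'
      have e1 := M1.coeff_natDegree
      have e2 := M2.coeff_natDegree
      rw [N1] at e1
      rw [N2] at e2
      rw [e1, e2, sub_self]
  · rw [hform, coeff_sub, C1, C2]
    ring

/-- the space spanned by telescopers, one exceptional monomial and low monomials -/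
def InW (d0 e : ℕ) (B : ℂ[X]) : Prop :=
  ∃ A : ℂ[X], ∃ g : ℂ, ∃ w : ℕ → ℂ,
    B = Dl c c0 r A + C g * X ^ e + ∑ i ∈ Finset.range d0, C (w i) * X ^ (2 * i + 1)

theorem InW.add {d0 e : ℕ} {B B' : ℂ[X]} (h : InW c c0 r d0 e B) (h' : InW c c0 r d0 e B') :
    InW c c0 r d0 e (B + B') := by
  obtain ⟨A, g, w, rfl⟩ := h
  obtain ⟨A', g', w', rfl⟩ := h'
  refine ⟨A + A', g + g', fun i => w i + w' i, ?_⟩
  rw [Dl_add, C_add]
  simp_rw [C_add, add_mul]
  rw [Finset.sum_add_distrib]
  ring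

theorem InW.cmul {d0 e : ℕ} {B : ℂ[X]} (k : ℂ) (h : InW c c0 r d0 e B) :
    InW c c0 r d0 e (C k * B) := by
  obtain ⟨A, g, w, rfl⟩ := h
  refine ⟨C k * A, k * g, fun i => k * w i, ?_⟩
  rw [Dl_C_mul, C_mul]
  simp_rw [C_mul]
  rw [mul_add, mul_add, Finset.mul_sum]
  refine congrArg₂ (· + ·) ?_ ?_
  · ring
  · exact Finset.sum_congr rfl fun i _ => by ring

theorem InW.zero {d0 e : ℕ} : InW c c0 r d0 e 0 := by
  refine ⟨0, 0, fun _ => 0, ?_⟩
  simp [Dl]

theorem InW.sum {d0 e : ℕ} (s : Finset ℕ) (f : ℕ → ℂ[X])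
    (h : ∀ i ∈ s, InW c c0 r d0 e (f i)) : InW c c0 r d0 e (∑ i ∈ s, f i) := by
  induction s using Finset.cons_induction with
  | empty => simpa using InW.zero c c0 r
  | cons a s ha ih =>
    rw [Finset.sum_cons]
    exact (h a (Finset.mem_cons_self a s)).add c c0 r
      (ih fun i hi => h i (Finset.mem_cons_of_mem hi))

theorem InW.pow {d0 astar : ℕ} (hq : Fintype.card ι + r = 2 * (d0 + 1))
    (hk : ∑ i, c i - r * c0 = astar) (m : ℕ) :
    InW c c0 r d0 (2 * (astar + d0) + 1) (X ^ (2 * m + 1)) := by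
  induction m using Nat.strong_induction_on with
  | _ m ih =>
    rcases Nat.lt_or_ge m d0 with h | h
    · refine ⟨0, 0, fun i => if i = m then 1 else 0, ?_⟩
      rw [Finset.sum_eq_single m]
      · simp [Dl]
      · intro b _ hb
        simp [hb]
      · intro h'
        exact absurd (Finset.mem_range.2 h) h'
    · obtain ⟨a, rfl⟩ := Nat.exists_eq_add_of_le h
      by_cases ha : a = astar
      · subst ha
        refine ⟨0, 1, fun _ => 0, ?_⟩
        rw [Nat.add_comm d0 a]
        simp [Dl]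
      · have hodd := Dl_Aa_odd c c0 r (hq ▸ even_two_mul _) a
        obtain ⟨hdeg, hco⟩ := Dl_Aa_deg c c0 r hq a
        have hs := odd_sum _ hodd (a + d0) hdeg
        rw [Finset.sum_range_succ, hco, hk] at hs
        have hne : (2 * ((a : ℂ) - astar)) ≠ 0 := by
          refine mul_ne_zero two_ne_zero (sub_ne_zero.2 ?_)
          exact_mod_cast ha
        have hX : (X : ℂ[X]) ^ (2 * (d0 + a) + 1) = C ((2 * ((a : ℂ) - astar))⁻¹) *
            (Dl c c0 r (Aa a) + C (-1) * ∑ k ∈ Finset.range (a + d0),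
              C ((Dl c c0 r (Aa a)).coeff (2 * k + 1)) * X ^ (2 * k + 1)) := by
          nth_rewrite 1 [hs]
          rw [Nat.add_comm d0 a]
          have : C ((2 * ((a : ℂ) - astar))⁻¹) * C (2 * ((a : ℂ) - astar)) = 1 := by
            rw [← C_mul, inv_mul_cancel₀ hne, C_1]
          simp only [C_neg, C_1]
          linear_combination (-X ^ (2 * (a + d0) + 1)) * this
        rw [hX]
        refine InW.cmul c c0 r _ (InW.add c c0 r ?_ (InW.cmul c c0 r _ ?_))
        · exact ⟨Aa a, 0, fun _ => 0, by simp⟩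
        · refine InW.sum c c0 r _ _ fun k hk' => ?_
          refine InW.cmul c c0 r _ (ih k ?_)
          have := Finset.mem_range.1 hk'
          omega

theorem InW.odd {d0 astar : ℕ} (hq : Fintype.card ι + r = 2 * (d0 + 1))
    (hk : ∑ i, c i - r * c0 = astar) (B : ℂ[X]) (hB : B.comp (-X) = -B) :
    InW c c0 r d0 (2 * (astar + d0) + 1) B := by
  rw [odd_sum B hB B.natDegree (by omega)]
  exact InW.sum c c0 r _ _ fun k _ => InW.cmul c c0 r _ (InW.pow c c0 r hq hk k)

end Dl

end T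

theorem tele {ι : Type*} [Fintype ι] (c : ι → ℂ) (c0 : ℂ) (r d0 astar : ℕ)
    (hq : Fintype.card ι + r = 2 * (d0 + 1))
    (hk : ∑ i, c i - r * c0 = astar)
    (N D : ℂ[X]) (hN : N ≠ 0) (hD : D ≠ 0)
    (hdeg : D.natDegree = N.natDegree + 2 * (astar + d0) + 2)
    (hfe : N.comp (X + 1) * (Pp c c0 r).comp (X + 1) * D = N * Pm c c0 r * D.comp (X + 1))
    (B Q : ℂ[X]) (hB : B.comp (-X) = -B) (hBQ : N * B = D * Q) :
    ∃ A : ℂ[X], ∃ w : ℕ → ℂ,
      B = A.comp (X + 1) * Pm c c0 r - A * Pp c c0 r +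
        ∑ i ∈ Finset.range d0, C (w i) * X ^ (2 * i + 1) := by
  obtain ⟨A, g, w, hA⟩ := T.InW.odd c c0 r hq hk B hB
  by_cases hg : g = 0
  · subst hg
    refine ⟨A, w, ?_⟩
    nth_rewrite 1 [hA]
    rw [T.Dl]
    simp
  · exfalso
    obtain ⟨S, hS⟩ := T.exists_anti (Q.natDegree + 1) Q fun k hk' =>
      coeff_eq_zero_of_natDegree_lt (by omega)
    set E : ℂ[X] := C g * X ^ (2 * (astar + d0) + 1) +
      ∑ i ∈ Finset.range d0, C (w i) * X ^ (2 * i + 1) with hE
    have hlow : (∑ i ∈ Finset.range d0, C (w i) * X ^ (2 * i + 1) : ℂ[X]).degree <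
        ((2 * (astar + d0) + 1 : ℕ) : WithBot ℕ) := by
      rw [degree_lt_iff_coeff_zero]
      intro m hm
      rw [finsetSum_coeff]
      refine Finset.sum_eq_zero fun i hi => ?_
      rw [coeff_C_mul_X_pow, if_neg]
      have := Finset.mem_range.1 hi
      omega
    have hEc : E.coeff (2 * (astar + d0) + 1) = g := by
      rw [hE, coeff_add, coeff_C_mul_X_pow, if_pos rfl,
        (degree_lt_iff_coeff_zero _ _).1 hlow _ le_rfl, add_zero]
    have hE0 : E ≠ 0 := by
      intro h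
      rw [h, coeff_zero] at hEc
      exact hg hEc.symm
    have hEd : E.natDegree = 2 * (astar + d0) + 1 := by
      refine le_antisymm ?_ (le_natDegree_of_ne_zero (by rw [hEc]; exact hg))
      rw [natDegree_le_iff_coeff_eq_zero]
      intro k hk'
      rw [hE, coeff_add, coeff_C_mul_X_pow, if_neg (by omega),
        (degree_lt_iff_coeff_zero _ _).1 hlow _ (by omega), add_zero]
    have hDc0 : D.comp (X + 1) ≠ 0 := by
      intro h
      have h2 : D.comp (X + 1) = D.comp (X + C 1) := by simp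
      rw [h2, comp_X_add_C_eq_zero_iff] at h
      exact hD h
    have hDcd : (D.comp (X + 1)).natDegree = D.natDegree := by
      rw [show (X + 1 : ℂ[X]) = X + C 1 by simp, natDegree_comp, natDegree_X_add_C, mul_one]
    have key : (S * D - A * N * Pp c c0 r).comp (X + 1) * D -
        (S * D - A * N * Pp c c0 r) * D.comp (X + 1) = D.comp (X + 1) * N * E := by
      have hB' : E = B - (A.comp (X + 1) * Pm c c0 r - A * Pp c c0 r) := by
        rw [hE]
        rw [T.Dl] at hA
        linear_combination -hA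
      rw [hB', sub_comp, mul_comp, mul_comp, mul_comp]
      linear_combination (D * D.comp (X + 1)) * hS - (A.comp (X + 1)) * hfe -
        (D.comp (X + 1)) * hBQ
    refine T.no_log _ _ _ key (D.natDegree - 1) (by omega)
      (mul_ne_zero (mul_ne_zero hDc0 hN) hE0) ?_
    rw [natDegree_mul (mul_ne_zero hDc0 hN) hE0, natDegree_mul hDc0 hN, hDcd, hEd]
    omega

end ZetaSets
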