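import Pool.Agent.Work.MP_4f096c_nt.Shift
import Pool.Agent.Work.MP_4f096c_nt.Tele
import Pool.Agent.Work.MP_4f096c_nt.Defs

/-!
The linear forms do not all vanish.
-/

section

/-!
Auxiliary lemmas for the proof that the linear forms do not vanish.
-/

namespace ZetaSets
open Complex MeasureTheory Polynomial
open scoped Nat

/-! ### periodicity of the kernel, growth of polynomials -/

theorem K_add_one (r : ℕ) (z : ℂ) : K r (z + 1) = K r z := by
  unfold K
  rw [← (Equiv.addRight (1 : ℤ)).tsum_eq (fun m : ℤ => 1 / (z + m) ^ r)]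
  refine tsum_congr fun m => ?_
  simp only [Equiv.coe_addRight]
  push_cast
  congr 2
  ring

theorem K_neg_nat_add (r n : ℕ) (z : ℂ) : K r (-(n : ℂ) + z) = K r z := by
  induction n with
  | zero => simp
  | succ n ih =>
    rw [← ih, ← K_add_one r (-((n + 1 : ℕ) : ℂ) + z)]
    congr 1
    push_cast
    ring

theorem poly_growth (B : ℂ[X]) (X0 : ℝ) : ∃ (C0 : ℝ) (N : ℕ), 0 ≤ C0 ∧
    ∀ z : ℂ, |z.re| ≤ X0 → ‖B.eval z‖ ≤ C0 * (1 + |z.im|) ^ N := by
  rcases lt_or_ge X0 0 with h0 | h0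
  · refine ⟨0, 0, le_refl _, fun z hz => ?_⟩
    have := abs_nonneg z.re
    linarith
  refine ⟨∑ i ∈ Finset.range (B.natDegree + 1), ‖B.coeff i‖ * (1 + X0) ^ B.natDegree,
    B.natDegree, by positivity, fun z hz => ?_⟩
  rw [eval_eq_sum_range, Finset.sum_mul]
  refine (norm_sum_le _ _).trans (Finset.sum_le_sum fun i hi => ?_)
  rw [norm_mul, norm_pow, mul_assoc]
  apply mul_le_mul_of_nonneg_left _ (norm_nonneg _)
  have h1 : ‖z‖ ≤ (1 + X0) * (1 + |z.im|) := by
    have h2 := Complex.norm_le_abs_re_add_abs_im z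
    nlinarith [abs_nonneg z.im, mul_nonneg h0 (abs_nonneg z.im)]
  have h3 : (1 : ℝ) ≤ (1 + X0) * (1 + |z.im|) := by
    nlinarith [abs_nonneg z.im, mul_nonneg h0 (abs_nonneg z.im)]
  have h4 : i ≤ B.natDegree := by
    have := Finset.mem_range.mp hi
    omega
  calc ‖z‖ ^ i ≤ ((1 + X0) * (1 + |z.im|)) ^ i := by gcongr
    _ ≤ ((1 + X0) * (1 + |z.im|)) ^ B.natDegree := pow_le_pow_right₀ h3 h4
    _ = _ := by rw [mul_pow]

theorem factor_lower {t : ℂ} {b l : ℕ} (hb : 1 ≤ b) {ε : ℝ} (ht : |t.re| ≤ 1 - ε) :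
    ε ≤ ‖t + b + l‖ := by
  have h1 : |(t + b + l).re| ≤ ‖t + b + l‖ := Complex.abs_re_le_norm _
  have h2 : (t + b + l).re = t.re + b + l := by simp
  have h3 : (1 : ℝ) ≤ b := by exact_mod_cast hb
  have h4 : (0 : ℝ) ≤ l := Nat.cast_nonneg _
  have h5 := le_abs_self (t + b + l).re
  have h6 := (abs_le.mp ht).1
  rw [h2] at h5 h1
  linarith

theorem prod_tel (f : ℕ → ℂ) (a : ℕ) :
    (∏ l ∈ Finset.range a, f (l + 1)) * f 0 = (∏ l ∈ Finset.range a, f l) * f a := by
  rw [← Finset.prod_range_succ, ← Finset.prod_range_succ']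

theorem block_j (x H : ℂ) (a : ℕ) :
    (∏ l ∈ Finset.range a, ((x + 1 - (H - (l + 1))) * (x + 1 + (H - (l + 1))))) *
      (x + 1 + (H - a - 1)) * (x + 1 - H) =
    (∏ l ∈ Finset.range a, ((x - (H - (l + 1))) * (x + (H - (l + 1))))) *
      (x - (H - a - 1)) * (x + H) := by
  rw [Finset.prod_mul_distrib, Finset.prod_mul_distrib]
  have h1 := prod_tel (fun l => x - H + l + 1) a
  have h2 := prod_tel (fun l => x + H - l) a
  have e1 : ∏ l ∈ Finset.range a, (x + 1 - (H - ((l : ℂ) + 1))) =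
      ∏ l ∈ Finset.range a, (x - H + ((l + 1 : ℕ) : ℂ) + 1) :=
    Finset.prod_congr rfl fun l _ => by push_cast; ring
  have e2 : ∏ l ∈ Finset.range a, (x + 1 + (H - ((l : ℂ) + 1))) =
      ∏ l ∈ Finset.range a, (x + H - l) :=
    Finset.prod_congr rfl fun l _ => by ring
  have e3 : ∏ l ∈ Finset.range a, (x - (H - ((l : ℂ) + 1))) =
      ∏ l ∈ Finset.range a, (x - H + l + 1) :=
    Finset.prod_congr rfl fun l _ => by ring
  have e4 : ∏ l ∈ Finset.range a, (x + (H - ((l : ℂ) + 1))) =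
      ∏ l ∈ Finset.range a, (x + H - ((l + 1 : ℕ) : ℂ)) :=
    Finset.prod_congr rfl fun l _ => by push_cast; ring
  rw [e1, e2, e3, e4]
  simp only [Nat.cast_zero] at h1 h2
  linear_combination (∏ l ∈ Finset.range a, (x + H - (l : ℂ))) * (x + H - a) * h1 -
    (∏ l ∈ Finset.range a, (x - H + (l : ℂ) + 1)) * (x - H + a + 1) * h2

theorem block_i (x H : ℂ) (b n : ℕ) (hn : (n : ℂ) = 2 * H - 2 * b) :
    (∏ l ∈ Finset.range (n + 1), (x + ((b : ℂ) + l - H))) * (x + 1 + (H - b)) =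
    (∏ l ∈ Finset.range (n + 1), (x + 1 + ((b : ℂ) + l - H))) * (x - (H - b)) := by
  have h1 := prod_tel (fun l => x + b + l - H) (n + 1)
  have e1 : ∏ l ∈ Finset.range (n + 1), (x + ((b : ℂ) + l - H)) =
      ∏ l ∈ Finset.range (n + 1), (x + b + l - H) :=
    Finset.prod_congr rfl fun l _ => by ring
  have e2 : ∏ l ∈ Finset.range (n + 1), (x + 1 + ((b : ℂ) + l - H)) =
      ∏ l ∈ Finset.range (n + 1), (x + b + ((l + 1 : ℕ) : ℂ) - H) :=
    Finset.prod_congr rfl fun l _ => by push_cast; ring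
  rw [e1, e2]
  simp only [Nat.cast_zero] at h1
  push_cast at h1 ⊢
  rw [hn] at h1
  linear_combination -h1

/-! ### shifting the line for a polynomial -/

theorem shiftPoly {r : ℕ} (hr : 3 ≤ r) (H : ℕ) (m0 : ℤ) {x1 x2 : ℝ}
    (hx1 : |x1 - m0| ≤ 1 / 2) (hx2 : |x2 - m0| ≤ 1 / 2) {Q : ℂ[X]}
    (hQ : (X - C ((m0 : ℂ) + H)) ^ r ∣ Q) :
    ∫ y : ℝ, Q.eval ((x1 : ℂ) + y * I + H) * K r ((x1 : ℂ) + y * I) =
      ∫ y : ℝ, Q.eval ((x2 : ℂ) + y * I + H) * K r ((x2 : ℂ) + y * I) := by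
  obtain ⟨Q0, rfl⟩ := hQ
  obtain ⟨C0, N, hC0, hgr⟩ := poly_growth ((X - C ((m0 : ℂ) + H)) ^ r * Q0)
    (|(m0 : ℝ) + H| + 1 / 2)
  refine shift hr m0 (G := fun z => ((X - C ((m0 : ℂ) + H)) ^ r * Q0).eval (z + H))
    (G0 := fun z => Q0.eval (z + H)) hx1 hx2 ?_ ?_ (C := C0) (N := N) ?_
  · intro z _
    apply DifferentiableAt.differentiableWithinAt
    exact (Polynomial.differentiableAt Q0).comp z (by fun_prop)
  · intro z _
    simp only [eval_mul, eval_pow, eval_sub, eval_X, eval_C]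
    congr 2
    ring
  · intro z hz
    have h1 := hgr (z + H) (by
      have h2 : (z + H).re = (z.re - m0) + (m0 + H) := by
        simp only [add_re, natCast_re]
        ring
      rw [h2]
      refine (abs_add_le _ _).trans ?_
      linarith)
    have h3 : (z + H).im = z.im := by simp
    rwa [h3] at h1

theorem pt0_re (y : ℝ) : (pt 0 y).re = -(1 / 2) := by
  unfold pt
  simp

theorem pt0_im (y : ℝ) : (pt 0 y).im = y := by
  unfold pt
  simp

theorem pt0_abs (y : ℝ) : |(pt 0 y).re| ≤ 1 / 2 := by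
  rw [pt0_re]
  norm_num [abs_of_pos]

theorem pt_continuous (M : ℕ) : Continuous fun y : ℝ => pt M y := by
  unfold pt
  fun_prop

end ZetaSets

end

section

namespace ZG
open ZetaSets
open Complex MeasureTheory Polynomial
open scoped Nat

/-! ### numerator and denominator in the variable `u = t + h / 2` -/

/-- half of `h` -/
noncomputable def Hh (P : Par) : ℂ := ((P.h / 2 : ℕ) : ℂ)

/-- `h / 2 + g j` -/
noncomputable def Hg (P : Par) (j : Fin P.r) : ℂ := Hh P + P.g j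

noncomputable def cst (P : Par) : ℂ :=
  (∏ j, (((P.g j + P.a j)! : ℂ) ^ 2)⁻¹) * ∏ i, (((P.h - 2 * P.b i)! : ℕ) : ℂ)

/-- numerator block number `j` -/
noncomputable def blk (P : Par) (j : Fin P.r) : ℂ[X] :=
  ∏ l ∈ Finset.range (P.g j + P.a j), ((X - C (Hg P j - (l + 1))) * (X + C (Hg P j - (l + 1))))

noncomputable def NP0 (P : Par) : ℂ[X] := ∏ j, blk P j

noncomputable def NP (P : Par) : ℂ[X] := C (cst P) * NP0 P

noncomputable def DP (P : Par) : ℂ[X] :=
  ∏ i, ∏ l ∈ Finset.range (P.h - 2 * P.b i + 1), (X + C ((P.b i : ℂ) + l - Hh P))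

theorem cst_ne_zero (P : Par) : cst P ≠ 0 := by
  unfold cst
  apply mul_ne_zero
  · apply Finset.prod_ne_zero_iff.mpr
    intro j _
    have : ((P.g j + P.a j)! : ℂ) ≠ 0 := by exact_mod_cast Nat.factorial_ne_zero _
    exact inv_ne_zero (pow_ne_zero _ this)
  · apply Finset.prod_ne_zero_iff.mpr
    intro i _
    exact_mod_cast Nat.factorial_ne_zero _

theorem two_Hh {P : Par} (he : Even P.h) : 2 * Hh P = P.h := by
  unfold Hh
  have : 2 * (P.h / 2) = P.h := Nat.two_mul_div_two_of_even he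
  exact_mod_cast this

theorem R_eq {P : Par} (he : Even P.h) (t : ℂ) :
    R P t = (2 * (t + Hh P)) * ((NP P).eval (t + Hh P) / (DP P).eval (t + Hh P)) := by
  unfold R NP NP0 blk DP cst
  have hh := two_Hh he
  rw [eval_mul, eval_C, eval_prod, eval_prod]
  simp_rw [eval_prod, eval_mul, eval_sub, eval_add, eval_X, eval_C]
  have h1 : ∀ j : Fin P.r, ((∏ l ∈ Finset.range (P.g j + P.a j), (t - P.g j + ((l : ℂ) + 1))) *
      (∏ l ∈ Finset.range (P.g j + P.a j), (t + P.h + P.g j - ((l : ℂ) + 1)))) /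
        (((P.g j + P.a j)! : ℂ) ^ 2) =
      (((P.g j + P.a j)! : ℂ) ^ 2)⁻¹ * ∏ l ∈ Finset.range (P.g j + P.a j),
        ((t + Hh P - (Hg P j - ((l : ℂ) + 1))) * (t + Hh P + (Hg P j - ((l : ℂ) + 1)))) := by
    intro j
    rw [← Finset.prod_mul_distrib, div_eq_mul_inv, mul_comm]
    congr 1
    apply Finset.prod_congr rfl
    intro l _
    unfold Hg
    rw [← hh]
    ring
  have h2 : ∀ i : Fin P.s, ∏ l ∈ Finset.range (P.h - 2 * P.b i + 1), (t + P.b i + (l : ℂ)) =
      ∏ l ∈ Finset.range (P.h - 2 * P.b i + 1), (t + Hh P + ((P.b i : ℂ) + l - Hh P)) := by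
    intro i
    apply Finset.prod_congr rfl
    intro l _
    ring
  simp_rw [h1, h2]
  rw [Finset.prod_mul_distrib, Finset.prod_div_distrib, ← hh]
  ring

theorem DP_eval (P : Par) (t : ℂ) : (DP P).eval (t + Hh P) =
    ∏ i, ∏ l ∈ Finset.range (P.h - 2 * P.b i + 1), (t + P.b i + l) := by
  unfold DP
  rw [eval_prod]
  simp_rw [eval_prod, eval_add, eval_X, eval_C]
  apply Finset.prod_congr rfl
  intro i _
  apply Finset.prod_congr rfl
  intro l _
  ring

theorem DP_ne_zero {P : Par} (hb : ∀ i, 1 ≤ P.b i) {t : ℂ} (ht : |t.re| < 3 / 4) :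
    (DP P).eval (t + Hh P) ≠ 0 := by
  rw [DP_eval]
  apply Finset.prod_ne_zero_iff.mpr
  intro i _
  apply Finset.prod_ne_zero_iff.mpr
  intro l _ h
  have := factor_lower (l := l) (hb i) (ε := 1 / 4) (t := t) (by linarith)
  rw [h, norm_zero] at this
  norm_num at this

theorem DP_lower {P : Par} (hb : ∀ i, 1 ≤ P.b i) {t : ℂ} (ht : |t.re| ≤ 1 / 2) :
    ∏ i, ∏ _ ∈ Finset.range (P.h - 2 * P.b i + 1), (1 / 2 : ℝ) ≤ ‖(DP P).eval (t + Hh P)‖ := by
  rw [DP_eval, norm_prod]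
  apply Finset.prod_le_prod (fun i _ => by positivity)
  intro i _
  rw [norm_prod]
  apply Finset.prod_le_prod (fun i _ => by positivity)
  intro l _
  exact factor_lower (hb i) (ε := 1 / 2) (by linarith)

theorem DP_monic (P : Par) : (DP P).Monic := by
  unfold DP
  apply monic_prod_of_monic
  intro i _
  apply monic_prod_of_monic
  intro l _
  exact monic_X_add_C _

theorem DP_natDegree (P : Par) : (DP P).natDegree = ∑ i, (P.h - 2 * P.b i + 1) := by
  unfold DP
  rw [natDegree_prod_of_monic]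
  · apply Finset.sum_congr rfl
    intro i _
    rw [natDegree_prod_of_monic]
    · simp only [natDegree_X_add_C, Finset.sum_const, Finset.card_range, smul_eq_mul, mul_one]
    · intro l _
      exact monic_X_add_C _
  · intro i _
    apply monic_prod_of_monic
    intro l _
    exact monic_X_add_C _

theorem blk_monic (P : Par) (j : Fin P.r) : (blk P j).Monic := by
  unfold blk
  apply monic_prod_of_monic
  intro l _
  exact (monic_X_sub_C _).mul (monic_X_add_C _)

theorem NP0_monic (P : Par) : (NP0 P).Monic := by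
  unfold NP0
  apply monic_prod_of_monic
  intro i _
  exact blk_monic P i

theorem NP0_natDegree (P : Par) : (NP0 P).natDegree = ∑ j, 2 * (P.g j + P.a j) := by
  unfold NP0
  rw [natDegree_prod_of_monic]
  · apply Finset.sum_congr rfl
    intro i _
    unfold blk
    rw [natDegree_prod_of_monic]
    · have h : ∀ l : ℕ, ((X - C (Hg P i - ((l : ℂ) + 1))) * (X + C (Hg P i - (l + 1)))).natDegree
          = 2 := by
        intro l
        rw [(monic_X_sub_C _).natDegree_mul (monic_X_add_C _), natDegree_X_sub_C,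
          natDegree_X_add_C]
      simp_rw [h]
      simp [mul_comm]
    · intro l _
      exact (monic_X_sub_C _).mul (monic_X_add_C _)
  · intro i _
    exact blk_monic P i

theorem NP_natDegree (P : Par) : (NP P).natDegree = ∑ j, 2 * (P.g j + P.a j) := by
  unfold NP
  rw [natDegree_C_mul (cst_ne_zero P), NP0_natDegree]

theorem NP_ne_zero (P : Par) : NP P ≠ 0 := by
  unfold NP
  exact mul_ne_zero (C_ne_zero.mpr (cst_ne_zero P)) (NP0_monic P).ne_zero

/-! ### the functional equation -/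

/-- the shifts `c` of `tele` -/
noncomputable def cc (P : Par) : (Fin P.r ⊕ Fin P.s) ⊕ Fin P.r → ℂ :=
  Sum.elim (Sum.elim (fun j => Hg P j - ((P.g j + P.a j : ℕ) : ℂ) - 1) (fun i => Hh P - P.b i))
    (fun j => -Hg P j)

theorem hfe (P : Par) (he : Even P.h) (hb2 : ∀ i, 2 * P.b i ≤ P.h) :
    (NP P).comp (X + 1) * (Pp (cc P) 0 0).comp (X + 1) * DP P =
      NP P * Pm (cc P) 0 0 * (DP P).comp (X + 1) := by
  apply Polynomial.funext
  intro x
  simp only [eval_mul, eval_comp, eval_add, eval_X, eval_one]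
  unfold NP NP0 blk Pp Pm DP cc
  simp only [eval_mul, eval_C, eval_prod, eval_sub, eval_add, eval_X, pow_zero, mul_one,
    Fintype.prod_sum_type, Sum.elim_inl, Sum.elim_inr]
  have hj : ∀ j : Fin P.r, _ := fun j => block_j x (Hg P j) (P.g j + P.a j)
  have hi : ∀ i : Fin P.s, _ := fun i => block_i x (Hh P) (P.b i) (P.h - 2 * P.b i) (by
    rw [Nat.cast_sub (hb2 i), ← two_Hh he]
    push_cast
    ring)
  have hJ := Finset.prod_congr (rfl : (Finset.univ : Finset (Fin P.r)) = Finset.univ)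
    (fun j _ => hj j)
  have hI := Finset.prod_congr (rfl : (Finset.univ : Finset (Fin P.s)) = Finset.univ)
    (fun i _ => hi i)
  rw [Finset.prod_mul_distrib, Finset.prod_mul_distrib, Finset.prod_mul_distrib,
    Finset.prod_mul_distrib] at hJ
  rw [Finset.prod_mul_distrib, Finset.prod_mul_distrib] at hI
  simp only [← sub_eq_add_neg, sub_neg_eq_add] at hJ hI ⊢
  linear_combination (exp := 1) (cst P) * (∏ i : Fin P.s, ∏ l ∈ Finset.range (P.h - 2 * P.b i + 1),
    (x + ((P.b i : ℂ) + l - Hh P))) * (∏ i : Fin P.s, (x + 1 + (Hh P - P.b i))) * hJ +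
    (cst P) * ((∏ j : Fin P.r, ∏ l ∈ Finset.range (P.g j + P.a j),
      ((x - (Hg P j - ((l : ℂ) + 1))) * (x + (Hg P j - (l + 1))))) *
      (∏ j : Fin P.r, (x - (Hg P j - ((P.g j + P.a j : ℕ) : ℂ) - 1))) *
      (∏ j : Fin P.r, (x + Hg P j))) * hI

/-- the zero of order `r` at `t = 0` -/
theorem zero_dvd (P : Par) :
    (X - C (Hh P)) ^ P.r ∣ NP0 P * ∏ j, (X - C (Hg P j)) := by
  have key : ∀ j : Fin P.r, (X - C (Hh P)) ∣ blk P j * (X - C (Hg P j)) := by
    intro j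
    rcases Nat.eq_zero_or_pos (P.g j) with h0 | hpos
    · apply Dvd.dvd.mul_left
      unfold Hg
      rw [h0]
      simp
    · apply Dvd.dvd.mul_right
      unfold blk
      refine dvd_trans ?_ (Finset.dvd_prod_of_mem _ (Finset.mem_range.mpr
        (show P.g j - 1 < P.g j + P.a j by omega)))
      apply Dvd.dvd.mul_right
      have h1 : Hg P j - (((P.g j - 1 : ℕ) : ℂ) + 1) = Hh P := by
        unfold Hg
        rw [Nat.cast_sub (by omega)]
        push_cast
        ring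
      rw [h1]
  unfold NP0
  rw [← Finset.prod_mul_distrib]
  have h2 : (X - C (Hh P)) ^ P.r = ∏ _j : Fin P.r, (X - C (Hh P)) := by
    rw [Finset.prod_const, Finset.card_univ, Fintype.card_fin]
  rw [h2]
  exact Finset.prod_dvd_prod_of_dvd _ _ fun j _ => key j

end ZG

end

section

namespace ZG
open ZetaSets
open Complex MeasureTheory Polynomial
open scoped Nat

/-! ### the auxiliary polynomials -/

theorem DP_even {P : Par} (he : Even P.h) (hs : Even P.s) (hb2 : ∀ i, 2 * P.b i ≤ P.h) :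
    (DP P).comp (-X) = DP P := by
  apply Polynomial.funext
  intro x
  simp only [eval_comp, eval_neg, eval_X]
  unfold DP
  simp only [eval_prod, eval_add, eval_X, eval_C]
  have key : ∀ i : Fin P.s, ∏ l ∈ Finset.range (P.h - 2 * P.b i + 1),
      (-x + ((P.b i : ℂ) + l - Hh P)) =
      -1 * ∏ l ∈ Finset.range (P.h - 2 * P.b i + 1), (x + ((P.b i : ℂ) + l - Hh P)) := by
    intro i
    have hn : ((P.h - 2 * P.b i : ℕ) : ℂ) = 2 * Hh P - 2 * P.b i := by
      rw [Nat.cast_sub (hb2 i), ← two_Hh he]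
      push_cast
      ring
    have hodd : Odd (P.h - 2 * P.b i + 1) := by
      obtain ⟨k, hk⟩ := he
      exact ⟨k - P.b i, by have := hb2 i; omega⟩
    rw [← Finset.prod_range_reflect]
    have h1 : ∀ l ∈ Finset.range (P.h - 2 * P.b i + 1),
        (-x + ((P.b i : ℂ) + ((P.h - 2 * P.b i + 1 - 1 - l : ℕ) : ℂ) - Hh P)) =
        (-1) * (x + ((P.b i : ℂ) + l - Hh P)) := by
      intro l hl
      have hl' : l ≤ P.h - 2 * P.b i := by
        have := Finset.mem_range.mp hl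
        omega
      rw [show P.h - 2 * P.b i + 1 - 1 - l = (P.h - 2 * P.b i) - l by omega, Nat.cast_sub hl', hn]
      ring
    rw [Finset.prod_congr rfl h1, Finset.prod_mul_distrib, Finset.prod_const, Finset.card_range,
      hodd.neg_one_pow]
  rw [Finset.prod_congr rfl fun i _ => key i, Finset.prod_mul_distrib, Finset.prod_const,
    Finset.card_univ, Fintype.card_fin, hs.neg_one_pow, one_mul]

/-- the missing factors -/
noncomputable def EP (P : Par) : ℂ[X] :=
  ∏ j, ∏ l ∈ Finset.range (P.h / 2 - P.a j - 1), (X ^ 2 - C (((l : ℂ) + 1) ^ 2))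

/-- product of all `u^2 - l^2`, `0 < l < n + 1` -/
noncomputable def FP (n : ℕ) : ℂ[X] :=
  ∏ l ∈ Finset.range n, (X ^ 2 - C (((l : ℂ) + 1) ^ 2))

noncomputable def BP (P : Par) : ℂ[X] := DP P * X ^ (P.r + 2) * EP P

noncomputable def QP (P : Par) : ℂ[X] := NP P * X ^ (P.r + 2) * EP P

theorem EP_even (P : Par) : (EP P).comp (-X) = EP P := by
  unfold EP
  simp [Polynomial.prod_comp]

theorem BP_odd {P : Par} (he : Even P.h) (hs : Even P.s) (hr : Odd P.r)
    (hb2 : ∀ i, 2 * P.b i ≤ P.h) : (BP P).comp (-X) = -BP P := by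
  unfold BP
  have h : Odd (P.r + 2) := by
    obtain ⟨k, hk⟩ := hr
    exact ⟨k + 1, by omega⟩
  rw [mul_comp, mul_comp, EP_even, DP_even he hs hb2, pow_comp, X_comp, h.neg_pow]
  ring

theorem QP_eq {P : Par} (ha : ∀ j, P.a j < P.h / 2) :
    QP P = C (cst P) * X ^ (P.r + 2) * ∏ j, FP (P.h / 2 + P.g j - 1) := by
  have key : ∀ j : Fin P.r, blk P j *
      (∏ l ∈ Finset.range (P.h / 2 - P.a j - 1), (X ^ 2 - C (((l : ℂ) + 1) ^ 2))) =
        FP (P.h / 2 + P.g j - 1) := by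
    intro j
    unfold FP blk
    obtain ⟨L, hL⟩ : ∃ L, L = P.g j + P.a j := ⟨_, rfl⟩
    rw [← hL]
    have h1 : P.h / 2 + P.g j - 1 = (P.h / 2 - P.a j - 1) + L := by
      have := ha j
      omega
    rw [h1, Finset.prod_range_add, mul_comm, ← Finset.prod_range_reflect (fun l =>
      (X ^ 2 - C (((((P.h / 2 - P.a j - 1 + l : ℕ)) : ℂ) + 1) ^ 2) : ℂ[X]))]
    congr 1
    apply Finset.prod_congr rfl
    intro l hl
    have hl' : l < L := Finset.mem_range.mp hl
    have h2 : (((P.h / 2 - P.a j - 1 + (L - 1 - l) : ℕ)) : ℂ) + 1 =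
        Hg P j - (l + 1) := by
      unfold Hg Hh
      have h3 : P.h / 2 - P.a j - 1 + (L - 1 - l) + 1 + (l + 1) =
          P.h / 2 + P.g j := by
        have := ha j
        omega
      have h5 : (((P.h / 2 - P.a j - 1 + (L - 1 - l) : ℕ)) : ℂ) + 1 +
          ((l : ℂ) + 1) = ((P.h / 2 : ℕ) : ℂ) + (P.g j : ℂ) := by exact_mod_cast h3
      linear_combination h5
    rw [h2, C_pow]
    ring
  unfold QP NP NP0 EP
  have h4 : (∏ j : Fin P.r, blk P j) *
      (∏ j : Fin P.r, ∏ l ∈ Finset.range (P.h / 2 - P.a j - 1),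
        (X ^ 2 - C (((l : ℂ) + 1) ^ 2))) = ∏ j : Fin P.r, FP (P.h / 2 + P.g j - 1) := by
    rw [← Finset.prod_mul_distrib, Finset.prod_congr rfl fun j _ => key j]
  rw [← h4]
  ring

theorem FP_dvd {n l : ℕ} (hl : l < n) : (X - C ((l : ℂ) + 1)) ∣ FP n := by
  unfold FP
  refine dvd_trans ⟨X + C ((l : ℂ) + 1), ?_⟩
    (Finset.dvd_prod_of_mem _ (Finset.mem_range.mpr hl))
  rw [C_pow]
  ring

theorem QP_dvd {P : Par} (ha : ∀ j, P.a j < P.h / 2) {l : ℕ} (hl : l < P.h / 2) :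
    (X - C (l : ℂ)) ^ P.r ∣ QP P := by
  rw [QP_eq ha]
  rcases Nat.eq_zero_or_pos l with rfl | hpos
  · apply Dvd.dvd.mul_right
    apply Dvd.dvd.mul_left
    simp only [Nat.cast_zero, map_zero, sub_zero]
    exact pow_dvd_pow _ (by omega)
  · obtain ⟨m, rfl⟩ : ∃ m, l = m + 1 := ⟨l - 1, by omega⟩
    apply Dvd.dvd.mul_left
    push_cast
    have h2 : (X - C ((m : ℂ) + 1)) ^ P.r = ∏ _j : Fin P.r, (X - C ((m : ℂ) + 1)) := by
      rw [Finset.prod_const, Finset.card_univ, Fintype.card_fin]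
    rw [h2]
    exact Finset.prod_dvd_prod_of_dvd _ _ fun j _ => FP_dvd (by omega)

/-- (N4), first part: from the line number `0` to the symmetric line. -/
theorem QP_lines {P : Par} (hr : 3 ≤ P.r) (ha : ∀ j, P.a j < P.h / 2)
    (m : ℕ) (hm : m < P.h / 2) :
    ∫ y : ℝ, (QP P).eval (pt 0 y + Hh P) * K P.r (pt 0 y) =
      ∫ y : ℝ, (QP P).eval (pt m y + Hh P) * K P.r (pt m y) := by
  induction m with
  | zero => rfl
  | succ m ih =>
    rw [ih (by omega)]
    have h1 := shiftPoly hr (P.h / 2) (-((m : ℤ) + 1)) (x1 := -((m : ℝ) + 1 / 2))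
      (x2 := -(((m + 1 : ℕ) : ℝ) + 1 / 2)) (Q := QP P)
      (by push_cast; norm_num [abs_of_pos]) (by push_cast; norm_num [abs_of_neg])
      (by
        have h2 := QP_dvd ha (l := P.h / 2 - (m + 1)) (by omega)
        rw [Nat.cast_sub hm.le] at h2
        convert h2 using 4
        push_cast
        ring)
    have e1 : ∀ y : ℝ, ((-((m : ℝ) + 1 / 2) : ℝ) : ℂ) + y * I = pt m y := by
      intro y; unfold pt; push_cast; ring
    have e2 : ∀ y : ℝ, ((-(((m + 1 : ℕ) : ℝ) + 1 / 2) : ℝ) : ℂ) + y * I = pt (m + 1) y := by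
      intro y; unfold pt; push_cast; ring
    simp_rw [e1, e2] at h1
    exact h1

theorem FP_eval_I (n : ℕ) (y : ℝ) : (FP n).eval ((y : ℂ) * I) =
    (-1) ^ n * ((∏ l ∈ Finset.range n, (y ^ 2 + ((l : ℝ) + 1) ^ 2) : ℝ) : ℂ) := by
  simp only [FP, eval_prod, eval_sub, eval_pow, eval_X, eval_C]
  have h1 : ((-1 : ℂ)) ^ n = ∏ _l ∈ Finset.range n, (-1 : ℂ) := by
    rw [Finset.prod_const, Finset.card_range]
  rw [h1]
  push_cast
  rw [← Finset.prod_mul_distrib]
  apply Finset.prod_congr rfl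
  intro l _
  rw [mul_pow, I_sq]
  ring

theorem QP_int_ne {P : Par} (hr : 3 ≤ P.r) (hodd : Odd P.r) (ha : ∀ j, P.a j < P.h / 2)
    (hh : 0 < P.h / 2) :
    ∫ y : ℝ, (QP P).eval (pt 0 y + Hh P) * K P.r (pt 0 y) ≠ 0 := by
  rw [QP_lines hr ha (P.h / 2 - 1) (by omega)]
  have h1 := shiftPoly hr (P.h / 2) (-((P.h / 2 : ℕ) : ℤ))
    (x1 := -(((P.h / 2 - 1 : ℕ) : ℝ) + 1 / 2))
    (x2 := -((P.h / 2 : ℕ) : ℝ)) (Q := QP P)
    (by
      have : ((P.h / 2 - 1 : ℕ) : ℝ) = ((P.h / 2 : ℕ) : ℝ) - 1 := by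
        rw [Nat.cast_sub (by omega)]; simp
      rw [this, Int.cast_neg, Int.cast_natCast]
      rw [show -(((P.h / 2 : ℕ) : ℝ) - 1 + 1 / 2) - -((P.h / 2 : ℕ) : ℝ) = 1 / 2 by ring]
      norm_num [abs_of_pos])
    (by
      rw [Int.cast_neg, Int.cast_natCast, sub_self]
      norm_num)
    (by
      have h2 := QP_dvd ha (l := 0) (by omega)
      rw [Int.cast_neg, Int.cast_natCast, neg_add_cancel]
      simpa using h2)
  have e1 : ∀ y : ℝ, ((-(((P.h / 2 - 1 : ℕ) : ℝ) + 1 / 2) : ℝ) : ℂ) + y * I =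
      pt (P.h / 2 - 1) y := by
    intro y; unfold pt; push_cast; ring
  simp_rw [e1] at h1
  have h1' : ∫ y : ℝ, (QP P).eval (pt (P.h / 2 - 1) y + Hh P) * K P.r (pt (P.h / 2 - 1) y) = _ :=
    h1
  rw [h1']
  -- the integrand on the symmetric line
  set Qr : ℝ → ℝ := fun y => ∏ j : Fin P.r, ∏ l ∈ Finset.range (P.h / 2 + P.g j - 1),
    (y ^ 2 + ((l : ℝ) + 1) ^ 2) with hQr
  set κ : ℂ := cst P * I ^ (P.r + 2) * ∏ j : Fin P.r, (-1 : ℂ) ^ (P.h / 2 + P.g j - 1) with hκ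
  have hκ0 : κ ≠ 0 := by
    apply mul_ne_zero (mul_ne_zero (cst_ne_zero P) (pow_ne_zero _ I_ne_zero))
    exact Finset.prod_ne_zero_iff.mpr fun j _ => pow_ne_zero _ (by norm_num)
  have e3 : ∀ y : ℝ, eval ((y : ℂ) * I) (∏ j : Fin P.r, FP (P.h / 2 + P.g j - 1)) =
      (∏ j : Fin P.r, (-1 : ℂ) ^ (P.h / 2 + P.g j - 1)) * (Qr y : ℂ) := by
    intro y
    rw [eval_prod, hQr]
    simp only
    rw [Complex.ofReal_prod, ← Finset.prod_mul_distrib]
    exact Finset.prod_congr rfl fun j _ => FP_eval_I _ y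
  have e2 : ∀ y : ℝ, (QP P).eval (((-((P.h / 2 : ℕ) : ℝ) : ℝ) : ℂ) + y * I + ((P.h / 2 : ℕ) : ℂ)) *
      K P.r (((-((P.h / 2 : ℕ) : ℝ) : ℝ) : ℂ) + y * I) =
      κ * (((y : ℂ) ^ (P.r + 2) * (Qr y : ℂ)) * K P.r (y * I)) := by
    intro y
    have h3 : (((-((P.h / 2 : ℕ) : ℝ) : ℝ) : ℂ) + y * I) = -(((P.h / 2 : ℕ) : ℕ) : ℂ) + y * I := by
      push_cast; ring
    rw [h3, K_neg_nat_add, show -(((P.h / 2 : ℕ) : ℕ) : ℂ) + y * I + ((P.h / 2 : ℕ) : ℂ) = y * I by
      ring, QP_eq ha]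
    simp only [eval_mul, eval_C, eval_pow, eval_X]
    rw [e3, hκ, mul_pow]
    ring
  simp_rw [e2]
  rw [integral_const_mul]
  apply mul_ne_zero hκ0
  -- growth of Qr
  obtain ⟨C0, N, hC0, hgr⟩ := poly_growth (∏ j : Fin P.r, FP (P.h / 2 + P.g j - 1)) 0
  have hQpos : ∀ y, 0 < Qr y := fun y => by
    simp only [hQr]
    positivity
  refine pos_int hr hodd (Q := Qr) (by fun_prop) hQpos (fun y => ?_) (C := C0) (N := N)
    (fun y => ?_)
  · simp only [hQr, neg_sq]
  · have h5 := hgr ((y : ℂ) * I) (by simp)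
    have h6 : ((y : ℂ) * I).im = y := by simp
    rw [h6] at h5
    refine le_trans (le_of_eq ?_) h5
    rw [e3, norm_mul, norm_prod]
    have h7 : ∏ j : Fin P.r, ‖(-1 : ℂ) ^ (P.h / 2 + P.g j - 1)‖ = 1 :=
      Finset.prod_eq_one fun j _ => by simp
    rw [h7, one_mul, Complex.norm_real, Real.norm_eq_abs, abs_of_pos (hQpos y)]

end ZG

end

section

namespace ZG
open ZetaSets
open Complex MeasureTheory Polynomial
open scoped Nat

/-! ### the functional `calL` -/

/-- `rho(t) = R(t) / (2 t + h)` -/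
noncomputable def rho (P : Par) (t : ℂ) : ℂ :=
  (NP P).eval (t + Hh P) / (DP P).eval (t + Hh P)

noncomputable def calL (P : Par) (B : ℂ[X]) : ℂ :=
  ∫ y : ℝ, B.eval (pt 0 y + Hh P) * rho P (pt 0 y) * K P.r (pt 0 y)

theorem rho_growth {P : Par} (hb : ∀ i, 1 ≤ P.b i) (B : ℂ[X]) : ∃ (C0 : ℝ) (N : ℕ), 0 ≤ C0 ∧
    ∀ z : ℂ, |z.re| ≤ 1 / 2 → ‖B.eval (z + Hh P) * rho P z‖ ≤ C0 * (1 + |z.im|) ^ N := by
  obtain ⟨C0, N, hC0, hgr⟩ := poly_growth (B * NP P) (1 / 2 + |((P.h / 2 : ℕ) : ℝ)|)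
  set c0 : ℝ := ∏ i : Fin P.s, ∏ _ ∈ Finset.range (P.h - 2 * P.b i + 1), (1 / 2 : ℝ) with hc0
  have hpos : 0 < c0 := by positivity
  refine ⟨C0 / c0, N, by positivity, fun z hz => ?_⟩
  unfold rho
  rw [mul_div_assoc', ← eval_mul, norm_div]
  have h1 := hgr (z + Hh P) (by
    have h2 : (z + Hh P).re = z.re + ((P.h / 2 : ℕ) : ℝ) := by
      unfold Hh
      simp only [add_re, natCast_re]
    rw [h2]
    refine (abs_add_le _ _).trans ?_
    linarith)
  have h3 : (z + Hh P).im = z.im := by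
    unfold Hh
    simp only [add_im, natCast_im, add_zero]
  rw [h3] at h1
  have h4 := DP_lower hb hz
  rw [← hc0] at h4
  calc ‖eval (z + Hh P) (B * NP P)‖ / ‖eval (z + Hh P) (DP P)‖
      ≤ (C0 * (1 + |z.im|) ^ N) / c0 := by gcongr
    _ = C0 / c0 * (1 + |z.im|) ^ N := by ring

theorem rho_cont {P : Par} (hb : ∀ i, 1 ≤ P.b i) (B : ℂ[X]) :
    Continuous fun y : ℝ => B.eval (pt 0 y + Hh P) * rho P (pt 0 y) := by
  unfold rho
  have h1 : Continuous fun y : ℝ => pt 0 y + Hh P := (pt_continuous 0).add continuous_const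
  refine ((Polynomial.continuous B).comp h1).mul
    (((Polynomial.continuous _).comp h1).div ((Polynomial.continuous _).comp h1) fun y => ?_)
  exact DP_ne_zero hb (by have := pt0_abs y; linarith)

theorem calL_integrable {P : Par} (hr : 3 ≤ P.r) (hb : ∀ i, 1 ≤ P.b i) (B : ℂ[X]) :
    Integrable fun y : ℝ => B.eval (pt 0 y + Hh P) * rho P (pt 0 y) * K P.r (pt 0 y) := by
  obtain ⟨C0, N, _, hgr⟩ := rho_growth hb B
  refine line_integrable hr 0 (rho_cont hb B) (C := C0) (N := N) fun y => ?_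
  have := hgr (pt 0 y) (pt0_abs y)
  rwa [pt0_im] at this

theorem calL_add {P : Par} (hr : 3 ≤ P.r) (hb : ∀ i, 1 ≤ P.b i) (A B : ℂ[X]) :
    calL P (A + B) = calL P A + calL P B := by
  unfold calL
  rw [← integral_add (calL_integrable hr hb A) (calL_integrable hr hb B)]
  congr 1
  ext y
  rw [eval_add]
  ring

theorem calL_C_mul (P : Par) (c : ℂ) (A : ℂ[X]) : calL P (C c * A) = c * calL P A := by
  unfold calL
  rw [← integral_const_mul]
  congr 1
  ext y
  rw [eval_mul, eval_C]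
  ring

theorem calL_sum {P : Par} (hr : 3 ≤ P.r) (hb : ∀ i, 1 ≤ P.b i) {ι : Type*} (s : Finset ι)
    (f : ι → ℂ[X]) : calL P (∑ i ∈ s, f i) = ∑ i ∈ s, calL P (f i) := by
  classical
  induction s using Finset.induction_on with
  | empty =>
    simp only [Finset.sum_empty]
    unfold calL
    simp
  | insert a s ha ih => rw [Finset.sum_insert ha, Finset.sum_insert ha, calL_add hr hb, ih]

/-- (N1) -/
theorem Lf_eqN {P : Par} (he : Even P.h) (i : ℕ) :
    Lf P i 0 = 2 * calL P (X * (X ^ 2 - C (Hh P ^ 2)) ^ i) := by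
  rw [← calL_C_mul]
  unfold Lf calL rho
  congr 1
  ext y
  rw [R_eq he]
  simp only [eval_mul, eval_C, eval_X, eval_pow, eval_sub]
  rw [← two_Hh he]
  ring

theorem calL_odd_powers {P : Par} (hr : 3 ≤ P.r) (hb : ∀ i, 1 ≤ P.b i) (he : Even P.h) {d0 : ℕ}
    (h0 : ∀ i < d0, Lf P i 0 = 0) (i : ℕ) (hi : i < d0) : calL P (X ^ (2 * i + 1)) = 0 := by
  have h1 : (X : ℂ[X]) ^ (2 * i + 1) = ∑ m ∈ Finset.range (i + 1),
      C ((Hh P ^ 2) ^ (i - m) * (i.choose m : ℂ)) * (X * (X ^ 2 - C (Hh P ^ 2)) ^ m) := by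
    have h2 : (X : ℂ[X]) ^ (2 * i + 1) = X * ((X ^ 2 - C (Hh P ^ 2)) + C (Hh P ^ 2)) ^ i := by
      rw [sub_add_cancel, pow_succ, pow_mul]
      ring
    rw [h2, add_pow, Finset.mul_sum]
    apply Finset.sum_congr rfl
    intro m _
    simp only [C_mul, C_pow]
    have h3 : (C ((i.choose m : ℂ)) : ℂ[X]) = (i.choose m : ℂ[X]) := by simp
    rw [h3]
    ring
  rw [h1, calL_sum hr hb]
  apply Finset.sum_eq_zero
  intro m hm
  rw [calL_C_mul]
  have h4 := h0 m (by have := Finset.mem_range.mp hm; omega)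
  rw [Lf_eqN he] at h4
  have h5 : calL P (X * (X ^ 2 - C (Hh P ^ 2)) ^ m) = 0 := by
    rcases mul_eq_zero.mp h4 with h | h
    · norm_num at h
    · exact h
  rw [h5, mul_zero]

/-- the zero of `Pp` times the numerator -/
theorem tele_zero (P : Par) : ∃ W : ℂ[X],
    Pp (cc P) 0 0 * NP P = (X - C (Hh P)) ^ P.r * W := by
  obtain ⟨W, hW⟩ := zero_dvd P
  refine ⟨C (cst P) * (∏ i : Fin P.r ⊕ Fin P.s, (X + C (cc P (Sum.inl i)))) * W, ?_⟩
  unfold Pp NP
  rw [pow_zero, mul_one, Fintype.prod_sum_type]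
  have h1 : ∏ j : Fin P.r, (X + C (cc P (Sum.inr j))) = ∏ j, (X - C (Hg P j)) := by
    apply Finset.prod_congr rfl
    intro j _
    unfold cc
    simp only [Sum.elim_inr, map_neg]
    ring
  rw [h1]
  linear_combination (C (cst P) * ∏ i : Fin P.r ⊕ Fin P.s, (X + C (cc P (Sum.inl i)))) * hW

/-- (N2) the telescoping combinations are killed. -/
theorem calL_tele {P : Par} (hr : 3 ≤ P.r) (hb : ∀ i, 1 ≤ P.b i) (he : Even P.h)
    (hb2 : ∀ i, 2 * P.b i ≤ P.h) (A : ℂ[X]) :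
    calL P (A.comp (X + 1) * Pm (cc P) 0 0 - A * Pp (cc P) 0 0) = 0 := by
  obtain ⟨W, hW⟩ := tele_zero P
  set T : ℂ → ℂ := fun t => (A * Pp (cc P) 0 0).eval (t + Hh P) * rho P t with hT
  set G0 : ℂ → ℂ := fun t => (A * W).eval (t + Hh P) / (DP P).eval (t + Hh P) with hG0
  have hTG : ∀ z : ℂ, |z.re - ((0 : ℤ) : ℝ)| ≤ 1 / 2 → T z = (z - ((0 : ℤ) : ℂ)) ^ P.r * G0 z := by
    intro z _
    simp only [hT, hG0, rho, Int.cast_zero, sub_zero]
    have h1 := congrArg (Polynomial.eval (z + Hh P)) hW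
    simp only [eval_mul, eval_pow, eval_sub, eval_X, eval_C, add_sub_cancel_right] at h1
    rw [eval_mul, eval_mul, mul_div_assoc', mul_div_assoc']
    congr 1
    linear_combination (A.eval (z + Hh P)) * h1
  have hdiff : DifferentiableOn ℂ G0 {z : ℂ | |z.re - ((0 : ℤ) : ℝ)| < 3 / 4} := by
    intro z hz
    apply DifferentiableAt.differentiableWithinAt
    have h1 : |z.re| < 3 / 4 := by simpa using hz
    have h2 := DP_ne_zero hb h1
    have h3 : DifferentiableAt ℂ (fun t : ℂ => t + Hh P) z := by fun_prop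
    simp only [hG0]
    refine DifferentiableAt.div ?_ ?_ h2
    · exact (Polynomial.differentiableAt _).comp z h3
    · exact (Polynomial.differentiableAt _).comp z h3
  obtain ⟨C0, N, _, hgr⟩ := rho_growth hb (A * Pp (cc P) 0 0)
  have hgr' : ∀ z : ℂ, |z.re - ((0 : ℤ) : ℝ)| ≤ 1 / 2 → ‖T z‖ ≤ C0 * (1 + |z.im|) ^ N := by
    intro z hz
    exact hgr z (by simpa using hz)
  have hx1 : |(-(1 / 2) : ℝ) - ((0 : ℤ) : ℝ)| ≤ 1 / 2 := by norm_num [abs_of_pos]
  have hx2 : |(1 / 2 : ℝ) - ((0 : ℤ) : ℝ)| ≤ 1 / 2 := by norm_num [abs_of_pos]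
  have hsh := shift hr 0 hx1 hx2 hdiff hTG hgr'
  have hi1 := shift_integrable hr 0 hx1 hdiff hTG hgr'
  have hi2 := shift_integrable hr 0 hx2 hdiff hTG hgr'
  have e1 : ∀ y : ℝ, ((-(1 / 2) : ℝ) : ℂ) + y * I = pt 0 y := by
    intro y; unfold pt; push_cast; ring
  have e2 : ∀ y : ℝ, ((1 / 2 : ℝ) : ℂ) + y * I = pt 0 y + 1 := by
    intro y; unfold pt; push_cast; ring
  simp_rw [e1, e2, K_add_one] at hsh hi1 hi2
  have key : ∀ y : ℝ, (A.comp (X + 1) * Pm (cc P) 0 0 - A * Pp (cc P) 0 0).eval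
      (pt 0 y + Hh P) * rho P (pt 0 y) * K P.r (pt 0 y) =
      T (pt 0 y + 1) * K P.r (pt 0 y) - T (pt 0 y) * K P.r (pt 0 y) := by
    intro y
    have hf := congrArg (Polynomial.eval (pt 0 y + Hh P)) (hfe P he hb2)
    simp only [eval_mul, eval_comp, eval_add, eval_X, eval_one] at hf
    have hd1 : (DP P).eval (pt 0 y + Hh P) ≠ 0 := DP_ne_zero hb (by have := pt0_abs y; linarith)
    have hd2 : (DP P).eval (pt 0 y + Hh P + 1) ≠ 0 := by
      have h1 := DP_ne_zero hb (t := pt 0 y + 1) (by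
        rw [add_re, pt0_re, one_re]
        norm_num [abs_of_pos])
      rwa [show pt 0 y + 1 + Hh P = pt 0 y + Hh P + 1 by ring] at h1
    simp only [hT, rho, eval_mul, eval_sub, eval_comp, eval_add, eval_X, eval_one]
    rw [show pt 0 y + 1 + Hh P = pt 0 y + Hh P + 1 by ring]
    have h3 : (Pp (cc P) 0 0).eval (pt 0 y + Hh P + 1) *
        ((NP P).eval (pt 0 y + Hh P + 1) / (DP P).eval (pt 0 y + Hh P + 1)) =
        (Pm (cc P) 0 0).eval (pt 0 y + Hh P) *
        ((NP P).eval (pt 0 y + Hh P) / (DP P).eval (pt 0 y + Hh P)) := by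
      rw [mul_div_assoc', mul_div_assoc', div_eq_div_iff hd2 hd1]
      linear_combination hf
    linear_combination (-(A.eval (pt 0 y + Hh P + 1)) * K P.r (pt 0 y)) * h3
  unfold calL
  simp_rw [key]
  rw [integral_sub hi2 hi1, ← hsh, sub_self]

/-- TASK G-NONVAN: one of the linear forms does not vanish. -/
theorem nonvan (P : Par) {a0 b0 : ℕ} (hP : Good P a0 b0) (d0 astar : ℕ)
    (hd0 : 2 * (d0 + 1) = 2 * P.r + P.s)
    (hastar : P.s * (P.h / 2) = (∑ j, (P.a j + 1 + P.g j)) + (∑ i, P.b i) + astar) :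
    ∃ i < d0, Lf P i 0 ≠ 0 := by
  by_contra hcon
  push Not at hcon
  have hr := hP.r3
  have he := hP.heven
  have hb0 : 1 ≤ b0 := by
    have := hP.alt ⟨0, by omega⟩
    omega
  have hb : ∀ i, 1 ≤ P.b i := fun i => hb0.trans (hP.b0le i)
  have hb2 := hP.b2
  obtain ⟨i0, hi0⟩ := hP.b0mem
  have hb0h : b0 ≤ P.h / 2 := by
    have := hb2 i0
    omega
  have ha : ∀ j, P.a j < P.h / 2 := fun j => by
    have := hP.alt j
    omega
  have hh : 0 < P.h / 2 := by omega
  -- the hypotheses of `tele`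
  have hq : Fintype.card ((Fin P.r ⊕ Fin P.s) ⊕ Fin P.r) + 0 = 2 * (d0 + 1) := by
    rw [Fintype.card_sum, Fintype.card_sum, Fintype.card_fin, Fintype.card_fin]
    omega
  have hk : ∑ i, cc P i - ((0 : ℕ) : ℂ) * 0 = astar := by
    have h1 : (P.s : ℂ) * Hh P = (∑ j, ((P.a j : ℂ) + 1 + P.g j)) + (∑ i, (P.b i : ℂ)) +
        astar := by
      unfold Hh
      exact_mod_cast hastar
    unfold cc Hg
    rw [Fintype.sum_sum_type, Fintype.sum_sum_type]
    push_cast
    simp only [Sum.elim_inl, Sum.elim_inr, Finset.sum_sub_distrib, Finset.sum_const,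
      Finset.card_univ, Fintype.card_fin, nsmul_eq_mul, Finset.sum_add_distrib,
      Finset.sum_neg_distrib] at h1 ⊢
    linear_combination h1
  have hdeg : (DP P).natDegree = (NP P).natDegree + 2 * (astar + d0) + 2 := by
    rw [DP_natDegree, NP_natDegree]
    have h1 : ∑ i, (P.h - 2 * P.b i + 1) + ∑ i, 2 * P.b i = P.s * (P.h + 1) := by
      rw [← Finset.sum_add_distrib]
      have h2 : ∀ i : Fin P.s, P.h - 2 * P.b i + 1 + 2 * P.b i = P.h + 1 := fun i => by
        have := hb2 i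
        omega
      simp [h2]
    have h3 : P.s * (P.h + 1) = 2 * (P.s * (P.h / 2)) + P.s := by
      have h4 : 2 * (P.h / 2) = P.h := Nat.two_mul_div_two_of_even he
      calc P.s * (P.h + 1) = P.s * (2 * (P.h / 2) + 1) := by rw [h4]
        _ = _ := by ring
    rw [Finset.sum_add_distrib, Finset.sum_add_distrib, Finset.sum_const, Finset.card_univ,
      Fintype.card_fin, smul_eq_mul, mul_one] at hastar
    rw [← Finset.mul_sum] at h1 ⊢
    rw [Finset.sum_add_distrib (f := fun j => P.g j)]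
    omega
  have hBQ : NP P * BP P = DP P * QP P := by
    unfold BP QP
    ring
  obtain ⟨A, w, hAw⟩ := tele (cc P) 0 0 d0 astar hq hk (NP P) (DP P) (NP_ne_zero P)
    (DP_monic P).ne_zero hdeg (hfe P he hb2) (BP P) (QP P)
    (BP_odd he hP.seven hP.rodd hb2) hBQ
  have h1 : calL P (BP P) = 0 := by
    rw [hAw, calL_add hr hb, calL_tele hr hb he hb2, zero_add, calL_sum hr hb]
    apply Finset.sum_eq_zero
    intro i hi
    rw [calL_C_mul, calL_odd_powers hr hb he hcon i (Finset.mem_range.mp hi), mul_zero]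
  have h2 : calL P (BP P) = ∫ y : ℝ, (QP P).eval (pt 0 y + Hh P) * K P.r (pt 0 y) := by
    unfold calL
    congr 1
    ext y
    congr 1
    have hd1 : (DP P).eval (pt 0 y + Hh P) ≠ 0 := DP_ne_zero hb (by have := pt0_abs y; linarith)
    have h3 := congrArg (Polynomial.eval (pt 0 y + Hh P)) hBQ
    rw [eval_mul, eval_mul] at h3
    unfold rho
    rw [mul_div_assoc', div_eq_iff hd1]
    linear_combination h3
  exact QP_int_ne hr hP.rodd ha hh (h2 ▸ h1)

end ZG

end
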