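import Pool.Agent.Work.MP_4f096c_nt.GMain
import Pool.Agent.Work.MP_4f096c_nt.GInteg2
import Pool.Agent.Work.MP_4f096c_nt.GLinForm3

/-!
Final assembly for the improved arithmetic (`Expo2`) and for `3 ≤ r`: small non-vanishing
linear forms with controlled denominators give an irrational number among the zeta values.
-/

namespace ZG

open Filter

/-- Structural assumptions on a family with `3 ≤ r`: `α0` and `β0` are the smallest parameters. -/
structure Fam.OkM3 (F : Fam) (α0 β0 : ℕ) : Prop where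
  rodd : Odd F.r
  r3 : 3 ≤ F.r
  seven : Even F.s
  ηeven : Even F.η
  α0le : ∀ j, α0 ≤ F.α j
  α0mem : ∃ j, F.α j = α0
  αβ : ∀ j, F.α j ≤ β0
  β0le : ∀ i, β0 ≤ F.β i
  β0mem : ∃ i, F.β i = β0
  β2 : ∀ i, 2 * F.β i ≤ F.η
  γη : ∀ j, F.γ j + F.α j ≤ F.η
  deg : ∑ j, 2 * (F.γ j + F.α j) < ∑ i, (F.η - 2 * F.β i)

lemma Fam.OkM3.good {F : Fam} {α0 β0 : ℕ} (h : F.OkM3 α0 β0) (n : ℕ) :
    Good (F.par n) (α0 * n) (β0 * n + 1) where
  rodd := h.rodd
  r3 := h.r3
  seven := h.seven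
  heven := by
    show Even (F.η * n + 2)
    exact (h.ηeven.mul_right n).add even_two
  a0le := fun j => Nat.mul_le_mul_right n (h.α0le j)
  a0mem := by
    obtain ⟨j, hj⟩ := h.α0mem
    exact ⟨j, by show F.α j * n = α0 * n; rw [hj]⟩
  alt := fun j => Nat.lt_succ_of_le (Nat.mul_le_mul_right n (h.αβ j))
  b0le := fun i => Nat.succ_le_succ (Nat.mul_le_mul_right n (h.β0le i))
  b0mem := by
    obtain ⟨i, hi⟩ := h.β0mem
    exact ⟨i, by show F.β i * n + 1 = β0 * n + 1; rw [hi]⟩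
  gle := fun j => by
    show F.γ j * n + F.α j * n ≤ F.η * n + 2
    have := Nat.mul_le_mul_right n (h.γη j)
    rw [add_mul] at this
    omega
  b2 := fun i => by
    show 2 * (F.β i * n + 1) ≤ F.η * n + 2
    have := Nat.mul_le_mul_right n (h.β2 i)
    linarith

lemma Fam.OkM3.degree {F : Fam} {α0 β0 : ℕ} (h : F.OkM3 α0 β0) {d n : ℕ} (hn : 2 * d + 3 ≤ n) :
    1 + 2 * d + (∑ j, 2 * ((F.par n).g j + (F.par n).a j)) + 2 ≤
      ∑ i, ((F.par n).h - 2 * (F.par n).b i + 1) := by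
  have e1 : ∑ j, 2 * ((F.par n).g j + (F.par n).a j) = (∑ j, 2 * (F.γ j + F.α j)) * n := by
    rw [Finset.sum_mul]
    refine Finset.sum_congr rfl fun j _ => ?_
    show 2 * (F.γ j * n + F.α j * n) = 2 * (F.γ j + F.α j) * n
    ring
  have e2 : (∑ i, (F.η - 2 * F.β i)) * n ≤ ∑ i, ((F.par n).h - 2 * (F.par n).b i + 1) := by
    rw [Finset.sum_mul]
    refine Finset.sum_le_sum fun i _ => ?_
    show (F.η - 2 * F.β i) * n ≤ (F.η * n + 2 - 2 * (F.β i * n + 1) + 1)
    rw [Nat.sub_mul]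
    have : 2 * (F.β i * n + 1) = 2 * F.β i * n + 2 := by ring
    omega
  have h3 := Nat.mul_le_mul_right n (Nat.succ_le_of_lt h.deg)
  rw [Nat.succ_mul] at h3
  have e1' : ∑ j : Fin (F.par n).r, 2 * ((F.par n).g j + (F.par n).a j) =
      (∑ j, 2 * (F.γ j + F.α j)) * n := e1
  rw [e1']
  omega

lemma Fam.OkM3.star {F : Fam} {α0 β0 : ℕ} (h : F.OkM3 α0 β0) {n : ℕ} (hn : 2 * F.r ≤ n) :
    ∃ astar : ℕ, (F.par n).s * ((F.par n).h / 2) =
      (∑ j, ((F.par n).a j + 1 + (F.par n).g j)) + (∑ i, (F.par n).b i) + astar := by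
  obtain ⟨m, hm⟩ := h.ηeven
  have e0 : (F.par n).h / 2 = m * n + 1 := by
    show (F.η * n + 2) / 2 = m * n + 1
    rw [hm]
    have : (m + m) * n + 2 = 2 * (m * n + 1) := by ring
    omega
  have e1 : (∑ j, ((F.par n).a j + 1 + (F.par n).g j)) =
      (∑ j, (F.γ j + F.α j)) * n + F.r := by
    show ∑ j : Fin F.r, (F.α j * n + 1 + F.γ j * n) = _
    rw [Finset.sum_add_distrib, Finset.sum_add_distrib, ← Finset.sum_mul, ← Finset.sum_mul,
      Finset.sum_add_distrib]
    simp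
    ring
  have e2 : (∑ i, (F.par n).b i) = (∑ i, F.β i) * n + F.s := by
    show ∑ j : Fin F.s, (F.β j * n + 1) = _
    rw [Finset.sum_add_distrib, ← Finset.sum_mul]
    simp
  have e3 : (∑ i, (F.η - 2 * F.β i)) + 2 * ∑ i, F.β i = F.s * F.η := by
    rw [Finset.mul_sum, ← Finset.sum_add_distrib]
    have : ∀ i ∈ (Finset.univ : Finset (Fin F.s)), F.η - 2 * F.β i + 2 * F.β i = F.η :=
      fun i _ => Nat.sub_add_cancel (h.β2 i)
    rw [Finset.sum_congr rfl this]
    simp
  have e4 : 2 * (∑ j, (F.γ j + F.α j)) + 1 ≤ ∑ i, (F.η - 2 * F.β i) := by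
    have := h.deg
    rw [← Finset.mul_sum] at this
    omega
  refine ⟨F.s * (m * n + 1) -
    ((∑ j, (F.γ j + F.α j)) * n + F.r + ((∑ i, F.β i) * n + F.s)), ?_⟩
  rw [e0, e1, e2]
  show F.s * (m * n + 1) = _
  have e5 : (∑ j, (F.γ j + F.α j)) * n + F.r + ((∑ i, F.β i) * n + F.s) ≤
      F.s * (m * n + 1) := by
    have h5 : 2 * ((∑ j, (F.γ j + F.α j)) + ∑ i, F.β i) + 1 ≤ F.s * (m + m) := by
      rw [← hm]
      omega
    have h6 := Nat.mul_le_mul_right n h5
    nlinarith
  omega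

theorem main2 (F : Fam) {α0 β0 : ℕ} (hF : F.OkM3 α0 β0) {C0 C2 : ℝ} (hC : C2 < C0)
    (hL : ∀ d, ∀ᶠ n : ℕ in atTop, ‖Lf (F.par n) d 0‖ ≤ Real.exp (-C0 * n)) (e : ℕ → ℕ → ℕ)
    (hE : ∀ᶠ n : ℕ in atTop, ∀ p, p.Prime → 2 * (F.par n).h < p * p → p ≤ (F.par n).h →
      Expo2 (F.par n) (α0 * n) (β0 * n + 1) p (e n p))
    (hsum : ∀ᶠ n : ℕ in atTop, ∑ p ∈ (Finset.range ((F.par n).h + 1)).filter
      (fun p => p.Prime ∧ 2 * (F.par n).h < p * p), (e n p : ℝ) * Real.log p ≤ C2 * n) :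
    ∃ i < F.s / 2 - 1, Irrational (Zv (2 * (i + 1) + F.r)) := by
  by_contra hcon
  push Not at hcon
  have hcon' : ∀ i < F.s / 2 - 1, ∃ x : ℚ, (x : ℝ) = Zv (2 * (i + 1) + F.r) := by
    intro i hi
    have := hcon i hi
    unfold Irrational at this
    push Not at this
    exact this
  choose! q hq using hcon'
  set Q : ℕ := ∏ i ∈ Finset.range (F.s / 2 - 1), (q i).den with hQ
  have hQpos : 0 < Q := Finset.prod_pos fun i _ => (q i).pos
  have hQq : ∀ i < F.s / 2 - 1, ∃ z : ℤ, (Q : ℚ) * q i = z := by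
    intro i hi
    have hdvd : (q i).den ∣ Q :=
      Finset.dvd_prod_of_mem (fun i => (q i).den) (Finset.mem_range.2 hi)
    obtain ⟨c, hc⟩ := hdvd
    refine ⟨c * (q i).num, ?_⟩
    rw [hc]
    push_cast
    have h1 : ((q i).den : ℚ) * q i = (q i).num := Rat.den_mul_eq_num (q i)
    calc ((q i).den : ℚ) * c * q i = c * ((q i).den * q i) := by ring
      _ = c * (q i).num := by rw [h1]
  -- number of forms
  obtain ⟨s2, hs2⟩ := hF.seven
  set d0 := F.r + s2 - 1 with hd0
  have hr3 := hF.r3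
  have hd0' : 2 * (d0 + 1) = 2 * F.r + F.s := by omega
  -- growth
  set δ : ℝ := C0 - C2 with hδ
  have hδ0 : 0 < δ := by rw [hδ]; linarith
  set c1 : ℝ := ((F.r : ℝ) + F.s) * (2 * (F.η + 2)) with hc1
  have hc1pos : 0 < c1 := by
    have : (0 : ℝ) < F.r := by
      have : 0 < F.r := by omega
      exact_mod_cast this
    positivity
  have hgrow : ∀ᶠ n : ℕ in atTop, (Real.sqrt (2 * (F.par n).h : ℕ) + 1) *
      Real.log (2 * (F.par n).h : ℕ) ≤ (δ / (2 * c1)) * (2 * (F.par n).h : ℕ) := by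
    have h1 := small_growth (ε := δ / (2 * c1)) (by positivity)
    have hη : 0 < F.η := by
      obtain ⟨m, hm⟩ := hF.ηeven
      by_contra h0
      have h0' : F.η = 0 := by omega
      have := hF.deg
      rw [h0'] at this
      simp at this
    have h2 : Tendsto (fun n : ℕ => ((2 * (F.par n).h : ℕ) : ℝ)) atTop atTop := by
      apply tendsto_natCast_atTop_atTop.comp
      apply tendsto_atTop_mono (f := fun n : ℕ => n) _ tendsto_id
      intro n
      show n ≤ 2 * (F.η * n + 2)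
      nlinarith
    exact h2.eventually h1
  have hd : ∀ d, ∀ᶠ n : ℕ in atTop, Lf (F.par n) d 0 = 0 := by
    intro d
    have hbig : ∀ᶠ n : ℕ in atTop, Real.log Q < δ / 2 * n := by
      have h1 : Tendsto (fun n : ℕ => δ / 2 * (n : ℝ)) atTop atTop :=
        Tendsto.const_mul_atTop (by positivity) tendsto_natCast_atTop_atTop
      exact h1.eventually_gt_atTop _
    filter_upwards [hL d, hE, hsum, hgrow, hbig, eventually_ge_atTop (2 * d + 3)] with
      n hLn hEn hsumn hgrown hbign hn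
    have hG := hF.good n
    have hlin := linform3 (F.par n) hG hF.r3 d (hF.degree hn)
    set E := EE (F.par n) (e n) with hEdef
    -- the integer
    have hint : ∃ z : ℤ, (Q : ℂ) * E * Lf (F.par n) d 0 = -2 * Real.pi * z := by
      have h1 : ∀ i < F.s / 2 - 1, ∃ z : ℤ, (Q : ℂ) * E *
          ((Bq (F.par n) (β0 * n + 1) d (2 * (i + 1)) : ℂ) *
            ∑' l : ℕ, 1 / ((l : ℂ) + 1) ^ (2 * (i + 1) + (F.par n).r)) = z := by
        intro i hi
        obtain ⟨z1, hz1⟩ := hQq i hi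
        obtain ⟨z2, hz2⟩ := EE_Bq_int2 (F.par n) hG (e n) hEn d (2 * (i + 1)) (by
          show 2 * (i + 1) < F.s
          omega)
        refine ⟨z1 * z2, ?_⟩
        have h2 := hq i hi
        have h3 : ∑' l : ℕ, 1 / ((l : ℂ) + 1) ^ (2 * (i + 1) + (F.par n).r) = ((q i : ℚ) : ℂ) := by
          rw [← Zv_cast]
          show ((Zv (2 * (i + 1) + F.r) : ℝ) : ℂ) = _
          rw [← h2]
          push_cast
          rfl
        rw [h3]
        have hz1' : (Q : ℂ) * (q i : ℂ) = z1 := by exact_mod_cast congrArg (fun x : ℚ => (x : ℂ)) hz1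
        have hz2' : (E : ℂ) * (Bq (F.par n) (β0 * n + 1) d (2 * (i + 1)) : ℂ) = z2 := by
          exact_mod_cast congrArg (fun x : ℚ => (x : ℂ)) hz2
        calc _ = ((Q : ℂ) * (q i : ℂ)) * ((E : ℂ) *
              (Bq (F.par n) (β0 * n + 1) d (2 * (i + 1)) : ℂ)) := by ring
          _ = _ := by rw [hz1', hz2']; push_cast; ring
      choose! z hz using h1
      obtain ⟨z0, hz0⟩ := EE_B0q_int2 (F.par n) hG (e n) hEn d
      have hz0' : (E : ℂ) * (B0q (F.par n) (α0 * n) (β0 * n + 1) d : ℂ) = z0 := by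
        exact_mod_cast congrArg (fun x : ℚ => (x : ℂ)) hz0
      refine ⟨(∑ i ∈ Finset.range (F.s / 2 - 1), z i) - Q * z0, ?_⟩
      rw [hlin]
      have h4 : (Q : ℂ) * E * (∑ i ∈ Finset.range ((F.par n).s / 2 - 1),
          (Bq (F.par n) (β0 * n + 1) d (2 * (i + 1)) : ℂ) *
            ∑' l : ℕ, 1 / ((l : ℂ) + 1) ^ (2 * (i + 1) + (F.par n).r)) =
          ∑ i ∈ Finset.range (F.s / 2 - 1), (z i : ℂ) := by
        rw [Finset.mul_sum]
        refine Finset.sum_congr rfl fun i hi => ?_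
        exact hz i (Finset.mem_range.1 hi)
      push_cast
      rw [← h4]
      linear_combination (2 * Real.pi * Q : ℂ) * hz0'
    obtain ⟨z, hz⟩ := hint
    have hEpos : (0 : ℝ) < E := by
      have : 0 < E := by
        rw [hEdef]
        unfold EE
        apply Finset.prod_pos
        intro p hp
        rw [Finset.mem_filter] at hp
        exact pow_pos hp.2.pos _
      exact_mod_cast this
    have hQpos' : (0 : ℝ) < Q := by exact_mod_cast hQpos
    -- size
    have hlogE : Real.log E ≤ δ / 2 * n + C2 * n + 0 := by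
      have h1 := log_EE_le (F.par n) (e n) (by show 1 ≤ F.η * n + 2; omega)
      have h2 : ((2 * (F.par n).h : ℕ) : ℝ) ≤ 2 * (F.η + 2) * n := by
        show ((2 * (F.η * n + 2) : ℕ) : ℝ) ≤ 2 * (F.η + 2) * n
        push_cast
        have : (1 : ℝ) ≤ n := by
          have : 1 ≤ n := by omega
          exact_mod_cast this
        nlinarith
      have h3 : (((F.par n).r : ℝ) + (F.par n).s) *
          ((Real.sqrt (2 * (F.par n).h : ℕ) + 1) * Real.log (2 * (F.par n).h : ℕ)) ≤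
          δ / 2 * n := by
        show ((F.r : ℝ) + F.s) * _ ≤ _
        have h5 : (Real.sqrt (2 * (F.par n).h : ℕ) + 1) * Real.log (2 * (F.par n).h : ℕ) ≤
            δ / (2 * c1) * (2 * (F.η + 2) * n) :=
          hgrown.trans (mul_le_mul_of_nonneg_left h2 (by positivity))
        calc _ ≤ ((F.r : ℝ) + F.s) * (δ / (2 * c1) * (2 * (F.η + 2) * n)) :=
              mul_le_mul_of_nonneg_left h5 (by positivity)
          _ = c1 * (δ / (2 * c1)) * n := by rw [hc1]; ring
          _ = δ / 2 * n := by field_simp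
      rw [hEdef]
      linarith
    have hnorm : ‖(Q : ℂ) * E * Lf (F.par n) d 0‖ < 1 := by
      rw [norm_mul, norm_mul, Complex.norm_natCast, Complex.norm_natCast]
      have h1 : (Q : ℝ) = Real.exp (Real.log Q) := (Real.exp_log hQpos').symm
      have h2 : (E : ℝ) = Real.exp (Real.log E) := (Real.exp_log hEpos).symm
      rw [h1, h2]
      calc _ ≤ Real.exp (Real.log Q) * Real.exp (Real.log E) * Real.exp (-C0 * n) :=
            mul_le_mul_of_nonneg_left hLn (by positivity)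
        _ = Real.exp (Real.log Q + Real.log E + -C0 * n) := by
            rw [← Real.exp_add, ← Real.exp_add]
        _ < 1 := by
            rw [Real.exp_lt_one_iff]
            have : δ * n = C0 * n - C2 * n := by rw [hδ]; ring
            linarith
    have hz0 : z = 0 := by
      by_contra hne
      have h1 : (1 : ℝ) ≤ |(z : ℝ)| := by
        have := Int.one_le_abs hne
        exact_mod_cast this
      rw [hz] at hnorm
      have h2 : ‖(-2 * Real.pi * z : ℂ)‖ = 2 * Real.pi * |(z : ℝ)| := by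
        rw [norm_mul, norm_mul, norm_neg, Complex.norm_real, Complex.norm_intCast,
          Real.norm_eq_abs, abs_of_pos Real.pi_pos]
        norm_num
      rw [h2] at hnorm
      nlinarith [Real.pi_gt_three]
    rw [hz0] at hz
    have h3 : (Q : ℂ) * E ≠ 0 := by
      apply mul_ne_zero
      · exact_mod_cast hQpos.ne'
      · exact_mod_cast hEpos.ne'
    have h4 : (Q : ℂ) * E * Lf (F.par n) d 0 = 0 := by simpa using hz
    exact (mul_eq_zero.1 h4).resolve_left h3
  have hall : ∀ᶠ n : ℕ in atTop, ∀ d ∈ Finset.range d0, Lf (F.par n) d 0 = 0 :=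
    (Filter.eventually_all_finset _).2 fun d _ => hd d
  obtain ⟨n, hn1, hn2⟩ := (hall.and (eventually_ge_atTop (2 * F.r))).exists
  obtain ⟨astar, hastar⟩ := hF.star hn2
  obtain ⟨i, hi, hne⟩ := nonvan (F.par n) (hF.good n) d0 astar hd0' hastar
  exact hne (hn1 i (Finset.mem_range.2 hi))

end ZG
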