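import Pool.Agent.Work.MP_4f096c_nt.Defs

/-!
Local power series, p-adic sizes and auxiliary lemmas.
-/

section

/-!
Local expansions at the poles, and classes of power series with bounded p-adic size.
-/

namespace ZetaSets

open PowerSeries
open scoped Nat

/-- Power series whose `m`-th coefficient has `p`-adic order at least `v - Λ m`. -/
def Cl (p Λ : ℕ) (v : ℤ) (f : ℚ⟦X⟧) : Prop :=
  ∀ m : ℕ, padicNorm p (coeff m f) ≤ (p : ℚ) ^ ((Λ : ℤ) * m - v)

section classes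

variable {p Λ : ℕ} [hp : Fact p.Prime]

omit hp in
private lemma ppos (hp : p.Prime) : (0 : ℚ) < p := by exact_mod_cast hp.pos

lemma Cl.mul {v w : ℤ} {f g : ℚ⟦X⟧} (hf : Cl p Λ v f) (hg : Cl p Λ w g) :
    Cl p Λ (v + w) (f * g) := by
  intro m
  have h0 := ppos hp.out
  rw [coeff_mul]
  apply padicNorm.sum_le' _ (by positivity)
  rintro ⟨i, j⟩ hij
  have hij' : i + j = m := by simpa using hij
  rw [padicNorm.mul]
  calc padicNorm p (coeff i f) * padicNorm p (coeff j g)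
      ≤ (p : ℚ) ^ ((Λ : ℤ) * i - v) * (p : ℚ) ^ ((Λ : ℤ) * j - w) :=
        mul_le_mul (hf i) (hg j) (padicNorm.nonneg _) (by positivity)
    _ = (p : ℚ) ^ ((Λ : ℤ) * m - (v + w)) := by
        rw [← zpow_add₀ h0.ne', ← hij']
        congr 1
        push_cast
        ring

lemma Cl.mono {v w : ℤ} {f : ℚ⟦X⟧} (hf : Cl p Λ v f) (h : w ≤ v) : Cl p Λ w f := by
  intro m
  refine (hf m).trans ?_
  apply zpow_le_zpow_right₀
  · exact_mod_cast hp.out.one_lt.le
  · linarith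

lemma Cl.one : Cl p Λ 0 (1 : ℚ⟦X⟧) := by
  intro m
  have h1 : (1 : ℚ) ≤ p := by exact_mod_cast hp.out.one_lt.le
  rw [coeff_one]
  split_ifs with h
  · subst h
    simp
  · simp only [padicNorm.zero]
    positivity

lemma Cl.prod {ι : Type*} (s : Finset ι) {v : ι → ℤ} {f : ι → ℚ⟦X⟧}
    (h : ∀ i ∈ s, Cl p Λ (v i) (f i)) : Cl p Λ (∑ i ∈ s, v i) (∏ i ∈ s, f i) := by
  classical
  induction s using Finset.induction_on with
  | empty => simpa using Cl.one
  | insert a s ha ih =>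
    rw [Finset.sum_insert ha, Finset.prod_insert ha]
    exact (h a (Finset.mem_insert_self _ _)).mul
      (ih fun i hi => h i (Finset.mem_insert_of_mem hi))

lemma Cl.pow {v : ℤ} {f : ℚ⟦X⟧} (h : Cl p Λ v f) (n : ℕ) : Cl p Λ (n * v) (f ^ n) := by
  have := Cl.prod (Finset.range n) (v := fun _ => v) (f := fun _ => f) (fun _ _ => h)
  simpa using this

/-- The factor `c + X`. -/
noncomputable def lin (c : ℤ) : ℚ⟦X⟧ := C (c : ℚ) + X

lemma coeff_lin (c : ℤ) (m : ℕ) :
    coeff m (lin c) = if m = 0 then (c : ℚ) else if m = 1 then 1 else 0 := by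
  rw [lin, map_add, coeff_C, coeff_X]
  rcases m with _ | _ | m
  · norm_num
  · norm_num
  · norm_num

lemma constantCoeff_lin (c : ℤ) : constantCoeff (lin c) = (c : ℚ) := by
  rw [← coeff_zero_eq_constantCoeff_apply, coeff_lin]
  simp

lemma norm_int {c : ℤ} (hc : c ≠ 0) :
    padicNorm p (c : ℚ) = (p : ℚ) ^ (-(padicValInt p c : ℤ)) := by
  rw [padicNorm.eq_zpow_of_nonzero (by exact_mod_cast hc), padicValRat.of_int]

lemma Cl_lin {c : ℤ} (hc : c ≠ 0) (h : padicValInt p c ≤ Λ) :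
    Cl p Λ (padicValInt p c) (lin c) := by
  intro m
  have h1 : (1 : ℚ) ≤ p := by exact_mod_cast hp.out.one_lt.le
  rw [coeff_lin]
  split_ifs with h0 h2
  · subst h0
    rw [norm_int hc]
    simp
  · subst h2
    rw [padicNorm.one]
    apply one_le_zpow₀ h1
    push_cast
    have : (padicValInt p c : ℤ) ≤ Λ := by exact_mod_cast h
    linarith
  · rw [padicNorm.zero]
    positivity

/-- Any integral factor is in the class of order `0`. -/
lemma Cl_lin_zero (c : ℤ) : Cl p Λ 0 (lin c) := by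
  intro m
  have h1 : (1 : ℚ) ≤ p := by exact_mod_cast hp.out.one_lt.le
  have h2 : (1 : ℚ) ≤ (p : ℚ) ^ ((Λ : ℤ) * m - 0) := by
    apply one_le_zpow₀ h1
    rw [sub_zero]
    positivity
  rw [coeff_lin]
  split_ifs with h0 h2'
  · exact (padicNorm.of_int c).trans h2
  · rw [padicNorm.one]; exact h2
  · rw [padicNorm.zero]; positivity

lemma lin_inv {c : ℤ} (hc : c ≠ 0) :
    (lin c)⁻¹ = mk fun m => (-1 : ℚ) ^ m / (c : ℚ) ^ (m + 1) := by
  have hc' : (c : ℚ) ≠ 0 := by exact_mod_cast hc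
  have h1 : lin c * (mk fun m => (-1 : ℚ) ^ m / (c : ℚ) ^ (m + 1)) = 1 := by
    ext m
    rw [lin, add_mul, map_add, coeff_C_mul]
    rcases m with _ | m
    · simp [hc']
    · rw [mul_comm X, coeff_succ_mul_X]
      simp only [coeff_mk, coeff_one, Nat.succ_ne_zero, if_false]
      field_simp
      ring
  have h2 : constantCoeff (lin c) ≠ 0 := by rw [constantCoeff_lin]; exact hc'
  calc (lin c)⁻¹ = (lin c)⁻¹ * (lin c * mk fun m => (-1 : ℚ) ^ m / (c : ℚ) ^ (m + 1)) := by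
        rw [h1, mul_one]
    _ = _ := by rw [← mul_assoc, PowerSeries.inv_mul_cancel _ h2, one_mul]

lemma Cl_lin_inv {c : ℤ} (hc : c ≠ 0) (h : padicValInt p c ≤ Λ) :
    Cl p Λ (-(padicValInt p c : ℤ)) ((lin c)⁻¹) := by
  intro m
  have h0 := ppos hp.out
  have h1 : (1 : ℚ) ≤ p := by exact_mod_cast hp.out.one_lt.le
  have hc' : (c : ℚ) ≠ 0 := by exact_mod_cast hc
  rw [lin_inv hc, coeff_mk, padicNorm.div]
  have e1 : padicNorm p ((-1 : ℚ) ^ m) = 1 := by
    rcases neg_one_pow_eq_or ℚ m with h | h <;> rw [h] <;> simp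
  have e2 : padicNorm p ((c : ℚ) ^ (m + 1)) =
      (p : ℚ) ^ (-((padicValInt p c : ℤ) * (m + 1))) := by
    have : ∀ n : ℕ, padicNorm p ((c : ℚ) ^ n) = (padicNorm p (c : ℚ)) ^ n := by
      intro n
      induction n with
      | zero => simp
      | succ n ih => rw [pow_succ, padicNorm.mul, ih, pow_succ]
    rw [this, norm_int hc, ← zpow_natCast, ← zpow_mul]
    congr 1
    push_cast
    ring
  rw [e1, e2, one_div, ← zpow_neg, neg_neg]
  apply zpow_le_zpow_right₀ h1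
  have : (padicValInt p c : ℤ) ≤ Λ := by exact_mod_cast h
  nlinarith

lemma Cl_X : Cl p Λ Λ (X : ℚ⟦X⟧) := by
  intro m
  have h1 : (1 : ℚ) ≤ p := by exact_mod_cast hp.out.one_lt.le
  rw [coeff_X]
  split_ifs with h
  · subst h
    simp
  · rw [padicNorm.zero]; positivity

lemma Cl_C {c : ℚ} {v : ℤ} (h : padicNorm p c ≤ (p : ℚ) ^ (-v)) : Cl p Λ v (C c) := by
  intro m
  have h1 : (1 : ℚ) ≤ p := by exact_mod_cast hp.out.one_lt.le
  rw [coeff_C]
  split_ifs with h0
  · subst h0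
    simpa using h
  · rw [padicNorm.zero]; positivity

lemma Cl_int (a : ℤ) : Cl p Λ 0 (C (a : ℚ) + 2 * X) := by
  intro m
  have h1 : (1 : ℚ) ≤ p := by exact_mod_cast hp.out.one_lt.le
  have h2 : (1 : ℚ) ≤ (p : ℚ) ^ ((Λ : ℤ) * m - 0) := by
    apply one_le_zpow₀ h1
    rw [sub_zero]
    positivity
  have h3 : (2 : ℚ⟦X⟧) = C (2 : ℚ) := (map_ofNat C 2).symm
  rw [h3, map_add, coeff_C, coeff_C_mul, coeff_X]
  have : ((if m = 0 then (a : ℚ) else 0) + 2 * (if m = 1 then 1 else 0)) =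
      (((if m = 0 then a else 0) + 2 * (if m = 1 then 1 else 0) : ℤ) : ℚ) := by
    push_cast
    split_ifs <;> simp
  rw [this]
  exact (padicNorm.of_int _).trans h2

end classes

section counting

lemma ediv_succ {q : ℤ} (hq : 0 < q) (y : ℤ) :
    (y + 1) / q = y / q + if q ∣ y + 1 then 1 else 0 := by
  have h1 := Int.emod_add_mul_ediv y q
  have h2 := Int.emod_add_mul_ediv (y + 1) q
  have h3 := Int.emod_nonneg y hq.ne'
  have h4 := Int.emod_lt_of_pos y hq
  have h5 := Int.emod_nonneg (y + 1) hq.ne'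
  have h6 := Int.emod_lt_of_pos (y + 1) hq
  split_ifs with h
  · have h7 : (y + 1) % q = 0 := Int.emod_eq_zero_of_dvd h
    have : q * ((y + 1) / q - y / q) = y % q + 1 := by rw [mul_sub]; linarith
    have h8 : 0 < q * ((y + 1) / q - y / q) := by rw [this]; linarith
    have h9 : q * ((y + 1) / q - y / q) ≤ q * 1 := by rw [this]; linarith
    have h10 : 0 < (y + 1) / q - y / q := (mul_pos_iff_of_pos_left hq).1 h8
    have h11 : (y + 1) / q - y / q ≤ 1 := le_of_mul_le_mul_left h9 hq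
    omega
  · have h7 : (y + 1) % q ≠ 0 := fun h' => h (Int.dvd_of_emod_eq_zero h')
    have h7' : 1 ≤ (y + 1) % q := by omega
    have : q * ((y + 1) / q - y / q) = y % q + 1 - (y + 1) % q := by rw [mul_sub]; linarith
    have h8 : q * ((y + 1) / q - y / q) < q * 1 := by rw [this]; linarith
    have h9 : q * (-1) < q * ((y + 1) / q - y / q) := by rw [this]; linarith
    have h10 : (y + 1) / q - y / q < 1 := lt_of_mul_lt_mul_left h8 hq.le
    have h11 : -1 < (y + 1) / q - y / q := lt_of_mul_lt_mul_left h9 hq.le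
    omega

lemma sum_dvd {q : ℤ} (hq : 0 < q) (x : ℤ) (n : ℕ) :
    (∑ l ∈ Finset.range n, if q ∣ x + l then (1 : ℤ) else 0) =
      (x + n - 1) / q - (x - 1) / q := by
  induction n with
  | zero => simp
  | succ n ih =>
    rw [Finset.sum_range_succ, ih]
    have := ediv_succ hq (x + n - 1)
    have e : x + (n : ℤ) - 1 + 1 = x + n := by ring
    rw [e] at this
    have e2 : x + ((n + 1 : ℕ) : ℤ) - 1 = x + n := by push_cast; ring
    rw [e2, this]
    ring

lemma neg_ediv_eq {q : ℤ} (hq : 0 < q) (y : ℤ) : (-y) / q = -((y - 1) / q) - 1 := by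
  have h1 := Int.emod_add_mul_ediv (y - 1) q
  have h3 := Int.emod_nonneg (y - 1) hq.ne'
  have h4 := Int.emod_lt_of_pos (y - 1) hq
  have : -y = (q - 1 - (y - 1) % q) + q * (-((y - 1) / q) - 1) := by
    have : q * (-((y - 1) / q) - 1) = -(q * ((y - 1) / q)) - q := by ring
    rw [this]; linarith
  rw [this, Int.add_mul_ediv_left _ _ hq.ne', Int.ediv_eq_zero_of_lt (by linarith) (by linarith)]
  ring

variable {p Λ : ℕ} [hp : Fact p.Prime]

lemma ord_le {c : ℤ} (hc : c ≠ 0) (h : |c| < (p : ℤ) ^ (Λ + 1)) : padicValInt p c ≤ Λ := by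
  by_contra hcon
  have h1 : Λ + 1 ≤ padicValInt p c := by omega
  have h2 : ((p : ℤ) ^ (Λ + 1)) ∣ c := (padicValInt_dvd_iff (Λ + 1) c).2 (Or.inr h1)
  have h3 : (p : ℤ) ^ (Λ + 1) ∣ |c| := (dvd_abs _ _).2 h2
  have h4 := Int.le_of_dvd (abs_pos.2 hc) h3
  omega

lemma ord_eq_sum {c : ℤ} (hc : c ≠ 0) (h : |c| < (p : ℤ) ^ (Λ + 1)) :
    (padicValInt p c : ℤ) =
      ∑ i ∈ Finset.Ico 1 (Λ + 1), if ((p : ℤ) ^ i) ∣ c then (1 : ℤ) else 0 := by
  have h1 := ord_le hc h
  have h2 : ∀ i, ((p : ℤ) ^ i ∣ c) ↔ i ≤ padicValInt p c := by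
    intro i
    rw [padicValInt_dvd_iff]
    constructor
    · rintro (h | h)
      · exact absurd h hc
      · exact h
    · exact fun h => Or.inr h
  rw [Finset.sum_ite]
  simp only [Finset.sum_const, nsmul_eq_mul, mul_one, Finset.sum_const_zero, add_zero]
  have h3 : (Finset.Ico 1 (Λ + 1)).filter (fun i => ((p : ℤ) ^ i) ∣ c) =
      Finset.Ico 1 (padicValInt p c + 1) := by
    ext i
    simp only [Finset.mem_filter, Finset.mem_Ico, h2]
    omega
  rw [h3]
  simp

lemma fact_norm {n : ℕ} (h : n < p ^ (Λ + 1)) :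
    padicNorm p ((n ! : ℕ) : ℚ) =
      (p : ℚ) ^ (-(∑ i ∈ Finset.Ico 1 (Λ + 1), (n : ℤ) / (p : ℤ) ^ i)) := by
  have h1 : padicValNat p n ! = ∑ i ∈ Finset.Ico 1 (Λ + 1), n / p ^ i := by
    apply padicValNat_factorial
    exact Nat.log_lt_of_lt_pow' (by omega) h
  rw [padicNorm.eq_zpow_of_nonzero (by exact_mod_cast n.factorial_ne_zero), padicValRat.of_nat,
    h1]
  push_cast
  rfl

end counting

end ZetaSets

end

section

/-!
Auxiliary lemmas on power series, polynomials and p-adic sizes.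
-/

namespace ZetaSets

open PowerSeries
open scoped Nat

/-- Inverse of a nonzero linear factor, `1` for the factor which vanishes. -/
noncomputable def inv' (c : ℤ) : ℚ⟦X⟧ := if c = 0 then 1 else (lin c)⁻¹

lemma coe_lin (c : ℚ) (k z : ℤ) (h : c - k = z) :
    (((Polynomial.X + Polynomial.C c).comp (Polynomial.X - Polynomial.C (k : ℚ)) :
      Polynomial ℚ) : ℚ⟦X⟧) = lin z := by
  rw [Polynomial.add_comp, Polynomial.X_comp, Polynomial.C_comp, lin, ← h]
  push_cast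
  rw [map_sub]
  ring

lemma constantCoeff_lin_ne {c : ℤ} (hc : c ≠ 0) : constantCoeff (lin c) ≠ 0 := by
  rw [constantCoeff_lin]
  exact_mod_cast hc

lemma inv'_mul (c : ℤ) : inv' c * lin c = if c = 0 then X else 1 := by
  unfold inv'
  split_ifs with h
  · subst h
    simp [lin]
  · exact PowerSeries.inv_mul_cancel _ (constantCoeff_lin_ne h)

lemma coe_prod (s : Finset ℕ) (f : ℕ → Polynomial ℚ) :
    ((∏ l ∈ s, f l : Polynomial ℚ) : ℚ⟦X⟧) = ∏ l ∈ s, (f l : ℚ⟦X⟧) :=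
  map_prod (Polynomial.coeToPowerSeries.ringHom (R := ℚ)) f s

lemma coe_prod' {ι : Type*} [Fintype ι] (f : ι → Polynomial ℚ) :
    ((∏ l, f l : Polynomial ℚ) : ℚ⟦X⟧) = ∏ l, (f l : ℚ⟦X⟧) :=
  map_prod (Polynomial.coeToPowerSeries.ringHom (R := ℚ)) f Finset.univ

lemma add_ediv_ge {q : ℤ} (hq : 0 < q) (x y : ℤ) : x / q + y / q ≤ (x + y) / q := by
  apply Int.le_ediv_of_mul_le hq
  have h1 := Int.ediv_mul_le x hq.ne'
  have h2 := Int.ediv_mul_le y hq.ne'
  nlinarith

lemma rat_int_of_norm {x : ℚ} (h : ∀ p : ℕ, p.Prime → padicNorm p x ≤ 1) : ∃ z : ℤ, x = z := by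
  by_contra hcon
  have hden : x.den ≠ 1 := fun h1 => hcon ⟨x.num, (Rat.den_eq_one_iff x).1 h1 |>.symm⟩
  obtain ⟨p, hp, hpd⟩ := Nat.exists_prime_and_dvd hden
  have : Fact p.Prime := ⟨hp⟩
  have hx0 : x ≠ 0 := by
    intro h0
    apply hcon
    exact ⟨0, by simp [h0]⟩
  have h1 := h p hp
  rw [padicNorm.eq_zpow_of_nonzero hx0] at h1
  have hp1 : (1 : ℚ) < p := by exact_mod_cast hp.one_lt
  have h2 : -padicValRat p x ≤ 0 := by
    by_contra h3
    push Not at h3
    exact absurd h1 (not_le.2 (one_lt_zpow₀ hp1 h3))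
  have h3 : 0 ≤ padicValRat p x := by linarith
  have h4 : padicValInt p x.num = 0 := by
    apply padicValInt.eq_zero_of_not_dvd
    intro h5
    have h6 : p ∣ x.num.natAbs := Int.natCast_dvd.1 h5
    have h7 := Nat.dvd_gcd h6 hpd
    rw [x.reduced] at h7
    exact hp.one_lt.ne' (Nat.dvd_one.1 h7)
  have h5 : 1 ≤ padicValNat p x.den := one_le_padicValNat_of_dvd x.den_nz hpd
  rw [padicValRat_def, h4] at h3
  omega

section

variable {p Λ : ℕ} [hp : Fact p.Prime]

lemma Cl_lin_prod (x : ℤ) (n : ℕ) (h : ∀ l < n, x + l ≠ 0 ∧ |x + l| < (p : ℤ) ^ (Λ + 1)) :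
    Cl p Λ (∑ i ∈ Finset.Ico 1 (Λ + 1), ((x + n - 1) / (p : ℤ) ^ i - (x - 1) / (p : ℤ) ^ i))
      (∏ l ∈ Finset.range n, lin (x + l)) := by
  have h1 : Cl p Λ (∑ l ∈ Finset.range n, (padicValInt p (x + l) : ℤ))
      (∏ l ∈ Finset.range n, lin (x + l)) := by
    apply Cl.prod
    intro l hl
    have h2 := h l (Finset.mem_range.1 hl)
    exact Cl_lin h2.1 (ord_le h2.1 h2.2)
  convert h1 using 1
  have h2 : ∑ l ∈ Finset.range n, (padicValInt p (x + l) : ℤ) = ∑ l ∈ Finset.range n,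
      ∑ i ∈ Finset.Ico 1 (Λ + 1), if ((p : ℤ) ^ i) ∣ x + l then (1 : ℤ) else 0 := by
    refine Finset.sum_congr rfl fun l hl => ?_
    have h3 := h l (Finset.mem_range.1 hl)
    exact ord_eq_sum h3.1 h3.2
  rw [h2, Finset.sum_comm]
  refine Finset.sum_congr rfl fun i _ => ?_
  rw [sum_dvd]
  have := hp.out.pos
  positivity

lemma norm_inv_pow_le {l n : ℕ} (hl0 : l ≠ 0) (hl : l < p ^ (Λ + 1)) :
    padicNorm p (1 / (l : ℚ) ^ n) ≤ (p : ℚ) ^ ((Λ : ℤ) * n) := by
  have hp1 : (1 : ℚ) ≤ p := by exact_mod_cast hp.out.one_lt.le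
  have e1 : ∀ n : ℕ, padicNorm p ((l : ℚ) ^ n) = padicNorm p (l : ℚ) ^ n := by
    intro n
    induction n with
    | zero => simp
    | succ n ih => rw [pow_succ, padicNorm.mul, ih, pow_succ]
  have hl' : ((l : ℤ)) ≠ 0 := by exact_mod_cast hl0
  have h1 : padicValInt p (l : ℤ) ≤ Λ := by
    apply ord_le hl'
    rw [abs_of_nonneg (by omega)]
    exact_mod_cast hl
  have h2 := norm_int (p := p) hl'
  rw [Int.cast_natCast] at h2
  rw [padicNorm.div, padicNorm.one, e1, h2, one_div, ← zpow_natCast, ← zpow_neg, ← zpow_mul]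
  apply zpow_le_zpow_right₀ hp1
  have h3 : (padicValInt p (l : ℤ) : ℤ) ≤ Λ := by exact_mod_cast h1
  have h4 : (padicValInt p (l : ℤ) : ℤ) * n ≤ Λ * n :=
    mul_le_mul_of_nonneg_right h3 (by positivity)
  linarith

end

lemma norm_nat_mul_le {p : ℕ} [Fact p.Prime] (n : ℕ) (x : ℚ) :
    padicNorm p ((n : ℚ) * x) ≤ padicNorm p x := by
  rw [padicNorm.mul]
  calc _ ≤ 1 * padicNorm p x :=
        mul_le_mul_of_nonneg_right (padicNorm.of_nat n) (padicNorm.nonneg _)
    _ = _ := one_mul _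

end ZetaSets

namespace ZetaSets

open Polynomial

lemma refl_lin (h : ℤ) (c c' : ℚ) (hc : c + c' = h) :
    (X + C c).comp (-C (h : ℚ) - X) = -(X + C c') := by
  rw [add_comp, X_comp, C_comp, ← hc, C_add]
  ring

end ZetaSets

end
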