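import Pool.Agent.Work.MP_4f096c_nt.Defs

/-!
Partial fractions of a rational function from its local expansions.
-/

namespace ZetaSets

open Polynomial

section algebra

lemma dvd_of_comp {G : ℚ[X]} {k : ℚ} {s : ℕ}
    (h : (PowerSeries.X : PowerSeries ℚ) ^ s ∣ ((G.comp (X - C k) : ℚ[X]) : PowerSeries ℚ)) :
    (X + C k) ^ s ∣ G := by
  have h1 : (X : ℚ[X]) ^ s ∣ G.comp (X - C k) := by
    rw [Polynomial.X_pow_dvd_iff]
    rw [PowerSeries.X_pow_dvd_iff] at h
    intro d hd
    have := h d hd
    rwa [Polynomial.coeff_coe] at this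
  obtain ⟨H, hH⟩ := h1
  refine ⟨H.comp (X + C k), ?_⟩
  have h2 : (G.comp (X - C k)).comp (X + C k) = G := by
    rw [comp_assoc]
    simp
  rw [← h2, hH, mul_comp, pow_comp, X_comp]

variable {S : Finset ℤ} {s : ℕ} {num den co : ℚ[X]} {f : ℤ → PowerSeries ℚ}

/-- The common denominator. -/
noncomputable def DD (S : Finset ℤ) (s : ℕ) : ℚ[X] := ∏ k ∈ S, (X + C (k : ℚ)) ^ s

/-- The sum of the principal parts times the common denominator. -/
noncomputable def PPn (S : Finset ℤ) (s : ℕ) (f : ℤ → PowerSeries ℚ) : ℚ[X] :=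
  ∑ k ∈ S, (∑ m ∈ Finset.range s, C (PowerSeries.coeff m (f k)) * (X + C (k : ℚ)) ^ m) *
    DD (S.erase k) s

lemma DD_comp (k : ℤ) : (DD S s).comp (X - C (k : ℚ)) =
    ∏ k' ∈ S, (X + C ((k' : ℚ) - k)) ^ s := by
  unfold DD
  rw [prod_comp]
  refine Finset.prod_congr rfl fun k' _ => ?_
  rw [pow_comp, add_comp, X_comp, C_comp, C_sub]
  ring

lemma DD_natDegree : (DD S s).natDegree = s * S.card := by
  unfold DD
  rw [natDegree_prod_of_monic]
  · simp only [natDegree_pow, natDegree_X_add_C, mul_one, Finset.sum_const, smul_eq_mul]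
    ring
  · intro i _
    exact (monic_X_add_C _).pow _

lemma DD_monic : (DD S s).Monic := monic_prod_of_monic _ _ fun _ _ => (monic_X_add_C _).pow _

lemma DD_erase {k : ℤ} (hk : k ∈ S) : (X + C (k : ℚ)) ^ s * DD (S.erase k) s = DD S s := by
  unfold DD
  exact Finset.mul_prod_erase S (fun k : ℤ => (X + C (k : ℚ)) ^ s) hk

lemma DD_dvd {G : ℚ[X]} (h : ∀ k ∈ S, (X + C (k : ℚ)) ^ s ∣ G) : DD S s ∣ G := by
  unfold DD
  apply Finset.prod_dvd_of_coprime _ h
  intro i _ j _ hij
  apply IsCoprime.pow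
  have := Polynomial.pairwise_coprime_X_sub_C (K := ℚ) (s := fun k : ℤ => -(k : ℚ))
    (by intro a b hab; simpa using hab) hij
  simpa using this

theorem PF_main (hden : den * co = DD S s)
    (hf : ∀ k ∈ S, f k * ((den.comp (X - C (k : ℚ)) : ℚ[X]) : PowerSeries ℚ) =
      PowerSeries.X ^ s * ((num.comp (X - C (k : ℚ)) : ℚ[X]) : PowerSeries ℚ))
    (hdeg : num.natDegree < den.natDegree) :
    co * num = PPn S s f := by
  have hD0 : DD S s ≠ 0 := DD_monic.ne_zero
  have hden0 : den ≠ 0 := fun h => hD0 (by rw [← hden, h, zero_mul])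
  have hco0 : co ≠ 0 := fun h => hD0 (by rw [← hden, h, mul_zero])
  rw [← sub_eq_zero]
  apply Polynomial.eq_zero_of_dvd_of_degree_lt (p := DD S s)
  · apply DD_dvd
    intro k hk
    apply dvd_of_comp
    -- the shifted cofactor
    set E : ℚ[X] := (DD (S.erase k) s).comp (X - C (k : ℚ)) with hE
    have e1 : (DD S s).comp (X - C (k : ℚ)) = X ^ s * E := by
      rw [← DD_erase hk, mul_comp, pow_comp, add_comp, X_comp, C_comp, sub_add_cancel]
    have e2 : (((co * num).comp (X - C (k : ℚ)) : ℚ[X]) : PowerSeries ℚ) =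
        f k * (E : PowerSeries ℚ) := by
      have hX : (PowerSeries.X : PowerSeries ℚ) ^ s ≠ 0 := pow_ne_zero _ PowerSeries.X_ne_zero
      apply mul_left_cancel₀ hX
      calc PowerSeries.X ^ s * (((co * num).comp (X - C (k : ℚ)) : ℚ[X]) : PowerSeries ℚ)
          = ((co.comp (X - C (k : ℚ)) : ℚ[X]) : PowerSeries ℚ) *
            (PowerSeries.X ^ s * ((num.comp (X - C (k : ℚ)) : ℚ[X]) : PowerSeries ℚ)) := by
            rw [mul_comp, Polynomial.coe_mul]; ring
        _ = ((co.comp (X - C (k : ℚ)) : ℚ[X]) : PowerSeries ℚ) *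
            (f k * ((den.comp (X - C (k : ℚ)) : ℚ[X]) : PowerSeries ℚ)) := by rw [hf k hk]
        _ = f k * (((DD S s).comp (X - C (k : ℚ)) : ℚ[X]) : PowerSeries ℚ) := by
            rw [← hden, mul_comp, Polynomial.coe_mul]; ring
        _ = PowerSeries.X ^ s * (f k * (E : PowerSeries ℚ)) := by
            rw [e1, Polynomial.coe_mul, Polynomial.coe_pow, Polynomial.coe_X]; ring
    have e3 : (PPn S s f).comp (X - C (k : ℚ)) =
        (PowerSeries.trunc s (f k)) * E + ∑ k' ∈ S.erase k,
          ((∑ m ∈ Finset.range s, C (PowerSeries.coeff m (f k')) * (X + C (k' : ℚ)) ^ m) *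
            DD (S.erase k') s).comp (X - C (k : ℚ)) := by
      unfold PPn
      rw [← Finset.add_sum_erase _ _ hk, add_comp, sum_comp]
      congr 1
      rw [mul_comp]
      congr 1
      rw [sum_comp]
      ext m
      rw [PowerSeries.coeff_trunc, finsetSum_coeff]
      have : ∀ b ∈ Finset.range s, ((C (PowerSeries.coeff b (f k)) *
          (X + C (k : ℚ)) ^ b).comp (X - C (k : ℚ))).coeff m =
          if m = b then PowerSeries.coeff b (f k) else 0 := by
        intro b _
        rw [mul_comp, C_comp, pow_comp, add_comp, X_comp, C_comp, sub_add_cancel, coeff_C_mul,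
          coeff_X_pow]
        split_ifs <;> simp
      rw [Finset.sum_congr rfl this, Finset.sum_ite_eq]
      simp
    rw [sub_comp, Polynomial.coe_sub, e2, e3, Polynomial.coe_add, Polynomial.coe_mul]
    have e4 : f k * (E : PowerSeries ℚ) - ((PowerSeries.trunc s (f k) : ℚ[X]) *
        (E : PowerSeries ℚ) + ((∑ k' ∈ S.erase k,
          ((∑ m ∈ Finset.range s, C (PowerSeries.coeff m (f k')) * (X + C (k' : ℚ)) ^ m) *
            DD (S.erase k') s).comp (X - C (k : ℚ)) : ℚ[X]) : PowerSeries ℚ)) =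
        (f k - (PowerSeries.trunc s (f k) : ℚ[X])) * (E : PowerSeries ℚ) - ((∑ k' ∈ S.erase k,
          ((∑ m ∈ Finset.range s, C (PowerSeries.coeff m (f k')) * (X + C (k' : ℚ)) ^ m) *
            DD (S.erase k') s).comp (X - C (k : ℚ)) : ℚ[X]) : PowerSeries ℚ) := by ring
    rw [e4]
    apply dvd_sub
    · apply Dvd.dvd.mul_right
      rw [PowerSeries.X_pow_dvd_iff]
      intro m hm
      rw [map_sub, Polynomial.coeff_coe, PowerSeries.coeff_trunc, if_pos hm, sub_self]
    · have h5 : X ^ s ∣ ∑ k' ∈ S.erase k,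
          ((∑ m ∈ Finset.range s, C (PowerSeries.coeff m (f k')) * (X + C (k' : ℚ)) ^ m) *
            DD (S.erase k') s).comp (X - C (k : ℚ)) := by
        apply Finset.dvd_sum
        intro k' hk'
        rw [mul_comp]
        apply Dvd.dvd.mul_left
        have hk2 : k ∈ S.erase k' := Finset.mem_erase.2 ⟨(Finset.ne_of_mem_erase hk').symm, hk⟩
        rw [← DD_erase hk2, mul_comp, pow_comp, add_comp, X_comp, C_comp, sub_add_cancel]
        exact dvd_mul_right _ _
      have h6 := map_dvd (Polynomial.coeToPowerSeries.ringHom (R := ℚ)) h5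
      rw [map_pow, Polynomial.coeToPowerSeries.ringHom_apply,
        Polynomial.coeToPowerSeries.ringHom_apply, Polynomial.coe_X] at h6
      exact h6
  · rw [degree_eq_natDegree hD0]
    have hb : ∀ {p : ℚ[X]}, p.natDegree < (DD S s).natDegree → p.degree < (DD S s).natDegree := by
      intro p hp
      by_cases h0 : p = 0
      · subst h0
        simp
      · rw [degree_eq_natDegree h0]
        exact_mod_cast hp
    apply lt_of_le_of_lt (degree_sub_le _ _)
    apply max_lt
    · apply hb
      have : (DD S s).natDegree = den.natDegree + co.natDegree := by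
        rw [← hden, natDegree_mul hden0 hco0]
      calc (co * num).natDegree ≤ co.natDegree + num.natDegree := natDegree_mul_le
        _ < (DD S s).natDegree := by rw [this]; omega
    · unfold PPn
      refine lt_of_le_of_lt (degree_sum_le _ _) ?_
      rw [Finset.sup_lt_iff (by exact WithBot.bot_lt_coe _)]
      intro k hk
      apply hb
      have h1 : 0 < s := by
        by_contra h0
        have h0' : s = 0 := by omega
        subst h0'
        have : (DD S 0).natDegree = den.natDegree + co.natDegree := by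
          rw [← hden, natDegree_mul hden0 hco0]
        rw [DD_natDegree] at this
        omega
      have h2 : (∑ m ∈ Finset.range s, C (PowerSeries.coeff m (f k)) *
          (X + C (k : ℚ)) ^ m).natDegree ≤ s - 1 := by
        apply natDegree_sum_le_of_forall_le
        intro m hm
        have hm' : m < s := Finset.mem_range.1 hm
        refine (natDegree_C_mul_le _ _).trans ?_
        rw [natDegree_pow, natDegree_X_add_C]
        omega
      calc _ ≤ _ := natDegree_mul_le
        _ ≤ (s - 1) + s * (S.card - 1) := by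
            rw [DD_natDegree, Finset.card_erase_of_mem hk]
            exact Nat.add_le_add_right h2 _
        _ < (DD S s).natDegree := by
            rw [DD_natDegree]
            have hc : 1 ≤ S.card := Finset.card_pos.2 ⟨k, hk⟩
            obtain ⟨c, hc'⟩ := Nat.exists_eq_add_of_le hc
            rw [hc']
            rw [Nat.add_sub_cancel_left, mul_add, mul_one]
            omega

/-- The value of the sum of the principal parts. -/
noncomputable def PV (S : Finset ℤ) (s : ℕ) (f : ℤ → PowerSeries ℚ) (t : ℂ) : ℂ :=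
  ∑ k ∈ S, ∑ j ∈ Finset.range s, ((PowerSeries.coeff (s - 1 - j) (f k) : ℚ) : ℂ) / (t + k) ^ (j + 1)

lemma aeval_DD (t : ℂ) : aeval t (DD S s) = ∏ k ∈ S, (t + k) ^ s := by
  unfold DD
  rw [map_prod]
  refine Finset.prod_congr rfl fun k _ => ?_
  simp

lemma aeval_den_ne_zero (hden : den * co = DD S s) {t : ℂ} (ht : ∀ k ∈ S, t + k ≠ 0) :
    aeval t den ≠ 0 := by
  intro h
  have h1 : aeval t (DD S s) = 0 := by rw [← hden, map_mul, h, zero_mul]
  rw [aeval_DD, Finset.prod_eq_zero_iff] at h1
  obtain ⟨k, hk, h2⟩ := h1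
  exact ht k hk (eq_zero_of_pow_eq_zero h2)

theorem PF_eval (hden : den * co = DD S s)
    (hf : ∀ k ∈ S, f k * ((den.comp (X - C (k : ℚ)) : ℚ[X]) : PowerSeries ℚ) =
      PowerSeries.X ^ s * ((num.comp (X - C (k : ℚ)) : ℚ[X]) : PowerSeries ℚ))
    (hdeg : num.natDegree < den.natDegree) {t : ℂ} (ht : ∀ k ∈ S, t + k ≠ 0) :
    aeval t num / aeval t den = PV S s f t := by
  have h1 := aeval_den_ne_zero hden ht
  have h2 : aeval t (DD S s) ≠ 0 := by
    rw [aeval_DD, Finset.prod_ne_zero_iff]
    exact fun k hk => pow_ne_zero _ (ht k hk)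
  have h3 : aeval t co ≠ 0 := by
    intro h
    apply h2
    rw [← hden, map_mul, h, mul_zero]
  have h4 : aeval t num / aeval t den = aeval t (PPn S s f) / aeval t (DD S s) := by
    rw [← PF_main hden hf hdeg, ← hden, map_mul, map_mul]
    field_simp
  rw [h4]
  unfold PPn PV
  rw [map_sum, Finset.sum_div]
  refine Finset.sum_congr rfl fun k hk => ?_
  rw [← DD_erase hk, map_mul, map_mul]
  have h5 : aeval t (DD (S.erase k) s) ≠ 0 := by
    rw [aeval_DD, Finset.prod_ne_zero_iff]
    exact fun k hk => pow_ne_zero _ (ht k (Finset.mem_of_mem_erase hk))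
  have h6 := ht k hk
  have e1 : aeval t ((X + C (k : ℚ)) ^ s : ℚ[X]) = (t + k) ^ s := by simp
  rw [mul_div_mul_right _ _ h5, e1, map_sum, Finset.sum_div, ← Finset.sum_range_reflect]
  refine Finset.sum_congr rfl fun j hj => ?_
  have hj' : j < s := Finset.mem_range.1 hj
  rw [map_mul, map_pow, map_add, aeval_X, aeval_C, aeval_C, div_eq_div_iff (pow_ne_zero _ h6)
    (pow_ne_zero _ h6)]
  have e2 : s = (s - 1 - j) + (j + 1) := by omega
  have e3 : (t + k) ^ s = (t + k) ^ (s - 1 - j) * (t + k) ^ (j + 1) := by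
    rw [← pow_add, ← e2]
  rw [e3]
  simp
  ring

theorem PF_res (hden : den * co = DD S s)
    (hf : ∀ k ∈ S, f k * ((den.comp (X - C (k : ℚ)) : ℚ[X]) : PowerSeries ℚ) =
      PowerSeries.X ^ s * ((num.comp (X - C (k : ℚ)) : ℚ[X]) : PowerSeries ℚ))
    (hdeg : num.natDegree + 2 ≤ den.natDegree) :
    ∑ k ∈ S, PowerSeries.coeff (s - 1) (f k) = 0 := by
  have hD0 : DD S s ≠ 0 := DD_monic.ne_zero
  have hden0 : den ≠ 0 := fun h => hD0 (by rw [← hden, h, zero_mul])
  have hco0 : co ≠ 0 := fun h => hD0 (by rw [← hden, h, mul_zero])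
  have h0 := PF_main hden hf (by omega)
  have hd : s * S.card = den.natDegree + co.natDegree := by
    rw [← DD_natDegree, ← hden, natDegree_mul hden0 hco0]
  have hs : 0 < s := by
    by_contra h0
    have h0' : s = 0 := by omega
    rw [h0'] at hd
    omega
  have h1 : (co * num).coeff (s * S.card - 1) = 0 := by
    apply coeff_eq_zero_of_natDegree_lt
    calc (co * num).natDegree ≤ co.natDegree + num.natDegree := natDegree_mul_le
      _ < s * S.card - 1 := by omega
  rw [h0, PPn, finsetSum_coeff] at h1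
  rw [← h1]
  refine Finset.sum_congr rfl fun k hk => ?_
  have hc : 1 ≤ S.card := Finset.card_pos.2 ⟨k, hk⟩
  have hcard : s * (S.card - 1) + s = s * S.card := by
    obtain ⟨c, hc'⟩ := Nat.exists_eq_add_of_le hc
    rw [hc', Nat.add_sub_cancel_left]
    ring
  have hQ : ∀ m, ((X + C (k : ℚ)) ^ m * DD (S.erase k) s).Monic := fun m =>
    ((monic_X_add_C _).pow _).mul DD_monic
  have hQd : ∀ m, ((X + C (k : ℚ)) ^ m * DD (S.erase k) s).natDegree = m + s * (S.card - 1) := by
    intro m
    rw [((monic_X_add_C (k : ℚ)).pow m).natDegree_mul DD_monic, natDegree_pow, natDegree_X_add_C,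
      DD_natDegree, Finset.card_erase_of_mem hk, mul_one]
  rw [Finset.sum_mul, finsetSum_coeff, Finset.sum_eq_single (s - 1)]
  · rw [mul_assoc, coeff_C_mul]
    have := (hQ (s - 1)).coeff_natDegree
    rw [hQd] at this
    have e : s - 1 + s * (S.card - 1) = s * S.card - 1 := by omega
    rw [e] at this
    rw [this, mul_one]
  · intro m hm hne
    have hm' : m < s := Finset.mem_range.1 hm
    rw [mul_assoc, coeff_C_mul]
    have : ((X + C (k : ℚ)) ^ m * DD (S.erase k) s).coeff (s * S.card - 1) = 0 := by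
      apply coeff_eq_zero_of_natDegree_lt
      rw [hQd]
      omega
    rw [this, mul_zero]
  · intro h
    exact absurd (Finset.mem_range.2 (by omega)) h

lemma rescale_neg_coe (p : ℚ[X]) :
    PowerSeries.rescale (-1 : ℚ) (p : PowerSeries ℚ) = ((p.comp (-X) : ℚ[X]) : PowerSeries ℚ) := by
  ext m
  rw [PowerSeries.coeff_rescale, Polynomial.coeff_coe, Polynomial.coeff_coe]
  have : (-X : ℚ[X]) = C (-1) * X := by simp
  rw [this, comp_C_mul_X_coeff]
  ring

theorem PF_symm (h : ℤ) (hs : Even s) (hden : den * co = DD S s)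
    (hf : ∀ k ∈ S, f k * ((den.comp (X - C (k : ℚ)) : ℚ[X]) : PowerSeries ℚ) =
      PowerSeries.X ^ s * ((num.comp (X - C (k : ℚ)) : ℚ[X]) : PowerSeries ℚ))
    (hnum : num.comp (-C (h : ℚ) - X) = -num) (hden' : den.comp (-C (h : ℚ) - X) = den)
    (k : ℤ) (hk : k ∈ S) (hk' : h - k ∈ S) (m : ℕ) :
    (-1) ^ m * PowerSeries.coeff m (f (h - k)) = -PowerSeries.coeff m (f k) := by
  have hD0 : DD S s ≠ 0 := DD_monic.ne_zero
  have hden0 : den ≠ 0 := fun h => hD0 (by rw [← hden, h, zero_mul])
  have key : ∀ p : ℚ[X], (p.comp (X - C ((h - k : ℤ) : ℚ))).comp (-X) =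
      (p.comp (-C (h : ℚ) - X)).comp (X - C (k : ℚ)) := by
    intro p
    rw [comp_assoc, comp_assoc]
    congr 1
    simp only [sub_comp, X_comp, C_comp, neg_comp, Int.cast_sub, C_sub]
    ring
  have h1 := congrArg (PowerSeries.rescale (-1 : ℚ)) (hf (h - k) hk')
  rw [map_mul, map_mul, rescale_neg_coe, rescale_neg_coe, key, key, hnum, hden', map_pow,
    PowerSeries.rescale_X] at h1
  have h2 : (PowerSeries.C (-1 : ℚ) * PowerSeries.X) ^ s = (PowerSeries.X : PowerSeries ℚ) ^ s := by
    rw [map_neg, map_one, neg_one_mul, hs.neg_pow]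
  rw [h2, neg_comp, Polynomial.coe_neg, mul_neg, ← hf k hk, ← neg_mul] at h1
  have h3 : ((den.comp (X - C (k : ℚ)) : ℚ[X]) : PowerSeries ℚ) ≠ 0 := by
    intro h4
    have h5 : den.comp (X - C (k : ℚ)) = 0 := by
      apply Polynomial.coe_injective
      simpa using h4
    apply hden0
    have h6 : (den.comp (X - C (k : ℚ))).comp (X + C (k : ℚ)) = den := by
      rw [comp_assoc]
      simp
    rw [← h6, h5, zero_comp]
  have h4 := mul_right_cancel₀ h3 h1
  have h5 := congrArg (PowerSeries.coeff m) h4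
  rw [PowerSeries.coeff_rescale, map_neg] at h5
  exact h5

end algebra

end ZetaSets
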