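import Pool.Agent.Work.MP_4f096c_nt.Defs
import Pool.Agent.Work.MP_4f096c_nt.Local
import Pool.Agent.Work.MP_4f096c_nt.PF

/-!
The rational function: local expansions, partial fractions, coefficients of the forms, sizes.
-/

section

/-!
The local expansions of the rational function at its poles.
-/

namespace ZG

open ZetaSets (lin coe_lin constantCoeff_lin_ne inv' inv'_mul coe_prod coe_prod')
open PowerSeries
open scoped Nat

noncomputable def fnum (P : Par) (j : Fin P.r) (k : ℤ) : ℚ⟦X⟧ :=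
  (∏ l ∈ Finset.range (P.g j + P.a j), lin ((l : ℤ) + 1 - P.g j - k)) *
    (∏ l ∈ Finset.range (P.g j + P.a j), lin ((P.h : ℤ) + P.g j - (l + 1) - k)) *
      C (1 / ((P.g j + P.a j)! : ℚ) ^ 2)

noncomputable def fden (P : Par) (i : Fin P.s) (k : ℤ) : ℚ⟦X⟧ :=
  C (((P.h - 2 * P.b i)! : ℕ) : ℚ) *
    (∏ l ∈ Finset.range (P.h - 2 * P.b i + 1), inv' ((P.b i : ℤ) + l - k)) *
    (if (P.b i : ℤ) ≤ k ∧ k ≤ P.h - P.b i then 1 else X)

/-- The expansion of `(t+k)^s (t(t+h))^d R(t)` at `t = -k`. -/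
noncomputable def fser (P : Par) (d : ℕ) (k : ℤ) : ℚ⟦X⟧ :=
  (C (((P.h : ℤ) - 2 * k : ℤ) : ℚ) + 2 * X) * (lin (-k) * lin ((P.h : ℤ) - k)) ^ d *
    (∏ j, fnum P j k) * ∏ i, fden P i k

/-- The numerator. -/
noncomputable def numP (P : Par) (d : ℕ) : Polynomial ℚ :=
  (2 * Polynomial.X + Polynomial.C (P.h : ℚ)) *
    (Polynomial.X * (Polynomial.X + Polynomial.C (P.h : ℚ))) ^ d *
    (∏ j, ((∏ l ∈ Finset.range (P.g j + P.a j),
        (Polynomial.X + Polynomial.C ((l : ℚ) + 1 - P.g j))) *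
      (∏ l ∈ Finset.range (P.g j + P.a j),
        (Polynomial.X + Polynomial.C ((P.h : ℚ) + P.g j - (l + 1)))) *
        Polynomial.C (1 / ((P.g j + P.a j)! : ℚ) ^ 2))) *
    ∏ i, Polynomial.C (((P.h - 2 * P.b i)! : ℕ) : ℚ)

/-- The denominator. -/
noncomputable def denP (P : Par) : Polynomial ℚ :=
  ∏ i, ∏ l ∈ Finset.range (P.h - 2 * P.b i + 1), (Polynomial.X + Polynomial.C ((P.b i : ℚ) + l))

/-- The block of denominator number `i`, shifted to `-k`. -/
lemma fden_mul (P : Par) (i : Fin P.s) (hb : 2 * P.b i ≤ P.h) (k : ℤ) :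
    fden P i k * (∏ l ∈ Finset.range (P.h - 2 * P.b i + 1), lin ((P.b i : ℤ) + l - k)) =
      X * C (((P.h - 2 * P.b i)! : ℕ) : ℚ) := by
  have h1 : (∏ l ∈ Finset.range (P.h - 2 * P.b i + 1), inv' ((P.b i : ℤ) + l - k)) *
      (∏ l ∈ Finset.range (P.h - 2 * P.b i + 1), lin ((P.b i : ℤ) + l - k)) =
      if (P.b i : ℤ) ≤ k ∧ k ≤ P.h - P.b i then X else 1 := by
    rw [← Finset.prod_mul_distrib]
    simp only [inv'_mul]
    split_ifs with h
    · have hmem : (k - P.b i).toNat ∈ Finset.range (P.h - 2 * P.b i + 1) := by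
        rw [Finset.mem_range]
        omega
      rw [Finset.prod_eq_single_of_mem _ hmem]
      · rw [if_pos (by omega)]
      · intro l _ hl
        rw [if_neg (by omega)]
    · apply Finset.prod_eq_one
      intro l hl
      have := Finset.mem_range.1 hl
      rw [if_neg (by omega)]
  unfold fden
  calc _ = C (((P.h - 2 * P.b i)! : ℕ) : ℚ) *
        ((∏ l ∈ Finset.range (P.h - 2 * P.b i + 1), inv' ((P.b i : ℤ) + l - k)) *
      (∏ l ∈ Finset.range (P.h - 2 * P.b i + 1), lin ((P.b i : ℤ) + l - k))) *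
        (if (P.b i : ℤ) ≤ k ∧ k ≤ P.h - P.b i then 1 else X) := by ring
    _ = _ := by
      rw [h1]
      split_ifs <;> ring

lemma denP_comp (P : Par) (k : ℤ) :
    (((denP P).comp (Polynomial.X - Polynomial.C (k : ℚ)) : Polynomial ℚ) : ℚ⟦X⟧) =
      ∏ i, ∏ l ∈ Finset.range (P.h - 2 * P.b i + 1), lin ((P.b i : ℤ) + l - k) := by
  unfold denP
  rw [Polynomial.prod_comp, coe_prod']
  refine Finset.prod_congr rfl fun i _ => ?_
  rw [Polynomial.prod_comp, coe_prod]
  refine Finset.prod_congr rfl fun l _ => ?_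
  apply coe_lin
  push_cast
  ring

lemma numP_comp (P : Par) (d : ℕ) (k : ℤ) :
    (((numP P d).comp (Polynomial.X - Polynomial.C (k : ℚ)) : Polynomial ℚ) : ℚ⟦X⟧) =
      (C (((P.h : ℤ) - 2 * k : ℤ) : ℚ) + 2 * X) * (lin (-k) * lin ((P.h : ℤ) - k)) ^ d *
    (∏ j, fnum P j k) * ∏ i : Fin P.s, C (((P.h - 2 * P.b i)! : ℕ) : ℚ) := by
  have e1 : (((2 * Polynomial.X + Polynomial.C (P.h : ℚ)).comp
      (Polynomial.X - Polynomial.C (k : ℚ)) : Polynomial ℚ) : ℚ⟦X⟧) =
      C (((P.h : ℤ) - 2 * k : ℤ) : ℚ) + 2 * X := by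
    have h2 : (2 : Polynomial ℚ) = Polynomial.C 2 := (map_ofNat Polynomial.C 2).symm
    have h3 : (2 : ℚ⟦X⟧) = C (2 : ℚ) := (map_ofNat C 2).symm
    rw [Polynomial.add_comp, Polynomial.mul_comp, Polynomial.X_comp, Polynomial.C_comp, h2,
      Polynomial.C_comp, h3]
    push_cast
    rw [map_sub, map_mul]
    ring
  have e2 : (((Polynomial.X * (Polynomial.X + Polynomial.C (P.h : ℚ))).comp
      (Polynomial.X - Polynomial.C (k : ℚ)) : Polynomial ℚ) : ℚ⟦X⟧) =
      lin (-k) * lin ((P.h : ℤ) - k) := by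
    rw [Polynomial.mul_comp, Polynomial.coe_mul, coe_lin (P.h : ℚ) k ((P.h : ℤ) - k)
      (by push_cast; ring)]
    congr 1
    rw [Polynomial.X_comp, lin]
    push_cast
    rw [map_neg]
    ring
  have e3 : ∀ j : Fin P.r, ((((∏ l ∈ Finset.range (P.g j + P.a j),
      (Polynomial.X + Polynomial.C ((l : ℚ) + 1 - P.g j))) *
      (∏ l ∈ Finset.range (P.g j + P.a j),
        (Polynomial.X + Polynomial.C ((P.h : ℚ) + P.g j - (l + 1)))) *
        Polynomial.C (1 / ((P.g j + P.a j)! : ℚ) ^ 2)).comp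
      (Polynomial.X - Polynomial.C (k : ℚ)) : Polynomial ℚ) : ℚ⟦X⟧) = fnum P j k := by
    intro j
    unfold fnum
    rw [Polynomial.mul_comp, Polynomial.mul_comp, Polynomial.coe_mul, Polynomial.coe_mul,
      Polynomial.prod_comp, Polynomial.prod_comp, coe_prod, coe_prod, Polynomial.C_comp,
      Polynomial.coe_C]
    congr 2
    · refine Finset.prod_congr rfl fun l _ => ?_
      apply coe_lin
      push_cast
      ring
    · refine Finset.prod_congr rfl fun l _ => ?_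
      apply coe_lin
      push_cast
      ring
  unfold numP
  rw [Polynomial.mul_comp, Polynomial.mul_comp, Polynomial.mul_comp, Polynomial.coe_mul,
    Polynomial.coe_mul, Polynomial.coe_mul, e1, Polynomial.pow_comp, Polynomial.coe_pow, e2,
    Polynomial.prod_comp, coe_prod', Polynomial.prod_comp, coe_prod']
  congr 1
  · congr 1
    exact Finset.prod_congr rfl fun j _ => e3 j
  · refine Finset.prod_congr rfl fun i _ => ?_
    rw [Polynomial.C_comp, Polynomial.coe_C]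

theorem fser_mul (P : Par) (hb : ∀ i, 2 * P.b i ≤ P.h) (d : ℕ) (k : ℤ) :
    fser P d k * (((denP P).comp (Polynomial.X - Polynomial.C (k : ℚ)) : Polynomial ℚ) : ℚ⟦X⟧) =
      X ^ P.s * (((numP P d).comp (Polynomial.X - Polynomial.C (k : ℚ)) : Polynomial ℚ) :
        ℚ⟦X⟧) := by
  rw [denP_comp, numP_comp]
  unfold fser
  have h1 : (∏ i, fden P i k) *
      (∏ i, ∏ l ∈ Finset.range (P.h - 2 * P.b i + 1), lin ((P.b i : ℤ) + l - k)) =
      X ^ P.s * ∏ i : Fin P.s, C (((P.h - 2 * P.b i)! : ℕ) : ℚ) := by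
    rw [← Finset.prod_mul_distrib, Finset.prod_congr rfl fun i _ => fden_mul P i (hb i) k,
      Finset.prod_mul_distrib]
    simp
  calc _ = (C (((P.h : ℤ) - 2 * k : ℤ) : ℚ) + 2 * X) * (lin (-k) * lin ((P.h : ℤ) - k)) ^ d *
    (∏ j, fnum P j k) * ((∏ i, fden P i k) *
      (∏ i, ∏ l ∈ Finset.range (P.h - 2 * P.b i + 1), lin ((P.b i : ℤ) + l - k))) := by ring
    _ = _ := by rw [h1]; ring

end ZG

end

section

/-!
The rational function as a quotient of polynomials, its partial fractions and their symmetry.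
-/

namespace ZG

open ZetaSets (DD refl_lin)

open Polynomial
open scoped Nat

/-- The set of the numbers `k` of the poles `-k`. -/
noncomputable def Sk (P : Par) (b0 : ℕ) : Finset ℤ := Finset.Icc (b0 : ℤ) (P.h - b0)

lemma prod_split (P : Par) {b0 : ℕ} (i : Fin P.s) (hb : 2 * P.b i ≤ P.h) (hb0 : b0 ≤ P.b i) :
    ∃ co : ℚ[X], (∏ l ∈ Finset.range (P.h - 2 * P.b i + 1), (X + C ((P.b i : ℚ) + l))) * co =
      ∏ k ∈ Sk P b0, (X + C (k : ℚ)) := by
  have h1 : (∏ l ∈ Finset.range (P.h - 2 * P.b i + 1), (X + C ((P.b i : ℚ) + l))) =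
      ∏ k ∈ Finset.Icc (P.b i : ℤ) (P.h - P.b i), (X + C (k : ℚ)) := by
    apply Finset.prod_bij (fun (l : ℕ) _ => (P.b i : ℤ) + l)
    · intro l hl
      rw [Finset.mem_range] at hl
      rw [Finset.mem_Icc]
      omega
    · intro l1 _ l2 _ h
      have : (P.b i : ℤ) + l1 = (P.b i : ℤ) + l2 := h
      omega
    · intro k hk
      rw [Finset.mem_Icc] at hk
      refine ⟨(k - P.b i).toNat, ?_, ?_⟩
      · rw [Finset.mem_range]
        omega
      · omega
    · intro l _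
      push_cast
      rfl
  have hsub : Finset.Icc (P.b i : ℤ) (P.h - P.b i) ⊆ Sk P b0 := by
    unfold Sk
    apply Finset.Icc_subset_Icc <;> omega
  refine ⟨∏ k ∈ Sk P b0 \ Finset.Icc (P.b i : ℤ) (P.h - P.b i), (X + C (k : ℚ)), ?_⟩
  rw [h1, mul_comm]
  exact Finset.prod_sdiff hsub

lemma denP_dvd (P : Par) {b0 : ℕ} (hb : ∀ i, 2 * P.b i ≤ P.h) (hb0 : ∀ i, b0 ≤ P.b i) :
    ∃ co : ℚ[X], denP P * co = DD (Sk P b0) P.s := by
  choose co hco using fun i => prod_split P (b0 := b0) i (hb i) (hb0 i)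
  refine ⟨∏ i, co i, ?_⟩
  unfold denP DD
  rw [← Finset.prod_mul_distrib, Finset.prod_congr rfl fun i _ => hco i, Finset.prod_const,
    Finset.card_univ, Fintype.card_fin, Finset.prod_pow]

lemma denP_monic (P : Par) : (denP P).Monic :=
  monic_prod_of_monic _ _ fun _ _ => monic_prod_of_monic _ _ fun _ _ => monic_X_add_C _

lemma denP_natDegree (P : Par) : (denP P).natDegree = ∑ i, (P.h - 2 * P.b i + 1) := by
  unfold denP
  rw [natDegree_prod_of_monic]
  · refine Finset.sum_congr rfl fun i _ => ?_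
    rw [natDegree_prod_of_monic _ _ fun _ _ => monic_X_add_C _]
    simp only [natDegree_X_add_C, Finset.sum_const, Finset.card_range, smul_eq_mul, mul_one]
  · exact fun _ _ => monic_prod_of_monic _ _ fun _ _ => monic_X_add_C _

lemma numP_natDegree (P : Par) (d : ℕ) : (numP P d).natDegree ≤ 1 + 2 * d + ∑ j, 2 * (P.g j + P.a j) := by
  unfold numP
  have e1 : (2 * X + C (P.h : ℚ)).natDegree ≤ 1 := by
    have h2 : (2 : ℚ[X]) = C 2 := (map_ofNat C 2).symm
    rw [h2]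
    exact natDegree_linear_le
  have e2 : ((X * (X + C (P.h : ℚ))) ^ d).natDegree ≤ 2 * d := by
    refine natDegree_pow_le.trans ?_
    have : (X * (X + C (P.h : ℚ))).natDegree ≤ 2 := by
      refine natDegree_mul_le.trans ?_
      rw [natDegree_X, natDegree_X_add_C]
    calc d * (X * (X + C (P.h : ℚ))).natDegree ≤ d * 2 := Nat.mul_le_mul_left _ this
      _ = 2 * d := by ring
  have e3 : ∀ j, ((∏ l ∈ Finset.range (P.g j + P.a j), (X + C ((l : ℚ) + 1 - P.g j))) *
      (∏ l ∈ Finset.range (P.g j + P.a j), (X + C ((P.h : ℚ) + P.g j - (l + 1)))) *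
        C (1 / ((P.g j + P.a j)! : ℚ) ^ 2)).natDegree ≤ 2 * (P.g j + P.a j) := by
    intro j
    refine (natDegree_mul_C_le _ _).trans ?_
    refine natDegree_mul_le.trans ?_
    rw [natDegree_prod_of_monic _ _ fun _ _ => monic_X_add_C _,
      natDegree_prod_of_monic _ _ fun _ _ => monic_X_add_C _]
    simp only [natDegree_X_add_C, Finset.sum_const, Finset.card_range, smul_eq_mul, mul_one]
    omega
  have e4 : (∏ i : Fin P.s, C (((P.h - 2 * P.b i)! : ℕ) : ℚ)).natDegree ≤ 0 := by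
    rw [← map_prod, natDegree_C]
  have e5 : (∏ j, ((∏ l ∈ Finset.range (P.g j + P.a j), (X + C ((l : ℚ) + 1 - P.g j))) *
      (∏ l ∈ Finset.range (P.g j + P.a j), (X + C ((P.h : ℚ) + P.g j - (l + 1)))) *
        C (1 / ((P.g j + P.a j)! : ℚ) ^ 2))).natDegree ≤ ∑ j, 2 * (P.g j + P.a j) :=
    (natDegree_prod_le _ _).trans (Finset.sum_le_sum fun j _ => e3 j)
  refine natDegree_mul_le.trans ?_
  have e6 := natDegree_mul_le (p := (2 * X + C (P.h : ℚ)) * (X * (X + C (P.h : ℚ))) ^ d)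
    (q := ∏ j, ((∏ l ∈ Finset.range (P.g j + P.a j), (X + C ((l : ℚ) + 1 - P.g j))) *
      (∏ l ∈ Finset.range (P.g j + P.a j), (X + C ((P.h : ℚ) + P.g j - (l + 1)))) *
        C (1 / ((P.g j + P.a j)! : ℚ) ^ 2)))
  have e7 := natDegree_mul_le (p := (2 * X + C (P.h : ℚ))) (q := (X * (X + C (P.h : ℚ))) ^ d)
  omega

lemma denP_refl (P : Par) (heven : Even P.h) (hs : Even P.s) (hb : ∀ i, 2 * P.b i ≤ P.h) :
    (denP P).comp (-C ((P.h : ℤ) : ℚ) - X) = denP P := by
  unfold denP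
  rw [prod_comp]
  have e1 : ∀ i, (∏ l ∈ Finset.range (P.h - 2 * P.b i + 1), (X + C ((P.b i : ℚ) + l))).comp
      (-C ((P.h : ℤ) : ℚ) - X) =
      -∏ l ∈ Finset.range (P.h - 2 * P.b i + 1), (X + C ((P.b i : ℚ) + l)) := by
    intro i
    rw [prod_comp, ← Finset.prod_range_reflect
      (fun l => (X + C ((P.b i : ℚ) + (l : ℕ)) : ℚ[X]))]
    have : ∀ l ∈ Finset.range (P.h - 2 * P.b i + 1),
        (X + C ((P.b i : ℚ) + l)).comp (-C ((P.h : ℤ) : ℚ) - X) =
        (-1) * (X + C ((P.b i : ℚ) + ((P.h - 2 * P.b i + 1 - 1 - l : ℕ) : ℕ))) := by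
      intro l hl
      rw [Finset.mem_range] at hl
      rw [refl_lin (P.h : ℤ) ((P.b i : ℚ) + l)
        ((P.b i : ℚ) + ((P.h - 2 * P.b i + 1 - 1 - l : ℕ) : ℕ)), neg_one_mul]
      have h3 : ((P.h - 2 * P.b i + 1 - 1 - l : ℕ) : ℚ) = P.h - 2 * P.b i - l := by
        have := hb i
        rw [show P.h - 2 * P.b i + 1 - 1 - l = P.h - 2 * P.b i - l by omega,
          Nat.cast_sub (by omega), Nat.cast_sub (by omega)]
        push_cast
        ring
      rw [h3]
      push_cast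
      ring
    rw [Finset.prod_congr rfl this, Finset.prod_mul_distrib, Finset.prod_const, Finset.card_range]
    have hodd : Odd (P.h - 2 * P.b i + 1) := by
      apply Even.add_one
      exact (Nat.even_sub (hb i)).2 (by simp [heven])
    rw [hodd.neg_one_pow]
    ring
  rw [Finset.prod_congr rfl fun i _ => e1 i]
  simp only [← neg_one_mul (∏ l ∈ Finset.range _, _)]
  rw [Finset.prod_mul_distrib, Finset.prod_const, Finset.card_univ, Fintype.card_fin,
    hs.neg_one_pow, one_mul]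

lemma numP_refl (P : Par) (d : ℕ) :
    (numP P d).comp (-C ((P.h : ℤ) : ℚ) - X) = -numP P d := by
  unfold numP
  have h2 : (2 : ℚ[X]) = C 2 := (map_ofNat C 2).symm
  have e1 : (2 * X + C (P.h : ℚ)).comp (-C ((P.h : ℤ) : ℚ) - X) =
      -(2 * X + C (P.h : ℚ)) := by
    rw [h2, add_comp, mul_comp, X_comp, C_comp, C_comp, ← h2]
    push_cast
    ring
  have e2 : (X * (X + C (P.h : ℚ))).comp (-C ((P.h : ℤ) : ℚ) - X) =
      X * (X + C (P.h : ℚ)) := by
    rw [mul_comp, add_comp, X_comp, C_comp]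
    push_cast
    ring
  have e3 : ∀ j, ((∏ l ∈ Finset.range (P.g j + P.a j), (X + C ((l : ℚ) + 1 - P.g j))) *
      (∏ l ∈ Finset.range (P.g j + P.a j), (X + C ((P.h : ℚ) + P.g j - (l + 1)))) *
        C (1 / ((P.g j + P.a j)! : ℚ) ^ 2)).comp (-C ((P.h : ℤ) : ℚ) - X) =
      (∏ l ∈ Finset.range (P.g j + P.a j), (X + C ((l : ℚ) + 1 - P.g j))) *
      (∏ l ∈ Finset.range (P.g j + P.a j), (X + C ((P.h : ℚ) + P.g j - (l + 1)))) *
        C (1 / ((P.g j + P.a j)! : ℚ) ^ 2) := by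
    intro j
    rw [mul_comp, mul_comp, C_comp, prod_comp, prod_comp]
    congr 1
    have f1 : ∀ l ∈ Finset.range (P.g j + P.a j),
        (X + C ((l : ℚ) + 1 - P.g j)).comp (-C ((P.h : ℤ) : ℚ) - X) =
        -(X + C ((P.h : ℚ) + P.g j - (l + 1))) := by
      intro l _
      apply refl_lin
      push_cast
      ring
    have f2 : ∀ l ∈ Finset.range (P.g j + P.a j),
        (X + C ((P.h : ℚ) + P.g j - (l + 1))).comp (-C ((P.h : ℤ) : ℚ) - X) =
        -(X + C ((l : ℚ) + 1 - P.g j)) := by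
      intro l _
      apply refl_lin
      push_cast
      ring
    rw [Finset.prod_congr rfl f1, Finset.prod_congr rfl f2, ← Finset.prod_mul_distrib,
      ← Finset.prod_mul_distrib]
    exact Finset.prod_congr rfl fun l _ => by ring
  rw [mul_comp, mul_comp, mul_comp, pow_comp, e1, e2, prod_comp, prod_comp,
    Finset.prod_congr rfl fun j _ => e3 j]
  simp only [C_comp]
  ring

/-- The value of the quotient of the two polynomials. -/
lemma eval_quot (P : Par) (d : ℕ) (t : ℂ) :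
    aeval t (numP P d) / aeval t (denP P) = (t * (t + P.h)) ^ d * R P t := by
  unfold numP denP R
  simp only [map_mul, map_prod, map_pow, map_add, aeval_X, aeval_C, map_ofNat]
  rw [Finset.prod_div_distrib, Finset.prod_div_distrib]
  simp only [eq_ratCast]
  push_cast
  rw [Finset.prod_mul_distrib, Finset.prod_div_distrib, Finset.prod_const_one]
  have e0 : ∀ j, ∏ l ∈ Finset.range (P.g j + P.a j), (t + ((l : ℂ) + 1 - P.g j)) =
      ∏ l ∈ Finset.range (P.g j + P.a j), (t - P.g j + (l + 1)) := by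
    intro j
    exact Finset.prod_congr rfl fun l _ => by ring
  have e1 : ∀ j, ∏ l ∈ Finset.range (P.g j + P.a j), (t + ((P.h : ℂ) + P.g j - (l + 1))) =
      ∏ l ∈ Finset.range (P.g j + P.a j), (t + P.h + P.g j - (l + 1)) := by
    intro j
    exact Finset.prod_congr rfl fun l _ => by ring
  have e2 : ∀ i, ∏ l ∈ Finset.range (P.h - 2 * P.b i + 1), (t + ((P.b i : ℂ) + l)) =
      ∏ l ∈ Finset.range (P.h - 2 * P.b i + 1), (t + P.b i + l) := by
    intro j
    exact Finset.prod_congr rfl fun l _ => by ring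
  simp only [e0, e1, e2]
  ring

end ZG

end

section

/-!
The coefficients of the linear forms.
-/

namespace ZG

/-- Coefficient of `zeta(r+j)` (up to the common factor). -/
noncomputable def Bq (P : Par) (b0 d j : ℕ) : ℚ :=
  ((j + P.r - 1).choose (P.r - 1) : ℚ) *
    ∑ k ∈ Sk P b0, PowerSeries.coeff (P.s - 1 - j) (fser P d k)

/-- The rational term. -/
noncomputable def B0q (P : Par) (a0 b0 d : ℕ) : ℚ :=
  ∑ k ∈ Sk P b0, ∑ j ∈ Finset.range P.s, ((j + P.r - 1).choose (P.r - 1) : ℚ) *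
    PowerSeries.coeff (P.s - 1 - j) (fser P d k) *
      ∑ l ∈ Finset.range (k.toNat - a0 - 1), 1 / ((l : ℚ) + 1) ^ (j + P.r)

end ZG

end

section

/-!
The p-adic size of the coefficients of the local expansions.
-/

namespace ZG

open ZetaSets (Cl lin Cl_lin Cl_lin_zero Cl_lin_inv Cl_X Cl_C Cl_int ord_le ord_eq_sum fact_norm
  sum_dvd neg_ediv_eq add_ediv_ge Cl_lin_prod inv')

open PowerSeries
open scoped Nat

lemma phi_nonneg (P : Par) {q : ℤ} (hq : 0 < q) (k : ℤ) :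
    0 ≤ phi P q k := by
  unfold phi
  apply add_nonneg
  · apply Finset.sum_nonneg
    intro j _
    have h1 := add_ediv_ge hq (k - 1 - P.a j) ((P.g j : ℤ) + P.a j)
    have h2 := add_ediv_ge hq (P.h - k - 1 - P.a j) ((P.g j : ℤ) + P.a j)
    have e1 : k - 1 - (P.a j : ℤ) + ((P.g j : ℤ) + P.a j) = k - 1 + P.g j := by ring
    have e2 : (P.h : ℤ) - k - 1 - P.a j + ((P.g j : ℤ) + P.a j) = P.h - k - 1 + P.g j := by ring
    rw [e1] at h1
    rw [e2] at h2
    linarith
  · apply Finset.sum_nonneg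
    intro i _
    have h1 := add_ediv_ge hq (k - P.b i) (P.h - P.b i - k)
    have e : k - (P.b i : ℤ) + (P.h - P.b i - k) = P.h - 2 * P.b i := by ring
    rw [e] at h1
    linarith

lemma phi_symm (P : Par) (q k : ℤ) : phi P q (P.h - k) = phi P q k := by
  unfold phi
  congr 1
  · refine Finset.sum_congr rfl fun j _ => ?_
    have e1 : (P.h : ℤ) - (P.h - k) - 1 = k - 1 := by ring
    rw [e1]
    ring
  · refine Finset.sum_congr rfl fun i _ => ?_
    have e1 : (P.h : ℤ) - k - P.b i = P.h - P.b i - k := by ring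
    have e2 : (P.h : ℤ) - P.b i - (P.h - k) = k - P.b i := by ring
    rw [e1, e2]
    ring

section

variable {p Λ : ℕ} [hp : Fact p.Prime]

lemma Cl_fnum (P : Par) (j : Fin P.r) (k : ℤ) (hk1 : (P.a j : ℤ) < k)
    (hk2 : k + P.a j < P.h) (hg : P.g j + P.a j ≤ P.h)
    (hh : 2 * (P.h : ℤ) < (p : ℤ) ^ (Λ + 1)) :
    Cl p Λ (∑ i ∈ Finset.Ico 1 (Λ + 1),
      (((k - 1 + P.g j) / (p : ℤ) ^ i - (k - 1 - P.a j) / (p : ℤ) ^ i -
        ((P.g j : ℤ) + P.a j) / (p : ℤ) ^ i) +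
      ((P.h - k - 1 + P.g j) / (p : ℤ) ^ i - (P.h - k - 1 - P.a j) / (p : ℤ) ^ i -
        ((P.g j : ℤ) + P.a j) / (p : ℤ) ^ i))) (fnum P j k) := by
  have hppos := hp.out.pos
  have h1 : Cl p Λ _ (∏ l ∈ Finset.range (P.g j + P.a j), lin ((1 - P.g j - k) + l)) :=
    Cl_lin_prod (1 - P.g j - k) (P.g j + P.a j) (by
      intro l hl
      constructor
      · omega
      · rw [abs_lt]
        constructor <;> omega)
  have h2 : Cl p Λ _ (∏ l ∈ Finset.range (P.g j + P.a j), lin ((P.h - k - P.a j) + l)) :=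
    Cl_lin_prod (P.h - k - P.a j) (P.g j + P.a j) (by
      intro l hl
      constructor
      · omega
      · rw [abs_lt]
        constructor <;> omega)
  have e1 : (∏ l ∈ Finset.range (P.g j + P.a j), lin ((1 - P.g j - k) + l)) =
      ∏ l ∈ Finset.range (P.g j + P.a j), lin ((l : ℤ) + 1 - P.g j - k) :=
    Finset.prod_congr rfl fun l _ => by congr 1; ring
  have e2 : (∏ l ∈ Finset.range (P.g j + P.a j), lin ((P.h - k - P.a j) + l)) =
      ∏ l ∈ Finset.range (P.g j + P.a j), lin ((P.h : ℤ) + P.g j - (l + 1) - k) := by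
    rw [← Finset.prod_range_reflect]
    refine Finset.prod_congr rfl fun l hl => ?_
    have := Finset.mem_range.1 hl
    congr 1
    omega
  have h3 : Cl p Λ (∑ i ∈ Finset.Ico 1 (Λ + 1), (-2 * (((P.g j : ℤ) + P.a j) / (p : ℤ) ^ i)))
      (C (1 / ((P.g j + P.a j)! : ℚ) ^ 2)) := by
    apply Cl_C
    have ha : P.g j + P.a j < p ^ (Λ + 1) := by
      zify
      omega
    have h4 := fact_norm (p := p) ha
    have h0 : (0 : ℚ) < p := by exact_mod_cast hppos
    rw [padicNorm.div, padicNorm.one, pow_two, padicNorm.mul, h4, ← zpow_add₀ h0.ne', one_div,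
      ← zpow_neg]
    apply le_of_eq
    congr 1
    rw [← Finset.mul_sum]
    push_cast
    ring
  rw [e1] at h1
  rw [e2] at h2
  have h4 := (h1.mul h2).mul h3
  unfold fnum
  convert h4 using 1
  rw [← Finset.sum_add_distrib, ← Finset.sum_add_distrib]
  refine Finset.sum_congr rfl fun i _ => ?_
  have hq : (0 : ℤ) < (p : ℤ) ^ i := by positivity
  have f1 : (1 - P.g j - k + ((P.g j + P.a j : ℕ) : ℤ) - 1) / (p : ℤ) ^ i =
      -((k - 1 - P.a j) / (p : ℤ) ^ i) - 1 := by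
    have := neg_ediv_eq hq (k - P.a j)
    rw [show (1 - P.g j - k + ((P.g j + P.a j : ℕ) : ℤ) - 1) = -(k - P.a j) by push_cast; ring,
      this, show k - (P.a j : ℤ) - 1 = k - 1 - P.a j by ring]
  have f2 : (1 - (P.g j : ℤ) - k - 1) / (p : ℤ) ^ i = -((k - 1 + P.g j) / (p : ℤ) ^ i) - 1 := by
    have := neg_ediv_eq hq (k + P.g j)
    rw [show (1 - (P.g j : ℤ) - k - 1 : ℤ) = -(k + P.g j) by ring, this,
      show k + (P.g j : ℤ) - 1 = k - 1 + P.g j by ring]
  have f3 : ((P.h : ℤ) - k - P.a j + ((P.g j + P.a j : ℕ) : ℤ) - 1) = P.h - k - 1 + P.g j := by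
    push_cast
    ring
  have f4 : ((P.h : ℤ) - k - P.a j - 1) = P.h - k - 1 - P.a j := by ring
  rw [f1, f2, f3, f4]
  ring

lemma Cl_fden (P : Par) (i : Fin P.s) (k : ℤ) (hk0 : 0 ≤ k) (hk1 : k ≤ P.h)
    (hb : 2 * P.b i ≤ P.h) (hh : 2 * (P.h : ℤ) < (p : ℤ) ^ (Λ + 1)) :
    Cl p Λ (∑ t ∈ Finset.Ico 1 (Λ + 1),
      (((P.h : ℤ) - 2 * P.b i) / (p : ℤ) ^ t - (k - P.b i) / (p : ℤ) ^ t -
        (P.h - P.b i - k) / (p : ℤ) ^ t)) (fden P i k) := by
  have hppos := hp.out.pos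
  have h0 : (0 : ℚ) < p := by exact_mod_cast hppos
  -- the factorial
  have h1 : Cl p Λ (∑ t ∈ Finset.Ico 1 (Λ + 1), (((P.h : ℤ) - 2 * P.b i) / (p : ℤ) ^ t))
      (C (((P.h - 2 * P.b i)! : ℕ) : ℚ)) := by
    apply Cl_C
    have ha : P.h - 2 * P.b i < p ^ (Λ + 1) := by
      zify [hb]
      omega
    rw [fact_norm (p := p) ha]
    apply le_of_eq
    congr 2
    refine Finset.sum_congr rfl fun t _ => ?_
    push_cast [hb]
    rfl
  -- the inverse factors
  have h2 : Cl p Λ (∑ l ∈ Finset.range (P.h - 2 * P.b i + 1),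
      ∑ t ∈ Finset.Ico 1 (Λ + 1), (-(if ((p : ℤ) ^ t) ∣ (P.b i - k) + l then (1 : ℤ) else 0) +
        if (P.b i - k : ℤ) + l = 0 then 1 else 0))
      (∏ l ∈ Finset.range (P.h - 2 * P.b i + 1), inv' ((P.b i : ℤ) + l - k)) := by
    apply Cl.prod
    intro l hl
    have hl' := Finset.mem_range.1 hl
    have e : (P.b i : ℤ) + l - k = (P.b i - k) + l := by ring
    rw [e]
    by_cases hc : (P.b i - k : ℤ) + l = 0
    · have : ∑ t ∈ Finset.Ico 1 (Λ + 1),
          (-(if ((p : ℤ) ^ t) ∣ (P.b i - k) + l then (1 : ℤ) else 0) +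
          if (P.b i - k : ℤ) + l = 0 then 1 else 0) = 0 := by
        apply Finset.sum_eq_zero
        intro t _
        rw [hc, if_pos (dvd_zero _), if_pos rfl]
        ring
      rw [this, inv', if_pos hc]
      exact Cl.one
    · have hlt : |(P.b i - k : ℤ) + l| < (p : ℤ) ^ (Λ + 1) := by
        rw [abs_lt]
        constructor <;> omega
      have : ∑ t ∈ Finset.Ico 1 (Λ + 1),
          (-(if ((p : ℤ) ^ t) ∣ (P.b i - k) + l then (1 : ℤ) else 0) +
          if (P.b i - k : ℤ) + l = 0 then 1 else 0) = -(padicValInt p (P.b i - k + l) : ℤ) := by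
        rw [ord_eq_sum hc hlt, ← Finset.sum_neg_distrib]
        refine Finset.sum_congr rfl fun t _ => ?_
        rw [if_neg hc, add_zero]
      rw [this, inv', if_neg hc]
      exact Cl_lin_inv hc (ord_le hc hlt)
  have h3 : Cl p Λ (∑ t ∈ Finset.Ico 1 (Λ + 1),
      (if (P.b i : ℤ) ≤ k ∧ k ≤ P.h - P.b i then (0 : ℤ) else 1))
      (if (P.b i : ℤ) ≤ k ∧ k ≤ P.h - P.b i then 1 else X : ℚ⟦X⟧) := by
    split_ifs
    · simpa using Cl.one
    · simpa using Cl_X
  have h4 := (h1.mul h2).mul h3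
  unfold fden
  convert h4 using 1
  rw [Finset.sum_comm, ← Finset.sum_add_distrib, ← Finset.sum_add_distrib]
  refine Finset.sum_congr rfl fun t _ => ?_
  have hq : (0 : ℤ) < (p : ℤ) ^ t := by positivity
  rw [Finset.sum_add_distrib, Finset.sum_neg_distrib, sum_dvd hq]
  have g1 : (P.b i - k + ((P.h - 2 * P.b i + 1 : ℕ) : ℤ) - 1) = P.h - P.b i - k := by
    push_cast [hb]
    ring
  have g2 : ((P.b i : ℤ) - k - 1) / (p : ℤ) ^ t = -((k - P.b i) / (p : ℤ) ^ t) - 1 := by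
    have := neg_ediv_eq hq (k - P.b i + 1)
    rw [show ((P.b i : ℤ) - k - 1) = -(k - P.b i + 1) by ring, this,
      show k - (P.b i : ℤ) + 1 - 1 = k - P.b i by ring]
  have g3 : (∑ l ∈ Finset.range (P.h - 2 * P.b i + 1),
      if (P.b i - k : ℤ) + l = 0 then (1 : ℤ) else 0) =
      if (P.b i : ℤ) ≤ k ∧ k ≤ P.h - P.b i then 1 else 0 := by
    split_ifs with h
    · rw [Finset.sum_eq_single_of_mem (k - P.b i).toNat]
      · rw [if_pos (by omega)]
      · rw [Finset.mem_range]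
        omega
      · intro l _ hl
        rw [if_neg (by omega)]
    · apply Finset.sum_eq_zero
      intro l hl
      have := Finset.mem_range.1 hl
      rw [if_neg (by omega)]
  rw [g1, g2, g3]
  split_ifs <;> ring

/-- The main local estimate. -/
theorem Cl_fser (P : Par) {a0 b0 : ℕ} (hP : Good P a0 b0) (d : ℕ) (k : ℤ)
    (hk : k ∈ Sk P b0) (hh : 2 * (P.h : ℤ) < (p : ℤ) ^ (Λ + 1)) :
    Cl p Λ (∑ t ∈ Finset.Ico 1 (Λ + 1), phi P ((p : ℤ) ^ t) k) (fser P d k) := by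
  have hk' : (b0 : ℤ) ≤ k ∧ k ≤ P.h - b0 := by
    unfold Sk at hk
    rwa [Finset.mem_Icc] at hk
  have h1 : Cl p Λ 0 (C (((P.h : ℤ) - 2 * k : ℤ) : ℚ) + 2 * X) := Cl_int _
  have h2 : Cl p Λ 0 ((lin (-k) * lin ((P.h : ℤ) - k)) ^ d) := by
    have := ((Cl_lin_zero (p := p) (Λ := Λ) (-k)).mul (Cl_lin_zero ((P.h : ℤ) - k))).pow d
    simpa using this
  have h3 := Cl.prod (p := p) (Λ := Λ) Finset.univ (f := fun j => fnum P j k) (v := fun j =>
    (∑ i ∈ Finset.Ico 1 (Λ + 1),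
      (((k - 1 + P.g j) / (p : ℤ) ^ i - (k - 1 - P.a j) / (p : ℤ) ^ i -
        ((P.g j : ℤ) + P.a j) / (p : ℤ) ^ i) +
      ((P.h - k - 1 + P.g j) / (p : ℤ) ^ i - (P.h - k - 1 - P.a j) / (p : ℤ) ^ i -
        ((P.g j : ℤ) + P.a j) / (p : ℤ) ^ i)))) (fun j _ => by
    have := hP.alt j
    exact Cl_fnum P j k (by omega) (by omega) (hP.gle j) hh)
  have h4 := Cl.prod (p := p) (Λ := Λ) Finset.univ (f := fun i => fden P i k) (v := fun i =>
    (∑ t ∈ Finset.Ico 1 (Λ + 1),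
      (((P.h : ℤ) - 2 * P.b i) / (p : ℤ) ^ t - (k - P.b i) / (p : ℤ) ^ t -
        (P.h - P.b i - k) / (p : ℤ) ^ t))) (fun i _ => by
    exact Cl_fden P i k (by omega) (by omega) (hP.b2 i) hh)
  have h5 := ((h1.mul h2).mul h3).mul h4
  unfold fser
  convert h5 using 1
  rw [Finset.sum_comm, Finset.sum_comm (s := (Finset.univ : Finset (Fin P.s))), add_zero, zero_add,
    ← Finset.sum_add_distrib]
  rfl

end

end ZG

end
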