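import Pool.Agent.Work.MP_4f096c_nt.Rat

/-!
The p-adic size of the coefficients of the local expansions.
-/

namespace ZetaSets

open PowerSeries
open scoped Nat

lemma phi_nonneg (P : Par) {q : ℤ} (hq : 0 < q) (k : ℤ) :
    0 ≤ phi P q k := by
  unfold phi
  apply add_nonneg
  · apply Finset.sum_nonneg
    intro j _
    have h1 := add_ediv_ge hq (k - 1 - P.a j) (P.a j)
    have h2 := add_ediv_ge hq (P.h - k - 1 - P.a j) (P.a j)
    rw [sub_add_cancel] at h1 h2
    linarith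
  · apply Finset.sum_nonneg
    intro i _
    have h1 := add_ediv_ge hq (k - P.b i) (P.h - P.b i - k)
    have e : k - (P.b i : ℤ) + (P.h - P.b i - k) = P.h - 2 * P.b i := by ring
    rw [e] at h1
    linarith

lemma phi_symm (P : Par) (q k : ℤ) : phi P q (P.h - k) = phi P q k := by
  unfold phi
  congr 1
  · refine Finset.sum_congr rfl fun j _ => ?_
    have e1 : (P.h : ℤ) - (P.h - k) - 1 = k - 1 := by ring
    have e2 : (P.h : ℤ) - (P.h - k) - 1 - P.a j = k - 1 - P.a j := by ring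
    rw [e1]
    ring
  · refine Finset.sum_congr rfl fun i _ => ?_
    have e1 : (P.h : ℤ) - k - P.b i = P.h - P.b i - k := by ring
    have e2 : (P.h : ℤ) - P.b i - (P.h - k) = k - P.b i := by ring
    rw [e1, e2]
    ring

section

variable {p Λ : ℕ} [hp : Fact p.Prime]

lemma Cl_fnum (P : Par) (j : Fin P.r) (k : ℤ) (hk1 : (P.a j : ℤ) < k)
    (hk2 : k + P.a j < P.h) (hh : (P.h : ℤ) < (p : ℤ) ^ (Λ + 1)) :
    Cl p Λ (∑ i ∈ Finset.Ico 1 (Λ + 1),
      (((k - 1) / (p : ℤ) ^ i - (k - 1 - P.a j) / (p : ℤ) ^ i - (P.a j : ℤ) / (p : ℤ) ^ i) +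
      ((P.h - k - 1) / (p : ℤ) ^ i - (P.h - k - 1 - P.a j) / (p : ℤ) ^ i -
        (P.a j : ℤ) / (p : ℤ) ^ i))) (fnum P j k) := by
  have hppos := hp.out.pos
  have h1 : Cl p Λ _ (∏ l ∈ Finset.range (P.a j), lin ((1 - k) + l)) :=
    Cl_lin_prod (1 - k) (P.a j) (by
      intro l hl
      constructor
      · omega
      · rw [abs_lt]
        constructor <;> omega)
  have h2 : Cl p Λ _ (∏ l ∈ Finset.range (P.a j), lin ((P.h - k - P.a j) + l)) :=
    Cl_lin_prod (P.h - k - P.a j) (P.a j) (by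
      intro l hl
      constructor
      · omega
      · rw [abs_lt]
        constructor <;> omega)
  have e1 : (∏ l ∈ Finset.range (P.a j), lin ((1 - k) + l)) =
      ∏ l ∈ Finset.range (P.a j), lin ((l : ℤ) + 1 - k) :=
    Finset.prod_congr rfl fun l _ => by congr 1; ring
  have e2 : (∏ l ∈ Finset.range (P.a j), lin ((P.h - k - P.a j) + l)) =
      ∏ l ∈ Finset.range (P.a j), lin ((P.h : ℤ) - (l + 1) - k) := by
    rw [← Finset.prod_range_reflect]
    refine Finset.prod_congr rfl fun l hl => ?_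
    have := Finset.mem_range.1 hl
    congr 1
    omega
  have h3 : Cl p Λ (∑ i ∈ Finset.Ico 1 (Λ + 1), (-2 * ((P.a j : ℤ) / (p : ℤ) ^ i)))
      (C (1 / ((P.a j)! : ℚ) ^ 2)) := by
    apply Cl_C
    have ha : P.a j < p ^ (Λ + 1) := by
      zify
      omega
    have h4 := fact_norm (p := p) ha
    have h0 : (0 : ℚ) < p := by exact_mod_cast hppos
    rw [padicNorm.div, padicNorm.one, pow_two, padicNorm.mul, h4, ← zpow_add₀ h0.ne', one_div,
      ← zpow_neg]
    apply le_of_eq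
    congr 1
    rw [← Finset.mul_sum]
    ring
  rw [e1] at h1
  rw [e2] at h2
  have h4 := (h1.mul h2).mul h3
  unfold fnum
  convert h4 using 1
  rw [← Finset.sum_add_distrib, ← Finset.sum_add_distrib]
  refine Finset.sum_congr rfl fun i _ => ?_
  have hq : (0 : ℤ) < (p : ℤ) ^ i := by positivity
  have f1 : (1 - k + (P.a j : ℤ) - 1) / (p : ℤ) ^ i = -((k - 1 - P.a j) / (p : ℤ) ^ i) - 1 := by
    have := neg_ediv_eq hq (k - P.a j)
    rw [show (1 - k + (P.a j : ℤ) - 1) = -(k - P.a j) by ring, this,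
      show k - (P.a j : ℤ) - 1 = k - 1 - P.a j by ring]
  have f2 : (1 - k - 1) / (p : ℤ) ^ i = -((k - 1) / (p : ℤ) ^ i) - 1 := by
    have := neg_ediv_eq hq k
    rw [show (1 - k - 1 : ℤ) = -k by ring, this]
  have f3 : ((P.h : ℤ) - k - P.a j + P.a j - 1) = P.h - k - 1 := by ring
  have f4 : ((P.h : ℤ) - k - P.a j - 1) = P.h - k - 1 - P.a j := by ring
  rw [f1, f2, f3, f4]
  ring

lemma Cl_fden (P : Par) (i : Fin P.s) (k : ℤ) (hk0 : 0 ≤ k) (hk1 : k ≤ P.h)
    (hb : 2 * P.b i ≤ P.h) (hh : (P.h : ℤ) < (p : ℤ) ^ (Λ + 1)) :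
    Cl p Λ (∑ t ∈ Finset.Ico 1 (Λ + 1),
      (((P.h : ℤ) - 2 * P.b i) / (p : ℤ) ^ t - (k - P.b i) / (p : ℤ) ^ t -
        (P.h - P.b i - k) / (p : ℤ) ^ t)) (fden P i k) := by
  have hppos := hp.out.pos
  have h0 : (0 : ℚ) < p := by exact_mod_cast hppos
  -- the factorial
  have h1 : Cl p Λ (∑ t ∈ Finset.Ico 1 (Λ + 1), (((P.h : ℤ) - 2 * P.b i) / (p : ℤ) ^ t))
      (C (((P.h - 2 * P.b i)! : ℕ) : ℚ)) := by
    apply Cl_C
    have ha : P.h - 2 * P.b i < p ^ (Λ + 1) := by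
      zify [hb]
      omega
    rw [fact_norm (p := p) ha]
    apply le_of_eq
    congr 2
    refine Finset.sum_congr rfl fun t _ => ?_
    push_cast [hb]
    rfl
  -- the inverse factors
  have h2 : Cl p Λ (∑ l ∈ Finset.range (P.h - 2 * P.b i + 1),
      ∑ t ∈ Finset.Ico 1 (Λ + 1), (-(if ((p : ℤ) ^ t) ∣ (P.b i - k) + l then (1 : ℤ) else 0) +
        if (P.b i - k : ℤ) + l = 0 then 1 else 0))
      (∏ l ∈ Finset.range (P.h - 2 * P.b i + 1), inv' ((P.b i : ℤ) + l - k)) := by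
    apply Cl.prod
    intro l hl
    have hl' := Finset.mem_range.1 hl
    have e : (P.b i : ℤ) + l - k = (P.b i - k) + l := by ring
    rw [e]
    by_cases hc : (P.b i - k : ℤ) + l = 0
    · have : ∑ t ∈ Finset.Ico 1 (Λ + 1),
          (-(if ((p : ℤ) ^ t) ∣ (P.b i - k) + l then (1 : ℤ) else 0) +
          if (P.b i - k : ℤ) + l = 0 then 1 else 0) = 0 := by
        apply Finset.sum_eq_zero
        intro t _
        rw [hc, if_pos (dvd_zero _), if_pos rfl]
        ring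
      rw [this, inv', if_pos hc]
      exact Cl.one
    · have hlt : |(P.b i - k : ℤ) + l| < (p : ℤ) ^ (Λ + 1) := by
        rw [abs_lt]
        constructor <;> omega
      have : ∑ t ∈ Finset.Ico 1 (Λ + 1),
          (-(if ((p : ℤ) ^ t) ∣ (P.b i - k) + l then (1 : ℤ) else 0) +
          if (P.b i - k : ℤ) + l = 0 then 1 else 0) = -(padicValInt p (P.b i - k + l) : ℤ) := by
        rw [ord_eq_sum hc hlt, ← Finset.sum_neg_distrib]
        refine Finset.sum_congr rfl fun t _ => ?_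
        rw [if_neg hc, add_zero]
      rw [this, inv', if_neg hc]
      exact Cl_lin_inv hc (ord_le hc hlt)
  have h3 : Cl p Λ (∑ t ∈ Finset.Ico 1 (Λ + 1),
      (if (P.b i : ℤ) ≤ k ∧ k ≤ P.h - P.b i then (0 : ℤ) else 1))
      (if (P.b i : ℤ) ≤ k ∧ k ≤ P.h - P.b i then 1 else X : ℚ⟦X⟧) := by
    split_ifs
    · simpa using Cl.one
    · simpa using Cl_X
  have h4 := (h1.mul h2).mul h3
  unfold fden
  convert h4 using 1
  rw [Finset.sum_comm, ← Finset.sum_add_distrib, ← Finset.sum_add_distrib]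
  refine Finset.sum_congr rfl fun t _ => ?_
  have hq : (0 : ℤ) < (p : ℤ) ^ t := by positivity
  rw [Finset.sum_add_distrib, Finset.sum_neg_distrib, sum_dvd hq]
  have g1 : (P.b i - k + ((P.h - 2 * P.b i + 1 : ℕ) : ℤ) - 1) = P.h - P.b i - k := by
    push_cast [hb]
    ring
  have g2 : ((P.b i : ℤ) - k - 1) / (p : ℤ) ^ t = -((k - P.b i) / (p : ℤ) ^ t) - 1 := by
    have := neg_ediv_eq hq (k - P.b i + 1)
    rw [show ((P.b i : ℤ) - k - 1) = -(k - P.b i + 1) by ring, this,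
      show k - (P.b i : ℤ) + 1 - 1 = k - P.b i by ring]
  have g3 : (∑ l ∈ Finset.range (P.h - 2 * P.b i + 1),
      if (P.b i - k : ℤ) + l = 0 then (1 : ℤ) else 0) =
      if (P.b i : ℤ) ≤ k ∧ k ≤ P.h - P.b i then 1 else 0 := by
    split_ifs with h
    · rw [Finset.sum_eq_single_of_mem (k - P.b i).toNat]
      · rw [if_pos (by omega)]
      · rw [Finset.mem_range]
        omega
      · intro l _ hl
        rw [if_neg (by omega)]
    · apply Finset.sum_eq_zero
      intro l hl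
      have := Finset.mem_range.1 hl
      rw [if_neg (by omega)]
  rw [g1, g2, g3]
  split_ifs <;> ring

/-- The main local estimate. -/
theorem Cl_fser (P : Par) {a0 b0 : ℕ} (hP : Good P a0 b0) (d : ℕ) (k : ℤ)
    (hk : k ∈ Sk P b0) (hh : (P.h : ℤ) < (p : ℤ) ^ (Λ + 1)) :
    Cl p Λ (∑ t ∈ Finset.Ico 1 (Λ + 1), phi P ((p : ℤ) ^ t) k) (fser P d k) := by
  have hk' : (b0 : ℤ) ≤ k ∧ k ≤ P.h - b0 := by
    unfold Sk at hk
    rwa [Finset.mem_Icc] at hk
  have h1 : Cl p Λ 0 (C (((P.h : ℤ) - 2 * k : ℤ) : ℚ) + 2 * X) := Cl_int _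
  have h2 : Cl p Λ 0 ((lin (-k) * lin ((P.h : ℤ) - k)) ^ d) := by
    have := ((Cl_lin_zero (p := p) (Λ := Λ) (-k)).mul (Cl_lin_zero ((P.h : ℤ) - k))).pow d
    simpa using this
  have h3 := Cl.prod (p := p) (Λ := Λ) Finset.univ (f := fun j => fnum P j k) (v := fun j =>
    (∑ i ∈ Finset.Ico 1 (Λ + 1),
      (((k - 1) / (p : ℤ) ^ i - (k - 1 - P.a j) / (p : ℤ) ^ i - (P.a j : ℤ) / (p : ℤ) ^ i) +
      ((P.h - k - 1) / (p : ℤ) ^ i - (P.h - k - 1 - P.a j) / (p : ℤ) ^ i -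
        (P.a j : ℤ) / (p : ℤ) ^ i)))) (fun j _ => by
    have := hP.alt j
    exact Cl_fnum P j k (by omega) (by omega) hh)
  have h4 := Cl.prod (p := p) (Λ := Λ) Finset.univ (f := fun i => fden P i k) (v := fun i =>
    (∑ t ∈ Finset.Ico 1 (Λ + 1),
      (((P.h : ℤ) - 2 * P.b i) / (p : ℤ) ^ t - (k - P.b i) / (p : ℤ) ^ t -
        (P.h - P.b i - k) / (p : ℤ) ^ t))) (fun i _ => by
    exact Cl_fden P i k (by omega) (by omega) (hP.b2 i) hh)
  have h5 := ((h1.mul h2).mul h3).mul h4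
  unfold fser
  convert h5 using 1
  rw [Finset.sum_comm, Finset.sum_comm (s := (Finset.univ : Finset (Fin P.s))), add_zero, zero_add,
    ← Finset.sum_add_distrib]
  rfl

end

end ZetaSets
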