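import Pool.Agent.Work.MP_4f096c_nt.NonVanB

namespace ZetaSets
open Complex MeasureTheory Polynomial
open scoped Nat

/-! ### the functional `calL` -/

/-- `rho(t) = R(t) / (2 t + h)` -/
noncomputable def rho (P : Par) (t : ℂ) : ℂ :=
  (NP P).eval (t + Hh P) / (DP P).eval (t + Hh P)

noncomputable def calL (P : Par) (B : ℂ[X]) : ℂ :=
  ∫ y : ℝ, B.eval (pt 0 y + Hh P) * rho P (pt 0 y) * K P.r (pt 0 y)

theorem rho_growth {P : Par} (hb : ∀ i, 1 ≤ P.b i) (B : ℂ[X]) : ∃ (C0 : ℝ) (N : ℕ), 0 ≤ C0 ∧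
    ∀ z : ℂ, |z.re| ≤ 1 / 2 → ‖B.eval (z + Hh P) * rho P z‖ ≤ C0 * (1 + |z.im|) ^ N := by
  obtain ⟨C0, N, hC0, hgr⟩ := poly_growth (B * NP P) (1 / 2 + |((P.h / 2 : ℕ) : ℝ)|)
  set c0 : ℝ := ∏ i : Fin P.s, ∏ _ ∈ Finset.range (P.h - 2 * P.b i + 1), (1 / 2 : ℝ) with hc0
  have hpos : 0 < c0 := by positivity
  refine ⟨C0 / c0, N, by positivity, fun z hz => ?_⟩
  unfold rho
  rw [mul_div_assoc', ← eval_mul, norm_div]
  have h1 := hgr (z + Hh P) (by
    have h2 : (z + Hh P).re = z.re + ((P.h / 2 : ℕ) : ℝ) := by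
      unfold Hh
      simp only [add_re, natCast_re]
    rw [h2]
    refine (abs_add_le _ _).trans ?_
    linarith)
  have h3 : (z + Hh P).im = z.im := by
    unfold Hh
    simp only [add_im, natCast_im, add_zero]
  rw [h3] at h1
  have h4 := DP_lower hb hz
  rw [← hc0] at h4
  calc ‖eval (z + Hh P) (B * NP P)‖ / ‖eval (z + Hh P) (DP P)‖
      ≤ (C0 * (1 + |z.im|) ^ N) / c0 := by gcongr
    _ = C0 / c0 * (1 + |z.im|) ^ N := by ring

theorem rho_cont {P : Par} (hb : ∀ i, 1 ≤ P.b i) (B : ℂ[X]) :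
    Continuous fun y : ℝ => B.eval (pt 0 y + Hh P) * rho P (pt 0 y) := by
  unfold rho
  have h1 : Continuous fun y : ℝ => pt 0 y + Hh P := (pt_continuous 0).add continuous_const
  refine ((Polynomial.continuous B).comp h1).mul
    (((Polynomial.continuous _).comp h1).div ((Polynomial.continuous _).comp h1) fun y => ?_)
  exact DP_ne_zero hb (by have := pt0_abs y; linarith)

theorem calL_integrable {P : Par} (hr : 3 ≤ P.r) (hb : ∀ i, 1 ≤ P.b i) (B : ℂ[X]) :
    Integrable fun y : ℝ => B.eval (pt 0 y + Hh P) * rho P (pt 0 y) * K P.r (pt 0 y) := by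
  obtain ⟨C0, N, _, hgr⟩ := rho_growth hb B
  refine line_integrable hr 0 (rho_cont hb B) (C := C0) (N := N) fun y => ?_
  have := hgr (pt 0 y) (pt0_abs y)
  rwa [pt0_im] at this

theorem calL_add {P : Par} (hr : 3 ≤ P.r) (hb : ∀ i, 1 ≤ P.b i) (A B : ℂ[X]) :
    calL P (A + B) = calL P A + calL P B := by
  unfold calL
  rw [← integral_add (calL_integrable hr hb A) (calL_integrable hr hb B)]
  congr 1
  ext y
  rw [eval_add]
  ring

theorem calL_C_mul (P : Par) (c : ℂ) (A : ℂ[X]) : calL P (C c * A) = c * calL P A := by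
  unfold calL
  rw [← integral_const_mul]
  congr 1
  ext y
  rw [eval_mul, eval_C]
  ring

theorem calL_sum {P : Par} (hr : 3 ≤ P.r) (hb : ∀ i, 1 ≤ P.b i) {ι : Type*} (s : Finset ι)
    (f : ι → ℂ[X]) : calL P (∑ i ∈ s, f i) = ∑ i ∈ s, calL P (f i) := by
  classical
  induction s using Finset.induction_on with
  | empty =>
    simp only [Finset.sum_empty]
    unfold calL
    simp
  | insert a s ha ih => rw [Finset.sum_insert ha, Finset.sum_insert ha, calL_add hr hb, ih]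

/-- (N1) -/
theorem Lf_eq {P : Par} (he : Even P.h) (i : ℕ) :
    Lf P i 0 = 2 * calL P (X * (X ^ 2 - C (Hh P ^ 2)) ^ i) := by
  rw [← calL_C_mul]
  unfold Lf calL rho
  congr 1
  ext y
  rw [R_eq he]
  simp only [eval_mul, eval_C, eval_X, eval_pow, eval_sub]
  rw [← two_Hh he]
  ring

theorem calL_odd_powers {P : Par} (hr : 3 ≤ P.r) (hb : ∀ i, 1 ≤ P.b i) (he : Even P.h) {d0 : ℕ}
    (h0 : ∀ i < d0, Lf P i 0 = 0) (i : ℕ) (hi : i < d0) : calL P (X ^ (2 * i + 1)) = 0 := by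
  have h1 : (X : ℂ[X]) ^ (2 * i + 1) = ∑ m ∈ Finset.range (i + 1),
      C ((Hh P ^ 2) ^ (i - m) * (i.choose m : ℂ)) * (X * (X ^ 2 - C (Hh P ^ 2)) ^ m) := by
    have h2 : (X : ℂ[X]) ^ (2 * i + 1) = X * ((X ^ 2 - C (Hh P ^ 2)) + C (Hh P ^ 2)) ^ i := by
      rw [sub_add_cancel, pow_succ, pow_mul]
      ring
    rw [h2, add_pow, Finset.mul_sum]
    apply Finset.sum_congr rfl
    intro m _
    simp only [C_mul, C_pow]
    have h3 : (C ((i.choose m : ℂ)) : ℂ[X]) = (i.choose m : ℂ[X]) := by simp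
    rw [h3]
    ring
  rw [h1, calL_sum hr hb]
  apply Finset.sum_eq_zero
  intro m hm
  rw [calL_C_mul]
  have h4 := h0 m (by have := Finset.mem_range.mp hm; omega)
  rw [Lf_eq he] at h4
  have h5 : calL P (X * (X ^ 2 - C (Hh P ^ 2)) ^ m) = 0 := by
    rcases mul_eq_zero.mp h4 with h | h
    · norm_num at h
    · exact h
  rw [h5, mul_zero]

/-- (N2) the telescoping combinations are killed. -/
theorem calL_tele {P : Par} (hr : 3 ≤ P.r) (hb : ∀ i, 1 ≤ P.b i) (he : Even P.h)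
    (hb2 : ∀ i, 2 * P.b i ≤ P.h) (A : ℂ[X]) :
    calL P (A.comp (X + 1) * Pm (cc P) (Hh P) P.r - A * Pp (cc P) (Hh P) P.r) = 0 := by
  set T : ℂ → ℂ := fun t => (A * Pp (cc P) (Hh P) P.r).eval (t + Hh P) * rho P t with hT
  set G0 : ℂ → ℂ := fun t => (A * ∏ i, (X + C (cc P i))).eval (t + Hh P) * rho P t with hG0
  have hTG : ∀ z : ℂ, |z.re - ((0 : ℤ) : ℝ)| ≤ 1 / 2 → T z = (z - ((0 : ℤ) : ℂ)) ^ P.r * G0 z := by
    intro z _
    simp only [hT, hG0, Pp, eval_mul, eval_pow, eval_sub, eval_X, eval_C, Int.cast_zero, sub_zero]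
    rw [show z + Hh P - Hh P = z by ring]
    ring
  have hdiff : DifferentiableOn ℂ G0 {z : ℂ | |z.re - ((0 : ℤ) : ℝ)| < 3 / 4} := by
    intro z hz
    apply DifferentiableAt.differentiableWithinAt
    have h1 : |z.re| < 3 / 4 := by simpa using hz
    have h2 := DP_ne_zero hb h1
    have h3 : DifferentiableAt ℂ (fun t : ℂ => t + Hh P) z := by fun_prop
    simp only [hG0, rho]
    refine DifferentiableAt.mul ?_ (DifferentiableAt.div ?_ ?_ h2)
    · exact (Polynomial.differentiableAt _).comp z h3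
    · exact (Polynomial.differentiableAt _).comp z h3
    · exact (Polynomial.differentiableAt _).comp z h3
  obtain ⟨C0, N, _, hgr⟩ := rho_growth hb (A * Pp (cc P) (Hh P) P.r)
  have hgr' : ∀ z : ℂ, |z.re - ((0 : ℤ) : ℝ)| ≤ 1 / 2 → ‖T z‖ ≤ C0 * (1 + |z.im|) ^ N := by
    intro z hz
    exact hgr z (by simpa using hz)
  have hx1 : |(-(1 / 2) : ℝ) - ((0 : ℤ) : ℝ)| ≤ 1 / 2 := by norm_num [abs_of_pos]
  have hx2 : |(1 / 2 : ℝ) - ((0 : ℤ) : ℝ)| ≤ 1 / 2 := by norm_num [abs_of_pos]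
  have hsh := shift hr 0 hx1 hx2 hdiff hTG hgr'
  have hi1 := shift_integrable hr 0 hx1 hdiff hTG hgr'
  have hi2 := shift_integrable hr 0 hx2 hdiff hTG hgr'
  have e1 : ∀ y : ℝ, ((-(1 / 2) : ℝ) : ℂ) + y * I = pt 0 y := by
    intro y; unfold pt; push_cast; ring
  have e2 : ∀ y : ℝ, ((1 / 2 : ℝ) : ℂ) + y * I = pt 0 y + 1 := by
    intro y; unfold pt; push_cast; ring
  simp_rw [e1, e2, K_add_one] at hsh hi1 hi2
  have key : ∀ y : ℝ, (A.comp (X + 1) * Pm (cc P) (Hh P) P.r - A * Pp (cc P) (Hh P) P.r).eval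
      (pt 0 y + Hh P) * rho P (pt 0 y) * K P.r (pt 0 y) =
      T (pt 0 y + 1) * K P.r (pt 0 y) - T (pt 0 y) * K P.r (pt 0 y) := by
    intro y
    have hf := congrArg (Polynomial.eval (pt 0 y + Hh P)) (hfe P he hb2)
    simp only [eval_mul, eval_comp, eval_add, eval_X, eval_one] at hf
    have hd1 : (DP P).eval (pt 0 y + Hh P) ≠ 0 := DP_ne_zero hb (by have := pt0_abs y; linarith)
    have hd2 : (DP P).eval (pt 0 y + Hh P + 1) ≠ 0 := by
      have h1 := DP_ne_zero hb (t := pt 0 y + 1) (by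
        rw [add_re, pt0_re, one_re]
        norm_num [abs_of_pos])
      rwa [show pt 0 y + 1 + Hh P = pt 0 y + Hh P + 1 by ring] at h1
    simp only [hT, rho, eval_mul, eval_sub, eval_comp, eval_add, eval_X, eval_one]
    rw [show pt 0 y + 1 + Hh P = pt 0 y + Hh P + 1 by ring]
    have h3 : (Pp (cc P) (Hh P) P.r).eval (pt 0 y + Hh P + 1) *
        ((NP P).eval (pt 0 y + Hh P + 1) / (DP P).eval (pt 0 y + Hh P + 1)) =
        (Pm (cc P) (Hh P) P.r).eval (pt 0 y + Hh P) *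
        ((NP P).eval (pt 0 y + Hh P) / (DP P).eval (pt 0 y + Hh P)) := by
      rw [mul_div_assoc', mul_div_assoc', div_eq_div_iff hd2 hd1]
      linear_combination hf
    linear_combination (-(A.eval (pt 0 y + Hh P + 1)) * K P.r (pt 0 y)) * h3
  unfold calL
  simp_rw [key]
  rw [integral_sub hi2 hi1, ← hsh, sub_self]

/-- TASK N: one of the linear forms does not vanish. -/
theorem nonvan (P : Par) {a0 b0 : ℕ} (hP : Good P a0 b0) (d0 astar : ℕ)
    (hd0 : 2 * (d0 + 1) = 2 * P.r + P.s)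
    (hastar : P.s * (P.h / 2) = (∑ j, (P.a j + 1)) + (∑ i, P.b i) + astar) :
    ∃ i < d0, Lf P i 0 ≠ 0 := by
  by_contra hcon
  push Not at hcon
  have hr := hP.r3
  have he := hP.heven
  have hb0 : 1 ≤ b0 := by
    have := hP.alt ⟨0, by omega⟩
    omega
  have hb : ∀ i, 1 ≤ P.b i := fun i => hb0.trans (hP.b0le i)
  have hb2 := hP.b2
  obtain ⟨i0, hi0⟩ := hP.b0mem
  have hb0h : b0 ≤ P.h / 2 := by
    have := hb2 i0
    omega
  have ha : ∀ j, P.a j < P.h / 2 := fun j => by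
    have := hP.alt j
    omega
  have hh : 0 < P.h / 2 := by omega
  -- the hypotheses of `tele`
  have hq : Fintype.card (Fin P.r ⊕ Fin P.s) + P.r = 2 * (d0 + 1) := by
    rw [Fintype.card_sum, Fintype.card_fin, Fintype.card_fin]
    omega
  have hk : ∑ i, cc P i - P.r * Hh P = astar := by
    have h1 : (P.s : ℂ) * Hh P = (∑ j, ((P.a j : ℂ) + 1)) + (∑ i, (P.b i : ℂ)) + astar := by
      unfold Hh
      exact_mod_cast hastar
    unfold cc
    rw [Fintype.sum_sum_type]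
    simp only [Sum.elim_inl, Sum.elim_inr, Finset.sum_sub_distrib, Finset.sum_const,
      Finset.card_univ, Fintype.card_fin, nsmul_eq_mul, Finset.sum_add_distrib] at h1 ⊢
    linear_combination h1
  have hdeg : (DP P).natDegree = (NP P).natDegree + 2 * (astar + d0) + 2 := by
    rw [DP_natDegree, NP_natDegree]
    have h1 : ∑ i, (P.h - 2 * P.b i + 1) + ∑ i, 2 * P.b i = P.s * (P.h + 1) := by
      rw [← Finset.sum_add_distrib]
      have h2 : ∀ i : Fin P.s, P.h - 2 * P.b i + 1 + 2 * P.b i = P.h + 1 := fun i => by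
        have := hb2 i
        omega
      simp [h2]
    have h3 : P.s * (P.h + 1) = 2 * (P.s * (P.h / 2)) + P.s := by
      have h4 : 2 * (P.h / 2) = P.h := Nat.two_mul_div_two_of_even he
      calc P.s * (P.h + 1) = P.s * (2 * (P.h / 2) + 1) := by rw [h4]
        _ = _ := by ring
    rw [Finset.sum_add_distrib, Finset.sum_const, Finset.card_univ, Fintype.card_fin,
      smul_eq_mul, mul_one] at hastar
    rw [← Finset.mul_sum] at h1 ⊢
    omega
  have hBQ : NP P * BP P = DP P * QP P := by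
    unfold BP QP
    ring
  obtain ⟨A, w, hAw⟩ := tele (cc P) (Hh P) P.r d0 astar hq hk (NP P) (DP P) (NP_ne_zero P)
    (DP_monic P).ne_zero hdeg (hfe P he hb2) (BP P) (QP P)
    (BP_odd he hP.seven hP.rodd hb2) hBQ
  have h1 : calL P (BP P) = 0 := by
    rw [hAw, calL_add hr hb, calL_tele hr hb he hb2, zero_add, calL_sum hr hb]
    apply Finset.sum_eq_zero
    intro i hi
    rw [calL_C_mul, calL_odd_powers hr hb he hcon i (Finset.mem_range.mp hi), mul_zero]
  have h2 : calL P (BP P) = ∫ y : ℝ, (QP P).eval (pt 0 y + Hh P) * K P.r (pt 0 y) := by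
    unfold calL
    congr 1
    ext y
    congr 1
    have hd1 : (DP P).eval (pt 0 y + Hh P) ≠ 0 := DP_ne_zero hb (by have := pt0_abs y; linarith)
    have h3 := congrArg (Polynomial.eval (pt 0 y + Hh P)) hBQ
    rw [eval_mul, eval_mul] at h3
    unfold rho
    rw [mul_div_assoc', div_eq_iff hd1]
    linear_combination h3
  exact QP_int_ne hr hP.rodd ha hh (h2 ▸ h1)

end ZetaSets
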