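import Pool.Agent.Work.MP_4f096c_nt.GNonVan
import Pool.Agent.Work.MP_4f096c_nt.Tele

namespace ZetaSets
open Complex MeasureTheory Polynomial
open scoped Nat

/-! ### periodicity of the kernel -/

/-! ### growth of polynomials -/

/-! ### numerator and denominator in the variable `u = t + h / 2` -/

/-- half of `h` -/
noncomputable def Hh (P : Par) : ℂ := ((P.h / 2 : ℕ) : ℂ)

noncomputable def cst (P : Par) : ℂ :=
  (∏ j, (((P.a j)! : ℂ) ^ 2)⁻¹) * ∏ i, (((P.h - 2 * P.b i)! : ℕ) : ℂ)

noncomputable def NP0 (P : Par) : ℂ[X] :=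
  ∏ j, ∏ l ∈ Finset.range (P.a j), ((X - C (Hh P - (l + 1))) * (X + C (Hh P - (l + 1))))

noncomputable def NP (P : Par) : ℂ[X] := C (cst P) * NP0 P

noncomputable def DP (P : Par) : ℂ[X] :=
  ∏ i, ∏ l ∈ Finset.range (P.h - 2 * P.b i + 1), (X + C ((P.b i : ℂ) + l - Hh P))

theorem cst_ne_zero (P : Par) : cst P ≠ 0 := by
  unfold cst
  apply mul_ne_zero
  · apply Finset.prod_ne_zero_iff.mpr
    intro j _
    have : ((P.a j)! : ℂ) ≠ 0 := by exact_mod_cast Nat.factorial_ne_zero _
    exact inv_ne_zero (pow_ne_zero _ this)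
  · apply Finset.prod_ne_zero_iff.mpr
    intro i _
    exact_mod_cast Nat.factorial_ne_zero _

theorem two_Hh {P : Par} (he : Even P.h) : 2 * Hh P = P.h := by
  unfold Hh
  have : 2 * (P.h / 2) = P.h := Nat.two_mul_div_two_of_even he
  exact_mod_cast this

theorem R_eq {P : Par} (he : Even P.h) (t : ℂ) :
    R P t = (2 * (t + Hh P)) * ((NP P).eval (t + Hh P) / (DP P).eval (t + Hh P)) := by
  unfold R NP NP0 DP cst
  have hh := two_Hh he
  rw [eval_mul, eval_C, eval_prod, eval_prod]
  simp_rw [eval_prod, eval_mul, eval_sub, eval_add, eval_X, eval_C]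
  have h1 : ∀ j : Fin P.r, ((∏ l ∈ Finset.range (P.a j), (t + ((l : ℂ) + 1))) *
      (∏ l ∈ Finset.range (P.a j), (t + P.h - ((l : ℂ) + 1)))) / (((P.a j)! : ℂ) ^ 2) =
      (((P.a j)! : ℂ) ^ 2)⁻¹ * ∏ l ∈ Finset.range (P.a j),
        ((t + Hh P - (Hh P - ((l : ℂ) + 1))) * (t + Hh P + (Hh P - ((l : ℂ) + 1)))) := by
    intro j
    rw [← Finset.prod_mul_distrib, div_eq_mul_inv, mul_comm]
    congr 1
    apply Finset.prod_congr rfl
    intro l _
    rw [← hh]
    ring
  have h2 : ∀ i : Fin P.s, ∏ l ∈ Finset.range (P.h - 2 * P.b i + 1), (t + P.b i + (l : ℂ)) =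
      ∏ l ∈ Finset.range (P.h - 2 * P.b i + 1), (t + Hh P + ((P.b i : ℂ) + l - Hh P)) := by
    intro i
    apply Finset.prod_congr rfl
    intro l _
    ring
  simp_rw [h1, h2]
  rw [Finset.prod_mul_distrib, Finset.prod_div_distrib, ← hh]
  ring

theorem DP_eval (P : Par) (t : ℂ) : (DP P).eval (t + Hh P) =
    ∏ i, ∏ l ∈ Finset.range (P.h - 2 * P.b i + 1), (t + P.b i + l) := by
  unfold DP
  rw [eval_prod]
  simp_rw [eval_prod, eval_add, eval_X, eval_C]
  apply Finset.prod_congr rfl
  intro i _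
  apply Finset.prod_congr rfl
  intro l _
  ring

theorem DP_ne_zero {P : Par} (hb : ∀ i, 1 ≤ P.b i) {t : ℂ} (ht : |t.re| < 3 / 4) :
    (DP P).eval (t + Hh P) ≠ 0 := by
  rw [DP_eval]
  apply Finset.prod_ne_zero_iff.mpr
  intro i _
  apply Finset.prod_ne_zero_iff.mpr
  intro l _ h
  have := factor_lower (l := l) (hb i) (ε := 1 / 4) (t := t) (by linarith)
  rw [h, norm_zero] at this
  norm_num at this

theorem DP_lower {P : Par} (hb : ∀ i, 1 ≤ P.b i) {t : ℂ} (ht : |t.re| ≤ 1 / 2) :
    ∏ i, ∏ _ ∈ Finset.range (P.h - 2 * P.b i + 1), (1 / 2 : ℝ) ≤ ‖(DP P).eval (t + Hh P)‖ := by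
  rw [DP_eval, norm_prod]
  apply Finset.prod_le_prod (fun i _ => by positivity)
  intro i _
  rw [norm_prod]
  apply Finset.prod_le_prod (fun i _ => by positivity)
  intro l _
  exact factor_lower (hb i) (ε := 1 / 2) (by linarith)

theorem DP_monic (P : Par) : (DP P).Monic := by
  unfold DP
  apply monic_prod_of_monic
  intro i _
  apply monic_prod_of_monic
  intro l _
  exact monic_X_add_C _

theorem DP_natDegree (P : Par) : (DP P).natDegree = ∑ i, (P.h - 2 * P.b i + 1) := by
  unfold DP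
  rw [natDegree_prod_of_monic]
  · apply Finset.sum_congr rfl
    intro i _
    rw [natDegree_prod_of_monic]
    · simp only [natDegree_X_add_C, Finset.sum_const, Finset.card_range, smul_eq_mul, mul_one]
    · intro l _
      exact monic_X_add_C _
  · intro i _
    apply monic_prod_of_monic
    intro l _
    exact monic_X_add_C _

theorem NP0_monic (P : Par) : (NP0 P).Monic := by
  unfold NP0
  apply monic_prod_of_monic
  intro i _
  apply monic_prod_of_monic
  intro l _
  exact (monic_X_sub_C _).mul (monic_X_add_C _)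

theorem NP0_natDegree (P : Par) : (NP0 P).natDegree = ∑ j, 2 * P.a j := by
  unfold NP0
  rw [natDegree_prod_of_monic]
  · apply Finset.sum_congr rfl
    intro i _
    rw [natDegree_prod_of_monic]
    · have h : ∀ l : ℕ, ((X - C (Hh P - ((l : ℂ) + 1))) * (X + C (Hh P - (l + 1)))).natDegree
          = 2 := by
        intro l
        rw [(monic_X_sub_C _).natDegree_mul (monic_X_add_C _), natDegree_X_sub_C,
          natDegree_X_add_C]
      simp_rw [h]
      simp [mul_comm]
    · intro l _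
      exact (monic_X_sub_C _).mul (monic_X_add_C _)
  · intro i _
    apply monic_prod_of_monic
    intro l _
    exact (monic_X_sub_C _).mul (monic_X_add_C _)

theorem NP_natDegree (P : Par) : (NP P).natDegree = ∑ j, 2 * P.a j := by
  unfold NP
  rw [natDegree_C_mul (cst_ne_zero P), NP0_natDegree]

theorem NP_ne_zero (P : Par) : NP P ≠ 0 := by
  unfold NP
  exact mul_ne_zero (C_ne_zero.mpr (cst_ne_zero P)) (NP0_monic P).ne_zero

/-! ### the functional equation -/

/-- the shifts `c` of `tele` -/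
noncomputable def cc (P : Par) : Fin P.r ⊕ Fin P.s → ℂ :=
  Sum.elim (fun j => Hh P - P.a j - 1) (fun i => Hh P - P.b i)

theorem hfe (P : Par) (he : Even P.h) (hb2 : ∀ i, 2 * P.b i ≤ P.h) :
    (NP P).comp (X + 1) * (Pp (cc P) (Hh P) P.r).comp (X + 1) * DP P =
      NP P * Pm (cc P) (Hh P) P.r * (DP P).comp (X + 1) := by
  apply Polynomial.funext
  intro x
  simp only [eval_mul, eval_comp, eval_add, eval_X, eval_one]
  unfold NP NP0 Pp Pm DP cc
  simp only [eval_mul, eval_C, eval_prod, eval_sub, eval_add, eval_X, eval_pow,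
    Fintype.prod_sum_type, Sum.elim_inl, Sum.elim_inr]
  have hj : ∀ j : Fin P.r, _ := fun j => block_j x (Hh P) (P.a j)
  have hi : ∀ i : Fin P.s, _ := fun i => block_i x (Hh P) (P.b i) (P.h - 2 * P.b i) (by
    rw [Nat.cast_sub (hb2 i), ← two_Hh he]
    push_cast
    ring)
  have hJ := Finset.prod_congr (rfl : (Finset.univ : Finset (Fin P.r)) = Finset.univ)
    (fun j _ => hj j)
  have hI := Finset.prod_congr (rfl : (Finset.univ : Finset (Fin P.s)) = Finset.univ)
    (fun i _ => hi i)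
  rw [Finset.prod_mul_distrib, Finset.prod_mul_distrib, Finset.prod_mul_distrib,
    Finset.prod_mul_distrib, Finset.prod_const, Finset.prod_const, Finset.card_univ,
    Fintype.card_fin] at hJ
  rw [Finset.prod_mul_distrib, Finset.prod_mul_distrib] at hI
  linear_combination (exp := 1) (cst P) * (∏ i : Fin P.s, ∏ l ∈ Finset.range (P.h - 2 * P.b i + 1),
    (x + ((P.b i : ℂ) + l - Hh P))) * (∏ i : Fin P.s, (x + 1 + (Hh P - P.b i))) * hJ +
    (cst P) * ((∏ j : Fin P.r, ∏ l ∈ Finset.range (P.a j),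
      ((x - (Hh P - ((l : ℂ) + 1))) * (x + (Hh P - (l + 1))))) *
      (∏ j : Fin P.r, (x - (Hh P - P.a j - 1))) * (x + Hh P) ^ P.r) * hI

end ZetaSets
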