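import Pool.Agent.Work.MP_4f096c_nt.NonVanA

namespace ZetaSets
open Complex MeasureTheory Polynomial
open scoped Nat

/-! ### the auxiliary polynomials -/

theorem DP_even {P : Par} (he : Even P.h) (hs : Even P.s) (hb2 : ∀ i, 2 * P.b i ≤ P.h) :
    (DP P).comp (-X) = DP P := by
  apply Polynomial.funext
  intro x
  simp only [eval_comp, eval_neg, eval_X]
  unfold DP
  simp only [eval_prod, eval_add, eval_X, eval_C]
  have key : ∀ i : Fin P.s, ∏ l ∈ Finset.range (P.h - 2 * P.b i + 1),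
      (-x + ((P.b i : ℂ) + l - Hh P)) =
      -1 * ∏ l ∈ Finset.range (P.h - 2 * P.b i + 1), (x + ((P.b i : ℂ) + l - Hh P)) := by
    intro i
    have hn : ((P.h - 2 * P.b i : ℕ) : ℂ) = 2 * Hh P - 2 * P.b i := by
      rw [Nat.cast_sub (hb2 i), ← two_Hh he]
      push_cast
      ring
    have hodd : Odd (P.h - 2 * P.b i + 1) := by
      obtain ⟨k, hk⟩ := he
      exact ⟨k - P.b i, by have := hb2 i; omega⟩
    rw [← Finset.prod_range_reflect]
    have h1 : ∀ l ∈ Finset.range (P.h - 2 * P.b i + 1),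
        (-x + ((P.b i : ℂ) + ((P.h - 2 * P.b i + 1 - 1 - l : ℕ) : ℂ) - Hh P)) =
        (-1) * (x + ((P.b i : ℂ) + l - Hh P)) := by
      intro l hl
      have hl' : l ≤ P.h - 2 * P.b i := by
        have := Finset.mem_range.mp hl
        omega
      rw [show P.h - 2 * P.b i + 1 - 1 - l = (P.h - 2 * P.b i) - l by omega, Nat.cast_sub hl', hn]
      ring
    rw [Finset.prod_congr rfl h1, Finset.prod_mul_distrib, Finset.prod_const, Finset.card_range,
      hodd.neg_one_pow]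
  rw [Finset.prod_congr rfl fun i _ => key i, Finset.prod_mul_distrib, Finset.prod_const,
    Finset.card_univ, Fintype.card_fin, hs.neg_one_pow, one_mul]

/-- the missing factors -/
noncomputable def EP (P : Par) : ℂ[X] :=
  ∏ j, ∏ l ∈ Finset.range (P.h / 2 - P.a j - 1), (X ^ 2 - C (((l : ℂ) + 1) ^ 2))

/-- product of all `u^2 - l^2`, `0 < l < h/2` -/
noncomputable def FP (P : Par) : ℂ[X] :=
  ∏ l ∈ Finset.range (P.h / 2 - 1), (X ^ 2 - C (((l : ℂ) + 1) ^ 2))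

noncomputable def BP (P : Par) : ℂ[X] := DP P * X ^ (P.r + 2) * EP P

noncomputable def QP (P : Par) : ℂ[X] := NP P * X ^ (P.r + 2) * EP P

theorem EP_even (P : Par) : (EP P).comp (-X) = EP P := by
  unfold EP
  simp [Polynomial.prod_comp]

theorem BP_odd {P : Par} (he : Even P.h) (hs : Even P.s) (hr : Odd P.r)
    (hb2 : ∀ i, 2 * P.b i ≤ P.h) : (BP P).comp (-X) = -BP P := by
  unfold BP
  have h : Odd (P.r + 2) := by
    obtain ⟨k, hk⟩ := hr
    exact ⟨k + 1, by omega⟩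
  rw [mul_comp, mul_comp, EP_even, DP_even he hs hb2, pow_comp, X_comp, h.neg_pow]
  ring

theorem QP_eq {P : Par} (ha : ∀ j, P.a j < P.h / 2) :
    QP P = C (cst P) * X ^ (P.r + 2) * (FP P) ^ P.r := by
  have key : ∀ j : Fin P.r, (∏ l ∈ Finset.range (P.a j),
      ((X - C (Hh P - ((l : ℂ) + 1))) * (X + C (Hh P - (l + 1))))) *
      (∏ l ∈ Finset.range (P.h / 2 - P.a j - 1), (X ^ 2 - C (((l : ℂ) + 1) ^ 2))) = FP P := by
    intro j
    unfold FP
    have h1 : P.h / 2 - 1 = (P.h / 2 - P.a j - 1) + P.a j := by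
      have := ha j
      omega
    rw [h1, Finset.prod_range_add, mul_comm, ← Finset.prod_range_reflect (fun l =>
      (X ^ 2 - C (((((P.h / 2 - P.a j - 1 + l : ℕ)) : ℂ) + 1) ^ 2) : ℂ[X]))]
    congr 1
    apply Finset.prod_congr rfl
    intro l hl
    have hl' : l < P.a j := Finset.mem_range.mp hl
    have h2 : (((P.h / 2 - P.a j - 1 + (P.a j - 1 - l) : ℕ)) : ℂ) + 1 = Hh P - (l + 1) := by
      unfold Hh
      have h3 : P.h / 2 - P.a j - 1 + (P.a j - 1 - l) + 1 + (l + 1) = P.h / 2 := by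
        have := ha j
        omega
      have h5 : (((P.h / 2 - P.a j - 1 + (P.a j - 1 - l) : ℕ)) : ℂ) + 1 + ((l : ℂ) + 1) =
          ((P.h / 2 : ℕ) : ℂ) := by exact_mod_cast h3
      linear_combination h5
    rw [h2, C_pow]
    ring
  unfold QP NP NP0 EP
  have h4 : (∏ j : Fin P.r, ∏ l ∈ Finset.range (P.a j),
      ((X - C (Hh P - ((l : ℂ) + 1))) * (X + C (Hh P - (l + 1))))) *
      (∏ j : Fin P.r, ∏ l ∈ Finset.range (P.h / 2 - P.a j - 1),
        (X ^ 2 - C (((l : ℂ) + 1) ^ 2))) = (FP P) ^ P.r := by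
    rw [← Finset.prod_mul_distrib, Finset.prod_congr rfl fun j _ => key j, Finset.prod_const,
      Finset.card_univ, Fintype.card_fin]
  rw [← h4]
  ring

theorem FP_dvd {P : Par} {l : ℕ} (hl : l < P.h / 2 - 1) :
    (X - C ((l : ℂ) + 1)) ∣ FP P := by
  unfold FP
  refine dvd_trans ⟨X + C ((l : ℂ) + 1), ?_⟩
    (Finset.dvd_prod_of_mem _ (Finset.mem_range.mpr hl))
  rw [C_pow]
  ring

theorem QP_dvd {P : Par} (ha : ∀ j, P.a j < P.h / 2) {l : ℕ} (hl : l < P.h / 2) :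
    (X - C (l : ℂ)) ^ P.r ∣ QP P := by
  rw [QP_eq ha]
  rcases Nat.eq_zero_or_pos l with rfl | hpos
  · apply Dvd.dvd.mul_right
    apply Dvd.dvd.mul_left
    simp only [Nat.cast_zero, map_zero, sub_zero]
    exact pow_dvd_pow _ (by omega)
  · obtain ⟨m, rfl⟩ : ∃ m, l = m + 1 := ⟨l - 1, by omega⟩
    apply Dvd.dvd.mul_left
    push_cast
    exact pow_dvd_pow_of_dvd (FP_dvd (by omega)) _

/-! ### shifting the line for a polynomial -/

/-- (N4), first part: from the line number `0` to the symmetric line. -/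
theorem QP_lines {P : Par} (hr : 3 ≤ P.r) (ha : ∀ j, P.a j < P.h / 2)
    (m : ℕ) (hm : m < P.h / 2) :
    ∫ y : ℝ, (QP P).eval (pt 0 y + Hh P) * K P.r (pt 0 y) =
      ∫ y : ℝ, (QP P).eval (pt m y + Hh P) * K P.r (pt m y) := by
  induction m with
  | zero => rfl
  | succ m ih =>
    rw [ih (by omega)]
    have h1 := shiftPoly hr (P.h / 2) (-((m : ℤ) + 1)) (x1 := -((m : ℝ) + 1 / 2))
      (x2 := -(((m + 1 : ℕ) : ℝ) + 1 / 2)) (Q := QP P)
      (by push_cast; norm_num [abs_of_pos]) (by push_cast; norm_num [abs_of_neg])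
      (by
        have h2 := QP_dvd ha (l := P.h / 2 - (m + 1)) (by omega)
        rw [Nat.cast_sub hm.le] at h2
        convert h2 using 4
        push_cast
        ring)
    have e1 : ∀ y : ℝ, ((-((m : ℝ) + 1 / 2) : ℝ) : ℂ) + y * I = pt m y := by
      intro y; unfold pt; push_cast; ring
    have e2 : ∀ y : ℝ, ((-(((m + 1 : ℕ) : ℝ) + 1 / 2) : ℝ) : ℂ) + y * I = pt (m + 1) y := by
      intro y; unfold pt; push_cast; ring
    simp_rw [e1, e2] at h1
    exact h1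

theorem QP_int_ne {P : Par} (hr : 3 ≤ P.r) (hodd : Odd P.r) (ha : ∀ j, P.a j < P.h / 2)
    (hh : 0 < P.h / 2) :
    ∫ y : ℝ, (QP P).eval (pt 0 y + Hh P) * K P.r (pt 0 y) ≠ 0 := by
  rw [QP_lines hr ha (P.h / 2 - 1) (by omega)]
  have h1 := shiftPoly hr (P.h / 2) (-((P.h / 2 : ℕ) : ℤ))
    (x1 := -(((P.h / 2 - 1 : ℕ) : ℝ) + 1 / 2))
    (x2 := -((P.h / 2 : ℕ) : ℝ)) (Q := QP P)
    (by
      have : ((P.h / 2 - 1 : ℕ) : ℝ) = ((P.h / 2 : ℕ) : ℝ) - 1 := by
        rw [Nat.cast_sub (by omega)]; simp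
      rw [this, Int.cast_neg, Int.cast_natCast]
      rw [show -(((P.h / 2 : ℕ) : ℝ) - 1 + 1 / 2) - -((P.h / 2 : ℕ) : ℝ) = 1 / 2 by ring]
      norm_num [abs_of_pos])
    (by
      rw [Int.cast_neg, Int.cast_natCast, sub_self]
      norm_num)
    (by
      have h2 := QP_dvd ha (l := 0) (by omega)
      rw [Int.cast_neg, Int.cast_natCast, neg_add_cancel]
      simpa using h2)
  have e1 : ∀ y : ℝ, ((-(((P.h / 2 - 1 : ℕ) : ℝ) + 1 / 2) : ℝ) : ℂ) + y * I =
      pt (P.h / 2 - 1) y := by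
    intro y; unfold pt; push_cast; ring
  simp_rw [e1] at h1
  have h1' : ∫ y : ℝ, (QP P).eval (pt (P.h / 2 - 1) y + Hh P) * K P.r (pt (P.h / 2 - 1) y) = _ :=
    h1
  rw [h1']
  -- the integrand on the symmetric line
  set Qr : ℝ → ℝ := fun y => ∏ l ∈ Finset.range (P.h / 2 - 1), (y ^ 2 + ((l : ℝ) + 1) ^ 2) ^ P.r
    with hQr
  set κ : ℂ := cst P * I ^ (P.r + 2) * ((-1) ^ (P.h / 2 - 1)) ^ P.r with hκ
  have hκ0 : κ ≠ 0 := by
    apply mul_ne_zero (mul_ne_zero (cst_ne_zero P) (pow_ne_zero _ I_ne_zero))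
    exact pow_ne_zero _ (pow_ne_zero _ (by norm_num))
  have e2 : ∀ y : ℝ, (QP P).eval (((-((P.h / 2 : ℕ) : ℝ) : ℝ) : ℂ) + y * I + ((P.h / 2 : ℕ) : ℂ)) *
      K P.r (((-((P.h / 2 : ℕ) : ℝ) : ℝ) : ℂ) + y * I) =
      κ * (((y : ℂ) ^ (P.r + 2) * (Qr y : ℂ)) * K P.r (y * I)) := by
    intro y
    have h3 : (((-((P.h / 2 : ℕ) : ℝ) : ℝ) : ℂ) + y * I) = -(((P.h / 2 : ℕ) : ℕ) : ℂ) + y * I := by
      push_cast; ring
    rw [h3, K_neg_nat_add, show -(((P.h / 2 : ℕ) : ℕ) : ℂ) + y * I + ((P.h / 2 : ℕ) : ℂ) = y * I by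
      ring, QP_eq ha]
    simp only [eval_mul, eval_C, eval_pow, eval_X, FP, eval_prod, eval_sub]
    have h4 : ∏ l ∈ Finset.range (P.h / 2 - 1), (((y : ℂ) * I) ^ 2 - ((l : ℂ) + 1) ^ 2) =
        (-1) ^ (P.h / 2 - 1) * ∏ l ∈ Finset.range (P.h / 2 - 1),
          ((y : ℂ) ^ 2 + ((l : ℂ) + 1) ^ 2) := by
      rw [← Finset.card_range (P.h / 2 - 1), ← Finset.prod_const, Finset.card_range,
        ← Finset.prod_mul_distrib]
      apply Finset.prod_congr rfl
      intro l _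
      rw [mul_pow, I_sq]
      ring
    rw [h4, hκ, hQr]
    push_cast
    rw [Finset.prod_pow, mul_pow, mul_pow]
    ring
  simp_rw [e2]
  rw [integral_const_mul]
  apply mul_ne_zero hκ0
  -- growth of Qr
  obtain ⟨C0, N, hC0, hgr⟩ := poly_growth ((FP P) ^ P.r) 0
  refine pos_int hr hodd (Q := Qr) (by fun_prop) (fun y => ?_) (fun y => ?_) (C := C0) (N := N)
    (fun y => ?_)
  · simp only [hQr]
    positivity
  · simp only [hQr, neg_sq]
  · have h5 := hgr ((y : ℂ) * I) (by simp)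
    have h6 : ((y : ℂ) * I).im = y := by simp
    rw [h6] at h5
    refine le_trans (le_of_eq ?_) h5
    rw [eval_pow, norm_pow]
    simp only [FP, eval_prod, eval_sub, eval_pow, eval_X, eval_C, norm_prod]
    rw [hQr, ← Finset.prod_pow]
    apply Finset.prod_congr rfl
    intro l _
    congr 1
    have h7 : ((y : ℂ) * I) ^ 2 - ((l : ℂ) + 1) ^ 2 = -(((y ^ 2 + ((l : ℝ) + 1) ^ 2 : ℝ)) : ℂ) := by
      rw [mul_pow, I_sq]
      push_cast
      ring
    rw [h7, norm_neg, Complex.norm_real, Real.norm_eq_abs, abs_of_pos (by positivity)]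

end ZetaSets
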