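import Pool.Agent.Work.MP_4f096c_nt.Fams
import Pool.Agent.Work.MP_4f096c_nt.Bound
import Pool.Agent.Work.MP_4f096c_nt.GNum

/-!
Certified numerical evaluation of the rate function for families given by lists (TASK C).
-/

namespace ZetaSets

open Real Finset Set

/-! ### Taylor bounds for `arctan` -/

theorem arctan_flip {c Y : ℝ} (hc : 0 < c) (hY : 0 < Y) :
    Real.arctan (c / Y) = Real.pi / 2 - Real.arctan (Y / c) := by
  rw [← Real.arctan_inv_of_pos (by positivity), inv_div]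

/-! ### Slopes of list families -/

/-- `(card A) pi/2 - slopeA` is at least this -/
def SA (η : ℕ) (Y : ℚ) (A : List (ℕ × ℕ)) : ℚ :=
  (A.map fun a => (a.2 : ℚ) * (aL (Y / a.1) + aL (Y / η) - aU (Y / ((η : ℚ) - a.1)))).sum

/-- `- slopeB` is at least this -/
def SB (η : ℕ) (Y : ℚ) (B : List (ℕ × ℕ)) : ℚ :=
  (B.map fun b => (b.2 : ℚ) * (aL (Y / b.1) - aU (Y / ((η : ℚ) - b.1)))).sum

/-- `slopeA` is at most this (used for large `Y`) -/
def TA (η : ℕ) (Y : ℚ) (A : List (ℕ × ℕ)) : ℚ :=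
  (A.map fun a => (a.2 : ℚ) * (aU (a.1 / Y) - aL (Y / η) + aU (Y / ((η : ℚ) - a.1)))).sum

/-- `slopeB + (card B) pi/2` on `[Y1, Y2]` is at most this -/
def TB (η : ℕ) (Y1 Y2 : ℚ) (B : List (ℕ × ℕ)) : ℚ :=
  (B.map fun b => (b.2 : ℚ) * (aU (b.1 / Y1) + aU (Y2 / ((η : ℚ) - b.1)))).sum

/-- number of entries -/
def cnt (A : List (ℕ × ℕ)) : ℕ := (A.map fun a => a.2).sum

theorem cast_list_sum (A : List (ℕ × ℕ)) (f : ℕ × ℕ → ℚ) :
    (((A.map f).sum : ℚ) : ℝ) = (A.map fun a => ((f a : ℚ) : ℝ)).sum := by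
  induction A with
  | nil => simp
  | cons a A ih => simp [ih]

theorem cnt_mul (A : List (ℕ × ℕ)) (x : ℝ) :
    (cnt A : ℝ) * x = (A.map fun a => (a.2 : ℝ) * x).sum := by
  unfold cnt
  induction A with
  | nil => simp
  | cons a A ih =>
    simp only [List.map_cons, List.sum_cons]
    rw [Nat.cast_add, add_mul, ih]

theorem list_le (A : List (ℕ × ℕ)) {f g h : ℕ × ℕ → ℝ} (H : ∀ a ∈ A, f a + h a ≤ g a) :
    (A.map f).sum + (A.map h).sum ≤ (A.map g).sum := by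
  induction A with
  | nil => simp
  | cons a A ih =>
    simp only [List.map_cons, List.sum_cons]
    have h1 := H a (by simp)
    have h2 := ih fun b hb => H b (by simp [hb])
    linarith

theorem slopeA_famOf (η : ℕ) (A B : List (ℕ × ℕ)) (Y : ℝ) :
    (famOf η (ex A) (ex B)).slopeA Y = (A.map fun a => (a.2 : ℝ) *
      (Real.arctan (a.1 / Y) + Real.arctan (η / Y) - Real.arctan (((η : ℝ) - a.1) / Y))).sum := by
  unfold Fam.slopeA
  have h := famOf_sum_α η A B (fun c : ℕ =>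
    (Real.arctan (c / Y) + Real.arctan (η / Y) - Real.arctan (((η : ℝ) - c) / Y)))
  simp only [nsmul_eq_mul] at h
  exact h

theorem slopeB_famOf (η : ℕ) (A B : List (ℕ × ℕ)) (Y : ℝ) :
    (famOf η (ex A) (ex B)).slopeB Y = (B.map fun b => (b.2 : ℝ) *
      (Real.arctan (b.1 / Y) - Real.arctan (((η : ℝ) - b.1) / Y))).sum := by
  unfold Fam.slopeB
  have h := famOf_sum_β η A B (fun c : ℕ =>
    (Real.arctan (c / Y) - Real.arctan (((η : ℝ) - c) / Y)))
  simp only [nsmul_eq_mul] at h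
  exact h

/-- the standing assumption on one entry -/
structure Ent (η c : ℕ) : Prop where
  pos : 0 < c
  two : 2 * c < η

theorem Ent.real {η c : ℕ} (h : Ent η c) : (0 : ℝ) < c ∧ (0 : ℝ) < η ∧ (0 : ℝ) < (η : ℝ) - c := by
  have h1 : (0 : ℝ) < c := by exact_mod_cast h.pos
  have h2 : (2 : ℝ) * c < η := by exact_mod_cast h.two
  exact ⟨h1, by linarith, by linarith⟩

theorem Ent.rat {η c : ℕ} (h : Ent η c) : (0 : ℚ) < c ∧ (0 : ℚ) < η ∧ (0 : ℚ) < (η : ℚ) - c := by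
  have h1 : (0 : ℚ) < c := by exact_mod_cast h.pos
  have h2 : (2 : ℚ) * c < η := by exact_mod_cast h.two
  exact ⟨h1, by linarith, by linarith⟩

theorem slopeA_le {η : ℕ} {A B : List (ℕ × ℕ)} (hA : ∀ a ∈ A, Ent η a.1)
    {Y : ℚ} (hY : 0 < Y) :
    (famOf η (ex A) (ex B)).slopeA Y ≤ cnt A * (Real.pi / 2) - (SA η Y A : ℝ) := by
  rw [slopeA_famOf, cnt_mul, SA, cast_list_sum, le_sub_iff_add_le]
  refine list_le A fun a ha => ?_
  have hYr : (0 : ℝ) < Y := by exact_mod_cast hY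
  obtain ⟨h1, h3, h4⟩ := (hA a ha).real
  obtain ⟨h1q, h3q, h4q⟩ := (hA a ha).rat
  rw [arctan_flip h1 hYr, arctan_flip h3 hYr, arctan_flip h4 hYr]
  have e1 := aL_le (x := Y / a.1) (by positivity)
  have e2 := aL_le (x := Y / η) (by positivity)
  have e3 := le_aU (x := Y / ((η : ℚ) - a.1)) (by positivity)
  have hm : (0 : ℝ) ≤ a.2 := by positivity
  push_cast at e1 e2 e3 ⊢
  rw [← mul_add]
  apply mul_le_mul_of_nonneg_left _ hm
  linarith

theorem slopeB_le {η : ℕ} {A B : List (ℕ × ℕ)} (hB : ∀ b ∈ B, Ent η b.1)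
    {Y : ℚ} (hY : 0 < Y) :
    (famOf η (ex A) (ex B)).slopeB Y ≤ - (SB η Y B : ℝ) := by
  have key : (famOf η (ex A) (ex B)).slopeB Y + (SB η Y B : ℝ) ≤
      (B.map fun b => (b.2 : ℝ) * 0).sum := by
    rw [slopeB_famOf, SB, cast_list_sum]
    refine list_le B fun b hb => ?_
    have hYr : (0 : ℝ) < Y := by exact_mod_cast hY
    obtain ⟨h1, h3, h4⟩ := (hB b hb).real
    obtain ⟨h1q, h3q, h4q⟩ := (hB b hb).rat
    rw [arctan_flip h1 hYr, arctan_flip h4 hYr]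
    have e1 := aL_le (x := Y / b.1) (by positivity)
    have e3 := le_aU (x := Y / ((η : ℚ) - b.1)) (by positivity)
    have hm : (0 : ℝ) ≤ b.2 := by positivity
    push_cast at e1 e3 ⊢
    rw [← mul_add]
    apply mul_le_mul_of_nonneg_left _ hm
    linarith
  rw [← cnt_mul, mul_zero] at key
  linarith

theorem slopeA_le' {η : ℕ} {A B : List (ℕ × ℕ)} (hA : ∀ a ∈ A, Ent η a.1)
    {Y : ℚ} (hY : 0 < Y) :
    (famOf η (ex A) (ex B)).slopeA Y ≤ (TA η Y A : ℝ) := by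
  have key : (famOf η (ex A) (ex B)).slopeA Y + (A.map fun b => (b.2 : ℝ) * 0).sum ≤
      (TA η Y A : ℝ) := by
    rw [slopeA_famOf, TA, cast_list_sum]
    refine list_le A fun a ha => ?_
    have hYr : (0 : ℝ) < Y := by exact_mod_cast hY
    obtain ⟨h1, h3, h4⟩ := (hA a ha).real
    obtain ⟨h1q, h3q, h4q⟩ := (hA a ha).rat
    rw [arctan_flip h3 hYr, arctan_flip h4 hYr]
    have e1 := le_aU (x := a.1 / Y) (by positivity)
    have e2 := aL_le (x := Y / η) (by positivity)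
    have e3 := le_aU (x := Y / ((η : ℚ) - a.1)) (by positivity)
    have hm : (0 : ℝ) ≤ a.2 := by positivity
    push_cast at e1 e2 e3 ⊢
    rw [← mul_add]
    apply mul_le_mul_of_nonneg_left _ hm
    linarith
  rw [← cnt_mul, mul_zero] at key
  linarith

theorem slopeB_le' {η : ℕ} {A B : List (ℕ × ℕ)} (hB : ∀ b ∈ B, Ent η b.1)
    {Y1 Y2 : ℚ} (hY : 0 < Y1) {t : ℝ} (h1t : (Y1 : ℝ) ≤ t) (h2t : t ≤ Y2) :
    (famOf η (ex A) (ex B)).slopeB t ≤ (TB η Y1 Y2 B : ℝ) - cnt B * (Real.pi / 2) := by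
  rw [slopeB_famOf, cnt_mul, TB, cast_list_sum, le_sub_iff_add_le]
  refine list_le B fun b hb => ?_
  have hYr : (0 : ℝ) < Y1 := by exact_mod_cast hY
  have ht0 : 0 < t := by linarith
  have hY2r : (0 : ℝ) < Y2 := by linarith
  have hY2 : 0 < Y2 := by exact_mod_cast hY2r
  obtain ⟨h1, h3, h4⟩ := (hB b hb).real
  obtain ⟨h1q, h3q, h4q⟩ := (hB b hb).rat
  have f1 : Real.arctan ((b.1 : ℝ) / t) ≤ Real.arctan ((b.1 : ℝ) / Y1) := by
    apply Real.arctan_mono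
    gcongr
  have f2 : Real.arctan (((η : ℝ) - b.1) / Y2) ≤ Real.arctan (((η : ℝ) - b.1) / t) := by
    apply Real.arctan_mono
    gcongr
  rw [arctan_flip h4 hY2r] at f2
  have e1 := le_aU (x := b.1 / Y1) (by positivity)
  have e3 := le_aU (x := Y2 / ((η : ℚ) - b.1)) (by positivity)
  have hm : (0 : ℝ) ≤ b.2 := by positivity
  push_cast at e1 e3 ⊢
  rw [← mul_add]
  apply mul_le_mul_of_nonneg_left _ hm
  linarith

/-! ### The value of `Lam` -/

theorem LS_flatMap (A : List (ℕ × ℕ)) (f : ℕ × ℕ → List (ℕ × ℕ)) :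
    LS (A.flatMap f) = (A.map fun a => LS (f a)).sum := by
  induction A with
  | nil => simp [LS]
  | cons a A ih => simp only [List.flatMap_cons, LS_append, ih, List.map_cons, List.sum_cons]

def posA (η P Q : ℕ) (a : ℕ × ℕ) : List (ℕ × ℕ) :=
  [(a.1 ^ 2 * Q + P, a.2 * a.1), (η ^ 2 * Q + P, a.2 * η), (Q, a.2 * (η - a.1))]

def negA (η P Q : ℕ) (a : ℕ × ℕ) : List (ℕ × ℕ) :=
  [((η - a.1) ^ 2 * Q + P, a.2 * (η - a.1)), (Q, a.2 * (a.1 + η)), (a.1, 4 * a.2 * a.1)]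

def posB (η P Q : ℕ) (b : ℕ × ℕ) : List (ℕ × ℕ) :=
  [(b.1 ^ 2 * Q + P, b.2 * b.1), (Q, b.2 * (η - b.1)), (η - 2 * b.1, 2 * b.2 * (η - 2 * b.1))]

def negB (η P Q : ℕ) (b : ℕ × ℕ) : List (ℕ × ℕ) :=
  [((η - b.1) ^ 2 * Q + P, b.2 * (η - b.1)), (Q, b.2 * b.1)]

def posL (η P Q : ℕ) (A B : List (ℕ × ℕ)) : List (ℕ × ℕ) :=
  A.flatMap (posA η P Q) ++ B.flatMap (posB η P Q)

def negL (η P Q : ℕ) (A B : List (ℕ × ℕ)) : List (ℕ × ℕ) :=
  A.flatMap (negA η P Q) ++ B.flatMap (negB η P Q)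

theorem log_quot {c : ℝ} {P Q : ℕ} (hc : 0 < c) (hQ : 0 < Q) :
    Real.log (c ^ 2 + (P : ℝ) / Q) = Real.log (c ^ 2 * Q + P) - Real.log Q := by
  have hQr : (0 : ℝ) < Q := by exact_mod_cast hQ
  rw [← Real.log_div (by positivity) hQr.ne']
  congr 1
  field_simp

theorem LS_A {η P Q : ℕ} (hQ : 0 < Q) {a : ℕ × ℕ} (ha : Ent η a.1) :
    LS (posA η P Q a) - LS (negA η P Q a) = 2 * ((a.2 : ℝ) *
      ((a.1 : ℝ) / 2 * Real.log ((a.1 : ℝ) ^ 2 + (P : ℝ) / Q) +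
        (η : ℝ) / 2 * Real.log ((η : ℝ) ^ 2 + (P : ℝ) / Q) -
        ((η : ℝ) - a.1) / 2 * Real.log (((η : ℝ) - a.1) ^ 2 + (P : ℝ) / Q) -
        2 * a.1 * Real.log a.1)) := by
  obtain ⟨h1, h2, h3⟩ := ha.real
  have hle : a.1 ≤ η := by have := ha.two; omega
  rw [log_quot h1 hQ, log_quot h2 hQ, log_quot h3 hQ]
  unfold LS posA negA
  simp only [List.map_cons, List.map_nil, List.sum_cons, List.sum_nil]
  push_cast [Nat.cast_sub hle]
  ring

theorem LS_B {η P Q : ℕ} (hQ : 0 < Q) {b : ℕ × ℕ} (hb : Ent η b.1) :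
    LS (posB η P Q b) - LS (negB η P Q b) = 2 * ((b.2 : ℝ) *
      ((b.1 : ℝ) / 2 * Real.log ((b.1 : ℝ) ^ 2 + (P : ℝ) / Q) -
        ((η : ℝ) - b.1) / 2 * Real.log (((η : ℝ) - b.1) ^ 2 + (P : ℝ) / Q) +
        ((η : ℝ) - 2 * b.1) * Real.log ((η : ℝ) - 2 * b.1))) := by
  obtain ⟨h1, h2, h3⟩ := hb.real
  have hle : b.1 ≤ η := by have := hb.two; omega
  have hle2 : 2 * b.1 ≤ η := hb.two.le
  rw [log_quot h1 hQ, log_quot h3 hQ]
  unfold LS posB negB
  simp only [List.map_cons, List.map_nil, List.sum_cons, List.sum_nil]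
  push_cast [Nat.cast_sub hle, Nat.cast_sub hle2]
  ring

theorem Lam_eq {η P Q : ℕ} {A B : List (ℕ × ℕ)} (hQ : 0 < Q) (hA : ∀ a ∈ A, Ent η a.1)
    (hB : ∀ b ∈ B, Ent η b.1) :
    2 * (famOf η (ex A) (ex B)).Lam ((P : ℝ) / Q) =
      LS (posL η P Q A B) - LS (negL η P Q A B) := by
  have e1 := famOf_sum_α η A B (fun c : ℕ =>
    ((c : ℝ) / 2 * Real.log ((c : ℝ) ^ 2 + (P : ℝ) / Q) +
        (η : ℝ) / 2 * Real.log ((η : ℝ) ^ 2 + (P : ℝ) / Q) -
        ((η : ℝ) - c) / 2 * Real.log (((η : ℝ) - c) ^ 2 + (P : ℝ) / Q) -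
        2 * c * Real.log c))
  have e2 := famOf_sum_β η A B (fun c : ℕ =>
    ((c : ℝ) / 2 * Real.log ((c : ℝ) ^ 2 + (P : ℝ) / Q) -
        ((η : ℝ) - c) / 2 * Real.log (((η : ℝ) - c) ^ 2 + (P : ℝ) / Q) +
        ((η : ℝ) - 2 * c) * Real.log ((η : ℝ) - 2 * c)))
  simp only [nsmul_eq_mul] at e1 e2
  have e3 : (famOf η (ex A) (ex B)).Lam ((P : ℝ) / Q) = (A.map fun a : ℕ × ℕ => ((a.2 : ℝ) *
      ((a.1 : ℝ) / 2 * Real.log ((a.1 : ℝ) ^ 2 + (P : ℝ) / Q) +
        (η : ℝ) / 2 * Real.log ((η : ℝ) ^ 2 + (P : ℝ) / Q) -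
        ((η : ℝ) - a.1) / 2 * Real.log (((η : ℝ) - a.1) ^ 2 + (P : ℝ) / Q) -
        2 * a.1 * Real.log a.1))).sum + (B.map fun b : ℕ × ℕ => ((b.2 : ℝ) *
      ((b.1 : ℝ) / 2 * Real.log ((b.1 : ℝ) ^ 2 + (P : ℝ) / Q) -
        ((η : ℝ) - b.1) / 2 * Real.log (((η : ℝ) - b.1) ^ 2 + (P : ℝ) / Q) +
        ((η : ℝ) - 2 * b.1) * Real.log ((η : ℝ) - 2 * b.1)))).sum := by
    unfold Fam.Lam
    rw [← e1, ← e2]
    rfl
  rw [e3]
  unfold posL negL
  rw [LS_append, LS_append, LS_flatMap, LS_flatMap, LS_flatMap, LS_flatMap]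
  have f1 : ∀ l : List (ℕ × ℕ), (∀ a ∈ l, Ent η a.1) →
      (l.map fun a => LS (posA η P Q a)).sum - (l.map fun a => LS (negA η P Q a)).sum =
      2 * (l.map fun a : ℕ × ℕ => ((a.2 : ℝ) *
      ((a.1 : ℝ) / 2 * Real.log ((a.1 : ℝ) ^ 2 + (P : ℝ) / Q) +
        (η : ℝ) / 2 * Real.log ((η : ℝ) ^ 2 + (P : ℝ) / Q) -
        ((η : ℝ) - a.1) / 2 * Real.log (((η : ℝ) - a.1) ^ 2 + (P : ℝ) / Q) -
        2 * a.1 * Real.log a.1))).sum := by
    intro l hl
    induction l with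
    | nil => simp
    | cons a l ih =>
      have h1 := LS_A (P := P) hQ (hl a (by simp))
      have h2 := ih fun b hb => hl b (by simp [hb])
      simp only [List.map_cons, List.sum_cons]
      linarith
  have f2 : ∀ l : List (ℕ × ℕ), (∀ a ∈ l, Ent η a.1) →
      (l.map fun a => LS (posB η P Q a)).sum - (l.map fun a => LS (negB η P Q a)).sum =
      2 * (l.map fun b : ℕ × ℕ => ((b.2 : ℝ) *
      ((b.1 : ℝ) / 2 * Real.log ((b.1 : ℝ) ^ 2 + (P : ℝ) / Q) -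
        ((η : ℝ) - b.1) / 2 * Real.log (((η : ℝ) - b.1) ^ 2 + (P : ℝ) / Q) +
        ((η : ℝ) - 2 * b.1) * Real.log ((η : ℝ) - 2 * b.1)))).sum := by
    intro l hl
    induction l with
    | nil => simp
    | cons a l ih =>
      have h1 := LS_B (P := P) hQ (hl a (by simp))
      have h2 := ih fun b hb => hl b (by simp [hb])
      simp only [List.map_cons, List.sum_cons]
      linarith
  have g1 := f1 A hA
  have g2 := f2 B hB
  linarith

theorem posL_pos {η P Q : ℕ} {A B : List (ℕ × ℕ)} (hQ : 0 < Q) (hA : ∀ a ∈ A, Ent η a.1)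
    (hB : ∀ b ∈ B, Ent η b.1) : ∀ p ∈ posL η P Q A B, 0 < p.1 := by
  intro p hp
  unfold posL at hp
  rw [List.mem_append, List.mem_flatMap, List.mem_flatMap] at hp
  rcases hp with ⟨a, ha, hp⟩ | ⟨b, hb, hp⟩
  · have h1 := (hA a ha).pos
    have h2 := (hA a ha).two
    have h3 : 0 < η := by omega
    simp only [posA, List.mem_cons, List.not_mem_nil, or_false] at hp
    rcases hp with rfl | rfl | rfl
    · show 0 < a.1 ^ 2 * Q + P
      positivity
    · show 0 < η ^ 2 * Q + P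
      positivity
    · exact hQ
  · have h1 := (hB b hb).pos
    have h2 := (hB b hb).two
    have h3 : 0 < η := by omega
    simp only [posB, List.mem_cons, List.not_mem_nil, or_false] at hp
    rcases hp with rfl | rfl | rfl
    · show 0 < b.1 ^ 2 * Q + P
      positivity
    · exact hQ
    · show 0 < η - 2 * b.1
      omega

theorem negL_pos {η P Q : ℕ} {A B : List (ℕ × ℕ)} (hQ : 0 < Q) (hA : ∀ a ∈ A, Ent η a.1)
    (hB : ∀ b ∈ B, Ent η b.1) : ∀ p ∈ negL η P Q A B, 0 < p.1 := by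
  intro p hp
  unfold negL at hp
  rw [List.mem_append, List.mem_flatMap, List.mem_flatMap] at hp
  rcases hp with ⟨a, ha, hp⟩ | ⟨b, hb, hp⟩
  · have h1 := (hA a ha).pos
    have h2 := (hA a ha).two
    have h3 : 0 < η - a.1 := by omega
    simp only [negA, List.mem_cons, List.not_mem_nil, or_false] at hp
    rcases hp with rfl | rfl | rfl
    · show 0 < (η - a.1) ^ 2 * Q + P
      positivity
    · exact hQ
    · exact h1
  · have h1 := (hB b hb).pos
    have h2 := (hB b hb).two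
    have h3 : 0 < η - b.1 := by omega
    simp only [negB, List.mem_cons, List.not_mem_nil, or_false] at hp
    rcases hp with rfl | rfl
    · show 0 < (η - b.1) ^ 2 * Q + P
      positivity
    · exact hQ

/-- certified upper bound `Lam (P/Q) < -k/(2w)` -/
theorem Lam_lt {η P Q : ℕ} {A B : List (ℕ × ℕ)} (hQ : 0 < Q) (hA : ∀ a ∈ A, Ent η a.1)
    (hB : ∀ b ∈ B, Ent η b.1) {w k : ℕ} (hw : 0 < w)
    (h : PP (posL η P Q A B) ^ w * 27182818286 ^ k < PP (negL η P Q A B) ^ w * 10000000000 ^ k) :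
    (famOf η (ex A) (ex B)).Lam ((P : ℝ) / Q) < -((k : ℝ) / (2 * w)) := by
  have e1 := Lam_eq (P := P) hQ hA hB
  rw [LS_eq (posL_pos hQ hA hB), LS_eq (negL_pos hQ hA hB)] at e1
  have hp : (0 : ℝ) < PP (posL η P Q A B) := by exact_mod_cast PP_pos (posL_pos hQ hA hB)
  have hn : (0 : ℝ) < PP (negL η P Q A B) := by exact_mod_cast PP_pos (negL_pos hQ hA hB)
  set X : ℝ := (PP (posL η P Q A B) : ℝ) with hX
  set Z : ℝ := (PP (negL η P Q A B) : ℝ) with hZ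
  have h1 : X ^ w * 27182818286 ^ k < Z ^ w * 10000000000 ^ k := by
    rw [hX, hZ]; exact_mod_cast h
  have h2 := Real.log_lt_log (by positivity) h1
  rw [Real.log_mul (by positivity) (by positivity), Real.log_mul (by positivity) (by positivity),
    Real.log_pow, Real.log_pow, Real.log_pow, Real.log_pow] at h2
  have h3 : 1 ≤ Real.log 27182818286 - Real.log 10000000000 := by
    rw [← Real.log_div (by norm_num) (by norm_num), Real.le_log_iff_exp_le (by norm_num)]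
    have := Real.exp_one_lt_d9
    norm_num
    linarith
  have hk : (0 : ℝ) ≤ k := by positivity
  have hw' : (0 : ℝ) < w := by exact_mod_cast hw
  have h4 : (w : ℝ) * (Real.log X - Real.log Z) < -k := by nlinarith
  rw [← e1] at h4
  rw [lt_neg, div_lt_iff₀ (by positivity)]
  nlinarith

/-- the list version of the tangent bound -/
theorem FF_list {η p q : ℕ} {A B : List (ℕ × ℕ)} (hA : ∀ a ∈ A, Ent η a.1)
    (hB : ∀ b ∈ B, Ent η b.1) (hp : 0 < p) (hq : 0 < q) {Y1 Y2 δ : ℚ}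
    (hY1 : (p : ℚ) / q ≤ Y1) (hY2 : Y1 ≤ Y2)
    (c0 : ∀ b ∈ B, Y1 ^ 2 ≤ b.1 * ((η : ℚ) - b.1))
    (c1 : ((cnt A : ℚ) - 4) * (3141593 / 2000000) ≤
      SA η ((p : ℚ) / q) A + SB η ((p : ℚ) / q) B - δ)
    (hc : 4 ≤ cnt A)
    (c2 : TA η Y1 A + TB η Y1 Y2 B + δ ≤ ((cnt B : ℚ) + 4) * (3141592 / 2000000))
    (c3 : TA η Y2 A + δ ≤ 4 * (3141592 / 2000000)) {t : ℝ} (ht : 0 < t) :
    (famOf η (ex A) (ex B)).FF t ≤
      (famOf η (ex A) (ex B)).Lam (((p ^ 2 : ℕ) : ℝ) / ((q ^ 2 : ℕ) : ℝ)) - δ * t := by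
  have hpq : (0 : ℚ) < (p : ℚ) / q := by positivity
  have hY10 : 0 < Y1 := hpq.trans_le hY1
  have hY20 : 0 < Y2 := hY10.trans_le hY2
  have hY1r : (0 : ℝ) < Y1 := by exact_mod_cast hY10
  have hpi1 := Real.pi_lt_d6
  have hpi2 := Real.pi_gt_d6
  have e0 : ((p ^ 2 : ℕ) : ℝ) / ((q ^ 2 : ℕ) : ℝ) = ((((p : ℚ) / q : ℚ)) : ℝ) ^ 2 := by
    push_cast
    rw [div_pow]
  rw [e0]
  refine FF_le2 _ (famOf_forall_α η A B fun a ha => (hA a ha).pos)
    (famOf_forall_α η A B (p := fun x => 2 * x < η) fun a ha => (hA a ha).two)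
    (famOf_forall_β η A B fun a ha => (hB a ha).pos)
    (famOf_forall_β η A B (p := fun x => 2 * x < η) fun a ha => (hB a ha).two)
    (Y := ((((p : ℚ) / q : ℚ)) : ℝ)) (Y1 := (Y1 : ℝ)) (by exact_mod_cast hpq)
    (by exact_mod_cast hY1)
    (famOf_forall_β η A B (p := fun x => (Y1 : ℝ) ^ 2 ≤ x * ((η : ℝ) - x)) fun b hb => ?_)
    ?_ ?_ ht
  · have := c0 b hb
    exact_mod_cast this
  · have h1 := slopeA_le (B := B) hA hpq
    have h2 := slopeB_le (A := A) hB hpq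
    have h3 := (Rat.cast_le (K := ℝ)).mpr c1
    have h4 : (4 : ℝ) ≤ cnt A := by exact_mod_cast hc
    push_cast at h3
    nlinarith
  · intro u hu
    have hA' := slopeA_antitone _ (famOf_forall_α η A B fun a ha => (hA a ha).pos)
      (famOf_forall_α η A B (p := fun x => 2 * x < η) fun a ha => (hA a ha).two)
    have hu0 : 0 < u := hY1r.trans_le hu
    rcases le_or_gt u Y2 with h | h
    · have h1 := hA' (mem_Ioi.mpr hY1r) (mem_Ioi.mpr hu0) hu
      have h2 := slopeA_le' (B := B) hA hY10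
      have h3 := slopeB_le' (A := A) hB (Y1 := Y1) (Y2 := Y2) hY10 hu h
      have h4 := (Rat.cast_le (K := ℝ)).mpr c2
      push_cast at h4
      have h5 : (0 : ℝ) ≤ cnt B := by positivity
      nlinarith
    · have hY2r : (0 : ℝ) < Y2 := by exact_mod_cast hY20
      have h1 := hA' (mem_Ioi.mpr hY2r) (mem_Ioi.mpr hu0) h.le
      have h2 := slopeA_le' (B := B) hA hY20
      have h3 := slopeB_nonpos (famOf η (ex A) (ex B))
        (famOf_forall_β η A B (p := fun x => 2 * x < η) fun a ha => (hB a ha).two) hu0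
      have h4 := (Rat.cast_le (K := ℝ)).mpr c3
      push_cast at h4
      linarith

end ZetaSets
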