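import Pool.Agent.Work.MP_4f096c_nt.Num

/-!
The numerical side for the concrete families `F43`, `F21` (TASK C).
-/

namespace ZetaSets

/-- The whole numerical certificate for a list family: if the rational inequalities and the
big-integer inequality hold then the linear forms are at most `exp (-C n)`, `C = k / (2 w)`. -/
theorem bound_list {η p q w k : ℕ} {A B : List (ℕ × ℕ)} (hr : 3 ≤ (ex A).length)
    (hA : ∀ a ∈ A, Ent η a.1) (hB : ∀ b ∈ B, Ent η b.1) (hp : 0 < p) (hq : 0 < q) (hw : 0 < w)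
    {Y1 Y2 δ : ℚ} (hδ : 0 < δ) (hY1 : (p : ℚ) / q ≤ Y1) (hY2 : Y1 ≤ Y2)
    (c0 : ∀ b ∈ B, Y1 ^ 2 ≤ b.1 * ((η : ℚ) - b.1))
    (c1 : ((cnt A : ℚ) - 4) * (3141593 / 2000000) ≤
      SA η ((p : ℚ) / q) A + SB η ((p : ℚ) / q) B - δ)
    (hc : 4 ≤ cnt A)
    (c2 : TA η Y1 A + TB η Y1 Y2 B + δ ≤ ((cnt B : ℚ) + 4) * (3141592 / 2000000))
    (c3 : TA η Y2 A + δ ≤ 4 * (3141592 / 2000000))
    (c4 : PP (posL η (p ^ 2) (q ^ 2) A B) ^ w * 27182818286 ^ k <
      PP (negL η (p ^ 2) (q ^ 2) A B) ^ w * 10000000000 ^ k)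
    {C : ℝ} (hC : C ≤ (k : ℝ) / (2 * w)) (d : ℕ) :
    ∀ᶠ n : ℕ in Filter.atTop,
      ‖Lf ((famOf η (ex A) (ex B)).par n) d 0‖ ≤ Real.exp (-C * n) := by
  have h1 := Lam_lt (P := p ^ 2) (Q := q ^ 2) (A := A) (B := B) (w := w)
    (k := k) (by positivity) hA hB hw c4
  refine Lf_le_of_FF _ hr (famOf_forall_α η A B fun a ha => (hA a ha).pos)
    (famOf_forall_α η A B (p := fun x => 2 * x < η) fun a ha => (hA a ha).two)
    (famOf_forall_β η A B (p := fun x => 2 * x < η) fun a ha => (hB a ha).two)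
    (L := (famOf η (ex A) (ex B)).Lam (((p ^ 2 : ℕ) : ℝ) / ((q ^ 2 : ℕ) : ℝ)))
    (δ := (δ : ℝ)) (by exact_mod_cast hδ) (fun t ht => ?_) ?_ d
  · exact FF_list hA hB hp hq hY1 hY2 c0 c1 hc c2 c3 ht
  · linarith

/-! ### The family `F43` -/

theorem ent43A : ∀ a ∈ A43, Ent 104 a.1 := by
  intro a ha
  simp only [A43, List.mem_cons, List.not_mem_nil, or_false] at ha
  rcases ha with rfl | rfl | rfl <;> exact ⟨by norm_num, by norm_num⟩

theorem ent43B : ∀ b ∈ B43, Ent 104 b.1 := by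
  intro b hb
  simp only [B43, List.mem_cons, List.not_mem_nil, or_false] at hb
  rcases hb with rfl | rfl | rfl | rfl | rfl | rfl | rfl | rfl | rfl | rfl | rfl | rfl <;>
    exact ⟨by norm_num, by norm_num⟩

set_option maxRecDepth 100000 in
/-- rate `943.5` -/
theorem F43_bound' (d : ℕ) : ∀ᶠ n : ℕ in Filter.atTop,
    ‖Lf (F43.par n) d 0‖ ≤ Real.exp (-(1887 / 2 : ℝ) * n) := by
  refine bound_list (p := 326) (q := 25) (w := 1) (k := 1887) (A := A43) (B := B43) (Y1 := 48)
    (Y2 := 64) (δ := 1 / 1000) (by decide) ent43A ent43B (by norm_num) (by norm_num)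
    (by norm_num) (by norm_num) (by norm_num) (by norm_num) ?_ (by decide +kernel) (by decide)
    (by decide +kernel) (by decide +kernel) (by decide +kernel) (by norm_num) d
  intro b hb
  simp only [B43, List.mem_cons, List.not_mem_nil, or_false] at hb
  rcases hb with rfl | rfl | rfl | rfl | rfl | rfl | rfl | rfl | rfl | rfl | rfl | rfl <;>
    norm_num

theorem F43_bound (d : ℕ) : ∀ᶠ n : ℕ in Filter.atTop,
    ‖Lf (F43.par n) d 0‖ ≤ Real.exp (-(943 : ℝ) * n) := by
  filter_upwards [F43_bound' d] with n hn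
  refine hn.trans (Real.exp_le_exp.mpr ?_)
  have : (0 : ℝ) ≤ n := by positivity
  nlinarith

/-! ### The family `F21` -/

theorem ent21A : ∀ a ∈ A21, Ent 104 a.1 := by
  intro a ha
  simp only [A21, List.mem_cons, List.not_mem_nil, or_false] at ha
  rcases ha with rfl | rfl <;> exact ⟨by norm_num, by norm_num⟩

theorem ent21B : ∀ b ∈ B21, Ent 104 b.1 := by
  intro b hb
  simp only [B21, List.mem_cons, List.not_mem_nil, or_false] at hb
  rcases hb with rfl | rfl | rfl | rfl | rfl | rfl | rfl | rfl | rfl | rfl <;>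
    exact ⟨by norm_num, by norm_num⟩

set_option maxRecDepth 100000 in
/-- rate `444.8` -/
theorem F21_bound' (d : ℕ) : ∀ᶠ n : ℕ in Filter.atTop,
    ‖Lf (F21.par n) d 0‖ ≤ Real.exp (-(4448 / 10 : ℝ) * n) := by
  refine bound_list (p := 1017) (q := 200) (w := 5) (k := 4448) (A := A21) (B := B21) (Y1 := 48)
    (Y2 := 48) (δ := 1 / 2000) (by decide) ent21A ent21B (by norm_num) (by norm_num)
    (by norm_num) (by norm_num) (by norm_num) (by norm_num) ?_ (by decide +kernel) (by decide)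
    (by decide +kernel) (by decide +kernel) (by decide +kernel) (by norm_num) d
  intro b hb
  simp only [B21, List.mem_cons, List.not_mem_nil, or_false] at hb
  rcases hb with rfl | rfl | rfl | rfl | rfl | rfl | rfl | rfl | rfl | rfl <;>
    norm_num

theorem F21_bound (d : ℕ) : ∀ᶠ n : ℕ in Filter.atTop,
    ‖Lf (F21.par n) d 0‖ ≤ Real.exp (-(444.6 : ℝ) * n) := by
  filter_upwards [F21_bound' d] with n hn
  refine hn.trans (Real.exp_le_exp.mpr ?_)
  have : (0 : ℝ) ≤ n := by positivity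
  nlinarith

end ZetaSets
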