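import Pool.Agent.Work.MP_4f096c_nt.Ser

/-!
The rational function as a quotient of polynomials, its partial fractions and their symmetry.
-/

namespace ZetaSets

open Polynomial
open scoped Nat

/-- The set of the numbers `k` of the poles `-k`. -/
noncomputable def Sk (P : Par) (b0 : ℕ) : Finset ℤ := Finset.Icc (b0 : ℤ) (P.h - b0)

lemma prod_split (P : Par) {b0 : ℕ} (i : Fin P.s) (hb : 2 * P.b i ≤ P.h) (hb0 : b0 ≤ P.b i) :
    ∃ co : ℚ[X], (∏ l ∈ Finset.range (P.h - 2 * P.b i + 1), (X + C ((P.b i : ℚ) + l))) * co =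
      ∏ k ∈ Sk P b0, (X + C (k : ℚ)) := by
  have h1 : (∏ l ∈ Finset.range (P.h - 2 * P.b i + 1), (X + C ((P.b i : ℚ) + l))) =
      ∏ k ∈ Finset.Icc (P.b i : ℤ) (P.h - P.b i), (X + C (k : ℚ)) := by
    apply Finset.prod_bij (fun (l : ℕ) _ => (P.b i : ℤ) + l)
    · intro l hl
      rw [Finset.mem_range] at hl
      rw [Finset.mem_Icc]
      omega
    · intro l1 _ l2 _ h
      have : (P.b i : ℤ) + l1 = (P.b i : ℤ) + l2 := h
      omega
    · intro k hk
      rw [Finset.mem_Icc] at hk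
      refine ⟨(k - P.b i).toNat, ?_, ?_⟩
      · rw [Finset.mem_range]
        omega
      · omega
    · intro l _
      push_cast
      rfl
  have hsub : Finset.Icc (P.b i : ℤ) (P.h - P.b i) ⊆ Sk P b0 := by
    unfold Sk
    apply Finset.Icc_subset_Icc <;> omega
  refine ⟨∏ k ∈ Sk P b0 \ Finset.Icc (P.b i : ℤ) (P.h - P.b i), (X + C (k : ℚ)), ?_⟩
  rw [h1, mul_comm]
  exact Finset.prod_sdiff hsub

lemma denP_dvd (P : Par) {b0 : ℕ} (hb : ∀ i, 2 * P.b i ≤ P.h) (hb0 : ∀ i, b0 ≤ P.b i) :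
    ∃ co : ℚ[X], denP P * co = DD (Sk P b0) P.s := by
  choose co hco using fun i => prod_split P (b0 := b0) i (hb i) (hb0 i)
  refine ⟨∏ i, co i, ?_⟩
  unfold denP DD
  rw [← Finset.prod_mul_distrib, Finset.prod_congr rfl fun i _ => hco i, Finset.prod_const,
    Finset.card_univ, Fintype.card_fin, Finset.prod_pow]

lemma denP_monic (P : Par) : (denP P).Monic :=
  monic_prod_of_monic _ _ fun _ _ => monic_prod_of_monic _ _ fun _ _ => monic_X_add_C _

lemma denP_natDegree (P : Par) : (denP P).natDegree = ∑ i, (P.h - 2 * P.b i + 1) := by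
  unfold denP
  rw [natDegree_prod_of_monic]
  · refine Finset.sum_congr rfl fun i _ => ?_
    rw [natDegree_prod_of_monic _ _ fun _ _ => monic_X_add_C _]
    simp only [natDegree_X_add_C, Finset.sum_const, Finset.card_range, smul_eq_mul, mul_one]
  · exact fun _ _ => monic_prod_of_monic _ _ fun _ _ => monic_X_add_C _

lemma numP_natDegree (P : Par) (d : ℕ) : (numP P d).natDegree ≤ 1 + 2 * d + ∑ j, 2 * P.a j := by
  unfold numP
  have e1 : (2 * X + C (P.h : ℚ)).natDegree ≤ 1 := by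
    have h2 : (2 : ℚ[X]) = C 2 := (map_ofNat C 2).symm
    rw [h2]
    exact natDegree_linear_le
  have e2 : ((X * (X + C (P.h : ℚ))) ^ d).natDegree ≤ 2 * d := by
    refine natDegree_pow_le.trans ?_
    have : (X * (X + C (P.h : ℚ))).natDegree ≤ 2 := by
      refine natDegree_mul_le.trans ?_
      rw [natDegree_X, natDegree_X_add_C]
    calc d * (X * (X + C (P.h : ℚ))).natDegree ≤ d * 2 := Nat.mul_le_mul_left _ this
      _ = 2 * d := by ring
  have e3 : ∀ j, ((∏ l ∈ Finset.range (P.a j), (X + C ((l : ℚ) + 1))) *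
      (∏ l ∈ Finset.range (P.a j), (X + C ((P.h : ℚ) - (l + 1)))) *
        C (1 / ((P.a j)! : ℚ) ^ 2)).natDegree ≤ 2 * P.a j := by
    intro j
    refine (natDegree_mul_C_le _ _).trans ?_
    refine natDegree_mul_le.trans ?_
    rw [natDegree_prod_of_monic _ _ fun _ _ => monic_X_add_C _,
      natDegree_prod_of_monic _ _ fun _ _ => monic_X_add_C _]
    simp only [natDegree_X_add_C, Finset.sum_const, Finset.card_range, smul_eq_mul, mul_one]
    omega
  have e4 : (∏ i : Fin P.s, C (((P.h - 2 * P.b i)! : ℕ) : ℚ)).natDegree ≤ 0 := by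
    rw [← map_prod, natDegree_C]
  have e5 : (∏ j, ((∏ l ∈ Finset.range (P.a j), (X + C ((l : ℚ) + 1))) *
      (∏ l ∈ Finset.range (P.a j), (X + C ((P.h : ℚ) - (l + 1)))) *
        C (1 / ((P.a j)! : ℚ) ^ 2))).natDegree ≤ ∑ j, 2 * P.a j :=
    (natDegree_prod_le _ _).trans (Finset.sum_le_sum fun j _ => e3 j)
  refine natDegree_mul_le.trans ?_
  have e6 := natDegree_mul_le (p := (2 * X + C (P.h : ℚ)) * (X * (X + C (P.h : ℚ))) ^ d)
    (q := ∏ j, ((∏ l ∈ Finset.range (P.a j), (X + C ((l : ℚ) + 1))) *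
      (∏ l ∈ Finset.range (P.a j), (X + C ((P.h : ℚ) - (l + 1)))) *
        C (1 / ((P.a j)! : ℚ) ^ 2)))
  have e7 := natDegree_mul_le (p := (2 * X + C (P.h : ℚ))) (q := (X * (X + C (P.h : ℚ))) ^ d)
  omega

lemma denP_refl (P : Par) (heven : Even P.h) (hs : Even P.s) (hb : ∀ i, 2 * P.b i ≤ P.h) :
    (denP P).comp (-C ((P.h : ℤ) : ℚ) - X) = denP P := by
  unfold denP
  rw [prod_comp]
  have e1 : ∀ i, (∏ l ∈ Finset.range (P.h - 2 * P.b i + 1), (X + C ((P.b i : ℚ) + l))).comp
      (-C ((P.h : ℤ) : ℚ) - X) =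
      -∏ l ∈ Finset.range (P.h - 2 * P.b i + 1), (X + C ((P.b i : ℚ) + l)) := by
    intro i
    rw [prod_comp, ← Finset.prod_range_reflect
      (fun l => (X + C ((P.b i : ℚ) + (l : ℕ)) : ℚ[X]))]
    have : ∀ l ∈ Finset.range (P.h - 2 * P.b i + 1),
        (X + C ((P.b i : ℚ) + l)).comp (-C ((P.h : ℤ) : ℚ) - X) =
        (-1) * (X + C ((P.b i : ℚ) + ((P.h - 2 * P.b i + 1 - 1 - l : ℕ) : ℕ))) := by
      intro l hl
      rw [Finset.mem_range] at hl
      rw [refl_lin (P.h : ℤ) ((P.b i : ℚ) + l)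
        ((P.b i : ℚ) + ((P.h - 2 * P.b i + 1 - 1 - l : ℕ) : ℕ)), neg_one_mul]
      have h3 : ((P.h - 2 * P.b i + 1 - 1 - l : ℕ) : ℚ) = P.h - 2 * P.b i - l := by
        have := hb i
        rw [show P.h - 2 * P.b i + 1 - 1 - l = P.h - 2 * P.b i - l by omega,
          Nat.cast_sub (by omega), Nat.cast_sub (by omega)]
        push_cast
        ring
      rw [h3]
      push_cast
      ring
    rw [Finset.prod_congr rfl this, Finset.prod_mul_distrib, Finset.prod_const, Finset.card_range]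
    have hodd : Odd (P.h - 2 * P.b i + 1) := by
      apply Even.add_one
      exact (Nat.even_sub (hb i)).2 (by simp [heven])
    rw [hodd.neg_one_pow]
    ring
  rw [Finset.prod_congr rfl fun i _ => e1 i]
  simp only [← neg_one_mul (∏ l ∈ Finset.range _, _)]
  rw [Finset.prod_mul_distrib, Finset.prod_const, Finset.card_univ, Fintype.card_fin,
    hs.neg_one_pow, one_mul]

lemma numP_refl (P : Par) (d : ℕ) :
    (numP P d).comp (-C ((P.h : ℤ) : ℚ) - X) = -numP P d := by
  unfold numP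
  have h2 : (2 : ℚ[X]) = C 2 := (map_ofNat C 2).symm
  have e1 : (2 * X + C (P.h : ℚ)).comp (-C ((P.h : ℤ) : ℚ) - X) =
      -(2 * X + C (P.h : ℚ)) := by
    rw [h2, add_comp, mul_comp, X_comp, C_comp, C_comp, ← h2]
    push_cast
    ring
  have e2 : (X * (X + C (P.h : ℚ))).comp (-C ((P.h : ℤ) : ℚ) - X) =
      X * (X + C (P.h : ℚ)) := by
    rw [mul_comp, add_comp, X_comp, C_comp]
    push_cast
    ring
  have e3 : ∀ j, ((∏ l ∈ Finset.range (P.a j), (X + C ((l : ℚ) + 1))) *
      (∏ l ∈ Finset.range (P.a j), (X + C ((P.h : ℚ) - (l + 1)))) *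
        C (1 / ((P.a j)! : ℚ) ^ 2)).comp (-C ((P.h : ℤ) : ℚ) - X) =
      (∏ l ∈ Finset.range (P.a j), (X + C ((l : ℚ) + 1))) *
      (∏ l ∈ Finset.range (P.a j), (X + C ((P.h : ℚ) - (l + 1)))) *
        C (1 / ((P.a j)! : ℚ) ^ 2) := by
    intro j
    rw [mul_comp, mul_comp, C_comp, prod_comp, prod_comp]
    congr 1
    have f1 : ∀ l ∈ Finset.range (P.a j), (X + C ((l : ℚ) + 1)).comp (-C ((P.h : ℤ) : ℚ) - X) =
        -(X + C ((P.h : ℚ) - (l + 1))) := by
      intro l _
      apply refl_lin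
      push_cast
      ring
    have f2 : ∀ l ∈ Finset.range (P.a j),
        (X + C ((P.h : ℚ) - (l + 1))).comp (-C ((P.h : ℤ) : ℚ) - X) =
        -(X + C ((l : ℚ) + 1)) := by
      intro l _
      apply refl_lin
      push_cast
      ring
    rw [Finset.prod_congr rfl f1, Finset.prod_congr rfl f2, ← Finset.prod_mul_distrib,
      ← Finset.prod_mul_distrib]
    exact Finset.prod_congr rfl fun l _ => by ring
  rw [mul_comp, mul_comp, mul_comp, pow_comp, e1, e2, prod_comp, prod_comp,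
    Finset.prod_congr rfl fun j _ => e3 j]
  simp only [C_comp]
  ring

/-- The value of the quotient of the two polynomials. -/
lemma eval_quot (P : Par) (d : ℕ) (t : ℂ) :
    aeval t (numP P d) / aeval t (denP P) = (t * (t + P.h)) ^ d * R P t := by
  unfold numP denP R
  simp only [map_mul, map_prod, map_pow, map_add, aeval_X, aeval_C, map_ofNat]
  rw [Finset.prod_div_distrib, Finset.prod_div_distrib]
  simp only [eq_ratCast]
  push_cast
  rw [Finset.prod_mul_distrib, Finset.prod_div_distrib, Finset.prod_const_one]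
  have e1 : ∀ j, ∏ l ∈ Finset.range (P.a j), (t + ((P.h : ℂ) - (l + 1))) =
      ∏ l ∈ Finset.range (P.a j), (t + P.h - (l + 1)) := by
    intro j
    exact Finset.prod_congr rfl fun l _ => by ring
  have e2 : ∀ i, ∏ l ∈ Finset.range (P.h - 2 * P.b i + 1), (t + ((P.b i : ℂ) + l)) =
      ∏ l ∈ Finset.range (P.h - 2 * P.b i + 1), (t + P.b i + l) := by
    intro j
    exact Finset.prod_congr rfl fun l _ => by ring
  simp only [e1, e2]
  ring

end ZetaSets
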