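import Pool.Agent.Work.MP_4f096c_nt.Local
import Pool.Agent.Work.MP_4f096c_nt.PF

/-!
The local expansions of the rational function at its poles.
-/

namespace ZetaSets

open PowerSeries
open scoped Nat

noncomputable def fnum (P : Par) (j : Fin P.r) (k : ℤ) : ℚ⟦X⟧ :=
  (∏ l ∈ Finset.range (P.a j), lin ((l : ℤ) + 1 - k)) *
    (∏ l ∈ Finset.range (P.a j), lin ((P.h : ℤ) - (l + 1) - k)) * C (1 / ((P.a j)! : ℚ) ^ 2)

noncomputable def fden (P : Par) (i : Fin P.s) (k : ℤ) : ℚ⟦X⟧ :=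
  C (((P.h - 2 * P.b i)! : ℕ) : ℚ) *
    (∏ l ∈ Finset.range (P.h - 2 * P.b i + 1), inv' ((P.b i : ℤ) + l - k)) *
    (if (P.b i : ℤ) ≤ k ∧ k ≤ P.h - P.b i then 1 else X)

/-- The expansion of `(t+k)^s (t(t+h))^d R(t)` at `t = -k`. -/
noncomputable def fser (P : Par) (d : ℕ) (k : ℤ) : ℚ⟦X⟧ :=
  (C (((P.h : ℤ) - 2 * k : ℤ) : ℚ) + 2 * X) * (lin (-k) * lin ((P.h : ℤ) - k)) ^ d *
    (∏ j, fnum P j k) * ∏ i, fden P i k

/-- The numerator. -/
noncomputable def numP (P : Par) (d : ℕ) : Polynomial ℚ :=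
  (2 * Polynomial.X + Polynomial.C (P.h : ℚ)) *
    (Polynomial.X * (Polynomial.X + Polynomial.C (P.h : ℚ))) ^ d *
    (∏ j, ((∏ l ∈ Finset.range (P.a j), (Polynomial.X + Polynomial.C ((l : ℚ) + 1))) *
      (∏ l ∈ Finset.range (P.a j), (Polynomial.X + Polynomial.C ((P.h : ℚ) - (l + 1)))) *
        Polynomial.C (1 / ((P.a j)! : ℚ) ^ 2))) *
    ∏ i, Polynomial.C (((P.h - 2 * P.b i)! : ℕ) : ℚ)

/-- The denominator. -/
noncomputable def denP (P : Par) : Polynomial ℚ :=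
  ∏ i, ∏ l ∈ Finset.range (P.h - 2 * P.b i + 1), (Polynomial.X + Polynomial.C ((P.b i : ℚ) + l))

/-- The block of denominator number `i`, shifted to `-k`. -/
lemma fden_mul (P : Par) (i : Fin P.s) (hb : 2 * P.b i ≤ P.h) (k : ℤ) :
    fden P i k * (∏ l ∈ Finset.range (P.h - 2 * P.b i + 1), lin ((P.b i : ℤ) + l - k)) =
      X * C (((P.h - 2 * P.b i)! : ℕ) : ℚ) := by
  have h1 : (∏ l ∈ Finset.range (P.h - 2 * P.b i + 1), inv' ((P.b i : ℤ) + l - k)) *
      (∏ l ∈ Finset.range (P.h - 2 * P.b i + 1), lin ((P.b i : ℤ) + l - k)) =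
      if (P.b i : ℤ) ≤ k ∧ k ≤ P.h - P.b i then X else 1 := by
    rw [← Finset.prod_mul_distrib]
    simp only [inv'_mul]
    split_ifs with h
    · have hmem : (k - P.b i).toNat ∈ Finset.range (P.h - 2 * P.b i + 1) := by
        rw [Finset.mem_range]
        omega
      rw [Finset.prod_eq_single_of_mem _ hmem]
      · rw [if_pos (by omega)]
      · intro l _ hl
        rw [if_neg (by omega)]
    · apply Finset.prod_eq_one
      intro l hl
      have := Finset.mem_range.1 hl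
      rw [if_neg (by omega)]
  unfold fden
  calc _ = C (((P.h - 2 * P.b i)! : ℕ) : ℚ) *
        ((∏ l ∈ Finset.range (P.h - 2 * P.b i + 1), inv' ((P.b i : ℤ) + l - k)) *
      (∏ l ∈ Finset.range (P.h - 2 * P.b i + 1), lin ((P.b i : ℤ) + l - k))) *
        (if (P.b i : ℤ) ≤ k ∧ k ≤ P.h - P.b i then 1 else X) := by ring
    _ = _ := by
      rw [h1]
      split_ifs <;> ring

lemma denP_comp (P : Par) (k : ℤ) :
    (((denP P).comp (Polynomial.X - Polynomial.C (k : ℚ)) : Polynomial ℚ) : ℚ⟦X⟧) =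
      ∏ i, ∏ l ∈ Finset.range (P.h - 2 * P.b i + 1), lin ((P.b i : ℤ) + l - k) := by
  unfold denP
  rw [Polynomial.prod_comp, coe_prod']
  refine Finset.prod_congr rfl fun i _ => ?_
  rw [Polynomial.prod_comp, coe_prod]
  refine Finset.prod_congr rfl fun l _ => ?_
  apply coe_lin
  push_cast
  ring

lemma numP_comp (P : Par) (d : ℕ) (k : ℤ) :
    (((numP P d).comp (Polynomial.X - Polynomial.C (k : ℚ)) : Polynomial ℚ) : ℚ⟦X⟧) =
      (C (((P.h : ℤ) - 2 * k : ℤ) : ℚ) + 2 * X) * (lin (-k) * lin ((P.h : ℤ) - k)) ^ d *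
    (∏ j, fnum P j k) * ∏ i : Fin P.s, C (((P.h - 2 * P.b i)! : ℕ) : ℚ) := by
  have e1 : (((2 * Polynomial.X + Polynomial.C (P.h : ℚ)).comp
      (Polynomial.X - Polynomial.C (k : ℚ)) : Polynomial ℚ) : ℚ⟦X⟧) =
      C (((P.h : ℤ) - 2 * k : ℤ) : ℚ) + 2 * X := by
    have h2 : (2 : Polynomial ℚ) = Polynomial.C 2 := (map_ofNat Polynomial.C 2).symm
    have h3 : (2 : ℚ⟦X⟧) = C (2 : ℚ) := (map_ofNat C 2).symm
    rw [Polynomial.add_comp, Polynomial.mul_comp, Polynomial.X_comp, Polynomial.C_comp, h2,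
      Polynomial.C_comp, h3]
    push_cast
    rw [map_sub, map_mul]
    ring
  have e2 : (((Polynomial.X * (Polynomial.X + Polynomial.C (P.h : ℚ))).comp
      (Polynomial.X - Polynomial.C (k : ℚ)) : Polynomial ℚ) : ℚ⟦X⟧) =
      lin (-k) * lin ((P.h : ℤ) - k) := by
    rw [Polynomial.mul_comp, Polynomial.coe_mul, coe_lin (P.h : ℚ) k ((P.h : ℤ) - k)
      (by push_cast; ring)]
    congr 1
    rw [Polynomial.X_comp, lin]
    push_cast
    rw [map_neg]
    ring
  have e3 : ∀ j : Fin P.r, ((((∏ l ∈ Finset.range (P.a j),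
      (Polynomial.X + Polynomial.C ((l : ℚ) + 1))) *
      (∏ l ∈ Finset.range (P.a j), (Polynomial.X + Polynomial.C ((P.h : ℚ) - (l + 1)))) *
        Polynomial.C (1 / ((P.a j)! : ℚ) ^ 2)).comp
      (Polynomial.X - Polynomial.C (k : ℚ)) : Polynomial ℚ) : ℚ⟦X⟧) = fnum P j k := by
    intro j
    unfold fnum
    rw [Polynomial.mul_comp, Polynomial.mul_comp, Polynomial.coe_mul, Polynomial.coe_mul,
      Polynomial.prod_comp, Polynomial.prod_comp, coe_prod, coe_prod, Polynomial.C_comp,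
      Polynomial.coe_C]
    congr 2
    · refine Finset.prod_congr rfl fun l _ => ?_
      apply coe_lin
      push_cast
      ring
    · refine Finset.prod_congr rfl fun l _ => ?_
      apply coe_lin
      push_cast
      ring
  unfold numP
  rw [Polynomial.mul_comp, Polynomial.mul_comp, Polynomial.mul_comp, Polynomial.coe_mul,
    Polynomial.coe_mul, Polynomial.coe_mul, e1, Polynomial.pow_comp, Polynomial.coe_pow, e2,
    Polynomial.prod_comp, coe_prod', Polynomial.prod_comp, coe_prod']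
  congr 1
  · congr 1
    exact Finset.prod_congr rfl fun j _ => e3 j
  · refine Finset.prod_congr rfl fun i _ => ?_
    rw [Polynomial.C_comp, Polynomial.coe_C]

theorem fser_mul (P : Par) (hb : ∀ i, 2 * P.b i ≤ P.h) (d : ℕ) (k : ℤ) :
    fser P d k * (((denP P).comp (Polynomial.X - Polynomial.C (k : ℚ)) : Polynomial ℚ) : ℚ⟦X⟧) =
      X ^ P.s * (((numP P d).comp (Polynomial.X - Polynomial.C (k : ℚ)) : Polynomial ℚ) :
        ℚ⟦X⟧) := by
  rw [denP_comp, numP_comp]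
  unfold fser
  have h1 : (∏ i, fden P i k) *
      (∏ i, ∏ l ∈ Finset.range (P.h - 2 * P.b i + 1), lin ((P.b i : ℤ) + l - k)) =
      X ^ P.s * ∏ i : Fin P.s, C (((P.h - 2 * P.b i)! : ℕ) : ℚ) := by
    rw [← Finset.prod_mul_distrib, Finset.prod_congr rfl fun i _ => fden_mul P i (hb i) k,
      Finset.prod_mul_distrib]
    simp
  calc _ = (C (((P.h : ℤ) - 2 * k : ℤ) : ℚ) + 2 * X) * (lin (-k) * lin ((P.h : ℤ) - k)) ^ d *
    (∏ j, fnum P j k) * ((∏ i, fden P i k) *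
      (∏ i, ∏ l ∈ Finset.range (P.h - 2 * P.b i + 1), lin ((P.b i : ℤ) + l - k))) := by ring
    _ = _ := by rw [h1]; ring

end ZetaSets
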