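import Pool.Agent.Work.MP_4f096c_nt.CertN
import Pool.Agent.Work.Shared.PNT.Tauber

/-!
TASK D of MP_4f096c_nt: the cost of a list of intervals and the sum over primes.
-/

namespace ZetaSets

open Filter Finset

/-! ### The checker `costB` -/

theorem costB_nil {M q T a b acc : ℕ} (h : costB M q T [] a b acc = true) :
    1 ≤ a ∧ acc + (q * M * b / a + 1) ≤ T := by
  have h' : band (Nat.ble 1 a) (Nat.ble (acc + (q * M * b / a + 1)) T) = true := h
  rw [band_eq, Bool.and_eq_true] at h'
  exact ⟨Nat.le_of_ble_eq_true h'.1, Nat.le_of_ble_eq_true h'.2⟩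

theorem costB_cons {M q T : ℕ} {e : ℕ × ℕ × ℕ} {L : List (ℕ × ℕ × ℕ)} {a b acc : ℕ}
    (h : costB M q T (e :: L) a b acc = true) :
    1 ≤ a ∧ a * e.2.1 ≤ b * e.1 ∧ costB M q T L e.1 e.2.1
      (acc + (e.2.2 * M * (b * e.1 - a * e.2.1) / (a * e.1) + 1)) = true := by
  have h' : band (Nat.ble 1 a) (band (Nat.ble (a * e.2.1) (b * e.1))
      (costB M q T L e.1 e.2.1
        (acc + (e.2.2 * M * (b * e.1 - a * e.2.1) / (a * e.1) + 1)))) = true := h
  rw [band_eq, Bool.and_eq_true, band_eq, Bool.and_eq_true] at h'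
  exact ⟨Nat.le_of_ble_eq_true h'.1, Nat.le_of_ble_eq_true h'.2.1, h'.2.2⟩

theorem costB_pos {M q T : ℕ} {L : List (ℕ × ℕ × ℕ)} {a b acc : ℕ}
    (h : costB M q T L a b acc = true) : 1 ≤ a := by
  cases L with
  | nil => exact (costB_nil h).1
  | cons e L => exact (costB_cons h).1

theorem div_le_nat_div_add_one (x y : ℕ) (hy : 1 ≤ y) :
    (x : ℝ) / y ≤ ((x / y + 1 : ℕ) : ℝ) := by
  have hy' : (0 : ℝ) < y := by exact_mod_cast hy
  rw [div_le_iff₀ hy']
  have h := Nat.lt_div_mul_add (a := x) (b := y) (by omega)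
  have h2 : x ≤ (x / y + 1) * y := by rw [add_mul, one_mul]; omega
  exact_mod_cast h2

theorem costB_sound {M q T : ℕ} (_hM : 0 < M) : ∀ (L : List (ℕ × ℕ × ℕ)) (a b acc : ℕ),
    costB M q T L a b acc = true → (M : ℝ) * costR q L a b + acc ≤ T := by
  intro L
  induction L with
  | nil =>
    intro a b acc h
    obtain ⟨ha, h⟩ := costB_nil h
    have h1 := div_le_nat_div_add_one (q * M * b) a ha
    have h2 : ((acc : ℝ) + ((q * M * b / a + 1 : ℕ) : ℝ)) ≤ T := by exact_mod_cast h
    have h3 : (M : ℝ) * costR q [] a b = ((q * M * b : ℕ) : ℝ) / a := by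
      simp only [costR]; push_cast; ring
    rw [h3]
    linarith
  | cons e L ih =>
    intro a b acc h
    obtain ⟨ha, hm, h⟩ := costB_cons h
    have he : 1 ≤ e.1 := costB_pos h
    have h4 := ih _ _ _ h
    have h1 := div_le_nat_div_add_one (e.2.2 * M * (b * e.1 - a * e.2.1)) (a * e.1)
      (Nat.mul_pos ha he)
    have ha' : (a : ℝ) ≠ 0 := by positivity
    have he' : (e.1 : ℝ) ≠ 0 := by positivity
    have h3 : (M : ℝ) * costR q (e :: L) a b =
        ((e.2.2 * M * (b * e.1 - a * e.2.1) : ℕ) : ℝ) / ((a * e.1 : ℕ) : ℝ) +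
          M * costR q L e.1 e.2.1 := by
      simp only [costR]
      rw [Nat.cast_mul, Nat.cast_sub hm]
      push_cast
      field_simp
    rw [h3]
    push_cast at h4 h1 ⊢
    linarith

/-! ### The sum over primes -/

/-- the `theta` version of the cost -/
noncomputable def sumR (q : ℕ) : List (ℕ × ℕ × ℕ) → ℕ → ℕ → ℕ → ℝ
  | [], a, b, n => q * Chebyshev.theta (n * ((b : ℝ) / a))
  | e :: L, a, b, n => e.2.2 * (Chebyshev.theta (n * ((b : ℝ) / a)) -
      Chebyshev.theta (n * ((e.2.1 : ℝ) / e.1))) + sumR q L e.1 e.2.1 n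

theorem floor_mul_div (n b a : ℕ) : ⌊(n : ℝ) * ((b : ℝ) / a)⌋₊ = n * b / a := by
  rw [← mul_div_assoc, ← Nat.cast_mul, Nat.floor_div_eq_div]

theorem sum_le_theta (P : Finset ℕ) (hP : ∀ p ∈ P, p.Prime) {n a b : ℕ} (ha : 1 ≤ a) :
    ∑ p ∈ P.filter (fun p => a * p ≤ n * b), Real.log p ≤ Chebyshev.theta (n * ((b : ℝ) / a)) := by
  unfold Chebyshev.theta
  rw [floor_mul_div]
  apply sum_le_sum_of_subset_of_nonneg
  · intro p hp
    rw [mem_filter] at hp ⊢
    refine ⟨?_, hP p hp.1⟩
    rw [mem_Ioc]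
    exact ⟨(hP p hp.1).pos, (Nat.le_div_iff_mul_le ha).2 (by rw [mul_comm]; exact hp.2)⟩
  · intro p _ _
    exact Real.log_natCast_nonneg p

theorem sum_le_theta_sub (P : Finset ℕ) (hP : ∀ p ∈ P, p.Prime) {n a b a' b' : ℕ} (ha : 1 ≤ a)
    (ha' : 1 ≤ a') (hm : a * b' ≤ b * a') :
    ∑ p ∈ P.filter (fun p => a * p ≤ n * b ∧ n * b' < a' * p), Real.log p ≤
      Chebyshev.theta (n * ((b : ℝ) / a)) - Chebyshev.theta (n * ((b' : ℝ) / a')) := by
  rw [le_sub_iff_add_le]
  unfold Chebyshev.theta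
  rw [floor_mul_div, floor_mul_div, ← sum_union]
  · apply sum_le_sum_of_subset_of_nonneg
    · intro p hp
      rw [mem_union, mem_filter, mem_filter, mem_Ioc] at hp
      rw [mem_filter, mem_Ioc]
      rcases hp with hp | hp
      · exact ⟨⟨(hP p hp.1).pos, (Nat.le_div_iff_mul_le ha).2 (by rw [mul_comm]; exact hp.2.1)⟩,
          hP p hp.1⟩
      · refine ⟨⟨hp.1.1, ?_⟩, hp.2⟩
        have h1 : p * a' ≤ n * b' := (Nat.le_div_iff_mul_le ha').1 hp.1.2
        rw [Nat.le_div_iff_mul_le ha]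
        have h2 : (p * a) * a' ≤ (n * b) * a' := by
          calc (p * a) * a' = (p * a') * a := by ring
            _ ≤ (n * b') * a := Nat.mul_le_mul_right _ h1
            _ = n * (a * b') := by ring
            _ ≤ n * (b * a') := Nat.mul_le_mul_left _ hm
            _ = (n * b) * a' := by ring
        exact Nat.le_of_mul_le_mul_right h2 ha'
    · intro p _ _
      exact Real.log_natCast_nonneg p
  · rw [Finset.disjoint_left]
    intro p hp hp'
    rw [mem_filter] at hp
    rw [mem_filter, mem_Ioc, Nat.le_div_iff_mul_le ha'] at hp'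
    have h1 := hp.2.2
    have h2 := hp'.1.2
    rw [mul_comm] at h2
    omega

theorem sum_le_sumR (P : Finset ℕ) (hP : ∀ p ∈ P, p.Prime) (n : ℕ) {M q T : ℕ} :
    ∀ (L : List (ℕ × ℕ × ℕ)) (a b acc : ℕ), costB M q T L a b acc = true →
      ∑ p ∈ P.filter (fun p => a * p ≤ n * b), (lookq q L n p : ℝ) * Real.log p ≤
        sumR q L a b n := by
  intro L
  induction L with
  | nil =>
    intro a b acc h
    obtain ⟨ha, h⟩ := costB_nil h
    simp only [lookq, sumR]
    rw [← mul_sum]
    exact mul_le_mul_of_nonneg_left (sum_le_theta P hP ha) (Nat.cast_nonneg _)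
  | cons e L ih =>
    intro a b acc h
    obtain ⟨ha, hm, h⟩ := costB_cons h
    have he : 1 ≤ e.1 := costB_pos h
    have h1 := ih _ _ _ h
    have h2 := sum_le_theta_sub P hP (n := n) ha he hm
    simp only [sumR]
    have h3 := mul_le_mul_of_nonneg_left h2 (Nat.cast_nonneg (α := ℝ) e.2.2)
    refine le_trans (le_of_eq ?_) (add_le_add h3 h1)
    rw [← sum_filter_add_sum_filter_not _ (fun p => n * e.2.1 < e.1 * p), filter_filter,
      filter_filter, mul_sum]
    congr 1
    · apply sum_congr rfl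
      intro p hp
      rw [mem_filter] at hp
      simp only [lookq, if_pos hp.2.2]
    · have hset : P.filter (fun p => a * p ≤ n * b ∧ ¬ n * e.2.1 < e.1 * p) =
          P.filter (fun p => e.1 * p ≤ n * e.2.1) := by
        apply filter_congr
        intro p _
        rw [not_lt]
        constructor
        · exact fun h => h.2
        · intro h
          refine ⟨?_, h⟩
          have h2 : (a * p) * e.1 ≤ (n * b) * e.1 := by
            calc (a * p) * e.1 = a * (e.1 * p) := by ring
              _ ≤ a * (n * e.2.1) := Nat.mul_le_mul_left _ h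
              _ = n * (a * e.2.1) := by ring
              _ ≤ n * (b * e.1) := Nat.mul_le_mul_left _ hm
              _ = (n * b) * e.1 := by ring
          exact Nat.le_of_mul_le_mul_right h2 he
      rw [hset]
      apply sum_congr rfl
      intro p hp
      rw [mem_filter] at hp
      simp only [lookq, if_neg (not_lt.2 hp.2)]

/-! ### The prime number theorem -/

theorem theta_div_tendsto (c : ℝ) (hc : 0 ≤ c) :
    Tendsto (fun n : ℕ => Chebyshev.theta (n * c) / n) atTop (nhds c) := by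
  rcases hc.eq_or_lt with h0 | hc
  · subst h0
    simp [Chebyshev.theta_zero]
  obtain ⟨C, hC, h⟩ := Pool.Agent.Work.Shared.PNT.theta_sub_self_le 1
  have hlim : Tendsto (fun n : ℕ => C * c / Real.log (n * c)) atTop (nhds 0) := by
    apply Tendsto.const_div_atTop
    apply Real.tendsto_log_atTop.comp
    exact tendsto_natCast_atTop_atTop.atTop_mul_const hc
  rw [tendsto_iff_norm_sub_tendsto_zero]
  refine squeeze_zero' (Eventually.of_forall fun n => norm_nonneg _) ?_ hlim
  have hev : ∀ᶠ n : ℕ in atTop, 2 ≤ (n : ℝ) * c :=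
    (tendsto_natCast_atTop_atTop.atTop_mul_const hc).eventually_ge_atTop 2
  filter_upwards [hev, eventually_ge_atTop 1] with n hn hn1
  have hn' : (0 : ℝ) < n := by exact_mod_cast hn1
  have h1 := h (n * c) hn
  rw [Real.rpow_one] at h1
  have e1 : Chebyshev.theta (n * c) / n - c = (Chebyshev.theta (n * c) - n * c) / n := by
    field_simp
  rw [Real.norm_eq_abs, e1, abs_div, abs_of_pos hn', div_le_iff₀ hn']
  refine h1.trans (le_of_eq ?_)
  ring

theorem sumR_tendsto {q : ℕ} : ∀ (L : List (ℕ × ℕ × ℕ)) (a b : ℕ),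
    Tendsto (fun n : ℕ => sumR q L a b n / n) atTop (nhds (costR q L a b)) := by
  intro L
  induction L with
  | nil =>
    intro a b
    simp only [sumR, costR]
    have h := (theta_div_tendsto ((b : ℝ) / a) (by positivity)).const_mul (q : ℝ)
    refine h.congr fun n => ?_
    ring
  | cons e L ih =>
    intro a b
    simp only [sumR, costR]
    have h1 := theta_div_tendsto ((b : ℝ) / a) (by positivity)
    have h2 := theta_div_tendsto ((e.2.1 : ℝ) / e.1) (by positivity)
    have h := ((h1.sub h2).const_mul (e.2.2 : ℝ)).add (ih e.1 e.2.1)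
    refine h.congr fun n => ?_
    ring

/-! ### The exceptional primes -/

/-- product of the integers whose prime divisors are exceptional -/
def Dat.W (D : Dat) (n : ℕ) : ℕ :=
  n * (D.η * n + 1) * (D.cand.map fun c => (D.η - c) * n + 1).prod

theorem Dat.W_pos (D : Dat) {n : ℕ} (hn : 0 < n) : 0 < D.W n := by
  unfold Dat.W
  apply Nat.mul_pos (Nat.mul_pos hn (Nat.succ_pos _))
  apply List.prod_pos
  intro x hx
  rw [List.mem_map] at hx
  obtain ⟨c, _, rfl⟩ := hx
  exact Nat.succ_pos _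

theorem Dat.dvd_W (D : Dat) {n p : ℕ} (h : p ∣ n ∨ D.Exc n p) : p ∣ D.W n := by
  unfold Dat.W
  rcases h with h | h | ⟨c, hc, h⟩
  · exact Dvd.dvd.mul_right (Dvd.dvd.mul_right h _) _
  · exact Dvd.dvd.mul_right (Dvd.dvd.mul_left h _) _
  · apply Dvd.dvd.mul_left
    exact h.trans (List.dvd_prod (List.mem_map.2 ⟨c, hc, rfl⟩))

theorem Dat.log_W_le (D : Dat) {n : ℕ} (hn : 0 < n) :
    Real.log (D.W n) ≤ (2 + D.cand.length) * Real.log ((D.η + 1) * n + 1) := by
  have hkey : ∀ l : List ℕ, 0 ≤ Real.log ((l.map fun c => (D.η - c) * n + 1).prod : ℕ) ∧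
      Real.log ((l.map fun c => (D.η - c) * n + 1).prod : ℕ) ≤
        l.length * Real.log ((D.η + 1) * n + 1) := by
    intro l
    induction l with
    | nil => simp
    | cons c l ih =>
      rw [List.map_cons, List.prod_cons, List.length_cons, Nat.cast_mul]
      have hp : 0 < (l.map fun c => (D.η - c) * n + 1).prod := by
        apply List.prod_pos
        intro x hx
        rw [List.mem_map] at hx
        obtain ⟨c, _, rfl⟩ := hx
        exact Nat.succ_pos _
      have h1 : (((D.η - c) * n + 1 : ℕ) : ℝ) ≠ 0 := by positivity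
      have h2 : (((l.map fun c => (D.η - c) * n + 1).prod : ℕ) : ℝ) ≠ 0 := by
        have := hp.ne'
        exact_mod_cast this
      rw [Real.log_mul h1 h2]
      have h3 : Real.log (((D.η - c) * n + 1 : ℕ) : ℝ) ≤ Real.log ((D.η + 1) * n + 1) := by
        apply Real.log_le_log (by positivity)
        have : (D.η - c) * n + 1 ≤ (D.η + 1) * n + 1 := by
          have := Nat.mul_le_mul_right n (show D.η - c ≤ D.η + 1 by omega)
          omega
        exact_mod_cast this
      have h4 : 0 ≤ Real.log (((D.η - c) * n + 1 : ℕ) : ℝ) := Real.log_natCast_nonneg _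
      refine ⟨add_nonneg h4 ih.1, ?_⟩
      have h5 := ih.2
      have h6 : (((l.length + 1 : ℕ)) : ℝ) * Real.log ((D.η + 1) * n + 1) =
          l.length * Real.log ((D.η + 1) * n + 1) + Real.log ((D.η + 1) * n + 1) := by
        push_cast; ring
      rw [h6]
      linarith
  unfold Dat.W
  have hp : 0 < (D.cand.map fun c => (D.η - c) * n + 1).prod := by
    apply List.prod_pos
    intro x hx
    rw [List.mem_map] at hx
    obtain ⟨c, _, rfl⟩ := hx
    exact Nat.succ_pos _
  have hn' : (n : ℝ) ≠ 0 := by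
    have := hn.ne'
    exact_mod_cast this
  have h1 : ((D.η * n + 1 : ℕ) : ℝ) ≠ 0 := by positivity
  have h2 : (((D.cand.map fun c => (D.η - c) * n + 1).prod : ℕ) : ℝ) ≠ 0 := by
    have := hp.ne'
    exact_mod_cast this
  rw [Nat.cast_mul, Nat.cast_mul, Real.log_mul (mul_ne_zero hn' h1) h2, Real.log_mul hn' h1]
  have h3 := (hkey D.cand).2
  have h4 : Real.log (n : ℝ) ≤ Real.log ((D.η + 1) * n + 1) := by
    apply Real.log_le_log (by exact_mod_cast hn)
    have : n ≤ (D.η + 1) * n + 1 := by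
      have := Nat.le_mul_of_pos_left n (show 0 < D.η + 1 by omega)
      omega
    exact_mod_cast this
  have h5 : Real.log ((D.η * n + 1 : ℕ) : ℝ) ≤ Real.log ((D.η + 1) * n + 1) := by
    apply Real.log_le_log (by positivity)
    have : D.η * n + 1 ≤ (D.η + 1) * n + 1 := by
      have := Nat.mul_le_mul_right n (show D.η ≤ D.η + 1 by omega)
      omega
    exact_mod_cast this
  linarith

theorem log_lin_tendsto (a : ℝ) (ha : 0 < a) :
    Tendsto (fun n : ℕ => Real.log (a * n + 1) / n) atTop (nhds 0) := by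
  have h1 : Tendsto (fun x : ℝ => Real.log x / x) atTop (nhds 0) :=
    Real.isLittleO_log_id_atTop.tendsto_div_nhds_zero
  have h2 : Tendsto (fun n : ℕ => a * (n : ℝ) + 1) atTop atTop :=
    tendsto_atTop_add_const_right _ _ (tendsto_natCast_atTop_atTop.const_mul_atTop ha)
  have h3 := h1.comp h2
  have h4 : Tendsto (fun n : ℕ => (a * (n : ℝ) + 1) / n) atTop (nhds a) := by
    have h5 : Tendsto (fun n : ℕ => a + 1 / (n : ℝ)) atTop (nhds (a + 0)) :=
      tendsto_const_nhds.add tendsto_one_div_atTop_nhds_zero_nat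
    rw [add_zero] at h5
    refine h5.congr' ?_
    filter_upwards [eventually_ge_atTop 1] with n hn
    have : (n : ℝ) ≠ 0 := by positivity
    field_simp
  have h6 := h3.mul h4
  rw [zero_mul] at h6
  refine h6.congr' ?_
  filter_upwards [eventually_ge_atTop 1] with n hn
  have h7 : (n : ℝ) ≠ 0 := by positivity
  have h8 : a * (n : ℝ) + 1 ≠ 0 := by positivity
  simp only [Function.comp]
  field_simp

theorem sum_exc_le (D : Dat) (P : Finset ℕ) (hP : ∀ p ∈ P, p.Prime) {n : ℕ} (hn : 0 < n)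
    [DecidablePred fun p => p ∣ n ∨ D.Exc n p] :
    ∑ p ∈ P.filter (fun p => p ∣ n ∨ D.Exc n p), Real.log p ≤ Real.log (D.W n) := by
  have hW := D.W_pos hn
  have h1 : ∏ p ∈ P.filter (fun p => p ∣ n ∨ D.Exc n p), p ∣ D.W n := by
    refine dvd_trans (prod_dvd_prod_of_subset _ (D.W n).primeFactors _ ?_)
      (Nat.prod_primeFactors_dvd _)
    intro p hp
    rw [mem_filter] at hp
    rw [Nat.mem_primeFactors]
    exact ⟨hP p hp.1, D.dvd_W hp.2, hW.ne'⟩
  have h2 : ∑ p ∈ P.filter (fun p => p ∣ n ∨ D.Exc n p), Real.log p =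
      Real.log ((∏ p ∈ P.filter (fun p => p ∣ n ∨ D.Exc n p), p : ℕ) : ℝ) := by
    rw [Nat.cast_prod, Real.log_prod]
    intro p hp
    rw [mem_filter] at hp
    exact_mod_cast (hP p hp.1).ne_zero
  rw [h2]
  apply Real.log_le_log
  · have : 0 < ∏ p ∈ P.filter (fun p => p ∣ n ∨ D.Exc n p), p := by
      apply Finset.prod_pos
      intro p hp
      rw [mem_filter] at hp
      exact (hP p hp.1).pos
    exact_mod_cast this
  · exact_mod_cast Nat.le_of_dvd hW h1

/-! ### The main theorem -/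

theorem DatN.hsum_aux (D : DatN) (a1 b1 : ℕ) (L : List (ℕ × ℕ × ℕ)) {M T : ℕ}
    (hM : 0 < M) (hB : costB M (D.r + D.s - 1) T L a1 b1 0 = true) {C2 : ℝ}
    (hC : (T : ℝ) < C2 * M) :
    ∀ᶠ n : ℕ in atTop, ∀ P : Finset ℕ, (∀ p ∈ P, p.Prime) →
      ∑ p ∈ P, (D.e ((a1, b1, 0) :: L) n p : ℝ) * Real.log p ≤ C2 * n := by
  classical
  set q := D.r + D.s - 1 with hq
  have hcost : costR q L a1 b1 < C2 := by
    have h := costB_sound hM L a1 b1 0 hB
    rw [Nat.cast_zero, add_zero] at h
    have hM' : (0 : ℝ) < M := by exact_mod_cast hM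
    have h2 := h.trans_lt hC
    rw [mul_comm C2] at h2
    exact lt_of_mul_lt_mul_left h2 hM'.le
  have hlim1 := sumR_tendsto (q := q) L a1 b1
  have hlim2 : Tendsto (fun n : ℕ => (q : ℝ) * ((2 + D.dat.cand.length) *
      (Real.log ((D.dat.η + 1) * n + 1) / n))) atTop (nhds ((q : ℝ) * ((2 + D.dat.cand.length) * 0))) :=
    ((log_lin_tendsto ((D.dat.η : ℝ) + 1) (by positivity)).const_mul _).const_mul _
  have hlim := hlim1.add hlim2
  rw [mul_zero, mul_zero, add_zero] at hlim
  filter_upwards [hlim.eventually_lt_const hcost, eventually_ge_atTop 1] with n hn hn1 P hP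
  have hn' : (0 : ℝ) < n := by exact_mod_cast hn1
  have e1 : ∀ p ∈ P, (D.e ((a1, b1, 0) :: L) n p : ℝ) * Real.log p ≤
      (if a1 * p ≤ n * b1 then (lookq q L n p : ℝ) * Real.log p else 0) +
        (if p ∣ n ∨ D.dat.Exc n p then (q : ℝ) * Real.log p else 0) := by
    intro p hp
    have hlog : 0 ≤ Real.log (p : ℝ) := Real.log_natCast_nonneg p
    unfold DatN.e
    by_cases hx : p ∣ n ∨ D.dat.Exc n p
    · rw [if_pos hx, if_pos hx]
      have : 0 ≤ (if a1 * p ≤ n * b1 then (lookq q L n p : ℝ) * Real.log p else 0) := by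
        split_ifs
        · positivity
        · exact le_refl _
      linarith
    · rw [if_neg hx, if_neg hx, add_zero]
      simp only [lookq]
      by_cases hy : n * b1 < a1 * p
      · rw [if_pos hy, if_neg (not_le.2 hy)]
        simp
      · rw [if_neg hy, if_pos (not_lt.1 hy)]
  have e2 := sum_le_sum e1
  rw [sum_add_distrib, ← sum_filter, ← sum_filter, ← mul_sum] at e2
  have e3 := sum_le_sumR P hP n L a1 b1 0 hB
  have e4 := sum_exc_le D.dat P hP (n := n) hn1
  have e5 := D.dat.log_W_le (n := n) hn1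
  have e6 := mul_le_mul_of_nonneg_left (e4.trans e5) (Nat.cast_nonneg (α := ℝ) q)
  have e7 : sumR q L a1 b1 n + (q : ℝ) * ((2 + D.dat.cand.length) *
      (Real.log ((D.dat.η + 1) * n + 1))) ≤ C2 * n := by
    have h := mul_le_mul_of_nonneg_right hn.le hn'.le
    refine le_trans (le_of_eq ?_) h
    field_simp
  linarith

/-- **TASK D**: the sum of `e(n,p) log p` over the primes is at most `C2 n`. -/
theorem DatN.hsum {D : DatN} (_hD : D.Valid) (a1 b1 : ℕ) (L : List (ℕ × ℕ × ℕ)) {M T : ℕ}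
    (hM : 0 < M) (hB : costB M (D.r + D.s - 1) T L a1 b1 0 = true) {C2 : ℝ}
    (hC : (T : ℝ) < C2 * M) :
    ∀ᶠ n : ℕ in Filter.atTop,
      ∑ p ∈ (Finset.range ((D.dat.fam.par n).h + 1)).filter
        (fun p => p.Prime ∧ (D.dat.fam.par n).h < p * p),
        (D.e ((a1, b1, 0) :: L) n p : ℝ) * Real.log p ≤ C2 * n := by
  filter_upwards [DatN.hsum_aux D a1 b1 L hM hB hC] with n hn
  apply hn
  intro p hp
  rw [mem_filter] at hp
  exact hp.2.1

end ZetaSets
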